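import Pool.Agent.Lib.AG.TDa

/-! Generic cocharacters and the action of the normaliser of a torus. -/

namespace Pool.Agent.AG

open Set Matrix

universe u

private theorem act_large {I : Type*} {s : Set I} (hs : s.Finite) (g : I → ℤ) :
    ∃ N : ℕ, ∀ i ∈ s, |g i| < N := by
  obtain ⟨B, hB⟩ := (hs.image fun i => |g i|).bddAbove
  refine ⟨B.toNat + 1, fun i hi => ?_⟩
  have h1 : |g i| ≤ B := hB ⟨i, hi, rfl⟩
  push_cast
  omega

private theorem act_pos {N : ℕ} {u v : ℤ} (hu : 0 < u) (hv : |v| < N) : 0 < N * u + v := by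
  have h1 := (abs_lt.1 hv).1
  have h2 : (N : ℤ) * 1 ≤ N * u := mul_le_mul_of_nonneg_left hu (Int.natCast_nonneg N)
  omega

private theorem act_ne {N : ℕ} {u v : ℤ} (hu : u ≠ 0) (hv : |v| < N) : N * u + v ≠ 0 := by
  rcases lt_or_gt_of_ne hu with h | h
  · have := act_pos (N := N) (u := -u) (v := -v) (neg_pos.2 h) (by rwa [abs_neg])
    rw [mul_neg] at this
    omega
  · exact (act_pos h hv).ne'

theorem exists_generic {M I : Type*} [AddCommGroup M] {s : Set I} (hs : s.Finite)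
    (f : I → M →+ ℤ) (h : ∀ i ∈ s, f i ≠ 0) : ∃ m, ∀ i ∈ s, f i m ≠ 0 := by
  induction s, hs using Set.Finite.induction_on with
  | empty => exact ⟨0, fun i hi => hi.elim⟩
  | @insert i s _ hs ih =>
    obtain ⟨m, hm⟩ := ih fun j hj => h j (mem_insert_of_mem _ hj)
    by_cases hi : f i m = 0
    · obtain ⟨m', hm'⟩ : ∃ m', f i m' ≠ 0 := by
        by_contra hc
        exact h i (mem_insert _ _) (AddMonoidHom.ext fun m' => not_not.1 fun e => hc ⟨m', e⟩)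
      obtain ⟨N, hN⟩ := act_large hs fun j => f j m'
      refine ⟨N • m + m', ?_⟩
      rintro j (rfl | hj)
      · rwa [map_add, map_nsmul, hi, smul_zero, zero_add]
      · rw [map_add, map_nsmul, nsmul_eq_mul]
        exact act_ne (hm j hj) (hN j hj)
    · refine ⟨m, ?_⟩
      rintro j (rfl | hj)
      exacts [hi, hm j hj]

theorem sga_ray {r : ℕ} (α : Fin r → ℤ) : SGa (ray α) := by
  rintro x ⟨a, b, ha, hb, e⟩ x' ⟨a', b', ha', hb', e'⟩
  refine ⟨a * a', a' * b + a * b', by positivity, by positivity, ?_⟩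
  rw [smul_add, add_smul, mul_smul a' b, ← e, mul_smul a b', ← e', smul_smul, smul_smul,
    mul_comm a' a]

theorem sga_line {r : ℕ} (α : Fin r → ℤ) : SGa (line α) := by
  rintro x ⟨a, b, ha, e⟩ x' ⟨a', b', ha', e'⟩
  refine ⟨a * a', a' * b + a * b', by positivity, ?_⟩
  rw [smul_add, add_smul, mul_smul (a' : ℤ) b, ← e, mul_smul (a : ℤ) b', ← e', natCast_zsmul,
    natCast_zsmul, smul_smul, smul_smul, mul_comm a' a]

theorem mem_line_iff {r : ℕ} {α x : Fin r → ℤ} (hα : α ≠ 0) :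
    x ∈ line α ↔ x = 0 ∨ x ∈ ray α ∨ x ∈ ray (-α) := by
  constructor
  · rintro ⟨a, b, ha, e⟩
    obtain ⟨b, rfl | rfl⟩ := b.eq_nat_or_neg
    · rcases b.eq_zero_or_pos with rfl | hb
      · exact Or.inl ((smul_eq_zero.1 (e.trans (zero_smul _ _))).resolve_left ha.ne')
      · exact Or.inr (Or.inl ⟨a, b, ha, hb, by rw [e, natCast_zsmul]⟩)
    · rcases b.eq_zero_or_pos with rfl | hb
      · exact Or.inl ((smul_eq_zero.1 (e.trans (zero_smul _ _))).resolve_left ha.ne')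
      · exact Or.inr (Or.inr ⟨a, b, ha, hb, by rw [e, neg_smul, natCast_zsmul, smul_neg]⟩)
  · rintro (rfl | ⟨a, b, ha, -, e⟩ | ⟨a, b, ha, -, e⟩)
    · exact ⟨1, 0, one_pos, by rw [smul_zero, zero_smul]⟩
    · exact ⟨a, b, ha, by rw [e, natCast_zsmul]⟩
    · exact ⟨a, -b, ha, by rw [e, neg_smul, natCast_zsmul, smul_neg]⟩

theorem mem_line_of_dot {r : ℕ} {α x : Fin r → ℤ} (h : ∀ y, α ⬝ᵥ y = 0 → x ⬝ᵥ y = 0) :
    x ∈ line α := by
  by_cases hα : α = 0
  · refine ⟨1, 0, one_pos, ?_⟩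
    rw [dotProduct_eq_zero x fun y => h y (by rw [hα, zero_dotProduct]), smul_zero, zero_smul]
  · obtain ⟨i, hi⟩ : ∃ i, α i ≠ 0 := Function.ne_iff.1 hα
    refine ⟨(α i).natAbs * (α i).natAbs, α i * x i,
      mul_pos (Int.natAbs_pos.2 hi) (Int.natAbs_pos.2 hi), ?_⟩
    funext j
    have h1 := h (Pi.single j (α i) - Pi.single i (α j)) (by
      rw [dotProduct_sub, dotProduct_single, dotProduct_single, mul_comm, sub_self])
    rw [dotProduct_sub, dotProduct_single, dotProduct_single] at h1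
    rw [Pi.smul_apply, Pi.smul_apply, nsmul_eq_mul, Int.natAbs_mul_self, smul_eq_mul]
    linear_combination α i * h1

theorem ray_dot_pos {r : ℕ} {α x y : Fin r → ℤ} (h : x ∈ ray α) (hy : 0 < α ⬝ᵥ y) :
    0 < x ⬝ᵥ y := by
  obtain ⟨a, b, ha, hb, e⟩ := h
  have h1 : a • (x ⬝ᵥ y) = b • (α ⬝ᵥ y) := by rw [← smul_dotProduct, e, smul_dotProduct]
  rw [nsmul_eq_mul, nsmul_eq_mul] at h1
  have h2 : 0 < (a : ℤ) * (x ⬝ᵥ y) := by rw [h1]; positivity
  exact pos_of_mul_pos_right h2 (Int.natCast_nonneg a)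

theorem line_dot_zero {r : ℕ} {α x y : Fin r → ℤ} (h : x ∈ line α) (hy : α ⬝ᵥ y = 0) :
    x ⬝ᵥ y = 0 := by
  obtain ⟨a, b, ha, e⟩ := h
  have h1 : a • (x ⬝ᵥ y) = b • (α ⬝ᵥ y) := by rw [← smul_dotProduct, e, smul_dotProduct]
  rw [hy, smul_zero] at h1
  exact (smul_eq_zero.1 h1).resolve_left ha.ne'

/-- The dot product with a fixed vector. -/
private def actDot {r : ℕ} (x : Fin r → ℤ) : (Fin r → ℤ) →+ ℤ where
  toFun y := x ⬝ᵥ y
  map_zero' := dotProduct_zero x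
  map_add' := dotProduct_add x

/-- A generic vector that refines the signs of a given one. -/
theorem exists_refine {r : ℕ} {F : Set (Fin r → ℤ)} (hF : F.Finite) (y₁ : Fin r → ℤ) :
    ∃ y, (∀ x ∈ F, x ≠ 0 → x ⬝ᵥ y ≠ 0) ∧ ∀ x ∈ F, 0 < x ⬝ᵥ y₁ → 0 < x ⬝ᵥ y := by
  obtain ⟨y₂, h₂⟩ := exists_generic (hF.subset (sep_subset F fun x => x ≠ 0)) actDot
    fun x hx e => hx.2 (dotProduct_eq_zero x fun y => DFunLike.congr_fun e y)
  obtain ⟨N, hN⟩ := act_large hF fun x => x ⬝ᵥ y₂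
  have e : ∀ x : Fin r → ℤ, x ⬝ᵥ (N • y₁ + y₂) = N * (x ⬝ᵥ y₁) + x ⬝ᵥ y₂ := fun x => by
    rw [dotProduct_add, dotProduct_smul, nsmul_eq_mul]
  refine ⟨N • y₁ + y₂, fun x hx h0 => ?_, fun x hx h0 => ?_⟩
  · rw [e]
    by_cases h1 : x ⬝ᵥ y₁ = 0
    · rw [h1, mul_zero, zero_add]
      exact h₂ x ⟨hx, h0⟩
    · exact act_ne h1 (hN x hx)
  · rw [e]
    exact act_pos h0 (hN x hx)

theorem exists_perp {r : ℕ} {F : Set (Fin r → ℤ)} (hF : F.Finite) (α : Fin r → ℤ) :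
    ∃ y, α ⬝ᵥ y = 0 ∧ ∀ x ∈ F, x ⬝ᵥ y = 0 → x ∈ line α := by
  obtain ⟨y, hy⟩ := exists_generic (hF.subset (sep_subset F fun x => x ∉ line α))
    (fun x => (actDot x).comp (actDot α).ker.subtype)
    fun x hx e => hx.2 (mem_line_of_dot fun y hy => DFunLike.congr_fun e ⟨y, hy⟩)
  refine ⟨y.1, y.2, fun x hx h0 => ?_⟩
  by_contra hc
  exact hy x ⟨hx, hc⟩ h0

theorem exists_dot_pos₂ {r : ℕ} {α β : Fin r → ℤ} (hα : α ≠ 0) (hβ : β ≠ 0)
    (h : β ∉ ray (-α)) : ∃ y, 0 < α ⬝ᵥ y ∧ 0 < β ⬝ᵥ y := by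
  have h0 : 0 < α ⬝ᵥ α := lt_of_le_of_ne (Finset.sum_nonneg fun i _ => mul_self_nonneg _)
    fun e => hα (dotProduct_self_eq_zero.1 e.symm)
  by_cases hl : β ∈ line α
  · exact ⟨α, h0, ray_dot_pos ((((mem_line_iff hα).1 hl).resolve_left hβ).resolve_right h) h0⟩
  · obtain ⟨y, h1, h2⟩ : ∃ y, α ⬝ᵥ y = 0 ∧ 0 < β ⬝ᵥ y := by
      by_contra hc
      refine hl (mem_line_of_dot fun y hy => ?_)
      rcases lt_trichotomy (β ⬝ᵥ y) 0 with h3 | h3 | h3
      · exact (hc ⟨-y, by rw [dotProduct_neg, hy, neg_zero],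
          by rw [dotProduct_neg]; exact neg_pos.2 h3⟩).elim
      · exact h3
      · exact (hc ⟨y, hy, h3⟩).elim
    refine ⟨((β ⬝ᵥ α).natAbs + 1) • y + α, ?_, ?_⟩
    · rwa [dotProduct_add, dotProduct_smul, h1, smul_zero, zero_add]
    · rw [dotProduct_add, dotProduct_smul, nsmul_eq_mul]
      exact act_pos h2 (by rw [Int.abs_eq_natAbs]; exact_mod_cast Nat.lt_succ_self _)

variable {k : Type u} [Field k] [IsAlgClosed k] [Fact (ringChar k).Prime] {n : ℕ}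
  {G T : Subgroup (Gl n k)} (τ : TD T) {V : Type u} [AddCommGroup V] [Module k V]
  {ρ : Gl n k → Module.End k V}

namespace TD

theorem exists_rg {F : Set τ.X} (hF : F.Finite) (y₁ : τ.X) :
    ∃ y, τ.Rg y ∧ (∀ x ∈ F, x ≠ 0 → x ⬝ᵥ y ≠ 0) ∧ ∀ x ∈ F, 0 < x ⬝ᵥ y₁ → 0 < x ⬝ᵥ y := by
  obtain ⟨y, h1, h2⟩ := exists_refine (hF.union (τ.finite_w Ad)) y₁
  exact ⟨y, fun x h0 hx => h1 x (Or.inr hx) h0, fun x hx => h1 x (Or.inl hx),
    fun x hx => h2 x (Or.inl hx)⟩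

theorem Rg.neg {y : τ.X} (h : τ.Rg y) : τ.Rg (-y) := by
  intro x h0 hx
  rw [dotProduct_neg]
  exact neg_ne_zero.2 (h x h0 hx)

omit [Fact (ringChar k).Prime] in
private theorem act_zpow {m m' : ℤ} (h : ∀ c : kˣ, c ^ m = c ^ m') : m = m' := by
  classical
  by_contra hne
  have hd : 0 < (m - m').natAbs := Int.natAbs_pos.2 (sub_ne_zero.2 hne)
  obtain ⟨t, ht⟩ := Infinite.exists_notMem_finset ({0, 1} : Finset k)
  simp only [Finset.mem_insert, Finset.mem_singleton, not_or] at ht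
  obtain ⟨c, hc⟩ := IsAlgClosed.exists_pow_nat_eq t hd
  have h0 : c ≠ 0 := fun e => ht.1 (by rw [← hc, e, zero_pow hd.ne'])
  have h1 : Units.mk0 c h0 ^ (m - m') = 1 := by rw [_root_.zpow_sub, h, mul_inv_cancel]
  have h2 := congrArg Units.val (pow_natAbs_eq_one.2 h1)
  rw [Units.val_pow_eq_pow_val, Units.val_mk0, hc] at h2
  exact ht.2 h2

private theorem act_chi (p q : Gl n k) (hq : q * p = 1) (h : ∀ t ∈ T, p * t * q ∈ T) :
    ∃ a : τ.X → τ.X, ∀ x (t : T), τ.χ (a x) t = τ.χ x ⟨p * t.1 * q, h t.1 t.2⟩ := by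
  let c : T →* T := MonoidHom.mk' (fun t => ⟨p * t.1 * q, h t.1 t.2⟩) fun s t => Subtype.ext (by
    change p * (s.1 * t.1) * q = p * s.1 * q * (p * t.1 * q)
    simp only [mul_assoc]
    rw [← mul_assoc q p, hq, one_mul])
  have : ∀ x, ∃ x', (τ.χ x).comp c = τ.χ x' := fun x => τ.exists_χ (by
    obtain ⟨F, hF, e⟩ := τ.reg x
    exact ⟨fun z => F (p * z * q), ((((MapOn.const p).mul MapOn.id).mul (MapOn.const q)) F hF).mem,
      fun t => e (c t)⟩)
  choose a ha using this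
  exact ⟨a, fun x t => by rw [← ha]; rfl⟩

omit [IsAlgClosed k] [Fact (ringChar k).Prime] in
private theorem act_co (p q : Gl n k) (hq : q * p = 1) (h : ∀ t ∈ T, p * t * q ∈ T) :
    ∃ a : τ.X → τ.X, ∀ y c, p * τ.co y c * q = τ.co (a y) c := by
  have : ∀ y, ∃ y', (fun c => p * τ.co y c * q) = τ.co y' := fun y => τ.all_co _ (by
    obtain ⟨h1, h2, m, h3⟩ := τ.coch y
    choose Q hQ using h3
    refine ⟨fun c => h _ (h1 c), fun c d => ?_, m, fun i j =>
      ⟨∑ l', (∑ l, Polynomial.C (p.1 i l) * Q l l') * Polynomial.C (q.1 l' j), fun c => ?_⟩⟩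
    · simp only [h2, mul_assoc]
      rw [← mul_assoc q p, hq, one_mul]
    · simp only [Units.val_mul, Matrix.mul_apply, Polynomial.eval_finsetSum, Polynomial.eval_mul,
        Polynomial.eval_C, ← hQ, Finset.mul_sum, Finset.sum_mul]
      refine Finset.sum_congr rfl fun _ _ => Finset.sum_congr rfl fun _ _ => ?_
      ring)
  choose a ha using this
  exact ⟨a, fun y c => congrFun (ha y) c⟩

theorem exists_act {g : Gl n k} (h : ∀ t ∈ T, g * t * g⁻¹ ∈ T) (h' : ∀ t ∈ T, g⁻¹ * t * g ∈ T) :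
    ∃ a a', τ.Act g a a' := by
  obtain ⟨a, ha⟩ := τ.act_chi g⁻¹ g (mul_inv_cancel g) h'
  obtain ⟨b, hb⟩ := τ.act_chi g g⁻¹ (inv_mul_cancel g) h
  obtain ⟨a', ha'⟩ := τ.act_co g g⁻¹ (inv_mul_cancel g) h
  obtain ⟨b', hb'⟩ := τ.act_co g⁻¹ g (mul_inv_cancel g) h'
  have e1 : ∀ x (t : T), τ.χ (a x) ⟨g * t.1 * g⁻¹, h t.1 t.2⟩ = τ.χ x t := fun x t => by
    rw [ha]
    exact congrArg _ (Subtype.ext (by simp only [mul_assoc, inv_mul_cancel_left, inv_mul_cancel,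
      mul_one]))
  have e2 : ∀ x (t : T), τ.χ (b x) ⟨g⁻¹ * t.1 * g, h' t.1 t.2⟩ = τ.χ x t := fun x t => by
    rw [hb]
    exact congrArg _ (Subtype.ext (by simp only [mul_assoc, mul_inv_cancel_left, mul_inv_cancel,
      mul_one]))
  refine ⟨⟨⟨a, b, fun x => τ.χ_inj (MonoidHom.ext fun t => ?_),
      fun x => τ.χ_inj (MonoidHom.ext fun t => ?_)⟩,
      fun x x' => τ.χ_inj (MonoidHom.ext fun t => ?_)⟩,
    ⟨⟨a', b', fun y => τ.co_inj (funext fun c => ?_), fun y => τ.co_inj (funext fun c => ?_)⟩,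
      fun y y' => τ.co_inj (funext fun c => ?_)⟩, h, h', e1, ha',
    fun x y => act_zpow (k := k) fun c => ?_⟩
  · rw [hb, e1]
  · rw [ha, e2]
  · change τ.χ (a (x + x')) t = τ.χ (a x + a x') t
    rw [τ.χ_add, MonoidHom.mul_apply, ha, ha, ha, τ.χ_add, MonoidHom.mul_apply]
  · rw [← hb', ← ha']
    simp only [mul_assoc, inv_mul_cancel_left, inv_mul_cancel, mul_one]
  · rw [← ha', ← hb']
    simp only [mul_assoc, mul_inv_cancel_left, mul_inv_cancel, mul_one]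
  · change τ.co (a' (y + y')) c = τ.co (a' y + a' y') c
    rw [τ.co_add, ← ha', ← ha', ← ha', τ.co_add]
    simp only [mul_assoc, inv_mul_cancel_left]
  · change c ^ (a x ⬝ᵥ a' y) = c ^ (x ⬝ᵥ y)
    rw [← τ.pair, ← τ.pair, ← e1 x]
    exact congrArg _ (Subtype.ext (ha' y c).symm)

theorem exists_act_of_cj {g : Gl n k} (h : cj g T = T) : ∃ a a', τ.Act g a a' := by
  refine τ.exists_act (fun t ht => ?_) fun t ht => ?_
  · rw [← h, mem_cj]
    simpa only [mul_assoc, inv_mul_cancel_left, inv_mul_cancel, mul_one] using ht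
  · rwa [← mem_cj, h]

variable {τ} {g g' : Gl n k} {a a' b b' : τ.X ≃+ τ.X}

omit [IsAlgClosed k] [Fact (ringChar k).Prime] in
private theorem Act.chi' (h : τ.Act g a a') (x : τ.X) (t : T) :
    τ.χ (a x) t = τ.χ x ⟨g⁻¹ * t.1 * g, h.mem' t.1 t.2⟩ := by
  rw [← h.chi x]
  exact congrArg _ (Subtype.ext (by simp only [mul_assoc, mul_inv_cancel_left, mul_inv_cancel,
    mul_one]))

theorem Act.mul (h : τ.Act g a a') (h' : τ.Act g' b b') :
    τ.Act (g * g') (b.trans a) (b'.trans a') := by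
  have e : ∀ t : Gl n k, g * g' * t * (g * g')⁻¹ = g * (g' * t * g'⁻¹) * g⁻¹ := fun t => by
    simp only [mul_assoc, _root_.mul_inv_rev]
  refine ⟨fun t ht => ?_, fun t ht => ?_, fun x t => ?_, fun y c => ?_, fun x y => ?_⟩
  · rw [e]
    exact h.mem _ (h'.mem t ht)
  · have := h'.mem' _ (h.mem' t ht)
    simpa only [mul_assoc, _root_.mul_inv_rev] using this
  · rw [← h'.chi x t, ← h.chi (b x)]
    exact congrArg _ (Subtype.ext (e t.1))
  · rw [e, h'.co, h.co]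
    rfl
  · exact (h.dot (b x) (b' y)).trans (h'.dot x y)

theorem Act.inv (h : τ.Act g a a') : τ.Act g⁻¹ a.symm a'.symm := by
  refine ⟨fun t ht => ?_, fun t ht => ?_, fun x t => ?_, fun y c => ?_, fun x y => ?_⟩
  · rw [inv_inv]
    exact h.mem' t ht
  · rw [inv_inv]
    exact h.mem t ht
  · have := h.chi' (a.symm x) t
    rw [a.apply_symm_apply] at this
    rw [this]
    exact congrArg _ (Subtype.ext (by simp only [inv_inv]))
  · have := h.co (a'.symm y) c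
    rw [a'.apply_symm_apply] at this
    rw [← this]
    simp only [mul_assoc, inv_mul_cancel_left, inv_inv, inv_mul_cancel, mul_one]
  · rw [← h.dot, a.apply_symm_apply, a'.apply_symm_apply]

theorem act_of_comm (h : ∀ t ∈ T, g * t = t * g) : τ.Act g (.refl _) (.refl _) := by
  have e : ∀ t ∈ T, g * t * g⁻¹ = t := fun t ht => by rw [h t ht, mul_inv_cancel_right]
  refine ⟨fun t ht => ?_, fun t ht => ?_, fun x t => ?_, fun y c => ?_, fun x y => rfl⟩
  · rwa [e t ht]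
  · rwa [mul_assoc, ← h t ht, inv_mul_cancel_left]
  · exact congrArg _ (Subtype.ext (e t.1 t.2))
  · exact e _ ((τ.coch y).1 c)

theorem Act.unique (h : τ.Act g a a') (h' : τ.Act g b b') : a = b ∧ a' = b' := by
  exact ⟨AddEquiv.ext fun x => τ.χ_inj (MonoidHom.ext fun t => by rw [h.chi', h'.chi']),
    AddEquiv.ext fun y => τ.co_inj (funext fun c => by rw [← h.co, ← h'.co])⟩

theorem Act.comm (h : τ.Act g a a') (e : ∀ x, a x = x) : ∀ t ∈ T, g * t = t * g := by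
  intro t ht
  have h1 : (⟨g * t * g⁻¹, h.mem t ht⟩ : T) = ⟨t, ht⟩ := τ.ext_pt fun x => by
    rw [← h.chi x ⟨t, ht⟩, e]
  exact mul_inv_eq_iff_eq_mul.1 (congrArg Subtype.val h1)

theorem Act.map_w (h : τ.Act g a a') (hρ : IsRep G ρ) (hT : T ≤ G) (hg : g ∈ G) {x : τ.X} {v : V}
    (hv : v ∈ τ.w ρ x) : ρ g v ∈ τ.w ρ (a x) := by
  intro t
  have h1 := hv ⟨g⁻¹ * t.1 * g, h.mem' t.1 t.2⟩
  rw [h.chi', ← map_smul, ← h1, ← hρ.mul_apply (hT t.2) hg,
    ← hρ.mul_apply hg (hT (h.mem' t.1 t.2))]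
  simp only [mul_assoc, mul_inv_cancel_left]

private theorem Act.w_ne (h : τ.Act g a a') (hρ : IsRep G ρ) (hT : T ≤ G) (hg : g ∈ G) {x : τ.X}
    (hx : τ.w ρ x ≠ ⊥) : τ.w ρ (a x) ≠ ⊥ := by
  obtain ⟨v, hv, h0⟩ := (Submodule.ne_bot_iff _).1 hx
  exact (Submodule.ne_bot_iff _).2 ⟨ρ g v, h.map_w hρ hT hg hv, fun e => h0 (by
    rw [← hρ.inv_apply hg v, e, map_zero])⟩

theorem Act.rg (h : τ.Act g a a') {y : τ.X} (hy : τ.Rg y) : τ.Rg (a' y) := by
  intro x h0 hx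
  have h1 := hy (a.symm x) (fun e => h0 (by rw [← a.apply_symm_apply x, e, map_zero]))
    (h.inv.w_ne (isRep_Ad ⊤) le_top trivial hx)
  rwa [← h.dot, a.apply_symm_apply] at h1

theorem Act.top (h : τ.Act g a a') (hρ : IsRep G ρ) (hT : T ≤ G) (hg : g ∈ G) {y x : τ.X}
    (hx : τ.Top ρ y x) : τ.Top ρ (a' y) (a x) := by
  refine ⟨h.w_ne hρ hT hg hx.1, fun x' h1 h2 => ?_⟩
  have h3 := hx.2 (a.symm x') (h.inv.w_ne hρ hT (G.inv_mem hg) h1)
    fun e => h2 (by rw [← e, a.apply_symm_apply])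
  rwa [← h.dot, a.apply_symm_apply, ← h.dot x y] at h3

theorem Act.finite_order (h : τ.Act g a a') :
    ∃ m : ℕ, 0 < m ∧ (∀ x, (a : τ.X → τ.X)^[m] x = x) ∧ ∀ y, (a' : τ.X → τ.X)^[m] y = y := by
  have hm : MapsTo a {x | τ.w nat x ≠ ⊥} {x | τ.w nat x ≠ ⊥} := fun x hx =>
    h.w_ne (isRep_nat ⊤) le_top trivial hx
  have : Finite {x | τ.w nat x ≠ ⊥} := τ.finite_w nat
  let σ : Equiv.Perm {x | τ.w nat x ≠ ⊥} := Equiv.ofBijective (hm.restrict _ _ _)
    (Finite.injective_iff_bijective.1 (hm.restrict_inj.2 a.injective.injOn))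
  have h1 : ∀ x, (a : τ.X → τ.X)^[orderOf σ] x = x := by
    intro x
    have hx : x ∈ AddSubgroup.closure {x | τ.w nat x ≠ ⊥} := by
      rw [τ.closure_nat]
      trivial
    induction hx using AddSubgroup.closure_induction with
    | mem x hx =>
      have h2 : (σ ^ orderOf σ) ⟨x, hx⟩ = ⟨x, hx⟩ := by rw [pow_orderOf_eq_one]; rfl
      rw [Equiv.Perm.coe_pow] at h2
      exact (hm.coe_iterate_restrict ⟨x, hx⟩ _).symm.trans (congrArg Subtype.val h2)
    | zero => exact iterate_map_zero a _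
    | add x x' _ _ hx hx' => rw [iterate_map_add, hx, hx']
    | neg x _ hx => rw [iterate_map_neg, hx]
  have h3 : ∀ (m : ℕ) x y, (a : τ.X → τ.X)^[m] x ⬝ᵥ (a' : τ.X → τ.X)^[m] y = x ⬝ᵥ y := by
    intro m x y
    induction m with
    | zero => rfl
    | succ m ih => rw [Function.iterate_succ_apply', Function.iterate_succ_apply', h.dot, ih]
  refine ⟨orderOf σ, orderOf_pos σ, h1, fun y => dotProduct_eq _ _ fun x => ?_⟩
  rw [dotProduct_comm, dotProduct_comm y, ← h3 (orderOf σ) x y, h1]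

/-- A unipotent transformation of finite order is trivial. -/
theorem Act.eq_of_unip (h : τ.Act g a a') (e : ∀ x, a (a x - x) = a x - x) (x : τ.X) :
    a x = x := by
  obtain ⟨m, hm, h1, -⟩ := h.finite_order
  have h2 : ∀ j : ℕ, (a : τ.X → τ.X)^[j] x = x + j • (a x - x) := by
    intro j
    induction j with
    | zero => rw [zero_smul, add_zero]; rfl
    | succ j ih =>
      rw [Function.iterate_succ_apply', ih, map_add, map_nsmul, e, succ_nsmul]
      abel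
  have h3 := h2 m
  rw [h1, left_eq_add] at h3
  exact sub_eq_zero.1 ((smul_eq_zero.1 h3).resolve_left hm.ne')

theorem Act.H_conj (h : τ.Act g a a') (y : τ.X) : Ad g (τ.H y) = τ.H (a' y) := by
  refine τ.ext_nat fun x v hv => ?_
  have h1 := τ.H_nat _ y _ (h.inv.map_w (isRep_nat ⊤) le_top trivial hv)
  rw [← h.dot, a.apply_symm_apply, nat_apply] at h1
  rw [τ.H_nat x _ v hv, Ad_apply, ← mulVec_mulVec, ← mulVec_mulVec, h1, mulVec_smul,
    mulVec_mulVec, Units.mul_inv, one_mulVec]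

theorem coroot_unique {α : τ.X} (ha : τ.Act g a a')
    (hb : τ.Act g' b b') {c c' : τ.X} (hα : α ≠ 0) (h : α ⬝ᵥ c = 2) (h' : α ⬝ᵥ c' = 2)
    (e1 : ∀ v, a v = v - (v ⬝ᵥ c) • α) (e2 : ∀ v, b v = v - (v ⬝ᵥ c') • α) : c = c' := by
  have e3 : ∀ v, (b.trans a) v = v + (v ⬝ᵥ (c' - c)) • α := fun v => by
    rw [AddEquiv.trans_apply, e2, map_sub, map_zsmul, e1, e1, h, dotProduct_sub]
    module
  have e4 := (ha.mul hb).eq_of_unip fun x => by
    rw [e3 x, add_sub_cancel_left, map_zsmul, e3 α, dotProduct_sub α, h, h', sub_self, zero_smul,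
      add_zero]
  refine (sub_eq_zero.1 (dotProduct_eq_zero _ fun v => ?_)).symm
  have e5 := e4 v
  rw [e3, add_eq_left] at e5
  rw [dotProduct_comm]
  exact (smul_eq_zero.1 e5).resolve_right hα

theorem root_unique {α : τ.X} (ha : τ.Act g a a')
    (hb : τ.Act g' b b') {β c : τ.X} (h : α ⬝ᵥ c = 2) (h' : β ⬝ᵥ c = 2)
    (e1 : ∀ v, a v = v - (v ⬝ᵥ c) • α) (e2 : ∀ v, b v = v - (v ⬝ᵥ c) • β) : α = β := by
  have e3 : ∀ v, (b.trans a) v = v + (v ⬝ᵥ c) • (α - β) := fun v => by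
    rw [AddEquiv.trans_apply, e2, map_sub, map_zsmul, e1, e1, h']
    module
  have e4 := (ha.mul hb).eq_of_unip fun x => by
    rw [e3 x, add_sub_cancel_left, map_zsmul, e3 (α - β), sub_dotProduct, h, h', sub_self,
      zero_smul, add_zero]
  have e5 := e4 α
  rw [e3, add_eq_left, h] at e5
  exact sub_eq_zero.1 ((smul_eq_zero.1 e5).resolve_left two_ne_zero)

theorem Act.coreflection {α : τ.X} (ha : τ.Act g a a') {c : τ.X}
    (h : α ⬝ᵥ c = 2) (e1 : ∀ v, a v = v - (v ⬝ᵥ c) • α) (z : τ.X) :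
    a' z = z - (α ⬝ᵥ z) • c := by
  have e2 : ∀ v, a (a v) = v := fun v => by
    rw [e1 v, map_sub, map_zsmul, e1 v, e1 α, h]
    module
  refine dotProduct_eq _ _ fun x => ?_
  rw [dotProduct_comm, ← e2 x, ha.dot, e2, e1, dotProduct_comm _ x, sub_dotProduct, dotProduct_sub,
    smul_dotProduct, dotProduct_smul, smul_eq_mul, smul_eq_mul, mul_comm]

end TD

end Pool.Agent.AG
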