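import Pool.Agent.Lib.AG.Var

/-! Affine varieties: examples, the Nullstellensatz, noetherian induction. -/

namespace Pool.Agent.AG

open Set

universe u

variable {k : Type u} [Field k] {X Y : Type u} {O : FA k X} {O' : FA k Y} {S : Set X}
  {V : Type u} [AddCommGroup V] [Module k V] {n : ℕ}

private theorem pt_adjoin {s : Set (X → k)} (φ : Algebra.adjoin k s →ₐ[k] k) (x : X)
    (h : ∀ f (hf : f ∈ s), φ ⟨f, Algebra.subset_adjoin hf⟩ = f x) (f : Algebra.adjoin k s) :
    φ f = f.1 x := by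
  obtain ⟨f, hf⟩ := f
  induction hf using Algebra.adjoin_induction with
  | mem f hf => exact h f hf
  | algebraMap c => exact φ.commutes c
  | add f g hf hg e e' => exact (map_add φ ⟨f, hf⟩ ⟨g, hg⟩).trans (congrArg₂ (· + ·) e e')
  | mul f g hf hg e e' => exact (map_mul φ ⟨f, hf⟩ ⟨g, hg⟩).trans (congrArg₂ (· * ·) e e')

theorem aff_OV [FiniteDimensional k V] : Aff (OV k V) := by
  refine ⟨?_, fun φ => ?_, fun x y h => ?_⟩
  · obtain ⟨s, hs⟩ := Module.Finite.fg_top (R := k) (M := Module.Dual k V)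
    refine Subalgebra.fg_def.2 ⟨(fun l : Module.Dual k V => (l : V → k)) '' s,
      s.finite_toSet.image _, le_antisymm (Algebra.adjoin_le ?_) (Algebra.adjoin_le ?_)⟩
    · rintro _ ⟨l, -, rfl⟩
      exact dual_mem_OV l
    · rintro _ ⟨l, rfl⟩
      have hl : l ∈ Submodule.span k (s : Set (Module.Dual k V)) := hs ▸ Submodule.mem_top
      induction hl using Submodule.span_induction with
      | mem l hl => exact Algebra.subset_adjoin ⟨l, hl, rfl⟩
      | zero => exact zero_mem _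
      | add l l' _ _ e e' => exact add_mem e e'
      | smul c l _ e => exact Subalgebra.smul_mem _ e c
  · let L : Module.Dual k (Module.Dual k V) :=
      { toFun := fun l => φ ⟨l, dual_mem_OV l⟩
        map_add' := fun l l' => map_add φ ⟨l, dual_mem_OV l⟩ ⟨l', dual_mem_OV l'⟩
        map_smul' := fun c l => map_smul φ c ⟨l, dual_mem_OV l⟩ }
    refine ⟨(Module.evalEquiv k V).symm L, pt_adjoin φ _ ?_⟩
    rintro _ ⟨l, rfl⟩
    exact (Module.apply_evalEquiv_symm_apply k V l L).symm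
  · rw [← sub_eq_zero, ← Module.forall_dual_apply_eq_zero_iff k]
    intro l
    rw [map_sub, sub_eq_zero]
    exact h l (dual_mem_OV l)

private theorem og_mul (φ : OG k n →ₐ[k] k) {a b : GL (Fin n) k → Matrix (Fin n) (Fin n) k}
    (ha : ∀ i j, (fun g => a g i j) ∈ OG k n) (hb : ∀ i j, (fun g => b g i j) ∈ OG k n)
    (h : ∀ g, a g * b g = 1) :
    (Matrix.of fun i j => φ ⟨_, ha i j⟩) * (Matrix.of fun i j => φ ⟨_, hb i j⟩) = 1 := by
  ext i j
  rw [Matrix.mul_apply]
  simp only [Matrix.of_apply, ← map_mul, ← map_sum]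
  refine Eq.trans (congrArg φ (Subtype.ext (funext fun g => ?_)))
    (φ.commutes ((1 : Matrix (Fin n) (Fin n) k) i j))
  rw [AddSubmonoidClass.coe_finsetSum, Finset.sum_apply]
  change ∑ c, a g i c * b g c j = (1 : Matrix (Fin n) (Fin n) k) i j
  rw [← Matrix.mul_apply, h]

theorem aff_OG : Aff (OG k n) := by
  refine ⟨Subalgebra.fg_def.2 ⟨_, ?_, rfl⟩, fun φ => ?_, fun x y h => ?_⟩
  · refine ((finite_range fun p : Fin n × Fin n => fun g : GL (Fin n) k => g.1 p.1 p.2).union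
      (finite_range fun p : Fin n × Fin n => fun g : GL (Fin n) k => g⁻¹.1 p.1 p.2)).subset ?_
    rintro _ ⟨i, j, rfl | rfl⟩
    exacts [.inl ⟨(i, j), rfl⟩, .inr ⟨(i, j), rfl⟩]
  · refine ⟨⟨_, _, og_mul φ entry_mem_OG inv_entry_mem_OG fun g => g.mul_inv,
      og_mul φ inv_entry_mem_OG entry_mem_OG fun g => g.inv_mul⟩, pt_adjoin φ _ ?_⟩
    rintro _ ⟨i, j, rfl | rfl⟩ <;> rfl
  · exact Units.ext (Matrix.ext fun i j => h _ (entry_mem_OG i j))

theorem aff_OU : Aff (OU k) := by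
  have m1 : (fun a : kˣ => (a : k)) ∈ OU k := Algebra.subset_adjoin (Or.inl rfl)
  have m2 : (fun a : kˣ => ((a⁻¹ : kˣ) : k)) ∈ OU k := Algebra.subset_adjoin (Or.inr rfl)
  refine ⟨Subalgebra.fg_def.2 ⟨_, toFinite _, rfl⟩, fun φ => ?_, fun x y h => Units.ext (h _ m1)⟩
  have e : φ ⟨_, m1⟩ * φ ⟨_, m2⟩ = 1 := by
    rw [← map_mul, ← map_one φ]
    exact congrArg φ (Subtype.ext (funext fun a => a.mul_inv))
  refine ⟨⟨_, _, e, (mul_comm _ _).trans e⟩, pt_adjoin φ _ ?_⟩
  rintro _ (rfl | rfl) <;> rfl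

/-- Composition with a regular map. -/
private def pull {φ : X → Y} (h : MapOn O univ O' φ) : O' →ₐ[k] O where
  toFun f := ⟨fun x => f.1 (φ x), (h f.1 f.2).mem⟩
  map_one' := rfl
  map_mul' _ _ := rfl
  map_zero' := rfl
  map_add' _ _ := rfl
  commutes' _ := rfl

theorem Aff.prod (h : Aff O) (h' : Aff O') : Aff (prd O O') := by
  refine ⟨?_, fun φ => ?_, fun x y e => Prod.ext (h.sep _ _ fun f hf => ?_)
    (h'.sep _ _ fun f hf => ?_)⟩
  · obtain ⟨t, ht, e⟩ := Subalgebra.fg_def.1 h.fg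
    obtain ⟨t', ht', e'⟩ := Subalgebra.fg_def.1 h'.fg
    refine Subalgebra.fg_def.2 ⟨(fun f (z : X × Y) => f z.1) '' t ∪ (fun f (z : X × Y) => f z.2) '' t',
      (ht.image _).union (ht'.image _), le_antisymm (Algebra.adjoin_mono ?_)
        (Algebra.adjoin_le ?_)⟩
    · rintro _ (⟨f, hf, rfl⟩ | ⟨f, hf, rfl⟩)
      · exact .inl ⟨f, e ▸ Algebra.subset_adjoin hf, rfl⟩
      · exact .inr ⟨f, e' ▸ Algebra.subset_adjoin hf, rfl⟩
    · rintro _ (⟨f, hf, rfl⟩ | ⟨f, hf, rfl⟩)
      · refine RegOn.mem (MapOn.of_adjoin (s := t) (φ := Prod.fst) (fun g hg => ?_) f (e ▸ hf))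
        exact .of_mem (Algebra.subset_adjoin (.inl ⟨g, hg, rfl⟩))
      · refine RegOn.mem (MapOn.of_adjoin (s := t') (φ := Prod.snd) (fun g hg => ?_) f (e' ▸ hf))
        exact .of_mem (Algebra.subset_adjoin (.inr ⟨g, hg, rfl⟩))
  · obtain ⟨x, hx⟩ := h.pt (φ.comp (pull MapOn.fst))
    obtain ⟨y, hy⟩ := h'.pt (φ.comp (pull MapOn.snd))
    refine ⟨(x, y), pt_adjoin φ _ ?_⟩
    rintro _ (⟨f, hf, rfl⟩ | ⟨f, hf, rfl⟩)
    exacts [hx ⟨f, hf⟩, hy ⟨f, hf⟩]
  · exact e _ (MapOn.fst (S := univ) f hf).mem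
  · exact e _ (MapOn.snd (S := univ) f hf).mem

theorem Aff.noeth (h : Aff O) : IsNoetherianRing O := by
  have := (Subalgebra.fg_iff_finiteType O).1 h.fg
  exact Algebra.FiniteType.isNoetherianRing k O

/-- The Nullstellensatz. -/
theorem Aff.ns [IsAlgClosed k] (h : Aff O) (J : Ideal O) (f : O)
    (hf : ∀ x, (∀ g ∈ J, g.1 x = 0) → f.1 x = 0) : f ∈ J.radical := by
  have := (Subalgebra.fg_iff_finiteType O).1 h.fg
  have : IsJacobsonRing O := isJacobsonRing_of_finiteType (A := k)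
  rw [Ideal.radical_eq_jacobson, Ideal.jacobson, Ideal.mem_sInf]
  rintro m ⟨hJ, hm⟩
  let _ := Ideal.Quotient.field m
  have : Module.Finite k (O ⧸ m) := finite_of_finite_type_of_isJacobsonRing k (O ⧸ m)
  let e : k ≃ₐ[k] (O ⧸ m) :=
    AlgEquiv.ofBijective (Algebra.ofId k (O ⧸ m)) IsAlgClosed.algebraMap_bijective_of_isIntegral
  obtain ⟨x, hx⟩ := h.pt (e.symm.toAlgHom.comp (Ideal.Quotient.mkₐ k m))
  have key : ∀ g : O, g.1 x = 0 ↔ g ∈ m := fun g => by
    rw [← hx, ← Ideal.Quotient.eq_zero_iff_mem]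
    exact map_eq_zero_iff e.symm e.symm.injective
  exact (key f).1 (hf x fun g hg => (key g).2 (hJ hg))

theorem Aff.pt_of (h : Aff O) (hS : Closed O S) (φ : O →ₐ[k] k) (hφ : ∀ f ∈ van O S, φ f = 0) :
    ∃ x ∈ S, ∀ f : O, φ f = f.1 x := by
  obtain ⟨x, hx⟩ := h.pt φ
  exact ⟨x, hS fun f hf h0 => (hx ⟨f, hf⟩).symm.trans (hφ _ h0), hx⟩

theorem Aff.wf (h : Aff O) :
    WellFounded fun A B : Set X => Closed O A ∧ Closed O B ∧ A ⊂ B := by
  have := h.noeth
  refine Subrelation.wf (r := InvImage (· > ·) (van O)) ?_ (InvImage.wf _ wellFounded_gt)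
  rintro A B ⟨hA, -, hAB⟩
  refine lt_of_le_of_ne (van_anti hAB.1) fun e => hAB.2 fun x hx => hA fun f hf h0 => ?_
  have h1 : (⟨f, hf⟩ : O) ∈ van O B := e ▸ h0
  exact h1 x hx

theorem Aff.exists_irr (h : Aff O) (hS : Closed O S) :
    ∃ s : Set (Set X), s.Finite ∧ (∀ A ∈ s, Closed O A ∧ Irr O A) ∧ ⋃₀ s = S := by
  induction S using h.wf.induction with
  | _ S ih =>
  by_cases hI : Irr O S
  · exact ⟨{S}, finite_singleton S, fun A hA => hA ▸ ⟨hS, hI⟩, sUnion_singleton S⟩
  rcases S.eq_empty_or_nonempty with rfl | hne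
  · exact ⟨∅, finite_empty, fun A hA => hA.elim, sUnion_empty⟩
  have key : ∀ f ∈ O, (¬ ∀ s ∈ S, f s = 0) → ∃ s : Set (Set X), s.Finite ∧
      (∀ A ∈ s, Closed O A ∧ Irr O A) ∧ ⋃₀ s = {x | x ∈ S ∧ f x = 0} := fun f hf hn => by
    have c := RegOn.closed hS (.of_mem hf)
    exact ih _ ⟨c, hS, fun _ hx => hx.1, fun e => hn fun s hs => (e hs).2⟩ c
  simp only [Irr, hne, true_and, not_forall, not_or] at hI
  obtain ⟨f, hf, g, hg, h0, h1, h2⟩ := hI
  obtain ⟨s, s1, s2, s3⟩ := key f hf (by simpa only [not_forall] using h1)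
  obtain ⟨t, t1, t2, t3⟩ := key g hg (by simpa only [not_forall] using h2)
  refine ⟨s ∪ t, s1.union t1, fun A hA => hA.elim (s2 A) (t2 A), ?_⟩
  rw [sUnion_union, s3, t3]
  refine subset_antisymm (union_subset (fun _ hx => hx.1) fun _ hx => hx.1) fun x hx => ?_
  exact (mul_eq_zero.1 (h0 x hx)).imp (fun e => ⟨hx, e⟩) fun e => ⟨hx, e⟩

private theorem regOn_eval {f : X → k} (hf : RegOn O S f) (q : Polynomial k) :
    RegOn O S fun x => q.eval (f x) := by
  simp only [Polynomial.eval_eq_sum_range]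
  exact .sum fun i _ => (RegOn.const _).mul (hf.pow i)

private theorem ovk {f : k → k} : f ∈ OV k k ↔ ∃ q : Polynomial k, ∀ c, f c = q.eval c := by
  constructor
  · intro hf
    induction hf using Algebra.adjoin_induction with
    | mem f hf =>
      obtain ⟨l, rfl⟩ := hf
      refine ⟨Polynomial.X * Polynomial.C (l 1), fun c => ?_⟩
      rw [Polynomial.eval_mul, Polynomial.eval_X, Polynomial.eval_C, ← smul_eq_mul, ← map_smul,
        smul_eq_mul, mul_one]
    | algebraMap c => exact ⟨Polynomial.C c, fun _ => Polynomial.eval_C.symm⟩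
    | add f g _ _ e e' =>
      obtain ⟨p, hp⟩ := e
      obtain ⟨q, hq⟩ := e'
      exact ⟨p + q, fun c => by rw [Pi.add_apply, Polynomial.eval_add, hp, hq]⟩
    | mul f g _ _ e e' =>
      obtain ⟨p, hp⟩ := e
      obtain ⟨q, hq⟩ := e'
      exact ⟨p * q, fun c => by rw [Pi.mul_apply, Polynomial.eval_mul, hp, hq]⟩
  · rintro ⟨q, hq⟩
    exact ((regOn_eval regOn_id q).congr fun c _ => (hq c).symm).mem

private theorem poly_zero [Infinite k] {q : Polynomial k} (h : ∀ t, t ≠ 0 → q.eval t = 0) :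
    q = 0 := by
  have e : Polynomial.X * q = 0 := Polynomial.funext fun t => by
    rw [Polynomial.eval_mul, Polynomial.eval_X, Polynomial.eval_zero]
    by_cases ht : t = 0
    · rw [ht, zero_mul]
    · rw [h t ht, mul_zero]
  exact (mul_eq_zero.1 e).resolve_left Polynomial.X_ne_zero

theorem irr_OV [Infinite k] : Irr (OV k V) univ := by
  refine ⟨univ_nonempty, fun f hf g hg h0 => ?_⟩
  by_contra hc
  simp only [not_or, not_forall] at hc
  obtain ⟨⟨x, -, hx⟩, ⟨y, -, hy⟩⟩ := hc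
  have hl : MapOn (OV k k) univ (OV k V) fun t : k => x + t • (y - x) :=
    (MapOn.const x).vadd (MapOn.vsmul regOn_id (MapOn.const (y - x)))
  obtain ⟨p, hp⟩ := ovk.1 (hl f hf).mem
  obtain ⟨q, hq⟩ := ovk.1 (hl g hg).mem
  have e : p * q = 0 := poly_zero fun t _ => by
    rw [Polynomial.eval_mul, ← hp, ← hq]
    exact h0 _ trivial
  rcases mul_eq_zero.1 e with e | e
  · have : f (x + (0 : k) • (y - x)) = _ := hp 0
    rw [e, Polynomial.eval_zero, zero_smul, add_zero] at this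
    exact hx this
  · have : g (x + (1 : k) • (y - x)) = _ := hq 1
    rw [e, Polynomial.eval_zero, one_smul, add_sub_cancel] at this
    exact hy this

private theorem ouk {f : kˣ → k} : f ∈ OU k ↔
    ∃ (m : ℕ) (q : Polynomial k), ∀ a : kˣ, (a : k) ^ m * f a = q.eval (a : k) := by
  constructor
  · intro hf
    induction hf using Algebra.adjoin_induction with
    | mem f hf =>
      rcases hf with rfl | rfl
      · exact ⟨0, Polynomial.X, fun a => by rw [pow_zero, one_mul, Polynomial.eval_X]⟩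
      · exact ⟨1, 1, fun a => by rw [pow_one, Polynomial.eval_one]; exact a.mul_inv⟩
    | algebraMap c =>
      exact ⟨0, Polynomial.C c, fun a => by rw [pow_zero, one_mul, Polynomial.eval_C]; rfl⟩
    | add f g _ _ e e' =>
      obtain ⟨m, p, hp⟩ := e
      obtain ⟨m', q, hq⟩ := e'
      refine ⟨m + m', Polynomial.X ^ m' * p + Polynomial.X ^ m * q, fun a => ?_⟩
      simp only [Pi.add_apply, Polynomial.eval_add, Polynomial.eval_mul, Polynomial.eval_pow,
        Polynomial.eval_X, ← hp, ← hq]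
      ring
    | mul f g _ _ e e' =>
      obtain ⟨m, p, hp⟩ := e
      obtain ⟨m', q, hq⟩ := e'
      refine ⟨m + m', p * q, fun a => ?_⟩
      simp only [Pi.mul_apply, Polynomial.eval_mul, ← hp, ← hq]
      ring
  · rintro ⟨m, q, hq⟩
    refine RegOn.mem (((regOn_unit_inv.pow m).mul (regOn_eval regOn_unit q)).congr fun a _ => ?_)
    rw [← hq, ← mul_assoc, ← mul_pow, Units.inv_mul, one_pow, one_mul]

theorem irr_OU [Infinite k] : Irr (OU k) univ := by
  refine ⟨univ_nonempty, fun f hf g hg h0 => ?_⟩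
  obtain ⟨m, p, hp⟩ := ouk.1 hf
  obtain ⟨m', q, hq⟩ := ouk.1 hg
  have e : p * q = 0 := poly_zero fun t ht => by
    have h1 := hp (Units.mk0 t ht)
    have h2 := hq (Units.mk0 t ht)
    rw [Units.val_mk0] at h1 h2
    rw [Polynomial.eval_mul, ← h1, ← h2, mul_mul_mul_comm, h0 _ trivial, mul_zero]
  refine (mul_eq_zero.1 e).imp (fun e a _ => ?_) fun e a _ => ?_
  · have := hp a
    rw [e, Polynomial.eval_zero] at this
    exact (mul_eq_zero.1 this).resolve_left (pow_ne_zero _ a.ne_zero)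
  · have := hq a
    rw [e, Polynomial.eval_zero] at this
    exact (mul_eq_zero.1 this).resolve_left (pow_ne_zero _ a.ne_zero)

theorem mem_OV_pi {I : Type} [Finite I] {f : (I → k) → k} :
    f ∈ OV k (I → k) ↔ ∃ F : MvPolynomial I k, ∀ c, f c = MvPolynomial.eval c F := by
  classical
  have := Fintype.ofFinite I
  constructor
  · intro hf
    induction hf using Algebra.adjoin_induction with
    | mem f hf =>
      obtain ⟨l, rfl⟩ := hf
      refine ⟨∑ i, MvPolynomial.X i * MvPolynomial.C (l fun j => if i = j then 1 else 0),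
        fun c => ?_⟩
      rw [LinearMap.pi_apply_eq_sum_univ l c]
      simp only [map_sum, map_mul, MvPolynomial.eval_X, MvPolynomial.eval_C, smul_eq_mul]
    | algebraMap c => exact ⟨MvPolynomial.C c, fun _ => (MvPolynomial.eval_C c).symm⟩
    | add f g _ _ e e' =>
      obtain ⟨p, hp⟩ := e
      obtain ⟨q, hq⟩ := e'
      exact ⟨p + q, fun c => by rw [Pi.add_apply, map_add, hp, hq]⟩
    | mul f g _ _ e e' =>
      obtain ⟨p, hp⟩ := e
      obtain ⟨q, hq⟩ := e'
      exact ⟨p * q, fun c => by rw [Pi.mul_apply, map_mul, hp, hq]⟩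
  · rintro ⟨F, hF⟩
    have key : RegOn (OV k (I → k)) univ fun c => MvPolynomial.eval c F := by
      clear hF
      induction F using MvPolynomial.induction_on with
      | C a => simpa only [MvPolynomial.eval_C] using RegOn.const a
      | add p q hp hq => simpa only [map_add] using hp.add hq
      | mul_X p i hp => simpa only [map_mul, MvPolynomial.eval_X] using hp.mul (regOn_apply i)
    exact (key.congr fun c _ => (hF c).symm).mem

theorem mem_OV_k {f : k → k} : f ∈ OV k k ↔ ∃ q : Polynomial k, ∀ c, f c = q.eval c := ovk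

theorem mem_OU {f : kˣ → k} : f ∈ OU k ↔
    ∃ (m : ℕ) (q : Polynomial k), ∀ a : kˣ, (a : k) ^ m * f a = q.eval (a : k) := ouk

theorem Closed.finite_or_univ {S : Set kˣ} (h : Closed (OU k) S) : S.Finite ∨ S = univ := by
  refine or_iff_not_imp_right.2 fun hn => ?_
  obtain ⟨x, hx⟩ := (ne_univ_iff_exists_notMem S).1 hn
  have h1 : x ∉ clo (OU k) S := fun e => hx (h e)
  simp only [clo, mem_ofPred_eq, not_forall] at h1
  obtain ⟨f, hf, h0, hfx⟩ := h1
  obtain ⟨m, q, hq⟩ := ouk.1 hf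
  have hq0 : q ≠ 0 := fun e => by
    have := hq x
    rw [e, Polynomial.eval_zero] at this
    exact mul_ne_zero (pow_ne_zero _ x.ne_zero) hfx this
  refine ((Polynomial.finite_setOfPred_isRoot hq0).preimage
    (f := fun a : kˣ => (a : k)) Units.val_injective.injOn).subset fun a ha => ?_
  change q.eval (a : k) = 0
  rw [← hq, h0 a ha, mul_zero]

/-- Limits along a polynomial curve. -/
theorem lim0 [Infinite k] {c : k → X} (hc : MapOn (OV k k) univ O c) (hS : Closed O S)
    (h : ∀ t, t ≠ 0 → c t ∈ S) : c 0 ∈ S := by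
  refine hS fun f hf h0 => ?_
  obtain ⟨q, hq⟩ := ovk.1 (hc f hf).mem
  have e : q = 0 := poly_zero fun t ht => (hq t).symm.trans (h0 _ (h t ht))
  rw [hq 0, e, Polynomial.eval_zero]

end Pool.Agent.AG
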