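import Mathlib

/-! Sets with an algebra of functions: closed and irreducible subsets, regular maps. -/

namespace Pool.Agent.AG

open Set

universe u

variable {k : Type u} [Field k] {X Y Z : Type u}

/-- An algebra of functions on `X`. -/
abbrev FA (k : Type u) [Field k] (X : Type u) : Type u := Subalgebra k (X → k)

/-- The Zariski closure. -/
def clo (O : FA k X) (S : Set X) : Set X := {x | ∀ f ∈ O, (∀ s ∈ S, f s = 0) → f x = 0}

/-- Zariski closed sets. -/
def Closed (O : FA k X) (S : Set X) : Prop := clo O S ⊆ S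

/-- Irreducible sets. -/
def Irr (O : FA k X) (S : Set X) : Prop :=
  S.Nonempty ∧ ∀ f ∈ O, ∀ g ∈ O, (∀ s ∈ S, f s * g s = 0) →
    (∀ s ∈ S, f s = 0) ∨ ∀ s ∈ S, g s = 0

/-- Functions that are regular on `S`. -/
def RegOn (O : FA k X) (S : Set X) (f : X → k) : Prop := ∃ F ∈ O, ∀ s ∈ S, F s = f s

/-- Maps that are regular on `S`. -/
def MapOn (O : FA k X) (S : Set X) (O' : FA k Y) (φ : X → Y) : Prop :=
  ∀ f ∈ O', RegOn O S fun x => f (φ x)

/-- `C` is closed relative to `S`. -/
def RelCl (O : FA k X) (S C : Set X) : Prop := S ∩ clo O (S ∩ C) ⊆ C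

/-- Affine varieties. -/
structure Aff (O : FA k X) : Prop where
  fg : O.FG
  pt : ∀ φ : O →ₐ[k] k, ∃ x, ∀ f : O, φ f = f.1 x
  sep : ∀ x y, (∀ f ∈ O, f x = f y) → x = y

/-- The functions on a product. -/
def prd (O : FA k X) (O' : FA k Y) : FA k (X × Y) :=
  Algebra.adjoin k ({F | ∃ f ∈ O, F = fun z => f z.1} ∪ {F | ∃ f ∈ O', F = fun z => f z.2})

/-- Polynomial functions on a vector space. -/
def OV (k : Type u) [Field k] (V : Type u) [AddCommGroup V] [Module k V] : FA k V :=
  Algebra.adjoin k {f | ∃ l : Module.Dual k V, f = l}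

/-- Regular functions on the general linear group. -/
def OG (k : Type u) [Field k] (n : ℕ) : FA k (GL (Fin n) k) :=
  Algebra.adjoin k {f | ∃ i j, (f = fun g => g.1 i j) ∨ f = fun g => g⁻¹.1 i j}

/-- Regular functions on the multiplicative group. -/
def OU (k : Type u) [Field k] : FA k kˣ :=
  Algebra.adjoin k {fun a : kˣ => (a : k), fun a : kˣ => ((a⁻¹ : kˣ) : k)}

/-- The ideal of functions that vanish on `S`. -/
def van (O : FA k X) (S : Set X) : Ideal O where
  carrier := {f | ∀ s ∈ S, f.1 s = 0}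
  add_mem' {f g} hf hg s hs := by
    change f.1 s + g.1 s = 0
    rw [hf s hs, hg s hs, add_zero]
  zero_mem' _ _ := rfl
  smul_mem' c f hf s hs := by
    change c.1 s * f.1 s = 0
    rw [hf s hs, mul_zero]

/-- The maximal ideal of a point. -/
abbrev mx (O : FA k X) (x : X) : Ideal O := van O {x}

/-- `S` is homogeneous under regular automorphisms. -/
def Homog (O : FA k X) (S : Set X) (x₀ : X) : Prop :=
  x₀ ∈ S ∧ ∀ x ∈ S, ∃ e : X ≃ X, MapOn O univ O e ∧ MapOn O univ O e.symm ∧ e '' S = S ∧ e x = x₀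

variable {O : FA k X} {O' : FA k Y} {O'' : FA k Z} {S S' C : Set X} {W : Set Y}

theorem mem_van {f : O} : f ∈ van O S ↔ ∀ s ∈ S, f.1 s = 0 := Iff.rfl

theorem mem_mx {f : O} {x : X} : f ∈ mx O x ↔ f.1 x = 0 := by simp [mem_van]

theorem van_anti (h : S ⊆ S') : van O S' ≤ van O S := fun _ hf s hs => hf s (h hs)

theorem subset_clo : S ⊆ clo O S := fun x hx _ _ h => h x hx

theorem clo_mono (h : S ⊆ S') : clo O S ⊆ clo O S' := fun _ hx f hf h' =>
  hx f hf fun s hs => h' s (h hs)

theorem closed_clo : Closed O (clo O S) := fun _ hx f hf h =>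
  hx f hf fun _ hs => hs f hf h

theorem Closed.clo_eq (h : Closed O S) : clo O S = S := subset_antisymm h subset_clo

theorem clo_min (h : S ⊆ S') (h' : Closed O S') : clo O S ⊆ S' := (clo_mono h).trans h'

theorem van_clo : van O (clo O S) = van O S :=
  le_antisymm (van_anti subset_clo) fun f hf _ hs => hs f.1 f.2 hf

theorem closed_univ : Closed O univ := subset_univ _

theorem closed_empty : Closed O (∅ : Set X) := fun x hx => by
  simpa using hx 1 O.one_mem (by simp)

theorem Closed.inter (h : Closed O S) (h' : Closed O S') : Closed O (S ∩ S') :=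
  subset_inter (clo_min inter_subset_left h) (clo_min inter_subset_right h')

theorem closed_iInter {ι : Sort*} {F : ι → Set X} (h : ∀ i, Closed O (F i)) :
    Closed O (⋂ i, F i) := subset_iInter fun i => clo_min (iInter_subset F i) (h i)

theorem Closed.union (h : Closed O S) (h' : Closed O S') : Closed O (S ∪ S') := by
  intro x hx
  by_contra hc
  rw [mem_union, not_or] at hc
  have h1 : x ∉ clo O S := fun e => hc.1 (h e)
  have h2 : x ∉ clo O S' := fun e => hc.2 (h' e)
  simp only [clo, mem_ofPred_eq, not_forall] at h1 h2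
  obtain ⟨f, hf, hf0, hfx⟩ := h1
  obtain ⟨g, hg, hg0, hgx⟩ := h2
  refine mul_ne_zero hfx hgx (hx (f * g) (O.mul_mem hf hg) ?_)
  rintro s (hs | hs)
  · rw [Pi.mul_apply, hf0 s hs, zero_mul]
  · rw [Pi.mul_apply, hg0 s hs, mul_zero]

theorem closed_biUnion {ι : Type*} {F : ι → Set X} {s : Set ι} (hs : s.Finite)
    (h : ∀ i ∈ s, Closed O (F i)) : Closed O (⋃ i ∈ s, F i) := by
  induction s, hs using Set.Finite.induction_on with
  | empty => simpa using closed_empty
  | insert _ _ ih =>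
    rw [biUnion_insert]
    exact (h _ (mem_insert _ _)).union (ih fun i hi => h i (mem_insert_of_mem _ hi))

theorem clo_union : clo O (S ∪ S') = clo O S ∪ clo O S' :=
  subset_antisymm (clo_min (union_subset_union subset_clo subset_clo) (closed_clo.union closed_clo))
    (union_subset (clo_mono subset_union_left) (clo_mono subset_union_right))

theorem Aff.closed_singleton (h : Aff O) (x : X) : Closed O {x} := fun y hy =>
  h.sep y x fun f hf => by
    have := hy (f - algebraMap k _ (f x)) (O.sub_mem hf (O.algebraMap_mem _)) (by simp)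
    simpa [sub_eq_zero] using this

theorem Aff.closed_finite (h : Aff O) (hS : S.Finite) : Closed O S := by
  rw [← biUnion_of_singleton S]
  exact closed_biUnion hS fun x _ => h.closed_singleton x

namespace RegOn

variable {f g : X → k}

theorem of_mem (h : f ∈ O) : RegOn O S f := ⟨f, h, fun _ _ => rfl⟩

theorem mem (h : RegOn O univ f) : f ∈ O := by
  obtain ⟨F, hF, e⟩ := h
  rwa [show f = F from funext fun x => (e x trivial).symm]

theorem mono (h : RegOn O S f) (h' : S' ⊆ S) : RegOn O S' f :=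
  h.imp fun _ hF => ⟨hF.1, fun s hs => hF.2 s (h' hs)⟩

theorem congr (h : RegOn O S f) (h' : ∀ s ∈ S, f s = g s) : RegOn O S g :=
  h.imp fun _ hF => ⟨hF.1, fun s hs => (hF.2 s hs).trans (h' s hs)⟩

theorem const (c : k) : RegOn O S fun _ => c := of_mem (O.algebraMap_mem c)

theorem add (hf : RegOn O S f) (hg : RegOn O S g) : RegOn O S fun x => f x + g x := by
  obtain ⟨F, hF, e⟩ := hf
  obtain ⟨G, hG, e'⟩ := hg
  exact ⟨F + G, O.add_mem hF hG, fun s hs => by rw [Pi.add_apply, e s hs, e' s hs]⟩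

theorem mul (hf : RegOn O S f) (hg : RegOn O S g) : RegOn O S fun x => f x * g x := by
  obtain ⟨F, hF, e⟩ := hf
  obtain ⟨G, hG, e'⟩ := hg
  exact ⟨F * G, O.mul_mem hF hG, fun s hs => by rw [Pi.mul_apply, e s hs, e' s hs]⟩

theorem neg (hf : RegOn O S f) : RegOn O S fun x => -f x :=
  ((const (-1)).mul hf).congr fun _ _ => neg_one_mul _

theorem sub (hf : RegOn O S f) (hg : RegOn O S g) : RegOn O S fun x => f x - g x :=
  (hf.add hg.neg).congr fun _ _ => (sub_eq_add_neg _ _).symm

theorem pow (hf : RegOn O S f) (m : ℕ) : RegOn O S fun x => f x ^ m := by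
  induction m with
  | zero => simpa using const 1
  | succ m ih => simpa only [pow_succ] using ih.mul hf

theorem sum {ι : Type*} {s : Finset ι} {F : ι → X → k} (h : ∀ i ∈ s, RegOn O S (F i)) :
    RegOn O S fun x => ∑ i ∈ s, F i x := by
  classical
  induction s using Finset.induction_on with
  | empty => simpa using const 0
  | insert a s ha ih =>
    simp only [Finset.sum_insert ha]
    exact (h a (Finset.mem_insert_self _ _)).add
      (ih fun i hi => h i (Finset.mem_insert_of_mem hi))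

theorem prod {ι : Type*} {s : Finset ι} {F : ι → X → k} (h : ∀ i ∈ s, RegOn O S (F i)) :
    RegOn O S fun x => ∏ i ∈ s, F i x := by
  classical
  induction s using Finset.induction_on with
  | empty => simpa using const 1
  | insert a s ha ih =>
    simp only [Finset.prod_insert ha]
    exact (h a (Finset.mem_insert_self _ _)).mul
      (ih fun i hi => h i (Finset.mem_insert_of_mem hi))

theorem det {m : Type*} [Fintype m] [DecidableEq m] {A : X → Matrix m m k}
    (h : ∀ i j, RegOn O S fun x => A x i j) : RegOn O S fun x => (A x).det := by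
  simp only [Matrix.det_apply']
  exact sum fun σ _ => (const _).mul (prod fun i _ => h _ _)

/-- A regular function that vanishes on a subset vanishes on its closure. -/
theorem zero_of_clo (hf : RegOn O S f) (h : S' ⊆ S) (h0 : ∀ s ∈ S', f s = 0) {x : X}
    (hx : x ∈ S) (hx' : x ∈ clo O S') : f x = 0 := by
  obtain ⟨F, hF, e⟩ := hf
  rw [← e x hx]
  exact hx' F hF fun s hs => (e s (h hs)).trans (h0 s hs)

theorem relCl (hf : RegOn O S f) : RelCl O S {x | f x = 0} := fun _ hx =>
  hf.zero_of_clo inter_subset_left (fun _ hs => hs.2) hx.1 hx.2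

theorem closed (hS : Closed O S) (hf : RegOn O S f) : Closed O {x | x ∈ S ∧ f x = 0} :=
  fun _ hx => ⟨clo_min (fun _ h => h.1) hS hx,
    hf.zero_of_clo (S' := {x | x ∈ S ∧ f x = 0}) (fun _ h => h.1) (fun _ hs => hs.2)
      (clo_min (fun _ h => h.1) hS hx) hx⟩

theorem comp {φ : X → Y} {f : Y → k} (hf : RegOn O' W f) (hφ : MapOn O S O' φ)
    (h : MapsTo φ S W) : RegOn O S fun x => f (φ x) := by
  obtain ⟨F, hF, e⟩ := hf
  exact (hφ F hF).congr fun s hs => e _ (h hs)

end RegOn

theorem Closed.relCl (h : Closed O C) : RelCl O S C := fun _ hx =>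
  clo_min inter_subset_right h hx.2

theorem RelCl.closed (h : RelCl O S C) (hS : Closed O S) : Closed O (S ∩ C) := fun _ hx =>
  ⟨clo_min inter_subset_left hS hx, h ⟨clo_min inter_subset_left hS hx, hx⟩⟩

theorem relCl_iInter {ι : Sort*} {F : ι → Set X} (h : ∀ i, RelCl O S (F i)) :
    RelCl O S (⋂ i, F i) := fun _ hx => mem_iInter.2 fun i =>
  h i ⟨hx.1, clo_mono (inter_subset_inter_right _ (iInter_subset F i)) hx.2⟩

namespace MapOn

variable {φ : X → Y}

theorem mono (h : MapOn O S O' φ) (h' : S' ⊆ S) : MapOn O S' O' φ := fun f hf => (h f hf).mono h'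

theorem congr {ψ : X → Y} (h : MapOn O S O' φ) (h' : ∀ s ∈ S, φ s = ψ s) : MapOn O S O' ψ :=
  fun f hf => (h f hf).congr fun s hs => by rw [h' s hs]

theorem id : MapOn O S O fun x => x := fun _ hf => .of_mem hf

theorem const (y : Y) : MapOn O S O' fun _ => y := fun f _ => .const (f y)

theorem comp {ψ : Y → Z} (hψ : MapOn O' W O'' ψ) (hφ : MapOn O S O' φ) (h : MapsTo φ S W) :
    MapOn O S O'' fun x => ψ (φ x) := fun f hf => (hψ f hf).comp hφ h

theorem comp' {ψ : Y → Z} (hψ : MapOn O' univ O'' ψ) (hφ : MapOn O S O' φ) :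
    MapOn O S O'' fun x => ψ (φ x) := hψ.comp hφ (mapsTo_univ _ _)

theorem of_adjoin {s : Set (Y → k)} (h : ∀ f ∈ s, RegOn O S fun x => f (φ x)) :
    MapOn O S (Algebra.adjoin k s) φ := by
  intro f hf
  induction hf using Algebra.adjoin_induction with
  | mem f hf => exact h f hf
  | algebraMap c => exact .const c
  | add f g _ _ hf hg => exact hf.add hg
  | mul f g _ _ hf hg => exact hf.mul hg

theorem fst {S : Set (X × Y)} : MapOn (prd O O') S O Prod.fst := fun f hf =>
  .of_mem (Algebra.subset_adjoin (Or.inl ⟨f, hf, rfl⟩))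

theorem snd {S : Set (X × Y)} : MapOn (prd O O') S O' Prod.snd := fun f hf =>
  .of_mem (Algebra.subset_adjoin (Or.inr ⟨f, hf, rfl⟩))

theorem prodMk {ψ : X → Z} (hφ : MapOn O S O' φ) (hψ : MapOn O S O'' ψ) :
    MapOn O S (prd O' O'') fun x => (φ x, ψ x) := of_adjoin <| by
  rintro _ (⟨f, hf, rfl⟩ | ⟨f, hf, rfl⟩)
  exacts [hφ f hf, hψ f hf]

/-- Continuity. -/
theorem mem_clo (hφ : MapOn O S O' φ) (h : S' ⊆ S) {x : X} (hx : x ∈ S) (hx' : x ∈ clo O S') :
    φ x ∈ clo O' (φ '' S') := fun f hf h0 =>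
  (hφ f hf).zero_of_clo h (fun s hs => h0 _ ⟨s, hs, rfl⟩) hx hx'

theorem relCl (hφ : MapOn O S O' φ) (hW : Closed O' W) : RelCl O S (φ ⁻¹' W) := fun _ hx =>
  clo_min (by rintro _ ⟨s, hs, rfl⟩; exact hs.2) hW (hφ.mem_clo inter_subset_left hx.1 hx.2)

theorem closed (hφ : MapOn O S O' φ) (hS : Closed O S) (hW : Closed O' W) :
    Closed O (S ∩ φ ⁻¹' W) := (hφ.relCl hW).closed hS

end MapOn

theorem Closed.prod (h : Closed O S) (h' : Closed O' W) : Closed (prd O O') (S ×ˢ W) := by
  have h1 := (MapOn.fst (O := O) (O' := O') (S := univ)).closed closed_univ h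
  have h2 := (MapOn.snd (O := O) (O' := O') (S := univ)).closed closed_univ h'
  rw [univ_inter] at h1 h2
  exact h1.inter h2

namespace Irr

theorem regOn (h : Irr O S) {f g : X → k} (hf : RegOn O S f) (hg : RegOn O S g)
    (h0 : ∀ s ∈ S, f s * g s = 0) : (∀ s ∈ S, f s = 0) ∨ ∀ s ∈ S, g s = 0 := by
  obtain ⟨F, hF, e⟩ := hf
  obtain ⟨G, hG, e'⟩ := hg
  refine (h.2 F hF G hG fun s hs => by rw [e s hs, e' s hs, h0 s hs]).imp ?_ ?_
  exacts [fun h s hs => (e s hs).symm.trans (h s hs), fun h s hs => (e' s hs).symm.trans (h s hs)]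

theorem image (h : Irr O S) {φ : X → Y} (hφ : MapOn O S O' φ) : Irr O' (φ '' S) :=
  ⟨h.1.image φ, fun f hf g hg h0 => by
    simp only [forall_mem_image] at h0 ⊢
    exact h.regOn (hφ f hf) (hφ g hg) h0⟩

theorem of_subset_clo (h : Irr O S) (h1 : S ⊆ S') (h2 : S' ⊆ clo O S) : Irr O S' :=
  ⟨h.1.mono h1, fun f hf g hg h0 =>
    (h.2 f hf g hg fun s hs => h0 s (h1 hs)).imp (fun e _ hs => h2 hs f hf e)
      fun e _ hs => h2 hs g hg e⟩

theorem closure (h : Irr O S) : Irr O (clo O S) := h.of_subset_clo subset_clo Subset.rfl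

theorem of_dense (h : Irr O S') (h1 : S ⊆ S') (h2 : S' ⊆ clo O S) : Irr O S := by
  refine ⟨?_, fun f hf g hg h0 => ?_⟩
  · obtain ⟨x, hx⟩ := h.1
    by_contra hc
    rw [not_nonempty_iff_eq_empty] at hc
    exact closed_empty (hc ▸ h2 hx)
  · exact (h.2 f hf g hg fun s hs => h2 hs (f * g) (O.mul_mem hf hg) h0).imp
      (fun e s hs => e s (h1 hs)) fun e s hs => e s (h1 hs)

theorem singleton (x : X) : Irr O {x} :=
  ⟨singleton_nonempty x, fun f _ g _ h => by simpa using h⟩

theorem prod (h : Irr O S) (h' : Irr O' W) : Irr (prd O O') (S ×ˢ W) := by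
  refine ⟨h.1.prod h'.1, fun f hf g hg h0 => ?_⟩
  have r1 : ∀ F ∈ prd O O', ∀ y, RegOn O S fun x => F (x, y) := fun F hF y =>
    (MapOn.id.prodMk (MapOn.const y)) F hF
  have r2 : ∀ F ∈ prd O O', ∀ x, RegOn O' W fun y => F (x, y) := fun F hF x =>
    ((MapOn.const x).prodMk MapOn.id) F hF
  by_contra hc
  simp only [not_or, not_forall] at hc
  obtain ⟨⟨⟨x, y⟩, ⟨hx, hy⟩, e⟩, ⟨⟨x', y'⟩, ⟨hx', hy'⟩, e'⟩⟩ := hc
  have : ¬ ∀ s ∈ S, f (s, y) * g (s, y') = 0 := fun h1 =>
    (h.regOn (r1 f hf y) (r1 g hg y') h1).elim (fun h2 => e (h2 x hx)) fun h2 => e' (h2 x' hx')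
  simp only [not_forall] at this
  obtain ⟨s, hs, h1⟩ := this
  exact (h'.regOn (r2 f hf s) (r2 g hg s) fun w hw => h0 (s, w) ⟨hs, hw⟩).elim
    (fun h2 => h1 (by rw [h2 y hy, zero_mul])) fun h2 => h1 (by rw [h2 y' hy', mul_zero])

theorem subset_or (h : Irr O S) {A B : Set X} (hA : RelCl O S A) (hB : RelCl O S B)
    (hc : S ⊆ A ∪ B) : S ⊆ A ∨ S ⊆ B := by
  by_contra hn
  simp only [not_or, not_subset] at hn
  obtain ⟨⟨x, hx, hxA⟩, ⟨y, hy, hyB⟩⟩ := hn
  have h1 : x ∉ clo O (S ∩ A) := fun e => hxA (hA ⟨hx, e⟩)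
  have h2 : y ∉ clo O (S ∩ B) := fun e => hyB (hB ⟨hy, e⟩)
  simp only [clo, mem_ofPred_eq, not_forall] at h1 h2
  obtain ⟨f, hf, hf0, hfx⟩ := h1
  obtain ⟨g, hg, hg0, hgy⟩ := h2
  refine (h.2 f hf g hg fun s hs => ?_).elim (fun e => hfx (e x hx)) fun e => hgy (e y hy)
  rcases hc hs with h3 | h3
  · rw [hf0 s ⟨hs, h3⟩, zero_mul]
  · rw [hg0 s ⟨hs, h3⟩, mul_zero]

theorem _root_.Pool.Agent.AG.RelCl.union {A B : Set X} (hA : RelCl O S A) (hB : RelCl O S B) :
    RelCl O S (A ∪ B) := fun x hx => by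
  have := hx.2
  rw [inter_union_distrib_left, clo_union] at this
  exact this.imp (fun e => hA ⟨hx.1, e⟩) fun e => hB ⟨hx.1, e⟩

/-- An irreducible set covered by finitely many relatively closed sets lies in one of them. -/
theorem cover (h : Irr O S) {ι : Type*} {F : ι → Set X} {s : Set ι} (hs : s.Finite)
    (hF : ∀ i ∈ s, RelCl O S (F i)) (hc : S ⊆ ⋃ i ∈ s, F i) : ∃ i ∈ s, S ⊆ F i := by
  have key : ∀ t : Set ι, t.Finite → (∀ i ∈ t, RelCl O S (F i)) →
      RelCl O S (⋃ i ∈ t, F i) ∧ (S ⊆ ⋃ i ∈ t, F i → ∃ i ∈ t, S ⊆ F i) := by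
    intro t ht
    induction t, ht using Set.Finite.induction_on with
    | empty =>
      intro _
      refine ⟨by simpa using closed_empty.relCl, fun e => ?_⟩
      obtain ⟨x, hx⟩ := h.1
      simpa using e hx
    | insert _ _ ih =>
      intro h1
      obtain ⟨h2, h3⟩ := ih fun i hi => h1 i (mem_insert_of_mem _ hi)
      rw [biUnion_insert]
      refine ⟨(h1 _ (mem_insert _ _)).union h2, fun e => ?_⟩
      rcases h.subset_or (h1 _ (mem_insert _ _)) h2 e with h4 | h4
      · exact ⟨_, mem_insert _ _, h4⟩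
      · obtain ⟨i, hi, h5⟩ := h3 h4
        exact ⟨i, mem_insert_of_mem _ hi, h5⟩
  exact (key s hs hF).2 hc

/-- In an irreducible set the complement of a proper closed subset is dense. -/
theorem subset_clo_diff (h : Irr O S) (hC : RelCl O S C) (hn : ¬ S ⊆ C) :
    S ⊆ clo O (S \ C) :=
  (h.subset_or hC closed_clo.relCl fun x hx => by
    by_cases e : x ∈ C
    exacts [Or.inl e, Or.inr (subset_clo ⟨hx, e⟩)]).resolve_left hn

end Irr

section spaces

variable {V : Type u} [AddCommGroup V] [Module k V] {n : ℕ}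

theorem dual_mem_OV (l : Module.Dual k V) : (l : V → k) ∈ OV k V := Algebra.subset_adjoin ⟨l, rfl⟩

theorem MapOn.toOV {φ : X → V} (h : ∀ l : Module.Dual k V, RegOn O S fun x => l (φ x)) :
    MapOn O S (OV k V) φ := .of_adjoin <| by
  rintro _ ⟨l, rfl⟩
  exact h l

theorem MapOn.dual {φ : X → V} (h : MapOn O S (OV k V) φ) (l : Module.Dual k V) :
    RegOn O S fun x => l (φ x) := h _ (dual_mem_OV l)

theorem MapOn.linear {V' : Type u} [AddCommGroup V'] [Module k V'] (A : V →ₗ[k] V') {S : Set V} :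
    MapOn (OV k V) S (OV k V') A := .toOV fun l => .of_mem (dual_mem_OV (l ∘ₗ A))

theorem MapOn.vadd {φ ψ : X → V} (h : MapOn O S (OV k V) φ) (h' : MapOn O S (OV k V) ψ) :
    MapOn O S (OV k V) fun x => φ x + ψ x := .toOV fun l => by
  simpa only [map_add] using (h.dual l).add (h'.dual l)

theorem MapOn.vsmul {f : X → k} {φ : X → V} (h : RegOn O S f) (h' : MapOn O S (OV k V) φ) :
    MapOn O S (OV k V) fun x => f x • φ x := .toOV fun l => by
  simpa only [map_smul, smul_eq_mul] using h.mul (h'.dual l)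

theorem MapOn.vsum {ι : Type*} {s : Finset ι} {φ : ι → X → V}
    (h : ∀ i ∈ s, MapOn O S (OV k V) (φ i)) : MapOn O S (OV k V) fun x => ∑ i ∈ s, φ i x :=
  .toOV fun l => by simpa only [map_sum] using RegOn.sum fun i hi => (h i hi).dual l

theorem RegOn.mapOn {f : X → k} (h : RegOn O S f) : MapOn O S (OV k k) f := .toOV fun l => by
  refine (h.mul (.const (l 1))).congr fun s _ => ?_
  rw [← smul_eq_mul, ← map_smul, smul_eq_mul, mul_one]

theorem regOn_id {S : Set k} : RegOn (OV k k) S fun c => c :=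
  .of_mem (dual_mem_OV (LinearMap.id : k →ₗ[k] k))

theorem regOn_apply {I : Type} (i : I) {S : Set (I → k)} : RegOn (OV k (I → k)) S fun c => c i :=
  .of_mem (dual_mem_OV (LinearMap.proj i : (I → k) →ₗ[k] k))

theorem closed_submodule (W : Submodule k V) : Closed (OV k V) W := fun x hx => by
  rw [SetLike.mem_coe, ← Subspace.forall_mem_dualAnnihilator_apply_eq_zero_iff]
  exact fun l hl => hx l (dual_mem_OV l) fun s hs => (Submodule.mem_dualAnnihilator l).1 hl s hs

theorem entry_mem_OG (i j : Fin n) : (fun g : GL (Fin n) k => g.1 i j) ∈ OG k n :=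
  Algebra.subset_adjoin ⟨i, j, Or.inl rfl⟩

theorem inv_entry_mem_OG (i j : Fin n) : (fun g : GL (Fin n) k => g⁻¹.1 i j) ∈ OG k n :=
  Algebra.subset_adjoin ⟨i, j, Or.inr rfl⟩

theorem MapOn.toOG {φ : X → GL (Fin n) k} (h : ∀ i j, RegOn O S fun x => (φ x).1 i j)
    (h' : ∀ i j, RegOn O S fun x => (φ x)⁻¹.1 i j) : MapOn O S (OG k n) φ := .of_adjoin <| by
  rintro _ ⟨i, j, rfl | rfl⟩
  exacts [h i j, h' i j]

theorem MapOn.entry {φ : X → GL (Fin n) k} (h : MapOn O S (OG k n) φ) (i j : Fin n) :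
    RegOn O S fun x => (φ x).1 i j := h _ (entry_mem_OG i j)

theorem MapOn.inv {φ : X → GL (Fin n) k} (h : MapOn O S (OG k n) φ) :
    MapOn O S (OG k n) fun x => (φ x)⁻¹ :=
  .toOG (fun i j => h _ (inv_entry_mem_OG i j)) fun i j => by
    simpa only [inv_inv] using h.entry i j

theorem MapOn.mul {φ ψ : X → GL (Fin n) k} (h : MapOn O S (OG k n) φ)
    (h' : MapOn O S (OG k n) ψ) : MapOn O S (OG k n) fun x => φ x * ψ x := by
  refine .toOG (fun i j => ?_) fun i j => ?_
  · simp only [Units.val_mul, Matrix.mul_apply]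
    exact .sum fun a _ => (h.entry i a).mul (h'.entry a j)
  · simp only [mul_inv_rev, Units.val_mul, Matrix.mul_apply]
    exact .sum fun a _ => (h'.inv.entry i a).mul (h.inv.entry a j)

theorem MapOn.pow {φ : X → GL (Fin n) k} (h : MapOn O S (OG k n) φ) (m : ℕ) :
    MapOn O S (OG k n) fun x => φ x ^ m := by
  induction m with
  | zero => simpa using MapOn.const 1
  | succ m ih => simpa only [pow_succ] using ih.mul h

theorem MapOn.val {φ : X → GL (Fin n) k} (h : MapOn O S (OG k n) φ) :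
    MapOn O S (OV k (Matrix (Fin n) (Fin n) k)) fun x => (φ x).1 := .toOV fun l => by
  refine (RegOn.sum (s := Finset.univ) fun i _ => RegOn.sum (s := Finset.univ) fun j _ =>
    (h.entry i j).mul (.const (l (Matrix.single i j 1)))).congr fun s _ => ?_
  conv_rhs => rw [Matrix.matrix_eq_sum_single (φ s).1]
  simp only [map_sum]
  refine Finset.sum_congr rfl fun i _ => Finset.sum_congr rfl fun j _ => ?_
  rw [← smul_eq_mul, ← map_smul, Matrix.smul_single, smul_eq_mul, mul_one]

theorem regOn_unit {S : Set kˣ} : RegOn (OU k) S fun a => (a : k) :=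
  .of_mem (Algebra.subset_adjoin (Or.inl rfl))

theorem regOn_unit_inv {S : Set kˣ} : RegOn (OU k) S fun a => ((a⁻¹ : kˣ) : k) :=
  .of_mem (Algebra.subset_adjoin (Or.inr rfl))

theorem regOn_unit_zpow {S : Set kˣ} (m : ℤ) : RegOn (OU k) S fun a => ((a ^ m : kˣ) : k) := by
  obtain ⟨m, rfl | rfl⟩ := m.eq_nat_or_neg
  · simpa using regOn_unit.pow m
  · simpa using (regOn_unit_inv (k := k) (S := S)).pow m

theorem MapOn.toOU {φ : X → kˣ} (h : RegOn O S fun x => (φ x : k))
    (h' : RegOn O S fun x => (((φ x)⁻¹ : kˣ) : k)) : MapOn O S (OU k) φ := .of_adjoin <| by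
  rintro _ (rfl | rfl)
  exacts [h, h']

end spaces

end Pool.Agent.AG
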