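import Pool.Agent.Lib.AG.Defs
import Pool.Agent.Lib.AG.Var

/-! Working definitions: representations, weight spaces, coordinates on tori, the subgroups
attached to semigroups of weights. -/

namespace Pool.Agent.AG

open Set Matrix

attribute [local instance 100] LieRing.ofAssociativeRing

universe u

/-- The general linear group. -/
abbrev Gl (n : ℕ) (k : Type u) [Field k] : Type u := GL (Fin n) k

/-- Square matrices. -/
abbrev Mt (n : ℕ) (k : Type u) : Type u := Matrix (Fin n) (Fin n) k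

variable {k : Type u} [Field k] {n : ℕ}

/-- The conjugate subgroup `g H g⁻¹`. -/
def cj (g : Gl n k) (H : Subgroup (Gl n k)) : Subgroup (Gl n k) :=
  H.map (MulAut.conj g).toMonoidHom

theorem mem_cj {g x : Gl n k} {H : Subgroup (Gl n k)} : x ∈ cj g H ↔ g⁻¹ * x * g ∈ H := by
  constructor
  · rintro ⟨y, hy, rfl⟩
    simpa [mul_assoc] using hy
  · exact fun h => ⟨_, h, by simp [mul_assoc]⟩

theorem cj_cj (g h : Gl n k) (H : Subgroup (Gl n k)) : cj g (cj h H) = cj (g * h) H := by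
  ext x
  simp [mem_cj, mul_assoc]

theorem cj_one (H : Subgroup (Gl n k)) : cj 1 H = H := by
  ext x
  simp [mem_cj]

theorem cj_mono (g : Gl n k) {H K : Subgroup (Gl n k)} (h : H ≤ K) : cj g H ≤ cj g K :=
  Subgroup.map_mono h

theorem cj_eq_self {g : Gl n k} {H : Subgroup (Gl n k)} (h : g ∈ H) : cj g H = H := by
  ext x
  rw [mem_cj, H.mul_mem_cancel_right h, H.mul_mem_cancel_left (H.inv_mem h)]

/-- `D` normalises `G`. -/
def Nm (D G : Subgroup (Gl n k)) : Prop := ∀ t ∈ D, ∀ g ∈ G, t * g * t⁻¹ ∈ G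

theorem Nm.of_le {D G : Subgroup (Gl n k)} (h : D ≤ G) : Nm D G := fun _ ht _ hg =>
  G.mul_mem (G.mul_mem (h ht) hg) (G.inv_mem (h ht))

/-- Diagonalisable subgroups. -/
def Dg (D : Subgroup (Gl n k)) : Prop := ∃ P : Gl n k, ∀ t ∈ D, (P * t * P⁻¹).1.IsDiag

/-- Semisimple elements. -/
def SS (g : Gl n k) : Prop := ∃ P : Gl n k, (P * g * P⁻¹).1.IsDiag

/-- Triangularisable subgroups. -/
def Trg (B : Subgroup (Gl n k)) : Prop :=
  ∃ P : Gl n k, ∀ b ∈ B, (P * b * P⁻¹).1.BlockTriangular id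

/-- The identity component. -/
def idc (G : Subgroup (Gl n k)) : Subgroup (Gl n k) :=
  G ⊓ ⨅ K : {K : Subgroup (Gl n k) // Closed (OG k n) (K : Set (Gl n k)) ∧ K.relIndex G ≠ 0}, K.1

/-- A homomorphism to the multiplicative group that is given by a regular function. -/
def RegChar {H : Subgroup (Gl n k)} (χ : H →* kˣ) : Prop :=
  ∃ F ∈ OG k n, ∀ h : H, F h.1 = (χ h : k)

section reps

variable {V : Type u} [AddCommGroup V] [Module k V]

/-- A regular representation of `G`. -/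
structure IsRep (G : Subgroup (Gl n k)) (ρ : Gl n k → Module.End k V) : Prop where
  one : ρ 1 = 1
  mul : ∀ g ∈ G, ∀ h ∈ G, ρ (g * h) = ρ g * ρ h
  reg : ∀ (l : Module.Dual k V) (v : V), RegOn (OG k n) (G : Set (Gl n k)) fun g => l (ρ g v)

theorem IsRep.mono {G H : Subgroup (Gl n k)} {ρ : Gl n k → Module.End k V} (h : IsRep G ρ)
    (hH : H ≤ G) : IsRep H ρ :=
  ⟨h.one, fun g hg g' hg' => h.mul g (hH hg) g' (hH hg'), fun l v => (h.reg l v).mono hH⟩

theorem IsRep.mul_apply {G : Subgroup (Gl n k)} {ρ : Gl n k → Module.End k V} (h : IsRep G ρ)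
    {g g' : Gl n k} (hg : g ∈ G) (hg' : g' ∈ G) (v : V) : ρ (g * g') v = ρ g (ρ g' v) := by
  rw [h.mul g hg g' hg']; rfl

theorem IsRep.inv_apply {G : Subgroup (Gl n k)} {ρ : Gl n k → Module.End k V} (h : IsRep G ρ)
    {g : Gl n k} (hg : g ∈ G) (v : V) : ρ g⁻¹ (ρ g v) = v := by
  rw [← h.mul_apply (G.inv_mem hg) hg, inv_mul_cancel, h.one]; rfl

theorem IsRep.apply_inv {G : Subgroup (Gl n k)} {ρ : Gl n k → Module.End k V} (h : IsRep G ρ)
    {g : Gl n k} (hg : g ∈ G) (v : V) : ρ g (ρ g⁻¹ v) = v := by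
  rw [← h.mul_apply hg (G.inv_mem hg), mul_inv_cancel, h.one]; rfl

theorem IsRep.mapOn {G : Subgroup (Gl n k)} {ρ : Gl n k → Module.End k V} (h : IsRep G ρ) (v : V) :
    MapOn (OG k n) (G : Set (Gl n k)) (OV k V) fun g => ρ g v := .toOV fun l => h.reg l v

/-- The representation as a homomorphism. -/
def IsRep.hom {G : Subgroup (Gl n k)} {ρ : Gl n k → Module.End k V} (h : IsRep G ρ) :
    G →* Module.End k V where
  toFun g := ρ g.1
  map_one' := h.one
  map_mul' g g' := h.mul g.1 g.2 g'.1 g'.2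

/-- Stable subspaces. -/
def Stab (G : Subgroup (Gl n k)) (ρ : Gl n k → Module.End k V) (W : Submodule k V) : Prop :=
  ∀ g ∈ G, ∀ w ∈ W, ρ g w ∈ W

/-- Simple representations. -/
def Simp (G : Subgroup (Gl n k)) (ρ : Gl n k → Module.End k V) : Prop :=
  Nontrivial V ∧ ∀ W, Stab G ρ W → W = ⊥ ∨ W = ⊤

/-- The dual representation. -/
def dualRep (ρ : Gl n k → Module.End k V) (g : Gl n k) : Module.End k (Module.Dual k V) :=
  (ρ g⁻¹).dualMap

/-- The weight space of a character of `D`. -/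
def wV (ρ : Gl n k → Module.End k V) (D : Subgroup (Gl n k)) (γ : D →* kˣ) : Submodule k V where
  carrier := {v | ∀ t : D, ρ t.1 v = (γ t : k) • v}
  add_mem' hv hw t := by rw [map_add, hv t, hw t, smul_add]
  zero_mem' t := by rw [map_zero, smul_zero]
  smul_mem' c _ hv t := by rw [map_smul, hv t, smul_comm]

theorem mem_wV {ρ : Gl n k → Module.End k V} {D : Subgroup (Gl n k)} {γ : D →* kˣ} {v : V} :
    v ∈ wV ρ D γ ↔ ∀ t : D, ρ t.1 v = (γ t : k) • v := Iff.rfl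

/-- Closed stable cones. -/
def Cone (G : Subgroup (Gl n k)) (ρ : Gl n k → Module.End k V) (C : Set V) : Prop :=
  Closed (OV k V) C ∧ (∀ (a : k), ∀ v ∈ C, a • v ∈ C) ∧ ∀ g ∈ G, ∀ v ∈ C, ρ g v ∈ C

/-- The cone over the orbit of the line through `v`. -/
def orbC (G : Subgroup (Gl n k)) (ρ : Gl n k → Module.End k V) (v : V) : Set V :=
  {w | ∃ a : k, ∃ g ∈ G, w = a • ρ g v}

/-- The stabiliser in `G` of the line through `v`. -/
def stabL (G : Subgroup (Gl n k)) (ρ : Gl n k → Module.End k V) (v : V) : Subgroup (Gl n k) :=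
  Subgroup.closure {g | g ∈ G ∧ ∃ a : k, ρ g v = a • v}

end reps

/-- The natural representation. -/
def nat (g : Gl n k) : Module.End k (Fin n → k) := Matrix.mulVecLin g.1

theorem nat_apply (g : Gl n k) (v : Fin n → k) : nat g v = g.1 *ᵥ v := rfl

/-- The adjoint representation on all matrices. -/
def Ad (g : Gl n k) : Module.End k (Mt n k) :=
  (LinearMap.mulLeft k g.1).comp (LinearMap.mulRight k g⁻¹.1)

theorem Ad_apply (g : Gl n k) (A : Mt n k) : Ad g A = g.1 * A * g⁻¹.1 := (mul_assoc _ _ _).symm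

/-- Semigroups of characters. -/
def SG {A : Type*} [Mul A] (P : Set A) : Prop := ∀ a ∈ P, ∀ b ∈ P, a * b ∈ P

/-- Additive semigroups of weights. -/
def SGa {A : Type*} [Add A] (P : Set A) : Prop := ∀ a ∈ P, ∀ b ∈ P, a + b ∈ P

/-- The sum of the weight spaces of matrices with weights in `P`. -/
def MP (D : Subgroup (Gl n k)) (P : Set (D →* kˣ)) : Submodule k (Mt n k) := ⨆ γ ∈ P, wV Ad D γ

/-- The elements `g` of `G` such that `g - 1` has weights in `P`. -/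
def GP (G D : Subgroup (Gl n k)) (P : Set (D →* kˣ)) : Subgroup (Gl n k) :=
  Subgroup.closure {g | g ∈ G ∧ g.1 - 1 ∈ MP D P}

/-- Coordinates on a torus. -/
structure TD (T : Subgroup (Gl n k)) where
  r : ℕ
  χ : (Fin r → ℤ) → (T →* kˣ)
  co : (Fin r → ℤ) → kˣ → Gl n k
  H : (Fin r → ℤ) →+ Mt n k
  tor : Tor T
  χ_add : ∀ x x', χ (x + x') = χ x * χ x'
  coch : ∀ y, Coch T (co y)
  co_add : ∀ y y' a, co (y + y') a = co y a * co y' a
  pair : ∀ x y a, χ x ⟨co y a, (coch y).1 a⟩ = a ^ (x ⬝ᵥ y)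
  sep : ∀ t : T, (∀ x, χ x t = 1) → t = 1
  surj : ∀ φ : Multiplicative (Fin r → ℤ) →* kˣ, ∃ t : T, ∀ x, χ x t = φ (.ofAdd x)
  reg : ∀ x, RegChar (χ x)
  span : ∀ F ∈ OG k n, ∃ c : (Fin r → ℤ) →₀ k, ∀ t : T, F t.1 = c.sum fun x a => a * (χ x t : k)
  all_co : ∀ f, Coch T f → ∃ y, f = co y
  H_nat : ∀ x y, ∀ v ∈ wV nat T (χ x), H y *ᵥ v = ((x ⬝ᵥ y : ℤ) : k) • v

/-- Positive rational multiples of `α`. -/
def ray {r : ℕ} (α : Fin r → ℤ) : Set (Fin r → ℤ) :=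
  {x | ∃ a b : ℕ, 0 < a ∧ 0 < b ∧ a • x = b • α}

/-- Rational multiples of `α`. -/
def line {r : ℕ} (α : Fin r → ℤ) : Set (Fin r → ℤ) := {x | ∃ (a : ℕ) (b : ℤ), 0 < a ∧ a • x = b • α}

namespace TD

variable {T : Subgroup (Gl n k)} (τ : TD T) {V : Type u} [AddCommGroup V] [Module k V]

/-- The lattice. -/
abbrev X : Type := Fin τ.r → ℤ

/-- Weight spaces. -/
abbrev w (ρ : Gl n k → Module.End k V) (x : τ.X) : Submodule k V := wV ρ T (τ.χ x)

/-- The sum of the weight spaces of matrices with weights in `P`. -/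
abbrev M (P : Set τ.X) : Submodule k (Mt n k) := MP T (τ.χ '' P)

/-- The elements `g` of `G` such that `g - 1` has weights in `P`. -/
abbrev GX (G : Subgroup (Gl n k)) (P : Set τ.X) : Subgroup (Gl n k) := GP G T (τ.χ '' P)

/-- The centraliser of a cocharacter. -/
abbrev Z (G : Subgroup (Gl n k)) (y : τ.X) : Subgroup (Gl n k) := τ.GX G {x | x ⬝ᵥ y = 0}

/-- The unipotent group contracted by a cocharacter. -/
abbrev U (G : Subgroup (Gl n k)) (y : τ.X) : Subgroup (Gl n k) := τ.GX G {x | 0 < x ⬝ᵥ y}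

/-- The image of a cocharacter. -/
def S (y : τ.X) : Subgroup (Gl n k) := Subgroup.closure (range (τ.co y))

/-- Regular cocharacters: no nonzero weight of the matrix algebra is killed. -/
def Rg (y : τ.X) : Prop := ∀ x, x ≠ 0 → τ.w Ad x ≠ ⊥ → x ⬝ᵥ y ≠ 0

/-- The roots in coordinates. -/
def Rt (G : Subgroup (Gl n k)) : Set τ.X := {x | x ≠ 0 ∧ ∃ A ∈ lie G, A ≠ 0 ∧ A ∈ τ.w Ad x}

/-- `x₀` is the unique highest weight with respect to `y`. -/
def Top (ρ : Gl n k → Module.End k V) (y x₀ : τ.X) : Prop :=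
  τ.w ρ x₀ ≠ ⊥ ∧ ∀ x, τ.w ρ x ≠ ⊥ → x ≠ x₀ → x ⬝ᵥ y < x₀ ⬝ᵥ y

/-- Extremal weights. -/
def Ext (ρ : Gl n k → Module.End k V) (x₀ : τ.X) : Prop := ∃ y, τ.Rg y ∧ τ.Top ρ y x₀

/-- A nonzero linear form that kills all weight spaces except the one of `x₀`. -/
def IsCo (ρ : Gl n k → Module.End k V) (x₀ : τ.X) (l : Module.Dual k V) : Prop :=
  l ≠ 0 ∧ ∀ x, x ≠ x₀ → ∀ v ∈ τ.w ρ x, l v = 0

/-- `g` normalises the torus and acts on characters by `a`, on cocharacters by `a'`. -/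
structure Act (g : Gl n k) (a a' : τ.X ≃+ τ.X) : Prop where
  mem : ∀ t ∈ T, g * t * g⁻¹ ∈ T
  mem' : ∀ t ∈ T, g⁻¹ * t * g ∈ T
  chi : ∀ x (t : T), τ.χ (a x) ⟨g * t.1 * g⁻¹, mem t.1 t.2⟩ = τ.χ x t
  co : ∀ y c, g * τ.co y c * g⁻¹ = τ.co (a' y) c
  dot : ∀ x y, a x ⬝ᵥ a' y = x ⬝ᵥ y

/-- A parametrisation of the root subgroup of `α` with tangent vector `e`. -/
structure RH (G : Subgroup (Gl n k)) (α : τ.X) (x : k → Gl n k) (e : Mt n k) : Prop where
  add : ∀ c d, x (c + d) = x c * x d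
  inj : Function.Injective x
  mem_iff : ∀ g, g ∈ τ.GX G (ray α) ↔ ∃ c, g = x c
  conj : ∀ (t : T) c, t.1 * x c * t.1⁻¹ = x ((τ.χ α t : k) * c)
  poly : ∃ (N : ℕ) (E : ℕ → Mt n k), 2 ≤ N ∧ E 0 = 1 ∧ E 1 = e ∧ (∀ j : ℕ, E j ∈ τ.w Ad (j • α)) ∧
    ∀ c, (x c).1 = ∑ j ∈ Finset.range N, c ^ j • E j
  ne : e ≠ 0
  mem_lie : e ∈ lie G

end TD

/-- A filtration of a group with one-dimensional steps. -/
structure Filt (k : Type u) [Field k] (B : Type*) [Group B] where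
  m : ℕ
  N : ℕ → Subgroup B
  φ : ℕ → B → k
  χ : ℕ → B →* kˣ
  anti : ∀ j, N (j + 1) ≤ N j
  last : N m = ⊥
  normal : ∀ j, (N j).Normal
  add : ∀ j, ∀ x ∈ N j, ∀ y ∈ N j, φ j (x * y) = φ j x + φ j y
  ker : ∀ j, ∀ x ∈ N j, φ j x = 0 ↔ x ∈ N (j + 1)
  conj : ∀ j b, ∀ x ∈ N j, φ j (b * x * b⁻¹) = (χ j b : k) * φ j x
  triv : ∀ j, ∀ x ∈ N 0, χ j x = 1

/-- The upper unitriangular matrix with entry `c`. -/
def up (c : k) : SpecialLinearGroup (Fin 2) k := ⟨!![1, c; 0, 1], by simp [det_fin_two]⟩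

/-- The lower unitriangular matrix with entry `c`. -/
def lo (c : k) : SpecialLinearGroup (Fin 2) k := ⟨!![1, 0; c, 1], by simp [det_fin_two]⟩

/-- The diagonal matrix with entries `a`, `a⁻¹`. -/
def di (a : kˣ) : SpecialLinearGroup (Fin 2) k :=
  ⟨!![(a : k), 0; 0, ((a⁻¹ : kˣ) : k)], by simp [det_fin_two]⟩

/-- The root datum of a reductive group with root homomorphisms. -/
structure Pn (G : Subgroup (Gl n k)) {T : Subgroup (Gl n k)} (τ : TD T) where
  ι : Type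
  [fin : Fintype ι]
  P : RootDatum ι τ.X τ.X
  red : P.IsReduced
  x : ι → k → Gl n k
  e : ι → Mt n k
  φ : ι → SpecialLinearGroup (Fin 2) k →* Gl n k
  pair : ∀ a b, P.toLinearMap a b = a ⬝ᵥ b
  range_root : range P.root = τ.Rt G
  rh : ∀ i, τ.RH G (P.root i) (x i) (e i)
  dim : ∀ i, ∀ A ∈ lie G, A ∈ τ.w Ad (P.root i) → ∃ c : k, A = c • e i
  φ_mem : ∀ i g, φ i g ∈ G
  φ_up : ∀ i c, φ i (up c) = x i c
  φ_lo : ∀ i c, φ i (lo c) = x (P.reflectionPerm i i) c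
  φ_di : ∀ i a, φ i (di a) = τ.co (P.coroot i) a
  refl : ∀ i, ∃ g ∈ G, ∃ a a', τ.Act g a a' ∧ ∀ v, a v = P.reflection i v
  e_neg : ∀ i j, P.root j = -P.root i → e i * e j - e j * e i = τ.H (P.coroot i)

attribute [instance] Pn.fin Pn.red

end Pool.Agent.AG
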