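import Pool.Agent.Lib.AG.GXa

/-! The big cell. -/

namespace Pool.Agent.AG

open Set Matrix

attribute [local instance 100] LieRing.ofAssociativeRing

universe u

variable {k : Type u} [Field k] [IsAlgClosed k] [Fact (ringChar k).Prime] {n : ℕ}
  {G H T : Subgroup (Gl n k)} (τ : TD T)

namespace TD

omit [IsAlgClosed k] [Fact (ringChar k).Prime] in
private theorem big_two (hG : CC G) {W : Set (Gl n k)} (hW : Closed (OG k n) W)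
    (h : ¬ (G : Set (Gl n k)) ⊆ W) {z : Gl n k} (hz : z ∈ G) : ∃ g ∈ G, g ∉ W ∧ z * g ∉ W := by
  by_contra hc
  refine (hG.irr.subset_or hW.relCl (((MapOn.const z).mul MapOn.id).relCl hW) fun g hg => ?_).elim
    h fun h1 => h fun g hg => ?_
  · by_contra h1
    exact hc ⟨g, hg, not_or.1 h1⟩
  · simpa using h1 (G.mul_mem (G.inv_mem hz) hg)

private theorem big_mem {P : Set τ.X} {x : τ.X} (hx : x ∈ P) {A : Mt n k} (hA : A ∈ τ.w Ad x) :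
    A ∈ τ.M P := by
  rw [τ.M_eq]
  exact Submodule.mem_iSup_of_mem x (Submodule.mem_iSup_of_mem hx hA)

theorem big_cell (hG : CC G) (hn : Nm T G) (y : τ.X) :
    ∃ W, Closed (OG k n) W ∧ ¬ (G : Set (Gl n k)) ⊆ W ∧ ∀ g ∈ G, g ∉ W →
      ∃ a ∈ τ.U G (-y), ∃ b ∈ idc (τ.Z G y), ∃ c ∈ τ.U G y, g = a * b * c := by
  have hZ := τ.closed_GX (sga_zero y) hG.closed
  refine dom3 hG (τ.closed_GX (sga_pos _) hG.closed) (idc_spec hZ).1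
    (τ.closed_GX (sga_pos _) hG.closed) GP_le ((idc_le _).trans GP_le) GP_le fun A hA => ?_
  obtain ⟨c, hc, rfl⟩ := τ.lie_comp hn hA
  rw [lie_idc hZ]
  refine Finset.sum_induction _ (fun A => ∃ A₁ ∈ lie (τ.U G (-y)), ∃ A₂ ∈ lie (τ.Z G y),
    ∃ A₃ ∈ lie (τ.U G y), A = A₁ + A₂ + A₃) ?_
    ⟨0, zero_mem _, 0, zero_mem _, 0, zero_mem _, by simp⟩ fun x _ => ?_
  · rintro _ _ ⟨A₁, h₁, A₂, h₂, A₃, h₃, rfl⟩ ⟨B₁, g₁, B₂, g₂, B₃, g₃, rfl⟩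
    exact ⟨_, add_mem h₁ g₁, _, add_mem h₂ g₂, _, add_mem h₃ g₃, by abel⟩
  rcases lt_trichotomy (x ⬝ᵥ y) 0 with h | h | h
  · refine ⟨_, (τ.mem_lie_GX hG.closed hn (sga_pos _)).2 ⟨(hc x).1, τ.big_mem ?_ (hc x).2⟩,
      0, zero_mem _, 0, zero_mem _, by simp⟩
    simpa using h
  · exact ⟨0, zero_mem _, _, (τ.mem_lie_GX hG.closed hn (sga_zero _)).2
      ⟨(hc x).1, τ.big_mem h (hc x).2⟩, 0, zero_mem _, by simp⟩
  · exact ⟨0, zero_mem _, 0, zero_mem _, _, (τ.mem_lie_GX hG.closed hn (sga_pos _)).2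
      ⟨(hc x).1, τ.big_mem h (hc x).2⟩, by simp⟩

theorem cell_unique {y : τ.X} {a a' b b' c c' : Gl n k} (ha : a ∈ τ.U G (-y))
    (ha' : a' ∈ τ.U G (-y)) (hb : b ∈ τ.Z G y) (hb' : b' ∈ τ.Z G y) (hc : c ∈ τ.U G y)
    (hc' : c' ∈ τ.U G y) (h : a * b * c = a' * b' * c') : a = a' ∧ b = b' ∧ c = c' := by
  have hZ : τ.Z G y ≤ τ.GX G {x | 0 ≤ x ⬝ᵥ y} := τ.GX_mono le_rfl fun x hx => Eq.ge hx
  have hU : τ.U G y ≤ τ.GX G {x | 0 ≤ x ⬝ᵥ y} := τ.GX_mono le_rfl fun x (hx : 0 < x ⬝ᵥ y) => hx.le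
  have e1 : a'⁻¹ * a = b' * c' * (b * c)⁻¹ := by
    rw [eq_mul_inv_iff_mul_eq, mul_assoc, ← mul_assoc a, h]
    group
  have h1 : a'⁻¹ * a = 1 := τ.GX_inf_eq_bot (sga_pos (-y)) (sga_nonneg y)
    (disjoint_left.2 fun x h1 h2 => by
      have h3 : 0 < x ⬝ᵥ -y := h1
      have h4 : 0 ≤ x ⬝ᵥ y := h2
      rw [dotProduct_neg] at h3
      omega) (mul_mem (inv_mem ha') ha)
    (e1 ▸ mul_mem (mul_mem (hZ hb') (hU hc')) (inv_mem (mul_mem (hZ hb) (hU hc))))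
  obtain rfl : a' = a := inv_mul_eq_one.1 h1
  rw [mul_assoc, mul_assoc, mul_left_cancel_iff] at h
  have e2 : b'⁻¹ * b = c' * c⁻¹ := by
    rw [eq_mul_inv_iff_mul_eq, mul_assoc, h, inv_mul_cancel_left]
  have h2 : b'⁻¹ * b = 1 := τ.GX_inf_eq_bot (sga_zero y) (sga_pos y)
    (disjoint_left.2 fun x h1 h2 => ne_of_gt h2 h1) (mul_mem (inv_mem hb') hb)
    (e2 ▸ mul_mem hc' (inv_mem hc))
  obtain rfl : b' = b := inv_mul_eq_one.1 h2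
  exact ⟨rfl, rfl, mul_left_cancel h⟩

theorem cc_U (hG : Closed (OG k n) (G : Set (Gl n k))) (hn : Nm T G) (y : τ.X) :
    CC (τ.U G y) := by
  exact τ.cc_of_le_U (τ.closed_GX (sga_pos y) hG) (τ.nm_GX (sga_pos y) hn) le_rfl

theorem cc_Z (hG : CC G) (hn : Nm T G) (y : τ.X) : CC (τ.Z G y) := by
  obtain ⟨W, hW, h1, h2⟩ := τ.big_cell hG hn y
  have h : idc (τ.Z G y) = τ.Z G y := le_antisymm (idc_le _) fun z hz => by
    obtain ⟨g, hg, h3, h4⟩ := big_two hG hW h1 (GP_le hz)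
    obtain ⟨a, ha, b, hb, c, hc, rfl⟩ := h2 g hg h3
    obtain ⟨a', ha', b', hb', c', hc', e⟩ := h2 _ (G.mul_mem (GP_le hz) hg) h4
    have h5 : z * a * z⁻¹ ∈ τ.U G (-y) :=
      τ.nm_GX_GX (sga_zero y) (sga_pos (-y)) (fun p hp q hq => by
        have h6 : p ⬝ᵥ y = 0 := hp
        have h7 : 0 < q ⬝ᵥ -y := hq
        change 0 < (p + q) ⬝ᵥ -y
        rwa [add_dotProduct, dotProduct_neg, h6, neg_zero, zero_add]) z hz a ha
    have h8 := (τ.cell_unique h5 ha' (mul_mem hz (idc_le _ hb)) (idc_le _ hb') hc hc'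
      (by rw [← e]; group)).2.1
    rw [eq_mul_inv_of_mul_eq h8]
    exact mul_mem hb' (inv_mem hb)
  exact h ▸ cc_idc (τ.closed_GX (sga_zero y) hG.closed)

theorem nm_Z_U (y : τ.X) : Nm (τ.Z G y) (τ.U G y) := by
  refine τ.nm_GX_GX (sga_zero y) (sga_pos y) fun p hp q hq => ?_
  have h6 : p ⬝ᵥ y = 0 := hp
  change 0 < (p + q) ⬝ᵥ y
  rwa [add_dotProduct, h6, zero_add]

theorem subset_of_cell (hG : CC G) (hn : Nm T G) (y : τ.X) {C : Set (Gl n k)}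
    (hC : RelCl (OG k n) (G : Set (Gl n k)) C)
    (h : ∀ a ∈ τ.U G (-y), ∀ b ∈ τ.Z G y, ∀ c ∈ τ.U G y, a * b * c ∈ C) :
    (G : Set (Gl n k)) ⊆ C := by
  obtain ⟨W, hW, h1, h2⟩ := τ.big_cell hG hn y
  refine (hG.irr.subset_or hW.relCl hC fun g hg => ?_).resolve_left h1
  by_cases h3 : g ∈ W
  · exact .inl h3
  · obtain ⟨a, ha, b, hb, c, hc, rfl⟩ := h2 g hg h3
    exact .inr (h a ha b (idc_le _ hb) c hc)

theorem zero_of_cell (hG : CC G) (hn : Nm T G) (y : τ.X) {f : Gl n k → k}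
    (hf : RegOn (OG k n) (G : Set (Gl n k)) f)
    (h : ∀ a ∈ τ.U G (-y), ∀ b ∈ τ.Z G y, ∀ c ∈ τ.U G y, f (a * b * c) = 0) :
    ∀ g ∈ G, f g = 0 := by
  exact τ.subset_of_cell hG hn y hf.relCl h

theorem le_of_cell (hG : CC G) (hn : Nm T G) (y : τ.X) (h1 : τ.U G (-y) ≤ H) (h2 : τ.Z G y ≤ H)
    (h3 : τ.U G y ≤ H) : G ≤ H := by
  obtain ⟨W, hW, h4, h5⟩ := τ.big_cell hG hn y
  have key : ∀ g ∈ G, g ∉ W → g ∈ H := fun g hg h => by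
    obtain ⟨a, ha, b, hb, c, hc, rfl⟩ := h5 g hg h
    exact mul_mem (mul_mem (h1 ha) (h2 (idc_le _ hb))) (h3 hc)
  intro z hz
  obtain ⟨g, hg, h6, h7⟩ := big_two hG hW h4 hz
  exact (H.mul_mem_cancel_right (key g hg h6)).1 (key _ (G.mul_mem hz hg) h7)

theorem cc_sup_U (hG : Closed (OG k n) (G : Set (Gl n k))) (hT : T ≤ G) (y : τ.X) :
    CC (T ⊔ τ.U G y) ∧ Group.IsSolvable (T ⊔ τ.U G y : Subgroup (Gl n k)) := by
  have hn := τ.nm_GX (sga_pos y) (Nm.of_le hT)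
  exact ⟨τ.tor.1.sup (τ.cc_U hG (.of_le hT) y) hn, isSolvable_sup τ.dg.isSolvable
    (isSolvable_of_unip fun g hg => τ.unip_GX (sga_pos y) (by simp) hg) hn⟩

end TD

end Pool.Agent.AG
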