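import Pool.Agent.Lib.AG.Grp2

/-! Tangent vectors as point derivations of the algebra of regular functions. -/

namespace Pool.Agent.AG

open Set

attribute [local instance 100] LieRing.ofAssociativeRing

universe u

set_option linter.unusedSectionVars false

section aux

open MvPolynomial

variable {k : Type u} [Field k] {n : ℕ}

/-- The matrix of the entry functions. -/
private def xe (k : Type u) [Field k] (n : ℕ) : Matrix (Fin n) (Fin n) (OG k n) :=
  fun i j => ⟨_, entry_mem_OG i j⟩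

/-- The matrix of the entry functions of the inverse. -/
private def ye (k : Type u) [Field k] (n : ℕ) : Matrix (Fin n) (Fin n) (OG k n) :=
  fun i j => ⟨_, inv_entry_mem_OG i j⟩

private theorem og_ind {P : OG k n → Prop} (hx : ∀ i j, P (xe k n i j))
    (hy : ∀ i j, P (ye k n i j)) (hc : ∀ c, P (algebraMap k _ c))
    (hadd : ∀ f g, P f → P g → P (f + g)) (hmul : ∀ f g, P f → P g → P (f * g)) (f : OG k n) :
    P f := by
  obtain ⟨f, hf⟩ := f
  induction hf using Algebra.adjoin_induction with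
  | mem f hf =>
    obtain ⟨i, j, rfl | rfl⟩ := hf
    exacts [hx i j, hy i j]
  | algebraMap c => exact hc c
  | add f g hf hg h1 h2 => exact hadd _ _ h1 h2
  | mul f g hf hg h1 h2 => exact hmul _ _ h1 h2

/-- Evaluation at a point. -/
private def evp (g : Gl n k) : OG k n →ₐ[k] k :=
  (Pi.evalAlgHom k (fun _ => k) g).comp (OG k n).val

private theorem evp_apply (g : Gl n k) (f : OG k n) : evp g f = f.1 g := rfl

private theorem og_ext {f f' : OG k n} (h : ∀ g, f.1 g = f'.1 g) : f = f' :=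
  Subtype.ext (funext h)

private theorem mat_ext {x y : Matrix (Fin n) (Fin n) (OG k n)}
    (h : ∀ g, (evp g).mapMatrix x = (evp g).mapMatrix y) : x = y := by
  ext i j g
  exact congrFun (congrFun (h g) i) j

private theorem ev_xe (g : Gl n k) : (evp g).mapMatrix (xe k n) = g.1 := rfl

private theorem ev_ye (g : Gl n k) : (evp g).mapMatrix (ye k n) = g⁻¹.1 := rfl

private theorem xe_mul_ye : xe k n * ye k n = 1 := mat_ext fun g => by
  rw [map_mul, map_one, ev_xe, ev_ye, Units.mul_inv]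

section ring

variable {S : Type*} [CommRing S] [Algebra k S]

private noncomputable def e1 (k : Type u) [Field k] [Algebra k S] (M : Matrix (Fin n) (Fin n) S) :
    MvPolynomial (Fin n × Fin n) k →ₐ[k] S := aeval fun a => M a.1 a.2

private noncomputable def e2 (k : Type u) [Field k] [Algebra k S]
    (M M' : Matrix (Fin n) (Fin n) S) :
    MvPolynomial ((Fin n × Fin n) ⊕ (Fin n × Fin n)) k →ₐ[k] S :=
  aeval (Sum.elim (fun a => M a.1 a.2) fun a => M' a.1 a.2)

private noncomputable def gm (k : Type u) [Field k] (n : ℕ) :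
    Matrix (Fin n) (Fin n) (MvPolynomial (Fin n × Fin n) k) := fun i j => X (i, j)

private theorem e1_gm (M : Matrix (Fin n) (Fin n) S) : (e1 k M).mapMatrix (gm k n) = M := by
  ext i j
  exact aeval_X _ _

private theorem e1_det (M : Matrix (Fin n) (Fin n) S) : e1 k M (gm k n).det = M.det := by
  rw [AlgHom.map_det, e1_gm]

private theorem e1_adj (M : Matrix (Fin n) (Fin n) S) (i j : Fin n) :
    e1 k M ((gm k n).adjugate i j) = M.adjugate i j := by
  have := AlgHom.map_adjugate (e1 k M) (gm k n)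
  rw [e1_gm] at this
  exact congrFun (congrFun this i) j

private theorem det_inv (g : GL (Fin n) S) (i j : Fin n) :
    g.1.det * g⁻¹.1 i j = g.1.adjugate i j := by
  have : g.1.det • g⁻¹.1 = g.1.adjugate := by
    calc g.1.det • g⁻¹.1 = g⁻¹.1 * (g.1.det • (1 : Matrix (Fin n) (Fin n) S)) := by
          rw [Matrix.mul_smul, Matrix.mul_one]
      _ = g.1.adjugate := by
          rw [← Matrix.mul_adjugate, ← Matrix.mul_assoc, Units.inv_mul, Matrix.one_mul]
  exact congrFun (congrFun this i) j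

private def Rel (S : Type*) [CommRing S] [Algebra k S]
    (F : MvPolynomial ((Fin n × Fin n) ⊕ (Fin n × Fin n)) k) (m : ℕ)
    (Q : MvPolynomial (Fin n × Fin n) k) : Prop :=
  ∀ g : GL (Fin n) S, g.1.det ^ m * e2 k g.1 g⁻¹.1 F = e1 k g.1 Q

private theorem rel_C (c : k) : Rel (n := n) S (C c) 0 (C c) := fun g => by
  simp only [e1, e2, aeval_C, pow_zero, one_mul]

private theorem rel_add {F F' : MvPolynomial ((Fin n × Fin n) ⊕ (Fin n × Fin n)) k} {m m' : ℕ}
    {Q Q' : MvPolynomial (Fin n × Fin n) k} (h : Rel S F m Q) (h' : Rel S F' m' Q') :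
    Rel S (F + F') (m + m') ((gm k n).det ^ m' * Q + (gm k n).det ^ m * Q') := fun g => by
  rw [map_add, map_add, map_mul, map_mul, map_pow, map_pow, e1_det, ← h g, ← h' g]
  ring

private theorem rel_l {F : MvPolynomial ((Fin n × Fin n) ⊕ (Fin n × Fin n)) k} {m : ℕ}
    {Q : MvPolynomial (Fin n × Fin n) k} (h : Rel S F m Q) (a : Fin n × Fin n) :
    Rel S (F * X (.inl a)) m (Q * X a) := fun g => by
  rw [map_mul, map_mul, ← h g, mul_assoc]
  simp only [e1, e2, aeval_X, Sum.elim_inl]

private theorem rel_r {F : MvPolynomial ((Fin n × Fin n) ⊕ (Fin n × Fin n)) k} {m : ℕ}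
    {Q : MvPolynomial (Fin n × Fin n) k} (h : Rel S F m Q) (a : Fin n × Fin n) :
    Rel S (F * X (.inr a)) (m + 1) (Q * (gm k n).adjugate a.1 a.2) := fun g => by
  rw [map_mul, map_mul, ← h g, e1_adj, ← det_inv]
  have : e2 k g.1 g⁻¹.1 (X (.inr a)) = g⁻¹.1 a.1 a.2 := by
    simp only [e2, aeval_X, Sum.elim_inr]
  rw [this]
  ring

private theorem exists_rel (S : Type*) [CommRing S] [Algebra k S]
    (F : MvPolynomial ((Fin n × Fin n) ⊕ (Fin n × Fin n)) k) :
    ∃ m Q, Rel k F m Q ∧ Rel S F m Q := by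
  induction F using MvPolynomial.induction_on with
  | C c => exact ⟨0, C c, rel_C c, rel_C c⟩
  | add p q hp hq =>
    obtain ⟨m, Q, h1, h2⟩ := hp
    obtain ⟨m', Q', h1', h2'⟩ := hq
    exact ⟨_, _, rel_add h1 h1', rel_add h2 h2'⟩
  | mul_X p a hp =>
    obtain ⟨m, Q, h1, h2⟩ := hp
    rcases a with a | a
    exacts [⟨_, _, rel_l h1 a, rel_l h2 a⟩, ⟨_, _, rel_r h1 a, rel_r h2 a⟩]

end ring

private theorem e2_apply (F : MvPolynomial ((Fin n × Fin n) ⊕ (Fin n × Fin n)) k) (g : Gl n k) :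
    (e2 k (xe k n) (ye k n) F).1 g = e2 k g.1 g⁻¹.1 F := by
  have : (evp g).comp (e2 k (xe k n) (ye k n)) = e2 k g.1 g⁻¹.1 := by
    refine algHom_ext fun a => ?_
    rcases a with a | a <;> simp only [AlgHom.comp_apply, e2, aeval_X] <;> rfl
  exact congrArg (fun φ => φ F) this

private theorem e1_apply (Q : MvPolynomial (Fin n × Fin n) k) (g : Gl n k) :
    (e1 k (xe k n) Q).1 g = e1 k g.1 Q := by
  have : (evp g).comp (e1 k (xe k n)) = e1 k g.1 := by
    refine algHom_ext fun a => ?_
    simp only [AlgHom.comp_apply, e1, aeval_X]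
    rfl
  exact congrArg (fun φ => φ Q) this

private theorem e1_eval (M : Mt n k) (Q : MvPolynomial (Fin n × Fin n) k) :
    e1 k M Q = eval (fun a => M a.1 a.2) Q := rfl

private theorem e2_surj : Function.Surjective (e2 k (xe k n) (ye k n)) := by
  refine og_ind (fun i j => ⟨X (.inl (i, j)), aeval_X _ _⟩)
    (fun i j => ⟨X (.inr (i, j)), aeval_X _ _⟩) (fun c => ⟨C c, aeval_C _ _⟩) ?_ ?_
  · rintro _ _ ⟨p, rfl⟩ ⟨q, rfl⟩
    exact ⟨p + q, map_add _ _ _⟩
  · rintro _ _ ⟨p, rfl⟩ ⟨q, rfl⟩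
    exact ⟨p * q, map_mul _ _ _⟩

private theorem eq_zero_of_gl [Infinite k] {Q : MvPolynomial (Fin n × Fin n) k}
    (h : ∀ g : Gl n k, e1 k g.1 Q = 0) : Q = 0 := by
  have h1 : Q * (gm k n).det = 0 := by
    refine MvPolynomial.funext fun v => ?_
    have e : ∀ p, eval v p = e1 k (Matrix.of fun i j => v (i, j)) p := fun _ => rfl
    rw [map_zero, e, map_mul, e1_det]
    by_cases hd : (Matrix.of fun i j => v (i, j)).det = 0
    · rw [hd, mul_zero]
    · have := h (Matrix.GeneralLinearGroup.mkOfDetNeZero _ hd)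
      exact mul_eq_zero_of_left this _
  refine (mul_eq_zero.1 h1).resolve_right fun h2 => ?_
  have := e1_det (k := k) (1 : Mt n k)
  rw [h2, map_zero, Matrix.det_one] at this
  exact zero_ne_one this

/-- A power of the determinant times a regular function is a polynomial function. -/
private theorem exists_poly (f : OG k n) : ∃ (h : OG k n) (Q : MvPolynomial (Fin n × Fin n) k),
    h.1 1 = 1 ∧ h * f = e1 k (xe k n) Q := by
  obtain ⟨F, rfl⟩ := e2_surj f
  obtain ⟨m, Q, h, -⟩ := exists_rel k F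
  refine ⟨e1 k (xe k n) ((gm k n).det ^ m), Q, ?_, og_ext fun g => ?_⟩
  · rw [e1_apply, map_pow, e1_det, Units.val_one, Matrix.det_one, one_pow]
  · rw [e1_apply, ← h g, ← e2_apply, ← e1_det (k := k) g.1, ← map_pow, ← e1_apply]
    rfl

/-- Point derivations at the identity. -/
private def PD (d : OG k n →ₗ[k] k) : Prop := ∀ f g, d (f * g) = f.1 1 * d g + g.1 1 * d f

private theorem PD.one {d : OG k n →ₗ[k] k} (h : PD d) : d 1 = 0 := by
  have := h 1 1
  rw [mul_one] at this
  change d 1 = 1 * d 1 + 1 * d 1 at this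
  rw [one_mul] at this
  exact left_eq_add.1 this

private theorem PD.const {d : OG k n →ₗ[k] k} (h : PD d) (c : k) : d (algebraMap k _ c) = 0 := by
  rw [Algebra.algebraMap_eq_smul_one, map_smul, h.one, smul_zero]

private theorem PD.oneM {d : OG k n →ₗ[k] k} (h : PD d) (i j : Fin n) :
    d ((1 : Matrix (Fin n) (Fin n) (OG k n)) i j) = 0 := by
  rw [Matrix.one_apply]
  split_ifs
  exacts [h.one, map_zero d]

private theorem PD.mat {d : OG k n →ₗ[k] k} (h : PD d) {x y : Matrix (Fin n) (Fin n) (OG k n)}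
    (hx : ∀ i j, (x i j).1 1 = (1 : Mt n k) i j) (hy : ∀ i j, (y i j).1 1 = (1 : Mt n k) i j)
    (i j : Fin n) : d ((x * y) i j) = d (x i j) + d (y i j) := by
  rw [Matrix.mul_apply, map_sum]
  simp only [h _ _, hx, hy, Finset.sum_add_distrib, Matrix.one_apply, ite_mul, one_mul, zero_mul,
    Finset.sum_ite_eq, Finset.sum_ite_eq', Finset.mem_univ, if_true]
  exact add_comm _ _

private theorem xe_one (i j : Fin n) : (xe k n i j).1 1 = (1 : Mt n k) i j := rfl

private theorem ye_one (i j : Fin n) : (ye k n i j).1 1 = (1 : Mt n k) i j := by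
  change (1 : Gl n k)⁻¹.1 i j = _
  rw [inv_one]
  rfl

private theorem PD.ye {d : OG k n →ₗ[k] k} (h : PD d) (i j : Fin n) :
    d (ye k n i j) = -d (xe k n i j) := by
  have := h.mat xe_one ye_one i j
  rw [xe_mul_ye, h.oneM] at this
  exact eq_neg_of_add_eq_zero_right this.symm

private theorem PD.ext {d d' : OG k n →ₗ[k] k} (h : PD d) (h' : PD d')
    (e : ∀ i j, d (xe k n i j) = d' (xe k n i j)) : d = d' := by
  refine LinearMap.ext (og_ind e (fun i j => by rw [h.ye, h'.ye, e])
    (fun c => by rw [h.const, h'.const]) (fun f g h1 h2 => by rw [map_add, map_add, h1, h2])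
    fun f g h1 h2 => by rw [h, h', h1, h2])

/-- Pullback of functions along a regular map. -/
private def pull (ψ : Gl n k → Gl n k) (hψ : MapOn (OG k n) univ (OG k n) ψ) :
    OG k n →ₗ[k] OG k n where
  toFun f := ⟨fun g => f.1 (ψ g), (hψ f.1 f.2).mem⟩
  map_add' _ _ := rfl
  map_smul' _ _ := rfl

private theorem PD.pull {d : OG k n →ₗ[k] k} (h : PD d) {ψ : Gl n k → Gl n k}
    (hψ : MapOn (OG k n) univ (OG k n) ψ) (h1 : ψ 1 = 1) : PD (d ∘ₗ pull ψ hψ) := fun f g => by
  have := h (AG.pull ψ hψ f) (AG.pull ψ hψ g)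
  change d _ = f.1 (ψ 1) * _ + g.1 (ψ 1) * _ at this
  rw [h1] at this
  exact this

private theorem mapOn_conj (s : Gl n k) :
    MapOn (OG k n) univ (OG k n) fun g : Gl n k => s * g * s⁻¹ :=
  ((MapOn.const s).mul MapOn.id).mul (MapOn.const _)

private theorem dir_eq (A : Mt n k) (d : MvPolynomial (Fin n × Fin n) k → k)
    (hC : ∀ c, d (C c) = 0) (hadd : ∀ p q, d (p + q) = d p + d q)
    (hmul : ∀ p a, d (p * X a) = e1 k (1 : Mt n k) p * A a.1 a.2 + (1 : Mt n k) a.1 a.2 * d p)
    (Q : MvPolynomial (Fin n × Fin n) k) : d Q = dir A Q := by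
  induction Q using MvPolynomial.induction_on with
  | C c => simp only [hC, dir, pderiv_C, map_zero, mul_zero, Finset.sum_const_zero]
  | add p q hp hq => simp only [hadd, hp, hq, dir, map_add, mul_add, Finset.sum_add_distrib]
  | mul_X p a hp =>
    rw [hmul, hp, e1_eval]
    simp only [dir, pderiv_mul, map_add, map_mul, eval_X, mul_add, Finset.sum_add_distrib,
      Finset.mul_sum]
    rw [add_comm]
    congr 1
    · exact Finset.sum_congr rfl fun b _ => by ring
    · rw [Finset.sum_eq_single a]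
      · rw [pderiv_X_self, map_one, mul_one, mul_comm]
      · intro b _ hb
        rw [pderiv_X_of_ne hb.symm, map_zero, mul_zero, mul_zero]
      · exact fun h => absurd (Finset.mem_univ a) h

private theorem dual_sum (l : Module.Dual k (Mt n k)) (A : Mt n k) :
    l A = ∑ i, ∑ j, l (Matrix.single i j 1) * A i j := by
  conv_lhs => rw [Matrix.matrix_eq_sum_single A]
  simp only [map_sum]
  refine Finset.sum_congr rfl fun i _ => Finset.sum_congr rfl fun j _ => ?_
  rw [mul_comm, ← smul_eq_mul, ← map_smul, Matrix.smul_single, smul_eq_mul, mul_one]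

private theorem PD.dual {d : OG k n →ₗ[k] k} (h : PD d) (l : Module.Dual k (Mt n k)) {f : OG k n}
    (hf : ∀ g : Gl n k, f.1 g = l (g.1 - 1)) : d f = l fun i j => d (xe k n i j) := by
  have e : f = ∑ i, ∑ j, l (Matrix.single i j 1) • xe k n i j - algebraMap k _ (l 1) := by
    refine og_ext fun g => ?_
    rw [hf, map_sub, dual_sum l g.1, ← evp_apply, map_sub, AlgHom.commutes]
    simp only [map_sum, map_smul, smul_eq_mul]
    rfl
  rw [e, map_sub, h.const, sub_zero, dual_sum l fun i j => d (xe k n i j)]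
  simp only [map_sum, map_smul, smul_eq_mul]

private theorem map_oneM {R : Type*} [CommRing R] [Algebra k R] (a b : Fin n) :
    algebraMap k R ((1 : Mt n k) a b) = (1 : Matrix (Fin n) (Fin n) R) a b := by
  rw [Matrix.one_apply, Matrix.one_apply]
  split_ifs
  exacts [map_one _, map_zero _]

private theorem sub_mem_mx (f : OG k n) : f - algebraMap k _ (f.1 1) ∈ mx (OG k n) 1 :=
  mem_mx.2 (sub_self (f.1 1))

/-- First order expansion at the identity. -/
private theorem exists_lin (f : OG k n) : ∃ (l : Module.Dual k (Mt n k)) (y : OG k n),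
    (∀ g : Gl n k, y.1 g = l (g.1 - 1)) ∧
      f - algebraMap k _ (f.1 1) - y ∈ mx (OG k n) 1 ^ 2 := by
  induction f using og_ind with
  | hx i j =>
    exact ⟨Matrix.entryLinearMap k k i j, xe k n i j - algebraMap k _ ((xe k n i j).1 1),
      fun _ => rfl, by rw [sub_self]; exact zero_mem _⟩
  | hy i j =>
    refine ⟨-Matrix.entryLinearMap k k i j, -(xe k n i j - algebraMap k _ ((xe k n i j).1 1)),
      fun _ => rfl, ?_⟩
    have e1 := map_oneM (k := k) (n := n) (R := OG k n)
    have e2 : (xe k n - 1) * (ye k n - 1) = -(ye k n - 1 - -(xe k n - 1)) := by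
      rw [sub_mul, mul_sub, xe_mul_ye, mul_one, one_mul]
      abel
    have e3 : ye k n i j - algebraMap k _ ((ye k n i j).1 1) -
        -(xe k n i j - algebraMap k _ ((xe k n i j).1 1)) = -((xe k n - 1) * (ye k n - 1)) i j := by
      rw [e2, xe_one, ye_one, e1, Matrix.neg_apply, neg_neg]
      rfl
    rw [e3, Matrix.mul_apply, pow_two]
    refine neg_mem (sum_mem fun a _ => Ideal.mul_mem_mul ?_ ?_)
    · have := sub_mem_mx (xe k n i a)
      rwa [xe_one, e1] at this
    · have := sub_mem_mx (ye k n a j)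
      rwa [ye_one, e1] at this
  | hc c =>
    refine ⟨0, 0, fun _ => rfl, ?_⟩
    have : algebraMap k (OG k n) c - algebraMap k _ ((algebraMap k (OG k n) c).1 1) - 0 = 0 := by
      rw [sub_zero]
      exact sub_self _
    rw [this]
    exact zero_mem _
  | hadd f g hf hg =>
    obtain ⟨l, y, h1, h2⟩ := hf
    obtain ⟨l', y', h1', h2'⟩ := hg
    refine ⟨l + l', y + y', fun s => ?_, ?_⟩
    · rw [LinearMap.add_apply, ← h1, ← h1']
      rfl
    · have e : (f + g).1 1 = f.1 1 + g.1 1 := rfl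
      have := add_mem h2 h2'
      rw [e, map_add]
      convert this using 1
      ring
  | hmul f g hf hg =>
    obtain ⟨l, y, h1, h2⟩ := hf
    obtain ⟨l', y', h1', h2'⟩ := hg
    refine ⟨f.1 1 • l' + g.1 1 • l, algebraMap k _ (f.1 1) * y' + algebraMap k _ (g.1 1) * y,
      fun s => ?_, ?_⟩
    · rw [LinearMap.add_apply, LinearMap.smul_apply, LinearMap.smul_apply, ← h1, ← h1']
      rfl
    · have e : (f * g).1 1 = f.1 1 * g.1 1 := rfl
      have h3 : (f - algebraMap k _ (f.1 1)) * (g - algebraMap k _ (g.1 1)) ∈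
          mx (OG k n) 1 ^ 2 := by
        rw [pow_two]
        exact Ideal.mul_mem_mul (sub_mem_mx f) (sub_mem_mx g)
      have := add_mem (add_mem h3 (Ideal.mul_mem_left _ (algebraMap k _ (f.1 1)) h2'))
        (Ideal.mul_mem_left _ (algebraMap k _ (g.1 1)) h2)
      rw [e, map_mul]
      convert this using 1
      ring

/-- The point `1 + e B` for an element `e` of square zero. -/
private def sqPt {R : Type*} [CommRing R] {e : R} (he : e * e = 0) (B : Matrix (Fin n) (Fin n) R) :
    GL (Fin n) R where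
  val := 1 + e • B
  inv := 1 - e • B
  val_inv := by
    rw [add_mul, one_mul, mul_sub, mul_one, smul_mul_smul_comm, he, zero_smul, sub_zero,
      sub_add_cancel]
  inv_val := by
    rw [sub_mul, one_mul, mul_add, mul_one, smul_mul_smul_comm, he, zero_smul, add_zero,
      add_sub_cancel_right]

end aux

variable {k : Type u} [Field k] [Infinite k] {n : ℕ} {G H : Subgroup (Gl n k)}

/-- Points with values in a commutative algebra. -/
theorem exists_evR {R : Type*} [CommRing R] [Algebra k R] (g : GL (Fin n) R) :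
    ∃ φ : OG k n →ₐ[k] R, (∀ i j, φ ⟨_, entry_mem_OG i j⟩ = g.1 i j) ∧
      ∀ i j, φ ⟨_, inv_entry_mem_OG i j⟩ = g⁻¹.1 i j := by
  have H : RingHom.ker (e2 k (xe k n) (ye k n)).toRingHom ≤
      RingHom.ker (e2 k g.1 g⁻¹.1).toRingHom := by
    intro F hF
    have hF' : e2 k (xe k n) (ye k n) F = 0 := hF
    obtain ⟨m, Q, h1, h2⟩ := exists_rel R F
    have hQ : Q = 0 := eq_zero_of_gl fun s => by
      rw [← h1 s, ← e2_apply, hF']
      exact mul_zero _
    have h3 := h2 g
    rw [hQ, map_zero] at h3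
    exact (((Matrix.isUnits_det_units g).pow m).mul_right_eq_zero).1 h3
  refine ⟨AlgHom.liftOfSurjective _ e2_surj _ H, fun i j => ?_, fun i j => ?_⟩
  · have := AlgHom.liftOfSurjective_apply _ e2_surj _ H (MvPolynomial.X (.inl (i, j)))
    simp only [e2, MvPolynomial.aeval_X] at this
    exact this
  · have := AlgHom.liftOfSurjective_apply _ e2_surj _ H (MvPolynomial.X (.inr (i, j)))
    simp only [e2, MvPolynomial.aeval_X] at this
    exact this

private theorem exists_sq {R : Type*} [CommRing R] [Algebra k R] {e : R} (he : e * e = 0)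
    (A : Mt n k) : ∃ φ : OG k n →ₐ[k] R,
      (∀ i j, φ (xe k n i j) = algebraMap k R ((1 : Mt n k) i j) + e * algebraMap k R (A i j)) ∧
      ∀ i j, φ (ye k n i j) = algebraMap k R ((1 : Mt n k) i j) - e * algebraMap k R (A i j) := by
  obtain ⟨φ, h1, h2⟩ := exists_evR (k := k) (sqPt he (A.map (algebraMap k R)))
  refine ⟨φ, fun i j => ?_, fun i j => ?_⟩
  · rw [map_oneM]
    exact h1 i j
  · rw [map_oneM]
    exact h2 i j

private theorem exists_pd (A : Mt n k) :
    ∃ d : OG k n →ₗ[k] k, PD d ∧ ∀ i j, d (xe k n i j) = A i j := by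
  obtain ⟨φ, h1, h2⟩ := exists_sq (R := DualNumber k) DualNumber.eps_mul_eps A
  have h3 : ∀ f, (φ f).fst = f.1 1 := by
    refine og_ind (fun i j => ?_) (fun i j => ?_) (fun c => ?_) (fun f g hf hg => ?_)
      fun f g hf hg => ?_
    · rw [xe_one, h1, TrivSqZeroExt.fst_add, TrivSqZeroExt.fst_mul, DualNumber.fst_eps, zero_mul,
        add_zero]
      rfl
    · rw [ye_one, h2, TrivSqZeroExt.fst_sub, TrivSqZeroExt.fst_mul, DualNumber.fst_eps, zero_mul,
        sub_zero]
      rfl
    · rw [AlgHom.commutes]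
      rfl
    · rw [map_add, TrivSqZeroExt.fst_add, hf, hg]
      rfl
    · rw [map_mul, TrivSqZeroExt.fst_mul, hf, hg]
      rfl
  refine ⟨TrivSqZeroExt.sndHom k k ∘ₗ φ.toLinearMap, fun f g => ?_, fun i j => ?_⟩
  · change (φ (f * g)).snd = f.1 1 * (φ g).snd + g.1 1 * (φ f).snd
    rw [map_mul, DualNumber.snd_mul, h3, h3, mul_comm (φ f).snd]
  · change (φ (xe k n i j)).snd = _
    rw [h1, TrivSqZeroExt.snd_add, DualNumber.snd_mul, DualNumber.fst_eps, DualNumber.snd_eps,
      zero_mul, zero_add, one_mul]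
    exact zero_add _

theorem exists_der : ∃ δ : Mt n k →ₗ[k] (OG k n →ₗ[k] k),
    (∀ A f g, δ A (f * g) = f.1 1 * δ A g + g.1 1 * δ A f) ∧
    (∀ A i j, δ A ⟨_, entry_mem_OG i j⟩ = A i j) ∧
      ∀ A i j, δ A ⟨_, inv_entry_mem_OG i j⟩ = -A i j := by
  choose d h1 h2 using exists_pd (k := k) (n := n)
  refine ⟨⟨⟨d, fun A B => ?_⟩, fun c A => ?_⟩, h1, h2, fun A i j => ?_⟩
  · refine (h1 _).ext (fun f g => ?_) fun i j => ?_
    · simp only [LinearMap.add_apply, h1 A f g, h1 B f g]
      ring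
    · rw [LinearMap.add_apply, h2, h2, h2, Matrix.add_apply]
  · refine (h1 _).ext (fun f g => ?_) fun i j => ?_
    · simp only [LinearMap.smul_apply, h1 A f g, smul_eq_mul]
      ring
    · rw [LinearMap.smul_apply, h2, h2, Matrix.smul_apply]
      rfl
  · exact ((h1 A).ye i j).trans (by rw [h2])

/-- The derivative at the identity in the direction of a matrix. -/
noncomputable def der : Mt n k →ₗ[k] (OG k n →ₗ[k] k) := exists_der.choose

theorem der_mul (A : Mt n k) (f g : OG k n) :
    der A (f * g) = f.1 1 * der A g + g.1 1 * der A f := exists_der.choose_spec.1 A f g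

theorem der_entry (A : Mt n k) (i j : Fin n) : der A ⟨_, entry_mem_OG i j⟩ = A i j :=
  exists_der.choose_spec.2.1 A i j

theorem der_inv_entry (A : Mt n k) (i j : Fin n) : der A ⟨_, inv_entry_mem_OG i j⟩ = -A i j :=
  exists_der.choose_spec.2.2 A i j

private theorem pd_der (A : Mt n k) : PD (der A) := der_mul A

private theorem der_xe (A : Mt n k) (i j : Fin n) : der A (xe k n i j) = A i j := der_entry A i j

theorem der_algebraMap (A : Mt n k) (c : k) : der A (algebraMap k (OG k n) c) = 0 :=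
  (pd_der A).const c

theorem der_of_mem_sq (A : Mt n k) {f : OG k n} (hf : f ∈ mx (OG k n) 1 ^ 2) : der A f = 0 := by
  rw [pow_two] at hf
  refine Submodule.mul_induction_on hf (fun a ha b hb => ?_) fun a b ha hb => ?_
  · rw [der_mul, mem_mx.1 ha, mem_mx.1 hb, zero_mul, zero_mul, add_zero]
  · rw [map_add, ha, hb, add_zero]

theorem der_dual (A : Mt n k) (l : Module.Dual k (Mt n k)) {f : OG k n}
    (hf : ∀ g : Gl n k, f.1 g = l (g.1 - 1)) : der A f = l A := by
  rw [(pd_der A).dual l hf]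
  congr 1
  ext i j
  exact der_xe A i j

theorem exists_dual_fun (l : Module.Dual k (Mt n k)) :
    ∃ f : OG k n, ∀ g : Gl n k, f.1 g = l (g.1 - 1) :=
  ⟨⟨_, (((MapOn.id (O := OG k n) (S := univ)).val.dual l).sub (.const (l 1))).mem⟩,
    fun g => (map_sub l g.1 1).symm⟩

private theorem der_e1 (A : Mt n k) (Q : MvPolynomial (Fin n × Fin n) k) :
    der A (e1 k (xe k n) Q) = dir A Q := by
  refine dir_eq A (fun Q => der A (e1 k (xe k n) Q)) (fun c => ?_) (fun p q => ?_)
    (fun p a => ?_) Q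
  · rw [e1, MvPolynomial.aeval_C, der_algebraMap]
  · rw [map_add, map_add]
  · have : e1 k (xe k n) (MvPolynomial.X a) = xe k n a.1 a.2 := MvPolynomial.aeval_X _ _
    rw [map_mul, der_mul, this, der_xe, e1_apply, xe_one, Units.val_one]

theorem mem_lie_iff {A : Mt n k} :
    A ∈ lie G ↔ ∀ f ∈ van (OG k n) (G : Set (Gl n k)), der A f = 0 := by
  constructor
  · intro hA f hf
    obtain ⟨h, Q, h1, h2⟩ := exists_poly f
    have h3 : dir A Q = 0 := hA Q fun g hg => by
      rw [← e1_eval, ← e1_apply, ← h2]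
      exact (Ideal.mul_mem_left _ h hf) g hg
    rwa [← der_e1, ← h2, der_mul, h1, one_mul, hf 1 G.one_mem, zero_mul, add_zero] at h3
  · intro h Q hQ
    rw [← der_e1]
    exact h _ fun g hg => (e1_apply Q g).trans (hQ g hg)

/-- Duality between the tangent and the cotangent space. -/
theorem mem_sq_of_der {f : OG k n} (h1 : f.1 1 = 0) (h : ∀ A ∈ lie G, der A f = 0) :
    f ∈ mx (OG k n) 1 ^ 2 ⊔ van (OG k n) (G : Set (Gl n k)) := by
  let W : Submodule k (Module.Dual k (Mt n k)) :=
    ((van (OG k n) (G : Set (Gl n k))).restrictScalars k).map (der (k := k) (n := n)).flip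
  have hW : (der (k := k) (n := n)).flip f ∈ W := by
    rw [← Subspace.dualCoannihilator_dualAnnihilator_eq (W := W), Submodule.mem_dualAnnihilator]
    intro A hA
    refine h A (mem_lie_iff.2 fun f' hf' => ?_)
    exact (Submodule.mem_dualCoannihilator A).1 hA _ ⟨f', hf', rfl⟩
  obtain ⟨f', hf', e⟩ := hW
  have hf'' : f' ∈ van (OG k n) (G : Set (Gl n k)) := hf'
  obtain ⟨l, y, hy, hm⟩ := exists_lin (f - f')
  have h2 : (f - f').1 1 = 0 := by
    change f.1 1 - f'.1 1 = 0
    rw [h1, hf'' 1 G.one_mem, sub_zero]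
  rw [h2, map_zero, sub_zero] at hm
  have h3 : y = 0 := og_ext fun g => by
    have e1 := der_of_mem_sq (g.1 - 1) hm
    have e2 : der (g.1 - 1) f' = der (g.1 - 1) f := congrArg (fun φ => φ (g.1 - 1)) e
    rw [map_sub, map_sub, e2, sub_self, zero_sub, neg_eq_zero, der_dual _ l hy] at e1
    rw [hy, e1]
    rfl
  rw [h3, sub_zero] at hm
  rw [← sub_add_cancel f f']
  exact Submodule.add_mem_sup hm hf''

private theorem der_conj_xe (A : Mt n k) (s : Gl n k) (i j : Fin n) :
    der A (pull _ (mapOn_conj s) (xe k n i j)) = Ad s A i j := by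
  have := der_dual A (Matrix.entryLinearMap k k i j ∘ₗ Ad s)
    (f := pull _ (mapOn_conj s) (xe k n i j) - algebraMap k _ ((1 : Mt n k) i j)) fun g => by
      change (s * g * s⁻¹).1 i j - (1 : Mt n k) i j = Ad s (g.1 - 1) i j
      rw [Ad_apply, mul_sub, sub_mul, mul_one, Units.mul_inv, Units.val_mul, Units.val_mul]
      rfl
  rwa [map_sub, der_algebraMap, sub_zero] at this

theorem der_conj (A : Mt n k) (s : Gl n k) {f F : OG k n}
    (h : ∀ g : Gl n k, F.1 g = f.1 (s * g * s⁻¹)) : der A F = der (Ad s A) f := by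
  have e : F = pull _ (mapOn_conj s) f := og_ext h
  have := ((pd_der A).pull (mapOn_conj s) (by rw [mul_one, mul_inv_cancel])).ext
    (pd_der (Ad s A)) fun i j => (der_conj_xe A s i j).trans (der_xe _ i j).symm
  rw [e, ← this]
  rfl

theorem der_comm (A : Mt n k) (s : Gl n k) {f F : OG k n}
    (h : ∀ g : Gl n k, F.1 g = f.1 (g * s * g⁻¹ * s⁻¹)) : der A F = der (A - Ad s A) f := by
  have hψ : MapOn (OG k n) univ (OG k n) fun g : Gl n k => g * s * g⁻¹ * s⁻¹ :=
    ((MapOn.id.mul (MapOn.const s)).mul MapOn.id.inv).mul (MapOn.const _)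
  have e : F = pull _ hψ f := og_ext h
  have h1 : s * 1 * s⁻¹ = 1 := by rw [mul_one, mul_inv_cancel]
  have := ((pd_der A).pull hψ (by rw [one_mul, inv_one, mul_one, mul_inv_cancel])).ext
    (pd_der (A - Ad s A)) fun i j => by
      have e1 : (fun a b => pull _ hψ (xe k n a b)) =
          xe k n * (Matrix.of fun a b => pull _ (mapOn_conj s) (ye k n a b)) := mat_ext fun g => by
        rw [map_mul, ev_xe]
        change (g * s * g⁻¹ * s⁻¹).1 = g.1 * (s * g * s⁻¹)⁻¹.1
        rw [← Units.val_mul]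
        congr 1
        group
      have e2 := (pd_der A).mat (x := xe k n)
        (y := Matrix.of fun a b => pull _ (mapOn_conj s) (ye k n a b)) xe_one (fun a b => by
          change (s * 1 * s⁻¹)⁻¹.1 a b = _
          rw [h1, inv_one]
          rfl) i j
      have e3 := ((pd_der A).pull (mapOn_conj s) h1).ye i j
      rw [LinearMap.comp_apply, LinearMap.comp_apply, der_conj_xe] at e3
      rw [← e1, Matrix.of_apply, e3, der_xe] at e2
      rw [der_xe, Matrix.sub_apply, sub_eq_add_neg]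
      exact e2
  rw [e, ← this]
  rfl

omit [Infinite k] in
theorem lie_mono (h : H ≤ G) : lie H ≤ lie G :=
  fun _ hA f hf => hA f fun g hg => hf g (h hg)

theorem lie_idc (hG : Closed (OG k n) (G : Set (Gl n k))) : lie (idc G) = lie G := by
  refine le_antisymm (lie_mono (idc_le G)) fun A hA => mem_lie_iff.2 fun f hf => ?_
  obtain ⟨h1, -, h2⟩ := idc_spec hG
  have : ((idc G).subgroupOf G).FiniteIndex := ⟨h2⟩
  have hc : Closed (OG k n) (⋃ q ∈ {q : G ⧸ (idc G).subgroupOf G | q.out.1 ∉ idc G},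
      univ ∩ (fun x => q.out.1⁻¹ * x) ⁻¹' (idc G : Set (Gl n k))) :=
    closed_biUnion (toFinite _) fun q _ =>
      ((MapOn.const _).mul MapOn.id).closed closed_univ h1
  have h3 : (1 : Gl n k) ∉ clo (OG k n) (⋃ q ∈ {q : G ⧸ (idc G).subgroupOf G | q.out.1 ∉ idc G},
      univ ∩ (fun x => q.out.1⁻¹ * x) ⁻¹' (idc G : Set (Gl n k))) := fun e => by
    obtain ⟨q, hq, -, h4⟩ := mem_iUnion₂.1 (hc e)
    rw [mem_preimage, mul_one, SetLike.mem_coe, inv_mem_iff] at h4
    exact hq h4
  simp only [clo, mem_ofPred_eq, not_forall] at h3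
  obtain ⟨h, hh, h4, h5⟩ := h3
  have h6 : (⟨h, hh⟩ * f : OG k n) ∈ van (OG k n) (G : Set (Gl n k)) := fun g hg => by
    change h g * f.1 g = 0
    by_cases e : g ∈ idc G
    · rw [hf g e, mul_zero]
    · have e1 : ((QuotientGroup.mk ⟨g, hg⟩ : G ⧸ (idc G).subgroupOf G).out.1)⁻¹ * g ∈ idc G :=
        (QuotientGroup.eq (s := (idc G).subgroupOf G)).1 (QuotientGroup.out_eq'
          (QuotientGroup.mk ⟨g, hg⟩ : G ⧸ (idc G).subgroupOf G))
      rw [h4 g (mem_iUnion₂.2 ⟨QuotientGroup.mk ⟨g, hg⟩, fun e2 => e ?_, trivial, e1⟩), zero_mul]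
      simpa using (idc G).mul_mem e2 e1
  have h7 := mem_lie_iff.1 hA _ h6
  rw [der_mul, hf 1 (idc G).one_mem, zero_mul, add_zero] at h7
  exact (mul_eq_zero.1 h7).resolve_left h5

theorem mem_lie_cj {g : Gl n k} {A : Mt n k} (h : A ∈ lie G) : Ad g A ∈ lie (cj g G) := by
  refine mem_lie_iff.2 fun f hf => ?_
  rw [← der_conj A g (F := pull _ (mapOn_conj g) f) fun _ => rfl]
  exact mem_lie_iff.1 h _ fun x hx => hf _ ⟨x, hx, rfl⟩

theorem Nm.stab_lie {D : Subgroup (Gl n k)} (h : Nm D G) : Stab D Ad (lie G).toSubmodule := by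
  intro t ht A hA
  refine lie_mono (H := cj t G) ?_ (mem_lie_cj hA)
  rintro _ ⟨x, hx, rfl⟩
  exact h t ht x hx

private theorem mem_of_mem_lie' {W : Submodule k (Mt n k)} (h : ∀ g ∈ G, g.1 - 1 ∈ W) {A : Mt n k}
    (hA : A ∈ lie G) : A ∈ W := by
  rw [← Subspace.forall_mem_dualAnnihilator_apply_eq_zero_iff]
  intro l hl
  obtain ⟨f, hf⟩ := exists_dual_fun l
  rw [← der_dual A l hf]
  exact mem_lie_iff.1 hA f fun g hg =>
    (hf g).trans ((Submodule.mem_dualAnnihilator l).1 hl _ (h g hg))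

theorem lie_bot : lie (⊥ : Subgroup (Gl n k)) = ⊥ := by
  refine eq_bot_iff.2 fun A hA => ?_
  refine mem_of_mem_lie' (W := ⊥) (fun g hg => ?_) hA
  rw [Subgroup.mem_bot.1 hg, Units.val_one, sub_self]
  exact zero_mem _

theorem mem_of_mem_lie {W : Submodule k (Mt n k)} (h : ∀ g ∈ G, g.1 - 1 ∈ W) {A : Mt n k}
    (hA : A ∈ lie G) : A ∈ W := mem_of_mem_lie' h hA

/-- The tangent vector of a polynomial curve. -/
theorem mem_lie_of_curve {N : ℕ} (hN : 2 ≤ N) {E : ℕ → Mt n k} (h0 : E 0 = 1) {s : Set k}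
    (hs : s.Infinite) (h : ∀ c ∈ s, ∃ g ∈ G, g.1 = ∑ j ∈ Finset.range N, c ^ j • E j) :
    E 1 ∈ lie G := by
  intro Q hQ
  let M : Matrix (Fin n) (Fin n) (Polynomial k) :=
    fun a b => ∑ j ∈ Finset.range N, Polynomial.monomial j (E j a b)
  have hM : ∀ a b j, j < N → (M a b).coeff j = E j a b := fun a b j hj => by
    simp only [M, Polynomial.finsetSum_coeff, Polynomial.coeff_monomial, Finset.sum_ite_eq',
      Finset.mem_range, hj, if_true]
  have hX : ∀ a : Fin n × Fin n, e1 k M (MvPolynomial.X a) = M a.1 a.2 := fun a =>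
    MvPolynomial.aeval_X _ _
  have hev : ∀ (c : k) p, (e1 k M p).eval c = e1 k (∑ j ∈ Finset.range N, c ^ j • E j) p := by
    intro c p
    have : (Polynomial.aeval c).comp (e1 k M) = e1 k (∑ j ∈ Finset.range N, c ^ j • E j) := by
      refine MvPolynomial.algHom_ext fun a => ?_
      rw [AlgHom.comp_apply, hX, e1, MvPolynomial.aeval_X, Matrix.sum_apply, map_sum]
      refine Finset.sum_congr rfl fun j _ => ?_
      rw [Polynomial.aeval_monomial, Matrix.smul_apply, smul_eq_mul, mul_comm]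
      rfl
    rw [← this, AlgHom.comp_apply, Polynomial.coe_aeval_eq_eval]
  have h1 : e1 k M Q = 0 := Polynomial.eq_zero_of_infinite_isRoot _ (hs.mono fun c hc => by
    obtain ⟨g, hg, e⟩ := h c hc
    change (e1 k M Q).eval c = 0
    rw [hev, ← e]
    exact hQ g hg)
  have h2 : ∀ p, (e1 k M p).coeff 0 = e1 k (1 : Mt n k) p := fun p => by
    rw [Polynomial.coeff_zero_eq_eval_zero, hev, Finset.sum_eq_single 0, pow_zero, one_smul, h0]
    · intro j _ hj
      rw [zero_pow hj, zero_smul]
    · exact fun e => absurd (Finset.mem_range.2 (by omega)) e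
  rw [← dir_eq (E 1) (fun p => (e1 k M p).coeff 1) (fun c => ?_) (fun p q => ?_) (fun p a => ?_) Q,
    h1, Polynomial.coeff_zero]
  · rw [e1, MvPolynomial.aeval_C, Polynomial.algebraMap_apply, Polynomial.coeff_C_succ]
  · rw [map_add, Polynomial.coeff_add]
  · rw [map_mul, Polynomial.mul_coeff_one, h2, hX, hM _ _ 1 (by omega), hM _ _ 0 (by omega), h0,
      mul_comm ((e1 k M p).coeff 1)]

end Pool.Agent.AG
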