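import Pool.Agent.Lib.AG.SM
import Pool.Agent.Lib.AG.Tan

/-! A map with surjective differential is dominant. -/

namespace Pool.Agent.AG

open Set

attribute [local instance 100] LieRing.ofAssociativeRing

universe u

variable {k : Type u} [Field k] [IsAlgClosed k] {n : ℕ} {G H : Subgroup (Gl n k)}

omit [IsAlgClosed k] in
private theorem dom_pull {X Y : Type u} {O : FA k X} {O' : FA k Y} {S : Set X} {W : Set Y}
    {x₀ : X} {y₀ : Y} {φ : X → Y} (hφ : MapOn O S O' φ) (hm : MapsTo φ S W) (hx : x₀ ∈ S)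
    (hy : φ x₀ = y₀) {N : ℕ} {f : O'} (hf : f ∈ mx O' y₀ ^ N ⊔ van O' W) {F : O}
    (e : ∀ s ∈ S, F.1 s = f.1 (φ s)) : F ∈ mx O x₀ ^ N ⊔ van O S := by
  have key : ∀ (N : ℕ) (f : O'), f ∈ mx O' y₀ ^ N →
      ∃ F ∈ mx O x₀ ^ N, ∀ s ∈ S, F.1 s = f.1 (φ s) := by
    intro N
    induction N with
    | zero =>
      intro f _
      obtain ⟨F, hF, e⟩ := hφ f.1 f.2
      exact ⟨⟨F, hF⟩, by simp, e⟩
    | succ N ih =>
      intro f hf
      rw [pow_succ] at hf ⊢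
      refine Submodule.mul_induction_on hf (fun a ha b hb => ?_) ?_
      · obtain ⟨A, hA, eA⟩ := ih a ha
        obtain ⟨B, hB, eB⟩ := hφ b.1 b.2
        refine ⟨A * ⟨B, hB⟩, Ideal.mul_mem_mul hA (mem_mx.2 ((eB _ hx).trans ?_)), fun s hs => ?_⟩
        · exact (congrArg b.1 hy).trans (mem_mx.1 hb)
        · change A.1 s * B s = a.1 _ * b.1 _
          rw [eA s hs, eB s hs]
      · rintro a b ⟨A, hA, eA⟩ ⟨B, hB, eB⟩
        refine ⟨A + B, add_mem hA hB, fun s hs => ?_⟩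
        change A.1 s + B.1 s = a.1 _ + b.1 _
        rw [eA s hs, eB s hs]
  obtain ⟨a, ha, b, hb, rfl⟩ := Submodule.mem_sup.1 hf
  obtain ⟨A, hA, eA⟩ := key N a ha
  refine Submodule.mem_sup.2 ⟨A, hA, F - A, fun s hs => ?_, add_sub_cancel _ _⟩
  change F.1 s - A.1 s = 0
  rw [e s hs, eA s hs]
  change a.1 _ + b.1 _ - _ = 0
  rw [hb _ (hm hs), add_zero, sub_self]

omit [IsAlgClosed k] in
private theorem dom_aeval {X : Type u} {O : FA k X} {I : Type} (y : I → O)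
    (F : MvPolynomial I k) (x : X) :
    (MvPolynomial.aeval y F).1 x = MvPolynomial.aeval (fun a => (y a).1 x) F :=
  MvPolynomial.comp_aeval_apply y ((Pi.evalAlgHom k (fun _ : X => k) x).comp O.val) F

theorem dom {X Y : Type u} {O : FA k X} {O' : FA k Y} (h : Aff O) (h' : Aff O') {S : Set X}
    {W : Set Y} {x₀ : X} {φ : X → Y} (hS : Closed O S) (hh : Homog O S x₀) (hW : Irr O' W)
    (hφ : MapOn O S O' φ) (hm : MapsTo φ S W)
    (hd : ∀ f ∈ mx O' (φ x₀), ∀ F ∈ mx O x₀ ^ 2 ⊔ van O S, (∀ s ∈ S, F.1 s = f.1 (φ s)) →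
      f ∈ mx O' (φ x₀) ^ 2 ⊔ van O' W) : W ⊆ clo O' (φ '' S) := by
  obtain ⟨m, z, z0, zli, zsp⟩ := exists_cotangent_basis h' W (φ x₀)
  choose Z₀ hZ eZ using fun a => hφ (z a).1 (z a).2
  let Z : Fin m → O := fun a => ⟨Z₀ a, hZ a⟩
  have Z0 : ∀ a, (Z a).1 x₀ = 0 := fun a => (eZ a _ hh.1).trans (z0 a)
  have Zli : ∀ c : Fin m → k, ∑ a, c a • Z a ∈ mx O x₀ ^ 2 ⊔ van O S → c = 0 := fun c hc =>
    zli c (hd _ (Submodule.sum_mem _ fun a _ => Submodule.smul_of_tower_mem _ _ (mem_mx.2 (z0 a)))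
      _ hc fun s hs => by simp [Z, eZ _ s hs])
  intro w hw f hf h0
  have key : ∀ N, (⟨f, hf⟩ : O') ∈ mx O' (φ x₀) ^ N ⊔ van O' W := fun N => by
    obtain ⟨F, hF⟩ := approx z0 zsp ⟨f, hf⟩ N
    have h1 := dom_pull hφ hm hh.1 rfl hF (F := -MvPolynomial.aeval Z F) fun s hs => by
      change -(MvPolynomial.aeval Z F).1 s = f (φ s) - (MvPolynomial.aeval z F).1 (φ s)
      rw [h0 _ ⟨s, hs, rfl⟩, zero_sub, dom_aeval, dom_aeval]
      simp only [Z, eZ _ s hs]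
    have h2 := Ideal.mem_map_of_mem (MvPolynomial.aeval z)
      ((MvPolynomial.mem_pow_idealOfVars_iff' N F).2 fun d hd =>
        sm h hS hh Z0 Zli (neg_mem_iff.1 h1) hd)
    rw [Ideal.map_pow] at h2
    refine (Submodule.sub_mem_iff_left _ (Submodule.mem_sup_left
      (Ideal.pow_right_mono ?_ N h2))).1 hF
    rw [Ideal.map_span, Ideal.span_le]
    rintro _ ⟨_, ⟨a, rfl⟩, rfl⟩
    rw [MvPolynomial.aeval_X]
    exact mem_mx.2 (z0 a)
  have := h'.noeth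
  have hne : mx O' (φ x₀) ≠ ⊤ := (Ideal.ne_top_iff_one _).2 fun e => one_ne_zero (mem_mx.1 e)
  have hle : van O' W ≤ mx O' (φ x₀) := van_anti (singleton_subset_iff.2 (hm hh.1))
  have : (van O' W).IsPrime := ⟨ne_top_of_le_ne_top hne hle,
    fun {a b} hab => hW.2 a.1 a.2 b.1 b.2 hab⟩
  have h3 := Ideal.iInf_pow_eq_bot_of_isDomain
    ((mx O' (φ x₀)).map (Ideal.Quotient.mk (van O' W))) ((Ideal.ne_top_iff_one _).2 fun e =>
      (Ideal.ne_top_iff_one _).1 hne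
        (sup_le le_rfl hle (Ideal.mem_quotient_iff_mem_sup.1 e)))
  have h4 : Ideal.Quotient.mk (van O' W) ⟨f, hf⟩ ∈ (⊥ : Ideal _) :=
    h3 ▸ Ideal.mem_iInf.2 fun N => by
      rw [← Ideal.map_pow]
      exact Ideal.mem_quotient_iff_mem_sup.2 (key N)
  exact Ideal.Quotient.eq_zero_iff_mem.1 h4 w hw

private theorem dom_der {A : Mt n k} (hA : A ∈ lie H) {f : OG k n}
    (hf : f ∈ mx (OG k n) 1 ^ 2 ⊔ van (OG k n) (H : Set (Gl n k))) : der A f = 0 := by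
  obtain ⟨a, ha, b, hb, rfl⟩ := Submodule.mem_sup.1 hf
  rw [map_add, der_of_mem_sq A ha, mem_lie_iff.1 hA b hb, add_zero]

theorem dom3 (hG : CC G) {H₁ H₂ H₃ : Subgroup (Gl n k)}
    (c₁ : Closed (OG k n) (H₁ : Set (Gl n k))) (c₂ : Closed (OG k n) (H₂ : Set (Gl n k)))
    (c₃ : Closed (OG k n) (H₃ : Set (Gl n k))) (l₁ : H₁ ≤ G) (l₂ : H₂ ≤ G) (l₃ : H₃ ≤ G)
    (h : ∀ A ∈ lie G, ∃ A₁ ∈ lie H₁, ∃ A₂ ∈ lie H₂, ∃ A₃ ∈ lie H₃, A = A₁ + A₂ + A₃) :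
    ∃ W, Closed (OG k n) W ∧ ¬ (G : Set (Gl n k)) ⊆ W ∧
      ∀ g ∈ G, g ∉ W → ∃ a ∈ H₁, ∃ b ∈ H₂, ∃ c ∈ H₃, g = a * b * c := by
  have h0 : Aff (OG k n) := aff_OG
  have hA := (h0.prod h0).prod h0
  have hS := (c₁.prod c₂).prod c₃
  have hφ : MapOn (prd (prd (OG k n) (OG k n)) (OG k n))
      (((H₁ : Set (Gl n k)) ×ˢ (H₂ : Set (Gl n k))) ×ˢ (H₃ : Set (Gl n k))) (OG k n)
      fun x => x.1.1 * x.1.2 * x.2 :=
    ((MapOn.fst.comp' MapOn.fst).mul (MapOn.snd.comp' MapOn.fst)).mul MapOn.snd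
  have hm : MapsTo (fun x : (Gl n k × Gl n k) × Gl n k => x.1.1 * x.1.2 * x.2)
      (((H₁ : Set (Gl n k)) ×ˢ (H₂ : Set (Gl n k))) ×ˢ (H₃ : Set (Gl n k))) G :=
    fun x hx => G.mul_mem (G.mul_mem (l₁ hx.1.1) (l₂ hx.1.2)) (l₃ hx.2)
  have h1 := dom hA aff_OG hS
    (((homog_subgroup H₁).prod (homog_subgroup H₂)).prod (homog_subgroup H₃)) hG.irr hφ hm
    fun f hf F hF e => by
      simp only [mul_one] at hf ⊢
      refine mem_sq_of_der (mem_mx.1 hf) fun A hA => ?_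
      obtain ⟨A₁, a₁, A₂, a₂, A₃, a₃, rfl⟩ := h A hA
      rw [map_add, map_add, LinearMap.add_apply, LinearMap.add_apply,
        dom_der a₁ (dom_pull ((MapOn.id.prodMk (.const 1)).prodMk (.const 1))
          (fun s hs => mk_mem_prod (mk_mem_prod hs H₂.one_mem) H₃.one_mem) H₁.one_mem rfl hF fun s hs => by
            simpa using (e ((s, 1), 1) ⟨⟨hs, H₂.one_mem⟩, H₃.one_mem⟩).symm),
        dom_der a₂ (dom_pull (((MapOn.const 1).prodMk .id).prodMk (.const 1))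
          (fun s hs => mk_mem_prod (mk_mem_prod H₁.one_mem hs) H₃.one_mem) H₂.one_mem rfl hF fun s hs => by
            simpa using (e ((1, s), 1) ⟨⟨H₁.one_mem, hs⟩, H₃.one_mem⟩).symm),
        dom_der a₃ (dom_pull ((MapOn.const (1, 1)).prodMk .id)
          (fun s hs => mk_mem_prod (mk_mem_prod H₁.one_mem H₂.one_mem) hs) H₃.one_mem rfl hF fun s hs => by
            simpa using (e ((1, 1), s) ⟨⟨H₁.one_mem, H₂.one_mem⟩, hs⟩).symm), add_zero, add_zero]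
  obtain ⟨W, hW, h2, h3⟩ := chev hA aff_OG hS hφ
  refine ⟨W, hW, fun h4 => ?_, fun g hg hgW => ?_⟩
  · rw [sdiff_eq_empty.2 ((clo_min hm.image_subset hG.closed).trans h4)] at h3
    exact closed_empty (h3 (h1 G.one_mem))
  · obtain ⟨x, hx, rfl⟩ := h2 ⟨h1 hg, hgW⟩
    exact ⟨_, hx.1.1, _, hx.1.2, _, hx.2, rfl⟩

theorem domC (hH : CC H) {C : Subgroup (Gl n k)} (hC : Closed (OG k n) (C : Set (Gl n k)))
    (hCH : C ≤ H) {s : Gl n k} (hs : s ∈ H) (hc : ∀ c ∈ C, s * c = c * s)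
    (h : ∀ A ∈ lie H, ∃ A₁ ∈ lie H, ∃ A₂ ∈ lie C, A = A₁ - Ad s A₁ + A₂) :
    (H : Set (Gl n k)) ⊆ clo (OG k n) {g | ∃ h ∈ H, ∃ c ∈ C, g = h * (s * c) * h⁻¹} := by
  have h1 := dom (φ := fun x : Gl n k × Gl n k => x.1 * (s * x.2) * x.1⁻¹ * s⁻¹)
    (aff_OG.prod aff_OG) aff_OG (hH.closed.prod hC)
    ((homog_subgroup H).prod (homog_subgroup C)) hH.irr
    (((MapOn.fst.mul ((MapOn.const s).mul .snd)).mul MapOn.fst.inv).mul (.const _))
    (fun x hx => H.mul_mem (H.mul_mem (H.mul_mem hx.1 (H.mul_mem hs (hCH hx.2))) (H.inv_mem hx.1))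
      (H.inv_mem hs))
    fun f hf F hF e => by
      simp only [mul_one, one_mul, inv_one, mul_inv_cancel] at hf ⊢
      refine mem_sq_of_der (mem_mx.1 hf) fun A hA => ?_
      obtain ⟨A₁, a₁, A₂, a₂, rfl⟩ := h A hA
      have h2 := ((((MapOn.id (S := univ)).mul (.const s)).mul MapOn.id.inv).mul (.const s⁻¹)
        f.1 f.2).mem
      rw [map_add, LinearMap.add_apply, ← der_comm A₁ s (F := ⟨_, h2⟩) fun _ => rfl,
        dom_der a₁ (dom_pull (MapOn.id.prodMk (.const 1)) (fun g hg => mk_mem_prod hg C.one_mem)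
          H.one_mem rfl hF fun g hg => by simpa using (e (g, 1) ⟨hg, C.one_mem⟩).symm),
        dom_der a₂ (dom_pull ((MapOn.const 1).prodMk .id) (fun g hg => mk_mem_prod H.one_mem hg)
          C.one_mem rfl hF fun g hg => by simpa [hc g hg] using (e (1, g) ⟨H.one_mem, hg⟩).symm),
        add_zero]
  intro g hg
  have h2 := ((MapOn.id (S := univ)).mul (.const s)).mem_clo (subset_univ _) trivial
    (h1 (H.mul_mem hg (H.inv_mem hs)))
  rw [inv_mul_cancel_right] at h2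
  refine clo_mono ?_ h2
  rintro _ ⟨_, ⟨x, hx, rfl⟩, rfl⟩
  exact ⟨_, hx.1, _, hx.2, inv_mul_cancel_right _ _⟩

theorem CC.le_of_lie (hG : CC G) (hH : Closed (OG k n) (H : Set (Gl n k))) (hle : H ≤ G)
    (h : lie G ≤ lie H) : G ≤ H := by
  have h1 := dom aff_OG aff_OG hH (homog_subgroup H) hG.irr MapOn.id hle fun f hf F hF e =>
    mem_sq_of_der (mem_mx.1 hf) fun A hA => dom_der (h hA)
      (dom_pull MapOn.id (mapsTo_id _) H.one_mem rfl hF fun s hs => (e s hs).symm)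
  rw [image_id', hH.clo_eq] at h1
  exact h1

theorem CC.eq_bot_of_lie (hG : CC G) (h : lie G = ⊥) : G = ⊥ :=
  le_bot_iff.1 (hG.le_of_lie cc_bot.closed bot_le (h.le.trans bot_le))

theorem exists_maximal_cc (p : Subgroup (Gl n k) → Prop) (hp : ∀ K, p K → CC K) (h : p H) :
    ∃ K, H ≤ K ∧ Maximal p K := by
  obtain ⟨K, ⟨h1, h2⟩, h3⟩ := (InvImage.wf (fun K : Subgroup (Gl n k) => (lie K).toSubmodule)
    wellFounded_gt).has_min {K | H ≤ K ∧ p K} ⟨H, le_rfl, h⟩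
  exact ⟨K, h1, h2, fun K' h4 h5 => (hp K' h4).le_of_lie (hp K h2).closed h5
    (by_contra fun h6 => h3 K' ⟨h1.trans h5, h4⟩ ⟨lie_mono h5, h6⟩)⟩

theorem exists_maxTor {S : Subgroup (Gl n k)} (hS : Tor S) (h : S ≤ G) :
    ∃ T, S ≤ T ∧ MaxTor G T :=
  exists_maximal_cc _ (fun _ h => h.2.1) ⟨h, hS⟩

theorem exists_borel {S : Subgroup (Gl n k)} (hS : CC S) (hs : Group.IsSolvable S) (h : S ≤ G) :
    ∃ B, S ≤ B ∧ Borel G B :=
  exists_maximal_cc _ (fun _ h => h.2.1) ⟨h, hS, hs⟩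

theorem cc_induction {p : Subgroup (Gl n k) → Prop}
    (h : ∀ G, CC G → (∀ H, CC H → H < G → p H) → p G) (hG : CC G) : p G :=
  (InvImage.wf (fun K : Subgroup (Gl n k) => (K : Set (Gl n k))) aff_OG.wf).induction
    (C := fun G => CC G → p G) G
    (fun G ih hG => h G hG fun H hH hlt => ih H ⟨hH.closed, hG.closed, hlt⟩ hH) hG

end Pool.Agent.AG
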