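import Pool.Agent.Lib.AG.Chart
import Pool.Agent.Lib.AG.Dom

/-! The Lie algebra of the subgroup of a semigroup of weights. -/

namespace Pool.Agent.AG

open Set

attribute [local instance 100] LieRing.ofAssociativeRing

universe u

variable {k : Type u} [Field k] [IsAlgClosed k] {n : ℕ} {G H D : Subgroup (Gl n k)}
  {P : Set (D →* kˣ)}

open MvPolynomial in
/-- Restriction of a polynomial to a coordinate axis. -/
private noncomputable def flAxis {I : Type} [DecidableEq I] (a : I) :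
    MvPolynomial I k →ₐ[k] Polynomial k := aeval fun b => if b = a then Polynomial.X else 0

omit [IsAlgClosed k] in
open MvPolynomial in
private theorem flAxis_coeff {I : Type} [DecidableEq I] (a : I) (F : MvPolynomial I k) (j : ℕ) :
    (flAxis a F).coeff j = coeff (Finsupp.single a j) F := by
  induction F using MvPolynomial.induction_on generalizing j with
  | C c =>
    rw [flAxis, algHom_C, Polynomial.algebraMap_apply, Polynomial.coeff_C, coeff_C]
    simp only [eq_comm (a := (0 : I →₀ ℕ)), Finsupp.single_eq_zero, Algebra.algebraMap_self,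
      RingHom.id_apply]
  | add F F' h h' => rw [map_add, Polynomial.coeff_add, coeff_add, h, h']
  | mul_X F b h =>
    rw [map_mul, coeff_mul_X']
    by_cases hb : b = a
    · subst hb
      rw [show flAxis b (X b : MvPolynomial I k) = Polynomial.X by simp [flAxis]]
      cases j with
      | zero => simp
      | succ j =>
        rw [Polynomial.coeff_mul_X, h, if_pos (by simp), Finsupp.single_add, add_tsub_cancel_right]
    · rw [show flAxis a (X b : MvPolynomial I k) = 0 by simp [flAxis, hb], mul_zero,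
        Polynomial.coeff_zero, if_neg]
      simp [Ne.symm hb]

omit [IsAlgClosed k] in
private theorem fl_coeff_one {q : Polynomial k} {M : ℕ}
    (h : Polynomial.X ^ (M + 1) ∣ q ^ M) : q.coeff 1 = 0 := by
  obtain ⟨r, rfl⟩ := Polynomial.prime_X.dvd_of_dvd_pow ((dvd_pow_self _ M.succ_ne_zero).trans h)
  rw [mul_pow, pow_succ, mul_dvd_mul_iff_left (pow_ne_zero _ Polynomial.X_ne_zero)] at h
  rw [Polynomial.coeff_X_mul]
  exact Polynomial.X_dvd_iff.1 (Polynomial.prime_X.dvd_of_dvd_pow h)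

omit [IsAlgClosed k] in
private theorem fl_pow_mem (hP : SG P) {γ : D →* kˣ} (h : γ ∈ P) (j : ℕ) : γ ^ (j + 1) ∈ P := by
  induction j with
  | zero => rwa [show γ ^ (0 + 1) = γ from pow_one γ]
  | succ j ih =>
    rw [show γ ^ (j + 1 + 1) = γ ^ (j + 1) * γ from pow_succ γ _]
    exact hP _ ih _ h

omit [IsAlgClosed k] in
/-- The eigenfunctions with weights outside `P` cut out the subgroup. -/
private theorem fl_cut (hD : Dg D) {x : Gl n k}
    (h : ∀ (f : OG k n) (γ : D →* kˣ), γ ∉ P → f.1 1 = 0 →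
      (∀ (t : D) (g : Gl n k), f.1 (t.1 * g * t.1⁻¹) = (γ t : k) * f.1 g) → f.1 x = 0)
    [Infinite k] : x.1 - 1 ∈ MP D P := by
  obtain ⟨m, e, wt, he, hs, hw⟩ := hD.exists_basis (isRep_Ad D) (W := ⊤) fun _ _ _ _ => trivial
  obtain ⟨l, hl, -⟩ := hD.exists_dual (isRep_Ad D) he hw
  have hexp : ∀ B : Mt n k, B = ∑ b, l b B • e b := fun B => by
    obtain ⟨c, rfl⟩ := (Submodule.mem_span_range_iff_exists_fun k).1
      (show B ∈ Submodule.span k (range e) from hs ▸ trivial)
    refine Finset.sum_congr rfl fun b _ => ?_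
    simp [map_sum, hl]
  rw [hexp (x.1 - 1)]
  refine Submodule.sum_mem _ fun a _ => ?_
  by_cases ha : wt a ∈ P
  · exact Submodule.smul_mem _ _
      (Submodule.mem_iSup_of_mem (wt a) (Submodule.mem_iSup_of_mem ha (hw a)))
  · obtain ⟨f, hf⟩ := exists_dual_fun (l a)
    rw [← hf, h f _ ha (by rw [hf, Units.val_one, sub_self, map_zero]) fun t g => ?_, zero_smul]
    · exact Submodule.zero_mem _
    have e1 : (t.1 * g * t.1⁻¹).1 - 1 = Ad t.1 (g.1 - 1) := by
      rw [Ad_apply, mul_sub, sub_mul, mul_one, Units.mul_inv, Units.val_mul, Units.val_mul]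
    rw [hf, hf, e1]
    generalize g.1 - 1 = B
    conv_lhs => rw [hexp B]
    simp only [map_sum, map_smul, fun b => mem_wV.1 (hw b) t, hl, smul_eq_mul, mul_ite, mul_one,
      mul_zero, Finset.sum_ite_eq, Finset.mem_univ, if_true]
    exact mul_comm _ _

open MvPolynomial in
/-- The functions whose expansion vanishes on a coordinate axis up to order `N`. -/
private def flIdeal {I : Type} [Fintype I] [DecidableEq I] {e : I → Mt n k}
    {wt : I → (D →* kˣ)} {l : I → Module.Dual k (Mt n k)} {y : I → OG k n}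
    (h : Chart G D e wt l y) (a : I) (N : ℕ) : Ideal (OG k n) where
  carrier := {f | ∃ F : MvPolynomial I k,
    f - aeval y F ∈ mx (OG k n) 1 ^ N ⊔ van (OG k n) (G : Set (Gl n k)) ∧
      Polynomial.X ^ N ∣ flAxis a F}
  add_mem' := by
    rintro f g ⟨F, hF, hF'⟩ ⟨F', hG, hG'⟩
    refine ⟨F + F', ?_, by rw [map_add]; exact hF'.add hG'⟩
    rw [map_add, add_sub_add_comm]
    exact Ideal.add_mem _ hF hG
  zero_mem' := ⟨0, by rw [map_zero, sub_zero]; exact Ideal.zero_mem _, by simp⟩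
  smul_mem' := by
    rintro c f ⟨F, hF, hF'⟩
    obtain ⟨C, hC⟩ := h.approx c N
    refine ⟨C * F, ?_, by rw [map_mul]; exact hF'.mul_left _⟩
    rw [map_mul, smul_eq_mul, show c * f - aeval y C * aeval y F =
      c * (f - aeval y F) + (c - aeval y C) * aeval y F by ring]
    exact Ideal.add_mem _ (Ideal.mul_mem_left _ _ hF) (Ideal.mul_mem_right _ _ hC)

theorem mem_lie_GP (hG : Closed (OG k n) (G : Set (Gl n k))) (hD : Dg D) (hn : Nm D G) (hP : SG P)
    {A : Mt n k} : A ∈ lie (GP G D P) ↔ A ∈ lie G ∧ A ∈ MP D P := by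
  refine ⟨lie_GP_le hP, fun ⟨hA, hA'⟩ => mem_lie_iff.2 fun f hf => ?_⟩
  obtain ⟨m, e, wt, he, hs, hw⟩ := hD.exists_basis (isRep_Ad D) hn.stab_lie
  obtain ⟨l, y, h⟩ := exists_chart hD he hs hw
  obtain ⟨M, hM⟩ := aff_OG.ns (van (OG k n) (G : Set (Gl n k)) ⊔ Ideal.span
    {u : OG k n | ∃ γ : D →* kˣ, γ ∉ P ∧ u.1 1 = 0 ∧
      ∀ (t : D) (g : Gl n k), u.1 (t.1 * g * t.1⁻¹) = (γ t : k) * u.1 g}) f fun x hx =>
    hf x ((mem_GP hP).2 ⟨hG fun u hu h0 => hx ⟨u, hu⟩ (Ideal.mem_sup_left h0),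
      fl_cut hD fun u γ h1 h2 h3 =>
        hx u (Ideal.mem_sup_right (Ideal.subset_span ⟨γ, h1, h2, h3⟩))⟩)
  replace hM := Ideal.pow_mem_of_pow_mem _ hM (Nat.le_succ M)
  obtain ⟨F, hF⟩ := h.approx f (M + 1 + 1)
  have hK : mx (OG k n) 1 ^ (M + 1 + 1) ⊔ van (OG k n) (G : Set (Gl n k)) ≤
      mx (OG k n) 1 ^ 2 ⊔ van (OG k n) (G : Set (Gl n k)) :=
    sup_le_sup_right (Ideal.pow_le_pow_right (by omega)) _
  rw [h.der_eq (hK hF) hA]
  refine Finset.sum_eq_zero fun a _ => ?_
  by_cases ha : wt a ∈ P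
  swap
  · have : MP D P ≤ LinearMap.ker (l a) :=
      iSup₂_le fun γ hγ B hB => h.kill a γ (fun e => ha (e ▸ hγ)) B hB
    rw [LinearMap.mem_ker.1 (this hA'), mul_zero]
  have hJ : f ^ (M + 1) ∈ flIdeal h a (M + 1 + 1) := by
    refine (sup_le (fun u hu => ?_) (Ideal.span_le.2 ?_) : _ ≤ flIdeal h a (M + 1 + 1)) hM
    · exact ⟨0, by rw [map_zero, sub_zero]; exact Ideal.mem_sup_right hu, by simp⟩
    rintro u ⟨γ, h1, h2, h3⟩
    obtain ⟨U, hU⟩ := h.approx u (M + 1 + 1)
    refine ⟨U, hU, Polynomial.X_pow_dvd_iff.2 fun j hj => ?_⟩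
    rw [flAxis_coeff]
    cases j with
    | zero =>
      have h4 : u - MvPolynomial.aeval y U ∈ mx (OG k n) 1 :=
        (sup_le (Ideal.pow_le_self (by omega)) (van_anti (singleton_subset_iff.2 G.one_mem)) :
          _ ≤ mx (OG k n) 1) hU
      let ev : OG k n →ₐ[k] k := (Pi.evalAlgHom k (fun _ : Gl n k => k) 1).comp (OG k n).val
      have h5 : ev (u - MvPolynomial.aeval y U) = 0 := mem_mx.1 h4
      have h6 : ev u = 0 := h2
      have h7 : (fun b => ev (y b)) = fun _ => 0 := funext fun b => by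
        change (y b).1 1 = 0
        rw [h.val, Units.val_one, sub_self, map_zero]
      rw [map_sub, h6, zero_sub, neg_eq_zero, MvPolynomial.comp_aeval_apply, h7,
        MvPolynomial.aeval_zero'] at h5
      rw [Finsupp.single_zero]
      exact h5
    | succ j =>
      by_contra h0
      have h4 := h.weight hG hD hn (fun t g _ => h3 t g) hU (by rwa [Finsupp.degree_single]) h0
      rw [Finset.prod_eq_single a (fun b _ hb => by
        rw [Finsupp.single_eq_of_ne hb]; exact pow_zero (wt b))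
        (fun h5 => absurd (Finset.mem_univ a) h5), Finsupp.single_eq_same] at h4
      exact h1 (h4 ▸ fl_pow_mem hP ha j)
  obtain ⟨F', hF', hd⟩ := hJ
  have h1 : MvPolynomial.aeval y (F ^ (M + 1) - F') ∈
      mx (OG k n) 1 ^ (M + 1 + 1) ⊔ van (OG k n) (G : Set (Gl n k)) := by
    rw [map_sub, map_pow, ← sub_sub_sub_cancel_left _ _ (f ^ (M + 1))]
    exact Ideal.sub_mem _ hF' (Ideal.mem_of_dvd _ (sub_dvd_pow_sub_pow _ _ _) hF)
  have h2 : Polynomial.X ^ (M + 1 + 1) ∣ flAxis a (F ^ (M + 1) - F') :=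
    Polynomial.X_pow_dvd_iff.2 fun j hj => by
      rw [flAxis_coeff]
      exact h.coeff_eq_zero hG h1 (by rwa [Finsupp.degree_single])
  rw [map_sub, map_pow, dvd_sub_left hd] at h2
  rw [← flAxis_coeff, fl_coeff_one h2, zero_mul]

theorem CC.le_GP (hH : CC H) (hD : Dg D) (hn : Nm D H) (hP : SG P) (hHG : H ≤ G)
    (h : ∀ A ∈ lie H, A ∈ MP D P) : H ≤ GP G D P := by
  exact (hH.le_of_lie (closed_GP hP hH.closed) GP_le fun A hA =>
    (mem_lie_GP hH.closed hD hn hP).2 ⟨hA, h A hA⟩).trans (GP_mono hHG subset_rfl)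

end Pool.Agent.AG
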