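import Pool.Agent.Lib.AG.Solv
import Pool.Agent.Lib.AG.FL

/-! A connected group with a central maximal torus is solvable. -/

namespace Pool.Agent.AG

open Set

attribute [local instance 100] LieRing.ofAssociativeRing

universe u

variable {k : Type u} [Field k] [IsAlgClosed k] [Fact (ringChar k).Prime] {n : ℕ}
  {H T : Subgroup (Gl n k)}

omit [IsAlgClosed k] [Fact (ringChar k).Prime] in
private theorem Cent_Ad (s g : Gl n k) : Ad s g.1 = (s * g * s⁻¹).1 := by
  rw [Ad_apply, Units.val_mul, Units.val_mul]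

omit [IsAlgClosed k] [Fact (ringChar k).Prime] in
private theorem Cent_Ad_iff {s g : Gl n k} : Ad s g.1 = g.1 ↔ s * g = g * s := by
  rw [Cent_Ad, Units.val_inj, mul_inv_eq_iff_eq_mul]

theorem isSolvable_of_ss_central (hH : Closed (OG k n) (H : Set (Gl n k)))
    (h : ∀ s ∈ H, SS s → ∀ g ∈ H, s * g = g * s) : Group.IsSolvable H := by
  let W : Submodule k (Mt n k) := Submodule.span k ((fun g : Gl n k => g.1) '' H)
  have hW : Stab H Ad W := fun g hg w hw => by
    refine (Submodule.span_le (p := W.comap (Ad g))).2 ?_ hw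
    rintro _ ⟨x, hx, rfl⟩
    exact Submodule.subset_span ⟨_, Nm.of_le le_rfl g hg x hx, (Cent_Ad g x).symm⟩
  obtain ⟨σ, h1, h2⟩ := (isRep_Ad H).exists_sub hW
  obtain ⟨m, hm⟩ := kolchin_derived h1.hom fun g => isNilpotent_sub_one_of_pow (k := k)
    (a := h1.hom g) (m := n) (by
    refine (map_pow h1.hom g _).symm.trans (LinearMap.ext fun w =>
      Subtype.ext ((h2 _ (g ^ ringChar k ^ n).2 w).trans ?_))
    refine (Submodule.span_le (p := LinearMap.eqLocus (Ad (g ^ ringChar k ^ n : H).1) 1)).2 ?_ w.2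
    rintro _ ⟨x, hx, rfl⟩
    exact Cent_Ad_iff.2 (h _ (g ^ ringChar k ^ n).2 (ss_pow g.1) x hx))
  refine ⟨m + 1, ?_⟩
  rw [derivedSeries_succ, Subgroup.commutator_eq_bot_iff_le_centralizer]
  intro g hg x _
  have h3 := h2 g.1 g.2 ⟨x.1.1, Submodule.subset_span ⟨_, x.2, rfl⟩⟩
  rw [show σ g.1 = 1 from hm g hg] at h3
  exact Subtype.ext (Cent_Ad_iff.1 h3.symm).symm

theorem dense_conj (hH : CC H) {s : Gl n k} (hs : s ∈ H) (hss : SS s) :
    (H : Set (Gl n k)) ⊆ clo (OG k n)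
      {g | ∃ h ∈ H, ∃ c ∈ idc (H ⊓ Subgroup.centralizer {s}), g = h * (s * c) * h⁻¹} := by
  have hc := hH.closed.inf (closed_centralizer {s})
  have hn : Nm (Subgroup.zpowers s) H := Nm.of_le (Subgroup.zpowers_le_of_mem hs)
  have he : GP H (Subgroup.zpowers s) {1} = H ⊓ Subgroup.centralizer {s} := by
    ext g
    rw [mem_GP_one, Subgroup.mem_inf, Subgroup.mem_centralizer_singleton_iff]
    refine and_congr_right fun _ => ⟨fun h => (h s (Subgroup.mem_zpowers s)).symm, ?_⟩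
    rintro h _ ⟨m, rfl⟩
    exact (Commute.zpow_right h m).symm
  refine domC hH (cc_idc hc).closed ((idc_le _).trans inf_le_left) hs
    (fun c hc => (Subgroup.mem_centralizer_singleton_iff.1 (idc_le _ hc).2).symm) fun A hA => ?_
  rw [← LieSubalgebra.mem_toSubmodule, ← hss.dg.iSup_inf_wV (isRep_Ad _) hn.stab_lie] at hA
  induction hA using Submodule.iSup_induction' with
  | zero => exact ⟨0, zero_mem _, 0, zero_mem _, by simp⟩
  | add x y _ _ hx hy =>
    obtain ⟨a, a1, b, b1, rfl⟩ := hx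
    obtain ⟨a', a1', b', b1', rfl⟩ := hy
    exact ⟨a + a', add_mem a1 a1', b + b', add_mem b1 b1', by rw [map_add]; abel⟩
  | mem γ x hx =>
    have h1 := hx.2 ⟨s, Subgroup.mem_zpowers s⟩
    by_cases h2 : γ ⟨s, Subgroup.mem_zpowers s⟩ = 1
    · refine ⟨0, zero_mem _, x, ?_, by simp⟩
      rw [lie_idc hc, ← he, mem_lie_GP hH.closed hss.dg hn
        (by rintro _ rfl _ rfl; exact mul_one (1 : Subgroup.zpowers s →* kˣ))]
      have h3 : γ = 1 := MonoidHom.ext fun ⟨_, m, rfl⟩ => by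
        rw [MonoidHom.one_apply, ← one_zpow m, ← h2, ← map_zpow]
        rfl
      exact ⟨hx.1, Submodule.mem_iSup_of_mem 1 (Submodule.mem_iSup_of_mem rfl (h3 ▸ hx.2))⟩
    · have h3 : (1 : k) - γ ⟨s, Subgroup.mem_zpowers s⟩ ≠ 0 := fun h =>
        h2 (Units.ext (sub_eq_zero.1 h).symm)
      refine ⟨(1 - γ ⟨s, Subgroup.mem_zpowers s⟩ : k)⁻¹ • x, (lie H).smul_mem _ hx.1, 0,
        zero_mem _, ?_⟩
      rw [map_smul, h1, ← smul_sub, add_zero]
      nth_rewrite 2 [← one_smul k x]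
      rw [← sub_smul, smul_smul, inv_mul_cancel₀ h3, one_smul]

omit [IsAlgClosed k] [Fact (ringChar k).Prime] in
private theorem Cent_eig {V : Type u} [AddCommGroup V] [Module k V] {A B : Module.End k V}
    (h : A * B = B * A) (hB : IsNilpotent (B - 1)) {v : V} (h0 : v ≠ 0) {a : k}
    (hv : A v = a • v) : ∃ w, w ≠ 0 ∧ A w = a • w ∧ B w = w := by
  obtain ⟨m, hm⟩ := hB
  obtain ⟨j, h1, h2⟩ := Nat.exists_not_and_succ_of_not_zero_of_exists
    (p := fun j => ((B - 1) ^ j) v = 0) h0 ⟨m, by simp [hm]⟩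
  have h3 : Commute A ((B - 1) ^ j) := (Commute.sub_right h (Commute.one_right A)).pow_right j
  refine ⟨_, h1, ?_, ?_⟩
  · rw [← Module.End.mul_apply, h3.eq, Module.End.mul_apply, hv, map_smul]
  · rwa [pow_succ', Module.End.mul_apply, LinearMap.sub_apply, sub_eq_zero] at h2

theorem isSolvable_of_central (hH : CC H) (hT : MaxTor H T)
    (h : ∀ t ∈ T, ∀ g ∈ H, t * g = g * t) : Group.IsSolvable H := by
  refine cc_induction (p := fun H => MaxTor H T → (∀ t ∈ T, ∀ g ∈ H, t * g = g * t) →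
    Group.IsSolvable H) (fun H hH ih hT h => ?_) hH hT h
  refine isSolvable_of_ss_central hH.closed fun s hs hss => by_contra fun hn => hn ?_
  have hc := cc_idc (hH.closed.inf (closed_centralizer {s}))
  have l1 := idc_le (H ⊓ Subgroup.centralizer {s})
  have l2 := l1.trans inf_le_left
  have l3 : ∀ c ∈ idc (H ⊓ Subgroup.centralizer {s}), s * c = c * s := fun c hc =>
    (Subgroup.mem_centralizer_singleton_iff.1 (l1 hc).2).symm
  have l4 : T ≤ idc (H ⊓ Subgroup.centralizer {s}) := hT.prop.2.1.le_idc fun t ht =>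
    ⟨hT.prop.1 ht, Subgroup.mem_centralizer_singleton_iff.2 (h t ht s hs)⟩
  have hT' := hT.of_le l4 l2
  have hsol := ih _ hc (lt_of_le_not_ge l2 fun h => hn fun g hg => l3 g (h hg)) hT'
    fun t ht g hg => h t ht g (l2 hg)
  have hA := isRep_Ad H
  have hE : Stab H Ad (wV Ad T 1) := fun g hg A hA' t => by
    have h1 := hA' t
    simp only [MonoidHom.one_apply, Units.val_one, one_smul] at h1 ⊢
    rw [← hA.mul_apply (hT.prop.1 t.2) hg, h _ t.2 g hg, hA.mul_apply hg (hT.prop.1 t.2), h1]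
  obtain ⟨σ, h1, h2⟩ := hA.exists_sub hE
  have h3 : ∀ t ∈ T, ∀ w, σ t w = w := fun t ht w =>
    Subtype.ext ((h2 t (hT.prop.1 ht) w).trans ((w.2 ⟨t, ht⟩).trans (one_smul _ _)))
  have h4 : ∀ (a : k) (v : wV (Ad : Gl n k → _) T 1), v ≠ 0 → σ s v = a • v → a = 1 := by
    intro a v v0 hv
    have h5 := (h1.regOn_det a).zero_of_clo (S' := {g | ∃ h ∈ H, ∃ c ∈
      idc (H ⊓ Subgroup.centralizer {s}), g = h * (s * c) * h⁻¹}) ?_ ?_ H.one_mem
      (dense_conj hH hs hss H.one_mem)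
    · obtain ⟨w, w1, w0⟩ := Submodule.exists_mem_ne_zero_of_ne_bot
        (LinearMap.det_eq_zero_iff_ker_ne_bot.1 h5)
      rw [LinearMap.mem_ker, h1.one] at w1
      have h6 : (1 - a) • w.1 = 0 := by rw [sub_smul, one_smul]; exact congrArg Subtype.val w1
      exact (sub_eq_zero.1 ((smul_eq_zero.1 h6).resolve_right fun h => w0 (Subtype.ext h))).symm
    · rintro _ ⟨g, hg, c, hc, rfl⟩
      exact H.mul_mem (H.mul_mem hg (H.mul_mem hs (l2 hc))) (H.inv_mem hg)
    · rintro _ ⟨g, hg, c, hc', rfl⟩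
      obtain ⟨t, ht, u, hu, u1, rfl⟩ := hT'.decomp hc hsol hc'
      obtain ⟨w, w0, w1, w2⟩ := Cent_eig (A := σ s) (B := σ u)
        (by rw [← h1.mul s hs u (l2 hu), l3 u hu, h1.mul u (l2 hu) s hs])
        (h1.isNilpotent (l2 hu) u1) v0 hv
      refine LinearMap.det_eq_zero_iff_ker_ne_bot.2 (Submodule.ne_bot_iff _ |>.2 ⟨σ g w, ?_,
        fun h => w0 (by rw [← h1.inv_apply hg w, h, map_zero])⟩)
      have h7 := H.mul_mem hs (l2 hc')
      rw [LinearMap.mem_ker, LinearMap.sub_apply, h1.mul_apply (H.mul_mem hg h7) (H.inv_mem hg),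
        h1.inv_apply hg, h1.mul_apply hg h7, h1.mul_apply hs (l2 hc'),
        h1.mul_apply (hT.prop.1 ht) (l2 hu), w2, h3 t ht, w1, map_smul]
      exact sub_self _
  have h5 : ∀ A ∈ wV (Ad : Gl n k → _) T 1, Ad s A = A := fun A hA' => by
    rw [← hss.dg.iSup_inf_wV (isRep_Ad _) fun g hg =>
      hE g (Subgroup.zpowers_le_of_mem hs hg)] at hA'
    induction hA' using Submodule.iSup_induction' with
    | zero => exact map_zero _
    | add x y _ _ hx hy => rw [map_add, hx, hy]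
    | mem γ x hx =>
      have h6 := hx.2 ⟨s, Subgroup.mem_zpowers s⟩
      by_cases h0 : x = 0
      · rw [h0, map_zero]
      · rw [h6, h4 _ ⟨x, hx.1⟩ (fun h => h0 (congrArg Subtype.val h))
          (Subtype.ext ((h2 s hs _).trans h6)), one_smul]
  exact fun g hg => Cent_Ad_iff.1 (h5 _ fun t =>
    (Cent_Ad_iff.2 (h _ t.2 g hg)).trans (one_smul _ _).symm)

end Pool.Agent.AG
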