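import Mathlib

/-! A lemma of Geck on root strings, without irreducibility. -/

namespace Pool.Agent.AG

open Set

section General

open RootPairing RootPairing.EmbeddedG2
open FaithfulSMul (algebraMap_injective)

variable {ι R M N : Type*} [CommRing R] [CharZero R] [IsDomain R]
  [AddCommGroup M] [Module R M] [AddCommGroup N] [Module R N]
  {P : RootPairing ι R M N} [Finite ι]

/-- coefficients of the twelve roots of an embedded `G₂` -/
private def chaC : List (ℤ × ℤ) :=
  [(0, 1), (0, -1), (1, 0), (-1, 0), (1, 1), (-1, -1),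
    (2, 1), (-2, -1), (3, 1), (-3, -1), (3, 2), (-3, -2)]

private theorem chaC_key : ∀ a ∈ chaC, ∀ β ∈ chaC, ∀ κ ∈ chaC,
    (κ.1 + a.1, κ.2 + a.2) ∈ chaC → (κ.1 - β.1, κ.2 - β.2) ∈ chaC →
    (κ.1 + a.1 - β.1, κ.2 + a.2 - β.2) ∈ chaC →
    a = β ∨ ∃ c ∈ chaC, 2 * c.1 = a.1 - β.1 ∧ 2 * c.2 = a.2 - β.2 := by
  decide +kernel

private theorem chaC_ne : ∀ a ∈ chaC, ¬ (2 * a.1 - 3 * a.2 = 0 ∧ -a.1 + 2 * a.2 = 0) := by
  decide +kernel

private theorem cha_all [P.EmbeddedG2] :
    allRoots P = chaC.map fun c => c.1 • shortRoot P + c.2 • longRoot P := by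
  rw [allRoots_eq_map_allCoeffs]
  simp [chaC, Fintype.linearCombination_apply]

private theorem cha_pair [P.EmbeddedG2] {r : ι} {x y : ℤ}
    (h : P.root r = x • shortRoot P + y • longRoot P) :
    P.pairingIn ℤ r (short P) = 2 * x - 3 * y ∧ P.pairingIn ℤ r (long P) = -x + 2 * y := by
  constructor
  · rw [pairingIn_eq_add_of_root_eq_smul_add_smul (j := short P) h, pairingIn_same,
      pairingIn_long_short, smul_eq_mul, smul_eq_mul]
    ring
  · rw [pairingIn_eq_add_of_root_eq_smul_add_smul (j := long P) h, pairingIn_same,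
      pairingIn_short_long, smul_eq_mul, smul_eq_mul]
    ring

private theorem cha_dich [P.EmbeddedG2] (r : ι) :
    (∃ c ∈ chaC, P.root r = c.1 • shortRoot P + c.2 • longRoot P) ∨
      (P.pairingIn ℤ r (short P) = 0 ∧ P.pairingIn ℤ r (long P) = 0) := by
  by_cases h : P.root r ∈ allRoots P
  · left
    rw [cha_all, List.mem_map] at h
    obtain ⟨c, hc, h⟩ := h
    exact ⟨c, hc, h.symm⟩
  · right
    obtain ⟨h1, h2⟩ := isOrthogonal_short_and_long P h
    constructor
    · apply algebraMap_injective ℤ R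
      rw [algebraMap_pairingIn, h1.1, map_zero]
    · apply algebraMap_injective ℤ R
      rw [algebraMap_pairingIn, h2.1, map_zero]

private theorem cha_mem [P.EmbeddedG2] {r : ι} {x y : ℤ}
    (h : P.root r = x • shortRoot P + y • longRoot P) : (x, y) ∈ chaC := by
  obtain ⟨h1, h2⟩ := cha_pair h
  rcases cha_dich (P := P) r with ⟨c, hc, h'⟩ | ⟨h3, h4⟩
  · obtain ⟨h3, h4⟩ := cha_pair h'
    have hx : x = c.1 := by omega
    have hy : y = c.2 := by omega
    rw [hx, hy]
    exact hc
  · have hx : x = 0 := by omega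
    have hy : y = 0 := by omega
    rw [hx, hy, zero_smul, zero_smul, add_zero] at h
    exact absurd h (P.ne_zero r)

/-- a root with the same pairings as a root of the embedded `G₂` is equal to it -/
private theorem cha_eq [P.EmbeddedG2] {r r' : ι} {c : ℤ × ℤ} (hc : c ∈ chaC)
    (h : P.root r = c.1 • shortRoot P + c.2 • longRoot P)
    (h1 : P.pairingIn ℤ r' (short P) = P.pairingIn ℤ r (short P))
    (h2 : P.pairingIn ℤ r' (long P) = P.pairingIn ℤ r (long P)) : P.root r' = P.root r := by
  obtain ⟨h3, h4⟩ := cha_pair h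
  rcases cha_dich (P := P) r' with ⟨c', -, h'⟩ | ⟨h5, h6⟩
  · obtain ⟨h5, h6⟩ := cha_pair h'
    have hx : c'.1 = c.1 := by omega
    have hy : c'.2 = c.2 := by omega
    rw [h, h', hx, hy]
  · exact absurd ⟨by omega, by omega⟩ (chaC_ne c hc)

omit [Finite ι] [IsDomain R] in
private theorem cha_two {b : P.Base} {i j r : ι} (hi : i ∈ b.support) (hj : j ∈ b.support)
    (hij : i ≠ j) : (2 : ℤ) • P.root r ≠ P.root i - P.root j := by
  classical
  intro h
  obtain ⟨f, -, -, hf⟩ := b.exists_root_eq_sum_int r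
  have hli := linearIndepOn_finset_iff.1 (b.linearIndepOn_root.restrict_scalars' ℤ)
    (fun u => 2 * f u - (if u = i then 1 else 0) + (if u = j then 1 else 0)) (by
      simp only [add_smul, sub_smul, Finset.sum_add_distrib, Finset.sum_sub_distrib, mul_smul,
        ← Finset.smul_sum, ← hf, h, ite_smul, one_smul, zero_smul, Finset.sum_ite_eq', hi, hj,
        if_true]
      abel) i hi
  simp only [if_true, if_neg hij] at hli
  omega

private theorem cha_core [P.EmbeddedG2] {b : P.Base} {i j k l m : ι} (hi : i ∈ b.support)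
    (hj : j ∈ b.support) (hij : i ≠ j) (h₁ : P.root k + P.root i = P.root l)
    (h₂ : P.root k - P.root j = P.root m)
    (h₃ : P.root k + P.root i - P.root j ∈ range P.root) (hA : P.root i ∈ allRoots P) : False := by
  classical
  rw [cha_all, List.mem_map] at hA
  obtain ⟨a, ha, hA⟩ := hA
  replace hA : P.root i = a.1 • shortRoot P + a.2 • longRoot P := hA.symm
  obtain ⟨n, hn⟩ := h₃
  have h₂' : P.root k = P.root m + P.root j := by rw [← h₂]; abel
  rcases cha_dich (P := P) k with ⟨κ, hκ, hK⟩ | ⟨h3, h4⟩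
  swap
  · have h5 : P.root l = P.root i := by
      refine cha_eq ha hA ?_ ?_
      · rw [pairingIn_eq_add_of_root_eq_add h₁.symm, h3, zero_add]
      · rw [pairingIn_eq_add_of_root_eq_add h₁.symm, h4, zero_add]
    rw [h5, add_eq_right] at h₁
    exact P.ne_zero k h₁
  rcases cha_dich (P := P) j with ⟨β, hβ, hB⟩ | ⟨h3, h4⟩
  swap
  · have h5 : P.root m = P.root k := by
      refine cha_eq hκ hK ?_ ?_
      · rw [pairingIn_eq_add_of_root_eq_add h₂', h3, add_zero]
      · rw [pairingIn_eq_add_of_root_eq_add h₂', h4, add_zero]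
    rw [h5, left_eq_add] at h₂'
    exact P.ne_zero j h₂'
  have hl : (κ.1 + a.1, κ.2 + a.2) ∈ chaC :=
    cha_mem (P := P) (r := l) (by rw [← h₁, hK, hA]; module)
  have hm : (κ.1 - β.1, κ.2 - β.2) ∈ chaC :=
    cha_mem (P := P) (r := m) (by rw [← h₂, hK, hB]; module)
  have hn' : (κ.1 + a.1 - β.1, κ.2 + a.2 - β.2) ∈ chaC :=
    cha_mem (P := P) (r := n) (by rw [hn, hK, hA, hB]; module)
  rcases chaC_key a ha β hβ κ hκ hl hm hn' with h | ⟨c, hc, h5, h6⟩
  · apply hij
    apply P.root.injective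
    rw [hA, hB, h]
  · have h7 : c.1 • shortRoot P + c.2 • longRoot P ∈ range P.root := by
      apply allRoots_subset_range_root P
      rw [Finset.mem_coe, List.mem_toFinset, cha_all, List.mem_map]
      exact ⟨c, hc, rfl⟩
    obtain ⟨r, hr⟩ := h7
    refine cha_two (r := r) hi hj hij ?_
    rw [hr, hA, hB, smul_add, smul_smul, smul_smul, h5, h6]
    module

variable [P.IsCrystallographic] [P.IsReduced]

/-- no root has pairing three with the root `i` -/
private def ChaGood (P : RootPairing ι R M N) [P.IsCrystallographic] (i : ι) : Prop :=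
  ∀ u, P.pairingIn ℤ u i ≤ 2 ∧ P.pairingIn ℤ i u ≤ 2

private theorem cha_good {b : P.Base} {i j k l m : ι} (hi : i ∈ b.support)
    (hj : j ∈ b.support) (hij : i ≠ j) (h₁ : P.root k + P.root i = P.root l)
    (h₂ : P.root k - P.root j = P.root m)
    (h₃ : P.root k + P.root i - P.root j ∈ range P.root) : ChaGood P i := by
  intro u
  have h1 : P.pairingIn ℤ u i ≠ 3 := fun h => by
    let _ := ofPairingInThree P u i h
    refine cha_core hi hj hij h₁ h₂ h₃ ?_
    have h' : P.root i = shortRoot P := rfl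
    rw [h']
    simp
  have h2 : P.pairingIn ℤ i u ≠ 3 := fun h => by
    let _ := ofPairingInThree P i u h
    refine cha_core hi hj hij h₁ h₂ h₃ ?_
    have h' : P.root i = -longRoot P := by
      have h'' : longRoot P = P.root (P.reflectionPerm i i) := rfl
      rw [h'', root_reflectionPerm, reflection_apply_self, neg_neg]
    rw [h']
    simp
  have := P.pairingIn_pairingIn_mem_set_of_isCrystal_of_isRed u i
  simp only [mem_insert_iff, mem_singleton_iff, Prod.mk.injEq] at this
  omega

omit [P.IsReduced] in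
private theorem cha_le_two {i : ι} (hi : ChaGood P i) (j : ι) :
    P.chainBotCoeff i j + P.chainTopCoeff i j ≤ 2 := by
  by_cases h : LinearIndependent R ![P.root i, P.root j]
  swap
  · simp [chainTopCoeff_of_not_linearIndependent, chainBotCoeff_of_not_linearIndependent, h]
  have h1 := chainBotCoeff_add_chainTopCoeff_eq_pairingIn_chainTopIdx h
  have h2 := (hi (P.chainTopIdx i j)).1
  omega

private theorem cha_le_zero {i j : ι} (hj : ChaGood P j)
    (h : P.root i + P.root j ∈ range P.root) : P.pairingIn ℤ i j ≤ 0 := by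
  have aux₁ := P.linearIndependent_of_add_mem_range_root' <| add_comm (P.root i) (P.root j) ▸ h
  have aux₂ := cha_le_two hj i
  have aux₃ : 1 ≤ P.chainTopCoeff j i := by
    rwa [← root_add_nsmul_mem_range_iff_le_chainTopCoeff aux₁, one_smul]
  rw [← P.chainBotCoeff_sub_chainTopCoeff aux₁]
  omega

private theorem cha_zero_le {i j : ι} (hj : ChaGood P j)
    (h : P.root i - P.root j ∈ range P.root) : 0 ≤ P.pairingIn ℤ i j := by
  have h' : P.root j - P.root i ∈ range P.root := by rwa [← neg_mem_range_root_iff, neg_sub]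
  have aux₁ := P.linearIndependent_of_sub_mem_range_root' h'
  have aux₂ := cha_le_two hj i
  have aux₃ : 1 ≤ P.chainBotCoeff j i := P.one_le_chainBotCoeff_of_root_add_mem h'
  rw [← P.chainBotCoeff_sub_chainTopCoeff aux₁]
  omega

private theorem cha_bot {i j : ι} (hi : ChaGood P i) (h : P.root i + P.root j ∈ range P.root) :
    (P.pairingIn ℤ j i = 0 ∧ P.chainBotCoeff i j = 1) ∨
      (P.pairingIn ℤ j i < 0 ∧ P.chainBotCoeff i j = 0) := by
  have aux₁ := P.linearIndependent_of_add_mem_range_root' h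
  have aux₂ := cha_le_two hi j
  have aux₃ : 1 ≤ P.chainTopCoeff i j := P.one_le_chainTopCoeff_of_root_add_mem h
  have aux₄ := P.chainBotCoeff_sub_chainTopCoeff aux₁
  omega

private theorem cha_top {i j : ι} (hi : ChaGood P i) (h : P.root j - P.root i ∈ range P.root) :
    (P.pairingIn ℤ j i = 0 ∧ P.chainTopCoeff i j = 1) ∨
      (0 < P.pairingIn ℤ j i ∧ P.chainTopCoeff i j = 0) := by
  have h' : P.root i - P.root j ∈ range P.root := by rwa [← neg_mem_range_root_iff, neg_sub]
  have aux₁ := P.linearIndependent_of_sub_mem_range_root' h'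
  have aux₂ := cha_le_two hi j
  have aux₃ : 1 ≤ P.chainBotCoeff i j := P.one_le_chainBotCoeff_of_root_add_mem h'
  have aux₄ := P.chainBotCoeff_sub_chainTopCoeff aux₁
  omega

variable {b : P.Base} {i j k l m n : ι}

/-- case of `k` orthogonal to `i` -/
private theorem cha_aux1 (hi : i ∈ b.support) (hj : j ∈ b.support) (hij : i ≠ j)
    (h₁ : P.root k + P.root i = P.root l) (h₂ : P.root k - P.root j = P.root m)
    (hn : P.root n = P.root k + P.root i - P.root j) (gi : ChaGood P i) (gj : ChaGood P j)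
    (hki : P.pairingIn ℤ k i = 0) :
    P.pairingIn ℤ m i = 0 ∧ P.pairingIn ℤ k j = 1 ∧ P.pairingIn ℤ l j = 1 := by
  have : Module.IsReflexive R M := .of_isPerfPair P.toLinearMap
  have : IsAddTorsionFree M := .of_isTorsionFree R M
  have hnk_ne : n ≠ k := by
    rintro rfl
    rw [add_sub_assoc, left_eq_add, sub_eq_zero] at hn
    exact hij (P.root.injective hn)
  have hkj_ne : k ≠ j ∧ P.root k ≠ -P.root j := (IsReduced.linearIndependent_iff _).mp <|
    P.linearIndependent_of_sub_mem_range_root <| h₂ ▸ mem_range_self m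
  have hnk_notMem : P.root n - P.root k ∉ range P.root := by
    have h : P.root n - P.root k = P.root i - P.root j := by rw [hn]; abel
    rw [h]
    exact b.sub_notMem_range_root hi hj
  have h₂' : P.root k = P.root m + P.root j := by rw [← h₂]; abel
  have h₃' : P.root l = P.root n + P.root j := by rw [← h₁, hn]; abel
  have e1 := pairingIn_eq_add_of_root_eq_add (S := ℤ) (j := i) h₂'
  have e2 : P.pairingIn ℤ j i ≤ 0 := b.pairingIn_le_zero_of_ne hij.symm hj hi
  have e3 : P.pairingIn ℤ m i ≤ 0 := cha_le_zero gi ⟨n, by rw [hn, ← h₂]; abel⟩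
  have e4 : P.pairingIn ℤ j i = 0 := by omega
  have e5 : P.pairingIn ℤ i j = 0 := P.pairingIn_eq_zero_iff.1 e4
  have e6 : P.pairingIn ℤ i k = 0 := P.pairingIn_eq_zero_iff.1 hki
  have e7 := pairingIn_eq_add_of_root_eq_add (S := ℤ) (j := k) h₁.symm
  have e8 := pairingIn_eq_add_of_root_eq_add (S := ℤ) (j := k) h₃'
  have e9 : P.pairingIn ℤ n k ≤ 0 := by
    by_contra contra
    exact hnk_notMem <| P.root_sub_root_mem_of_pairingIn_pos (not_le.1 contra) hnk_ne
  have e10 := (gj k).2
  have e11 := P.pairingIn_same ℤ k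
  have e12 : P.pairingIn ℤ j k = 2 := by omega
  have e13 : P.pairingIn ℤ k j = 1 := by
    have h := P.pairingIn_pairingIn_mem_set_of_isCrystal_of_isRed' k j
      (P.root.injective.ne hkj_ne.1) hkj_ne.2
    simp only [mem_insert_iff, mem_singleton_iff, Prod.mk.injEq] at h
    omega
  have e14 := pairingIn_eq_add_of_root_eq_add (S := ℤ) (j := j) h₁.symm
  omega

/-- the generic case -/
private theorem cha_aux2 (h₁ : P.root k + P.root i = P.root l)
    (h₂ : P.root k - P.root j = P.root m) (gj : ChaGood P j) :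
    ¬ (P.pairingIn ℤ k i < 0 ∧ P.pairingIn ℤ m i = 0 ∧ 0 < P.pairingIn ℤ l j) := by
  rintro ⟨hki, hmi, hlj⟩
  have : Module.IsReflexive R M := .of_isPerfPair P.toLinearMap
  have : IsAddTorsionFree M := .of_isTorsionFree R M
  have hkj_ne : k ≠ j ∧ P.root k ≠ -P.root j := (IsReduced.linearIndependent_iff _).mp <|
    P.linearIndependent_of_sub_mem_range_root <| h₂ ▸ mem_range_self m
  have h₂' : P.root k = P.root m + P.root j := by rw [← h₂]; abel
  have e1 := pairingIn_eq_add_of_root_eq_add (S := ℤ) (j := i) h₂'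
  have e2 := pairingIn_eq_add_of_root_eq_add (S := ℤ) (j := j) h₁.symm
  have e3 : P.pairingIn ℤ i j < 0 := (P.pairingIn_lt_zero_iff ℤ).1 (by omega)
  have e4 := (gj k).1
  have e5 : P.pairingIn ℤ i j = -1 := by omega
  have e6 : P.pairingIn ℤ k j = 2 := by omega
  have e7 : P.pairingIn ℤ j k = 1 := by
    have h := P.pairingIn_pairingIn_mem_set_of_isCrystal_of_isRed' k j
      (P.root.injective.ne hkj_ne.1) hkj_ne.2
    simp only [mem_insert_iff, mem_singleton_iff, Prod.mk.injEq] at h
    omega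
  have e8 : P.pairingIn ℤ k i = P.pairingIn ℤ j i := by omega
  obtain B : RootPositiveForm ℤ P := have : Fintype ι := Fintype.ofFinite ι; P.posRootForm ℤ
  have l1 := B.pairingIn_mul_eq_pairingIn_mul_swap i j
  have l2 := B.pairingIn_mul_eq_pairingIn_mul_swap k j
  have l3 := B.pairingIn_mul_eq_pairingIn_mul_swap i k
  have l4 := B.rootLength_pos j
  rw [e5] at l1
  rw [e6, e7, one_mul] at l2
  rw [e8, l1, l2] at l3
  have l5 : (1 + 2 * P.pairingIn ℤ i k) * B.rootLength j = 0 := by linarith
  rcases mul_eq_zero.1 l5 with h | h <;> omega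

private theorem cha_main (hi : i ∈ b.support) (hj : j ∈ b.support) (hij : i ≠ j)
    (h₁ : P.root k + P.root i = P.root l) (h₂ : P.root k - P.root j = P.root m)
    (h₃ : P.root k + P.root i - P.root j ∈ range P.root) :
    (P.chainBotCoeff i m + 1) * (P.chainTopCoeff j k + 1) =
      (P.chainTopCoeff j l + 1) * (P.chainBotCoeff i k + 1) := by
  have neg : ∀ u, P.root (P.reflectionPerm u u) = -P.root u := fun u => by
    rw [root_reflectionPerm, reflection_apply_self]
  obtain ⟨n, hn⟩ := h₃
  have h₁' : P.root (P.reflectionPerm k k) + P.root j = P.root (P.reflectionPerm m m) := by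
    rw [neg, neg, ← h₂]; abel
  have h₂' : P.root (P.reflectionPerm k k) - P.root i = P.root (P.reflectionPerm l l) := by
    rw [neg, neg, ← h₁]; abel
  have hn' : P.root (P.reflectionPerm n n) =
      P.root (P.reflectionPerm k k) + P.root j - P.root i := by
    rw [neg, neg, hn]; abel
  have gi : ChaGood P i := cha_good hi hj hij h₁ h₂ ⟨n, hn⟩
  have gj : ChaGood P j := cha_good hj hi hij.symm h₁' h₂' ⟨_, hn'⟩
  have c1 := cha_bot gi (j := m) ⟨n, by rw [hn, ← h₂]; abel⟩
  have c2 := cha_top gj (j := k) ⟨m, h₂.symm⟩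
  have c3 := cha_top gj (j := l) ⟨n, by rw [hn, ← h₁]⟩
  have c4 := cha_bot gi (j := k) ⟨l, by rw [← h₁, add_comm]⟩
  have a1 := cha_aux1 hi hj hij h₁ h₂ hn gi gj
  have a2 := cha_aux1 hj hi hij.symm h₁' h₂' hn' gj gi
  have a3 := cha_aux2 h₁ h₂ gj
  have a4 := cha_aux2 h₁' h₂' gi
  simp only [pairingIn_reflectionPerm_self_left] at a2 a4
  rcases c1 with ⟨p1, q1⟩ | ⟨p1, q1⟩ <;> rcases c2 with ⟨p2, q2⟩ | ⟨p2, q2⟩ <;>
    rcases c3 with ⟨p3, q3⟩ | ⟨p3, q3⟩ <;> rcases c4 with ⟨p4, q4⟩ | ⟨p4, q4⟩ <;>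
    rw [q1, q2, q3, q4] <;> omega

end General

variable {ι X Y : Type*} [Finite ι] [AddCommGroup X] [AddCommGroup Y] {P : RootDatum ι X Y}
  [P.IsReduced]

theorem geck26 {b : P.Base} {i j k l m : ι} (hi : i ∈ b.support) (hj : j ∈ b.support)
    (hij : i ≠ j) (h₁ : P.root k + P.root i = P.root l) (h₂ : P.root k - P.root j = P.root m)
    (h₃ : P.root k + P.root i - P.root j ∈ range P.root) :
    (P.chainBotCoeff i m + 1) * (P.chainTopCoeff j k + 1) =
      (P.chainTopCoeff j l + 1) * (P.chainBotCoeff i k + 1) := by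
  exact cha_main hi hj hij h₁ h₂ h₃

end Pool.Agent.AG
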