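import Pool.Agent.Lib.AG.ChDefs
import Pool.Agent.Lib.AG.ChA

/-! A finite dimensional realisation of the Chevalley generators. -/

namespace Pool.Agent.AG

open Set

attribute [local instance 100] LieRing.ofAssociativeRing

variable {ι X Y : Type} [Fintype ι] [DecidableEq ι] [AddCommGroup X] [AddCommGroup Y]
  {P : RootDatum ι X Y} [P.IsReduced] (b : P.Base)

section aux

open RootPairing RootPairing.GeckConstruction
open scoped Matrix

attribute [local simp] Ring.lie_def Matrix.mul_apply Matrix.one_apply Matrix.diagonal_apply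

variable {b} {i j : b.support}

omit [P.IsReduced]

private lemma chb_aux₀ (k : b.support) (l : ι) :
    ⁅e i, f j⁆ (Sum.inl k) (Sum.inr l) = 0 := by
  classical
  let := P.indexNeg
  have aux₁ : ∀ x ∈ Finset.univ, ¬ (P.root x = P.root i + P.root l ∧ k = j ∧ x = j) := by
    rintro x - ⟨hl, -, rfl⟩
    exact b.sub_notMem_range_root i.property j.property ⟨-l, by simp [hl]⟩
  have aux₂ : ∀ x ∈ Finset.univ, ¬ (P.root x = P.root l - P.root j ∧ k = i ∧ x = -i) := by
    rintro x - ⟨hl, -, rfl⟩
    replace hl : P.root i = P.root j - P.root l := by simpa [neg_eq_iff_eq_neg] using hl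
    exact b.sub_notMem_range_root i.property j.property ⟨-l, by simp [hl]⟩
  simp [e, f, -indexNeg_neg, ← ite_and, Finset.sum_ite_of_false aux₁, Finset.sum_ite_of_false aux₂]

private lemma chb_aux₁ (hij : i ≠ j) :
    ⁅e i, f j⁆ᵀ (Sum.inr j) = 0 := by
  have hij' : (i : ι) ≠ (j : ι) := hij ∘ SetLike.coe_eq_coe.mp
  let := P.indexNeg
  classical
  ext (k | k)
  · rw [Matrix.transpose_apply, chb_aux₀, Pi.zero_apply]
  · suffices ((if k = i then ↑|b.cartanMatrix i j| else (0 : ℤ)) -
        ∑ x, if P.root x = P.root i + P.root j ∧ P.root k = P.root x - P.root j then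
          (P.chainTopCoeff j x : ℤ) + 1 else 0) = 0 by
      have hij : (j : ι) ≠ -i := by simpa using b.root_ne_neg_of_ne j.property i.property hij'.symm
      have aux : ∀ x ∈ Finset.univ,
        x ≠ j → (if x = j ∧ k = i then ↑|b.cartanMatrix i x| else 0) = (0 : ℤ) := by aesop
      simpa [e, f, P.ne_zero, hij, -indexNeg_neg, -Finset.univ_eq_attach, ← ite_and,
        Finset.sum_eq_single_of_mem j (Finset.mem_univ _) aux]
    rcases eq_or_ne k i with rfl | hk; swap
    · rw [if_neg (by tauto), Finset.sum_ite_of_false (by aesop)]; simp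
    by_cases hij_mem : P.root i + P.root j ∈ range P.root
    · obtain ⟨m, hm⟩ := hij_mem
      rw [Finset.sum_eq_single_of_mem m (Finset.mem_univ _) (by rintro x - hx; simp [← hm, hx]),
        b.abs_cartanMatrix_apply, Base.cartanMatrix, Base.cartanMatrixIn_def]
      have aux₁ := b.chainTopCoeff_eq_of_ne hij.symm
      have aux₂ := chainTopCoeff_of_add (b.linearIndependent_pair_of_ne hij.symm) hm
      norm_cast
      aesop
    · have aux : ∀ x ∈ Finset.univ,
          ¬ (P.root x = P.root i + P.root j ∧ P.root i = P.root x - P.root j) := by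
        rintro x - ⟨hx, -⟩; exact hij_mem ⟨x, hx⟩
      simp [Finset.sum_ite_of_false aux, b.cartanMatrix_apply_eq_zero_iff hij, hij_mem]

private lemma chb_aux₂ (hij : i ≠ j) :
    letI := P.indexNeg
    ⁅e i, f j⁆ᵀ (Sum.inr (-i)) = 0 := by
  let := P.indexNeg
  classical
  ext (k | k)
  · rw [Matrix.transpose_apply, chb_aux₀, Pi.zero_apply]
  · have aux : ⁅e i, f j⁆ (.inr k) (.inr (-i)) = (⁅e i, f j⁆ * ω b) (.inr k) (.inr i) := by simp [ω]
    rw [Matrix.transpose_apply, aux, lie_e_f_mul_ω, ← (-ω b * ⁅e j, f i⁆).transpose_apply,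
      Matrix.transpose_mul, Matrix.mul_apply', chb_aux₁ hij.symm]
    simp

end aux

attribute [local simp] Ring.lie_def Matrix.mul_apply Matrix.one_apply Matrix.diagonal_apply in
open RootPairing in
open RootPairing.GeckConstruction in
theorem geck_lie_e_f_ne {i j : b.support} (hij : i ≠ j) : ⁅e i, f j⁆ = 0 := by
  have hij' : (i : ι) ≠ (j : ι) := hij ∘ SetLike.coe_eq_coe.mp
  let := P.indexNeg
  classical
  ext (k | k) (l | l)
  · rw [ne_comm] at hij
    simp_all [-indexNeg_neg, e, f]
  · exact chb_aux₀ k l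
  · have aux₁ : P.root k ≠ P.root i - P.root j :=
      fun contra ↦ b.sub_notMem_range_root i.property j.property ⟨k, contra⟩
    simp [e, f, ← sub_eq_add_neg, if_neg aux₁]
  · rcases eq_or_ne l j with rfl | h₃
    · rw [← ⁅e i, f j⁆.transpose_apply, chb_aux₁ hij, Pi.zero_apply, Matrix.zero_apply]
    rcases eq_or_ne l (-i) with rfl | h₄
    · rw [← ⁅e i, f j⁆.transpose_apply, chb_aux₂ hij, Pi.zero_apply, Matrix.zero_apply]
    suffices
      (∑ x, if P.root x = P.root l - P.root j ∧ P.root k = P.root i + P.root x then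
          ((P.chainBotCoeff i x : ℤ) + 1) * (P.chainTopCoeff j l + 1) else 0) =
      (∑ x, if P.root x = P.root i + P.root l ∧ P.root k = P.root x - P.root j then
          ((P.chainTopCoeff j x : ℤ) + 1) * (P.chainBotCoeff i l + 1) else 0) by
      have h₁ : ∀ x ∈ Finset.univ, ¬ ((x = i ∧ l = -i) ∧ k = -j) := by
        rintro - - ⟨⟨-, contra⟩, -⟩; contradiction
      have h₂ : ∀ x ∈ Finset.univ, ¬ ((x = j ∧ l = j) ∧ k = i) := by
        rintro - - ⟨⟨-, contra⟩, -⟩; contradiction
      rw [← sub_eq_zero] at this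
      simpa [e, f, ← ite_and, Finset.sum_ite_of_false h₁, Finset.sum_ite_of_false h₂, -indexNeg_neg,
        -Finset.univ_eq_attach]
    by_cases h₅ : P.root l + P.root i - P.root j ∈ range P.root; swap
    · have aux₃ : ∀ x ∈ Finset.univ,
          ¬ (P.root x = P.root i + P.root l ∧ P.root k = P.root x - P.root j) := by
        rintro x - ⟨hx, hx'⟩; exact h₅ ⟨k, by rw [hx', hx]; abel⟩
      have aux₄ : ∀ x ∈ Finset.univ,
          ¬ (P.root x = P.root l - P.root j ∧ P.root k = P.root i + P.root x) := by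
        rintro x - ⟨hx, hx'⟩; exact h₅ ⟨k, by rw [hx', hx]; abel⟩
      simp [Finset.sum_ite_of_false aux₃, Finset.sum_ite_of_false aux₄]
    by_cases h₆ : P.root l + P.root i ∈ range P.root; swap
    · have h₇ : P.root l - P.root j ∉ range P.root := by
        rwa [b.root_sub_mem_iff_root_add_mem i j l hij' i.property j.property h₃ _ h₅]
        simpa
      have aux₃ : ∀ x ∈ Finset.univ,
          ¬ (P.root x = P.root i + P.root l ∧ P.root k = P.root x - P.root j) := by
        rintro x - ⟨hx, -⟩; exact h₆ ⟨x, by rw [hx]; abel⟩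
      have aux₄ : ∀ x ∈ Finset.univ,
          ¬ (P.root x = P.root l - P.root j ∧ P.root k = P.root i + P.root x) := by
        rintro x - ⟨hx, hx'⟩; exact h₇ ⟨x, hx⟩
      simp [Finset.sum_ite_of_false aux₃, Finset.sum_ite_of_false aux₄]
    obtain ⟨m, hm : P.root m = P.root l - P.root j⟩ :=
      b.root_sub_root_mem_of_mem_of_mem i j l hij' i.property j.property h₅ h₃ h₆
    obtain ⟨l', hl'⟩ := h₆
    by_cases hk : P.root k = P.root l + P.root i - P.root j; swap
    · grind
    have aux₃ (x) (hx : x ≠ m) :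
      ¬ (P.root x = P.root l - P.root j ∧ P.root k = P.root i + P.root x) := by
        grind [EmbeddingLike.apply_eq_iff_eq]
    have aux₄ (x) (hx : x ≠ l') :
      ¬ (P.root x = P.root i + P.root l ∧ P.root k = P.root x - P.root j) := by
        grind [EmbeddingLike.apply_eq_iff_eq]
    rw [Finset.sum_eq_single_of_mem m (Finset.mem_univ _) (by rintro x - h; rw [if_neg (aux₃ _ h)]),
      Finset.sum_eq_single_of_mem l' (Finset.mem_univ _) (by rintro x - h; rw [if_neg (aux₄ _ h)]),
      if_pos (⟨hm, by rw [hm, hk]; abel⟩), if_pos ⟨by rw [hl', add_comm], by rw [hl', hk]⟩]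
    have := geck26 i.property j.property hij' hl'.symm hm.symm h₅
    norm_cast

omit [Fintype ι] [DecidableEq ι] [P.IsReduced] in
private lemma chb_rt {r : ℕ} (c : Module.Basis (Fin r) ℤ Y) (i : ι) (y : Y) :
    ∑ a, (c.repr y a : ℂ) * (rt P i (c a) : ℂ) = rt P i y := by
  conv_rhs => rw [← c.sum_repr y, map_sum]
  simp only [map_zsmul, smul_eq_mul, Int.cast_sum, Int.cast_mul]

open scoped ComplexOrder in
omit [DecidableEq ι] [P.IsReduced] in
/-- the roots separate the points of the complex span of the coroots -/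
private lemma chb_nondeg {r : ℕ} (c : Module.Basis (Fin r) ℤ Y) {z : Fin r → ℂ}
    (hz : z ∈ Submodule.span ℂ (range fun j : ι => fun a => (c.repr (P.coroot j) a : ℂ)))
    (h0 : ∀ i, ∑ a, z a * (rt P i (c a) : ℂ) = 0) : z = 0 := by
  obtain ⟨t, rfl⟩ := (Submodule.mem_span_range_iff_exists_fun ℂ).1 hz
  have h1 : ∀ i a, (c.repr (P.coroot i) a : ℂ) = 2 / (P.RootForm (P.root i) (P.root i) : ℂ) *
      ∑ j, (P.pairing i j : ℂ) * (c.repr (P.coroot j) a : ℂ) := fun i a => by
    have h2 : (P.RootForm (P.root i) (P.root i) : ℂ) ≠ 0 :=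
      Int.cast_ne_zero.2 (RootPairing.IsAnisotropic.rootForm_root_ne_zero i)
    have h3 := congrArg (fun y => (c.repr y a : ℂ)) (P.rootForm_self_smul_coroot i)
    simp only [RootPairing.Polarization_apply, map_smul, map_nsmul, map_sum, Finsupp.smul_apply,
      Finsupp.coe_finsetSum, Finset.sum_apply, smul_eq_mul, nsmul_eq_mul, Int.cast_mul,
      Int.cast_sum, RootPairing.root_coroot'_eq_pairing, Nat.cast_ofNat, Int.cast_ofNat] at h3
    rw [div_mul_eq_mul_div, ← h3, mul_div_cancel_left₀ _ h2]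
  obtain ⟨s, hs⟩ : ∃ s : ι → ℂ, s = fun i => t i * (2 / (P.RootForm (P.root i) (P.root i) : ℂ)) :=
    ⟨_, rfl⟩
  obtain ⟨u, hu⟩ : ∃ u : ι → ℂ, u = fun j => ∑ i, s i * (P.pairing i j : ℂ) := ⟨_, rfl⟩
  have h2 : ∀ a, (∑ i, t i • fun a => (c.repr (P.coroot i) a : ℂ)) a =
      ∑ j, u j * (c.repr (P.coroot j) a : ℂ) := fun a => by
    simp only [hu, hs, Finset.sum_apply, Pi.smul_apply, smul_eq_mul, Finset.sum_mul]
    rw [Finset.sum_comm]
    refine Finset.sum_congr rfl fun i _ => ?_
    rw [h1 i a, ← mul_assoc, Finset.mul_sum]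
    exact Finset.sum_congr rfl fun j _ => (mul_assoc _ _ _).symm
  have h3 : ∀ i, ∑ j, (P.pairing i j : ℂ) * u j = 0 := fun i => by
    rw [← h0 i]
    simp only [h2, Finset.sum_mul]
    rw [Finset.sum_comm]
    refine Finset.sum_congr rfl fun j _ => ?_
    simp only [mul_assoc, ← Finset.mul_sum, chb_rt]
    exact mul_comm _ _
  have h4 : u = 0 := by
    refine dotProduct_star_self_eq_zero.1 ?_
    have h5 : ∀ j, star u j = ∑ i, star (s i) * (P.pairing i j : ℂ) := fun j => by
      simp only [hu, Pi.star_apply, star_sum, star_mul', star_intCast]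
    simp only [dotProduct, h5, Finset.sum_mul]
    rw [Finset.sum_comm]
    simp only [mul_assoc, ← Finset.mul_sum, h3, mul_zero, Finset.sum_const_zero]
  funext a
  simp only [h2, h4, Pi.zero_apply, zero_mul, Finset.sum_const_zero]

private lemma chb_diag {m : Type} [Fintype m] [DecidableEq m] (d : m → ℂ) (A : Matrix m m ℂ)
    (n : ℤ) (h : ∀ k l, A k l ≠ 0 → d k - d l = n) : ⁅Matrix.diagonal d, A⁆ = n • A := by
  ext k l
  rw [Ring.lie_def, Matrix.sub_apply, Matrix.diagonal_mul, Matrix.mul_diagonal, Matrix.smul_apply,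
    zsmul_eq_mul, mul_comm (A k l), ← sub_mul]
  by_cases h0 : A k l = 0
  · rw [h0, mul_zero, mul_zero]
  · rw [h k l h0]

private lemma chb_block {m m' : Type} [Fintype m] [DecidableEq m] [Fintype m'] [DecidableEq m']
    (A B : Matrix m m ℤ) :
    ⁅(Matrix.fromBlocks (A.map (↑)) 0 0 0 : Matrix (m ⊕ m') (m ⊕ m') ℂ),
      (Matrix.fromBlocks (B.map (↑)) 0 0 0 : Matrix (m ⊕ m') (m ⊕ m') ℂ)⁆ =
      Matrix.fromBlocks (⁅A, B⁆.map (↑)) 0 0 0 := by
  have h : ∀ A B : Matrix m m ℤ, (A.map (↑) * B.map (↑) : Matrix m m ℂ) = (A * B).map (↑) :=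
    fun A B => (Matrix.map_mul (f := Int.castRingHom ℂ)).symm
  rw [Ring.lie_def, Ring.lie_def, Matrix.fromBlocks_multiply, Matrix.fromBlocks_multiply, h, h]
  ext (k | k) (l | l) <;> simp

open RootPairing RootPairing.GeckConstruction in
omit [Fintype ι] [DecidableEq ι] [P.IsReduced] in
private lemma chb_e [Finite ι] (i : b.support) (y : Y) (k l : b.support ⊕ ι) (h : e i k l ≠ 0) :
    Sum.elim (0 : b.support → ℂ) (fun j => (rt P j y : ℂ)) k -
      Sum.elim (0 : b.support → ℂ) (fun j => (rt P j y : ℂ)) l =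
      rt P i y := by
  rcases k with k | k <;> rcases l with l | l <;>
    simp only [e, Matrix.fromBlocks_apply₁₁, Matrix.fromBlocks_apply₁₂, Matrix.fromBlocks_apply₂₁,
      Matrix.fromBlocks_apply₂₂, Matrix.of_apply, Matrix.zero_apply, ne_eq, not_true_eq_false,
      ite_eq_right_iff, not_forall] at h
  · obtain ⟨⟨-, rfl⟩, -⟩ := h
    simp [rt_apply]
  · obtain ⟨rfl, -⟩ := h
    simp
  · obtain ⟨h, -⟩ := h
    simp [rt_apply, h]

open RootPairing RootPairing.GeckConstruction in
omit [Fintype ι] [DecidableEq ι] [P.IsReduced] in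
private lemma chb_f [Finite ι] (i : b.support) (y : Y) (k l : b.support ⊕ ι) (h : f i k l ≠ 0) :
    Sum.elim (0 : b.support → ℂ) (fun j => (rt P j y : ℂ)) k -
      Sum.elim (0 : b.support → ℂ) (fun j => (rt P j y : ℂ)) l =
      (-rt P i y : ℤ) := by
  rcases k with k | k <;> rcases l with l | l <;>
    simp only [f, Matrix.fromBlocks_apply₁₁, Matrix.fromBlocks_apply₁₂, Matrix.fromBlocks_apply₂₁,
      Matrix.fromBlocks_apply₂₂, Matrix.of_apply, Matrix.zero_apply, ne_eq, not_true_eq_false,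
      ite_eq_right_iff, not_forall] at h
  · obtain ⟨⟨-, rfl⟩, -⟩ := h
    simp
  · obtain ⟨rfl, -⟩ := h
    simp [rt_apply]
  · obtain ⟨h, -⟩ := h
    simp [rt_apply, h]

theorem exists_gen {r : ℕ} (c : Module.Basis (Fin r) ℤ Y) :
    ∃ (m : Type) (_ : Fintype m) (_ : DecidableEq m) (h : Y →+ Matrix m m ℂ)
      (e f : b.support → Matrix m m ℂ),
      Gen (fun i : b.support => rt P i) (fun i => P.coroot i) h e f ∧
        LinearIndependent ℂ fun a => h (c a) := by
  obtain ⟨W, hW⟩ := (Submodule.span ℂ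
    (range fun j : ι => fun a => (c.repr (P.coroot j) a : ℂ))).exists_isCompl
  obtain ⟨π, hπ⟩ : ∃ π : (Fin r → ℂ) →ₗ[ℂ] (Fin r → ℂ), LinearMap.ker π = Submodule.span ℂ
      (range fun j : ι => fun a => (c.repr (P.coroot j) a : ℂ)) :=
    ⟨_, Submodule.ker_projection hW.symm⟩
  obtain ⟨D, hD⟩ : ∃ D : Y →+ ((b.support ⊕ ι) ⊕ Fin r → ℂ), ∀ y, D y =
      Sum.elim (Sum.elim (0 : b.support → ℂ) fun j => (rt P j y : ℂ))
        (π fun a => (c.repr y a : ℂ)) := by
    refine ⟨AddMonoidHom.mk' (fun y => Sum.elim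
      (Sum.elim (0 : b.support → ℂ) fun j => (rt P j y : ℂ))
      (π fun a => (c.repr y a : ℂ))) fun y y' => ?_, fun _ => rfl⟩
    ext ((k | k) | k)
    · simp
    · simp
    · rw [Pi.add_apply, Sum.elim_inr, Sum.elim_inr, Sum.elim_inr, ← Pi.add_apply (π _), ← map_add]
      refine congrFun (congrArg π (funext fun a => ?_)) k
      simp
  refine ⟨(b.support ⊕ ι) ⊕ Fin r, inferInstance, inferInstance,
    (Matrix.diagonalAddMonoidHom _ _).comp D,
    fun i => Matrix.fromBlocks ((RootPairing.GeckConstruction.e i).map (↑)) 0 0 0,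
    fun i => Matrix.fromBlocks ((RootPairing.GeckConstruction.f i).map (↑)) 0 0 0,
    ⟨fun y y' => ?_, fun y i => ?_, fun y i => ?_, fun i j => ?_⟩, ?_⟩
  · exact commute_iff_lie_eq.1 (Matrix.commute_diagonal _ _)
  · refine chb_diag _ _ _ ?_
    rintro (k | k) (l | l) h
    · rw [hD]
      exact chb_e b i y k l (Int.cast_ne_zero.1 h)
    all_goals exact absurd rfl h
  · rw [← neg_smul]
    refine chb_diag _ _ _ ?_
    rintro (k | k) (l | l) h
    · rw [hD]
      exact chb_f b i y k l (Int.cast_ne_zero.1 h)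
    all_goals exact absurd rfl h
  · rw [chb_block]
    split_ifs with hij
    · subst hij
      have h1 : π (fun a => (c.repr (P.coroot i) a : ℂ)) = 0 :=
        LinearMap.mem_ker.1 (hπ ▸ Submodule.subset_span ⟨_, rfl⟩)
      have h2 : ∀ j : ι, P.pairingIn ℤ j i = rt P j (P.coroot i) := fun j =>
        P.algebraMap_pairingIn ℤ j i
      rw [RootPairing.GeckConstruction.lie_e_f_same, RootPairing.GeckConstruction.h_eq_diagonal,
        AddMonoidHom.comp_apply, Matrix.diagonalAddMonoidHom_apply, hD, h1,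
        Matrix.diagonal_map Int.cast_zero, ← Matrix.diagonal_zero, Matrix.fromBlocks_diagonal]
      congr 1
      ext ((k | k) | k) <;> simp [h2]
    · rw [geck_lie_e_f_ne b hij, Matrix.map_zero _ Int.cast_zero, Matrix.fromBlocks_zero]
  · refine Fintype.linearIndependent_iff.2 fun z hz => congrFun (chb_nondeg (P := P) c ?_ ?_)
    · rw [← hπ, LinearMap.mem_ker]
      have h1 : z = ∑ a, z a • fun a' => (c.repr (c a) a' : ℂ) := by
        ext a'
        simp [Finsupp.single_apply]
      rw [h1, map_sum]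
      ext k
      simpa [Matrix.sum_apply, hD] using congrFun₂ hz (.inr k) (.inr k)
    · intro i
      simpa [Matrix.sum_apply, hD] using congrFun₂ hz (.inl (.inr i)) (.inl (.inr i))

end Pool.Agent.AG
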