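import Pool.Agent.Lib.AG.ChDefs

/-! The triangular decomposition, and the structure constants along a root string. -/

namespace Pool.Agent.AG

open Set

variable {ι X Y : Type*} [AddCommGroup X] [AddCommGroup Y] {K : Type*} [Field K]
  {A : Type*} [LieRing A] [LieAlgebra K A] {h : Y →+ A}

section Words

variable {Δ : Type*} [DecidableEq Δ] {α : Δ → Y →+ ℤ} {cv : Δ → Y} {e f : Δ → A}

/-- Iterated brackets of given content. -/
private inductive Wd (e : Δ → A) : (Δ → ℤ) → A → Prop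
  | base (i : Δ) : Wd e (Pi.single i 1) (e i)
  | step (i : Δ) {γ : Δ → ℤ} {x : A} : Wd e γ x → Wd e (Pi.single i 1 + γ) ⁅e i, x⁆

private theorem single_nonneg' (i : Δ) : (0 : Δ → ℤ) ≤ Pi.single i 1 :=
  Pi.single_nonneg.2 zero_le_one

private theorem Wd.pos {γ : Δ → ℤ} {x : A} (hx : Wd e γ x) : 0 ≤ γ ∧ γ ≠ 0 := by
  induction hx with
  | base i => exact ⟨single_nonneg' i, fun h0 => by simpa using congrFun h0 i⟩
  | @step i γ x _ ih =>
    refine ⟨add_nonneg (single_nonneg' i) ih.1, fun h0 => ?_⟩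
    have h1 := congrFun h0 i
    have h2 : (0 : ℤ) ≤ γ i := ih.1 i
    simp only [Pi.add_apply, Pi.single_eq_same, Pi.zero_apply] at h1
    omega

private theorem Gen.swap (H : Gen α cv h e f) : Gen α cv (-h) f e where
  h_h y y' := by simp [H.h_h]
  h_e y i := by simp [H.h_f]
  h_f y i := by simp [H.h_e]
  e_f i j := by
    rw [← lie_skew, H.e_f]
    by_cases hij : i = j
    · subst hij
      simp
    · simp [hij, Ne.symm hij]

private theorem Wd.wt [Fintype Δ] (H : Gen α cv h e f) {γ : Δ → ℤ} {x : A} (hx : Wd e γ x)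
    (y : Y) : ⁅h y, x⁆ = (∑ i, γ i * α i y) • x := by
  have h1 : ∀ i, ∑ j, (Pi.single i 1 : Δ → ℤ) j * α j y = α i y := fun i => by
    rw [Finset.sum_eq_single i (fun j _ hj => by simp [hj]) (by simp)]
    simp
  induction hx with
  | base i => rw [h1, H.h_e]
  | @step i γ x _ ih =>
    rw [leibniz_lie, H.h_e, ih, zsmul_lie, lie_zsmul, ← add_smul]
    simp only [Pi.add_apply, add_mul, Finset.sum_add_distrib, h1]

/-- One half of the grading. -/
private def Hf (K : Type*) [Field K] [LieAlgebra K A] (h : Y →+ A) (e : Δ → A) (γ : Δ → ℤ) :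
    Submodule K A := Submodule.span K {x | Wd e γ x ∨ γ = 0 ∧ x ∈ range h}

private theorem Hf_neg (γ : Δ → ℤ) : Hf K (-h) e γ = Hf K h e γ := by
  have : range (-h : Y →+ A) = range h := by
    ext x
    exact ⟨fun ⟨y, hy⟩ => ⟨-y, by simpa using hy⟩, fun ⟨y, hy⟩ => ⟨-y, by simpa using hy⟩⟩
  rw [Hf, Hf, this]

private theorem Hf_wd {γ : Δ → ℤ} {x : A} (hx : Wd e γ x) : x ∈ Hf K h e γ :=
  Submodule.subset_span (Or.inl hx)

private theorem Hf_h (y : Y) : h y ∈ Hf K h e 0 := Submodule.subset_span (Or.inr ⟨rfl, y, rfl⟩)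

private theorem Hf_bot {γ : Δ → ℤ} (hγ : ¬ 0 ≤ γ) : Hf K h e γ = ⊥ := by
  rw [Hf, Submodule.span_eq_bot]
  rintro x (hx | ⟨rfl, -⟩)
  · exact absurd hx.pos.1 hγ
  · exact absurd le_rfl hγ

private theorem Hf_zero : Hf K h e 0 = Submodule.span K (range h) := by
  rw [Hf]
  congr 1
  ext x
  exact ⟨fun hx => hx.elim (fun h1 => absurd rfl h1.pos.2) (·.2), fun hx => Or.inr ⟨rfl, hx⟩⟩

private theorem Hf_left {γ : Δ → ℤ} {z : A} {T : Submodule K A}
    (h1 : ∀ x, Wd e γ x → ⁅z, x⁆ ∈ T) (h2 : γ = 0 → ∀ y, ⁅z, h y⁆ ∈ T) {x : A}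
    (hx : x ∈ Hf K h e γ) : ⁅z, x⁆ ∈ T := by
  induction hx using Submodule.span_induction with
  | mem x hx =>
    rcases hx with hx | ⟨h0, y, rfl⟩
    · exact h1 x hx
    · exact h2 h0 y
  | zero => simp
  | add x y _ _ hx hy =>
    rw [lie_add]
    exact T.add_mem hx hy
  | smul a x _ hx =>
    rw [lie_smul]
    exact T.smul_mem a hx

private theorem Hf_up (H : Gen α cv h e f) (i : Δ) {γ : Δ → ℤ} {x : A} (hx : x ∈ Hf K h e γ) :
    ⁅e i, x⁆ ∈ Hf K h e (Pi.single i 1 + γ) := by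
  refine Hf_left (fun x hx => Hf_wd (hx.step i)) (fun h0 y => ?_) hx
  rw [h0, add_zero, ← lie_skew, H.h_e]
  exact neg_mem (zsmul_mem (Hf_wd (.base i)) _)

private theorem Hf_down [Fintype Δ] (H : Gen α cv h e f) (i : Δ) {γ : Δ → ℤ} {x : A}
    (hx : Wd e γ x) : ⁅f i, x⁆ ∈ Hf K h e (γ - Pi.single i 1) := by
  induction hx with
  | base j =>
    rw [← lie_skew, H.e_f]
    split_ifs with hij
    · rw [hij, sub_self]
      exact neg_mem (Hf_h _)
    · simp
  | @step j γ x hx ih =>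
    rw [leibniz_lie]
    refine add_mem ?_ ?_
    · rw [← lie_skew (f i), H.e_f]
      split_ifs with hij
      · rw [hij, add_sub_cancel_left, neg_lie, hx.wt H]
        exact neg_mem (zsmul_mem (Hf_wd hx) _)
      · simp
    · rw [add_sub_assoc]
      exact Hf_up H j ih

/-- The grading. -/
private def Dd (K : Type*) [Field K] [LieAlgebra K A] (h : Y →+ A) (e f : Δ → A) (γ : Δ → ℤ) :
    Submodule K A := Hf K h e γ ⊔ Hf K h f (-γ)

private theorem Dd_swap (γ : Δ → ℤ) : Dd K (-h) f e γ = Dd K h e f (-γ) := by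
  rw [Dd, Dd, Hf_neg, Hf_neg, neg_neg, sup_comm]

private theorem Dd_ind {γ : Δ → ℤ} {T : Submodule K A} (h1 : ∀ x, Wd e γ x → x ∈ T)
    (h2 : ∀ x, Wd f (-γ) x → x ∈ T) (h3 : γ = 0 → ∀ y, h y ∈ T) : Dd K h e f γ ≤ T := by
  refine sup_le (Submodule.span_le.2 ?_) (Submodule.span_le.2 ?_)
  · rintro x (hx | ⟨h0, y, rfl⟩)
    exacts [h1 x hx, h3 h0 y]
  · rintro x (hx | ⟨h0, y, rfl⟩)
    exacts [h2 x hx, h3 (neg_eq_zero.1 h0) y]

private theorem Dd_wt [Fintype Δ] (H : Gen α cv h e f) {γ : Δ → ℤ} {x : A}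
    (hx : x ∈ Dd K h e f γ) (y : Y) : ⁅h y, x⁆ = (∑ i, γ i * α i y) • x := by
  have key : ∀ x, x ∈ LinearMap.eqLocus (LieAlgebra.ad K A (h y))
      ((∑ i, γ i * α i y) • LinearMap.id) ↔ ⁅h y, x⁆ = (∑ i, γ i * α i y) • x := fun x => by
    rw [LinearMap.mem_eqLocus, LieAlgebra.ad_apply, LinearMap.smul_apply, LinearMap.id_apply]
  refine (key x).1 (Dd_ind (fun x hx => (key x).2 (hx.wt H y)) (fun x hx => (key x).2 ?_)
    (fun h0 y' => (key _).2 ?_) hx)
  · have h1 := hx.wt H.swap y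
    simp only [AddMonoidHom.neg_apply, neg_lie, Pi.neg_apply, neg_mul, Finset.sum_neg_distrib,
      neg_smul, neg_inj] at h1
    exact h1
  · simp [h0, H.h_h]

private theorem Dd_e [Fintype Δ] (H : Gen α cv h e f) (i : Δ) {γ : Δ → ℤ} {x : A}
    (hx : x ∈ Dd K h e f γ) : ⁅e i, x⁆ ∈ Dd K h e f (Pi.single i 1 + γ) := by
  refine Dd_ind (T := (Dd K h e f (Pi.single i 1 + γ)).comap (LieAlgebra.ad K A (e i)))
    (fun x hx => ?_) (fun x hx => ?_) (fun h0 y => ?_) hx
  · exact Submodule.mem_sup_left (Hf_up H i (Hf_wd hx))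
  · have h1 := Hf_down (K := K) H.swap i hx
    rw [Hf_neg, ← neg_add', add_comm] at h1
    exact Submodule.mem_sup_right h1
  · exact Submodule.mem_sup_left (Hf_up H i (h0 ▸ Hf_h y))

private theorem Dd_wd [Fintype Δ] (H : Gen α cv h e f) {γ : Δ → ℤ} {z : A} (hz : Wd e γ z) :
    ∀ γ', ∀ x ∈ Dd K h e f γ', ⁅z, x⁆ ∈ Dd K h e f (γ + γ') := by
  induction hz with
  | base i => exact fun γ' x hx => Dd_e H i hx
  | @step i γ z _ ih =>
    intro γ' x hx
    rw [lie_lie]
    refine sub_mem ?_ ?_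
    · rw [add_assoc]
      exact Dd_e H i (ih γ' x hx)
    · rw [add_comm (Pi.single i 1) γ, add_assoc]
      exact ih _ _ (Dd_e H i hx)

private theorem Dd_pos {γ : Δ → ℤ} (h0 : 0 ≤ γ) (h1 : γ ≠ 0) :
    Dd K h e f γ ≤ Submodule.span K ({x | ∃ i, γ = Pi.single i 1 ∧ x = e i} ∪
      {x | ∃ i γ', 0 ≤ γ' ∧ γ' ≠ 0 ∧ γ = Pi.single i 1 + γ' ∧
        ∃ z ∈ Dd K h e f γ', x = ⁅e i, z⁆}) := by
  refine Dd_ind (fun x hx => Submodule.subset_span ?_) (fun x hx => ?_) fun h2 => absurd h2 h1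
  · cases hx with
    | base i => exact Or.inl ⟨i, rfl, rfl⟩
    | @step i γ z hz =>
      exact Or.inr ⟨i, γ, hz.pos.1, hz.pos.2, rfl, z, Submodule.mem_sup_left (Hf_wd hz), rfl⟩
  · exact absurd (le_antisymm (neg_nonneg.1 hx.pos.1) h0) h1

end Words

theorem Gen.exists_tri {Δ : Type*} [Fintype Δ] [DecidableEq Δ] {α : Δ → Y →+ ℤ} {cv : Δ → Y}
    {e f : Δ → A} (H : Gen α cv h e f) (K : Type*) [Field K] [LieAlgebra K A] :
    ∃ D, Tri α K h e f D := by
  refine ⟨Dd K h e f, fun γ γ' x hx x' hx' => ?_,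
    fun i => Submodule.mem_sup_left (Hf_wd (.base i)),
    fun i => Submodule.mem_sup_right (Hf_wd (by rw [neg_neg]; exact .base i)), ?_,
    fun γ hγ => ?_, fun γ h0 h1 => Dd_pos h0 h1, fun γ h0 h1 => ?_,
    fun γ x hx y => Dd_wt H hx y⟩
  · have key : x ∈ (Dd K h e f (γ + γ')).comap (LieAlgebra.ad K A x') := by
      refine Dd_ind (fun z hz => ?_) (fun z hz => ?_) (fun h0 y => ?_) hx
      · show ⁅x', z⁆ ∈ Dd K h e f (γ + γ')
        rw [← lie_skew]
        exact neg_mem (Dd_wd H hz γ' x' hx')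
      · show ⁅x', z⁆ ∈ Dd K h e f (γ + γ')
        have h1 := Dd_wd (K := K) H.swap hz (-γ') x' (by rwa [Dd_swap, neg_neg])
        rw [Dd_swap, ← neg_add, neg_neg] at h1
        rw [← lie_skew]
        exact neg_mem h1
      · show ⁅x', h y⁆ ∈ Dd K h e f (γ + γ')
        rw [← lie_skew, Dd_wt H hx', h0, zero_add]
        exact neg_mem (zsmul_mem hx' _)
    rw [← lie_skew]
    exact neg_mem key
  · rw [Dd, neg_zero, Hf_zero, Hf_zero, sup_idem]
  · by_contra hn
    rw [not_or] at hn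
    exact hγ (by rw [Dd, Hf_bot hn.1, Hf_bot fun h1 => hn.2 (neg_nonneg.1 h1), sup_idem])
  · have h2 := Dd_pos (K := K) (h := -h) (e := f) (f := e) h0 h1
    simpa only [Dd_swap] using h2

variable [Finite ι] {P : RootDatum ι X Y} [P.IsReduced] {r : ℕ} {c : Module.Basis (Fin r) ℤ Y}
  {e : ι → A}

theorem WC.ne_zero (H : WC P c K h e) (i : ι) : e i ≠ 0 := by
  exact H.li.ne_zero (Sum.inr i)

theorem WC.string (H : WC P c K h e) {i i' j l : ι} (hi : P.root i' = -P.root i)
    (hl : P.root i + P.root j = P.root l) {N N' : K} (hN : ⁅e i, e j⁆ = N • e l)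
    (hN' : ⁅e i', e l⁆ = N' • e j) :
    N * N' = (((P.chainBotCoeff i j + 1) * P.chainTopCoeff i j : ℕ) : K) := by
  induction hn : P.chainBotCoeff i j using Nat.strong_induction_on generalizing j l N N' with
  | _ n ih =>
  subst hn
  have hli : LinearIndependent ℤ ![P.root i, P.root j] :=
    P.linearIndependent_of_add_mem_range_root' ⟨l, hl.symm⟩
  have hp := RootPairing.chainBotCoeff_sub_chainTopCoeff hli
  have hp' : P.pairingIn ℤ j i = P.toLinearMap (P.root j) (P.coroot i) := by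
    rw [P.root_coroot_eq_pairing, ← P.algebraMap_pairingIn ℤ]
    rfl
  have hJ := lie_lie (e i) (e i') (e j)
  rw [H.e_neg i i' hi, H.h_e, hN, lie_smul, hN', smul_smul, ← hp', ← hp,
    ← Int.cast_smul_eq_zsmul K] at hJ
  refine smul_left_injective K (H.ne_zero j) ?_
  by_cases hk : P.root j - P.root i ∈ range P.root
  · obtain ⟨k, hk⟩ := hk
    have h1 : P.root i + P.root k = P.root j := by rw [hk]; abel
    obtain ⟨M, hM⟩ := H.e_e i k j h1
    obtain ⟨M', hM'⟩ := H.e_e i' j k (by rw [hi, hk]; abel)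
    have hli' : LinearIndependent ℤ ![P.root i, P.root k] :=
      P.linearIndependent_of_add_mem_range_root' ⟨j, h1.symm⟩
    have h2 := RootPairing.chainBotCoeff_of_add hli' (k := j) (by rw [← h1, add_comm])
    have h3 := RootPairing.chainTopCoeff_of_add hli' (k := j) (by rw [← h1, add_comm])
    have h4 := ih _ (by omega) h1 hM hM' rfl
    rw [hM', lie_smul, hM, smul_smul, mul_comm M' M, h4, ← h2, h3, ← sub_smul] at hJ
    have h5 := smul_left_injective K (H.ne_zero j) hJ
    push_cast at h5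
    refine congrArg (· • e j) ?_
    push_cast
    linear_combination h5
  · have h1 : P.chainBotCoeff i j = 0 := RootPairing.chainBotCoeff_eq_zero_iff.2 (Or.inr hk)
    have h2 : P.root i' + P.root j = P.root j - P.root i := by rw [hi]; abel
    have h3 : P.root j - P.root i ≠ 0 := fun h0 => by
      have := (LinearIndependent.pair_iff.1 hli 1 (-1) (by
        rw [sub_eq_zero.1 h0]
        simp)).1
      exact one_ne_zero this
    rw [H.e_zero i' j (h2 ▸ h3) (h2 ▸ hk), lie_zero, zero_sub, ← neg_smul, h1] at hJ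
    have h5 := smul_left_injective K (H.ne_zero j) hJ
    rw [h1]
    push_cast at h5
    refine congrArg (· • e j) ?_
    push_cast
    linear_combination h5

theorem WC.gen [DecidableEq ι] (H : WC P c K h e) (b : P.Base) :
    Gen (fun i : b.support => rt P i) (fun i => P.coroot i) h (fun i => e i)
      fun i => e (P.reflectionPerm i i) := by
  refine ⟨H.h_h, fun y i => H.h_e y i, fun y i => ?_, fun i j => ?_⟩
  · rw [H.h_e, rt_apply]
    simp
  · split_ifs with hij
    · subst hij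
      exact H.e_neg _ _ (by simp)
    · have h1 : P.root i + P.root (P.reflectionPerm j j) = P.root i - P.root j := by
        simp [sub_eq_add_neg]
      refine H.e_zero _ _ ?_ ?_
      · rw [h1]
        exact fun h0 => hij (Subtype.ext (P.root.injective (sub_eq_zero.1 h0)))
      · rw [h1]
        exact b.sub_notMem_range_root i.2 j.2

theorem WC.scale (H : WC P c K h e) (s : ι → Kˣ)
    (hs : ∀ i j, P.root j = -P.root i → s i * s j = 1) :
    WC P c K h fun i => (s i : K) • e i := by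
  refine ⟨?_, H.h_h, fun y i => ?_, fun i j hij => ?_, fun i j l hl => ?_, fun i j h1 h2 => ?_⟩
  · convert H.li.units_smul (Sum.elim (fun _ => 1) s) using 1
    funext x
    rcases x with a | i
    · simp
    · rfl
  · rw [lie_smul, H.h_e, smul_comm]
  · rw [smul_lie, lie_smul, smul_smul, ← Units.val_mul, hs i j hij, H.e_neg i j hij]
    simp
  · obtain ⟨N, hN⟩ := H.e_e i j l hl
    refine ⟨s i * s j * N * (s l)⁻¹, ?_⟩
    rw [smul_lie, lie_smul, hN, smul_smul, smul_smul, smul_smul]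
    congr 1
    simp
  · rw [smul_lie, lie_smul, H.e_zero i j h1 h2, smul_zero, smul_zero]

theorem WC.flip (H : WC P c K h e) : WC P c K (-h) fun i => -e (P.reflectionPerm i i) := by
  have hr : ∀ i, P.root (P.reflectionPerm i i) = -P.root i := fun i => by simp
  refine ⟨?_, fun y y' => by simp [H.h_h], fun y i => ?_, fun i j hij => ?_,
    fun i j l hl => ?_, fun i j h1 h2 => ?_⟩
  · have hinj : Function.Injective fun i => P.reflectionPerm i i := fun i j hij =>
      P.root.injective (neg_injective (by rw [← hr, ← hr]; exact congrArg P.root hij))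
    convert (H.li.comp (Sum.map id fun i => P.reflectionPerm i i)
      (Function.injective_id.sumMap hinj)).units_smul (fun _ => -1) using 1
    funext x
    rcases x with a | i <;> simp
  · rw [AddMonoidHom.neg_apply, neg_lie, lie_neg, neg_neg, H.h_e, hr]
    simp
  · rw [neg_lie, lie_neg, neg_neg, H.e_neg _ _ (by rw [hr, hr, hij])]
    simp
  · obtain ⟨N, hN⟩ := H.e_e (P.reflectionPerm i i) (P.reflectionPerm j j) (P.reflectionPerm l l)
      (by rw [hr, hr, hr, ← hl, neg_add])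
    exact ⟨-N, by rw [neg_lie, lie_neg, neg_neg, hN, neg_smul_neg]⟩
  · have h3 : P.root (P.reflectionPerm i i) + P.root (P.reflectionPerm j j) =
        -(P.root i + P.root j) := by rw [hr, hr, neg_add]
    rw [neg_lie, lie_neg, neg_neg]
    refine H.e_zero _ _ ?_ ?_
    · rw [h3]
      exact neg_ne_zero.2 h1
    · rwa [h3, P.neg_mem_range_root_iff]

end Pool.Agent.AG
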