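import Pool.Agent.Lib.AG.ChC

/-! The theorem of Serre for a finite dimensional realisation of the generators. -/

namespace Pool.Agent.AG

open Set

section

variable {K L : Type*} [Field K] [CharZero K] [LieRing L] [LieAlgebra K L]

private theorem chd_exp (z : L) (hz : IsNilpotent (LieAlgebra.ad K L z)) :
    ∃ E : L ≃ₗ⁅K⁆ L, ∀ x, ⁅z, ⁅z, ⁅z, x⁆⁆⁆ = 0 → E x = x + ⁅z, x⁆ + (2⁻¹ : K) • ⁅z, ⁅z, x⁆⁆ := by
  let _ : Module ℚ L := Module.compHom L (algebraMap ℚ K)
  let _ : LieAlgebra ℚ L := ⟨fun t x y => lie_smul (algebraMap ℚ K t) x y⟩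
  have hz' : IsNilpotent (LieDerivation.ad K L z).toLinearMap := by simpa using hz
  refine ⟨LieDerivation.exp _ hz', fun x hx => ?_⟩
  have := IsNilpotent.exp_smul_eq_sum (k := 3) (m := x) (by simpa [pow_succ] using hx) hz'
  rw [LieDerivation.exp_map_apply]
  refine this.trans ?_
  simp only [Finset.sum_range_succ, Finset.range_zero, Finset.sum_empty, pow_succ]
  simp
  change algebraMap ℚ K 2⁻¹ • ⁅z, ⁅z, x⁆⁆ = _
  simp

private theorem chd_theta {e f H : L} (he : IsNilpotent (LieAlgebra.ad K L e))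
    (hf : IsNilpotent (LieAlgebra.ad K L f)) (ef : ⁅e, f⁆ = H) (He : ⁅H, e⁆ = (2 : ℤ) • e)
    (Hf : ⁅H, f⁆ = -((2 : ℤ) • f)) : ∃ θ : L ≃ₗ⁅K⁆ L, ∀ (x : L) (a : ℤ), ⁅x, e⁆ = a • e →
      ⁅x, f⁆ = -(a • f) → θ x = x - a • H := by
  obtain ⟨E, hE⟩ := chd_exp e he
  obtain ⟨F, hF⟩ := chd_exp (K := K) (-f) (by simpa using hf.neg)
  have E1 : ∀ (x : L) (a : ℤ), ⁅x, e⁆ = a • e → E x = x - a • e := fun x a hx => by
    have : ⁅e, x⁆ = -(a • e) := by rw [← lie_skew, hx]
    rw [hE x (by simp [this])]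
    simp [this, sub_eq_add_neg]
  have F1 : ∀ (x : L) (a : ℤ), ⁅x, f⁆ = -(a • f) → F x = x - a • f := fun x a hx => by
    have : ⁅f, x⁆ = a • f := by rw [← lie_skew, hx, neg_neg]
    rw [hF x (by simp [this])]
    simp [this, sub_eq_add_neg]
  have F2 : F e = e + H - f := by
    have h1 : ⁅f, e⁆ = -H := by rw [← lie_skew, ef]
    have h2 : ⁅f, H⁆ = (2 : K) • f := by rw [← lie_skew, Hf, neg_neg, two_smul, two_smul]
    rw [hF e (by simp [h1, h2])]
    simp [h1, h2, sub_eq_add_neg, smul_smul]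
  refine ⟨(E.trans F).trans E, fun x a h1 h2 => ?_⟩
  rw [LieEquiv.trans_apply, LieEquiv.trans_apply, E1 x a h1, map_sub, map_zsmul, F1 x a h2, F2,
    show x - a • f - a • (e + H - f) = x - a • e - a • H by module, map_sub, map_sub, map_zsmul,
    map_zsmul, E1 x a h1, E1 e 0 (by simp), E1 H 2 He]
  module

omit [CharZero K] in
private theorem chd_multi {Δ : Type*} [DecidableEq Δ] {D : (Δ → ℤ) → Submodule K L} {e : Δ → L}
    (hD : ∀ γ, 0 ≤ γ → γ ≠ 0 → D γ ≤ Submodule.span K ({x | ∃ i, γ = Pi.single i 1 ∧ x = e i} ∪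
      {x | ∃ i γ', 0 ≤ γ' ∧ γ' ≠ 0 ∧ γ = Pi.single i 1 + γ' ∧ ∃ z ∈ D γ', x = ⁅e i, z⁆}))
    (i : Δ) (k : ℕ) : D (Pi.single i (k + 1)) ≤ if k = 0 then K ∙ e i else ⊥ := by
  induction k using Nat.strong_induction_on with | _ k ih
  refine (hD _ (Pi.single_nonneg.2 (by omega)) (Pi.single_ne_zero_iff.2 (by omega))).trans
    (Submodule.span_le.2 ?_)
  have key : ∀ j γ', 0 ≤ γ' → (Pi.single i (k + 1) : Δ → ℤ) = Pi.single j 1 + γ' →
      j = i ∧ γ' = Pi.single i k := fun j γ' h0 h1 => by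
    obtain rfl : j = i := by
      by_contra hj
      have h2 := congrFun h1 j
      have h3 : 0 ≤ γ' j := h0 j
      simp [hj] at h2
      omega
    rw [add_comm (k : ℤ), Pi.single_add] at h1
    exact ⟨rfl, (add_left_cancel h1).symm⟩
  rintro _ (⟨j, h1, rfl⟩ | ⟨j, γ', h0, h1, h2, z, hz, rfl⟩)
  · obtain ⟨rfl, h2⟩ := key j 0 le_rfl (by rw [h1, add_zero])
    rw [if_pos (by simpa using h2.symm)]
    exact Submodule.mem_span_singleton_self _
  · obtain ⟨rfl, rfl⟩ := key j γ' h0 h2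
    obtain _ | k := k
    · simp at h1
    have h3 := ih k (by omega) (by simpa using hz)
    have : ⁅e j, z⁆ = 0 := by
      split_ifs at h3
      · obtain ⟨t, rfl⟩ := Submodule.mem_span_singleton.1 h3
        simp
      · simp [(Submodule.mem_bot K).1 h3]
    rw [this]
    exact zero_mem _

end

variable {ι X Y : Type*} [Fintype ι] [DecidableEq ι] [AddCommGroup X] [AddCommGroup Y]
  {P : RootDatum ι X Y} [P.IsReduced] (b : P.Base) {r : ℕ} (c : Module.Basis (Fin r) ℤ Y)
  {K : Type*} [Field K] [CharZero K] {A : Type*} [LieRing A] [LieAlgebra K A]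
  [FiniteDimensional K A] {h : Y →+ A} {e f : b.support → A}
  {D : (b.support → ℤ) → Submodule K A}

section

omit [Fintype ι] [DecidableEq ι] [P.IsReduced]

/-- the element of the root lattice with given coordinates -/
private noncomputable def chdX : (b.support → ℤ) →ₗ[ℤ] X :=
  Fintype.linearCombination ℤ fun i : b.support => P.root i

private theorem chdX_inj : Function.Injective (chdX b) :=
  linearIndependent_iff_injective_fintypeLinearCombination.1 b.linearIndepOn_root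

private theorem chdX_apply (γ : b.support → ℤ) (y : Y) :
    P.toLinearMap (chdX b γ) y = ∑ i, γ i * rt P i y := by
  simp [chdX, Fintype.linearCombination_apply, rt_apply]

private theorem chdX_root (β : ι) : ∃ γ, chdX b γ = P.root β := by
  obtain ⟨g, -, -, hg⟩ := b.exists_root_eq_sum_int β
  exact ⟨fun i => g i, by rw [hg, ← Finset.sum_coe_sort]; rfl⟩

/-- weight vectors in a subspace -/
private def chdW (P : RootDatum ι X Y) (h : Y →+ A) (L : Submodule K A) (x : X) :
    Submodule K A := L ⊓ ⨅ y, Module.End.eigenspace (LieAlgebra.ad K A (h y)) (P.toLinearMap x y)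

omit [CharZero K] [FiniteDimensional K A] in
private theorem mem_chdW {L : Submodule K A} {x : X} {a : A} :
    a ∈ chdW P h L x ↔ a ∈ L ∧ ∀ y, ⁅h y, a⁆ = P.toLinearMap x y • a := by
  simp [chdW, Int.cast_smul_eq_zsmul]

omit [FiniteDimensional K A] in
private theorem chdW_indep (hh : ∀ y y', ⁅h y, h y'⁆ = 0) (L : Submodule K A) :
    iSupIndep (chdW P h L) := by
  refine ((Module.End.independent_iInf_maxGenEigenspace_of_forall_mapsTo
    (fun y => LieAlgebra.ad K A (h y)) fun y y' φ =>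
      Module.End.mapsTo_maxGenEigenspace_of_comm ?_ φ).comp
        (f := fun (x : X) (y : Y) => (P.toLinearMap x y : K)) fun x x' hx => ?_).mono fun x => ?_
  · exact LinearMap.ext fun a => by simp [leibniz_lie (h y'), hh]
  · exact P.toPerfPair.injective (LinearMap.ext fun y => Int.cast_injective (congrFun hx y))
  · exact inf_le_right.trans (iInf_mono fun y => Module.End.genEigenspace_le_maximal _ _ 1)

end

omit [Fintype ι] [P.IsReduced] in
private theorem chdX_single (i : b.support) (n : ℤ) : chdX b (Pi.single i n) = n • P.root i :=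
  Fintype.linearCombination_apply_single _ _ _ _

omit [Fintype ι] [P.IsReduced] in
private theorem chdX_refl (γ : b.support → ℤ) (i : b.support) :
    chdX b (γ - Pi.single i (∑ j, γ j * P.pairing j i)) = P.reflection i (chdX b γ) := by
  rw [map_sub, chdX_single, RootPairing.reflection_apply]
  exact congrArg (fun n : ℤ => chdX b γ - n • P.root i) (chdX_apply b γ _).symm

omit [DecidableEq ι] [P.IsReduced] in
private theorem chdX_pos {γ : b.support → ℤ} (h0 : 0 ≤ γ) (h1 : γ ≠ 0) :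
    ∃ i : b.support, 0 < ∑ j, γ j * P.pairing j i := by
  have h2 := P.rootForm_pos_of_ne_zero (x := chdX b γ)
    (sum_mem fun i _ => Submodule.smul_mem _ _ (Submodule.subset_span (mem_range_self _)))
    fun h => h1 (chdX_inj b (h.trans (map_zero _).symm))
  by_contra! hc
  refine h2.not_ge ?_
  nth_rw 2 [show chdX b γ = ∑ i, γ i • P.root i from rfl]
  rw [map_sum]
  refine Finset.sum_nonpos fun i _ => ?_
  rw [map_smul]
  refine mul_nonpos_of_nonneg_of_nonpos (h0 i) ?_
  have h3 : 2 * P.RootForm (chdX b γ) (P.root i) =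
      (∑ j, γ j * P.pairing j i) * P.RootForm (P.root i) (P.root i) := by
    rw [chdX, Fintype.linearCombination_apply, map_sum, LinearMap.sum_apply, Finset.mul_sum,
      Finset.sum_mul]
    refine Finset.sum_congr rfl fun j _ => ?_
    rw [map_smul, LinearMap.smul_apply, smul_eq_mul, mul_left_comm, mul_assoc]
    exact congrArg _ (P.toInvariantForm.two_mul_apply_root_root j i)
  have := mul_nonpos_of_nonpos_of_nonneg (hc i) (P.zero_le_rootForm (P.root i))
  omega

section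

omit [Fintype ι] [P.IsReduced]

variable {b} (H : Gen (fun i : b.support => rt P i) (fun i => P.coroot i) h e f)
  (T : Tri (fun i : b.support => rt P i) K h e f D)

include T

section

omit [CharZero K] [FiniteDimensional K A]

private theorem chd_lie {a a' : A} (ha : a ∈ ⨆ γ, D γ) (ha' : a' ∈ ⨆ γ, D γ) :
    ⁅a, a'⁆ ∈ ⨆ γ, D γ := by
  induction ha using Submodule.iSup_induction' with
  | zero => simp
  | add x y _ _ hx hy => rw [add_lie]; exact add_mem hx hy
  | mem γ x hx =>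
    induction ha' using Submodule.iSup_induction' with
    | zero => simp
    | add x y _ _ hx hy => rw [lie_add]; exact add_mem hx hy
    | mem γ' x' hx' => exact Submodule.mem_iSup_of_mem _ (T.lie_mem _ _ _ hx _ hx')

private theorem chdW_lie {x x' : X} {a a' : A} (ha : a ∈ chdW P h (⨆ γ, D γ) x)
    (ha' : a' ∈ chdW P h (⨆ γ, D γ) x') : ⁅a, a'⁆ ∈ chdW P h (⨆ γ, D γ) (x + x') := by
  rw [mem_chdW] at ha ha' ⊢
  refine ⟨chd_lie T ha.1 ha'.1, fun y => ?_⟩
  rw [leibniz_lie, ha.2, ha'.2, map_add, LinearMap.add_apply, add_smul, zsmul_lie, lie_zsmul]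

private theorem chd_le (γ : b.support → ℤ) : D γ ≤ chdW P h (⨆ γ, D γ) (chdX b γ) :=
  fun a ha => mem_chdW.2 ⟨Submodule.mem_iSup_of_mem _ ha, fun y => by
    rw [chdX_apply, T.wt γ a ha]⟩

private theorem chd_h (y : Y) : h y ∈ D 0 := T.zero ▸ Submodule.subset_span (mem_range_self y)

end

include H

omit [FiniteDimensional K A] in
private theorem chd_eq (γ : b.support → ℤ) : chdW P h (⨆ γ, D γ) (chdX b γ) = D γ := by
  refine le_antisymm (fun a ha => ?_) (chd_le T γ)
  have h1 := (mem_chdW.1 ha).1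
  rw [iSup_split_single D γ] at h1
  obtain ⟨u, hu, v, hv, rfl⟩ := Submodule.mem_sup.1 h1
  have h2 : v = 0 := Submodule.disjoint_def.1 (chdW_indep H.h_h (⨆ γ, D γ) (chdX b γ)) v
    (by simpa using sub_mem ha (chd_le T γ hu))
    ((iSup₂_le fun γ' h' => (chd_le T γ').trans
      (le_iSup₂_of_le (chdX b γ') (fun e => h' (chdX_inj b e)) le_rfl) : _ ≤ _) hv)
  rwa [h2, add_zero]

private theorem chd_nilp {x₀ : X} {y : Y} (hy : P.toLinearMap x₀ y ≠ 0) {z : A}
    (hz : z ∈ chdW P h (⨆ γ, D γ) x₀) {a : A} (ha : a ∈ ⨆ γ, D γ) :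
    ∃ n : ℕ, (LieAlgebra.ad K A z ^ n) a = 0 := by
  induction ha using Submodule.iSup_induction' with
  | zero => exact ⟨0, map_zero _⟩
  | add x y _ _ hx hy =>
    obtain ⟨m, hm⟩ := hx
    obtain ⟨n, hn⟩ := hy
    refine ⟨m + n, ?_⟩
    rw [map_add, pow_add, Module.End.mul_apply _ _ y, hn, ← pow_add, add_comm m, pow_add,
      Module.End.mul_apply, hm, map_zero, map_zero, add_zero]
  | mem γ a ha =>
    have h1 : ∀ n : ℕ, (LieAlgebra.ad K A z ^ n) a ∈ chdW P h (⨆ γ, D γ) (n • x₀ + chdX b γ) := by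
      intro n
      induction n with
      | zero => simpa using chd_le T γ ha
      | succ n ih =>
        rw [pow_succ', succ_nsmul', add_assoc]
        exact chdW_lie T hz ih
    by_contra! hc
    refine infinite_of_injective_forall_mem (s := {x | chdW P h (⨆ γ, D γ) x ≠ ⊥})
      (f := fun n : ℕ => n • x₀ + chdX b γ)
      (fun m n e => ?_) (fun n (e : _ = ⊥) => hc n ?_)
      (WellFoundedGT.finite_ne_bot_of_iSupIndep (chdW_indep (P := P) H.h_h (⨆ γ, D γ)))
    · simpa [hy] using congrArg (P.toLinearMap · y) e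
    · simpa [e] using h1 n

private theorem chd_refl (i : b.support) :
    ∃ θ : A →ₗ[K] A, (∀ x ∈ ⨆ γ, D γ, θ x = 0 → x = 0) ∧
      (∀ x ∈ ⨆ γ, D γ, ∀ x' ∈ ⨆ γ, D γ, θ ⁅x, x'⁆ = ⁅θ x, θ x'⁆) ∧
      (∀ y, θ (h y) = h (P.coreflection i y)) ∧
      ∀ x, ∀ a ∈ chdW P h (⨆ γ, D γ) x, θ a ∈ chdW P h (⨆ γ, D γ) (P.reflection i x) := by
  let L : LieSubalgebra K A := { (⨆ γ, D γ) with lie_mem' := chd_lie T }
  have nil : ∀ (x₀ : X) (z : L), P.toLinearMap x₀ (P.coroot i) ≠ 0 →
      z.1 ∈ chdW P h (⨆ γ, D γ) x₀ → IsNilpotent (LieAlgebra.ad K L z) := fun x₀ z h1 h2 => by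
    refine Module.End.isNilpotent_iff_of_finite.2 fun a => ?_
    obtain ⟨n, hn⟩ := chd_nilp H T h1 h2 a.2
    refine ⟨n, Subtype.ext (Eq.trans ?_ hn)⟩
    clear hn
    induction n with
    | zero => rfl
    | succ n ih => simp [pow_succ', ih]
  have hm : ∀ y, h y ∈ L := fun y => Submodule.mem_iSup_of_mem _ (chd_h T y)
  obtain ⟨θ, hθ⟩ := chd_theta (K := K) (L := L)
    (e := ⟨e i, Submodule.mem_iSup_of_mem _ (T.e_mem i)⟩)
    (f := ⟨f i, Submodule.mem_iSup_of_mem _ (T.f_mem i)⟩) (H := ⟨h (P.coroot i), hm _⟩)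
    (nil _ _ (by simp [chdX_single]) (chd_le T _ (T.e_mem i)))
    (nil _ _ (by simp [chdX_single]) (chd_le T _ (T.f_mem i)))
    (Subtype.ext (by simpa using H.e_f i i))
    (Subtype.ext (by simpa [rt_apply] using H.h_e (P.coroot i) i))
    (Subtype.ext (by simpa [rt_apply] using H.h_f (P.coroot i) i))
  obtain ⟨g, hg⟩ := LinearMap.exists_extend (p := ⨆ γ, D γ) (L.incl.toLinearMap ∘ₗ θ.toLinearMap)
  replace hg : ∀ a : L, g a = θ a := fun a => LinearMap.congr_fun hg a
  have g2 : ∀ x ∈ ⨆ γ, D γ, ∀ x' ∈ ⨆ γ, D γ, g ⁅x, x'⁆ = ⁅g x, g x'⁆ := fun x hx x' hx' => by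
    rw [hg ⟨x, hx⟩, hg ⟨x', hx'⟩, ← LieSubalgebra.coe_bracket, ← LieEquiv.map_lie, ← hg]
    rfl
  have g3 : ∀ y, g (h y) = h (P.coreflection i y) := fun y => by
    rw [hg ⟨_, hm y⟩, hθ _ (rt P i y) (Subtype.ext (H.h_e y i)) (Subtype.ext (H.h_f y i)),
      RootPairing.coreflection_apply, map_sub, map_zsmul]
    rfl
  refine ⟨g, fun x hx h0 => ?_, g2, g3, fun x a ha => ?_⟩
  · rw [hg ⟨x, hx⟩] at h0
    exact congrArg Subtype.val (θ.injective ((Subtype.ext h0).trans (map_zero θ).symm))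
  · rw [mem_chdW] at ha ⊢
    refine ⟨hg ⟨a, ha.1⟩ ▸ (θ _).2, fun y => ?_⟩
    have := g2 _ (hm (P.coreflection i y)) a ha.1
    rw [g3, RootPairing.coreflection_same, ha.2, map_zsmul] at this
    rw [← this]
    congr 1
    simp [RootPairing.reflection_apply, RootPairing.coreflection_apply, mul_comm]

end

/-- The simple reflections are induced by injective linear maps that respect brackets. -/
theorem Tri.exists_refl (H : Gen (fun i : b.support => rt P i) (fun i => P.coroot i) h e f)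
    (T : Tri (fun i : b.support => rt P i) K h e f D) (i : b.support) :
    ∃ θ : A →ₗ[K] A, (∀ x ∈ ⨆ γ, D γ, θ x = 0 → x = 0) ∧
      (∀ x ∈ ⨆ γ, D γ, ∀ x' ∈ ⨆ γ, D γ, θ ⁅x, x'⁆ = ⁅θ x, θ x'⁆) ∧
      (∀ y, θ (h y) = h (P.coreflection i y)) ∧
      ∀ γ, ∀ x ∈ D γ, θ x ∈ D (γ - Pi.single i (∑ j, γ j * P.pairing j i)) := by
  obtain ⟨θ, h1, h2, h3, h4⟩ := chd_refl H T i
  refine ⟨θ, h1, h2, h3, fun γ x hx => ?_⟩
  rw [← chd_eq H T, chdX_refl]
  exact h4 _ x (chd_le T γ hx)

/-- any two vectors are proportional -/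
private def chdOne (U : Submodule K A) : Prop := ∀ z ∈ U, z ≠ 0 → U ≤ K ∙ z

omit [CharZero K] [FiniteDimensional K A] in
private theorem chdOne_span {U : Submodule K A} {x : A} (hU : U ≤ K ∙ x) : chdOne U := by
  intro z hz h0
  obtain ⟨t, rfl⟩ := Submodule.mem_span_singleton.1 (hU hz)
  rwa [Submodule.span_singleton_smul_eq (IsUnit.mk0 t (left_ne_zero_of_smul h0))]

omit [CharZero K] [FiniteDimensional K A] in
private theorem chdOne_map {L U V : Submodule K A} {θ : A →ₗ[K] A} (hθ : ∀ x ∈ L, θ x = 0 → x = 0)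
    (hU : U ≤ L) (hUV : ∀ a ∈ U, θ a ∈ V) (hV : chdOne V) : chdOne U := by
  intro z hz h0 z' hz'
  obtain ⟨t, ht⟩ := Submodule.mem_span_singleton.1
    (hV _ (hUV z hz) (fun h1 => h0 (hθ z (hU hz) h1)) (hUV z' hz'))
  refine Submodule.mem_span_singleton.2 ⟨t, sub_eq_zero.1 (hθ _ (hU ?_) ?_)⟩
  · exact sub_mem (U.smul_mem t hz) hz'
  · rw [map_sub, map_smul, ht, sub_self]

section

variable {b} (H : Gen (fun i : b.support => rt P i) (fun i => P.coroot i) h e f)
  (T : Tri (fun i : b.support => rt P i) K h e f D)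

include H T

private theorem chd_root (β : ι) : chdOne (chdW P h (⨆ γ, D γ) (P.root β)) ∧
    chdOne (chdW P h (⨆ γ, D γ) (-P.root β)) ∧ ∃ x ∈ chdW P h (⨆ γ, D γ) (P.root β),
      ∃ x' ∈ chdW P h (⨆ γ, D γ) (-P.root β), ⁅x, x'⁆ = h (P.coroot β) := by
  induction β using b.induction_reflect with
  | h₀ i hi =>
    obtain ⟨h1, h2, x, hx, x', hx', h3⟩ := hi
    rw [RootPairing.root_reflectionPerm, RootPairing.reflection_apply_self, neg_neg,
      RootPairing.coroot_reflectionPerm, RootPairing.coreflection_apply_self, map_neg]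
    exact ⟨h2, h1, x', hx', x, hx, by rw [← lie_skew, h3]⟩
  | h₁ i hi =>
    have h1 : P.root i = chdX b (Pi.single ⟨i, hi⟩ 1) := by rw [chdX_single, one_smul]
    rw [h1, ← map_neg, chd_eq H T, chd_eq H T]
    exact ⟨chdOne_span (by simpa using chd_multi T.pos ⟨i, hi⟩ 0),
      chdOne_span (by simpa using chd_multi (D := fun γ => D (-γ)) T.neg ⟨i, hi⟩ 0),
      _, T.e_mem _, _, T.f_mem _, by simpa using H.e_f ⟨i, hi⟩ ⟨i, hi⟩⟩
  | h₂ i j hi hj =>
    obtain ⟨h1, h2, x, hx, x', hx', h3⟩ := hi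
    obtain ⟨θ, t1, t2, t3, t4⟩ := chd_refl H T ⟨j, hj⟩
    rw [RootPairing.root_reflectionPerm, RootPairing.coroot_reflectionPerm, ← map_neg]
    refine ⟨chdOne_map t1 inf_le_left (fun a ha => ?_) h1,
      chdOne_map t1 inf_le_left (fun a ha => ?_) h2, _, t4 _ _ hx, _, t4 _ _ hx', ?_⟩
    · simpa only [RootPairing.reflection_same] using t4 _ _ ha
    · simpa only [RootPairing.reflection_same] using t4 _ _ ha
    · rw [← t2 _ hx.1 _ hx'.1, h3, t3]

omit [P.IsReduced] in
private theorem chd_serre (n : ℕ) : ∀ γ : b.support → ℤ, 0 ≤ γ → γ ≠ 0 → ∑ i, γ i ≤ (n : ℤ) →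
    D γ ≠ ⊥ ∨ D (-γ) ≠ ⊥ → chdX b γ ∈ range P.root := by
  induction n with
  | zero =>
    exact fun γ h0 h1 h2 _ => absurd (funext fun i => (Finset.sum_eq_zero_iff_of_nonneg
      fun i _ => h0 i).1 (h2.antisymm (Finset.sum_nonneg fun i _ => h0 i)) i (Finset.mem_univ i)) h1
  | succ n ih =>
    intro γ h0 h1 h2 h3
    obtain ⟨i, hi⟩ := chdX_pos b h0 h1
    obtain ⟨θ, t1, -, -, t4⟩ := chd_refl H T i
    have e1 := chdX_refl b γ i
    generalize ∑ j, γ j * P.pairing j i = m at hi e1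
    have key : ∀ δ δ', chdX b δ' = P.reflection i (chdX b δ) → D δ ≠ ⊥ → D δ' ≠ ⊥ := by
      intro δ δ' e2 hδ
      obtain ⟨a, ha, a0⟩ := (Submodule.ne_bot_iff _).1 hδ
      refine (Submodule.ne_bot_iff _).2
        ⟨θ a, ?_, fun h4 => a0 (t1 a (Submodule.mem_iSup_of_mem _ ha) h4)⟩
      rw [← chd_eq H T, e2]
      exact t4 _ _ (chd_le T _ ha)
    have h4 : D (γ - Pi.single i m) ≠ ⊥ ∨ D (-(γ - Pi.single i m)) ≠ ⊥ :=
      h3.imp (key _ _ e1) (key _ _ (by rw [map_neg, map_neg, map_neg, e1]))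
    have h5 : 0 ≤ γ - Pi.single i m ∨ γ - Pi.single i m ≤ 0 :=
      h4.elim (T.sign _) fun h6 => (T.sign _ h6).symm.imp neg_nonpos.1 neg_nonneg.1
    rcases h5 with h5 | h5
    · obtain ⟨k, hk⟩ := ih _ h5 (fun h6 => h1 (chdX_inj b ((P.reflection i).injective
        (by rw [← e1, h6, map_zero, map_zero])))) (by
          simp only [Pi.sub_apply, Finset.sum_sub_distrib, Finset.sum_pi_single', Finset.mem_univ,
            if_true]
          omega) h4
      exact ⟨P.reflectionPerm i k, by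
        rw [RootPairing.root_reflectionPerm, hk, e1, RootPairing.reflection_same]⟩
    · have h6 : γ = Pi.single i (γ i) := funext fun j => by
        rcases eq_or_ne j i with rfl | hj
        · simp
        · simpa [hj] using le_antisymm (by simpa [hj] using h5 j) (h0 j)
      have h7 : 0 ≤ γ i := h0 i
      have h8 : γ i ≠ 0 := fun h8 => h1 (by rw [h6, h8, Pi.single_zero])
      obtain ⟨k, hk⟩ : ∃ k : ℕ, γ i = k + 1 := ⟨(γ i - 1).toNat, by omega⟩
      rw [h6, hk] at h3 ⊢
      obtain rfl : k = 0 := by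
        by_contra h9
        exact h3.elim (fun h3 => h3 (by simpa [h9] using chd_multi T.pos i k)) fun h3 =>
          h3 (by simpa [h9] using chd_multi (D := fun γ => D (-γ)) T.neg i k)
      exact ⟨i, by simp [chdX_single]⟩

end

theorem Gen.exists_wc (H : Gen (fun i : b.support => rt P i) (fun i => P.coroot i) h e f)
    (hli : LinearIndependent K fun a => h (c a)) : ∃ e' : ι → A, WC P c K h e' := by
  classical
  obtain ⟨D, T⟩ := H.exists_tri K
  choose o1 _ x hx x' hx' hxx using chd_root H T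
  have h0 : ∀ i, h (P.coroot i) ≠ 0 := fun i hi => P.ne_zero' i <| c.repr.injective <| by
    rw [← c.sum_repr (P.coroot i), map_sum] at hi
    simp only [map_zsmul, ← Int.cast_smul_eq_zsmul K] at hi
    ext a
    simpa using Fintype.linearIndependent_iff.1 hli _ hi a
  let e' : ι → A := fun i => if b.IsPos i then x i else x' (P.reflectionPerm i i)
  have m : ∀ i, e' i ∈ chdW P h (⨆ γ, D γ) (P.root i) := fun i => by
    simp only [e']
    split_ifs
    · exact hx i
    · simpa using hx' (P.reflectionPerm i i)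
  have en : ∀ i j, P.root j = -P.root i → ⁅e' i, e' j⁆ = h (P.coroot i) := fun i j hj => by
    obtain rfl := P.root_eq_neg_iff.1 hj
    have h1 : b.IsPos (P.reflectionPerm i i) ↔ ¬ b.IsPos i := RootPairing.Base.IsPos.neg_iff_not b i
    have h2 : P.reflectionPerm (P.reflectionPerm i i) (P.reflectionPerm i i) = i :=
      P.root.injective (by rw [P.root_reflectionPerm, P.reflection_apply_self, hj, neg_neg])
    by_cases hi : b.IsPos i
    · simp only [e', h1, hi, h2, not_true, if_true, if_false, hxx]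
    · simp only [e', h1, hi, not_false_iff, if_true, if_false]
      rw [← lie_skew, hxx]
      simp
  have ne : ∀ i, e' i ≠ 0 := fun i hi =>
    h0 i (by rw [← en i (P.reflectionPerm i i) (by simp), hi, zero_lie])
  have ind := chdW_indep (P := P) H.h_h (⨆ γ, D γ)
  refine ⟨e', hli.sum_type ((ind.comp P.root.injective).linearIndependent _ m ne)
    ((ind 0).mono (Submodule.span_le.2 ?_) (Submodule.span_le.2 ?_)), H.h_h,
    fun y i => (mem_chdW.1 (m i)).2 y, en, fun i j l hl => ?_, fun i j h1 h2 => ?_⟩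
  · rintro _ ⟨a, rfl⟩
    simpa using chd_le T 0 (chd_h T _)
  · rintro _ ⟨i, rfl⟩
    exact Submodule.mem_iSup_of_mem _ (Submodule.mem_iSup_of_mem (P.ne_zero i) (m i))
  · obtain ⟨N, hN⟩ := Submodule.mem_span_singleton.1
      (o1 l _ (m l) (ne l) (hl ▸ chdW_lie T (m i) (m j)))
    exact ⟨N, hN.symm⟩
  · obtain ⟨γ, hγ⟩ := chdX_root b i
    obtain ⟨γ', hγ'⟩ := chdX_root b j
    have h3 := chdW_lie T (m i) (m j)
    rw [← hγ, ← hγ', ← map_add] at h1 h2 h3
    rw [chd_eq H T] at h3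
    by_contra h4
    have h5 : D (γ + γ') ≠ ⊥ := (Submodule.ne_bot_iff _).2 ⟨_, h3, h4⟩
    have h6 : γ + γ' ≠ 0 := fun h6 => h1 (by rw [h6, map_zero])
    rcases T.sign _ h5 with h7 | h7
    · exact h2 (chd_serre H T _ _ h7 h6 (Int.self_le_toNat _) (.inl h5))
    · refine h2 (P.neg_mem_range_root_iff.1 ?_)
      rw [← map_neg]
      exact chd_serre H T _ _ (neg_nonneg.2 h7) (neg_ne_zero.2 h6) (Int.self_le_toNat _)
        (.inr (by rwa [neg_neg]))

end Pool.Agent.AG
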