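import Mathlib

/-! Lie algebras with a weak Chevalley basis. -/

namespace Pool.Agent.AG

open Set

variable {ι X Y : Type*} [AddCommGroup X] [AddCommGroup Y]

/-- A weak Chevalley system: the structure constants of the root vectors are not normalised. -/
structure WC (P : RootDatum ι X Y) {r : ℕ} (c : Module.Basis (Fin r) ℤ Y) (K : Type*) [Field K]
    {A : Type*} [LieRing A] [LieAlgebra K A] (h : Y →+ A) (e : ι → A) : Prop where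
  li : LinearIndependent K (Sum.elim (fun a => h (c a)) e)
  h_h : ∀ y y', ⁅h y, h y'⁆ = 0
  h_e : ∀ y i, ⁅h y, e i⁆ = P.toLinearMap (P.root i) y • e i
  e_neg : ∀ i j, P.root j = -P.root i → ⁅e i, e j⁆ = h (P.coroot i)
  e_e : ∀ i j l, P.root i + P.root j = P.root l → ∃ N : K, ⁅e i, e j⁆ = N • e l
  e_zero : ∀ i j, P.root i + P.root j ≠ 0 → P.root i + P.root j ∉ range P.root → ⁅e i, e j⁆ = 0

/-- The relations between Chevalley generators. -/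
structure Gen {Δ : Type*} [DecidableEq Δ] (α : Δ → Y →+ ℤ) (cv : Δ → Y) {A : Type*} [LieRing A]
    (h : Y →+ A) (e f : Δ → A) : Prop where
  h_h : ∀ y y', ⁅h y, h y'⁆ = 0
  h_e : ∀ y i, ⁅h y, e i⁆ = α i y • e i
  h_f : ∀ y i, ⁅h y, f i⁆ = -(α i y • f i)
  e_f : ∀ i j, ⁅e i, f j⁆ = if i = j then h (cv i) else 0

/-- The grading of the subalgebra generated by Chevalley generators. -/
structure Tri {Δ : Type*} [Fintype Δ] [DecidableEq Δ] (α : Δ → Y →+ ℤ) (K : Type*) [Field K]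
    {A : Type*} [LieRing A] [LieAlgebra K A] (h : Y →+ A) (e f : Δ → A)
    (D : (Δ → ℤ) → Submodule K A) : Prop where
  lie_mem : ∀ γ γ', ∀ x ∈ D γ, ∀ x' ∈ D γ', ⁅x, x'⁆ ∈ D (γ + γ')
  e_mem : ∀ i, e i ∈ D (Pi.single i 1)
  f_mem : ∀ i, f i ∈ D (-Pi.single i 1)
  zero : D 0 = Submodule.span K (range h)
  sign : ∀ γ, D γ ≠ ⊥ → 0 ≤ γ ∨ γ ≤ 0
  pos : ∀ γ, 0 ≤ γ → γ ≠ 0 → D γ ≤ Submodule.span K ({x | ∃ i, γ = Pi.single i 1 ∧ x = e i} ∪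
    {x | ∃ i γ', 0 ≤ γ' ∧ γ' ≠ 0 ∧ γ = Pi.single i 1 + γ' ∧ ∃ z ∈ D γ', x = ⁅e i, z⁆})
  neg : ∀ γ, 0 ≤ γ → γ ≠ 0 → D (-γ) ≤ Submodule.span K ({x | ∃ i, γ = Pi.single i 1 ∧ x = f i} ∪
    {x | ∃ i γ', 0 ≤ γ' ∧ γ' ≠ 0 ∧ γ = Pi.single i 1 + γ' ∧ ∃ z ∈ D (-γ'), x = ⁅f i, z⁆})
  wt : ∀ γ, ∀ x ∈ D γ, ∀ y, ⁅h y, x⁆ = (∑ i, γ i * α i y) • x

/-- The pairing of a root with cocharacters. -/
def rt (P : RootDatum ι X Y) (i : ι) : Y →+ ℤ := (P.toLinearMap (P.root i)).toAddMonoidHom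

theorem rt_apply (P : RootDatum ι X Y) (i : ι) (y : Y) :
    rt P i y = P.toLinearMap (P.root i) y := rfl

end Pool.Agent.AG
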