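import Pool.Agent.Lib.AG.ChC

/-! The product of opposite structure constants, and good primes. -/

namespace Pool.Agent.AG

open Set

variable {ι X Y : Type*} [Fintype ι] [AddCommGroup X] [AddCommGroup Y]
  {P : RootDatum ι X Y} [P.IsReduced] {r : ℕ} {c : Module.Basis (Fin r) ℤ Y}
  {K : Type*} [Field K] {A : Type*} [LieRing A] [LieAlgebra K A] {h : Y →+ A} {e : ι → A}

private def cheL : List (ℤ × ℤ) := [(0, 0), (1, 1), (-1, -1), (1, 2), (2, 1), (-1, -2), (-2, -1),
  (1, 3), (3, 1), (-1, -3), (-3, -1)]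

private theorem che_dec : ∀ x ∈ cheL, ∀ y ∈ cheL, y.2 = 2 + x.2 → (2 - y.1, x.1 + 2) ∈ cheL →
    ∀ q ∈ ([1, 2, 3] : List ℤ), 0 ≤ q + x.2 → q + x.2 + q ≤ 3 →
      (q + x.2 + 1) * (2 * (2 - y.1) - y.1 * x.2) = q * (4 - x.1 * x.2) ∧
        2 * (2 - y.1) - y.1 * x.2 ≠ 0 := by
  decide

private theorem che_int {p q x1 x2 y1 z1 : ℤ} (hp : 0 ≤ p) (hq : 1 ≤ q) (hpq : p + q ≤ 3)
    (h4 : p - q = x2) (hx : (x1, x2) ∈ cheL) (hy : (y1, 2 + x2) ∈ cheL) (hz : (z1, x1 + 2) ∈ cheL)
    (h3 : y1 + z1 = 2) :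
    (p + 1) * (2 * z1 - y1 * x2) = q * (4 - x1 * x2) ∧ 2 * z1 - y1 * x2 ≠ 0 := by
  obtain rfl : p = q + x2 := by omega
  obtain rfl : z1 = 2 - y1 := by omega
  refine che_dec _ hx _ hy rfl hz q ?_ hp hpq
  simp only [List.mem_cons, List.not_mem_nil, or_false]
  omega

private theorem che_list {i j : ι} (hij : LinearIndependent ℤ ![P.root i, P.root j]) :
    (P.pairing i j, P.pairing j i) ∈ cheL := by
  obtain ⟨h1, h2⟩ := (RootPairing.IsReduced.linearIndependent_iff P).1 hij
  have h3 := P.pairingIn_pairingIn_mem_set_of_isCrystal_of_isRed' i j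
    (P.root.injective.ne h1) h2
  rw [← P.algebraMap_pairingIn ℤ i j, ← P.algebraMap_pairingIn ℤ j i]
  simp only [mem_insert_iff, mem_singleton_iff] at h3
  simp only [cheL, List.mem_cons, List.not_mem_nil, or_false]
  exact h3

private theorem che_key {i j l : ι} (hs : P.root i + P.root j = P.root l) :
    ((P.chainBotCoeff i j : ℤ) + 1) * (2 * P.pairing j l - P.pairing i l * P.pairing j i) =
        P.chainTopCoeff i j * (4 - P.pairing i j * P.pairing j i) ∧
      2 * P.pairing j l - P.pairing i l * P.pairing j i ≠ 0 := by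
  have hij := P.linearIndependent_of_add_mem_range_root' ⟨l, hs.symm⟩
  have hpair : ∀ k, P.pairing l k = P.pairing i k + P.pairing j k := fun k => by
    rw [← P.root_coroot_eq_pairing, ← hs, map_add, LinearMap.add_apply, P.root_coroot_eq_pairing,
      P.root_coroot_eq_pairing]
  have hli : LinearIndependent ℤ ![P.root l, P.root i] :=
    P.linearIndependent_of_sub_mem_range_root' ⟨j, by rw [← hs, add_sub_cancel_left]⟩
  have hlj : LinearIndependent ℤ ![P.root l, P.root j] :=
    P.linearIndependent_of_sub_mem_range_root' ⟨i, by rw [← hs, add_sub_cancel_right]⟩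
  have hy := che_list (LinearIndependent.pair_symm_iff.1 hli)
  have hz := che_list (LinearIndependent.pair_symm_iff.1 hlj)
  rw [hpair, P.pairing_same] at hy hz
  refine che_int (Int.natCast_nonneg _) ?_ ?_ ?_ (che_list hij) hy hz ?_
  · exact_mod_cast P.one_le_chainTopCoeff_of_root_add_mem ⟨l, hs.symm⟩
  · exact_mod_cast P.chainBotCoeff_add_chainTopCoeff_le_three (i := i) (j := j)
  · rw [P.chainBotCoeff_sub_chainTopCoeff hij, ← P.algebraMap_pairingIn ℤ j i]
    rfl
  · rw [← hpair, P.pairing_same]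

theorem WC.mul_opp [CharZero K] (H : WC P c K h e) {i j l i' j' l' : ι}
    (hi : P.root i' = -P.root i) (hj : P.root j' = -P.root j) (hl : P.root l' = -P.root l)
    (hs : P.root i + P.root j = P.root l) {N N' : K} (hN : ⁅e i, e j⁆ = N • e l)
    (hN' : ⁅e i', e j'⁆ = N' • e l') :
    N * N' = -((P.chainBotCoeff i j + 1 : ℕ) : K) ^ 2 := by
  obtain ⟨N1, h1⟩ := H.e_e i' l j (by rw [hi, ← hs, neg_add_cancel_left])
  obtain ⟨N2, h2⟩ := H.e_e j' l i (by rw [hj, ← hs, add_comm (P.root i), neg_add_cancel_left])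
  have h3 := H.string hi hs hN h1
  have hneg : ∀ k k', P.root k' = -P.root k → ⁅e k', e k⁆ = -h (P.coroot k) := fun k k' hk => by
    rw [← H.e_neg k k' hk, lie_skew]
  have h4 := lie_lie (e i') (e j') (e l)
  rw [hN', h1, h2, smul_lie, lie_smul, lie_smul, hneg l l' hl, hneg i i' hi, hneg j j' hj] at h4
  have h5 : ∀ k, N' * (P.pairing k l : K) = N2 * (P.pairing k i : K) - N1 * (P.pairing k j : K) := by
    intro k
    have h6 := congrArg (fun x => ⁅x, e k⁆) h4
    simp only [sub_lie, smul_lie, H.h_e, P.root_coroot_eq_pairing,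
      ← Int.cast_smul_eq_zsmul K, smul_neg, smul_smul, ← neg_smul, ← sub_smul] at h6
    linear_combination -smul_left_injective K (H.ne_zero k) h6
  have h6 := h5 i
  have h7 := h5 j
  rw [P.pairing_same, Int.cast_ofNat] at h6 h7
  obtain ⟨h8, h9⟩ := che_key hs
  have h8' := congrArg (Int.cast (R := K)) h8
  have h9' := (Int.cast_ne_zero (α := K)).2 h9
  push_cast at h3 h8' h9' ⊢
  refine mul_right_cancel₀ h9' ?_
  linear_combination (2 * N) * h7 - (N * (P.pairing j i : K)) * h6 -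
    (4 - (P.pairing i j : K) * (P.pairing j i : K)) * h3 + ((P.chainBotCoeff i j : K) + 1) * h8'

/-- The structure constants of simple roots do not vanish. -/
def NZ (P : RootDatum ι X Y) (b : P.Base) (K : Type*) [Field K] : Prop :=
  ∀ i j, (i ∈ b.support ∨ P.reflectionPerm i i ∈ b.support) →
    P.root i + P.root j ∈ range P.root →
      (((P.chainBotCoeff i j + 1) * P.chainTopCoeff i j : ℕ) : K) ≠ 0

theorem nz_of_charZero [CharZero K] (b : P.Base) : NZ P b K := fun _ _ _ hs =>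
  Nat.cast_ne_zero.2 (mul_ne_zero (Nat.succ_ne_zero _)
    (Nat.one_le_iff_ne_zero.1 (P.one_le_chainTopCoeff_of_root_add_mem hs)))

omit [Fintype ι] [P.IsReduced] in
private theorem che_coef (b : P.Base) (β : ι) :
    ∃ m : b.support → ℤ, (0 ≤ m ∨ m ≤ 0) ∧ P.root β = ∑ i, m i • P.root i.1 := by
  obtain ⟨f, -, hf, hf'⟩ := b.exists_root_eq_sum_int β
  refine ⟨fun i => f i, hf.imp (fun h i => h.le i) fun h i => h.le i, ?_⟩
  rw [hf', ← Finset.sum_coe_sort]

omit [Fintype ι] [P.IsReduced] in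
private theorem che_sign (b : P.Base) {β : ι} {m : b.support → ℤ}
    (hm : P.root β = ∑ i, m i • P.root i.1) : 0 ≤ m ∨ m ≤ 0 := by
  obtain ⟨m', h1, h2⟩ := che_coef b β
  have hli : LinearIndependent ℤ fun i : b.support => P.root i.1 := b.linearIndepOn_root
  rwa [funext (Fintype.linearIndependent_iffₛ.1 hli m m' (hm.symm.trans h2))]

private theorem che_short (b : P.Base) {p : ℕ} (hp0 : 0 < p)
    (hp : ∀ (β : ι) (m : b.support → ℤ), P.root β = ∑ i, m i • P.root i.1 →
      ∀ i, (p : ℤ) ∣ m i → m i = 0) (i : b.support) {j : ι}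
    (hij : LinearIndependent ℤ ![P.root i, P.root j]) :
    P.chainBotCoeff i j + P.chainTopCoeff i j < p := by
  classical
  by_contra hlen
  obtain ⟨m, -, hm⟩ := che_coef b j
  have hp1 : (0 : ℤ) < p := Int.natCast_pos.2 hp0
  let M : ℤ → b.support → ℤ := fun z k => m k + if k = i then z else 0
  have hMi : ∀ z, M z i = m i + z := fun z => by simp only [M, if_true]
  have hMk : ∀ z k, k ≠ i → M z k = m k := fun z k hk => by simp only [M, if_neg hk, add_zero]
  have hroot : ∀ z : ℤ, -(P.chainBotCoeff i j : ℤ) ≤ z → z ≤ P.chainTopCoeff i j →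
      ∃ β, P.root β = ∑ k, M z k • P.root k.1 := fun z h1 h2 => by
    obtain ⟨β, hβ⟩ := (P.root_add_zsmul_mem_range_iff hij).2 ⟨h1, h2⟩
    refine ⟨β, ?_⟩
    simp only [hβ, M, add_smul, Finset.sum_add_distrib, ← hm, ite_smul, zero_smul,
      Finset.sum_ite_eq', Finset.mem_univ, if_true]
  set lo : ℤ := -(P.chainBotCoeff i j : ℤ) with hlo
  set hi : ℤ := (P.chainTopCoeff i j : ℤ) with hhi
  have hlen' : lo + p ≤ hi := by omega
  have h1 := Int.emod_nonneg (-(m i + lo)) hp1.ne'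
  have h2 := Int.emod_lt_of_pos (-(m i + lo)) hp1
  have h3 : (p : ℤ) ∣ m i + (lo + -(m i + lo) % p) :=
    ⟨-(-(m i + lo) / p), by rw [Int.emod_def]; ring⟩
  set t := -(m i + lo) % p with ht
  obtain ⟨β₀, hβ₀⟩ := hroot (lo + t) (by omega) (by omega)
  have h4 := hp β₀ _ hβ₀ i (by rwa [hMi])
  rw [hMi] at h4
  rcases h1.eq_or_lt with h5 | h5
  · obtain ⟨β, hβ⟩ := hroot (lo + p) (by omega) hlen'
    have h6 := hp β _ hβ i (by rw [hMi]; exact ⟨1, by omega⟩)
    rw [hMi] at h6
    omega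
  obtain ⟨β₁, hβ₁⟩ := hroot lo le_rfl (by omega)
  obtain ⟨β₂, hβ₂⟩ := hroot hi (by omega) le_rfl
  have h6 : M lo ≤ 0 := (che_sign b hβ₁).resolve_left fun h => by
    have : (0 : ℤ) ≤ M lo i := h i
    rw [hMi] at this
    omega
  have h7 : 0 ≤ M hi := (che_sign b hβ₂).resolve_right fun h => by
    have : M hi i ≤ (0 : ℤ) := h i
    rw [hMi] at this
    omega
  refine P.ne_zero β₀ (hβ₀.trans (Finset.sum_eq_zero fun k _ => ?_))
  rcases eq_or_ne k i with rfl | hk
  · rw [hMi, h4, zero_smul]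
  · have h8 : M lo k ≤ (0 : ℤ) := h6 k
    have h9 : (0 : ℤ) ≤ M hi k := h7 k
    rw [hMk _ k hk] at h8 h9
    rw [hMk _ k hk, le_antisymm h8 h9, zero_smul]

theorem nz_of_good (b : P.Base) (p : ℕ) [Fact p.Prime] [CharP K p]
    (hp : ∀ (β : ι) (m : b.support → ℤ), P.root β = ∑ i, m i • P.root i.1 →
      ∀ i, (p : ℤ) ∣ m i → m i = 0) : NZ P b K := by
  intro i j hi hs h0
  have hpp : p.Prime := Fact.out
  have hij := P.linearIndependent_of_add_mem_range_root' hs
  have h1 := P.one_le_chainTopCoeff_of_root_add_mem hs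
  have h2 : P.chainBotCoeff i j + P.chainTopCoeff i j < p := by
    rcases hi with hi | hi
    · exact che_short b hpp.pos hp ⟨i, hi⟩ hij
    · have := che_short b hpp.pos hp ⟨_, hi⟩ (j := j) (by simpa using hij)
      simp only [RootPairing.chainBotCoeff_reflectionPerm_left,
        RootPairing.chainTopCoeff_reflectionPerm_left] at this
      omega
  rcases (Nat.Prime.dvd_mul hpp).1 ((CharP.cast_eq_zero_iff K p _).1 h0) with h | h
  · have := Nat.le_of_dvd (Nat.succ_pos _) h
    omega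
  · have := Nat.le_of_dvd h1 h
    omega

end Pool.Agent.AG
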