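import Pool.Agent.Lib.AG.ChE

/-! Uniqueness of the structure constants up to scaling. -/

namespace Pool.Agent.AG

open Set

variable {ι X Y : Type*} [Fintype ι] [AddCommGroup X] [AddCommGroup Y]
  {P : RootDatum ι X Y} [P.IsReduced] {r : ℕ} {c : Module.Basis (Fin r) ℤ Y}
  {K : Type*} [Field K] {A : Type*} [LieRing A] [LieAlgebra K A] {h : Y →+ A} {e : ι → A}
  {A' : Type*} [LieRing A'] [LieAlgebra K A'] {h' : Y →+ A'} {e' : ι → A'}

omit [Fintype ι] [P.IsReduced] in
private theorem chF_lie (H : WC P c K h e) (i : ι) (x : X) (hx : P.root i + x ≠ 0) {z : A}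
    (hz : z ∈ Submodule.span K {a | ∃ l, P.root l = x ∧ a = e l}) :
    ⁅e i, z⁆ ∈ Submodule.span K {a | ∃ l, P.root l = P.root i + x ∧ a = e l} := by
  induction hz using Submodule.span_induction with
  | mem a ha =>
    obtain ⟨l, rfl, rfl⟩ := ha
    by_cases hr : P.root i + P.root l ∈ range P.root
    · obtain ⟨m, hm⟩ := hr
      obtain ⟨N, hN⟩ := H.e_e i l m hm.symm
      rw [hN]
      exact Submodule.smul_mem _ _ (Submodule.subset_span ⟨m, hm, rfl⟩)
    · rw [H.e_zero i l hx hr]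
      exact Submodule.zero_mem _
  | zero => rw [lie_zero]; exact Submodule.zero_mem _
  | add a a' _ _ ha ha' => rw [lie_add]; exact Submodule.add_mem _ ha ha'
  | smul t a _ ha => rw [lie_smul]; exact Submodule.smul_mem _ _ ha

omit [Fintype ι] [P.IsReduced] in
private theorem chF_line {β : ι} {z : A}
    (hz : z ∈ Submodule.span K {a | ∃ l, P.root l = P.root β ∧ a = e l}) : ∃ t : K, z = t • e β := by
  have : {a | ∃ l, P.root l = P.root β ∧ a = e l} = {e β} := by
    ext a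
    constructor
    · rintro ⟨l, hl, rfl⟩
      rw [P.root.injective hl]; rfl
    · rintro rfl
      exact ⟨β, rfl, rfl⟩
  rw [this, Submodule.mem_span_singleton] at hz
  obtain ⟨t, rfl⟩ := hz
  exact ⟨t, rfl⟩

private theorem chF_wt {Δ : Type*} [Fintype Δ] [DecidableEq Δ] (w : Δ → X) (i : Δ) (γ : Δ → ℤ) :
    ∑ j, (Pi.single i 1 + γ : Δ → ℤ) j • w j = w i + ∑ j, γ j • w j := by
  simp only [Pi.add_apply, add_smul, Finset.sum_add_distrib, Pi.single_apply, ite_smul, one_smul,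
    zero_smul, Finset.sum_ite_eq', Finset.mem_univ, if_true]

private theorem chF_single {Δ : Type*} [Fintype Δ] [DecidableEq Δ] (w : Δ → X) (i : Δ) :
    ∑ j, (Pi.single i 1 : Δ → ℤ) j • w j = w i := by
  simp

private theorem chF_pos {Δ : Type*} [DecidableEq Δ] (i : Δ) {γ : Δ → ℤ} (hγ : 0 ≤ γ) :
    0 ≤ (Pi.single i 1 + γ : Δ → ℤ) ∧ (Pi.single i 1 + γ : Δ → ℤ) ≠ 0 := by
  refine ⟨add_nonneg (Pi.single_nonneg.2 zero_le_one) hγ, fun h0 => ?_⟩
  have h1 := congrFun h0 i
  have h2 : (0 : ℤ) ≤ γ i := hγ i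
  simp only [Pi.add_apply, Pi.single_eq_same, Pi.zero_apply] at h1
  omega

omit [Fintype ι] [P.IsReduced] in
private theorem chF_snd (H' : WC P c K h' e') {Δ : Type*} [Fintype Δ] [DecidableEq Δ] (u : Δ → ι)
    (hinj : ∀ γ : Δ → ℤ, ∑ i, γ i • P.root (u i) = 0 → γ = 0)
    (D : (Δ → ℤ) → Submodule K (A × A'))
    (hpos : ∀ γ, 0 ≤ γ → γ ≠ 0 → D γ ≤ Submodule.span K
      ({x | ∃ i, γ = Pi.single i 1 ∧ x = (e (u i), e' (u i))} ∪
      {x | ∃ i γ', 0 ≤ γ' ∧ γ' ≠ 0 ∧ γ = Pi.single i 1 + γ' ∧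
        ∃ z ∈ D γ', x = ⁅(e (u i), e' (u i)), z⁆}))
    (γ : Δ → ℤ) (h0 : 0 ≤ γ) (h1 : γ ≠ 0) : ∀ z ∈ D γ,
      z.2 ∈ Submodule.span K {a | ∃ l, P.root l = ∑ i, γ i • P.root (u i) ∧ a = e' l} := by
  have key : ∀ n : ℕ, ∀ γ : Δ → ℤ, 0 ≤ γ → γ ≠ 0 → ∑ i, γ i < n → ∀ z ∈ D γ,
      z.2 ∈ Submodule.span K {a | ∃ l, P.root l = ∑ i, γ i • P.root (u i) ∧ a = e' l} := by
    intro n
    induction n with
    | zero =>
      intro γ h0 _ hn
      have : 0 ≤ ∑ i, γ i := Finset.sum_nonneg fun i _ => h0 i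
      omega
    | succ n ih =>
      intro γ h0 h1 hn z hz
      refine (Submodule.span_le (p := (Submodule.span K
        {a | ∃ l, P.root l = ∑ i, γ i • P.root (u i) ∧ a = e' l}).comap
          (LinearMap.snd K A A'))).2 ?_ (hpos γ h0 h1 hz)
      rintro x (⟨i, rfl, rfl⟩ | ⟨i, γ', g0, g1, rfl, z', hz', rfl⟩)
      · exact Submodule.subset_span ⟨u i, (chF_single (fun j => P.root (u j)) i).symm, rfl⟩
      · have hs : ∑ j, (Pi.single i 1 + γ' : Δ → ℤ) j = 1 + ∑ j, γ' j := by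
          simpa using chF_wt (fun _ => (1 : ℤ)) i γ'
        have hw := chF_wt (fun j => P.root (u j)) i γ'
        have := chF_lie H' (u i) _ (fun h2 => h1 (hinj _ (hw.trans h2)))
          (ih γ' g0 g1 (by push_cast at hn; omega) z' hz')
        rw [← hw] at this
        exact this
  exact key ((∑ i, γ i).toNat + 1) γ h0 h1 (by push_cast; omega)

private theorem chF_half (H : WC P c K h e) (H' : WC P c K h' e') {Δ : Type*} [Fintype Δ]
    [DecidableEq Δ] (u v : Δ → ι) (huv : ∀ i, P.root (v i) = -P.root (u i))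
    (hnz : ∀ i j, P.root (u i) + P.root j ∈ range P.root →
      (((P.chainBotCoeff (u i) j + 1) * P.chainTopCoeff (u i) j : ℕ) : K) ≠ 0)
    (hinj : ∀ γ : Δ → ℤ, ∑ i, γ i • P.root (u i) = 0 → γ = 0)
    (D : (Δ → ℤ) → Submodule K (A × A'))
    (hu : ∀ i γ, ∀ z ∈ D γ, ⁅(e (u i), e' (u i)), z⁆ ∈ D (Pi.single i 1 + γ))
    (hv : ∀ i γ, ∀ z ∈ D (Pi.single i 1 + γ), ⁅(e (v i), e' (v i)), z⁆ ∈ D γ)
    (hm : ∀ i, (e (u i), e' (u i)) ∈ D (Pi.single i 1))
    (hpos : ∀ γ, 0 ≤ γ → γ ≠ 0 → D γ ≤ Submodule.span K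
      ({x | ∃ i, γ = Pi.single i 1 ∧ x = (e (u i), e' (u i))} ∪
      {x | ∃ i γ', 0 ≤ γ' ∧ γ' ≠ 0 ∧ γ = Pi.single i 1 + γ' ∧
        ∃ z ∈ D γ', x = ⁅(e (u i), e' (u i)), z⁆}))
    {β : ι} (hind : ∀ p : ι → Prop, (∀ i, p (u i)) →
      (∀ j i l, P.root l = P.root j + P.root (u i) → p j → p l) → p β) :
    ∃ γ : Δ → ℤ, ∑ i, γ i • P.root (u i) = P.root β ∧
      (∃ s : Kˣ, (e β, (s : K) • e' β) ∈ D γ) ∧ ∀ z ∈ D γ, z.1 = 0 → z.2 = 0 := by
  suffices ∃ γ : Δ → ℤ, 0 ≤ γ ∧ ∑ i, γ i • P.root (u i) = P.root β ∧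
      (∃ s : Kˣ, (e β, (s : K) • e' β) ∈ D γ) ∧ ∀ z ∈ D γ, z.1 = 0 → z.2 = 0 by
    obtain ⟨γ, -, hγ⟩ := this
    exact ⟨γ, hγ⟩
  refine hind (fun β => ∃ γ : Δ → ℤ, 0 ≤ γ ∧ ∑ i, γ i • P.root (u i) = P.root β ∧
      (∃ s : Kˣ, (e β, (s : K) • e' β) ∈ D γ) ∧ ∀ z ∈ D γ, z.1 = 0 → z.2 = 0) ?_ ?_
  · intro i
    have hp := chF_pos i (le_refl (0 : Δ → ℤ))
    rw [add_zero] at hp
    refine ⟨Pi.single i 1, hp.1, chF_single (fun j => P.root (u j)) i,
      ⟨1, by simpa using hm i⟩, fun z hz hz1 => ?_⟩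
    have hle : z ∈ Submodule.span K {(e (u i), e' (u i))} := by
      refine Submodule.span_mono ?_ (hpos _ hp.1 hp.2 hz)
      rintro x (⟨j, hj, rfl⟩ | ⟨j, γ', g0, g1, hj, -⟩)
      · have : i = j := by
          by_contra hij
          simpa [Pi.single_eq_of_ne hij] using congrFun hj i
        rw [this]; rfl
      · exfalso
        apply g1
        have hs : ∑ k, (Pi.single j 1 + γ' : Δ → ℤ) k = 1 + ∑ k, γ' k := by
          simpa using chF_wt (fun _ => (1 : ℤ)) j γ'
        have hs' : ∑ k, (Pi.single i 1 : Δ → ℤ) k = 1 := by simp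
        rw [← hj, hs'] at hs
        have h3 : ∑ k, γ' k = 0 := by omega
        funext k
        exact (Finset.sum_eq_zero_iff_of_nonneg fun k _ => g0 k).1 h3 k (Finset.mem_univ k)
    obtain ⟨t, rfl⟩ := Submodule.mem_span_singleton.1 hle
    have ht : t = 0 := (smul_eq_zero.1 hz1).resolve_right (H.ne_zero _)
    rw [ht, zero_smul]; rfl
  · rintro j i l hl ⟨γ, h0, hw, ⟨s, hs⟩, hB⟩
    have hl' : P.root (u i) + P.root j = P.root l := by rw [hl, add_comm]
    have hl'' : P.root (v i) + P.root l = P.root j := by rw [huv, hl]; abel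
    obtain ⟨N, hN⟩ := H.e_e _ _ _ hl'
    obtain ⟨N1, hN1⟩ := H.e_e _ _ _ hl''
    obtain ⟨M, hM⟩ := H'.e_e _ _ _ hl'
    obtain ⟨M1, hM1⟩ := H'.e_e _ _ _ hl''
    have hn := hnz i j ⟨l, hl'.symm⟩
    have hNN : N * N1 ≠ 0 := by rw [H.string (huv i) hl' hN hN1]; exact hn
    have hMM : M * M1 ≠ 0 := by rw [H'.string (huv i) hl' hM hM1]; exact hn
    have hp := chF_pos i h0
    have hw' : ∑ k, (Pi.single i 1 + γ : Δ → ℤ) k • P.root (u k) = P.root l := by
      rw [chF_wt (fun k => P.root (u k)), hw, hl']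
    refine ⟨Pi.single i 1 + γ, hp.1, hw', ?_, fun z hz hz1 => ?_⟩
    · have hN0 : N ≠ 0 := left_ne_zero_of_mul hNN
      refine ⟨Units.mk0 (N⁻¹ * s * M) (mul_ne_zero (mul_ne_zero (inv_ne_zero hN0) s.ne_zero)
        (left_ne_zero_of_mul hMM)), ?_⟩
      have := (D _).smul_mem N⁻¹ (hu i γ _ hs)
      rw [LieAlgebra.Prod.bracket_apply] at this
      simp only [lie_smul, hN, hM, Prod.smul_mk, smul_smul, inv_mul_cancel₀ hN0, one_smul] at this
      rw [Units.val_mk0, mul_assoc]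
      exact this
    · have h2 := chF_snd H' u hinj D hpos _ hp.1 hp.2 z hz
      rw [hw'] at h2
      obtain ⟨t, ht⟩ := chF_line h2
      have h3 := hB _ (hv i γ z hz) (by rw [LieAlgebra.Prod.bracket_apply, hz1]; exact lie_zero _)
      rw [LieAlgebra.Prod.bracket_apply] at h3
      simp only [ht, lie_smul, hM1, smul_smul] at h3
      have h4 := (smul_eq_zero.1 h3).resolve_right (H'.ne_zero _)
      rw [ht, (mul_eq_zero.1 h4).resolve_right (right_ne_zero_of_mul hMM), zero_smul]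

omit [Fintype ι] [P.IsReduced] in
private theorem chF_zero (H : WC P c K h e) {z : A × A'}
    (hz : z ∈ Submodule.span K (range (h.prod h'))) (hz1 : z.1 = 0) : z.2 = 0 := by
  have hle : Submodule.span K (range (h.prod h')) ≤
      Submodule.span K (range fun a => h.prod h' (c a)) := by
    refine Submodule.span_le.2 ?_
    rintro _ ⟨y, rfl⟩
    rw [← c.sum_repr y, map_sum]
    refine Submodule.sum_mem _ fun a _ => ?_
    rw [map_zsmul]
    exact zsmul_mem (Submodule.subset_span (mem_range_self a)) _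
  obtain ⟨t, rfl⟩ := (Submodule.mem_span_range_iff_exists_fun K).1 (hle hz)
  have hli : LinearIndependent K fun a => h (c a) := H.li.comp Sum.inl Sum.inl_injective
  have ht : ∀ a, t a = 0 := Fintype.linearIndependent_iff.1 hli t (by
    rw [Prod.fst_sum] at hz1
    exact hz1)
  simp [ht]

theorem WC.unique (H : WC P c K h e) (H' : WC P c K h' e') (b : P.Base) (hz : NZ P b K) :
    ∃ s : ι → Kˣ,
      (∀ i j, P.root j = -P.root i → ((s i * s j : Kˣ) : K) • h' (P.coroot i) = h' (P.coroot i)) ∧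
      ∀ i j l (N : K), P.root i + P.root j = P.root l → ⁅e i, e j⁆ = N • e l →
        ⁅(s i : K) • e' i, (s j : K) • e' j⁆ = N • (s l : K) • e' l := by
  classical
  have G := H.gen b
  have G' := H'.gen b
  have GG : Gen (fun i : b.support => rt P i) (fun i => P.coroot i) (h.prod h')
      (fun i => (e i, e' i))
      (fun i => (e (P.reflectionPerm i i), e' (P.reflectionPerm i i))) :=
    { h_h := fun y y' => Prod.ext (G.h_h y y') (G'.h_h y y')
      h_e := fun y i => Prod.ext (G.h_e y i) (G'.h_e y i)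
      h_f := fun y i => Prod.ext (G.h_f y i) (G'.h_f y i)
      e_f := fun i j => by
        have h1 := G.e_f i j
        have h2 := G'.e_f i j
        by_cases hij : i = j
        · rw [if_pos hij] at h1 h2 ⊢
          exact Prod.ext h1 h2
        · rw [if_neg hij] at h1 h2 ⊢
          exact Prod.ext h1 h2 }
  obtain ⟨D, T⟩ := GG.exists_tri K
  have hneg : ∀ i, P.root (P.reflectionPerm i i) = -P.root i := fun i => by
    rw [P.root_reflectionPerm, P.reflection_apply_self]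
  have hnn : ∀ i, P.reflectionPerm (P.reflectionPerm i i) (P.reflectionPerm i i) = i := fun i =>
    P.root.injective (by rw [hneg, hneg, neg_neg])
  have hinj : ∀ γ : b.support → ℤ, ∑ i, γ i • P.root i.1 = 0 → γ = 0 := fun γ hγ =>
    funext (Fintype.linearIndependent_iff.1 b.linearIndepOn_root γ hγ)
  have main : ∀ β, ∃ γ : b.support → ℤ, ∑ i, γ i • P.root i.1 = P.root β ∧
      (∃ s : Kˣ, (e β, (s : K) • e' β) ∈ D γ) ∧ ∀ z ∈ D γ, z.1 = 0 → z.2 = 0 := by
    intro β
    rcases RootPairing.Base.IsPos.or_neg b β with hβ | hβ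
    · refine chF_half H H' (fun i : b.support => i.1) (fun i => P.reflectionPerm i.1 i.1)
        (fun i => hneg i.1) (fun i j => hz i.1 j (Or.inl i.2)) hinj D
        (fun i γ z hz => T.lie_mem _ _ _ (T.e_mem i) z hz) (fun i γ z hz => ?_) T.e_mem T.pos ?_
      · have := T.lie_mem _ _ _ (T.f_mem i) z hz
        rwa [neg_add_cancel_left] at this
      · intro p h1 h2
        exact hβ.induction_on_add (fun i hi => h1 ⟨i, hi⟩)
          fun i j k hk hp hj => h2 i ⟨j, hj⟩ k hk hp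
    · obtain ⟨γ, hw, hγ⟩ := chF_half (β := β) H H' (fun i : b.support => P.reflectionPerm i.1 i.1)
        (fun i => i.1) (fun i => by rw [hneg, neg_neg])
        (fun i j => hz _ j (Or.inr (by rw [hnn]; exact i.2)))
        (fun γ hγ => hinj γ (by
          simp only [hneg, smul_neg, Finset.sum_neg_distrib, neg_eq_zero] at hγ
          exact hγ))
        (fun γ => D (-γ))
        (fun i γ z hz => by
          have := T.lie_mem _ _ _ (T.f_mem i) z hz
          rwa [← neg_add] at this)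
        (fun i γ z hz => by
          have := T.lie_mem _ _ _ (T.e_mem i) z hz
          rwa [neg_add, add_neg_cancel_left] at this)
        T.f_mem T.neg (by
          intro p h1 h2
          have := RootPairing.Base.IsPos.induction_on_add (p := fun i => p (P.reflectionPerm i i))
            hβ (fun i hi => h1 ⟨i, hi⟩) fun i j k hk hp hj =>
              h2 _ ⟨j, hj⟩ _ (by rw [hneg, hneg, hneg, hk, neg_add]) hp
          exact hnn β ▸ this)
      refine ⟨-γ, ?_, hγ⟩
      simpa only [hneg, smul_neg, Pi.neg_apply, neg_smul] using hw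
  choose γ hw hs hB using main
  choose s hs using hs
  have hadd : ∀ (i j : ι) (δ : b.support → ℤ),
      P.root i + P.root j = ∑ k, δ k • P.root k.1 → γ i + γ j = δ := by
    intro i j δ hδ
    refine sub_eq_zero.1 (hinj _ ?_)
    simp only [Pi.sub_apply, Pi.add_apply, sub_smul, add_smul, Finset.sum_sub_distrib,
      Finset.sum_add_distrib, hw, hδ, sub_self]
  refine ⟨s, fun i j hij => ?_, fun i j l N hl hN => ?_⟩
  · have h1 := T.lie_mem _ _ _ (hs i) _ (hs j)
    rw [hadd i j 0 (by simp [hij]), T.zero, LieAlgebra.Prod.bracket_apply] at h1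
    simp only [lie_smul, smul_lie, H.e_neg i j hij, H'.e_neg i j hij, smul_smul] at h1
    have h2 : h.prod h' (P.coroot i) ∈ Submodule.span K (range (h.prod h')) :=
      Submodule.subset_span ⟨_, rfl⟩
    have h3 := chF_zero H (Submodule.sub_mem _ h1 h2) (sub_self _)
    rw [Units.val_mul, mul_comm]
    exact sub_eq_zero.1 h3
  · have h1 := T.lie_mem _ _ _ (hs i) _ (hs j)
    rw [hadd i j (γ l) (by rw [hw, hl]), LieAlgebra.Prod.bracket_apply, hN] at h1
    exact sub_eq_zero.1 (hB l _ (Submodule.sub_mem _ h1 ((D _).smul_mem N (hs l))) (sub_self _))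

end Pool.Agent.AG
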