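import Pool.Agent.Lib.AG.Rep
import Pool.Agent.Lib.AG.Tan

/-! The subgroups attached to semigroups of weights: elementary properties. -/

namespace Pool.Agent.AG

open Set

attribute [local instance 100] LieRing.ofAssociativeRing

universe u

variable {k : Type u} [Field k] {n : ℕ} {G H D : Subgroup (Gl n k)} {P Q : Set (D →* kˣ)}
  {V : Type u} [AddCommGroup V] [Module k V] {ρ : Gl n k → Module.End k V}

private theorem gpa_ind {C : V → Prop} {W : (D →* kˣ) → Submodule k V} {x : V}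
    (hx : x ∈ ⨆ γ ∈ P, W γ) (mem : ∀ γ ∈ P, ∀ x ∈ W γ, C x) (zero : C 0)
    (add : ∀ x y, C x → C y → C (x + y)) : C x := by
  rw [iSup_subtype'] at hx
  exact Submodule.iSup_induction (motive := C) _ hx (fun γ => mem γ.1 γ.2) zero add

private theorem gpa_mem {W : (D →* kˣ) → Submodule k V} {γ : D →* kˣ} {x : V} (h : γ ∈ P)
    (hx : x ∈ W γ) : x ∈ ⨆ γ ∈ P, W γ :=
  Submodule.mem_iSup_of_mem γ (Submodule.mem_iSup_of_mem h hx)

section alg

variable {R : Type u} [Ring R] [Algebra k R] {σ : Gl n k → Module.End k R}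

private theorem gpa_mul (hσ : ∀ t a b, σ t (a * b) = σ t a * σ t b) {γ γ' : D →* kˣ} {a b : R}
    (ha : a ∈ wV σ D γ) (hb : b ∈ wV σ D γ') : a * b ∈ wV σ D (γ * γ') := fun t => by
  rw [hσ, ha t, hb t, smul_mul_smul_comm, MonoidHom.mul_apply, Units.val_mul]

private theorem gpa_mul' (hσ : ∀ t a b, σ t (a * b) = σ t a * σ t b) {S : Set (D →* kˣ)}
    (h : ∀ a ∈ P, ∀ b ∈ Q, a * b ∈ S) {a b : R} (ha : a ∈ ⨆ γ ∈ P, wV σ D γ)
    (hb : b ∈ ⨆ γ ∈ Q, wV σ D γ) : a * b ∈ ⨆ γ ∈ S, wV σ D γ := by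
  refine gpa_ind (C := fun a => a * b ∈ ⨆ γ ∈ S, wV σ D γ) ha (fun γ hγ a ha => ?_)
    (by rw [zero_mul]; exact zero_mem _) fun x y hx hy => by rw [add_mul]; exact add_mem hx hy
  exact gpa_ind (C := fun b => a * b ∈ ⨆ γ ∈ S, wV σ D γ) hb
    (fun γ' hγ' b hb => gpa_mem (h _ hγ _ hγ') (gpa_mul hσ ha hb))
    (by rw [mul_zero]; exact zero_mem _) fun x y hx hy => by rw [mul_add]; exact add_mem hx hy

end alg

private theorem gpa_Ad (t : Gl n k) (A B : Mt n k) : Ad t (A * B) = Ad t A * Ad t B := by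
  simp only [Ad_apply, mul_assoc, Units.inv_mul_cancel_left]

private theorem gpa_Ad_sub (t g : Gl n k) : Ad t (g.1 - 1) = (t * g * t⁻¹).1 - 1 := by
  rw [Ad_apply, mul_sub, sub_mul, mul_one, Units.mul_inv, Units.val_mul, Units.val_mul]

theorem mul_mem_wV {γ γ' : D →* kˣ} {A B : Mt n k} (hA : A ∈ wV Ad D γ) (hB : B ∈ wV Ad D γ') :
    A * B ∈ wV Ad D (γ * γ') := gpa_mul gpa_Ad hA hB

theorem mul_mem_MP {R : Set (D →* kˣ)} (h : ∀ a ∈ P, ∀ b ∈ Q, a * b ∈ R) {A B : Mt n k}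
    (hA : A ∈ MP D P) (hB : B ∈ MP D Q) : A * B ∈ MP D R := gpa_mul' gpa_Ad h hA hB

theorem MP_mono (h : P ⊆ Q) : MP D P ≤ MP D Q := biSup_mono h

theorem mem_GP (hP : SG P) {g : Gl n k} : g ∈ GP G D P ↔ g ∈ G ∧ g.1 - 1 ∈ MP D P := by
  refine ⟨fun h => ?_, fun h => Subgroup.subset_closure h⟩
  induction h using Subgroup.closure_induction with
  | mem g hg => exact hg
  | one => exact ⟨G.one_mem, by rw [Units.val_one, sub_self]; exact zero_mem _⟩
  | mul a b _ _ ha hb =>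
    refine ⟨G.mul_mem ha.1 hb.1, ?_⟩
    have e : (a * b).1 - 1 = (a.1 - 1) * (b.1 - 1) + (a.1 - 1) + (b.1 - 1) := by
      rw [Units.val_mul]
      noncomm_ring
    rw [e]
    exact add_mem (add_mem (mul_mem_MP hP ha.2 hb.2) ha.2) hb.2
  | inv a _ ha =>
    refine ⟨G.inv_mem ha.1, ?_⟩
    have hm : ∀ B ∈ MP D P, LinearMap.mulLeft k a.1 B ∈ MP D P := fun B hB => by
      have e : a.1 * B = (a.1 - 1) * B + B := by noncomm_ring
      rw [LinearMap.mulLeft_apply, e]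
      exact add_mem (mul_mem_MP hP ha.2 hB) hB
    obtain ⟨B, hB⟩ := LinearMap.injective_iff_surjective.1
      (show Function.Injective ((LinearMap.mulLeft k a.1).restrict hm) from fun x y e =>
        Subtype.ext ((Units.mul_right_inj a).1 (congrArg Subtype.val e))) ⟨_, neg_mem ha.2⟩
    have e : a⁻¹.1 - 1 = B.1 := (Units.mul_right_inj a).1 <| by
      rw [mul_sub, Units.mul_inv, mul_one, ← neg_sub]
      exact (congrArg Subtype.val hB).symm
    exact e ▸ B.2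

theorem GP_le : GP G D P ≤ G := (Subgroup.closure_le _).2 fun _ h => h.1

theorem GP_mono (h : H ≤ G) (h' : P ⊆ Q) : GP H D P ≤ GP G D Q :=
  Subgroup.closure_mono fun _ hg => ⟨h hg.1, MP_mono h' hg.2⟩

theorem closed_GP (hP : SG P) (hG : Closed (OG k n) (G : Set (Gl n k))) :
    Closed (OG k n) (GP G D P : Set (Gl n k)) := by
  have h := ((MapOn.id.val.vadd (MapOn.const (-1))).congr
    fun g _ => (sub_eq_add_neg g.1 1).symm).closed hG (closed_submodule (MP D P))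
  convert h using 1
  ext g
  exact mem_GP hP

theorem nm_GP (hP : SG P) (hD : Dg D) (h : Nm D G) : Nm D (GP G D P) := by
  intro t ht g hg
  rw [mem_GP hP] at hg ⊢
  refine ⟨h t ht g hg.1, ?_⟩
  rw [← gpa_Ad_sub]
  refine gpa_ind (C := fun A => Ad t A ∈ MP D P) hg.2 (fun γ hγ A hA => ?_)
    (by rw [map_zero]; exact zero_mem _) fun x y hx hy => by rw [map_add]; exact add_mem hx hy
  rw [hA ⟨t, ht⟩]
  exact Submodule.smul_mem _ _ (gpa_mem hγ hA)

theorem unip_of_mem_GP (hP : SG P) (h1 : (1 : D →* kˣ) ∉ P) (hD : Dg D) {g : Gl n k}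
    (hg : g ∈ GP G D P) : Unip g := by
  have hA := ((mem_GP hP).1 hg).2
  have : IsStrictOrder (D →* kˣ) fun z y => ∃ π ∈ P, z = π * y :=
    { irrefl := fun y ⟨π, hπ, e⟩ => h1 (((mul_eq_right (a := π) (b := y)).1 e.symm) ▸ hπ)
      trans := fun z y x ⟨π, hπ, e⟩ ⟨π', hπ', e'⟩ =>
        ⟨π * π', hP _ hπ _ hπ', by rw [e, e']; exact (mul_assoc π π' x).symm⟩ }
  have key : ∀ γ, ∀ B ∈ wV Ad D γ, ∃ m : ℕ, (g.1 - 1) ^ m * B = 0 := by
    intro γ
    by_cases h : wV (Ad (k := k) (n := n)) D γ = ⊥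
    · exact fun B hB => ⟨0, by rw [(Submodule.eq_bot_iff _).1 h B hB, mul_zero]⟩
    refine ((finite_wV Ad D).wellFoundedOn (r := fun z y => ∃ π ∈ P, z = π * y)).induction h
      (P := fun γ => ∀ B ∈ wV Ad D γ, ∃ m : ℕ, (g.1 - 1) ^ m * B = 0) fun γ _ ih B hB => ?_
    obtain ⟨m, hm⟩ := gpa_ind (C := fun B => ∃ m : ℕ, (g.1 - 1) ^ m * B = 0)
      (mul_mem_MP (Q := {γ}) (R := {z | ∃ π ∈ P, z = π * γ})
        (fun a ha b hb => ⟨a, ha, by rw [mem_singleton_iff.1 hb]⟩) hA (gpa_mem rfl hB))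
      (fun z hz B hB => by
        by_cases h : wV (Ad (k := k) (n := n)) D z = ⊥
        · exact ⟨0, by rw [(Submodule.eq_bot_iff _).1 h B hB, mul_zero]⟩
        · exact ih z h hz B hB) ⟨0, mul_zero _⟩
      fun x y ⟨a, ha⟩ ⟨b, hb⟩ => ⟨a + b, by
        rw [mul_add, pow_add, mul_assoc, mul_assoc, hb, ← mul_assoc, pow_mul_comm, mul_assoc, ha,
          mul_zero, mul_zero, add_zero]⟩
    exact ⟨m + 1, by rw [pow_succ, mul_assoc, hm]⟩
  obtain ⟨m, hm⟩ := key 1 1 fun t => by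
    rw [Ad_apply, mul_one, Units.mul_inv, MonoidHom.one_apply, Units.val_one, one_smul]
  exact ⟨m, by rwa [mul_one] at hm⟩

theorem mem_GP_one {g : Gl n k} : g ∈ GP G D {1} ↔ g ∈ G ∧ ∀ t ∈ D, t * g = g * t := by
  rw [mem_GP (by rintro _ rfl _ rfl; exact one_mul (1 : D →* kˣ)), MP, iSup_singleton, mem_wV,
    Subtype.forall]
  refine and_congr_right fun _ => forall₂_congr fun t _ => ?_
  rw [gpa_Ad_sub, MonoidHom.one_apply, Units.val_one, one_smul, sub_left_inj, Units.val_inj,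
    mul_inv_eq_iff_eq_mul]

theorem lie_GP_le [Infinite k] (hP : SG P) {A : Mt n k} (hA : A ∈ lie (GP G D P)) :
    A ∈ lie G ∧ A ∈ MP D P :=
  ⟨lie_mono GP_le hA, mem_of_mem_lie (fun _ hg => ((mem_GP hP).1 hg).2) hA⟩

private theorem gpa_dual (hD : Dg D) {C : Module.Dual k (Mt n k) → Prop}
    (h : ∀ (δ : D →* kˣ) l, (∀ (t : D) A, l (Ad t.1 A) = (δ t : k) * l A) → C l) (h0 : C 0)
    (ha : ∀ x y, C x → C y → C (x + y)) (l : Module.Dual k (Mt n k)) : C l := by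
  refine Submodule.iSup_induction (motive := C) _
    ((hD.iSup_wV (isRep_Ad D).dual).symm ▸ Submodule.mem_top) (fun γ l hl => h γ⁻¹ l fun t A => ?_) h0 ha
  have e := LinearMap.congr_fun (hl t⁻¹) A
  rw [map_inv] at e
  simpa [dualRep] using e

private theorem gpa_conj (t : Gl n k) {F : Gl n k → k} (hF : F ∈ OG k n) :
    (fun g => F (t * g * t⁻¹)) ∈ OG k n :=
  (((MapOn.const t).mul MapOn.id).mul (MapOn.const t⁻¹) F hF).mem

/-- Every regular function is a sum of eigenfunctions for conjugation. -/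
theorem Dg.exists_eigen (hD : Dg D) (f : OG k n) : ∃ c : (D →* kˣ) →₀ OG k n,
    (∀ γ (t : D) g, (c γ).1 (t.1 * g * t.1⁻¹) = (γ t : k) * (c γ).1 g) ∧
      (c.sum fun _ a => a) = f := by
  let σ : Gl n k → Module.End k (OG k n) := fun t =>
    { toFun := fun f => ⟨_, gpa_conj t f.2⟩
      map_add' := fun _ _ => rfl
      map_smul' := fun _ _ => rfl }
  have gen : ∀ (φ : Gl n k → Gl n k) (hφ : MapOn (OG k n) univ (OG k n) φ),
      (∀ t g, φ (t * g * t⁻¹) = t * φ g * t⁻¹) → ∀ l : Module.Dual k (Mt n k),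
      (⟨_, (hφ.val.dual l).mem⟩ : OG k n) ∈ ⨆ γ ∈ (univ : Set (D →* kˣ)), wV σ D γ := by
    intro φ hφ e
    refine gpa_dual hD (fun δ l hl => gpa_mem (γ := δ) trivial fun t => ?_) (zero_mem _)
      fun x y hx hy => add_mem hx hy
    refine Subtype.ext (funext fun g => ?_)
    change l (φ (t.1 * g * t.1⁻¹)).1 = (δ t : k) * l (φ g).1
    rw [e, ← hl, Ad_apply, Units.val_mul, Units.val_mul]
  have key : f ∈ ⨆ γ ∈ (univ : Set (D →* kˣ)), wV σ D γ := by
    obtain ⟨F, hF⟩ := f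
    induction hF using Algebra.adjoin_induction with
    | mem F hF =>
      obtain ⟨i, j, rfl | rfl⟩ := hF
      · exact gen _ MapOn.id (fun _ _ => rfl) (Matrix.entryLinearMap k k i j)
      · exact gen _ MapOn.id.inv (fun t g => by simp [mul_assoc]) (Matrix.entryLinearMap k k i j)
    | algebraMap c => exact gpa_mem (γ := 1) trivial fun t => (one_smul k _).symm
    | add F F' _ _ h h' => exact add_mem h h'
    | mul F F' _ _ h h' => exact gpa_mul' (fun _ _ _ => rfl) (fun _ _ _ _ => mem_univ _) h h'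
  rw [iSup_univ, Submodule.mem_iSup_iff_exists_finsupp] at key
  obtain ⟨c, hc, e⟩ := key
  exact ⟨c, fun γ t g => congrFun (congrArg Subtype.val (hc γ t)) g, e⟩

/-- Eigenfunctions with weight outside the semigroup vanish. -/
theorem vanish_GP (hP : SG P) (hD : Dg D) (h : Nm D G) {f : Gl n k → k}
    (hf : RegOn (OG k n) (G : Set (Gl n k)) f) {γ : D →* kˣ} (hγ : γ ∉ P) (h1 : f 1 = 0)
    (he : ∀ (t : D), ∀ g ∈ G, f (t.1 * g * t.1⁻¹) = (γ t : k) * f g) :
    ∀ g ∈ GP G D P, f g = 0 := by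
  obtain ⟨F, hF, eF⟩ := hf
  let σ : Gl n k → Module.End k (Gl n k → k) := fun t =>
    LinearMap.funLeft k k fun g => t * g * t⁻¹
  have hσ : ∀ t a b, σ t (a * b) = σ t a * σ t b := fun _ _ _ => rfl
  obtain ⟨χ, χ1, χ0⟩ : ∃ χ : Gl n k → k, (∀ g ∈ GP G D P, χ g = 1) ∧ ∀ g ∉ GP G D P, χ g = 0 :=
    ⟨(GP G D P : Set (Gl n k)).indicator 1, fun g hg => indicator_of_mem hg _,
      fun g hg => indicator_of_notMem hg _⟩
  have ext : ∀ a b : Gl n k → k, (∀ g ∈ GP G D P, a g = b g) → χ * a = χ * b := fun a b e =>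
    funext fun g => by
      by_cases hg : g ∈ GP G D P
      · rw [Pi.mul_apply, Pi.mul_apply, e g hg]
      · rw [Pi.mul_apply, Pi.mul_apply, χ0 g hg, zero_mul, zero_mul]
  have eig : ∀ (δ : D →* kˣ) (a : Gl n k → k), (∀ (t : D), ∀ g ∈ GP G D P,
      a (t.1 * g * t.1⁻¹) = (δ t : k) * a g) → χ * a ∈ wV σ D δ := fun δ a e t => funext fun g => by
    change χ (t.1 * g * t.1⁻¹) * a (t.1 * g * t.1⁻¹) = (δ t : k) * (χ g * a g)
    by_cases hg : g ∈ GP G D P
    · rw [χ1 g hg, χ1 _ (nm_GP hP hD h _ t.2 g hg), e t g hg, one_mul, one_mul]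
    · rw [χ0 g hg, χ0 _ fun hc => hg (by
        simpa [mul_assoc] using nm_GP hP hD h _ (D.inv_mem t.2) _ hc), zero_mul, zero_mul, mul_zero]
  have hχ : χ ∈ wV σ D 1 := by simpa using eig 1 1 (by simp)
  have hχ' : χ ∈ ⨆ δ ∈ ({1} : Set (D →* kˣ)), wV σ D δ := gpa_mem rfl hχ
  have hχ2 : χ * χ = χ := (ext _ 1 χ1).trans (mul_one χ)
  have gen : ∀ φ : Gl n k → Gl n k, (∀ g ∈ GP G D P, φ g ∈ GP G D P) →
      (∀ t g, φ (t * g * t⁻¹) = t * φ g * t⁻¹) → ∀ l : Module.Dual k (Mt n k),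
      ∃ c : k, ∃ u ∈ ⨆ δ ∈ P, wV σ D δ, (χ * fun g => l (φ g).1) = c • χ + u := by
    intro φ hφ e
    refine gpa_dual hD (fun δ l hl => ⟨l 1, χ * fun g => l ((φ g).1 - 1), ?_, ?_⟩)
      ⟨0, 0, zero_mem _, by rw [zero_smul, add_zero]; exact mul_zero χ⟩ ?_
    · by_cases hδ : δ ∈ P
      · exact gpa_mem hδ (eig δ _ fun t g _ => by rw [e, ← gpa_Ad_sub, hl])
      rw [ext _ 0, mul_zero]
      · exact zero_mem _
      intro g hg
      refine gpa_ind (C := fun A => l A = 0) ((mem_GP hP).1 (hφ g hg)).2 (fun π hπ A hA => ?_)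
        l.map_zero fun x y hx hy => by rw [map_add, hx, hy, add_zero]
      by_contra hc
      refine hδ ((MonoidHom.ext fun t => Units.ext (mul_right_cancel₀ hc ?_) : π = δ) ▸ hπ)
      rw [← hl, hA t, map_smul, smul_eq_mul]
    · funext g
      simp only [Pi.mul_apply, Pi.add_apply, Pi.smul_apply, smul_eq_mul, map_sub]
      ring
    · rintro x y ⟨c, u, hu, e⟩ ⟨c', u', hu', e'⟩
      refine ⟨c + c', u + u', add_mem hu hu', ?_⟩
      rw [add_smul, add_add_add_comm, ← e, ← e', ← mul_add]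
      rfl
  have key : ∃ c : k, ∃ u ∈ ⨆ δ ∈ P, wV σ D δ, χ * F = c • χ + u := by
    clear eF
    induction hF using Algebra.adjoin_induction with
    | mem F hF =>
      obtain ⟨i, j, rfl | rfl⟩ := hF
      · exact gen _ (fun _ hg => hg) (fun _ _ => rfl) (Matrix.entryLinearMap k k i j)
      · exact gen _ (fun _ hg => inv_mem hg) (fun t g => by simp [mul_assoc])
          (Matrix.entryLinearMap k k i j)
    | algebraMap c =>
      exact ⟨c, 0, zero_mem _, by rw [add_zero, ← Algebra.commutes, Algebra.smul_def]⟩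
    | add F F' _ _ h h' =>
      obtain ⟨c, u, hu, e⟩ := h
      obtain ⟨c', u', hu', e'⟩ := h'
      exact ⟨c + c', u + u', add_mem hu hu', by
        rw [add_smul, add_add_add_comm, ← e, ← e', ← mul_add]⟩
    | mul F F' _ _ h h' =>
      obtain ⟨c, u, hu, e⟩ := h
      obtain ⟨c', u', hu', e'⟩ := h'
      have hm : ∀ w ∈ ⨆ δ ∈ P, wV σ D δ, χ * w ∈ ⨆ δ ∈ P, wV σ D δ := fun w hw =>
        gpa_mul' hσ (fun a ha b hb => by
          rw [mem_singleton_iff.1 ha]
          exact (one_mul b).symm ▸ hb) hχ' hw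
      refine ⟨c * c', c • (χ * u') + c' • (χ * u) + u * u', add_mem (add_mem
        (Submodule.smul_mem _ _ (hm _ hu')) (Submodule.smul_mem _ _ (hm _ hu)))
        (gpa_mul' hσ hP hu hu'), ?_⟩
      have e2 : χ * (F * F') = (χ * F) * (χ * F') := by rw [mul_mul_mul_comm, hχ2]
      rw [e2, e, e', add_mul, mul_add, mul_add, smul_mul_smul_comm, hχ2, smul_mul_assoc,
        mul_smul_comm, mul_comm u χ]
      abel
  obtain ⟨c, u, hu, e⟩ := key
  have hw : χ * F ∈ wV σ D γ := eig γ F fun t g hg => by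
    rw [eF _ (h _ t.2 g (GP_le hg)), eF g (GP_le hg), he t g (GP_le hg)]
  have hu' : u ∈ ⨆ δ, ⨆ (_ : δ ≠ γ), wV σ D δ :=
    biSup_mono (f := wV σ D) (fun δ hδ (hc : δ = γ) => hγ (hc ▸ hδ)) hu
  have hd := Submodule.disjoint_def.1 (iSupIndep_wV σ D γ)
  have e0 : χ * F = 0 := by
    by_cases h1' : γ = 1
    · have hu0 : u = 0 := hd u (by
        rw [← sub_eq_iff_eq_add'.2 e]
        exact sub_mem hw (Submodule.smul_mem _ _ (h1' ▸ hχ))) hu'
      have e1 := congrFun e 1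
      rw [hu0, add_zero, Pi.mul_apply, Pi.smul_apply, χ1 1 (one_mem _), eF 1 G.one_mem, h1,
        mul_zero, smul_eq_mul, mul_one] at e1
      rw [e, hu0, ← e1, zero_smul, add_zero]
    · exact hd _ hw (e ▸ add_mem (Submodule.smul_mem _ _ (Submodule.mem_iSup_of_mem 1
        (Submodule.mem_iSup_of_mem (Ne.symm h1') hχ))) hu')
  intro g hg
  have e1 := congrFun e0 g
  rwa [Pi.mul_apply, χ1 g hg, one_mul, eF g (GP_le hg)] at e1

/-- The action on weight vectors of a regular representation. -/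
theorem shift [FiniteDimensional k V] (hP : SG P) (hD : Dg D) (hDG : D ≤ G) (hρ : IsRep G ρ)
    {u : Gl n k} (hu : u ∈ GP G D P) {γ : D →* kˣ} {v : V} (hv : v ∈ wV ρ D γ) :
    ρ u v - v ∈ ⨆ π ∈ P, wV ρ D (γ * π) := by
  have top := hD.iSup_wV (hρ.mono hDG)
  obtain ⟨c, hc, e⟩ := (Submodule.mem_iSup_iff_exists_finsupp _ (ρ u v - v)).1
    (top.symm ▸ Submodule.mem_top)
  rw [← e]
  refine Submodule.sum_mem _ fun δ hδ => ?_
  by_cases hP' : γ⁻¹ * δ ∈ P
  · exact gpa_mem hP' ((mul_inv_cancel_left γ δ).symm ▸ hc δ)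
  exfalso
  obtain ⟨l, l1, l0⟩ := hD.exists_dual (hρ.mono hDG) (I := Unit) (e := fun _ => c δ)
    (wt := fun _ => δ) (linearIndependent_unique_iff.2 (Finsupp.mem_support_iff.1 hδ))
    fun _ => hc δ
  have hl : ∀ (t : D) x, l () (ρ t.1 x) = (δ t : k) * l () x := fun t x => by
    refine Submodule.iSup_induction (motive := fun x => l () (ρ t.1 x) = (δ t : k) * l () x) _
      (top.symm ▸ Submodule.mem_top) (fun β x hx => ?_) (by simp)
      fun x y hx hy => by rw [map_add, map_add, map_add, hx, hy, mul_add]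
    rw [hx t, map_smul, smul_eq_mul]
    by_cases hβ : β = δ
    · rw [hβ]
    · rw [l0 () β hβ x hx, mul_zero, mul_zero]
  have hv0 := vanish_GP hP hD (.of_le hDG) (f := fun g => l () (ρ g v - v))
    (((hρ.reg (l ()) v).sub (.const (l () v))).congr fun g _ => (map_sub _ _ _).symm) hP'
    (by simp [hρ.one]) (fun t g hg => by
      have ht := hDG t.2
      have e1 : ρ t.1⁻¹ v = ((γ t⁻¹ : kˣ) : k) • v := hv t⁻¹
      have e2 : ρ (t.1 * g * t.1⁻¹) v - v = ((γ t⁻¹ : kˣ) : k) • ρ t.1 (ρ g v - v) := by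
        rw [hρ.mul_apply (G.mul_mem ht hg) (G.inv_mem ht), hρ.mul_apply ht hg, ← map_smul, smul_sub,
          ← map_smul, ← e1, map_sub, hρ.apply_inv ht]
      rw [e2, map_smul, hl, smul_eq_mul, ← mul_assoc, map_inv]
      rfl) u hu
  rw [← e, Finsupp.sum, map_sum, Finset.sum_eq_single_of_mem δ hδ
    fun β _ hβ => l0 () β hβ _ (hc β), l1 () (), if_pos rfl] at hv0
  exact one_ne_zero hv0

end Pool.Agent.AG
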