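import Pool.Agent.Lib.AG.SM
import Pool.Agent.Lib.AG.GPa

/-! Equivariant local parameters and the Lie algebra of the subgroup of a semigroup. -/

namespace Pool.Agent.AG

open Set MvPolynomial

attribute [local instance 100] LieRing.ofAssociativeRing

universe u

variable {k : Type u} [Field k] [IsAlgClosed k] {n : ℕ} {G D : Subgroup (Gl n k)}

/-- Local parameters at the identity that are dual to a basis of weight vectors. -/
structure Chart (G D : Subgroup (Gl n k)) {I : Type} [DecidableEq I] (e : I → Mt n k)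
    (wt : I → (D →* kˣ)) (l : I → Module.Dual k (Mt n k)) (y : I → OG k n) : Prop where
  span : Submodule.span k (range e) = (lie G).toSubmodule
  mem : ∀ a, e a ∈ wV Ad D (wt a)
  dual : ∀ a b, l a (e b) = if a = b then 1 else 0
  kill : ∀ a γ, γ ≠ wt a → ∀ A ∈ wV Ad D γ, l a A = 0
  val : ∀ a g, (y a).1 g = l a (g.1 - 1)

variable {I : Type} [Fintype I] [DecidableEq I] {e : I → Mt n k} {wt : I → (D →* kˣ)}
  {l : I → Module.Dual k (Mt n k)} {y : I → OG k n}

private theorem chart_one (h : Chart G D e wt l y) (a : I) : (y a).1 1 = 0 := by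
  rw [h.val, Units.val_one, sub_self, map_zero]

private theorem chart_der (h : Chart G D e wt l y) (A : Mt n k) (a : I) : der A (y a) = l a A :=
  der_dual A (l a) (h.val a)

private theorem chart_zero {f : OG k n}
    (hf : f ∈ mx (OG k n) 1 ^ 2 ⊔ van (OG k n) (G : Set (Gl n k))) {A : Mt n k} (hA : A ∈ lie G) :
    der A f = 0 := by
  obtain ⟨f₁, h₁, f₂, h₂, rfl⟩ := Submodule.mem_sup.1 hf
  rw [map_add, der_of_mem_sq A h₁, mem_lie_iff.1 hA f₂ h₂, add_zero]

private theorem chart_mem (h : Chart G D e wt l y) (a : I) : e a ∈ lie G := by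
  have : e a ∈ (lie G).toSubmodule := h.span ▸ Submodule.subset_span ⟨a, rfl⟩
  exact this

private theorem chart_expand (h : Chart G D e wt l y) {A : Mt n k} (hA : A ∈ lie G) :
    ∑ a, l a A • e a = A := by
  have : A ∈ Submodule.span k (range e) := h.span ▸ hA
  obtain ⟨c, rfl⟩ := (Submodule.mem_span_range_iff_exists_fun k).1 this
  refine Finset.sum_congr rfl fun a _ => congrArg (· • e a) ?_
  simp only [map_sum, map_smul, h.dual, smul_eq_mul, mul_ite, mul_one, mul_zero,
    Finset.sum_ite_eq, Finset.mem_univ, if_true]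

private theorem chart_scale (s : I → k) (F : MvPolynomial I k) (d : I →₀ ℕ) :
    coeff d (aeval (fun a => s a • (X a : MvPolynomial I k)) F) = (∏ a, s a ^ d a) * coeff d F := by
  induction F using MvPolynomial.induction_on' with
  | monomial m c =>
    have h : aeval (fun a => s a • (X a : MvPolynomial I k)) (monomial m c) =
        (∏ a, s a ^ m a) • monomial m c := by
      rw [aeval_monomial, monomial_eq, Finsupp.prod_fintype _ _ fun _ => pow_zero _,
        Finsupp.prod_fintype _ _ fun _ => pow_zero _]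
      simp only [smul_pow, Finset.prod_smul, algebraMap_eq, mul_smul_comm]
    rw [h, coeff_smul, smul_eq_mul, coeff_monomial]
    split_ifs with h'
    · rw [h']
    · rw [mul_zero, mul_zero]
  | add p q hp hq => rw [map_add, coeff_add, coeff_add, hp, hq, mul_add]

/-- Conjugation as an endomorphism of the algebra of regular functions. -/
private def chartConj (t : Gl n k) : OG k n →ₐ[k] OG k n where
  toFun f := ⟨fun g => f.1 (t * g * t⁻¹),
    ((((MapOn.const t).mul MapOn.id).mul (MapOn.const t⁻¹)) f.1 f.2).mem⟩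
  map_one' := rfl
  map_mul' _ _ := rfl
  map_zero' := rfl
  map_add' _ _ := rfl
  commutes' _ := rfl

private theorem chart_conj_mem {t : Gl n k} (ht : ∀ g ∈ G, t * g * t⁻¹ ∈ G) {N : ℕ} {f : OG k n}
    (hf : f ∈ mx (OG k n) 1 ^ N ⊔ van (OG k n) (G : Set (Gl n k))) :
    chartConj t f ∈ mx (OG k n) 1 ^ N ⊔ van (OG k n) (G : Set (Gl n k)) := by
  have h1 : (mx (OG k n) 1).map (chartConj t) ≤ mx (OG k n) 1 :=
    Ideal.map_le_iff_le_comap.2 fun f hf => mem_mx.2 <| by
      change f.1 (t * 1 * t⁻¹) = 0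
      rw [mul_one, mul_inv_cancel]
      exact mem_mx.1 hf
  have h2 : (van (OG k n) (G : Set (Gl n k))).map (chartConj t) ≤
      van (OG k n) (G : Set (Gl n k)) :=
    Ideal.map_le_iff_le_comap.2 fun f hf g hg => hf _ (ht g hg)
  have h3 := Ideal.mem_map_of_mem (chartConj t) hf
  rw [Ideal.map_sup, Ideal.map_pow] at h3
  exact sup_le_sup (Ideal.pow_right_mono h1 N) h2 h3

theorem exists_chart (hD : Dg D) (he : LinearIndependent k e)
    (hs : Submodule.span k (range e) = (lie G).toSubmodule) (hw : ∀ a, e a ∈ wV Ad D (wt a)) :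
    ∃ l y, Chart G D e wt l y := by
  obtain ⟨l, h1, h2⟩ := hD.exists_dual (isRep_Ad D) he hw
  choose y hy using fun a => exists_dual_fun (l a)
  exact ⟨l, y, hs, hw, h1, h2, hy⟩

theorem Chart.eigen (h : Chart G D e wt l y) (hD : Dg D) (a : I) (t : D) (g : Gl n k) :
    (y a).1 (t.1 * g * t.1⁻¹) = (wt a t : k) * (y a).1 g := by
  have h1 : ∀ A : Mt n k, l a (Ad t.1 A) = (wt a t : k) * l a A := fun A => by
    have hA : A ∈ ⨆ γ, wV Ad D γ := hD.iSup_wV (isRep_Ad D) ▸ Submodule.mem_top
    induction hA using Submodule.iSup_induction' with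
    | mem γ A hA =>
      rw [mem_wV.1 hA t, map_smul, smul_eq_mul]
      rcases eq_or_ne γ (wt a) with rfl | hγ
      · rfl
      · rw [h.kill a γ hγ A hA, mul_zero, mul_zero]
    | zero => rw [map_zero, map_zero, mul_zero]
    | add A B _ _ hA hB => rw [map_add, map_add, map_add, hA, hB, mul_add]
  rw [h.val, h.val, ← h1, Ad_apply, mul_sub, sub_mul, mul_one, Units.mul_inv, Units.val_mul,
    Units.val_mul]

theorem Chart.approx (h : Chart G D e wt l y) (f : OG k n) (N : ℕ) : ∃ F : MvPolynomial I k,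
    f - aeval y F ∈ mx (OG k n) 1 ^ N ⊔ van (OG k n) (G : Set (Gl n k)) := by
  refine AG.approx (chart_one h) (fun f hf => ⟨fun a => der (e a) f, mem_sq_of_der ?_ ?_⟩) f N
  · refine mem_mx.1 (Ideal.sub_mem _ hf (Submodule.sum_mem _ fun a _ => ?_))
    exact Submodule.smul_of_tower_mem _ _ (mem_mx.2 (chart_one h a))
  · intro A hA
    rw [map_sub, map_sum, sub_eq_zero]
    conv_lhs => rw [← chart_expand h hA, map_sum, LinearMap.sum_apply]
    refine Finset.sum_congr rfl fun a _ => ?_
    rw [map_smul, map_smul, chart_der h, LinearMap.smul_apply, smul_eq_mul, smul_eq_mul, mul_comm]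

theorem Chart.coeff_eq_zero (h : Chart G D e wt l y) (hG : Closed (OG k n) (G : Set (Gl n k)))
    {N : ℕ} {F : MvPolynomial I k}
    (hF : aeval y F ∈ mx (OG k n) 1 ^ N ⊔ van (OG k n) (G : Set (Gl n k)))
    {d : I →₀ ℕ} (hd : d.degree < N) : coeff d F = 0 := by
  refine sm aff_OG hG (homog_subgroup G) (chart_one h) (fun c hc => funext fun b => ?_) hF hd
  have h1 := chart_zero hc (chart_mem h b)
  simpa only [map_sum, map_smul, chart_der h, h.dual, smul_eq_mul, mul_ite, mul_one, mul_zero,
    Finset.sum_ite_eq', Finset.mem_univ, if_true, Pi.zero_apply] using h1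

theorem Chart.weight (h : Chart G D e wt l y) (hG : Closed (OG k n) (G : Set (Gl n k)))
    (hD : Dg D) (hn : Nm D G) {f : OG k n} {γ : D →* kˣ}
    (hf : ∀ (t : D), ∀ g ∈ G, f.1 (t.1 * g * t.1⁻¹) = (γ t : k) * f.1 g) {N : ℕ}
    {F : MvPolynomial I k}
    (hF : f - aeval y F ∈ mx (OG k n) 1 ^ N ⊔ van (OG k n) (G : Set (Gl n k)))
    {d : I →₀ ℕ} (hd : d.degree < N) (h0 : coeff d F ≠ 0) : ∏ a, wt a ^ d a = γ := by
  ext t
  have h1 : chartConj t.1 (aeval y F) =
      aeval y (aeval (fun a => (wt a t : k) • (X a : MvPolynomial I k)) F) := by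
    rw [← AlgHom.comp_apply, ← AlgHom.comp_apply, comp_aeval, comp_aeval]
    refine congrArg (aeval · F) (funext fun a => ?_)
    rw [map_smul, aeval_X]
    exact Subtype.ext (funext fun g => h.eigen hD a t g)
  have h2 : chartConj t.1 f - (γ t : k) • f ∈ van (OG k n) (G : Set (Gl n k)) := fun g hg =>
    sub_eq_zero.2 (hf t g hg)
  have h3 : aeval y ((γ t : k) • F - aeval (fun a => (wt a t : k) • (X a : MvPolynomial I k)) F) =
      chartConj t.1 (f - aeval y F) - (γ t : k) • (f - aeval y F) -
        (chartConj t.1 f - (γ t : k) • f) := by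
    rw [map_sub, map_smul, ← h1, map_sub, smul_sub]
    abel
  have h4 := h.coeff_eq_zero hG (h3 ▸ Ideal.sub_mem _ (Ideal.sub_mem _
    (chart_conj_mem (hn t.1 t.2) hF) (Submodule.smul_of_tower_mem _ _ hF))
    (Ideal.mem_sup_right h2)) hd
  rw [coeff_sub, coeff_smul, chart_scale, smul_eq_mul, sub_eq_zero] at h4
  rw [mul_right_cancel₀ h0 h4, MonoidHom.finsetProd_apply, Units.coe_prod]
  rfl

theorem Chart.der_eq (h : Chart G D e wt l y) {f : OG k n} {F : MvPolynomial I k}
    (hF : f - aeval y F ∈ mx (OG k n) 1 ^ 2 ⊔ van (OG k n) (G : Set (Gl n k))) {A : Mt n k}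
    (hA : A ∈ lie G) : der A f = ∑ a, coeff (Finsupp.single a 1) F * l a A := by
  have h1 : ∀ F : MvPolynomial I k, (aeval y F).1 1 = coeff 0 F ∧
      der A (aeval y F) = ∑ a, coeff (Finsupp.single a 1) F * l a A := fun F => by
    induction F using MvPolynomial.induction_on with
    | C c =>
      rw [aeval_C, der_algebraMap, coeff_zero_C]
      refine ⟨rfl, (Finset.sum_eq_zero fun a _ => ?_).symm⟩
      rw [coeff_C, if_neg (Finsupp.single_ne_zero.2 one_ne_zero).symm, zero_mul]
    | add p q hp hq =>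
      rw [map_add, map_add, hp.2, hq.2, coeff_add, ← hp.1, ← hq.1, ← Finset.sum_add_distrib]
      exact ⟨rfl, Finset.sum_congr rfl fun a _ => by rw [coeff_add, add_mul]⟩
    | mul_X p i hp =>
      rw [map_mul, aeval_X, der_mul, chart_one h, chart_der h, zero_mul, add_zero, hp.1,
        coeff_mul_X', if_neg (by simp), Finset.sum_eq_single i]
      · refine ⟨?_, ?_⟩
        · change (aeval y p).1 1 * (y i).1 1 = 0
          rw [chart_one h, mul_zero]
        · rw [coeff_mul_X', if_pos (by simp), tsub_self]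
      · intro a _ ha
        rw [coeff_mul_X', if_neg (by simp [ha.symm]), zero_mul]
      · exact fun hi => (hi (Finset.mem_univ i)).elim
  have h2 := chart_zero hF hA
  rw [map_sub, sub_eq_zero] at h2
  rw [h2, (h1 F).2]

end Pool.Agent.AG
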