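import Pool.Agent.Lib.AG.Aff

/-! The image of a regular map contains a dense open subset of its closure. -/

namespace Pool.Agent.AG

open Set

universe u

variable {k : Type u} [Field k] [IsAlgClosed k] {X Y : Type u} {O : FA k X} {O' : FA k Y}
  {S : Set X} {φ : X → Y}

/-- Near a point, a constructible set contains all or none of the specialisations. -/
private theorem chev_top {T : Type u} [TopologicalSpace T] {s : Set T}
    (hs : Topology.IsConstructible s) (x : T) :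
    ∃ U, IsOpen U ∧ x ∈ U ∧ ∀ y ∈ U, y ∈ closure {x} → (y ∈ s ↔ x ∈ s) := by
  induction hs using Topology.IsConstructible.empty_union_induction with
  | open_retrocompact U hU _ =>
    by_cases hx : x ∈ U
    · exact ⟨U, hU, hx, fun y hy _ => iff_of_true hy hx⟩
    · exact ⟨univ, isOpen_univ, trivial, fun y _ hy => iff_of_false
        (closure_minimal (singleton_subset_iff.2 hx) hU.isClosed_compl hy) hx⟩
  | union s _ t _ hs ht =>
    obtain ⟨U, hU, hx, h⟩ := hs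
    obtain ⟨V, hV, hx', h'⟩ := ht
    exact ⟨U ∩ V, hU.inter hV, ⟨hx, hx'⟩, fun y hy hc => or_congr (h y hy.1 hc) (h' y hy.2 hc)⟩
  | compl s _ hs =>
    obtain ⟨U, hU, hx, h⟩ := hs
    exact ⟨U, hU, hx, fun y hy hc => not_congr (h y hy hc)⟩

/-- Generic extension of characters. -/
private theorem chev_alg {A B : Type u} [CommRing A] [CommRing B] [IsDomain B] [Algebra k A]
    [Algebra k B] [IsNoetherianRing A] [Algebra.FiniteType k B] (ψ : A →ₐ[k] B) :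
    ∃ f : A, ψ f ≠ 0 ∧ ∀ χ : A →ₐ[k] k, (∀ g, ψ g = 0 → χ g = 0) → χ f ≠ 0 →
      ∃ χ' : B →ₐ[k] k, ∀ g, χ' (ψ g) = χ g := by
  have h1 : (ψ : A →+* B).FiniteType := by
    refine .of_comp_finiteType (f := algebraMap k A) ?_
    rw [ψ.comp_algebraMap, RingHom.finiteType_algebraMap]
    infer_instance
  obtain ⟨U, hU, hx, h2⟩ := chev_top (PrimeSpectrum.isConstructible_range_comap
    (RingHom.FinitePresentation.of_finiteType.1 h1)) (PrimeSpectrum.comap (ψ : A →+* B) ⊥)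
  obtain ⟨_, ⟨_, ⟨f, rfl⟩, rfl⟩, hf, hfU⟩ :=
    PrimeSpectrum.isBasis_basic_opens.exists_subset_of_mem_open hx hU
  refine ⟨f, hf, fun χ h3 h4 => ?_⟩
  obtain ⟨q, hq⟩ := (h2 ⟨RingHom.ker χ, RingHom.ker_isPrime χ⟩ (hfU h4)
    ((PrimeSpectrum.le_iff_mem_closure _ _).1 h3)).2 ⟨⊥, rfl⟩
  obtain ⟨n, hn, hqn⟩ := q.asIdeal.exists_le_maximal q.isPrime.ne_top
  let := Ideal.Quotient.field n
  have := finite_of_finite_type_of_isJacobsonRing k (B ⧸ n)
  let e := AlgEquiv.ofBijective (Algebra.ofId k (B ⧸ n))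
    IsAlgClosed.algebraMap_bijective_of_isIntegral
  refine ⟨e.symm.toAlgHom.comp (Ideal.Quotient.mkₐ k n), fun g => ?_⟩
  have h5 : g - algebraMap k A (χ g) ∈ (PrimeSpectrum.comap (ψ : A →+* B) q).asIdeal := by
    rw [hq]
    simp [RingHom.mem_ker]
  have h6 : ψ (g - algebraMap k A (χ g)) ∈ n := hqn h5
  rw [map_sub, ψ.commutes, ← Ideal.Quotient.eq] at h6
  exact e.symm_apply_eq.2 h6

theorem chev_irr (h : Aff O) (h' : Aff O') (hS : Closed O S) (hi : Irr O S)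
    (hφ : MapOn O S O' φ) :
    ∃ f ∈ O', (∃ s ∈ S, f (φ s) ≠ 0) ∧ ∀ y ∈ clo O' (φ '' S), f y ≠ 0 → y ∈ φ '' S := by
  let R : O →ₐ[k] (S → k) := AlgHom.pi fun s => (Pi.evalAlgHom k _ s.1).comp O.val
  let ψ₀ : O' →ₐ[k] (S → k) := AlgHom.pi fun s => (Pi.evalAlgHom k _ (φ s.1)).comp O'.val
  let ψ : O' →ₐ[k] R.range := ψ₀.codRestrict _ fun g => by
    obtain ⟨F, hF, e⟩ := hφ g.1 g.2
    exact ⟨⟨F, hF⟩, funext fun s => e s.1 s.2⟩
  have := hi.1.to_subtype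
  have : NoZeroDivisors R.range := ⟨by
    rintro ⟨_, F, rfl⟩ ⟨_, G, rfl⟩ e
    exact (hi.2 F.1 F.2 G.1 G.2 fun s hs => congrFun (congrArg Subtype.val e) ⟨s, hs⟩).imp
      (fun e => Subtype.ext (funext fun s => e s.1 s.2))
      fun e => Subtype.ext (funext fun s => e s.1 s.2)⟩
  have : IsDomain R.range := NoZeroDivisors.to_isDomain _
  have := h'.noeth
  have : Algebra.FiniteType k O := ⟨(Subalgebra.fg_top _).2 h.fg⟩
  have : Algebra.FiniteType k R.range :=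
    .of_surjective R.rangeRestrict R.rangeRestrict_surjective
  obtain ⟨f, hf, h1⟩ := chev_alg ψ
  refine ⟨f.1, f.2, ?_, fun y hy hfy => ?_⟩
  · by_contra hc
    exact hf (Subtype.ext (funext fun s => by_contra fun e => hc ⟨s.1, s.2, e⟩))
  · obtain ⟨χ, hχ⟩ := h1 ((Pi.evalAlgHom k _ y).comp O'.val) (fun g hg => hy g.1 g.2 (by
      rintro _ ⟨s, hs, rfl⟩
      exact congrFun (congrArg Subtype.val hg) ⟨s, hs⟩)) hfy
    obtain ⟨s, hs, e⟩ := h.pt_of hS (χ.comp R.rangeRestrict) fun F hF => by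
      rw [AlgHom.comp_apply, show R.rangeRestrict F = 0 from
        Subtype.ext (funext fun s => hF s.1 s.2), map_zero]
    refine ⟨s, hs, h'.sep _ _ fun g hg => ?_⟩
    obtain ⟨F, hF, e'⟩ := hφ g hg
    have h2 : R.rangeRestrict ⟨F, hF⟩ = ψ ⟨g, hg⟩ := Subtype.ext (funext fun s => e' s.1 s.2)
    have h3 := e ⟨F, hF⟩
    rw [AlgHom.comp_apply, h2, hχ] at h3
    exact (e' s hs).symm.trans h3.symm

theorem chev (h : Aff O) (h' : Aff O') (hS : Closed O S) (hφ : MapOn O S O' φ) :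
    ∃ W, Closed O' W ∧ clo O' (φ '' S) \ W ⊆ φ '' S ∧
      clo O' (φ '' S) ⊆ clo O' (clo O' (φ '' S) \ W) := by
  obtain ⟨s, hs, h1, rfl⟩ := h.exists_irr hS
  have h2 : ∀ A ∈ s, MapOn O A O' φ := fun A hA => hφ.mono (subset_sUnion_of_mem hA)
  choose! f hf hne hin using fun A (hA : A ∈ s) => chev_irr h h' (h1 A hA).1 (h1 A hA).2 (h2 A hA)
  have h3 : ∀ A ∈ s, Closed O' {y | y ∈ clo O' (φ '' A) ∧ f A y = 0} := fun A hA =>
    RegOn.closed closed_clo (.of_mem (hf A hA))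
  have h4 : clo O' (φ '' ⋃₀ s) ⊆ ⋃ A ∈ s, clo O' (φ '' A) := by
    refine clo_min ?_ (closed_biUnion hs fun _ _ => closed_clo)
    rintro _ ⟨x, ⟨A, hA, hx⟩, rfl⟩
    exact mem_biUnion hA (subset_clo ⟨x, hx, rfl⟩)
  have h5 : ∀ A ∈ s, φ '' A ⊆ φ '' ⋃₀ s := fun A hA => image_mono (subset_sUnion_of_mem hA)
  refine ⟨_, closed_biUnion hs h3, fun y hy => ?_, fun y hy => ?_⟩
  · obtain ⟨A, hA, hyA⟩ := mem_iUnion₂.1 (h4 hy.1)
    exact h5 A hA (hin A hA y hyA fun e => hy.2 (mem_biUnion hA ⟨hyA, e⟩))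
  · obtain ⟨A, hA, hyA⟩ := mem_iUnion₂.1 (h4 hy)
    obtain ⟨_, hle, ⟨B, hB, rfl⟩, hmax⟩ := (hs.image fun A => clo O' (φ '' A)).exists_le_maximal
      ⟨A, hA, rfl⟩
    have h6 : Irr O' (clo O' (φ '' B)) := ((h1 B hB).2.image (h2 B hB)).closure
    refine clo_mono (sdiff_subset_sdiff_left (clo_mono (h5 B hB)))
      (h6.subset_clo_diff (closed_biUnion hs h3).relCl (fun hc => ?_) (hle hyA))
    obtain ⟨C, hC, h7⟩ := h6.cover hs (fun C hC => (h3 C hC).relCl) hc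
    obtain ⟨x, hx, h8⟩ := hne C hC
    exact h8 (h7 (hmax ⟨C, hC, rfl⟩ (fun z hz => (h7 hz).1) (subset_clo ⟨x, hx, rfl⟩))).2

/-- Homogeneous images are open in their closure. -/
theorem orb0 (h : Aff O) (h' : Aff O') (hS : Closed O S) (hφ : MapOn O S O' φ)
    (ht : ∀ y ∈ φ '' S, ∀ y' ∈ φ '' S, ∃ e : Y ≃ Y, MapOn O' univ O' e ∧ MapOn O' univ O' e.symm ∧
      e '' (φ '' S) = φ '' S ∧ e y = y') :
    Closed O' (clo O' (φ '' S) \ φ '' S) := by
  obtain ⟨W, hW, h1, h2⟩ := chev h h' hS hφ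
  have h3 : Closed O' (clo O' (φ '' S) ∩ ⋂ e : {e : Y ≃ Y // MapOn O' univ O' e ∧
      e '' (φ '' S) = φ '' S}, univ ∩ e.1 ⁻¹' W) :=
    closed_clo.inter (closed_iInter fun e => e.2.1.closed closed_univ hW)
  refine Subset.trans (clo_min ?_ h3) fun z hz => ⟨hz.1, fun hc => ?_⟩
  · refine fun z hz => ⟨hz.1, mem_iInter.2 fun e => ⟨trivial, ?_⟩⟩
    have h4 := e.2.1.mem_clo (subset_univ _) trivial hz.1
    rw [e.2.2] at h4
    by_contra hc
    exact hz.2 (e.1.injective.mem_set_image.1 (e.2.2.ge (h1 ⟨h4, hc⟩)))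
  · obtain ⟨y, hy⟩ : (clo O' (φ '' S) \ W).Nonempty := by
      rw [nonempty_iff_ne_empty]
      intro e
      exact closed_empty (e ▸ h2 hz.1)
    obtain ⟨e, he, -, he', rfl⟩ := ht z hc y (h1 hy)
    exact hy.2 (mem_iInter.1 hz.2 ⟨e, he, he'⟩).2

end Pool.Agent.AG
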