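import Pool.Agent.Lib.AG.LK

/-! Closed cones and the fixed point theorem of Borel. -/

namespace Pool.Agent.AG

open Set

universe u

variable {k : Type u} [Field k] [IsAlgClosed k] {n : ℕ}
  {B N : Subgroup (Gl n k)} {V : Type u} [AddCommGroup V] [Module k V] [FiniteDimensional k V]
  {ρ : Gl n k → Module.End k V}

/-- Linear forms as functions. -/
private def coneL (k : Type u) [Field k] (V : Type u) [AddCommGroup V] [Module k V] :
    Submodule k (V → k) :=
  LinearMap.range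
    ({ toFun l := l, map_add' _ _ := rfl, map_smul' _ _ := rfl } : Module.Dual k V →ₗ[k] (V → k))

omit [IsAlgClosed k] [FiniteDimensional k V] in
private theorem cone_pow {d : ℕ} {g : V → k} (hg : g ∈ coneL k V ^ d) :
    (∃ G ∈ mx (OV k V) 0 ^ d, G.1 = g) ∧ ∀ (t : k) v, g (t • v) = t ^ d * g v := by
  induction hg using Submodule.pow_induction_on_left' with
  | algebraMap r => exact ⟨⟨algebraMap k _ r, by simp, rfl⟩, fun t v => by simp⟩
  | add x y i _ _ hx hy =>
    obtain ⟨⟨G, hG, rfl⟩, h1⟩ := hx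
    obtain ⟨⟨G', hG', rfl⟩, h2⟩ := hy
    exact ⟨⟨G + G', add_mem hG hG', rfl⟩, fun t v => by rw [Pi.add_apply, Pi.add_apply, h1, h2, mul_add]⟩
  | mem_mul m hm i x _ hx =>
    obtain ⟨⟨G, hG, rfl⟩, h1⟩ := hx
    obtain ⟨l, rfl⟩ := hm
    refine ⟨⟨⟨l, dual_mem_OV l⟩ * G, ?_, rfl⟩, fun t v => ?_⟩
    · rw [Nat.succ_eq_add_one, pow_succ']
      exact Ideal.mul_mem_mul (mem_mx.2 (map_zero l)) hG
    · change l (t • v) * G.1 (t • v) = t ^ (i + 1) * (l v * G.1 v)
      rw [h1, map_smul, smul_eq_mul]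
      ring

omit [IsAlgClosed k] [FiniteDimensional k V] in
private theorem cone_dec {f : V → k} (hf : f ∈ OV k V) :
    ∃ q : Polynomial (V → k), (∀ d, q.coeff d ∈ coneL k V ^ d) ∧
      ∀ (t : k) v, f (t • v) = (q.map (Pi.evalRingHom (fun _ => k) v)).eval t := by
  induction hf using Algebra.adjoin_induction with
  | mem f hf =>
    obtain ⟨l, rfl⟩ := hf
    refine ⟨Polynomial.monomial 1 l, fun d => ?_, fun t v => by simp [mul_comm]⟩
    rw [Polynomial.coeff_monomial]
    split_ifs with h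
    · subst h
      rw [pow_one]
      exact ⟨l, rfl⟩
    · exact zero_mem _
  | algebraMap c =>
    refine ⟨Polynomial.C (algebraMap k _ c), fun d => ?_, fun t v => by simp⟩
    rw [Polynomial.coeff_C]
    split_ifs with h
    · subst h
      rw [pow_zero]
      exact Submodule.algebraMap_mem c
    · exact zero_mem _
  | add f g _ _ hf hg =>
    obtain ⟨q, h1, h2⟩ := hf
    obtain ⟨q', h1', h2'⟩ := hg
    refine ⟨q + q', fun d => ?_, fun t v => ?_⟩
    · rw [Polynomial.coeff_add]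
      exact add_mem (h1 d) (h1' d)
    · rw [Pi.add_apply, h2, h2', Polynomial.map_add, Polynomial.eval_add]
  | mul f g _ _ hf hg =>
    obtain ⟨q, h1, h2⟩ := hf
    obtain ⟨q', h1', h2'⟩ := hg
    refine ⟨q * q', fun d => ?_, fun t v => ?_⟩
    · rw [Polynomial.coeff_mul]
      refine Submodule.sum_mem _ fun c hc => ?_
      rw [← Finset.HasAntidiagonal.mem_antidiagonal.1 hc, pow_add]
      exact Submodule.mul_mem_mul (h1 _) (h1' _)
    · rw [Pi.mul_apply, h2, h2', Polynomial.map_mul, Polynomial.eval_mul]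

omit [IsAlgClosed k] [FiniteDimensional k V] in
private theorem cone_hom (l : Module.Dual k V) {f : V → k} (hf : f ∈ OV k V) :
    ∃ m : ℕ, ∃ F ∈ OV k V, ∀ w, l w ≠ 0 → F w = l w ^ m * f ((l w)⁻¹ • w) := by
  induction hf using Algebra.adjoin_induction with
  | mem f hf =>
    obtain ⟨x, rfl⟩ := hf
    refine ⟨1, x, dual_mem_OV x, fun w hw => ?_⟩
    rw [map_smul, smul_eq_mul, pow_one, mul_inv_cancel_left₀ hw]
  | algebraMap c => exact ⟨0, _, Subalgebra.algebraMap_mem _ c, fun w _ => by simp⟩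
  | add f g _ _ hf hg =>
    obtain ⟨m, F, hF, h1⟩ := hf
    obtain ⟨m', F', hF', h2⟩ := hg
    refine ⟨m + m', (l : V → k) ^ m' * F + (l : V → k) ^ m * F',
      add_mem (mul_mem (pow_mem (dual_mem_OV l) _) hF) (mul_mem (pow_mem (dual_mem_OV l) _) hF'),
      fun w hw => ?_⟩
    simp only [Pi.add_apply, Pi.mul_apply, Pi.pow_apply, h1 w hw, h2 w hw]
    ring
  | mul f g _ _ hf hg =>
    obtain ⟨m, F, hF, h1⟩ := hf
    obtain ⟨m', F', hF', h2⟩ := hg
    refine ⟨m + m', F * F', mul_mem hF hF', fun w hw => ?_⟩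
    simp only [Pi.mul_apply, h1 w hw, h2 w hw]
    ring

/-- A closed cone that meets a hyperplane only at the origin is a finite union of lines. -/
theorem finite_of_cone {C : Set V} (hC : Closed (OV k V) C) (hs : ∀ (a : k), ∀ v ∈ C, a • v ∈ C)
    (l : Module.Dual k V) (h : ∀ v ∈ C, l v = 0 → v = 0) : {v | v ∈ C ∧ l v = 1}.Finite := by
  classical
  set A : Set V := {v | v ∈ C ∧ l v = 1} with hA
  let lo : OV k V := ⟨l, dual_mem_OV l⟩
  have := (aff_OV (k := k) (V := V)).noeth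
  obtain ⟨N, hN⟩ : ∃ N : ℕ, mx (OV k V) 0 ^ N ≤ van (OV k V) C ⊔ Ideal.span {lo} := by
    refine Ideal.exists_pow_le_of_le_radical_of_fg (fun f hf => aff_OV.ns _ f fun x hx => ?_)
      (IsNoetherian.noetherian _)
    have h1 : x ∈ C := hC fun g hg h0 => hx ⟨g, hg⟩ (Ideal.mem_sup_left h0)
    have h2 : l x = 0 := hx lo (Ideal.mem_sup_right (Ideal.mem_span_singleton_self _))
    rw [h x h1 h2]
    exact mem_mx.1 hf
  let r : (V → k) →ₐ[k] (A → k) := AlgHom.pi fun a => Pi.evalAlgHom k (fun _ => k) a.1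
  set L := (coneL k V).map r.toLinearMap with hL
  have hstep : L ^ (N + 1) ≤ L ^ N := by
    rw [hL, ← Submodule.map_pow, ← Submodule.map_pow]
    rintro _ ⟨g, hg, rfl⟩
    obtain ⟨⟨G, hG, rfl⟩, h1⟩ := cone_pow hg
    obtain ⟨f, hf, _, hH, e⟩ := Submodule.mem_sup.1 (hN (Ideal.pow_le_pow_right N.le_succ hG))
    obtain ⟨H, rfl⟩ := Ideal.mem_span_singleton'.1 hH
    obtain ⟨q, h2, h3⟩ := cone_dec H.2
    refine ⟨q.coeff N, h2 N, funext fun v => ?_⟩
    change q.coeff N v.1 = G.1 v.1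
    have h4 : Polynomial.monomial (N + 1) (G.1 v.1) =
        q.map (Pi.evalRingHom (fun _ => k) v.1) * Polynomial.X := by
      refine Polynomial.funext fun t => ?_
      rw [Polynomial.eval_monomial, Polynomial.eval_mul, Polynomial.eval_X, ← h3, mul_comm, ← h1,
        ← e]
      change f.1 (t • v.1) + H.1 (t • v.1) * l (t • v.1) = _
      rw [hf _ (hs t _ v.2.1), map_smul, v.2.2, zero_add, smul_eq_mul, mul_one]
    have h5 := congrArg (fun p => p.coeff (N + 1)) h4
    simp only [Polynomial.coeff_monomial_same, Polynomial.coeff_mul_X, Polynomial.coeff_map] at h5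
    exact h5.symm
  have hall : ∀ j, L ^ (N + j) ≤ L ^ N := by
    intro j
    induction j with
    | zero => exact le_rfl
    | succ j ih =>
      rw [← add_assoc, pow_succ]
      exact (mul_le_mul_left ih L).trans ((pow_succ L N).symm.le.trans hstep)
  have h1 : (1 : A → k) ∈ L := ⟨l, ⟨l, rfl⟩, funext fun v => v.2.2⟩
  have h1' : (1 : A → k) ∈ L ^ N := by simpa using Submodule.pow_mem_pow L h1 N
  let S : Subalgebra k (A → k) := (L ^ N).toSubalgebra h1' fun x y hx hy =>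
    hall N (by rw [pow_add]; exact Submodule.mul_mem_mul hx hy)
  have hfg : (L ^ N).FG := by
    refine Submodule.FG.pow (Submodule.FG.map _ ?_) N
    rw [coneL, LinearMap.range_eq_map]
    exact Submodule.FG.map _ Module.Finite.fg_top
  have : Module.Finite k S := Module.Finite.iff_fg.2 hfg
  refine Finite.of_injective (α := A) (fun v : A => (Pi.evalAlgHom k (fun _ => k) v).comp S.val)
    fun v w e => Subtype.ext ?_
  rw [← sub_eq_zero, ← Module.forall_dual_apply_eq_zero_iff k]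
  intro x
  have hx : r x ∈ L ^ N := hstep (by
    rw [pow_succ]
    simpa using Submodule.mul_mem_mul h1' (show r x ∈ L from ⟨x, ⟨x, rfl⟩, rfl⟩))
  rw [map_sub, sub_eq_zero]
  exact DFunLike.congr_fun e ⟨r x, hx⟩

/-- Homogenisation. -/
theorem closed_homog {A : Set V} (hA : Closed (OV k V) A) (l : Module.Dual k V)
    (h : ∀ v ∈ A, l v = 1) : Closed (OV k V) {w | l w = 0 ∨ ∃ a : k, ∃ v ∈ A, w = a • v} := by
  intro w hw
  by_cases h0 : l w = 0
  · exact Or.inl h0
  refine Or.inr ⟨l w, (l w)⁻¹ • w, hA fun f hf hf0 => ?_, by rw [smul_inv_smul₀ h0]⟩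
  obtain ⟨m, F, hF, e⟩ := cone_hom l hf
  have h1 := hw ((l : V → k) * F) (mul_mem (dual_mem_OV l) hF) fun x hx => by
    by_cases h2 : l x = 0
    · rw [Pi.mul_apply, h2, zero_mul]
    obtain ⟨a, v, hv, rfl⟩ := hx.resolve_left h2
    have h3 : l (a • v) = a := by rw [map_smul, h v hv, smul_eq_mul, mul_one]
    rw [Pi.mul_apply, e _ h2]
    rw [h3] at h2 ⊢
    rw [inv_smul_smul₀ h2, hf0 v hv, mul_zero, mul_zero]
  rw [Pi.mul_apply, e w h0] at h1
  exact (mul_eq_zero.1 ((mul_eq_zero.1 h1).resolve_left h0)).resolve_left (pow_ne_zero _ h0)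

theorem closed_preimage_subtype {C : Set V} (hC : Closed (OV k V) C) (W : Submodule k V) :
    Closed (OV k W) {w : W | (w : V) ∈ C} := by
  have := (MapOn.linear W.subtype (S := univ)).closed closed_univ hC
  rwa [univ_inter] at this

theorem fixed_of_cone (hB : Irr (OG k n) (B : Set (Gl n k))) (hρ : IsRep B ρ) {C : Set V}
    (hC : Cone B ρ C) (l : Module.Dual k V) (h : ∀ v ∈ C, l v = 0 → v = 0) {v : V} (hv : v ∈ C) :
    ∀ b ∈ B, ∃ a : k, ρ b v = a • v := by
  by_cases h0 : v = 0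
  · exact fun b _ => ⟨0, by rw [h0, map_zero, smul_zero]⟩
  obtain ⟨w, -, hw⟩ := hB.cover (F := fun w : V => (fun g => ρ g v) ⁻¹' (k ∙ w : Submodule k V))
    (finite_of_cone hC.1 hC.2.1 l h) (fun w _ => (hρ.mapOn v).relCl (closed_submodule _))
    fun b hb => by
      have h1 : ρ b v ∈ C := hC.2.2 b hb v hv
      have h2 : l (ρ b v) ≠ 0 := fun e => h0 (by rw [← hρ.inv_apply hb v, h _ h1 e, map_zero])
      refine mem_iUnion₂.2 ⟨(l (ρ b v))⁻¹ • ρ b v, ⟨hC.2.1 _ _ h1, ?_⟩, ?_⟩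
      · rw [map_smul, smul_eq_mul, inv_mul_cancel₀ h2]
      · exact Submodule.mem_span_singleton.2 ⟨l (ρ b v), smul_inv_smul₀ h2 _⟩
  obtain ⟨c, hc⟩ := Submodule.mem_span_singleton.1 (hw B.one_mem)
  simp only [hρ.one, Module.End.one_apply] at hc
  have hc0 : c ≠ 0 := fun e => h0 (by rw [← hc, e, zero_smul])
  intro b hb
  obtain ⟨d, hd⟩ := Submodule.mem_span_singleton.1 (hw hb)
  exact ⟨d * c⁻¹, by rw [mul_smul, ← hc, inv_smul_smul₀ hc0, hc]; exact hd.symm⟩

/-- The fixed point theorem. -/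
theorem borel_fixed (hB : Irr (OG k n) (B : Set (Gl n k))) (hs : Group.IsSolvable B)
    (hρ : IsRep B ρ) {C : Set V} (hC : Cone B ρ C) (h0 : ∃ v ∈ C, v ≠ 0) :
    ∃ v ∈ C, v ≠ 0 ∧ ∀ b ∈ B, ∃ a : k, ρ b v = a • v := by
  induction hm : Module.finrank k V using Nat.strong_induction_on generalizing V with
  | _ m ih =>
    obtain ⟨v, hv, hv0⟩ := h0
    have : Nontrivial V := ⟨⟨v, 0, hv0⟩⟩
    obtain ⟨l, hl, hst⟩ := exists_hyperplane hB hs hρ
    by_cases h : ∀ v ∈ C, l v = 0 → v = 0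
    · exact ⟨v, hv, hv0, fixed_of_cone hB hρ hC l h hv⟩
    simp only [not_forall] at h
    obtain ⟨w, hw, hlw, hw0⟩ := h
    obtain ⟨σ, hσ, e⟩ := hρ.exists_sub hst
    obtain ⟨x, hx, hx0, hf⟩ := ih _ (hm ▸ Submodule.finrank_lt (mt LinearMap.ker_eq_top.1 hl)) hσ
      (C := {w : LinearMap.ker l | (w : V) ∈ C})
      ⟨closed_preimage_subtype hC.1 _, fun a y hy => hC.2.1 a _ hy, fun g hg y hy => by
        change (σ g y : V) ∈ C
        rw [e g hg]
        exact hC.2.2 g hg _ hy⟩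
      ⟨⟨w, hlw⟩, hw, fun e => hw0 (congrArg Subtype.val e)⟩ rfl
    refine ⟨x, hx, fun e => hx0 (Subtype.ext e), fun b hb => ?_⟩
    obtain ⟨a, ha⟩ := hf b hb
    exact ⟨a, by rw [← e b hb, ha]; rfl⟩

end Pool.Agent.AG
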