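import Pool.Agent.Lib.AG.Rep

/-! Closed orbits. -/

namespace Pool.Agent.AG

open Set

universe u

variable {k : Type u} [Field k] [IsAlgClosed k] [Fact (ringChar k).Prime] {n : ℕ}
  {G N : Subgroup (Gl n k)} {V : Type u} [AddCommGroup V] [Module k V] [FiniteDimensional k V]
  {ρ : Gl n k → Module.End k V}

omit [IsAlgClosed k] [Fact (ringChar k).Prime] in
private theorem orb_fin {f : V → k} (hf : f ∈ OV k V) : ∃ F : Submodule k (V → k), f ∈ F ∧ F.FG ∧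
    F ≤ (OV k V).toSubmodule ∧
      ∀ A : Module.End k V, F ≤ F.comap (LinearMap.funLeft k k A) := by
  induction hf using Algebra.adjoin_induction with
  | mem f hf =>
    obtain ⟨l, rfl⟩ := hf
    refine ⟨LinearMap.range (LinearMap.ltoFun k V k k), ⟨l, rfl⟩, ?_, ?_, fun A => ?_⟩
    · rw [LinearMap.range_eq_map]
      exact Module.Finite.fg_top.map _
    · rintro _ ⟨l, rfl⟩
      exact dual_mem_OV l
    · rintro _ ⟨l, rfl⟩
      exact ⟨l ∘ₗ A, rfl⟩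
  | algebraMap c =>
    refine ⟨LinearMap.range (Algebra.linearMap k (V → k)), ⟨c, rfl⟩, ?_, ?_, fun A => ?_⟩
    · rw [LinearMap.range_eq_map]
      exact Module.Finite.fg_top.map _
    · rintro _ ⟨c, rfl⟩
      exact (OV k V).algebraMap_mem c
    · rintro _ ⟨c, rfl⟩
      exact ⟨c, rfl⟩
  | add f g _ _ hf hg =>
    obtain ⟨F, h1, h2, h3, h4⟩ := hf
    obtain ⟨F', h1', h2', h3', h4'⟩ := hg
    exact ⟨F ⊔ F', Submodule.add_mem_sup h1 h1', h2.sup h2', sup_le h3 h3', fun A =>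
      sup_le ((h4 A).trans (Submodule.comap_mono le_sup_left))
        ((h4' A).trans (Submodule.comap_mono le_sup_right))⟩
  | mul f g _ _ hf hg =>
    obtain ⟨F, h1, h2, h3, h4⟩ := hf
    obtain ⟨F', h1', h2', h3', h4'⟩ := hg
    exact ⟨F * F', Submodule.mul_mem_mul h1 h1', h2.mul h2',
      Submodule.mul_le.2 fun a ha b hb => (OV k V).mul_mem (h3 ha) (h3' hb), fun A =>
      Submodule.mul_le.2 fun a ha b hb => Submodule.mul_mem_mul (h4 A ha) (h4' A hb)⟩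

omit [Fact (ringChar k).Prime] in
private theorem orb_bd {Γ : Type*} [Group Γ] (σ : Γ →* Module.End k V) (v : V) {X : Type u}
    {O : FA k X} {S : Set X} {φ : X → V} (h : Aff O) (hS : Closed O S)
    (hφ : MapOn O S (OV k V) φ) {T : Set V} (hT : ∀ w, w ∈ T ↔ ∃ γ, w = σ γ v)
    (e : φ '' S = T) : Closed (OV k V) (clo (OV k V) T \ T) ∧
      ∀ γ, ∀ w ∈ clo (OV k V) T \ T, σ γ w ∈ clo (OV k V) T \ T := by
  have h1 : ∀ γ δ w, σ γ (σ δ w) = σ (γ * δ) w := fun γ δ w => by rw [map_mul]; rfl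
  have h2 : ∀ γ w, σ γ⁻¹ (σ γ w) = w := fun γ w => by rw [h1, inv_mul_cancel, map_one]; rfl
  have h3 : ∀ γ, ∀ w ∈ T, σ γ w ∈ T := fun γ w hw => by
    obtain ⟨δ, rfl⟩ := (hT w).1 hw
    exact (hT _).2 ⟨_, h1 _ _ _⟩
  refine ⟨?_, fun γ w hw => ⟨?_, fun h' => hw.2 (h2 γ w ▸ h3 γ⁻¹ _ h')⟩⟩
  · have := orb0 h aff_OV hS hφ
    rw [e] at this
    refine this fun y hy y' hy' => ?_
    obtain ⟨γ, rfl⟩ := (hT y).1 hy
    obtain ⟨δ, rfl⟩ := (hT y').1 hy'
    have h4 := h2 (δ * γ⁻¹)⁻¹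
    rw [inv_inv] at h4
    refine ⟨⟨σ (δ * γ⁻¹), σ (δ * γ⁻¹)⁻¹, h2 _, h4⟩, .linear _, .linear _, ?_, ?_⟩
    · exact subset_antisymm (image_subset_iff.2 (h3 _)) fun w hw => ⟨_, h3 _ w hw, h4 w⟩
    · change σ _ _ = _
      rw [h1, inv_mul_cancel_right]
  · exact clo_mono (image_subset_iff.2 (h3 γ))
      ((MapOn.linear (σ γ)).mem_clo (subset_univ T) trivial hw.1)

/-- The theorem of Kostant and Rosenlicht. -/
theorem closed_orbit_unip (hN : Closed (OG k n) (N : Set (Gl n k))) (hu : ∀ u ∈ N, Unip u)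
    (hρ : IsRep N ρ) (v : V) : Closed (OV k V) {w | ∃ u ∈ N, w = ρ u v} := by
  generalize hT : {w | ∃ u ∈ N, w = ρ u v} = T
  have hT' : ∀ w, w ∈ T ↔ ∃ γ, w = hρ.hom γ v := fun w => by
    rw [← hT]
    exact ⟨fun ⟨u, hu, h⟩ => ⟨⟨u, hu⟩, h⟩, fun ⟨u, h⟩ => ⟨u.1, u.2, h⟩⟩
  obtain ⟨h1, h2⟩ := orb_bd hρ.hom v aff_OG hN (hρ.mapOn v) hT' (by
    rw [← hT]
    exact ext fun w => ⟨fun ⟨u, hu, h⟩ => ⟨u, hu, h.symm⟩, fun ⟨u, hu, h⟩ => ⟨u, hu, h.symm⟩⟩)
  intro y hy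
  by_contra hy'
  have hv : v ∉ clo (OV k V) (clo (OV k V) T \ T) := fun h =>
    (h1 h).2 ((hT' v).2 ⟨1, by rw [map_one]; rfl⟩)
  simp only [clo, mem_ofPred_eq, not_forall] at hv
  obtain ⟨f, hf, hf0, hfv⟩ := hv
  obtain ⟨F, m1, m2, m3, m4⟩ := orb_fin hf
  let I : Submodule k (V → k) := ⨅ w : ↥(clo (OV k V) T \ T), LinearMap.ker (LinearMap.proj w.1)
  have hI : ∀ g, g ∈ I ↔ ∀ w ∈ clo (OV k V) T \ T, g w = 0 := fun g => by
    rw [Submodule.mem_iInf]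
    exact ⟨fun h w hw => h ⟨w, hw⟩, fun h w => h w.1 w.2⟩
  let W : Submodule k (N → k) := (F ⊓ I).map (LinearMap.funLeft k k fun u : N => hρ.hom u v)
  let τ : Representation k N (N → k) :=
    { toFun u := LinearMap.funLeft k k fun x => u⁻¹ * x
      map_one' := LinearMap.ext fun g => funext fun x => by
        change g (1⁻¹ * x) = g x
        rw [inv_one, one_mul]
      map_mul' a b := LinearMap.ext fun g => funext fun x => by
        change g ((a * b)⁻¹ * x) = g (b⁻¹ * (a⁻¹ * x))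
        rw [mul_inv_rev, mul_assoc] }
  have hW : ∀ u, W ≤ W.comap (τ u) := by
    rintro u _ ⟨g, hg, rfl⟩
    refine ⟨LinearMap.funLeft k k (hρ.hom u⁻¹) g, ⟨m4 _ hg.1, (hI _).2 fun w hw =>
      (hI g).1 hg.2 _ (h2 _ w hw)⟩, funext fun x => ?_⟩
    change g (hρ.hom u⁻¹ (hρ.hom x v)) = g (hρ.hom (u⁻¹ * x) v)
    rw [map_mul]
    rfl
  have : FiniteDimensional k F := Module.Finite.iff_fg.2 m2
  have : FiniteDimensional k ↥(F ⊓ I) := Submodule.finiteDimensional_inf_left F I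
  have : Nontrivial W := Submodule.nontrivial_iff_ne_bot.2 ((Submodule.ne_bot_iff W).2
    ⟨_, ⟨f, ⟨m1, (hI f).2 hf0⟩, rfl⟩, fun h => hfv (by
      have := congrFun h 1
      rwa [LinearMap.funLeft_apply, map_one] at this)⟩)
  have hp : ∀ u, τ.subrepresentation W hW u ^ ringChar k ^ n = 1 := fun u => by
    rw [← map_pow, show u ^ ringChar k ^ n = 1 from Subtype.ext (unip_iff.1 (hu u.1 u.2)), map_one]
  obtain ⟨⟨_, g, hg, rfl⟩, h0, hfix⟩ := kolchin (τ.subrepresentation W hW) fun u =>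
    isNilpotent_sub_one_of_pow (k := k) (A := Module.End k W) (hp u)
  have h3 : ∀ u, g (hρ.hom u v) = g (hρ.hom 1 v) := fun u => by
    have := congrFun (congrArg Subtype.val (hfix u)) u
    change g (hρ.hom (u⁻¹ * u) v) = g (hρ.hom u v) at this
    rw [← this, inv_mul_cancel]
  have h4 := hy (g - algebraMap k _ (g (hρ.hom 1 v)))
    ((OV k V).sub_mem (m3 hg.1) ((OV k V).algebraMap_mem _)) fun s hs => by
      obtain ⟨u, rfl⟩ := (hT' s).1 hs
      exact sub_eq_zero.2 (h3 u)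
  refine h0 (Subtype.ext (funext fun u => (h3 u).trans ?_))
  exact (sub_eq_zero.1 h4).symm.trans ((hI g).1 hg.2 y ⟨hy, hy'⟩)

/-- A nonzero closed stable cone contains a closed orbit of lines. -/
theorem Cone.exists_closed_orbC (hG : Closed (OG k n) (G : Set (Gl n k))) (hρ : IsRep G ρ)
    {C : Set V} (hC : Cone G ρ C) (h0 : ∃ v ∈ C, v ≠ 0) :
    ∃ v ∈ C, v ≠ 0 ∧ Closed (OV k V) (orbC G ρ v) := by
  obtain ⟨C', ⟨c1, c2, v, hv, hv0⟩, hmin⟩ := (aff_OV (k := k) (V := V)).wf.has_min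
    {C' | Cone G ρ C' ∧ C' ⊆ C ∧ ∃ v ∈ C', v ≠ 0} ⟨C, hC, Subset.rfl, h0⟩
  let σ : kˣ × G →* Module.End k V :=
    { toFun x := (x.1 : k) • ρ x.2.1
      map_one' := by
        change ((1 : kˣ) : k) • ρ 1 = 1
        rw [Units.val_one, one_smul, hρ.one]
      map_mul' x y := by
        change ((x.1 * y.1 : kˣ) : k) • ρ (x.2.1 * y.2.1) = _
        rw [hρ.mul _ x.2.2 _ y.2.2, Units.val_mul, smul_mul_smul_comm] }
  generalize hT : {w | ∃ γ, w = σ γ v} = T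
  have hT' : ∀ w, w ∈ T ↔ ∃ γ, w = σ γ v := fun w => by rw [← hT]; rfl
  obtain ⟨h1, h2⟩ := orb_bd σ v (aff_OU.prod aff_OG) (closed_univ.prod hG)
    (MapOn.vsmul (regOn_unit.comp MapOn.fst (mapsTo_univ _ _))
      ((hρ.mapOn v).comp MapOn.snd fun _ h => h.2)) hT'
    (ext fun w => Iff.trans ⟨fun ⟨x, hx, h⟩ => ⟨⟨x.1, x.2, hx.2⟩, h.symm⟩,
      fun ⟨x, h⟩ => ⟨(x.1, x.2.1), ⟨trivial, x.2.2⟩, h.symm⟩⟩ (hT' w).symm)
  have hz : Closed (OV k V) ({0} : Set V) := aff_OV.closed_singleton 0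
  have h3 : clo (OV k V) T ⊆ C' := clo_min (fun w hw => by
    obtain ⟨γ, rfl⟩ := (hT' w).1 hw
    exact c1.2.1 _ _ (c1.2.2 _ γ.2.2 v hv)) c1.1
  have h4 : clo (OV k V) T \ T ∪ {0} ⊆ C' :=
    union_subset (sdiff_subset.trans h3) (singleton_subset_iff.2 (zero_smul k v ▸ c1.2.1 0 v hv))
  have h5 : ∀ w ∈ clo (OV k V) T \ T, w = 0 := fun w hw => by
    by_contra hw0
    refine hmin (clo (OV k V) T \ T ∪ {0}) ⟨⟨h1.union hz, ?_, ?_⟩, h4.trans c2, w, .inl hw, hw0⟩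
      ⟨h1.union hz, c1.1, h4, fun h => ?_⟩
    · rintro a x (hx | rfl)
      · rcases eq_or_ne a 0 with rfl | ha
        · exact .inr (zero_smul k x)
        · have := h2 (Units.mk0 a ha, 1) x hx
          change a • ρ 1 x ∈ _ at this
          rw [hρ.one] at this
          exact .inl this
      · exact .inr (smul_zero a)
    · rintro g hg x (hx | rfl)
      · have := h2 (1, ⟨g, hg⟩) x hx
        change (1 : k) • ρ g x ∈ _ at this
        rw [one_smul] at this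
        exact .inl this
      · exact .inr (map_zero _)
    · exact (h hv).elim (fun h' => h'.2 ((hT' v).2 ⟨1, by rw [map_one]; rfl⟩)) hv0
  have h6 : orbC G ρ v = clo (OV k V) T ∪ {0} := by
    refine subset_antisymm ?_ ?_
    · rintro _ ⟨a, g, hg, rfl⟩
      rcases eq_or_ne a 0 with rfl | ha
      · exact .inr (zero_smul k _)
      · exact .inl (subset_clo ((hT' _).2 ⟨(Units.mk0 a ha, ⟨g, hg⟩), rfl⟩))
    · have h7 : (0 : V) ∈ orbC G ρ v := ⟨0, 1, G.one_mem, (zero_smul k _).symm⟩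
      rintro w (hw | rfl)
      · by_cases h : w ∈ T
        · obtain ⟨γ, rfl⟩ := (hT' w).1 h
          exact ⟨γ.1, γ.2.1, γ.2.2, rfl⟩
        · exact h5 w ⟨hw, h⟩ ▸ h7
      · exact h7
  exact ⟨v, c2 hv, hv0, h6 ▸ closed_clo.union hz⟩

end Pool.Agent.AG
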