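import Pool.Agent.Lib.AG.Solv
import Pool.Agent.Lib.AG.Orb
import Pool.Agent.Lib.AG.Cone
import Pool.Agent.Lib.AG.Dom

/-! Conjugacy of maximal tori and of Borel subgroups. -/

namespace Pool.Agent.AG

open Set

universe u

variable {k : Type u} [Field k] [IsAlgClosed k] [Fact (ringChar k).Prime] {n : ℕ}
  {G B B' T T' : Subgroup (Gl n k)}

omit [IsAlgClosed k] [Fact (ringChar k).Prime] in
private theorem conj_stab {V : Type u} [AddCommGroup V] [Module k V]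
    {ρ : Gl n k → Module.End k V} (hρ : IsRep G ρ) {v : V} {g s : Gl n k} (hg : g ∈ G) (a : k)
    (hs : s ∈ cj g (stabL G ρ v)) : s ∈ stabL G ρ (a • ρ g v) := by
  obtain ⟨x, hx, rfl⟩ := hs
  obtain ⟨h1, b, hb⟩ := (mem_stabL hρ).1 hx
  refine (mem_stabL hρ).2 ⟨Nm.of_le le_rfl g hg x h1, b, ?_⟩
  change ρ (g * x * g⁻¹) _ = _
  rw [map_smul, hρ.mul_apply (G.mul_mem hg h1) (G.inv_mem hg), hρ.inv_apply hg,
    hρ.mul_apply hg h1, hb, map_smul, smul_comm]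

omit [IsAlgClosed k] [Fact (ringChar k).Prime] in
private theorem conj_le {V : Type u} [AddCommGroup V] [Module k V]
    {ρ : Gl n k → Module.End k V} (hρ : IsRep G ρ) (v : V) : stabL G ρ v ≤ G :=
  fun _ h => ((mem_stabL hρ).1 h).1

omit [IsAlgClosed k] [Fact (ringChar k).Prime] in
private theorem conj_solve {g g' q : Gl n k} (h : cj g' T' = cj q (cj g T)) :
    T' = cj (g'⁻¹ * (q * g)) T := by
  rw [← cj_cj, ← cj_cj, ← h, cj_cj, inv_mul_cancel, cj_one]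

/-- A group that is not solvable has a proper closed connected subgroup that contains a conjugate
of every connected solvable subgroup. -/
theorem exists_parabolic (hG : CC G) (hs : ¬ Group.IsSolvable G) : ∃ Q, CC Q ∧ Q < G ∧
    ∀ S, CC S → Group.IsSolvable S → S ≤ G → ∃ g ∈ G, cj g S ≤ Q := by
  have h1 := mt isSolvable_of_simp hs
  simp only [not_forall] at h1
  obtain ⟨V, _, _, _, ρ, hρ, h2, h3⟩ := h1
  have := h2.1
  obtain ⟨v, -, hv, hc⟩ := Cone.exists_closed_orbC hG.closed hρ (C := univ)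
    ⟨closed_univ, fun _ _ _ => trivial, fun _ _ _ _ => trivial⟩
    ((exists_ne (0 : V)).imp fun _ h => ⟨trivial, h⟩)
  have hC := cone_orbC hρ hc
  refine ⟨idc (stabL G ρ v), cc_idc (closed_stabL hρ hG.closed v),
    lt_of_le_of_ne ((idc_le _).trans (conj_le hρ v))
      fun e => h3 (h2.finrank_eq_one hρ hv (e.ge.trans (idc_le _))), fun S hS hs h => ?_⟩
  obtain ⟨_, ⟨a, g, hg, rfl⟩, h0, hw⟩ := borel_fixed hS.irr hs (hρ.mono h)
    ⟨hC.1, hC.2.1, fun g hg => hC.2.2 g (h hg)⟩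
    ⟨v, ⟨1, 1, G.one_mem, by rw [hρ.one, one_smul]; rfl⟩, hv⟩
  refine ⟨g⁻¹, G.inv_mem hg, (hS.conjg _).le_idc fun x hx => ?_⟩
  have h4 := conj_stab hρ (G.inv_mem hg) a⁻¹
    (cj_mono g⁻¹ (fun s hs => (mem_stabL hρ).2 ⟨h hs, hw s hs⟩) hx)
  rwa [map_smul, hρ.inv_apply hg, smul_smul, inv_mul_cancel₀ (left_ne_zero_of_smul h0),
    one_smul] at h4

theorem MaxTor.exists_cj (hG : CC G) (hT : MaxTor G T) (hT' : MaxTor G T') :
    ∃ g ∈ G, T' = cj g T := by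
  refine cc_induction (p := fun G => ∀ T T', MaxTor G T → MaxTor G T' → ∃ g ∈ G, T' = cj g T)
    (fun G hG ih T T' hT hT' => ?_) hG T T' hT hT'
  by_cases hs : Group.IsSolvable G
  · obtain ⟨u, hu, -, e⟩ := hT.conj_of_solvable hT' hG hs
    exact ⟨u, hu, e⟩
  obtain ⟨Q, hQ, hlt, h⟩ := exists_parabolic hG hs
  have key : ∀ T, MaxTor G T → ∃ g ∈ G, MaxTor Q (cj g T) := fun T hT => by
    obtain ⟨g, hg, h1⟩ := h T hT.prop.2.1 (Dg.isSolvable hT.prop.2.2) hT.prop.1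
    have h2 := hT.conjg g
    rw [cj_eq_self hg] at h2
    exact ⟨g, hg, h2.of_le h1 hlt.le⟩
  obtain ⟨g, hg, h1⟩ := key T hT
  obtain ⟨g', hg', h2⟩ := key T' hT'
  obtain ⟨q, hq, e⟩ := ih Q hQ hlt _ _ h1 h2
  exact ⟨_, G.mul_mem (G.inv_mem hg') (G.mul_mem (hlt.le hq) hg), conj_solve e⟩

theorem Borel.exists_cj (hG : CC G) (hB : Borel G B) (hB' : Borel G B') :
    ∃ g ∈ G, B' = cj g B := by
  refine cc_induction (p := fun G => ∀ B B', Borel G B → Borel G B' → ∃ g ∈ G, B' = cj g B)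
    (fun G hG ih B B' hB hB' => ?_) hG B B' hB hB'
  by_cases hs : Group.IsSolvable G
  · have e : ∀ B, Borel G B → B = G := fun B hB =>
      le_antisymm hB.prop.1 (hB.2 ⟨le_rfl, hG, hs⟩ hB.prop.1)
    exact ⟨1, G.one_mem, by rw [cj_one, e B hB, e B' hB']⟩
  obtain ⟨Q, hQ, hlt, h⟩ := exists_parabolic hG hs
  have key : ∀ B, Borel G B → ∃ g ∈ G, Borel Q (cj g B) := fun B hB => by
    obtain ⟨g, hg, h1⟩ := h B hB.prop.2.1 hB.prop.2.2 hB.prop.1
    have h2 := hB.conjg g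
    rw [cj_eq_self hg] at h2
    exact ⟨g, hg, ⟨h1, h2.prop.2⟩, fun S hS => h2.2 ⟨hS.1.trans hlt.le, hS.2⟩⟩
  obtain ⟨g, hg, h1⟩ := key B hB
  obtain ⟨g', hg', h2⟩ := key B' hB'
  obtain ⟨q, hq, e⟩ := ih Q hQ hlt _ _ h1 h2
  exact ⟨_, G.mul_mem (G.inv_mem hg') (G.mul_mem (hlt.le hq) hg), conj_solve e⟩

theorem MaxTor.exists_cj_le (hG : CC G) (hT : MaxTor G T) {S : Subgroup (Gl n k)} (hS : Tor S)
    (h : S ≤ G) : ∃ g ∈ G, cj g S ≤ T := by
  obtain ⟨T₁, h1, h2⟩ := exists_maxTor hS h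
  obtain ⟨g, hg, rfl⟩ := h2.exists_cj hG hT
  exact ⟨g, hg, cj_mono g h1⟩

theorem Borel.exists_cj_le (hG : CC G) (hB : Borel G B) (hT : MaxTor G T) :
    ∃ g ∈ G, cj g T ≤ B := by
  obtain ⟨B₁, h1, h2⟩ := exists_borel hT.prop.2.1 (Dg.isSolvable hT.prop.2.2) hT.prop.1
  obtain ⟨g, hg, rfl⟩ := h2.exists_cj hG hB
  exact ⟨g, hg, cj_mono g h1⟩

/-- Two lines of a closed orbit that are fixed by a maximal torus are conjugate under its
normaliser. -/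
theorem MaxTor.exists_normalizer (hG : Closed (OG k n) (G : Set (Gl n k))) (hT : MaxTor G T)
    {V : Type u} [AddCommGroup V] [Module k V] {ρ : Gl n k → Module.End k V} (hρ : IsRep G ρ)
    {v w : V} (hw : w ∈ orbC G ρ v) (h0 : w ≠ 0) (h1 : T ≤ stabL G ρ v) (h2 : T ≤ stabL G ρ w) :
    ∃ g ∈ G, cj g T = T ∧ ∃ a : k, w = a • ρ g v := by
  obtain ⟨a, g, hg, e⟩ := hw
  have hH : idc (stabL G ρ w) ≤ G := (idc_le _).trans (conj_le hρ w)
  have h3 := hT.conjg g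
  rw [cj_eq_self hg] at h3
  obtain ⟨h, hh, e'⟩ := (h3.of_le (h3.prop.2.1.le_idc fun x hx =>
    e ▸ conj_stab hρ hg a (cj_mono g h1 hx)) hH).exists_cj (cc_idc (closed_stabL hρ hG w))
      (hT.of_le (hT.prop.2.1.le_idc h2) hH)
  obtain ⟨h4, b, hb⟩ := (mem_stabL hρ).1 (idc_le _ hh)
  have hb0 : b ≠ 0 := by
    rintro rfl
    refine h0 ?_
    rw [← hρ.inv_apply h4 w, hb, zero_smul, map_zero]
  refine ⟨h * g, G.mul_mem h4 hg, by rw [← cj_cj, ← e'], b⁻¹ * a, ?_⟩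
  rw [hρ.mul_apply h4 hg, mul_smul, ← map_smul, ← e, hb, smul_smul, inv_mul_cancel₀ hb0,
    one_smul]

end Pool.Agent.AG
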