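import Pool.Agent.Lib.AG.Pre

/-! Linear algebraic groups as closed subgroups of the general linear group: reductive groups,
tori, Borel subgroups, Lie algebras, roots and coroots. -/

namespace Pool.Agent.AG

attribute [local instance 100] LieRing.ofAssociativeRing

universe u

variable {k : Type u} [Field k] {n : ℕ}

/-- `S` is closed for the Zariski topology of the general linear group. -/
def Cl (S : Set (GL (Fin n) k)) : Prop :=
  ∀ g : GL (Fin n) k, (∀ f, Van S f → Van {g} f) → g ∈ S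

/-- `G` is closed and connected for the Zariski topology. -/
def CC (G : Subgroup (GL (Fin n) k)) : Prop :=
  Cl (G : Set (GL (Fin n) k)) ∧ ∀ A B, Cl A → Cl B → (G : Set (GL (Fin n) k)) ⊆ A ∪ B →
    Disjoint ((G : Set (GL (Fin n) k)) ∩ A) B →
      (G : Set (GL (Fin n) k)) ⊆ A ∨ (G : Set (GL (Fin n) k)) ⊆ B

/-- A unipotent matrix. -/
def Unip (g : GL (Fin n) k) : Prop := IsNilpotent (g.1 - 1)

/-- `N` is a closed connected normal unipotent subgroup of `G`. -/
def NorU (G N : Subgroup (GL (Fin n) k)) : Prop :=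
  N ≤ G ∧ CC N ∧ (∀ g ∈ G, ∀ x ∈ N, g * x * g⁻¹ ∈ N) ∧ ∀ x ∈ N, Unip x

/-- A connected reductive group. -/
def Red (G : Subgroup (GL (Fin n) k)) : Prop := CC G ∧ ∀ N, NorU G N → N = ⊥

/-- A torus: closed, connected and diagonalisable. -/
def Tor (T : Subgroup (GL (Fin n) k)) : Prop :=
  CC T ∧ ∃ P : GL (Fin n) k, ∀ t ∈ T, (P * t * P⁻¹).1.IsDiag

/-- A maximal torus of `G`. -/
def MaxTor (G T : Subgroup (GL (Fin n) k)) : Prop := Maximal (fun S => S ≤ G ∧ Tor S) T

/-- A Borel subgroup of `G`: a maximal closed connected solvable subgroup. -/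
def Borel (G B : Subgroup (GL (Fin n) k)) : Prop :=
  Maximal (fun S : Subgroup (GL (Fin n) k) => S ≤ G ∧ CC S ∧ Group.IsSolvable S) B

/-- The Lie algebra of `G`: the tangent space at the identity. -/
def lie (G : Subgroup (GL (Fin n) k)) : LieSubalgebra k (Matrix (Fin n) (Fin n) k) where
  carrier := {X | ∀ f, Van (G : Set (GL (Fin n) k)) f → dir X f = 0}
  add_mem' hX hY f hf := by rw [dir_add, hX f hf, hY f hf, add_zero]
  zero_mem' f _ := by simp [dir]
  smul_mem' c _ hX f hf := by rw [dir_smul, hX f hf, mul_zero]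
  lie_mem' hX hY f hf := dir_lie G hX hY f hf

/-- The `p`-map of the Lie algebra: the `p`-th power of matrices. -/
def pmap (p : ℕ) [Fact p.Prime] [CharP k p] (G : Subgroup (GL (Fin n) k)) (X : lie G) : lie G :=
  ⟨X.1 ^ p, dir_pow p G X.2⟩

/-- The roots of `G` relative to `T`: the nontrivial weights of `T` on the Lie algebra. -/
def roots (G T : Subgroup (GL (Fin n) k)) : Set (T →* kˣ) :=
  {α | α ≠ 1 ∧ ∃ X ∈ lie G, X ≠ 0 ∧ ∀ t : T, t.1.1 * X * t.1⁻¹.1 = (α t : k) • X}

/-- A cocharacter of `T`: a homomorphism with entries Laurent polynomials. -/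
def Coch (T : Subgroup (GL (Fin n) k)) (f : kˣ → GL (Fin n) k) : Prop :=
  (∀ a, f a ∈ T) ∧ (∀ a b, f (a * b) = f a * f b) ∧
    ∃ m : ℕ, ∀ i j, ∃ q : Polynomial k, ∀ a : kˣ, (a : k) ^ m * (f a).1 i j = q.eval (a : k)

/-- The coroots: `f` pairs to two with a root `α`, and the reflection `t ↦ t f(α t)⁻¹` of `T` is
induced by an element of `G`. -/
def coroots (G T : Subgroup (GL (Fin n) k)) : Set (kˣ → GL (Fin n) k) :=
  {f | ∃ hf : Coch T f, ∃ α ∈ roots G T, (∀ a, α ⟨f a, hf.1 a⟩ = a ^ 2) ∧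
    ∃ g ∈ G, ∀ t : T, g * t.1 * g⁻¹ = t.1 * (f (α t))⁻¹}

/-- Simply connected: the coroots generate the cocharacter group of a maximal torus. -/
def SC (G : Subgroup (GL (Fin n) k)) : Prop :=
  ∀ T, MaxTor G T → ∀ f, Coch T f → f ∈ Subgroup.closure (coroots G T)

/-- `p` is good: the root lattice modulo the lattice of any set of roots has no `p`-torsion. -/
def Good (G T : Subgroup (GL (Fin n) k)) (p : ℕ) : Prop :=
  ∀ S ⊆ roots G T, ∀ x ∈ Subgroup.closure (roots G T),
    x ^ p ∈ Subgroup.closure S → x ∈ Subgroup.closure S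

end Pool.Agent.AG
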