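import Pool.Agent.Lib.AG.Grp2

/-! Diagonalisable groups and weight spaces. -/

namespace Pool.Agent.AG

open Set

universe u

variable {k : Type u} [Field k] {n : ℕ} {G D : Subgroup (Gl n k)}
  {V : Type u} [AddCommGroup V] [Module k V] {ρ : Gl n k → Module.End k V}

private theorem dg_mem {W : Submodule k V} (hW : Stab D ρ W) {s : Finset (D →* kˣ)} :
    ∀ {c : (D →* kˣ) → V}, (∀ γ ∈ s, c γ ∈ wV ρ D γ) → ∑ γ ∈ s, c γ ∈ W → ∀ γ ∈ s, c γ ∈ W := by
  classical
  induction s using Finset.induction_on with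
  | empty => simp
  | insert a s ha ih =>
    intro c hc h
    have key : ∀ γ ∈ s, c γ ∈ W := by
      intro γ hγ
      obtain ⟨t, ht⟩ := DFunLike.ne_iff.1 (ne_of_mem_of_not_mem hγ ha)
      have h₁ := W.sub_mem (hW t.1 t.2 _ h) (W.smul_mem (a t : k) h)
      rw [map_sum, Finset.sum_congr rfl fun δ hδ => hc δ hδ t, Finset.smul_sum,
        ← Finset.sum_sub_distrib, Finset.sum_insert ha, sub_self, zero_add] at h₁
      simp only [← sub_smul] at h₁
      exact (W.smul_mem_iff (sub_ne_zero.2 fun e => ht (Units.ext e))).1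
        (ih (fun δ hδ => Submodule.smul_mem _ _ (hc δ (Finset.mem_insert_of_mem hδ))) h₁ γ hγ)
    rw [Finset.sum_insert ha] at h
    exact Finset.forall_mem_insert _ _ _ |>.2
      ⟨(W.add_mem_iff_left (W.sum_mem key)).1 h, key⟩

theorem iSupIndep_wV (ρ : Gl n k → Module.End k V) (D : Subgroup (Gl n k)) :
    iSupIndep (wV ρ D) := by
  rw [iSupIndep_iff_finsetSum_eq_zero_imp_eq_zero]
  exact fun s c hc h => dg_mem (W := ⊥)
    (fun g _ w hw => by rw [(Submodule.mem_bot k).1 hw, map_zero]; exact zero_mem _) hc h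

theorem finite_wV [FiniteDimensional k V] (ρ : Gl n k → Module.End k V) (D : Subgroup (Gl n k)) :
    {γ | wV ρ D γ ≠ ⊥}.Finite :=
  Submodule.finite_ne_bot_of_iSupIndep (iSupIndep_wV ρ D)

private theorem dg_mul {A : Mt n k} (h : A.IsDiag) (B : Mt n k) (i j : Fin n) :
    (A * B) i j = A i i * B i j := by
  conv_lhs => rw [← h.diagonal_diag, Matrix.diagonal_mul]
  rfl

private theorem dg_inv {u : Gl n k} (h : u.1.IsDiag) (i j : Fin n) :
    u.1 i i * u⁻¹.1 i j = if i = j then 1 else 0 := by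
  rw [← dg_mul h, Units.mul_inv, Matrix.one_apply]

private theorem dg_ne {u : Gl n k} (h : u.1.IsDiag) (i : Fin n) : u.1 i i ≠ 0 :=
  left_ne_zero_of_mul_eq_one ((dg_inv h i i).trans (if_pos rfl))

private theorem dg_entry (P : Gl n k) {t : Gl n k} (h : (P * t * P⁻¹).1.IsDiag) (i j : Fin n) :
    t.1 i j = ∑ a, (P⁻¹.1 i a * P.1 a j) * (P * t * P⁻¹).1 a a := by
  conv_lhs => rw [show t = P⁻¹ * (P * t * P⁻¹ * P) by group, Units.val_mul, Matrix.mul_apply]
  refine Finset.sum_congr rfl fun a _ => ?_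
  rw [Units.val_mul, dg_mul h]
  ring

private theorem dg_add {u : Gl n k} (h : u.1.IsDiag) (m m' : Fin n → ℤ) :
    ∏ i, u.1 i i ^ (m + m') i = (∏ i, u.1 i i ^ m i) * ∏ i, u.1 i i ^ m' i := by
  rw [← Finset.prod_mul_distrib]
  exact Finset.prod_congr rfl fun i _ => zpow_add₀ (dg_ne h i) _ _

private theorem dg_single (d : Fin n → k) (a : Fin n) (z : ℤ) :
    ∏ i, d i ^ (Pi.single a z : Fin n → ℤ) i = d a ^ z := by
  rw [Finset.prod_eq_single a (fun b _ hb => by rw [Pi.single_eq_of_ne hb, zpow_zero]) (by simp),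
    Pi.single_eq_same]

theorem span_monomial (P : Gl n k) {F : Gl n k → k} (hF : F ∈ OG k n) :
    ∃ c : (Fin n → ℤ) →₀ k, ∀ t : Gl n k, (P * t * P⁻¹).1.IsDiag →
      F t = c.sum fun m a => a * ∏ i, (P * t * P⁻¹).1 i i ^ m i := by
  let S := {t : Gl n k // (P * t * P⁻¹).1.IsDiag}
  let μ : (Fin n → ℤ) → S → k := fun m t => ∏ i, (P * t.1 * P⁻¹).1 i i ^ m i
  have hμ : ∀ m, μ m ∈ Submodule.span k (range μ) := fun m => Submodule.subset_span ⟨m, rfl⟩
  have key : (fun t : S => F t.1) ∈ Submodule.span k (range μ) := by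
    induction hF using Algebra.adjoin_induction with
    | mem f hf =>
      obtain ⟨i, j, rfl | rfl⟩ := hf
      · convert Submodule.sum_mem _ fun a (_ : a ∈ Finset.univ) =>
          Submodule.smul_mem _ (P⁻¹.1 i a * P.1 a j) (hμ (Pi.single a 1)) using 1
        ext t
        simp only [μ, Finset.sum_apply, Pi.smul_apply, smul_eq_mul, dg_single, zpow_one]
        exact dg_entry P t.2 i j
      · convert Submodule.sum_mem _ fun a (_ : a ∈ Finset.univ) =>
          Submodule.smul_mem _ (P⁻¹.1 i a * P.1 a j) (hμ (Pi.single a (-1))) using 1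
        ext t
        simp only [μ, Finset.sum_apply, Pi.smul_apply, smul_eq_mul, dg_single, zpow_neg_one]
        have e : P * t.1⁻¹ * P⁻¹ = (P * t.1 * P⁻¹)⁻¹ := by group
        rw [dg_entry P (t := t.1⁻¹) (fun a b hab => ?_) i j]
        · refine Finset.sum_congr rfl fun a _ => ?_
          rw [e, eq_inv_of_mul_eq_one_right ((dg_inv t.2 a a).trans (if_pos rfl))]
        · rw [e]
          exact (mul_eq_zero.1 ((dg_inv t.2 a b).trans (if_neg hab))).resolve_left (dg_ne t.2 a)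
    | algebraMap c =>
      convert Submodule.smul_mem _ c (hμ 0) using 1
      ext t
      simp [μ]
    | add f g _ _ hf hg => exact add_mem hf hg
    | mul f g _ _ hf hg =>
      have := Submodule.mul_mem_mul hf hg
      rw [Submodule.span_mul_span] at this
      refine Submodule.span_mono ?_ this
      rintro _ ⟨_, ⟨m, rfl⟩, _, ⟨m', rfl⟩, rfl⟩
      exact ⟨m + m', funext fun t => dg_add t.2 m m'⟩
  obtain ⟨c, hc⟩ := Finsupp.mem_span_range_iff_exists_finsupp.1 key
  refine ⟨c, fun t ht => ?_⟩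
  rw [← congrFun hc ⟨t, ht⟩, Finsupp.sum, Finsupp.sum, Finset.sum_apply]
  rfl

theorem exists_diagChar {P : Gl n k} (hP : ∀ t ∈ D, (P * t * P⁻¹).1.IsDiag) :
    ∃ ε : Fin n → (D →* kˣ), ∀ i, RegChar (ε i) ∧ RegChar (ε i)⁻¹ ∧
      ∀ t : D, (ε i t : k) = (P * t.1 * P⁻¹).1 i i := by
  have hm : MapOn (OG k n) univ (OG k n) fun g : Gl n k => P * g * P⁻¹ :=
    ((MapOn.const P).mul .id).mul (.const _)
  refine ⟨fun i => MonoidHom.mk' (fun t => Units.mk0 _ (dg_ne (hP t.1 t.2) i)) fun s t =>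
    Units.ext ?_, fun i => ⟨⟨_, (hm.entry i i).mem, fun _ => rfl⟩,
      ⟨_, (hm.inv.entry i i).mem, fun t => ?_⟩, fun _ => rfl⟩⟩
  · change (P * (s.1 * t.1) * P⁻¹).1 i i = (P * s.1 * P⁻¹).1 i i * (P * t.1 * P⁻¹).1 i i
    rw [← dg_mul (hP s.1 s.2), ← Units.val_mul]
    group
  · exact eq_inv_of_mul_eq_one_right ((dg_inv (hP t.1 t.2) i i).trans (if_pos rfl))

private theorem dg_chi {P : Gl n k} (hP : ∀ t ∈ D, (P * t * P⁻¹).1.IsDiag) :
    ∃ χ : (Fin n → ℤ) → (D →* kˣ), ∀ m, RegChar (χ m) ∧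
      ∀ t : D, (χ m t : k) = ∏ i, (P * t.1 * P⁻¹).1 i i ^ m i := by
  obtain ⟨ε, hε⟩ := exists_diagChar hP
  have key : ∀ (m : Fin n → ℤ) (t : D), ((∏ i, ε i ^ m i : D →* kˣ) t : k) =
      ∏ i, (ε i t : k) ^ m i := fun m t => by
    rw [MonoidHom.finsetProd_apply, Units.coe_prod]
    exact Finset.prod_congr rfl fun i _ => by rw [← Units.val_zpow_eq_zpow_val]; rfl
  choose F hF e using fun i => (hε i).1
  choose F' hF' e' using fun i => (hε i).2.1
  refine ⟨fun m => ∏ i, ε i ^ m i, fun m => ⟨⟨∏ i, F i ^ (m i).toNat * F' i ^ (-m i).toNat,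
    prod_mem fun i _ => mul_mem (pow_mem (hF i) _) (pow_mem (hF' i) _), fun t => ?_⟩,
    fun t => by simp only [key, (hε _).2.2]⟩⟩
  rw [key, Finset.prod_apply]
  refine Finset.prod_congr rfl fun i _ => ?_
  conv_rhs => rw [← Int.toNat_sub_toNat_neg (m i), zpow_sub₀ (ε i t).ne_zero]
  rw [Pi.mul_apply, Pi.pow_apply, Pi.pow_apply, e, e', MonoidHom.inv_apply,
    Units.val_inv_eq_inv_val, inv_pow, zpow_natCast, zpow_natCast, div_eq_mul_inv]

/-- On a diagonalisable group the regular functions are combinations of regular characters. -/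
theorem Dg.span (h : Dg D) {F : Gl n k → k} (hF : F ∈ OG k n) :
    ∃ c : (D →* kˣ) →₀ k, (∀ γ ∈ c.support, RegChar γ) ∧
      ∀ t : D, F t.1 = c.sum fun γ a => a * (γ t : k) := by
  classical
  obtain ⟨P, hP⟩ := h
  obtain ⟨χ, hχ⟩ := dg_chi hP
  obtain ⟨c, hc⟩ := span_monomial P hF
  refine ⟨c.mapDomain χ, fun γ hγ => ?_, fun t => ?_⟩
  · obtain ⟨m, -, rfl⟩ := Finset.mem_image.1 (Finsupp.mapDomain_support hγ)
    exact (hχ m).1
  · rw [Finsupp.sum_mapDomain_index (fun _ => zero_mul _) fun _ _ _ => add_mul _ _ _,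
      hc t.1 (hP t.1 t.2)]
    simp only [(hχ _).2]

private theorem dg_zero {s : Finset (D →* kˣ)} {w : (D →* kˣ) → V}
    (h : ∀ t : D, ∑ γ ∈ s, (γ t : k) • w γ = 0) : ∀ γ ∈ s, w γ = 0 := by
  intro γ hγ
  have li := (linearIndependent_monoidHom D k).comp (fun γ : D →* kˣ => (Units.coeHom k).comp γ)
    fun a b e => MonoidHom.ext fun t => Units.ext (DFunLike.congr_fun e t)
  refine (Module.forall_dual_apply_eq_zero_iff k _).1 fun l =>
    linearIndependent_iff'.1 li s (fun γ => l (w γ)) (funext fun t => ?_) γ hγ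
  have := congrArg l (h t)
  rw [map_sum, map_zero] at this
  rw [Finset.sum_apply]
  refine (Finset.sum_congr rfl fun δ _ => ?_).trans this
  rw [map_smul, smul_eq_mul, mul_comm]
  rfl

theorem Dg.iSup_wV [FiniteDimensional k V] (h : Dg D) (hρ : IsRep D ρ) :
    ⨆ γ, wV ρ D γ = ⊤ := by
  classical
  refine eq_top_iff.2 fun v _ => ?_
  let b := Module.finBasis k V
  choose F hF e using fun i => hρ.reg (b.coord i) v
  choose c _ hc using fun i => h.span (hF i)
  let s := Finset.univ.biUnion fun i => (c i).support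
  let w : (D →* kˣ) → V := fun γ => ∑ i, c i γ • b i
  have key : ∀ t : D, ρ t.1 v = ∑ γ ∈ s, (γ t : k) • w γ := by
    intro t
    rw [← b.sum_repr (ρ t.1 v)]
    simp only [w, Finset.smul_sum]
    rw [Finset.sum_comm]
    refine Finset.sum_congr rfl fun i _ => ?_
    rw [← b.coord_apply, ← show F i t.1 = b.coord i (ρ t.1 v) from e i t.1 t.2, hc,
      Finsupp.sum_of_support_subset _
      (Finset.subset_biUnion_of_mem (fun i => (c i).support) (Finset.mem_univ i))
      (fun γ a => a * (γ t : k)) fun _ _ => zero_mul _, Finset.sum_smul]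
    exact Finset.sum_congr rfl fun γ _ => by rw [smul_smul, mul_comm]
  have h1 : v = ∑ γ ∈ s, w γ := by simpa [hρ.one] using key 1
  rw [h1]
  refine Submodule.sum_mem _ fun γ hγ => Submodule.mem_iSup_of_mem γ fun u => ?_
  refine sub_eq_zero.1 (dg_zero (w := fun γ => ρ u.1 (w γ) - (γ u : k) • w γ) (fun t => ?_) γ hγ)
  have h2 := key (u * t)
  rw [Subgroup.coe_mul, hρ.mul_apply u.2 t.2, key t, map_sum, ← sub_eq_zero,
    ← Finset.sum_sub_distrib] at h2
  refine (Finset.sum_congr rfl fun δ _ => ?_).trans h2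
  rw [map_smul, map_mul, Units.val_mul, smul_sub, smul_smul, mul_comm]

theorem IsRep.regChar (hρ : IsRep D ρ) {γ : D →* kˣ} (h : wV ρ D γ ≠ ⊥) : RegChar γ := by
  obtain ⟨v, hv, h0⟩ := (Submodule.ne_bot_iff _).1 h
  obtain ⟨l, hl⟩ := Module.Projective.exists_dual_eq_one k h0
  obtain ⟨F, hF, e⟩ := hρ.reg l v
  refine ⟨F, hF, fun t => (e t.1 t.2).trans ?_⟩
  dsimp only
  rw [hv t, map_smul, hl, smul_eq_mul, mul_one]

/-- Weight components of a vector lie in every stable subspace that contains the vector. -/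
theorem mem_of_sum_mem {W : Submodule k V} (hW : Stab D ρ W) {s : Finset (D →* kˣ)}
    {c : (D →* kˣ) → V} (hc : ∀ γ ∈ s, c γ ∈ wV ρ D γ) (h : ∑ γ ∈ s, c γ ∈ W) :
    ∀ γ ∈ s, c γ ∈ W :=
  dg_mem hW hc h

theorem Dg.iSup_inf_wV [FiniteDimensional k V] (h : Dg D) (hρ : IsRep D ρ) {W : Submodule k V}
    (hW : Stab D ρ W) : ⨆ γ, W ⊓ wV ρ D γ = W := by
  refine le_antisymm (iSup_le fun _ => inf_le_left) fun w hw => ?_
  obtain ⟨f, hf, rfl⟩ := (Submodule.mem_iSup_iff_exists_finsupp (wV ρ D) w).1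
    (by rw [h.iSup_wV hρ]; trivial)
  exact Submodule.sum_mem _ fun γ hγ => Submodule.mem_iSup_of_mem γ
    ⟨dg_mem hW (fun γ _ => hf γ) hw γ hγ, hf γ⟩

/-- A stable subspace has a basis of weight vectors, with dual weight forms. -/
theorem Dg.exists_basis [FiniteDimensional k V] (h : Dg D) (hρ : IsRep D ρ) {W : Submodule k V}
    (hW : Stab D ρ W) : ∃ (m : ℕ) (e : Fin m → V) (wt : Fin m → (D →* kˣ)),
      LinearIndependent k e ∧ Submodule.span k (range e) = W ∧ ∀ a, e a ∈ wV ρ D (wt a) := by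
  obtain ⟨e, h₁, h₂, h₃⟩ := Submodule.exists_fun_fin_finrank_span_eq k
    (⋃ γ, ((W ⊓ wV ρ D γ : Submodule k V) : Set V))
  choose wt hwt using fun a => mem_iUnion.1 (h₁ a)
  exact ⟨_, e, wt, h₃, by rw [h₂, ← Submodule.iSup_eq_span, h.iSup_inf_wV hρ hW],
    fun a => (hwt a).2⟩

theorem Dg.exists_dual [FiniteDimensional k V] (h : Dg D) (hρ : IsRep D ρ) {I : Type} [Finite I]
    [DecidableEq I] {e : I → V} {wt : I → (D →* kˣ)} (he : LinearIndependent k e)
    (hw : ∀ a, e a ∈ wV ρ D (wt a)) : ∃ l : I → Module.Dual k V,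
      (∀ a b, l a (e b) = if a = b then 1 else 0) ∧
        ∀ a γ, γ ≠ wt a → ∀ v ∈ wV ρ D γ, l a v = 0 := by
  have key : ∀ a, e a ∉ (⨆ γ, ⨆ _ : γ ≠ wt a, wV ρ D γ) ⊔
      Submodule.span k (e '' {b | b ≠ a ∧ wt b = wt a}) := by
    intro a ha
    obtain ⟨u, hu, y, hy, huy⟩ := Submodule.mem_sup.1 ha
    have hy' : y ∈ wV ρ D (wt a) := Submodule.span_le.2 (by
      rintro _ ⟨b, hb, rfl⟩
      exact hb.2 ▸ hw b) hy
    have := Submodule.disjoint_def.1 (iSupIndep_wV ρ D (wt a)) u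
      (eq_sub_of_add_eq huy ▸ sub_mem (hw a) hy') hu
    rw [this, zero_add] at huy
    exact he.notMem_span_image (fun hb => hb.1 rfl) (huy ▸ hy)
  choose l hl hl' using fun a => LinearMap.exists_extend_of_notMem (0 : _ →ₗ[k] k) (key a) 1
  have h0 : ∀ a γ, γ ≠ wt a → ∀ v ∈ wV ρ D γ, l a v = 0 := fun a γ hγ v hv =>
    LinearMap.congr_fun (hl a) ⟨v, Submodule.mem_sup_left
      (Submodule.mem_iSup_of_mem γ (Submodule.mem_iSup_of_mem hγ hv))⟩
  refine ⟨l, fun a b => ?_, h0⟩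
  split_ifs with hab
  · exact hab ▸ hl' a
  · by_cases hb : wt b = wt a
    · exact LinearMap.congr_fun (hl a) ⟨e b, Submodule.mem_sup_right
        (Submodule.subset_span ⟨b, ⟨Ne.symm hab, hb⟩, rfl⟩)⟩
    · exact h0 a _ hb _ (hw b)

/-- A closed diagonalisable group is cut out by monomial relations. -/
theorem mem_of_rel (hD : Closed (OG k n) (D : Set (Gl n k))) {P g : Gl n k}
    (hP : ∀ t ∈ D, (P * t * P⁻¹).1.IsDiag) (hg : (P * g * P⁻¹).1.IsDiag)
    (h : ∀ m : Fin n → ℤ, (∀ t ∈ D, ∏ i, (P * t * P⁻¹).1 i i ^ m i = 1) →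
      ∏ i, (P * g * P⁻¹).1 i i ^ m i = 1) : g ∈ D := by
  refine hD fun F hF h0 => ?_
  obtain ⟨χ, hχ⟩ := dg_chi hP
  obtain ⟨c, hc⟩ := span_monomial P hF
  have hf : (fun m : Fin n → ℤ => ∏ i, (P * g * P⁻¹).1 i i ^ m i).FactorsThrough χ := by
    intro m m' e
    have := h (m - m') fun t ht => mul_right_cancel₀ (χ m' ⟨t, ht⟩).ne_zero (by
      rw [one_mul]
      conv_lhs => rw [(hχ m').2, ← dg_add (hP t ht), sub_add_cancel]
      rw [← e, (hχ m).2])
    have h₁ := dg_add hg (m - m') m'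
    rwa [sub_add_cancel, this, one_mul] at h₁
  have hz : c.mapDomain χ = 0 := by
    rw [← Finsupp.support_eq_empty, Finset.eq_empty_iff_forall_notMem]
    refine fun γ hγ => Finsupp.mem_support_iff.1 hγ (dg_zero (V := k) (fun t => ?_) γ hγ)
    have := Finsupp.sum_mapDomain_index (f := χ) (s := c) (h := fun γ a => (γ t : k) • a)
      (fun _ => smul_zero _) fun _ _ _ => smul_add _ _ _
    refine this.trans (Eq.trans ?_ ((hc t.1 (hP t.1 t.2)).symm.trans (h0 t.1 t.2)))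
    simp only [(hχ _).2, smul_eq_mul, mul_comm]
  have := Finsupp.sum_mapDomain_index (f := χ) (s := c)
    (h := fun γ a => a * Function.extend χ (fun m => ∏ i, (P * g * P⁻¹).1 i i ^ m i) 0 γ)
    (fun _ => zero_mul _) fun _ _ _ => add_mul _ _ _
  rw [hz, Finsupp.sum_zero_index] at this
  simp only [hf.extend_apply] at this
  exact (hc g hg).trans this.symm

end Pool.Agent.AG
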