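import Pool.Agent.Lib.AG.Base

/-! Conjugacy and splitting in filtered groups. -/

namespace Pool.Agent.AG

universe u

variable {k : Type u} [Field k] {B : Type*} [Group B] (F : Filt k B)

private theorem FiltA_le (j : ℕ) : F.N j ≤ F.N 0 := by
  induction j with
  | zero => exact le_rfl
  | succ j ih => exact (F.anti j).trans ih

private theorem FiltA_one (j : ℕ) : F.φ j 1 = 0 :=
  (F.ker j 1 (one_mem _)).2 (one_mem _)

private theorem FiltA_inv (j : ℕ) {x : B} (hx : x ∈ F.N j) : F.φ j x⁻¹ = - F.φ j x := by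
  have h := F.add j x hx x⁻¹ (inv_mem hx)
  rw [mul_inv_cancel, FiltA_one] at h
  linear_combination -h

private theorem FiltA_pow {A : Type*} [Group A] (S : Subgroup A) (c : A → k)
    (hc : ∀ a ∈ S, ∀ b ∈ S, c (a * b) = c a + c b) {b : A} (hb : b ∈ S) :
    c (b ^ ringChar k) = 0 := by
  have h1 : c 1 = 0 := by
    have := hc 1 (one_mem _) 1 (one_mem _)
    rw [mul_one] at this
    linear_combination -this
  have h : ∀ n : ℕ, c (b ^ n) = (n : k) * c b := by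
    intro n
    induction n with
    | zero => simp [h1]
    | succ n ih =>
      rw [pow_succ, hc _ (pow_mem hb n) _ hb, ih]
      push_cast
      ring
  rw [h, ringChar.Nat.cast_ringChar, zero_mul]

private theorem FiltA_step {A : Type*} [Group A] (hA : ∀ a b : A, a * b = b * a)
    (hd : ∀ a : A, ∃ b : A, b ^ ringChar k = a) (σ σ' : A →* B) (j : ℕ)
    (h : ∀ a, σ' a * (σ a)⁻¹ ∈ F.N j)
    (hχ : (∀ a, F.χ j (σ a) = 1) ∨ Function.Surjective fun a => F.χ j (σ a)) :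
    ∃ v ∈ F.N j, ∀ a, σ' a * (v * σ a * v⁻¹)⁻¹ ∈ F.N (j + 1) := by
  have hN := F.normal j
  obtain ⟨c, hc⟩ : ∃ c : A → k, ∀ a, c a = F.φ j (σ' a * (σ a)⁻¹) := ⟨_, fun _ => rfl⟩
  have hco : ∀ a b, c (a * b) = c a + (F.χ j (σ a) : k) * c b := by
    intro a b
    rw [hc, hc, hc, ← F.conj j (σ a) _ (h b), ← F.add j _ (h a) _ (hN.conj_mem _ (h b) _)]
    congr 1
    simp only [map_mul]
    group
  by_cases h1 : ∀ a, F.χ j (σ a) = 1
  · refine ⟨1, one_mem _, fun a => ?_⟩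
    obtain ⟨b, rfl⟩ := hd a
    have := FiltA_pow (⊤ : Subgroup A) c (fun a _ b _ => by rw [hco, h1]; simp)
      (Subgroup.mem_top b)
    rw [hc, F.ker j _ (h _)] at this
    simpa using this
  · have hs := hχ.resolve_left h1
    obtain ⟨a0, ha0⟩ := not_forall.1 h1
    have hne : (1 : k) - (F.χ j (σ a0) : k) ≠ 0 := by
      intro h0
      apply ha0
      apply Units.ext
      rw [Units.val_one]
      linear_combination -h0
    obtain ⟨a1, ha1⟩ := hs (Units.mk0 _ hne)⁻¹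
    have ha1' : (F.χ j (σ a1) : k) = ((1 : k) - (F.χ j (σ a0) : k))⁻¹ := by
      have : F.χ j (σ a1) = (Units.mk0 _ hne)⁻¹ := ha1
      rw [this]
      simp
    obtain ⟨v, hv⟩ : ∃ v, v = σ a1 * (σ' a0 * (σ a0)⁻¹) * (σ a1)⁻¹ := ⟨_, rfl⟩
    have hvN : v ∈ F.N j := hv ▸ hN.conj_mem _ (h a0) _
    have hφv : F.φ j v = ((1 : k) - (F.χ j (σ a0) : k))⁻¹ * c a0 := by
      rw [hv, F.conj j _ _ (h a0), ha1', hc]
    refine ⟨v, hvN, fun a => ?_⟩
    have e : σ' a * (v * σ a * v⁻¹)⁻¹ = σ' a * (σ a)⁻¹ * (σ a * v * (σ a)⁻¹) * v⁻¹ := by group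
    have hm1 : σ a * v * (σ a)⁻¹ ∈ F.N j := hN.conj_mem _ hvN _
    have hm2 := mul_mem (h a) hm1
    rw [e, ← F.ker j _ (mul_mem hm2 (inv_mem hvN)), F.add j _ hm2 _ (inv_mem hvN),
      F.add j _ (h a) _ hm1, F.conj j _ _ hvN, FiltA_inv F j hvN, hφv, ← hc]
    have e1 := hco a a0
    rw [hA a a0, hco a0 a] at e1
    field_simp
    linear_combination -e1

theorem Filt.conj_hom {A : Type*} [Group A] (hA : ∀ a b : A, a * b = b * a)
    (hd : ∀ a : A, ∃ b : A, b ^ ringChar k = a) (σ σ' : A →* B)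
    (h : ∀ a, σ' a * (σ a)⁻¹ ∈ F.N 0)
    (hχ : ∀ j, (∀ a, F.χ j (σ a) = 1) ∨ Function.Surjective fun a => F.χ j (σ a)) :
    ∃ u ∈ F.N 0, ∀ a, σ' a = u * σ a * u⁻¹ := by
  have key : ∀ j, ∃ u ∈ F.N 0, ∀ a, σ' a * (u * σ a * u⁻¹)⁻¹ ∈ F.N j := by
    intro j
    induction j with
    | zero => exact ⟨1, one_mem _, fun a => by simpa using h a⟩
    | succ j ih =>
      obtain ⟨u, hu, hj⟩ := ih
      have e : ∀ a, F.χ j (((MulAut.conj u).toMonoidHom.comp σ) a) = F.χ j (σ a) := by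
        intro a
        change F.χ j (u * σ a * u⁻¹) = _
        rw [map_mul, map_mul, map_inv, F.triv j u hu]
        simp
      obtain ⟨v, hv, hv'⟩ := FiltA_step F hA hd ((MulAut.conj u).toMonoidHom.comp σ) σ' j hj
        (by simpa only [e] using hχ j)
      refine ⟨v * u, mul_mem (FiltA_le F j hv) hu, fun a => ?_⟩
      have := hv' a
      change σ' a * (v * (u * σ a * u⁻¹) * v⁻¹)⁻¹ ∈ _ at this
      convert this using 2
      group
  obtain ⟨u, hu, h'⟩ := key F.m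
  refine ⟨u, hu, fun a => ?_⟩
  have := h' a
  rw [F.last, Subgroup.mem_bot] at this
  exact mul_inv_eq_one.1 this

private theorem FiltA_pw {N : Subgroup B} [N.Normal] {h c : B} (hh : h⁻¹ * c ∈ N) (n : ℕ) :
    (h ^ n)⁻¹ * c ^ n ∈ N := by
  rw [← QuotientGroup.eq] at hh ⊢
  rw [QuotientGroup.mk_pow, QuotientGroup.mk_pow, hh]

private theorem FiltA_comm {N : Subgroup B} [N.Normal] (a b : B) :
    Commute (QuotientGroup.mk' N a) (QuotientGroup.mk' N b) ↔ a * b * a⁻¹ * b⁻¹ ∈ N := by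
  rw [← commutatorElement_eq_one_iff_commute, ← map_commutatorElement, QuotientGroup.mk'_apply,
    QuotientGroup.eq_one_iff, commutatorElement_def]

private theorem FiltA_triv (hc : ∀ a b : B, a * b * a⁻¹ * b⁻¹ ∈ F.N 0)
    (hd : ∀ b : B, ∃ c : B, b⁻¹ * c ^ ringChar k ∈ F.N 0)
    (ht : ∀ b : B, b ^ ringChar k ∈ F.N 0 → b ∈ F.N 0) (j : ℕ) (h1 : ∀ b, F.χ j b = 1)
    (H : Subgroup B) (H1 : F.N j ≤ H) (H2 : H ⊓ F.N 0 ≤ F.N j)
    (H3 : ∀ b, ∃ h ∈ H, h⁻¹ * b ∈ F.N 0) :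
    ∃ H' : Subgroup B, F.N (j + 1) ≤ H' ∧ H' ⊓ F.N 0 ≤ F.N (j + 1) ∧
      ∀ b, ∃ h ∈ H', h⁻¹ * b ∈ F.N 0 := by
  have hN := F.normal j
  have := F.normal 0
  have := F.normal (j + 1)
  have hd' : ∀ b, ∃ h ∈ H, (h ^ ringChar k)⁻¹ * b ∈ F.N 0 := by
    intro b
    obtain ⟨c, hc⟩ := hd b
    obtain ⟨h, hh, hh'⟩ := H3 c
    refine ⟨h, hh, ?_⟩
    have := mul_mem (FiltA_pw hh' (ringChar k)) (inv_mem hc)
    convert this using 1
    group
  have hcm : ∀ a ∈ H, ∀ b ∈ H, a * b * a⁻¹ * b⁻¹ ∈ F.N j := fun a ha b hb =>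
    H2 ⟨H.mul_mem (H.mul_mem (H.mul_mem ha hb) (H.inv_mem ha)) (H.inv_mem hb), hc a b⟩
  have hab : ∀ a ∈ H, ∀ b ∈ H, a * b * a⁻¹ * b⁻¹ ∈ F.N (j + 1) := by
    intro a ha b hb
    obtain ⟨f, hf⟩ : ∃ f : B → k, ∀ a, f a = F.φ j (a * b * a⁻¹ * b⁻¹) := ⟨_, fun _ => rfl⟩
    have hadd : ∀ a ∈ H, ∀ a' ∈ H, f (a * a') = f a + f a' := by
      intro a ha a' ha'
      have e : a * a' * b * (a * a')⁻¹ * b⁻¹
          = a * (a' * b * a'⁻¹ * b⁻¹) * a⁻¹ * (a * b * a⁻¹ * b⁻¹) := by group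
      rw [hf, hf, hf, e, F.add j _ (hN.conj_mem _ (hcm _ ha' _ hb) _) _ (hcm _ ha _ hb),
        F.conj j _ _ (hcm _ ha' _ hb), h1]
      simp [add_comm]
    obtain ⟨h, hh, hh'⟩ := hd' a
    have hp := pow_mem hh (ringChar k)
    obtain ⟨n, hn⟩ : ∃ n, n = (h ^ ringChar k)⁻¹ * a := ⟨_, rfl⟩
    have hnN : n ∈ F.N j := H2 ⟨hn ▸ H.mul_mem (H.inv_mem hp) ha, hn ▸ hh'⟩
    have hn0 : f n = 0 := by
      have e : n * b * n⁻¹ * b⁻¹ = n * (b * n⁻¹ * b⁻¹) := by group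
      rw [hf, e, F.add j _ hnN _ (hN.conj_mem _ (inv_mem hnN) _), F.conj j _ _ (inv_mem hnN),
        h1, FiltA_inv F j hnN]
      simp
    have ea : a = h ^ ringChar k * n := by rw [hn]; group
    have : f a = 0 := by
      rw [ea, hadd _ hp _ (H1 hnN), hn0, FiltA_pow H f hadd hh, add_zero]
    rwa [hf, F.ker j _ (hcm _ ha _ hb)] at this
  let H' : Subgroup B :=
    { carrier := {x | ∃ h ∈ H, QuotientGroup.mk' (F.N (j + 1)) x
        = QuotientGroup.mk' (F.N (j + 1)) h ^ ringChar k}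
      one_mem' := ⟨1, one_mem _, by simp⟩
      mul_mem' := by
        rintro x y ⟨a, ha, hx⟩ ⟨b, hb, hy⟩
        refine ⟨a * b, mul_mem ha hb, ?_⟩
        rw [map_mul, map_mul, ((FiltA_comm a b).2 (hab a ha b hb)).mul_pow, hx, hy]
      inv_mem' := by
        rintro x ⟨a, ha, hx⟩
        exact ⟨a⁻¹, inv_mem ha, by rw [map_inv, map_inv, hx, inv_pow]⟩ }
  refine ⟨H', fun x hx => ⟨1, one_mem _, ?_⟩, ?_, fun b => ?_⟩
  · rw [map_one, one_pow, QuotientGroup.mk'_apply, QuotientGroup.eq_one_iff]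
    exact hx
  · rintro x ⟨⟨h, hh, hx⟩, hx0⟩
    rw [← map_pow, QuotientGroup.mk'_apply, QuotientGroup.mk'_apply, QuotientGroup.eq] at hx
    have h0 : h ^ ringChar k ∈ F.N 0 := by
      have := mul_mem hx0 (FiltA_le F _ hx)
      simpa using this
    have hj : h ∈ F.N j := H2 ⟨hh, ht h h0⟩
    have h2 : h ^ ringChar k ∈ F.N (j + 1) :=
      (F.ker j _ (pow_mem hj _)).1 (FiltA_pow (F.N j) (F.φ j) (F.add j) hj)
    have := inv_mem (mul_mem hx (inv_mem h2))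
    simpa using this
  · obtain ⟨h, hh, hh'⟩ := hd' b
    exact ⟨h ^ ringChar k, ⟨h, hh, map_pow _ _ _⟩, hh'⟩

private theorem FiltA_surj (hc : ∀ a b : B, a * b * a⁻¹ * b⁻¹ ∈ F.N 0) (j : ℕ)
    (hs : Function.Surjective (F.χ j)) {b0 : B} (hb0 : F.χ j b0 ≠ 1)
    (H : Subgroup B) (H1 : F.N j ≤ H) (H2 : H ⊓ F.N 0 ≤ F.N j)
    (H3 : ∀ b, ∃ h ∈ H, h⁻¹ * b ∈ F.N 0) :
    ∃ H' : Subgroup B, F.N (j + 1) ≤ H' ∧ H' ⊓ F.N 0 ≤ F.N (j + 1) ∧
      ∀ b, ∃ h ∈ H', h⁻¹ * b ∈ F.N 0 := by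
  have hN := F.normal j
  have := F.normal (j + 1)
  obtain ⟨a, ha, ha'⟩ := H3 b0
  have hne : (F.χ j a : k) - 1 ≠ 0 := by
    intro h0
    apply hb0
    have h2 := F.triv j _ ha'
    have h3 : F.χ j a = 1 := by
      apply Units.ext
      rw [Units.val_one]
      linear_combination h0
    rw [map_mul, map_inv, h3] at h2
    simpa using h2
  have hcm : ∀ b ∈ H, a * b * a⁻¹ * b⁻¹ ∈ F.N j := fun b hb =>
    H2 ⟨H.mul_mem (H.mul_mem (H.mul_mem ha hb) (H.inv_mem ha)) (H.inv_mem hb), hc a b⟩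
  have hn : ∀ n ∈ F.N j, F.φ j (a * n * a⁻¹ * n⁻¹) = ((F.χ j a : k) - 1) * F.φ j n := by
    intro n hn
    rw [F.add j _ (hN.conj_mem _ hn _) _ (inv_mem hn), F.conj j _ _ hn, FiltA_inv F j hn]
    ring
  let H' : Subgroup B :=
    { carrier := {x | x ∈ H ∧ Commute (QuotientGroup.mk' (F.N (j + 1)) a)
        (QuotientGroup.mk' (F.N (j + 1)) x)}
      one_mem' := ⟨one_mem _, by rw [map_one]; exact Commute.one_right _⟩
      mul_mem' := by
        rintro x y ⟨hx, hx'⟩ ⟨hy, hy'⟩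
        exact ⟨mul_mem hx hy, by rw [map_mul]; exact hx'.mul_right hy'⟩
      inv_mem' := by
        rintro x ⟨hx, hx'⟩
        exact ⟨inv_mem hx, by rw [map_inv]; exact hx'.inv_right⟩ }
  refine ⟨H', fun x hx => ⟨H1 (F.anti j hx), ?_⟩, ?_, fun b => ?_⟩
  · have : QuotientGroup.mk' (F.N (j + 1)) x = 1 := by
      rw [QuotientGroup.mk'_apply, QuotientGroup.eq_one_iff]
      exact hx
    rw [this]
    exact Commute.one_right _
  · rintro x ⟨⟨hx, hx'⟩, hx0⟩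
    have hj : x ∈ F.N j := H2 ⟨hx, hx0⟩
    rw [FiltA_comm, ← F.ker j _ (hcm x hx), hn x hj] at hx'
    exact (F.ker j x hj).1 ((mul_eq_zero.1 hx').resolve_left hne)
  · obtain ⟨h, hh, hh'⟩ := H3 b
    obtain ⟨g, hg⟩ := hs (-(F.χ j h * Units.mk0 _ hne)⁻¹)
    obtain ⟨n, hn'⟩ : ∃ n, n = g * (a * h * a⁻¹ * h⁻¹) * g⁻¹ := ⟨_, rfl⟩
    have hnN : n ∈ F.N j := hn' ▸ hN.conj_mem _ (hcm h hh) _
    have hφ : F.φ j n = -((F.χ j h : k) * ((F.χ j a : k) - 1))⁻¹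
        * F.φ j (a * h * a⁻¹ * h⁻¹) := by
      rw [hn', F.conj j _ _ (hcm h hh), hg]
      simp
    refine ⟨h * n, ⟨mul_mem hh (H1 hnN), ?_⟩, ?_⟩
    · have e : a * (h * n) * a⁻¹ * (h * n)⁻¹
          = a * h * a⁻¹ * h⁻¹ * (h * (a * n * a⁻¹ * n⁻¹) * h⁻¹) := by group
      rw [FiltA_comm, ← F.ker j _ (hcm _ (mul_mem hh (H1 hnN))), e,
        F.add j _ (hcm h hh) _ (hN.conj_mem _ (hcm n (H1 hnN)) _),
        F.conj j _ _ (hcm n (H1 hnN)), hn n hnN, hφ]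
      have := (F.χ j h).ne_zero
      field_simp
      ring
    · have := mul_mem (inv_mem (FiltA_le F j hnN)) hh'
      convert this using 1
      group

theorem Filt.split (hc : ∀ a b : B, a * b * a⁻¹ * b⁻¹ ∈ F.N 0)
    (hd : ∀ b : B, ∃ c : B, b⁻¹ * c ^ ringChar k ∈ F.N 0)
    (ht : ∀ b : B, b ^ ringChar k ∈ F.N 0 → b ∈ F.N 0)
    (hχ : ∀ j, F.χ j = 1 ∨ Function.Surjective (F.χ j)) :
    ∃ H : Subgroup B, H ⊓ F.N 0 = ⊥ ∧ ∀ b : B, ∃ h ∈ H, h⁻¹ * b ∈ F.N 0 := by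
  have key : ∀ j, ∃ H : Subgroup B, F.N j ≤ H ∧ H ⊓ F.N 0 ≤ F.N j ∧
      ∀ b, ∃ h ∈ H, h⁻¹ * b ∈ F.N 0 := by
    intro j
    induction j with
    | zero =>
      exact ⟨⊤, le_top, inf_le_right, fun b => ⟨b, Subgroup.mem_top _, by simp [one_mem]⟩⟩
    | succ j ih =>
      obtain ⟨H, H1, H2, H3⟩ := ih
      by_cases h1 : ∀ b, F.χ j b = 1
      · exact FiltA_triv F hc hd ht j h1 H H1 H2 H3
      · obtain ⟨b0, hb0⟩ := not_forall.1 h1
        have hs := (hχ j).resolve_left fun h => h1 fun b => by rw [h]; rfl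
        exact FiltA_surj F hc j hs hb0 H H1 H2 H3
  obtain ⟨H, -, H2, H3⟩ := key F.m
  rw [F.last] at H2
  exact ⟨H, le_bot_iff.1 H2, H3⟩

end Pool.Agent.AG
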