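import Pool.Agent.Lib.AG.Grp2

/-! The filtration of a triangularisable group. -/

namespace Pool.Agent.AG

open Set

universe u

variable {k : Type u} [Field k] {n : ℕ} {B : Subgroup (Gl n k)}

theorem Trg.mono (h : Trg B) {B' : Subgroup (Gl n k)} (h' : B' ≤ B) : Trg B' := by
  exact h.imp fun _ hP b hb => hP b (h' hb)

private theorem fb_diag {M N : Mt n k} (hM : M.BlockTriangular id) (hN : N.BlockTriangular id)
    (i : Fin n) : (M * N) i i = M i i * N i i := by
  rw [Matrix.mul_apply]
  refine Finset.sum_eq_single i (fun l _ hl => ?_) fun h => absurd (Finset.mem_univ i) h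
  rcases lt_or_gt_of_ne hl with h | h
  · rw [hM h, zero_mul]
  · rw [hN h, mul_zero]

private theorem fb_nil {M : Mt n k} (hM : M.BlockTriangular id) :
    IsNilpotent M ↔ ∀ i, M i i = 0 := by
  constructor
  · rintro ⟨m, hm⟩ i
    have key : ∀ m : ℕ, (M ^ m) i i = M i i ^ m := fun m => by
      induction m with
      | zero => simp
      | succ m ih => rw [pow_succ, pow_succ, fb_diag (hM.pow m) hM, ih]
    have h1 := key m
    rw [hm] at h1
    exact eq_zero_of_pow_eq_zero h1.symm
  · intro h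
    have h1 := Matrix.aeval_self_charpoly M
    rw [Matrix.charpoly_of_isUpperTriangular M hM] at h1
    exact ⟨n, by simpa [h] using h1⟩

/-- The position of an entry: diagonal by diagonal. -/
private def fbPos (a b : Fin n) : ℕ := (b.1 - a.1) * n + a.1

private theorem fbPos_lt (a b : Fin n) : fbPos a b < n * n := by
  have h1 : (b.1 - a.1 + 1) * n ≤ n * n := Nat.mul_le_mul_right _ (by omega)
  have h2 := a.2
  rw [fbPos]
  linarith [Nat.succ_mul (b.1 - a.1) n]

private theorem fbPos_inj {a b a' b' : Fin n} (h : a < b) (h' : a' < b')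
    (e : fbPos a b = fbPos a' b') : a = a' ∧ b = b' := by
  have h1 : ∀ a b : Fin n, fbPos a b % n = a.1 := fun a b => by
    rw [fbPos, Nat.mul_add_mod_of_lt a.2]
  have h2 : a.1 = a'.1 := by rw [← h1 a b, e, h1]
  rw [fbPos, fbPos, h2] at e
  have h3 := Nat.eq_of_mul_eq_mul_right a.pos (Nat.add_right_cancel e)
  rw [Fin.lt_def] at h h'
  exact ⟨Fin.ext h2, Fin.ext (by omega)⟩

private theorem fb_key {s : ℕ} {M A N : Mt n k} (hM : M.BlockTriangular id)
    (hN : N.BlockTriangular id) (hA : ∀ a b, b ≤ a ∨ fbPos a b < s → A a b = 0) {a b : Fin n}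
    (h : b ≤ a ∨ fbPos a b ≤ s) : (M * A * N) a b = M a a * A a b * N b b := by
  have key : ∀ l l', ¬ (l = a ∧ l' = b) → M a l * A l l' * N l' b = 0 := fun l l' hl => by
    rcases lt_or_ge l a with h1 | h1
    · rw [hM h1, zero_mul, zero_mul]
    rcases lt_or_ge b l' with h2 | h2
    · rw [hN h2, mul_zero]
    rw [hA l l', mul_zero, zero_mul]
    rcases le_or_gt l' l with h3 | h3
    · exact Or.inl h3
    right
    rw [Fin.ext_iff, Fin.ext_iff] at hl
    rw [Fin.le_def] at h1 h2 h
    rw [Fin.lt_def] at h3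
    have h4 : (l'.1 - l.1 + 1) * n ≤ (b.1 - a.1) * n := Nat.mul_le_mul_right _ (by omega)
    have h5 := l.2
    have h6 := h.resolve_left (by omega)
    rw [fbPos] at h6 ⊢
    linarith [Nat.succ_mul (l'.1 - l.1) n, Nat.zero_le a.1]
  rw [Matrix.mul_apply, Finset.sum_eq_single b (fun l' _ hl => ?_)
    fun h => absurd (Finset.mem_univ b) h, Matrix.mul_apply, Finset.sum_mul,
    Finset.sum_eq_single a (fun l _ hl => key l b fun e => hl e.1)
      fun h => absurd (Finset.mem_univ a) h]
  rw [Matrix.mul_apply, Finset.sum_mul]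
  exact Finset.sum_eq_zero fun l _ => key l l' fun e => hl e.2

/-- The conjugated matrix. -/
private def fbC (B : Subgroup (Gl n k)) (P : Gl n k) : B →* Mt n k :=
  (Units.coeHom _).comp ((MulAut.conj P).toMonoidHom.comp B.subtype)

private theorem fbC_apply (P : Gl n k) (x : B) : fbC B P x = (P * x.1 * P⁻¹).1 := rfl

private theorem fb_unip {P : Gl n k} (h : ∀ x : B, (fbC B P x).BlockTriangular id) (x : B) :
    Unip x.1 ↔ ∀ i, fbC B P x i i = 1 := by
  have h1 : Unip x.1 ↔ Unip (P * x.1 * P⁻¹) :=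
    ⟨fun e => e.conj P, fun e => by simpa [mul_assoc] using e.conj P⁻¹⟩
  rw [h1, Unip, ← fbC_apply, fb_nil ((h x).sub Matrix.blockTriangular_one)]
  simp only [Matrix.sub_apply, Matrix.one_apply_eq, sub_eq_zero]

private theorem fb_reg (P : Gl n k) (S : Set (Gl n k)) (i j : Fin n) :
    RegOn (OG k n) S (fun g => (P * g * P⁻¹).1 i j) ∧
      RegOn (OG k n) S fun g => (P * g⁻¹ * P⁻¹).1 i j :=
  ⟨(((MapOn.const P).mul MapOn.id).mul (.const P⁻¹)).entry i j,
    (((MapOn.const P).mul MapOn.id.inv).mul (.const P⁻¹)).entry i j⟩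

section

variable (c : B →* Mt n k) (h : ∀ x : B, (c x).BlockTriangular id)

/-- The diagonal entries as characters. -/
private def fbD (i : Fin n) : B →* kˣ :=
  MonoidHom.toHomUnits
    { toFun := fun x => c x i i
      map_one' := by rw [map_one, Matrix.one_apply_eq]
      map_mul' := fun x y => by rw [map_mul, fb_diag (h x) (h y)] }

private theorem fbD_apply (i : Fin n) (x : B) : (fbD c h i x : k) = c x i i := rfl

private theorem fb_mul (x y : B) : c (x * y) - 1 = 1 * (c x - 1) * c y + (c y - 1) := by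
  rw [map_mul, one_mul, sub_mul, one_mul, sub_add_sub_cancel]

private theorem fb_conj (b x : B) : c (b * x * b⁻¹) - 1 = c b * (c x - 1) * c b⁻¹ := by
  rw [mul_sub, sub_mul, mul_one, ← map_mul, ← map_mul, ← map_mul, mul_inv_cancel, map_one]

/-- The steps of the filtration. -/
private def fbN (s : ℕ) : Subgroup B where
  carrier := {x | ∀ a b, b ≤ a ∨ fbPos a b < s → (c x - 1) a b = 0}
  one_mem' a b _ := by rw [map_one, sub_self, Matrix.zero_apply]
  mul_mem' {x y} hx hy a b e := by
    rw [fb_mul, Matrix.add_apply, fb_key Matrix.blockTriangular_one (h y) hx (e.imp_right le_of_lt),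
      hx a b e, hy a b e, mul_zero, zero_mul, add_zero]
  inv_mem' {x} hx a b e := by
    have h1 := congrFun (congrFun (fb_mul c x x⁻¹) a) b
    rw [mul_inv_cancel, map_one, sub_self, Matrix.zero_apply, Matrix.add_apply,
      fb_key Matrix.blockTriangular_one (h x⁻¹) hx (e.imp_right le_of_lt), hx a b e, mul_zero,
      zero_mul, zero_add] at h1
    exact h1.symm

private theorem fbN_zero (x : B) : x ∈ fbN c h 0 ↔ ∀ i, c x i i = 1 := by
  refine ⟨fun hx i => ?_, fun hx a b e => ?_⟩
  · simpa [sub_eq_zero] using hx i i (Or.inl le_rfl)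
  · rcases (e.resolve_right (Nat.not_lt_zero _)).eq_or_lt with rfl | e'
    · rw [Matrix.sub_apply, hx, Matrix.one_apply_eq, sub_self]
    · exact (h x).sub Matrix.blockTriangular_one e'

include h in
open Classical in
private theorem fb_filt (hc : Function.Injective c) : ∃ F : Filt k B,
    (∀ x : B, x ∈ F.N 0 ↔ ∀ i, c x i i = 1) ∧
      ∀ j, F.χ j = 1 ∨ ∃ a b, ∀ x, (F.χ j x : k) = c x a a * c x⁻¹ b b := by
  have hχ : ∀ a b x, (((fbD c h a * (fbD c h b)⁻¹ : B →* kˣ) x : kˣ) : k) =
      c x a a * c x⁻¹ b b := fun a b x => by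
    rw [MonoidHom.mul_apply, MonoidHom.inv_apply, ← map_inv, Units.val_mul, fbD_apply, fbD_apply]
  refine ⟨{
    m := n * n
    N := fbN c h
    φ := fun s x => if e : ∃ p : Fin n × Fin n, p.1 < p.2 ∧ fbPos p.1 p.2 = s then
      (c x - 1) e.choose.1 e.choose.2 else 0
    χ := fun s => if e : ∃ p : Fin n × Fin n, p.1 < p.2 ∧ fbPos p.1 p.2 = s then
      fbD c h e.choose.1 * (fbD c h e.choose.2)⁻¹ else 1
    anti := fun s x hx a b e => hx a b (e.imp_right Nat.lt_succ_of_lt)
    last := ?_
    normal := fun s => ⟨fun x hx g a b e => ?_⟩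
    add := fun s x hx y hy => ?_
    ker := fun s x hx => ?_
    conj := fun s g x hx => ?_
    triv := fun s x hx => ?_ }, fbN_zero c h, fun s => ?_⟩
  · refine eq_bot_iff.2 fun x hx => hc ?_
    rw [map_one, ← sub_eq_zero]
    exact Matrix.ext fun a b => hx a b (Or.inr (fbPos_lt a b))
  · rw [fb_conj, fb_key (h g) (h g⁻¹) hx (e.imp_right le_of_lt), hx a b e, mul_zero, zero_mul]
  · split_ifs with e
    · have h1 : c y e.choose.2 e.choose.2 = 1 := by
        simpa [sub_eq_zero] using hy _ e.choose.2 (Or.inl le_rfl)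
      rw [fb_mul, Matrix.add_apply,
        fb_key Matrix.blockTriangular_one (h y) hx (Or.inr e.choose_spec.2.le),
        Matrix.one_apply_eq, one_mul, h1, mul_one]
    · rw [add_zero]
  · split_ifs with e
    · refine ⟨fun h0 a b e' => ?_, fun h0 => h0 _ _ (Or.inr (by rw [e.choose_spec.2]; omega))⟩
      by_cases h1 : b ≤ a ∨ fbPos a b < s
      · exact hx a b h1
      rw [not_or, not_le, not_lt] at h1
      have h2 : fbPos a b = s := by
        have := e'.resolve_left (not_le.2 h1.1)
        omega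
      obtain ⟨rfl, rfl⟩ := fbPos_inj h1.1 e.choose_spec.1 (h2.trans e.choose_spec.2.symm)
      exact h0
    · refine ⟨fun _ a b e' => hx a b ?_, fun _ => rfl⟩
      rcases le_or_gt b a with h1 | h1
      · exact Or.inl h1
      have h2 := e'.resolve_left (not_le.2 h1)
      have h3 : fbPos a b ≠ s := fun h3 => e ⟨(a, b), h1, h3⟩
      exact Or.inr (by omega)
  · split_ifs with e
    · rw [fb_conj, fb_key (h g) (h g⁻¹) hx (Or.inr e.choose_spec.2.le), hχ, mul_right_comm]
    · rw [mul_zero]
  · split_ifs with e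
    · refine Units.ext ?_
      rw [hχ, (fbN_zero c h x).1 hx, (fbN_zero c h x⁻¹).1 ((fbN c h 0).inv_mem hx), mul_one,
        Units.val_one]
    · rfl
  · by_cases e : ∃ p : Fin n × Fin n, p.1 < p.2 ∧ fbPos p.1 p.2 = s
    · exact Or.inr ⟨_, _, fun x => by simp only [dif_pos e]; exact hχ _ _ x⟩
    · exact Or.inl (dif_neg e)

/-- The diagonal part after conjugation. -/
private def fbDiag : B →* Gl n k :=
  MonoidHom.toHomUnits
    { toFun := fun x => Matrix.diagonal fun i => c x i i
      map_one' := by simp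
      map_mul' := fun x y => by
        simp only [Matrix.diagonal_mul_diagonal, map_mul, fb_diag (h x) (h y)] }

private theorem fbDiag_val (x : B) : (fbDiag c h x).1 = Matrix.diagonal fun i => c x i i := rfl

end

theorem Trg.exists_filt (h : Trg B) : ∃ F : Filt k B, (∀ x : B, x ∈ F.N 0 ↔ Unip x.1) ∧
    (∀ j, RegChar (F.χ j)) ∧ ∀ a b : B, a * b * a⁻¹ * b⁻¹ ∈ F.N 0 := by
  obtain ⟨P, hP⟩ := h
  have h : ∀ x : B, (fbC B P x).BlockTriangular id := fun x => hP x.1 x.2
  obtain ⟨F, h1, h2⟩ := fb_filt (fbC B P) h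
    (Units.val_injective.comp ((MulAut.conj P).injective.comp Subtype.val_injective))
  refine ⟨F, fun x => (h1 x).trans (fb_unip h x).symm, fun j => ?_, fun a b => (h1 _).2 fun i => ?_⟩
  · rcases h2 j with e | ⟨a, b, e⟩
    · exact ⟨1, (OG k n).one_mem, fun x => by rw [e]; rfl⟩
    · exact ⟨_, ((fb_reg P univ a a).1.mul (fb_reg P univ b b).2).mem, fun x => (e x).symm⟩
  · rw [← fbD_apply _ h, map_mul, map_mul, map_mul, map_inv, map_inv, mul_inv_cancel_comm,
      mul_inv_cancel, Units.val_one]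

/-- The diagonal part. -/
theorem Trg.exists_diag (h : Trg B) : ∃ d : B →* Gl n k, Dg d.range ∧
    (∀ x : B, d x = 1 ↔ Unip x.1) ∧ ∃ φ : Gl n k → Gl n k, (∀ x : B, φ x.1 = d x) ∧
      MapOn (OG k n) (B : Set (Gl n k)) (OG k n) φ := by
  classical
  obtain ⟨P, hP⟩ := h
  have h : ∀ x : B, (fbC B P x).BlockTriangular id := fun x => hP x.1 x.2
  refine ⟨(MulAut.conj P⁻¹).toMonoidHom.comp (fbDiag (fbC B P) h), ⟨P, ?_⟩, fun x => ?_,
    fun g => P⁻¹ * (if e : g ∈ B then fbDiag (fbC B P) h ⟨g, e⟩ else 1) * P⁻¹⁻¹,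
    fun x => by simp only [dif_pos x.2]; rfl, ?_⟩
  · rintro _ ⟨x, rfl⟩
    have e : P * ((MulAut.conj P⁻¹).toMonoidHom.comp (fbDiag (fbC B P) h)) x * P⁻¹ =
        fbDiag (fbC B P) h x := by simp [mul_assoc]
    rw [e, fbDiag_val]
    exact Matrix.isDiag_diagonal _
  · rw [fb_unip h, MonoidHom.comp_apply, MulEquiv.coe_toMonoidHom, EmbeddingLike.map_eq_one_iff,
      Units.ext_iff, fbDiag_val, Units.val_one, Matrix.diagonal_eq_one, funext_iff]
    rfl
  · refine ((MapOn.const _).mul (.toOG (fun i j => ?_) fun i j => ?_)).mul (.const _)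
    · by_cases e : i = j
      · subst e
        refine (fb_reg P _ i i).1.congr fun g hg => ?_
        rw [dif_pos (show g ∈ B from hg), fbDiag_val, Matrix.diagonal_apply_eq]
        rfl
      · refine (RegOn.const 0).congr fun g hg => ?_
        rw [dif_pos (show g ∈ B from hg), fbDiag_val, Matrix.diagonal_apply_ne _ e]
    · by_cases e : i = j
      · subst e
        refine (fb_reg P _ i i).2.congr fun g hg => ?_
        rw [dif_pos (show g ∈ B from hg), ← map_inv, fbDiag_val, Matrix.diagonal_apply_eq]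
        rfl
      · refine (RegOn.const 0).congr fun g hg => ?_
        rw [dif_pos (show g ∈ B from hg), ← map_inv, fbDiag_val, Matrix.diagonal_apply_ne _ e]

end Pool.Agent.AG
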