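import Pool.Agent.Lib.AG.Act
import Pool.Agent.Lib.AG.FL

/-! The subgroups attached to semigroups of weights of a torus. -/

namespace Pool.Agent.AG

open Set Matrix

attribute [local instance 100] LieRing.ofAssociativeRing

universe u

variable {k : Type u} [Field k] [IsAlgClosed k] [Fact (ringChar k).Prime] {n : ℕ}
  {G H T : Subgroup (Gl n k)} (τ : TD T) {V : Type u} [AddCommGroup V] [Module k V]
  {ρ : Gl n k → Module.End k V}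

theorem sga_zero {r : ℕ} (y : Fin r → ℤ) : SGa {x : Fin r → ℤ | x ⬝ᵥ y = 0} := by
  intro a ha b hb
  rw [mem_ofPred_eq] at *
  rw [add_dotProduct, ha, hb, add_zero]

theorem sga_pos {r : ℕ} (y : Fin r → ℤ) : SGa {x : Fin r → ℤ | 0 < x ⬝ᵥ y} := by
  intro a ha b hb
  rw [mem_ofPred_eq] at *
  rw [add_dotProduct]
  exact add_pos ha hb

theorem sga_nonneg {r : ℕ} (y : Fin r → ℤ) : SGa {x : Fin r → ℤ | 0 ≤ x ⬝ᵥ y} := by
  intro a ha b hb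
  rw [mem_ofPred_eq] at *
  rw [add_dotProduct]
  exact add_nonneg ha hb

omit [IsAlgClosed k] [Fact (ringChar k).Prime] in
private theorem Ad_sub_one (g u : Gl n k) : Ad g (u.1 - 1) = (g * u * g⁻¹).1 - 1 := by
  rw [Ad_apply, mul_sub, sub_mul, mul_one, Units.mul_inv]
  rfl

namespace TD

variable {P Q : Set τ.X}

private theorem w_le_M {x : τ.X} (hx : x ∈ P) : τ.w Ad x ≤ τ.M P := by
  rw [τ.M_eq]
  exact le_iSup₂_of_le x hx le_rfl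

omit [IsAlgClosed k] [Fact (ringChar k).Prime] in
private theorem mul_M {R : Set τ.X} (h : ∀ a ∈ P, ∀ b ∈ Q, a + b ∈ R) {A B : Mt n k}
    (hA : A ∈ τ.M P) (hB : B ∈ τ.M Q) : A * B ∈ τ.M R := by
  refine mul_mem_MP ?_ hA hB
  rintro _ ⟨a, ha, rfl⟩ _ ⟨b, hb, rfl⟩
  exact ⟨a + b, h a ha b hb, τ.χ_add a b⟩

omit [IsAlgClosed k] [Fact (ringChar k).Prime] in
private theorem co_apply {x y : τ.X} {v : V} (hv : v ∈ τ.w ρ x) (a : kˣ) :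
    ρ (τ.co y a) v = ((a ^ (x ⬝ᵥ y) : kˣ) : k) • v := by
  rw [← τ.pair]
  exact hv ⟨_, (τ.coch y).1 a⟩

private theorem dot_eq_zero {x y : τ.X} (h : ∀ a : kˣ, a ^ (x ⬝ᵥ y) = 1) : x ⬝ᵥ y = 0 := by
  have h1 : (x ⬝ᵥ y) • y = 0 := τ.co_inj (funext fun a => by
    rw [τ.co_zsmul, h, τ.co_one, τ.co_zero])
  rcases smul_eq_zero.1 h1 with h2 | rfl
  · exact h2
  · exact dotProduct_zero x

private theorem exists_path {c : τ.X →₀ V} (hc : ∀ x, c x ∈ τ.w ρ x) {y : τ.X} {m : ℤ}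
    (hm : ∀ x ∈ c.support, x ⬝ᵥ y ≤ m) : ∃ p : k → V, MapOn (OV k k) univ (OV k V) p ∧
      p 0 = ((c.filter fun x => x ⬝ᵥ y = m).sum fun _ a => a) ∧
      ∀ a : kˣ, p a = ((a ^ m : kˣ) : k) • ρ (τ.co y a⁻¹) (c.sum fun _ a => a) := by
  refine ⟨fun t => ∑ x ∈ c.support, t ^ (m - x ⬝ᵥ y).toNat • c x,
    .vsum fun x _ => .vsmul (regOn_id.pow _) (.const _), ?_, fun a => ?_⟩
  · rw [Finsupp.sum, Finsupp.support_filter, Finset.sum_filter]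
    refine Finset.sum_congr rfl fun x hx => ?_
    have := hm x hx
    split_ifs with h
    · rw [Finsupp.filter_apply, if_pos h, h, sub_self, Int.toNat_zero, pow_zero, one_smul]
    · rw [zero_pow (by omega), zero_smul]
  · rw [Finsupp.sum, map_sum, Finset.smul_sum]
    refine Finset.sum_congr rfl fun x hx => ?_
    rw [τ.co_apply (hc x), smul_smul, ← Units.val_mul, _root_.inv_zpow', ← _root_.zpow_add,
      ← Units.val_pow_eq_pow_val, ← _root_.zpow_natCast, Int.toNat_of_nonneg (sub_nonneg.2 (hm x hx)),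
      sub_eq_add_neg]

private theorem exists_pathM {y : τ.X} {A : Mt n k} (h : A ∈ τ.M {x | 0 < x ⬝ᵥ y}) :
    ∃ p : k → Mt n k, MapOn (OV k k) univ (OV k (Mt n k)) p ∧ p 0 = 0 ∧
      ∀ a : kˣ, p a = Ad (τ.co y a) A := by
  rw [τ.M_eq] at h
  obtain ⟨c, hc, h0, rfl⟩ := τ.exists_comp_of_mem h
  have h1 : ∀ x ∈ c.support, x ⬝ᵥ (-y) < 0 := fun x hx => by
    rw [dotProduct_neg, neg_lt_zero]
    exact by_contra fun h1 => Finsupp.mem_support_iff.1 hx (h0 x h1)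
  obtain ⟨p, hp, p0, p1⟩ := τ.exists_path hc fun x hx => (h1 x hx).le
  refine ⟨p, hp, ?_, fun a => ?_⟩
  · rw [p0, Finsupp.sum, Finsupp.support_filter,
      Finset.filter_false_of_mem fun x hx => (h1 x hx).ne, Finset.sum_empty]
  · rw [p1, zpow_zero, Units.val_one, one_smul, τ.co_neg, τ.co_inv, inv_inv]

theorem mem_GX (hP : SGa P) {g : Gl n k} : g ∈ τ.GX G P ↔ g ∈ G ∧ g.1 - 1 ∈ τ.M P := by
  exact mem_GP (τ.sg_image hP)

private theorem lmul_M (hP : SGa P) (h : ∀ a ∈ P, ∀ b ∈ Q, a + b ∈ Q) {g : Gl n k}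
    (hg : g ∈ τ.GX G P) {A : Mt n k} (hA : A ∈ τ.M Q) : g.1 * A ∈ τ.M Q := by
  rw [← sub_add_cancel g.1 1, add_mul, one_mul]
  exact add_mem (τ.mul_M h ((τ.mem_GX hP).1 hg).2 hA) hA

private theorem rmul_M (hP : SGa P) (h : ∀ a ∈ P, ∀ b ∈ Q, a + b ∈ Q) {g : Gl n k}
    (hg : g ∈ τ.GX G P) {A : Mt n k} (hA : A ∈ τ.M Q) : A * g.1 ∈ τ.M Q := by
  rw [← sub_add_cancel g.1 1, mul_add, mul_one]
  exact add_mem (τ.mul_M (fun a ha b hb => add_comm b a ▸ h b hb a ha) hA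
    ((τ.mem_GX hP).1 hg).2) hA

theorem GX_mono (h : H ≤ G) (h' : P ⊆ Q) : τ.GX H P ≤ τ.GX G Q := by
  exact GP_mono h (image_mono h')

theorem GX_congr (h : ∀ x, τ.w Ad x ≠ ⊥ → (x ∈ P ↔ x ∈ Q)) : τ.GX G P = τ.GX G Q := by
  exact congrArg (fun W : Submodule k (Mt n k) => Subgroup.closure {g | g ∈ G ∧ g.1 - 1 ∈ W})
    (τ.M_congr h)

theorem GX_GX (hP : SGa P) (hQ : SGa Q) : τ.GX (τ.GX G P) Q = τ.GX G (P ∩ Q) := by
  ext g
  rw [τ.mem_GX hQ, τ.mem_GX hP, τ.mem_GX (P := P ∩ Q) fun a ha b hb =>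
    ⟨hP a ha.1 b hb.1, hQ a ha.2 b hb.2⟩, ← τ.M_inf, Submodule.mem_inf, and_assoc]

theorem closed_GX (hP : SGa P) (hG : Closed (OG k n) (G : Set (Gl n k))) :
    Closed (OG k n) (τ.GX G P : Set (Gl n k)) := by
  exact closed_GP (τ.sg_image hP) hG

theorem GX_inf_eq_bot (hP : SGa P) (hQ : SGa Q) (h : Disjoint P Q) {g : Gl n k}
    (h1 : g ∈ τ.GX G P) (h2 : g ∈ τ.GX H Q) : g = 1 := by
  have h3 : g.1 - 1 ∈ τ.M P ⊓ τ.M Q := ⟨((τ.mem_GX hP).1 h1).2, ((τ.mem_GX hQ).1 h2).2⟩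
  rw [τ.M_inf, h.inter_eq, τ.M_eq] at h3
  exact Units.ext (sub_eq_zero.1 (by simpa using h3))

theorem le_GX (hP : SGa P) (h0 : 0 ∈ P) (hT : T ≤ G) : T ≤ τ.GX G P := by
  refine fun t ht => (τ.mem_GX hP).2 ⟨hT ht, τ.w_le_M h0 fun s => ?_⟩
  rw [τ.χ_zero, Ad_sub_one, τ.dg.comm s.2 ht, mul_inv_cancel_right]
  exact (one_smul k _).symm

theorem unip_GX (hP : SGa P) (h0 : 0 ∉ P) {g : Gl n k} (hg : g ∈ τ.GX G P) : Unip g := by
  refine unip_of_mem_GP (τ.sg_image hP) ?_ τ.dg hg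
  rintro ⟨x, hx, e⟩
  exact h0 (τ.χ_inj (e.trans τ.χ_zero.symm) ▸ hx)

theorem nm_GX (hP : SGa P) (h : Nm T G) : Nm T (τ.GX G P) := by
  exact nm_GP (τ.sg_image hP) τ.dg h

theorem nm_GX_GX (hP : SGa P) (hQ : SGa Q) (h : ∀ a ∈ P, ∀ b ∈ Q, a + b ∈ Q) :
    Nm (τ.GX G P) (τ.GX G Q) := by
  intro g hg u hu
  refine (τ.mem_GX hQ).2 ⟨mul_mem (mul_mem (GP_le hg) (GP_le hu)) (inv_mem (GP_le hg)), ?_⟩
  rw [← Ad_sub_one, Ad_apply]
  exact τ.rmul_M hP h (inv_mem hg) (τ.lmul_M hP h hg ((τ.mem_GX hQ).1 hu).2)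

theorem comm_mem_GX {R : Set τ.X} (hP : SGa P) (hQ : SGa Q) (hR : SGa R)
    (h : ∀ a ∈ P, ∀ b ∈ Q, a + b ∈ R) (h1 : ∀ a ∈ P, ∀ c ∈ R, a + c ∈ R)
    (h2 : ∀ b ∈ Q, ∀ c ∈ R, b + c ∈ R) {a b : Gl n k} (ha : a ∈ τ.GX G P) (hb : b ∈ τ.GX G Q) :
    a * b * a⁻¹ * b⁻¹ ∈ τ.GX G R := by
  refine (τ.mem_GX hR).2 ⟨mul_mem (mul_mem (mul_mem (GP_le ha) (GP_le hb)) (inv_mem (GP_le ha)))
    (inv_mem (GP_le hb)), ?_⟩
  have e : (a * b * a⁻¹ * b⁻¹).1 - 1 =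
      ((a.1 - 1) * (b.1 - 1) - (b.1 - 1) * (a.1 - 1)) * a⁻¹.1 * b⁻¹.1 := by
    rw [show (a.1 - 1) * (b.1 - 1) - (b.1 - 1) * (a.1 - 1) = a.1 * b.1 - b.1 * a.1 by
      noncomm_ring, sub_mul, sub_mul, Units.mul_inv_cancel_right, Units.mul_inv]
    rfl
  have ha' := ((τ.mem_GX hP).1 ha).2
  have hb' := ((τ.mem_GX hQ).1 hb).2
  rw [e]
  exact τ.rmul_M hQ h2 (inv_mem hb) (τ.rmul_M hP h1 (inv_mem ha) (sub_mem (τ.mul_M h ha' hb')
    (τ.mul_M (fun x hx y hy => add_comm y x ▸ h y hy x hx) hb' ha')))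

theorem mem_GX_zero {g : Gl n k} : g ∈ τ.GX G {0} ↔ g ∈ G ∧ ∀ t ∈ T, t * g = g * t := by
  rw [← mem_GP_one, ← τ.χ_zero, GX, image_singleton]

theorem mem_Z {y : τ.X} {g : Gl n k} :
    g ∈ τ.Z G y ↔ g ∈ G ∧ ∀ a, τ.co y a * g = g * τ.co y a := by
  rw [τ.mem_GX (sga_zero y)]
  refine and_congr_right fun _ => ?_
  have e : ∀ a, τ.co y a * g = g * τ.co y a ↔ Ad (τ.co y a) (g.1 - 1) = g.1 - 1 := fun a => by
    rw [Ad_sub_one, sub_left_inj, Units.val_inj, mul_inv_eq_iff_eq_mul]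
  simp only [e]
  generalize g.1 - 1 = A
  refine ⟨fun h a => ?_, fun h => ?_⟩
  · rw [τ.M_eq] at h
    obtain ⟨c, hc, h0, rfl⟩ := τ.exists_comp_of_mem h
    rw [Finsupp.sum, map_sum]
    refine Finset.sum_congr rfl fun x hx => ?_
    have h1 : x ⬝ᵥ y = 0 := by_contra fun h1 => Finsupp.mem_support_iff.1 hx (h0 x h1)
    rw [τ.co_apply (hc x), h1, zpow_zero, Units.val_one, one_smul]
  · obtain ⟨c, hc, rfl⟩ := τ.exists_comp (isRep_Ad T) A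
    refine Submodule.sum_mem _ fun x hx => τ.w_le_M (τ.dot_eq_zero fun a => ?_) (hc x)
    let W : Submodule k (Mt n k) := LinearMap.ker (Ad (τ.co y a) - 1)
    have hW : Stab T Ad W := fun t ht w hw => by
      have h1 : Ad (τ.co y a) w = w := sub_eq_zero.1 hw
      refine sub_eq_zero.2 ?_
      rw [← (isRep_Ad T).mul_apply (τ.co_mem y a) ht, τ.dg.comm (τ.co_mem y a) ht,
        (isRep_Ad T).mul_apply ht (τ.co_mem y a), h1]
      rfl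
    have h1 : Ad (τ.co y a) (c x) = c x :=
      sub_eq_zero.1 (τ.comp_mem hW hc (sub_eq_zero.2 (h a)) x)
    rw [τ.co_apply (hc x)] at h1
    exact Units.ext (smul_left_injective k (Finsupp.mem_support_iff.1 hx)
      (h1.trans (one_smul k _).symm))

theorem Z_eq_of_rg {y : τ.X} (hy : τ.Rg y) : τ.Z G y = τ.GX G {0} := by
  refine τ.GX_congr fun x hx => ⟨fun h => by_contra fun h0 => hy x h0 hx h, ?_⟩
  rintro rfl
  exact zero_dotProduct y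

theorem mem_lie_GX (hG : Closed (OG k n) (G : Set (Gl n k))) (hn : Nm T G) (hP : SGa P)
    {A : Mt n k} : A ∈ lie (τ.GX G P) ↔ A ∈ lie G ∧ A ∈ τ.M P := by
  exact mem_lie_GP hG τ.dg hn (τ.sg_image hP)

theorem le_GX_of_lie (hH : CC H) (hn : Nm T H) (hP : SGa P) (hHG : H ≤ G)
    (h : ∀ A ∈ lie H, A ∈ τ.M P) : H ≤ τ.GX G P := by
  exact hH.le_GP τ.dg hn (τ.sg_image hP) hHG h

theorem lie_comp (hn : Nm T G) {A : Mt n k} (hA : A ∈ lie G) : ∃ c : τ.X →₀ Mt n k,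
    (∀ x, c x ∈ lie G ∧ c x ∈ τ.w Ad x) ∧ (c.sum fun _ a => a) = A := by
  obtain ⟨c, hc, rfl⟩ := τ.exists_comp (isRep_Ad T) A
  exact ⟨c, fun x => ⟨τ.comp_mem hn.stab_lie hc hA x, hc x⟩, rfl⟩

theorem finite_Rt (G : Subgroup (Gl n k)) : (τ.Rt G).Finite := by
  refine (τ.finite_w Ad).subset ?_
  rintro x ⟨-, A, -, h0, hA⟩
  exact (Submodule.ne_bot_iff _).2 ⟨A, hA, h0⟩

theorem mem_roots_iff {γ : T →* kˣ} : γ ∈ roots G T ↔ ∃ x ∈ τ.Rt G, γ = τ.χ x := by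
  constructor
  · rintro ⟨h1, A, hA, h0, h⟩
    have h2 : A ∈ wV Ad T γ := fun t => (Ad_apply _ _).trans (h t)
    obtain ⟨x, rfl⟩ :=
      τ.exists_χ ((isRep_Ad T).regChar ((Submodule.ne_bot_iff _).2 ⟨A, h2, h0⟩))
    exact ⟨x, ⟨fun e => h1 (e ▸ τ.χ_zero), A, hA, h0, h2⟩, rfl⟩
  · rintro ⟨x, ⟨h1, A, hA, h0, h⟩, rfl⟩
    exact ⟨fun e => h1 (τ.χ_inj (e.trans τ.χ_zero.symm)), A, hA, h0,
      fun t => (Ad_apply _ _).symm.trans (h t)⟩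

theorem shift_w [FiniteDimensional k V] (hP : SGa P) (hT : T ≤ G) (hρ : IsRep G ρ) {u : Gl n k}
    (hu : u ∈ τ.GX G P) {x : τ.X} {v : V} (hv : v ∈ τ.w ρ x) :
    ρ u v - v ∈ ⨆ z ∈ (x + ·) '' P, τ.w ρ z := by
  refine SetLike.le_def.1 (iSup₂_le ?_) (shift (τ.sg_image hP) τ.dg hT hρ hu hv)
  rintro _ ⟨z, hz, rfl⟩
  rw [← τ.χ_add]
  exact le_iSup₂_of_le (x + z) ⟨z, hz, rfl⟩ le_rfl

theorem Act.conj_GX {g : Gl n k} {a a' : τ.X ≃+ τ.X} (h : τ.Act g a a') (hg : g ∈ G) (hP : SGa P)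
    {u : Gl n k} (hu : u ∈ τ.GX G P) : g * u * g⁻¹ ∈ τ.GX G (a '' P) := by
  have hP' : SGa (a '' P) := by
    rintro _ ⟨x, hx, rfl⟩ _ ⟨z, hz, rfl⟩
    exact ⟨x + z, hP x hx z hz, map_add a x z⟩
  refine (τ.mem_GX hP').2 ⟨mul_mem (mul_mem hg (GP_le hu)) (inv_mem hg), ?_⟩
  have h1 : τ.M P ≤ (τ.M (a '' P)).comap (Ad g) := by
    rw [τ.M_eq P]
    exact iSup₂_le fun x hx A hA =>
      τ.w_le_M (mem_image_of_mem a hx) (h.map_w (isRep_Ad ⊤) le_top trivial hA)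
  rw [← Ad_sub_one]
  exact h1 ((τ.mem_GX hP).1 hu).2

theorem Act.map_Rt {g : Gl n k} {a a' : τ.X ≃+ τ.X} (h : τ.Act g a a') (hg : g ∈ G) {x : τ.X}
    (hx : x ∈ τ.Rt G) : a x ∈ τ.Rt G := by
  obtain ⟨h1, A, hA, h0, h2⟩ := hx
  refine ⟨fun e => h1 (a.map_eq_zero_iff.1 e), Ad g A, cj_eq_self hg ▸ mem_lie_cj hA,
    fun e => h0 ?_, h.map_w (isRep_Ad ⊤) le_top trivial h2⟩
  rw [← (isRep_Ad ⊤).inv_apply (g := g) trivial A, e, map_zero]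

/-- Contraction to the identity along a cocharacter. -/
theorem exists_curve {y : τ.X} {u : Gl n k} (hu : u ∈ τ.U G y) : ∃ c : k → Gl n k,
    MapOn (OV k k) univ (OG k n) c ∧ c 0 = 1 ∧
      ∀ a : kˣ, c a = τ.co y a * u * (τ.co y a)⁻¹ := by
  classical
  obtain ⟨p, hp, p0, p1⟩ := τ.exists_pathM ((τ.mem_GX (sga_pos y)).1 hu).2
  obtain ⟨q, hq, q0, q1⟩ := τ.exists_pathM ((τ.mem_GX (sga_pos y)).1 (inv_mem hu)).2
  let c : k → Gl n k := fun t =>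
    if h : t = 0 then 1 else τ.co y (.mk0 t h) * u * (τ.co y (.mk0 t h))⁻¹
  have c0 : c 0 = 1 := dif_pos rfl
  have c1 : ∀ a : kˣ, c a = τ.co y a * u * (τ.co y a)⁻¹ := fun a => by
    simp only [c, dif_neg a.ne_zero, Units.mk0_val]
  have e : ∀ t, (c t).1 = p t + 1 ∧ (c t)⁻¹.1 = q t + 1 := fun t => by
    rcases eq_or_ne t 0 with rfl | ht
    · rw [c0, p0, q0, zero_add]
      exact ⟨rfl, rfl⟩
    · obtain ⟨a, rfl⟩ : ∃ a : kˣ, (a : k) = t := ⟨.mk0 t ht, rfl⟩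
      rw [c1, p1, q1, Ad_sub_one, Ad_sub_one, sub_add_cancel, sub_add_cancel]
      exact ⟨rfl, by rw [_root_.mul_inv_rev, _root_.mul_inv_rev, inv_inv, mul_assoc]⟩
  refine ⟨c, .toOG (fun i j => ?_) fun i j => ?_, c0, c1⟩
  · exact ((hp.vadd (.const 1)).dual (Matrix.entryLinearMap k k i j)).congr fun t _ => by
      rw [(e t).1]; rfl
  · exact ((hq.vadd (.const 1)).dual (Matrix.entryLinearMap k k i j)).congr fun t _ => by
      rw [(e t).2]; rfl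

theorem cc_of_le_U {y : τ.X} {N : Subgroup (Gl n k)} (hN : Closed (OG k n) (N : Set (Gl n k)))
    (hn : Nm T N) (h : N ≤ τ.U G y) : CC N := by
  have h1 : N ≤ idc N := fun u hu => by
    obtain ⟨c, hc, c0, c1⟩ := τ.exists_curve (h hu)
    refine (irr_OV.image hc).subset_idc hN ⟨0, trivial, c0⟩ ?_ ⟨(1 : kˣ), trivial, ?_⟩
    · rintro _ ⟨t, -, rfl⟩
      rcases eq_or_ne t 0 with rfl | ht
      · rw [c0]
        exact N.one_mem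
      · obtain ⟨a, rfl⟩ : ∃ a : kˣ, (a : k) = t := ⟨.mk0 t ht, rfl⟩
        rw [c1]
        exact hn _ (τ.co_mem y a) u hu
    · rw [c1, τ.co_one, one_mul, inv_one, mul_one]
  exact le_antisymm (idc_le N) h1 ▸ cc_idc hN

/-- The extreme component of a vector of a closed stable cone lies in the cone. -/
theorem top_mem_cone [FiniteDimensional k V] {C : Set V} (hC : Cone T ρ C) {c : τ.X →₀ V}
    (hc : ∀ x, c x ∈ τ.w ρ x) (h : (c.sum fun _ a => a) ∈ C) {y : τ.X} {m : ℤ}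
    (hm : ∀ x ∈ c.support, x ⬝ᵥ y ≤ m) :
    ((c.filter fun x => x ⬝ᵥ y = m).sum fun _ a => a) ∈ C := by
  obtain ⟨p, hp, p0, p1⟩ := τ.exists_path hc hm
  rw [← p0]
  refine lim0 hp hC.1 fun t ht => ?_
  obtain ⟨a, rfl⟩ : ∃ a : kˣ, (a : k) = t := ⟨.mk0 t ht, rfl⟩
  rw [p1]
  exact hC.2.1 _ _ (hC.2.2 _ (τ.co_mem y _) _ h)

end TD

end Pool.Agent.AG
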