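import Pool.Agent.Lib.AG.Base
import Pool.Agent.Lib.AG.Chev

/-! Closed subgroups and the identity component. -/

namespace Pool.Agent.AG

open Set

universe u

variable {k : Type u} [Field k] {n : ℕ} {G H K : Subgroup (Gl n k)}

private theorem g1_cos {Γ : Type*} [Group Γ] {H K : Subgroup Γ} : K.relIndex H ≠ 0 ↔
    ∃ t : Set Γ, t.Finite ∧ t ⊆ H ∧ ∀ h ∈ H, ∃ a ∈ t, a⁻¹ * h ∈ K := by
  constructor
  · intro h
    have : (K.subgroupOf H).FiniteIndex := ⟨h⟩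
    refine ⟨range fun q : H ⧸ K.subgroupOf H => (q.out : H).1, finite_range _, ?_, fun x hx => ?_⟩
    · rintro _ ⟨q, rfl⟩
      exact q.out.2
    · exact ⟨_, ⟨QuotientGroup.mk ⟨x, hx⟩, rfl⟩,
        (QuotientGroup.eq (s := K.subgroupOf H) (b := ⟨x, hx⟩)).1 (QuotientGroup.out_eq' _)⟩
  · rintro ⟨t, ht, h1, h2⟩
    have := ht.to_subtype
    have : Finite (H ⧸ K.subgroupOf H) :=
      Finite.of_surjective (fun a : t => QuotientGroup.mk ⟨a.1, h1 a.2⟩) fun q => by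
        obtain ⟨x, rfl⟩ := QuotientGroup.mk_surjective q
        obtain ⟨a, ha, h3⟩ := h2 x.1 x.2
        exact ⟨⟨a, ha⟩, QuotientGroup.eq.2 h3⟩
    exact Subgroup.index_ne_zero_of_finite

private theorem g1_pre {X Y : Type u} {O : FA k X} {O' : FA k Y} {φ : X → Y} {W : Set Y}
    (hφ : MapOn O univ O' φ) (hW : Closed O' W) : Closed O {x | φ x ∈ W} := by
  have := hφ.closed closed_univ hW
  rwa [univ_inter] at this

private theorem g1_clo {X Y : Type u} {O : FA k X} {O' : FA k Y} {φ : X → Y} {S : Set X}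
    {W : Set Y} (hφ : MapOn O univ O' φ) (hW : Closed O' W) (h : ∀ x ∈ S, φ x ∈ W) {x : X}
    (hx : x ∈ clo O S) : φ x ∈ W := clo_min (S' := {x | φ x ∈ W}) h (g1_pre hφ hW) hx

private theorem g1_left (a : Gl n k) {S : Set (Gl n k)} :
    MapOn (OG k n) S (OG k n) fun g => a * g := (MapOn.const a).mul MapOn.id

private theorem g1_poly {F : Gl n k → k} (hF : F ∈ OG k n) :
    ∃ (m : ℕ) (f : MvPolynomial (Fin n × Fin n) k), ∀ g : Gl n k,
      MvPolynomial.eval (fun a => g.1 a.1 a.2) f = g.1.det ^ m * F g := by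
  let M : Matrix (Fin n) (Fin n) (MvPolynomial (Fin n × Fin n) k) :=
    Matrix.of fun i j => MvPolynomial.X (i, j)
  have hM : ∀ g : Gl n k, (MvPolynomial.eval fun a => g.1 a.1 a.2).mapMatrix M = g.1 := fun g => by
    ext i j
    simp [M]
  have hD : ∀ g : Gl n k, MvPolynomial.eval (fun a => g.1 a.1 a.2) M.det = g.1.det := fun g => by
    rw [RingHom.map_det, hM]
  induction hF using Algebra.adjoin_induction with
  | mem F hF =>
    obtain ⟨i, j, rfl | rfl⟩ := hF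
    · exact ⟨0, MvPolynomial.X (i, j), fun g => by simp⟩
    · refine ⟨1, M.adjugate i j, fun g => ?_⟩
      have h1 := congrFun (congrFun (RingHom.map_adjugate
        (MvPolynomial.eval fun a : Fin n × Fin n => g.1 a.1 a.2) M) i) j
      have h2 : g.1.adjugate = g.1.det • g⁻¹.1 := by
        rw [← one_mul g.1.adjugate, ← g.inv_mul, mul_assoc, Matrix.mul_adjugate, mul_smul_comm,
          mul_one]
      rw [hM, h2] at h1
      rw [pow_one]
      exact h1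
  | algebraMap c => exact ⟨0, MvPolynomial.C c, fun g => by simp⟩
  | add F F' _ _ hF hF' =>
    obtain ⟨m, f, h1⟩ := hF
    obtain ⟨m', f', h2⟩ := hF'
    refine ⟨m + m', M.det ^ m' * f + M.det ^ m * f', fun g => ?_⟩
    simp only [map_add, map_mul, map_pow, hD, h1, h2, Pi.add_apply]
    ring
  | mul F F' _ _ hF hF' =>
    obtain ⟨m, f, h1⟩ := hF
    obtain ⟨m', f', h2⟩ := hF'
    refine ⟨m + m', f * f', fun g => ?_⟩
    simp only [map_mul, h1, h2, Pi.mul_apply]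
    ring

private theorem g1_mem (f : MvPolynomial (Fin n × Fin n) k) :
    (fun g : Gl n k => MvPolynomial.eval (fun a => g.1 a.1 a.2) f) ∈ OG k n := by
  refine RegOn.mem ?_
  induction f using MvPolynomial.induction_on with
  | C c => simpa using RegOn.const c
  | add f g hf hg => simpa only [map_add] using hf.add hg
  | mul_X f a hf =>
    simpa only [map_mul, MvPolynomial.eval_X] using hf.mul (.of_mem (entry_mem_OG a.1 a.2))

theorem cl_iff {S : Set (Gl n k)} : Cl S ↔ Closed (OG k n) S := by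
  refine ⟨fun h g hg => h g fun f hf x hx => ?_, fun h g hg => h fun F hF h0 => ?_⟩
  · rw [show x = g from hx]
    exact hg _ (g1_mem f) hf
  · obtain ⟨m, f, e⟩ := g1_poly hF
    have h1 := hg f (fun x hx => by rw [e, h0 x hx, mul_zero]) g rfl
    rw [e] at h1
    exact (mul_eq_zero.1 h1).resolve_left
      (pow_ne_zero _ ((Matrix.isUnit_iff_isUnit_det _).1 g.isUnit).ne_zero)

theorem exists_cloG (H : Subgroup (Gl n k)) :
    ∃ K : Subgroup (Gl n k), (K : Set (Gl n k)) = clo (OG k n) H := by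
  refine ⟨{ carrier := clo (OG k n) H
            one_mem' := subset_clo H.one_mem
            mul_mem' := fun {x y} hx hy => ?_
            inv_mem' := fun {x} hx => ?_ }, rfl⟩
  · exact g1_clo (g1_left x) closed_clo (fun h hh => g1_clo (MapOn.id.mul (MapOn.const h))
      closed_clo (fun g hg => subset_clo (H.mul_mem hg hh)) hx) hy
  · exact g1_clo MapOn.id.inv closed_clo (fun g hg => subset_clo (H.inv_mem hg)) hx

theorem homog_subgroup (H : Subgroup (Gl n k)) : Homog (OG k n) (H : Set (Gl n k)) 1 := by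
  refine ⟨H.one_mem, fun x hx => ⟨Equiv.mulLeft x⁻¹, g1_left _, g1_left _, ?_, inv_mul_cancel x⟩⟩
  ext g
  constructor
  · rintro ⟨z, hz, rfl⟩
    exact H.mul_mem (H.inv_mem hx) hz
  · exact fun hg => ⟨x * g, H.mul_mem hx hg, inv_mul_cancel_left x g⟩

theorem Homog.prod {X Y : Type u} {O : FA k X} {O' : FA k Y} {S : Set X} {W : Set Y} {x : X}
    {y : Y} (h : Homog O S x) (h' : Homog O' W y) : Homog (prd O O') (S ×ˢ W) (x, y) := by
  refine ⟨⟨h.1, h'.1⟩, fun z hz => ?_⟩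
  obtain ⟨e, h1, h2, h3, h4⟩ := h.2 z.1 hz.1
  obtain ⟨e', h1', h2', h3', h4'⟩ := h'.2 z.2 hz.2
  refine ⟨e.prodCongr e', (h1.comp' MapOn.fst).prodMk (h1'.comp' MapOn.snd),
    (h2.comp' MapOn.fst).prodMk (h2'.comp' MapOn.snd), ?_, Prod.ext h4 h4'⟩
  rw [Equiv.prodCongr_apply, prodMap_image_prod, h3, h3']

theorem Irr.le_of_relIndex (hH : Irr (OG k n) (H : Set (Gl n k)))
    (hK : Closed (OG k n) (K : Set (Gl n k))) (h : K.relIndex H ≠ 0) : H ≤ K := by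
  obtain ⟨t, ht, -, h2⟩ := g1_cos.1 h
  obtain ⟨a, -, ha⟩ := hH.cover (F := fun a => {g | a⁻¹ * g ∈ (K : Set (Gl n k))}) ht
    (fun a _ => (g1_pre (g1_left a⁻¹) hK).relCl) fun g hg => by
      obtain ⟨a, ha, h3⟩ := h2 g hg
      exact mem_iUnion₂.2 ⟨a, ha, h3⟩
  have h1 : a⁻¹ * 1 ∈ K := ha H.one_mem
  rw [mul_one] at h1
  exact fun g hg => (K.mul_mem_cancel_left h1).1 (ha hg)

theorem idc_le (G : Subgroup (Gl n k)) : idc G ≤ G := by
  exact inf_le_left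

theorem idc_le_of_relIndex (hK : Closed (OG k n) (K : Set (Gl n k))) (h : K.relIndex G ≠ 0) :
    idc G ≤ K := by
  exact inf_le_right.trans (iInf_le_of_le ⟨K, hK, h⟩ le_rfl)

theorem Irr.le_idc (hH : Irr (OG k n) (H : Set (Gl n k))) (h : H ≤ G) : H ≤ idc G := by
  exact le_inf h (le_iInf fun K => hH.le_of_relIndex K.2.1 fun e =>
    K.2.2 (Subgroup.relIndex_eq_zero_of_le_right h e))

theorem Nm.idc_nm {D : Subgroup (Gl n k)} (h : Nm D G) : Nm D (idc G) := by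
  intro t ht g hg
  refine ⟨h t ht g (idc_le G hg), Subgroup.mem_iInf.2 fun K => ?_⟩
  have e : ∀ x, x ∈ cj t⁻¹ K.1 ↔ t * x * t⁻¹ ∈ K.1 := fun x => by rw [mem_cj, inv_inv]
  refine (e g).1 (idc_le_of_relIndex ?_ ?_ hg)
  · rw [show (cj t⁻¹ K.1 : Set (Gl n k)) = {x | t * x * t⁻¹ ∈ (K.1 : Set (Gl n k))} from
      Set.ext e]
    exact g1_pre ((g1_left t).mul (MapOn.const _)) K.2.1
  · obtain ⟨s, hs, h1, h2⟩ := g1_cos.1 K.2.2
    refine g1_cos.2 ⟨(fun a => t⁻¹ * a * t⁻¹⁻¹) '' s, hs.image _, ?_, fun x hx => ?_⟩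
    · rintro _ ⟨a, ha, rfl⟩
      exact h _ (D.inv_mem ht) a (h1 ha)
    · obtain ⟨a, ha, h3⟩ := h2 _ (h t ht x hx)
      refine ⟨_, ⟨a, ha, rfl⟩, (e _).2 ?_⟩
      simpa [mul_assoc] using h3

private theorem g1_ex (hG : Closed (OG k n) (G : Set (Gl n k))) :
    Closed (OG k n) (idc G : Set (Gl n k)) ∧ Irr (OG k n) (idc G : Set (Gl n k)) ∧
      (idc G).relIndex G ≠ 0 ∧
      ∀ S : Set (Gl n k), Irr (OG k n) S → 1 ∈ S → S ⊆ G → S ⊆ idc G := by
  obtain ⟨s, hs, h1, h2⟩ := aff_OG.exists_irr hG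
  have hsub : ∀ M ∈ s, M ⊆ G := fun M hM => h2 ▸ subset_sUnion_of_mem hM
  obtain ⟨M, hM⟩ := (hs.subset (sep_subset s fun M => 1 ∈ M)).exists_maximal (by
    obtain ⟨M, hM, h3⟩ : (1 : Gl n k) ∈ ⋃₀ s := h2 ▸ G.one_mem
    exact ⟨M, hM, h3⟩)
  obtain ⟨hMs, hM1⟩ := hM.prop
  have key : ∀ T : Set (Gl n k), Irr (OG k n) T → 1 ∈ T → T ⊆ G →
      ∀ x ∈ M, ∀ y ∈ T, x * y⁻¹ ∈ M := by
    intro T hT hT1 hTG x hx y hy
    obtain ⟨M', hM', h3⟩ := (((h1 M hMs).2.prod hT).image (MapOn.fst.mul MapOn.snd.inv)).cover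
      (F := fun M => M) hs (fun M' hM' => (h1 M' hM').1.relCl) (by
        rw [← sUnion_eq_biUnion, h2]
        rintro _ ⟨z, hz, rfl⟩
        exact G.mul_mem (hsub M hMs hz.1) (G.inv_mem (hTG hz.2)))
    have h4 : M ⊆ M' := fun z hz => h3 ⟨(z, 1), ⟨hz, hT1⟩, by simp⟩
    exact hM.le_of_ge ⟨hM', h4 hM1⟩ h4 (h3 ⟨(x, y), ⟨hx, hy⟩, rfl⟩)
  let A : Subgroup (Gl n k) := .ofDiv M ⟨1, hM1⟩ (key M (h1 M hMs).2 hM1 (hsub M hMs))
  have hA : ∀ T : Set (Gl n k), Irr (OG k n) T → 1 ∈ T → T ⊆ G → T ⊆ A := fun T hT hT1 hTG y hy =>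
    A.inv_mem_iff.1 (show y⁻¹ ∈ M from one_mul y⁻¹ ▸ key T hT hT1 hTG 1 hM1 y hy)
  have hi : A.relIndex G ≠ 0 := by
    choose! c hc using fun T (hT : T ∈ s) => (h1 T hT).2.1
    refine g1_cos.2 ⟨c '' s, hs.image c, ?_, fun h hh => ?_⟩
    · rintro _ ⟨T, hT, rfl⟩
      exact hsub T hT (hc T hT)
    · obtain ⟨T, hT, h3⟩ : h ∈ ⋃₀ s := h2 ▸ hh
      refine ⟨c T, ⟨T, hT, rfl⟩, hA _ ((h1 T hT).2.image (g1_left (c T)⁻¹))
        ⟨c T, hc T hT, inv_mul_cancel _⟩ ?_ ⟨h, h3, rfl⟩⟩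
      rintro _ ⟨z, hz, rfl⟩
      exact G.mul_mem (G.inv_mem (hsub T hT (hc T hT))) (hsub T hT hz)
  have e : idc G = A := le_antisymm (idc_le_of_relIndex (h1 M hMs).1 hi)
    (Irr.le_idc (h1 M hMs).2 (hsub M hMs))
  rw [e]
  exact ⟨(h1 M hMs).1, (h1 M hMs).2, hi, hA⟩

theorem idc_spec (hG : Closed (OG k n) (G : Set (Gl n k))) :
    Closed (OG k n) (idc G : Set (Gl n k)) ∧ Irr (OG k n) (idc G : Set (Gl n k)) ∧
      (idc G).relIndex G ≠ 0 := by
  exact ⟨(g1_ex hG).1, (g1_ex hG).2.1, (g1_ex hG).2.2.1⟩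

theorem Irr.subset_idc (hG : Closed (OG k n) (G : Set (Gl n k))) {S : Set (Gl n k)}
    (hS : Irr (OG k n) S) (h1 : 1 ∈ S) (h : S ⊆ G) : S ⊆ idc G := by
  exact (g1_ex hG).2.2.2 S hS h1 h

theorem cc_iff : CC G ↔
    Closed (OG k n) (G : Set (Gl n k)) ∧ Irr (OG k n) (G : Set (Gl n k)) := by
  refine ⟨fun h => ?_, fun h => ⟨cl_iff.2 h.1, fun A B hA hB hc _ =>
    h.2.subset_or (cl_iff.1 hA).relCl (cl_iff.1 hB).relCl hc⟩⟩
  have hG := cl_iff.1 h.1
  obtain ⟨h1, h2, h3⟩ := idc_spec hG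
  obtain ⟨t, ht, -, h4⟩ := g1_cos.1 h3
  have hd : Disjoint ((G : Set (Gl n k)) ∩ idc G)
      (⋃ a ∈ {a ∈ t | a ∉ idc G}, {g | a⁻¹ * g ∈ (idc G : Set (Gl n k))}) := by
    refine disjoint_left.2 fun g hg hg' => ?_
    obtain ⟨a, ha, h5⟩ := mem_iUnion₂.1 hg'
    exact ha.2 ((idc G).inv_mem_iff.1 (((idc G).mul_mem_cancel_right hg.2).1 h5))
  rcases h.2 _ _ (cl_iff.2 h1) (cl_iff.2 (closed_biUnion (ht.subset (sep_subset _ _))
    fun a _ => g1_pre (g1_left a⁻¹) h1)) (fun g hg => by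
      obtain ⟨a, ha, h5⟩ := h4 g hg
      by_cases h6 : a ∈ idc G
      · exact Or.inl (((idc G).mul_mem_cancel_left ((idc G).inv_mem h6)).1 h5)
      · exact Or.inr (mem_iUnion₂.2 ⟨a, ⟨ha, h6⟩, h5⟩)) hd with h5 | h5
  · exact ⟨hG, Subset.antisymm (show (idc G : Set (Gl n k)) ⊆ G from idc_le G) h5 ▸ h2⟩
  · exact (disjoint_left.1 hd ⟨G.one_mem, (idc G).one_mem⟩ (h5 G.one_mem)).elim

theorem CC.closed (h : CC G) : Closed (OG k n) (G : Set (Gl n k)) := (cc_iff.1 h).1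

theorem CC.irr (h : CC G) : Irr (OG k n) (G : Set (Gl n k)) := (cc_iff.1 h).2

theorem cc_idc (hG : Closed (OG k n) (G : Set (Gl n k))) : CC (idc G) :=
  cc_iff.2 ⟨(idc_spec hG).1, (idc_spec hG).2.1⟩

theorem CC.le_idc (hH : CC H) (h : H ≤ G) : H ≤ idc G := hH.irr.le_idc h

theorem irr_of_forall_relIndex (h : ∀ K : Subgroup (Gl n k), Closed (OG k n) (K : Set (Gl n k)) →
    K.relIndex H ≠ 0 → H ≤ K) : Irr (OG k n) (H : Set (Gl n k)) := by
  obtain ⟨K, hK⟩ := exists_cloG H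
  obtain ⟨h1, h2, h3⟩ := idc_spec (G := K) (hK ▸ closed_clo)
  have h4 : H ≤ K := fun x hx => show x ∈ (K : Set (Gl n k)) from hK ▸ subset_clo hx
  exact h2.of_dense (h _ h1 fun e => h3 (Subgroup.relIndex_eq_zero_of_le_right h4 e))
    (hK ▸ idc_le K)

/-- A subgroup that is the image of a variety is closed. -/
theorem closed_of_image [IsAlgClosed k] {X : Type u} {O : FA k X} {S : Set X} (h : Aff O)
    (hS : Closed O S) {φ : X → Gl n k} (hφ : MapOn O S (OG k n) φ)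
    (e : φ '' S = (H : Set (Gl n k))) : Closed (OG k n) (H : Set (Gl n k)) := by
  obtain ⟨W, hW, h1, h2⟩ := chev h aff_OG hS hφ
  obtain ⟨K, hK⟩ := exists_cloG H
  rw [e, ← hK] at h1 h2
  intro g hg
  rw [← hK] at hg
  by_contra hc
  have h3 : ∀ x ∈ (H : Set (Gl n k)), g * x ∈ W := fun x hx => by
    by_contra h4
    have h5 : x ∈ (K : Set (Gl n k)) := hK ▸ subset_clo hx
    exact hc ((H.mul_mem_cancel_right hx).1 (h1 ⟨K.mul_mem hg h5, h4⟩))
  have h4 : (K : Set (Gl n k)) \ W = ∅ := sdiff_eq_empty.2 fun x hx => by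
    have h5 : g⁻¹ * x ∈ (K : Set (Gl n k)) := K.mul_mem (K.inv_mem hg) hx
    have h6 := g1_clo (g1_left g) hW h3 (hK ▸ h5)
    rwa [mul_inv_cancel_left] at h6
  exact closed_empty (h4 ▸ h2 K.one_mem)

end Pool.Agent.AG
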