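import Pool.Agent.Lib.AG.Grp1

/-! Conjugation, centralisers, products, commutators, regular characters. -/

namespace Pool.Agent.AG

open Set

universe u

variable {k : Type u} [Field k] {n : ℕ} {G H K B T : Subgroup (Gl n k)}

private theorem grp2_eq {X : Type u} {O : FA k X} {φ ψ : X → Gl n k}
    (hφ : MapOn O univ (OG k n) φ) (hψ : MapOn O univ (OG k n) ψ) : Closed O {x | φ x = ψ x} := by
  have e : {x | φ x = ψ x} = ⋂ i, ⋂ j, {x | x ∈ univ ∧ (φ x).1 i j - (ψ x).1 i j = 0} := by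
    ext x
    simp only [mem_ofPred_eq, mem_iInter, mem_univ, true_and, sub_eq_zero]
    exact ⟨fun h i j => by rw [h], fun h => Units.ext (Matrix.ext h)⟩
  rw [e]
  exact closed_iInter fun i => closed_iInter fun j =>
    ((hφ.entry i j).sub (hψ.entry i j)).closed closed_univ

private theorem grp2_conj (a b : Gl n k) {S : Set (Gl n k)} :
    MapOn (OG k n) S (OG k n) fun x => a * x * b :=
  ((MapOn.const a).mul MapOn.id).mul (MapOn.const b)

private theorem grp2_back (g : Gl n k) (H : Subgroup (Gl n k)) : cj g (cj g⁻¹ H) = H := by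
  rw [cj_cj, mul_inv_cancel, cj_one]

private theorem grp2_back' (g : Gl n k) (H : Subgroup (Gl n k)) : cj g⁻¹ (cj g H) = H := by
  rw [cj_cj, inv_mul_cancel, cj_one]

private theorem grp2_max {p : Subgroup (Gl n k) → Prop} (hp : ∀ g S, p S → p (cj g S))
    (h : Maximal (fun S => S ≤ G ∧ p S) T) (g : Gl n k) :
    Maximal (fun S => S ≤ cj g G ∧ p S) (cj g T) := by
  refine ⟨⟨cj_mono g h.1.1, hp g T h.1.2⟩, fun S hS hle => ?_⟩
  have h1 : cj g⁻¹ S ≤ G := grp2_back' g G ▸ cj_mono g⁻¹ hS.1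
  have h2 : T ≤ cj g⁻¹ S := grp2_back' g T ▸ cj_mono g⁻¹ hle
  exact grp2_back g S ▸ cj_mono g (h.2 ⟨h1, hp _ _ hS.2⟩ h2)

/-- The elements that are diagonal after conjugation by `P`. -/
private def grp2_diag (P : Gl n k) : Subgroup (Gl n k) where
  carrier := {t | (P * t * P⁻¹).1.IsDiag}
  one_mem' := by simp [Matrix.isDiag_one]
  mul_mem' {a b} ha hb := by
    have e : P * (a * b) * P⁻¹ = P * a * P⁻¹ * (P * b * P⁻¹) := by group
    have ha' : (P * a * P⁻¹).1.IsDiag := ha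
    have hb' : (P * b * P⁻¹).1.IsDiag := hb
    change (P * (a * b) * P⁻¹).1.IsDiag
    rw [e, Units.val_mul, ← ha'.diagonal_diag, ← hb'.diagonal_diag, Matrix.diagonal_mul_diagonal]
    exact Matrix.isDiag_diagonal _
  inv_mem' {a} ha := by
    have e : P * a⁻¹ * P⁻¹ = (P * a * P⁻¹)⁻¹ := by group
    have ha' : (P * a * P⁻¹).1.IsDiag := ha
    change (P * a⁻¹ * P⁻¹).1.IsDiag
    rw [e]
    generalize P * a * P⁻¹ = u at ha'
    have h1 : Matrix.diagonal (Matrix.diag u.1) * u⁻¹.1 = 1 := by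
      rw [ha'.diagonal_diag, ← Units.val_mul, mul_inv_cancel, Units.val_one]
    intro i j hij
    have h2 := congrFun (congrFun h1 i) i
    have h3 := congrFun (congrFun h1 i) j
    rw [Matrix.diagonal_mul, Matrix.one_apply_eq] at h2
    rw [Matrix.diagonal_mul, Matrix.one_apply_ne hij] at h3
    exact (mul_eq_zero.1 h3).resolve_left (left_ne_zero_of_mul_eq_one h2)

theorem cc_bot : CC (⊥ : Subgroup (Gl n k)) := by
  rw [cc_iff, Subgroup.coe_bot]
  exact ⟨aff_OG.closed_singleton 1, Irr.singleton 1⟩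

theorem closed_centralizer (S : Set (Gl n k)) :
    Closed (OG k n) (Subgroup.centralizer S : Set (Gl n k)) := by
  have e : (Subgroup.centralizer S : Set (Gl n k)) = ⋂ s, ⋂ _ : s ∈ S, {g | s * g = g * s} := by
    ext g
    simp [Subgroup.mem_centralizer_iff]
  rw [e]
  exact closed_iInter fun s => closed_iInter fun _ =>
    grp2_eq ((MapOn.const s).mul MapOn.id) (MapOn.id.mul (MapOn.const s))

theorem Closed.inf (hH : Closed (OG k n) (H : Set (Gl n k)))
    (hK : Closed (OG k n) (K : Set (Gl n k))) :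
    Closed (OG k n) ((H ⊓ K : Subgroup (Gl n k)) : Set (Gl n k)) := by
  rw [Subgroup.coe_inf]
  exact hH.inter hK

theorem closed_unip : Closed (OG k n) {g : Gl n k | Unip g} := by
  have hreg : ∀ (m : ℕ) (i j : Fin n),
      RegOn (OG k n) univ fun g : Gl n k => ((g.1 - 1) ^ m) i j := by
    intro m
    induction m with
    | zero => exact fun i j => by simpa only [pow_zero] using RegOn.const _
    | succ m ih =>
      intro i j
      simp only [pow_succ, Matrix.mul_apply, Matrix.sub_apply]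
      exact .sum fun a _ => (ih i a).mul ((RegOn.of_mem (entry_mem_OG a j)).sub (.const _))
  have e : {g : Gl n k | Unip g} = ⋂ i, ⋂ j, {g | g ∈ univ ∧ ((g.1 - 1) ^ n) i j = 0} := by
    ext g
    simp only [mem_ofPred_eq, mem_iInter, mem_univ, true_and]
    refine ⟨fun h i j => ?_, fun h => ⟨n, Matrix.ext h⟩⟩
    have h1 := (Matrix.isNilpotent_charpoly_sub_pow_of_isNilpotent h).eq_zero
    have h2 := Matrix.aeval_self_charpoly (g.1 - 1)
    rw [sub_eq_zero.1 h1, Fintype.card_fin, map_pow, Polynomial.aeval_X] at h2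
    rw [h2]
    rfl
  rw [e]
  exact closed_iInter fun i => closed_iInter fun j => (hreg n i j).closed closed_univ

theorem Unip.conj {x : Gl n k} (h : Unip x) (g : Gl n k) : Unip (g * x * g⁻¹) := by
  obtain ⟨m, hm⟩ := h
  refine ⟨m, ?_⟩
  have e : (g * x * g⁻¹).1 - 1 = g.1 * (x.1 - 1) * g⁻¹.1 := by
    rw [mul_sub, sub_mul, mul_one, ← Units.val_mul g g⁻¹, mul_inv_cancel, Units.val_one,
      Units.val_mul, Units.val_mul]
  rw [e, Units.conj_pow, hm, mul_zero, zero_mul]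

theorem SS.conj {x : Gl n k} (h : SS x) (g : Gl n k) : SS (g * x * g⁻¹) := by
  obtain ⟨P, hP⟩ := h
  refine ⟨P * g⁻¹, ?_⟩
  rwa [show P * g⁻¹ * (g * x * g⁻¹) * (P * g⁻¹)⁻¹ = P * x * P⁻¹ by group]

theorem Closed.conjg (h : Closed (OG k n) (H : Set (Gl n k))) (g : Gl n k) :
    Closed (OG k n) (cj g H : Set (Gl n k)) := by
  have := (grp2_conj g⁻¹ g).closed closed_univ h
  rw [univ_inter] at this
  convert this using 1
  ext x
  exact mem_cj

theorem CC.conjg (h : CC H) (g : Gl n k) : CC (cj g H) := by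
  exact cc_iff.2 ⟨h.closed.conjg g, h.irr.image (grp2_conj g g⁻¹)⟩

theorem Dg.conjg (h : Dg H) (g : Gl n k) : Dg (cj g H) := by
  obtain ⟨P, hP⟩ := h
  refine ⟨P * g⁻¹, fun t ht => ?_⟩
  rw [show P * g⁻¹ * t * (P * g⁻¹)⁻¹ = P * (g⁻¹ * t * g) * P⁻¹ by group]
  exact hP _ (mem_cj.1 ht)

theorem Tor.conjg (h : Tor H) (g : Gl n k) : Tor (cj g H) := by
  exact ⟨h.1.conjg g, Dg.conjg h.2 g⟩

theorem isSolvable_cj (h : Group.IsSolvable H) (g : Gl n k) : Group.IsSolvable (cj g H) := by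
  exact Group.isSolvable_of_surjective (MonoidHom.subgroupMap_surjective _ H)

theorem isSolvable_of_le (h : Group.IsSolvable H) (hK : K ≤ H) : Group.IsSolvable K := by
  exact Group.isSolvable_of_isSolvable_injective (Subgroup.inclusion_injective hK)

theorem MaxTor.conjg (h : MaxTor G T) (g : Gl n k) : MaxTor (cj g G) (cj g T) := by
  exact grp2_max (fun g _ h => h.conjg g) h g

theorem Borel.conjg (h : Borel G B) (g : Gl n k) : Borel (cj g G) (cj g B) := by
  exact grp2_max (p := fun S => CC S ∧ Group.IsSolvable S)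
    (fun g _ h => ⟨h.1.conjg g, isSolvable_cj h.2 g⟩) h g

theorem Dg.comm (h : Dg H) {a b : Gl n k} (ha : a ∈ H) (hb : b ∈ H) : a * b = b * a := by
  obtain ⟨P, hP⟩ := h
  have e : P * a * P⁻¹ * (P * b * P⁻¹) = P * b * P⁻¹ * (P * a * P⁻¹) := by
    refine Units.ext ?_
    rw [Units.val_mul, Units.val_mul (P * b * P⁻¹), ← (hP a ha).diagonal_diag,
      ← (hP b hb).diagonal_diag, Matrix.diagonal_mul_diagonal, Matrix.diagonal_mul_diagonal]
    exact congrArg _ (funext fun i => mul_comm _ _)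
  calc a * b = P⁻¹ * (P * a * P⁻¹ * (P * b * P⁻¹)) * P := by group
    _ = b * a := by rw [e]; group

theorem Dg.mono (h : Dg H) (hK : K ≤ H) : Dg K := by
  exact h.imp fun _ hP t ht => hP t (hK ht)

theorem Dg.isSolvable (h : Dg H) : Group.IsSolvable H := by
  exact Group.isSolvable_of_comm fun a b => Subtype.ext (h.comm a.2 b.2)

theorem Dg.ss (h : Dg H) {a : Gl n k} (ha : a ∈ H) : SS a := by
  exact h.imp fun _ hP => hP a ha

theorem SS.dg {a : Gl n k} (h : SS a) : Dg (Subgroup.zpowers a) := by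
  obtain ⟨P, hP⟩ := h
  exact ⟨P, fun t ht => (Subgroup.zpowers_le (H := grp2_diag P)).2 hP ht⟩

theorem Dg.of_clo (h : Dg H) (e : (K : Set (Gl n k)) = clo (OG k n) H) : Dg K := by
  obtain ⟨P, hP⟩ := h
  refine ⟨P, fun t ht i j hij => ?_⟩
  have ht' : t ∈ clo (OG k n) (H : Set (Gl n k)) := e ▸ ht
  exact ((grp2_conj P P⁻¹ (S := univ)).entry i j).zero_of_clo (subset_univ _)
    (fun s hs => hP s hs hij) trivial ht'

theorem Nm.mem_sup (h : Nm H K) {g : Gl n k} : g ∈ H ⊔ K ↔ ∃ a ∈ H, ∃ b ∈ K, g = a * b := by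
  have hle : H ≤ Subgroup.normalizer K := fun t ht => Subgroup.mem_normalizer_iff.2 fun x =>
    ⟨h t ht x, fun hx => by simpa [mul_assoc] using h t⁻¹ (H.inv_mem ht) _ hx⟩
  rw [← SetLike.mem_coe, Subgroup.coe_mul_of_left_le_normalizer_right H K hle, Set.mem_mul]
  simp only [SetLike.mem_coe, eq_comm]

theorem isSolvable_sup (hH : Group.IsSolvable H) (hK : Group.IsSolvable K) (h : Nm H K) :
    Group.IsSolvable (H ⊔ K : Subgroup (Gl n k)) := by
  have hN : (K.subgroupOf (H ⊔ K)).Normal := ⟨fun x hx g => by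
    obtain ⟨a, ha, b, hb, e⟩ := h.mem_sup.1 g.2
    rw [Subgroup.mem_subgroupOf] at hx ⊢
    change g.1 * x.1 * g.1⁻¹ ∈ K
    rw [e, show a * b * x.1 * (a * b)⁻¹ = a * (b * x.1 * b⁻¹) * a⁻¹ by group]
    exact h a ha _ (K.mul_mem (K.mul_mem hb hx) (K.inv_mem hb))⟩
  rw [Group.isSolvable_iff_subgroup_quotient (K.subgroupOf (H ⊔ K))]
  let E : K.subgroupOf (H ⊔ K) ≃* K := Subgroup.subgroupOfEquivOfLe le_sup_right
  refine ⟨Group.isSolvable_of_isSolvable_injective (f := E.toMonoidHom) E.injective,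
    Group.isSolvable_of_surjective
    (f := (QuotientGroup.mk' (K.subgroupOf (H ⊔ K))).comp (Subgroup.inclusion le_sup_left))
    fun q => ?_⟩
  obtain ⟨g, rfl⟩ := QuotientGroup.mk_surjective q
  obtain ⟨a, ha, b, hb, e⟩ := h.mem_sup.1 g.2
  refine ⟨⟨a, ha⟩, QuotientGroup.eq.2 ?_⟩
  rw [Subgroup.mem_subgroupOf]
  change a⁻¹ * g.1 ∈ K
  rwa [e, inv_mul_cancel_left]

private theorem grp2_im (h : Nm H K) :
    (fun z : Gl n k × Gl n k => z.1 * z.2) '' ((H : Set (Gl n k)) ×ˢ (K : Set (Gl n k))) =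
      ((H ⊔ K : Subgroup (Gl n k)) : Set (Gl n k)) := by
  ext g
  rw [SetLike.mem_coe, h.mem_sup]
  constructor
  · rintro ⟨⟨a, b⟩, ⟨ha, hb⟩, rfl⟩
    exact ⟨a, ha, b, hb, rfl⟩
  · rintro ⟨a, ha, b, hb, rfl⟩
    exact ⟨(a, b), ⟨ha, hb⟩, rfl⟩

theorem Closed.sup [IsAlgClosed k] (hH : Closed (OG k n) (H : Set (Gl n k)))
    (hK : Closed (OG k n) (K : Set (Gl n k))) (h : Nm H K) :
    Closed (OG k n) ((H ⊔ K : Subgroup (Gl n k)) : Set (Gl n k)) := by
  exact closed_of_image (aff_OG.prod aff_OG) (hH.prod hK) (MapOn.fst.mul MapOn.snd) (grp2_im h)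

theorem CC.sup [IsAlgClosed k] (hH : CC H) (hK : CC K) (h : Nm H K) : CC (H ⊔ K) := by
  refine cc_iff.2 ⟨hH.closed.sup hK.closed h, ?_⟩
  rw [← grp2_im h]
  exact (hH.irr.prod hK.irr).image (MapOn.fst.mul MapOn.snd)

/-- Products of commutators. -/
private def grp2_C (H : Subgroup (Gl n k)) : ℕ → Set (Gl n k)
  | 0 => {1}
  | m + 1 => (fun z : Gl n k × Gl n k × Gl n k => z.1 * (z.2.1 * z.2.2 * z.2.1⁻¹ * z.2.2⁻¹)) ''
      (grp2_C H m ×ˢ (H : Set (Gl n k)) ×ˢ (H : Set (Gl n k)))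

theorem Irr.commutator (hH : Irr (OG k n) (H : Set (Gl n k))) :
    Irr (OG k n) ((⁅H, H⁆ : Subgroup (Gl n k)) : Set (Gl n k)) := by
  have hirr : ∀ m, Irr (OG k n) (grp2_C H m) := fun m => by
    induction m with
    | zero => exact Irr.singleton 1
    | succ m ih =>
      have h1 : MapOn (prd (OG k n) (prd (OG k n) (OG k n)))
          (grp2_C H m ×ˢ (H : Set (Gl n k)) ×ˢ (H : Set (Gl n k))) (OG k n) fun z => z.2.1 :=
        MapOn.fst.comp' MapOn.snd
      have h2 : MapOn (prd (OG k n) (prd (OG k n) (OG k n)))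
          (grp2_C H m ×ˢ (H : Set (Gl n k)) ×ˢ (H : Set (Gl n k))) (OG k n) fun z => z.2.2 :=
        MapOn.snd.comp' MapOn.snd
      exact (ih.prod (hH.prod hH)).image (MapOn.fst.mul (((h1.mul h2).mul h1.inv).mul h2.inv))
  have hmono : Monotone (grp2_C H) := monotone_nat_of_le_succ fun m x hx =>
    ⟨(x, 1, 1), ⟨hx, H.one_mem, H.one_mem⟩, by simp⟩
  have hsub : ∀ m, grp2_C H m ⊆ (⁅H, H⁆ : Subgroup (Gl n k)) := fun m => by
    induction m with
    | zero => rintro _ rfl; exact Subgroup.one_mem _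
    | succ m ih =>
      rintro _ ⟨⟨c, a, b⟩, ⟨hc, ha, hb⟩, rfl⟩
      exact Subgroup.mul_mem _ (ih hc) (Subgroup.commutator_mem_commutator ha hb)
  have hcov : ∀ x ∈ (⁅H, H⁆ : Subgroup (Gl n k)), ∃ m, x ∈ grp2_C H m := fun x hx => by
    induction hx using Subgroup.closure_induction_right with
    | one => exact ⟨0, rfl⟩
    | mul_right x _ y hy ih =>
      obtain ⟨a, ha, b, hb, rfl⟩ := hy
      obtain ⟨m, hm⟩ := ih
      exact ⟨m + 1, (x, a, b), ⟨hm, ha, hb⟩, rfl⟩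
    | mul_inv_cancel x _ y hy ih =>
      obtain ⟨a, ha, b, hb, rfl⟩ := hy
      obtain ⟨m, hm⟩ := ih
      exact ⟨m + 1, (x, b, a), ⟨hm, hb, ha⟩, by rw [commutatorElement_inv]; rfl⟩
  refine ⟨⟨1, Subgroup.one_mem _⟩, fun f hf g hg h0 => ?_⟩
  by_contra hc
  simp only [not_or, not_forall] at hc
  obtain ⟨⟨x, hx, hfx⟩, ⟨y, hy, hgy⟩⟩ := hc
  obtain ⟨m, hm⟩ := hcov x hx
  obtain ⟨m', hm'⟩ := hcov y hy
  exact ((hirr (max m m')).2 f hf g hg fun s hs => h0 s (hsub _ hs)).elim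
    (fun e => hfx (e x (hmono (le_max_left _ _) hm))) fun e => hgy (e y (hmono (le_max_right _ _) hm'))

theorem RegChar.trivial_or_surj [IsAlgClosed k] (hH : CC H) {χ : H →* kˣ} (h : RegChar χ) :
    χ = 1 ∨ Function.Surjective χ := by
  classical
  obtain ⟨F, hF, hFχ⟩ := h
  let φ : Gl n k → kˣ := fun g => if h : g ∈ H then χ ⟨g, h⟩ else 1
  have hφ : ∀ g : H, φ g.1 = χ g := fun g => dif_pos g.2
  have hmap : MapOn (OG k n) (H : Set (Gl n k)) (OU k) φ := by
    refine .toOU ⟨F, hF, fun s hs => (hFχ ⟨s, hs⟩).trans (congrArg Units.val (hφ ⟨s, hs⟩).symm)⟩ ?_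
    refine (MapOn.id.inv F hF).congr fun s hs => ?_
    have := hFχ (⟨s, hs⟩ : H)⁻¹
    rw [map_inv, ← hφ ⟨s, hs⟩] at this
    exact this
  have him : φ '' (H : Set (Gl n k)) = range χ := by
    ext a
    constructor
    · rintro ⟨g, hg, rfl⟩
      exact ⟨⟨g, hg⟩, (hφ ⟨g, hg⟩).symm⟩
    · rintro ⟨g, rfl⟩
      exact ⟨g.1, g.2, hφ g⟩
  have hirr := hH.irr.image hmap
  rcases (closed_clo (O := OU k) (S := φ '' (H : Set (Gl n k)))).finite_or_univ with hfin | huniv
  · left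
    obtain ⟨a, -, ha⟩ := hirr.cover (F := fun a => {a}) hfin
      (fun a _ => (aff_OU.closed_singleton a).relCl)
      (by rw [biUnion_of_singleton]; exact subset_clo)
    rw [him] at ha
    ext g
    have h1 : χ g = a := ha ⟨g, rfl⟩
    have h2 : χ 1 = a := ha ⟨1, rfl⟩
    rw [h1, ← h2, map_one]
    rfl
  · right
    obtain ⟨f, hf, ⟨s, -, hs⟩, hc⟩ := chev_irr aff_OG aff_OU hH.closed hH.irr hmap
    rw [huniv, him] at hc
    have hz : {a : kˣ | a ∈ univ ∧ f a = 0}.Finite :=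
      ((RegOn.of_mem hf).closed closed_univ).finite_or_univ.resolve_right fun e =>
        hs (e.symm ▸ mem_univ (φ s) : φ s ∈ {a : kˣ | a ∈ univ ∧ f a = 0}).2
    have hcf : (range χ)ᶜ.Finite := hz.subset fun a ha =>
      ⟨trivial, by_contra fun e => ha (hc a trivial e)⟩
    have hinf : (univ : Set kˣ).Infinite := fun hu => by
      refine (Set.finite_singleton (0 : k)).infinite_compl ((hu.image Units.val).subset ?_)
      exact fun a ha => ⟨Units.mk0 a ha, trivial, rfl⟩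
    intro a
    by_contra ha
    have h1 : (range χ).Finite := by
      refine Set.Finite.of_finite_image (f := fun b => a * b) (hcf.subset ?_)
        (mul_right_injective a).injOn
      rintro _ ⟨_, ⟨g, rfl⟩, rfl⟩ ⟨g', hg'⟩
      exact ha ⟨g' * g⁻¹, by rw [map_mul, map_inv, hg', mul_inv_cancel_right]⟩
    exact hinf (union_compl_self (range χ) ▸ h1.union hcf)

theorem RegChar.comp_incl {χ : H →* kˣ} (h : RegChar χ) (hK : K ≤ H) :
    RegChar (χ.comp (Subgroup.inclusion hK)) := by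
  obtain ⟨F, hF, e⟩ := h
  exact ⟨F, hF, fun g => e (Subgroup.inclusion hK g)⟩

end Pool.Agent.AG
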