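import Mathlib

/-! The theorem of Kolchin. -/

namespace Pool.Agent.AG

universe u

variable {k : Type u} [Field k] [IsAlgClosed k] {V : Type u} [AddCommGroup V] [Module k V]
  [FiniteDimensional k V] {H : Type*} [Group H]

omit [IsAlgClosed k] in
private theorem kol_min [Nontrivial V] (S : Set (Module.End k V)) :
    ∃ W : Submodule k V, W ≠ ⊥ ∧ (∀ a ∈ S, W ≤ W.comap a) ∧
      ∀ U : Submodule k V, U ≤ W → (∀ a ∈ S, U ≤ U.comap a) → U = ⊥ ∨ U = W := by
  obtain ⟨W, ⟨h1, h2⟩, h3⟩ := (wellFounded_lt (α := Submodule k V)).has_min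
    {W | W ≠ ⊥ ∧ ∀ a ∈ S, W ≤ W.comap a} ⟨⊤, top_ne_bot, fun _ _ _ _ => trivial⟩
  refine ⟨W, h1, h2, fun U h4 h5 => or_iff_not_imp_left.2 fun h6 => ?_⟩
  exact h4.eq_or_lt.resolve_right (h3 U ⟨h6, h5⟩)

private theorem kol_burn [Nontrivial V] (A : Subalgebra k (Module.End k V))
    (h : ∀ U : Submodule k V, (∀ a ∈ A, U ≤ U.comap a) → U = ⊥ ∨ U = ⊤) (f : Module.End k V) :
    f ∈ A := by
  classical
  have : IsSimpleModule A V := by
    have : Nontrivial (Submodule A V) := (Submodule.nontrivial_iff A).2 inferInstance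
    rw [isSimpleModule_iff]
    refine ⟨fun U => (h (U.restrictScalars k) fun a ha x hx => U.smul_mem ⟨a, ha⟩ hx).imp ?_ ?_⟩
    · exact (Submodule.restrictScalars_eq_bot_iff k A V).1
    · exact (Submodule.restrictScalars_eq_top_iff k A V).1
  let f' : Module.End (Module.End A V) V :=
    { toFun := f
      map_add' := f.map_add
      map_smul' g x := by
        obtain ⟨c, rfl⟩ := (IsSimpleModule.algebraMap_end_bijective_of_isAlgClosed k).2 g
        exact f.map_smul c x }
  let b := Module.finBasis k V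
  obtain ⟨r, hr⟩ := jacobson_density f' (Finset.univ.image b)
  have : f = r.1 := b.ext fun i => hr _ (Finset.mem_image_of_mem _ (Finset.mem_univ i))
  exact this ▸ r.2

private theorem kol_simp [Nontrivial V] (ρ : H →* Module.End k V)
    (h : ∀ g, IsNilpotent (ρ g - 1))
    (hs : ∀ U : Submodule k V, (∀ g, U ≤ U.comap (ρ g)) → U = ⊥ ∨ U = ⊤) (g : H) : ρ g = 1 := by
  have h1 : ∀ g, LinearMap.trace k V (ρ g) = LinearMap.trace k V 1 := fun g => by
    rw [← sub_eq_zero, ← map_sub]
    exact (LinearMap.isNilpotent_trace_of_isNilpotent (h g)).eq_zero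
  have h2 : ∀ f : Module.End k V, LinearMap.trace k V ((ρ g - 1) * f) = 0 := fun f => by
    have h3 : f ∈ (Algebra.adjoin k (MonoidHom.mrange ρ : Set (Module.End k V))).toSubmodule :=
      kol_burn _ (fun U hU => hs U fun g =>
        hU _ (Algebra.subset_adjoin (MonoidHom.mem_mrange.2 ⟨g, rfl⟩))) f
    rw [Algebra.adjoin_eq_span, Submonoid.closure_eq] at h3
    induction h3 using Submodule.span_induction with
    | mem f hf =>
      obtain ⟨x, rfl⟩ := hf
      rw [sub_mul, one_mul, ← map_mul, map_sub, h1, h1, sub_self]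
    | zero => rw [mul_zero, map_zero]
    | add _ _ _ _ e1 e2 => rw [mul_add, map_add, e1, e2, add_zero]
    | smul c _ _ e => rw [mul_smul_comm, map_smul, e, smul_zero]
  rw [← sub_eq_zero]
  refine LinearMap.ext fun v => (Module.forall_dual_apply_eq_zero_iff k _).1 fun l => ?_
  have := h2 (l.smulRight v)
  rwa [show (ρ g - 1) * l.smulRight v = l.smulRight ((ρ g - 1) v) from
    LinearMap.ext fun x => map_smul (ρ g - 1) (l x) v, LinearMap.trace_smulRight] at this

theorem kolchin [Nontrivial V] (ρ : H →* Module.End k V) (h : ∀ g, IsNilpotent (ρ g - 1)) :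
    ∃ v : V, v ≠ 0 ∧ ∀ g, ρ g v = v := by
  obtain ⟨W, h1, h2, h3⟩ := kol_min (Set.range ρ)
  have h4 : ∀ g, W ≤ W.comap (ρ g) := fun g => h2 _ ⟨g, rfl⟩
  have : Nontrivial W := Submodule.nontrivial_iff_ne_bot.2 h1
  obtain ⟨v, hv⟩ := exists_ne (0 : W)
  refine ⟨v, fun e => hv (Subtype.ext e), fun g => ?_⟩
  have := kol_simp (Representation.subrepresentation ρ W h4) (fun g => ?_) (fun U hU => ?_) g
  · exact congrArg Subtype.val (LinearMap.congr_fun this v)
  · exact Module.End.isNilpotent.restrict (f := ρ g - 1) (p := W)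
      (fun x hx => W.sub_mem (h4 g hx) hx) (h g)
  · refine (h3 (U.map W.subtype) (W.map_subtype_le U) ?_).imp ?_ ?_
    · rintro _ ⟨g, rfl⟩ _ ⟨x, hx, rfl⟩
      exact ⟨_, hU g hx, rfl⟩
    · exact fun e => Submodule.map_injective_of_injective W.injective_subtype
        (e.trans (Submodule.map_bot _).symm)
    · exact fun e => Submodule.map_injective_of_injective W.injective_subtype
        (e.trans (Submodule.map_subtype_top _).symm)

theorem kolchin_derived (ρ : H →* Module.End k V) (h : ∀ g, IsNilpotent (ρ g - 1)) :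
    ∃ m, ∀ g ∈ derivedSeries H m, ρ g = 1 := by
  induction hn : Module.finrank k V generalizing V with
  | zero =>
    have := Module.finrank_zero_iff.1 hn
    exact ⟨0, fun g _ => Subsingleton.elim _ _⟩
  | succ n ih =>
    have := Module.nontrivial_of_finrank_eq_succ hn
    obtain ⟨v, hv, h1⟩ := kolchin ρ h
    have h2 : ∀ g, ∀ x ∈ k ∙ v, ρ g x = x := fun g x hx => by
      obtain ⟨c, rfl⟩ := Submodule.mem_span_singleton.1 hx
      rw [map_smul, h1]
    have h3 : ∀ g, k ∙ v ≤ (k ∙ v).comap (ρ g) := fun g x hx => by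
      rwa [Submodule.mem_comap, h2 g x hx]
    have hm := ih (Representation.quotient ρ (k ∙ v) h3) (fun g => ?_) (by
      have := (k ∙ v).finrank_quotient_add_finrank
      rw [finrank_span_singleton hv] at this
      omega)
    · obtain ⟨m, hm⟩ := hm
      have h4 : ∀ g ∈ derivedSeries H m, ∀ x, ρ g x - x ∈ k ∙ v := fun g hg x =>
        (Submodule.Quotient.eq _).1 (LinearMap.congr_fun (hm g hg) (Submodule.Quotient.mk x))
      have h5 : ∀ a, ∀ b ∈ derivedSeries H m, ∀ x, ρ (a * b) x = ρ a x + ρ b x - x :=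
        fun a b hb x => by
          have := h2 a _ (h4 b hb x)
          rw [map_sub, sub_eq_iff_eq_add'] at this
          rw [map_mul, Module.End.mul_apply, this, add_sub_assoc]
      refine ⟨m + 1, (Subgroup.commutator_le (H₃ := ρ.ker)).2 fun a ha b hb => ?_⟩
      have h6 : ρ (a * b) = ρ (b * a) := LinearMap.ext fun x => by
        rw [h5 a b hb, h5 b a ha, add_comm]
      rw [MonoidHom.mem_ker, commutatorElement_def, mul_assoc, map_mul, h6, ← map_mul,
        ← mul_inv_rev, mul_inv_cancel, map_one]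
    · have h4 : k ∙ v ≤ (k ∙ v).comap (ρ g - 1) := fun x hx => (k ∙ v).sub_mem (h3 g hx) hx
      have := Module.End.IsNilpotent.mapQ h4 (h g)
      convert this using 1
      ext x
      rfl

theorem exists_eigen_of_comm [Nontrivial V] (S : Set (Module.End k V))
    (h : ∀ a ∈ S, ∀ b ∈ S, a * b = b * a) : ∃ v : V, v ≠ 0 ∧ ∀ a ∈ S, ∃ c : k, a v = c • v := by
  obtain ⟨W, h1, h2, h3⟩ := kol_min S
  have : Nontrivial W := Submodule.nontrivial_iff_ne_bot.2 h1
  obtain ⟨v, hv, hv0⟩ := (Submodule.ne_bot_iff W).1 h1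
  refine ⟨v, hv0, fun a ha => ?_⟩
  obtain ⟨c, hc⟩ := Module.End.exists_eigenvalue (a.restrict (h2 a ha))
  obtain ⟨w, hw⟩ := hc.exists_hasEigenvector
  refine (h3 (W ⊓ a.eigenspace c) inf_le_left fun b hb x hx => ⟨h2 b hb hx.1, ?_⟩).elim
    (fun e => ?_) fun e => ?_
  · refine Module.End.mem_eigenspace_iff.2 ?_
    rw [← Module.End.mul_apply, h a ha b hb, Module.End.mul_apply,
      Module.End.mem_eigenspace_iff.1 hx.2, map_smul]
  · refine (hw.2 (Subtype.ext ((Submodule.eq_bot_iff _).1 e w ⟨w.2, ?_⟩))).elim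
    exact Module.End.mem_eigenspace_iff.2 (congrArg Subtype.val hw.apply_eq_smul)
  · exact ⟨c, Module.End.mem_eigenspace_iff.1 (e.ge hv).2⟩

theorem isNilpotent_sub_one_of_pow {A : Type*} [Ring A] [Algebra k A] [Fact (ringChar k).Prime]
    {a : A} {m : ℕ} (h : a ^ ringChar k ^ m = 1) : IsNilpotent (a - 1) := by
  rcases subsingleton_or_nontrivial A with _ | _
  · exact ⟨0, Subsingleton.elim _ _⟩
  · have : CharP A (ringChar k) := charP_of_injective_algebraMap (algebraMap k A).injective _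
    exact ⟨ringChar k ^ m, by
      rw [sub_pow_char_pow_of_commute _ _ (Commute.one_right a), h, one_pow, sub_self]⟩

end Pool.Agent.AG
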