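import Pool.Agent.Lib.AG.Diag
import Pool.Agent.Lib.AG.Kolchin

/-! Unipotent and semisimple elements in positive characteristic. -/

namespace Pool.Agent.AG

open Set

universe u

section aux

variable {k : Type u} [Field k] {n : ℕ}

private theorem jordan_nat (g : Gl n k) : nat g = Matrix.toLinAlgEquiv' g.1 :=
  LinearMap.ext fun v => (Matrix.toLinAlgEquiv'_apply g.1 v).symm

private theorem jordan_nat_mul (g h : Gl n k) : nat (g * h) = nat g * nat h := by
  rw [jordan_nat, jordan_nat, jordan_nat, Units.val_mul, map_mul]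

private theorem jordan_nat_pow (g : Gl n k) (m : ℕ) : nat (g ^ m) = nat g ^ m := by
  rw [jordan_nat, jordan_nat, Units.val_pow_eq_pow_val, map_pow]

private theorem jordan_nat_inj {g : Gl n k} (h : nat g = 1) : g = 1 := by
  rw [jordan_nat, map_eq_one_iff _ Matrix.toLinAlgEquiv'.injective] at h
  exact Units.ext h

private theorem jordan_sub_pow [Fact (ringChar k).Prime] {A : Type*} [Ring A] [Algebra k A]
    {a b : A} (h : Commute a b) (m : ℕ) :
    (a - b) ^ ringChar k ^ m = a ^ ringChar k ^ m - b ^ ringChar k ^ m := by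
  rcases subsingleton_or_nontrivial A with hA | hA
  · exact Subsingleton.elim _ _
  · have : CharP A (ringChar k) := charP_of_injective_algebraMap (algebraMap k A).injective _
    exact sub_pow_char_pow_of_commute _ _ h

private theorem jordan_le [Fact (ringChar k).Prime] (m : ℕ) : m ≤ ringChar k ^ m :=
  (Nat.lt_pow_self (Fact.out : (ringChar k).Prime).one_lt).le

/-- Matrices whose common eigenvectors span are simultaneously diagonalisable. -/
private theorem jordan_key {S : Set (Gl n k)}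
    (h : ⊤ ≤ Submodule.span k {v : Fin n → k | ∀ a ∈ S, ∃ c : k, nat a v = c • v}) :
    ∃ P : Gl n k, ∀ a ∈ S, (P * a * P⁻¹).1.IsDiag := by
  let e₀ := Module.Basis.ofSpan h
  let b := Pi.basisFun k (Fin n)
  let e : Module.Basis (Fin n) k (Fin n → k) := e₀.reindex (e₀.indexEquiv b)
  have he : ∀ j, ∀ a ∈ S, ∃ c : k, nat a (e j) = c • e j := fun j => by
    refine Module.Basis.ofSpan_subset h ⟨(e₀.indexEquiv b).symm j, ?_⟩
    exact (e₀.reindex_apply _ j).symm
  refine ⟨⟨e.toMatrix b, b.toMatrix e, e.toMatrix_mul_toMatrix_flip b,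
    b.toMatrix_mul_toMatrix_flip e⟩, fun a ha i j hij => ?_⟩
  have h1 : LinearMap.toMatrix b b (nat a) = a.1 := by
    rw [LinearMap.toMatrix_eq_toMatrix']
    exact LinearMap.toMatrix'_toLin' a.1
  have h2 := basis_toMatrix_mul_linearMap_toMatrix_mul_basis_toMatrix e b e b (nat a)
  rw [h1] at h2
  change (e.toMatrix b * a.1 * b.toMatrix e) i j = 0
  obtain ⟨c, hc⟩ := he j a ha
  rw [h2, LinearMap.toMatrix_apply, hc, map_smul, e.repr_self, Finsupp.smul_apply,
    Finsupp.single_eq_of_ne hij, smul_zero]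

/-- Generalised eigenvectors of a semisimple element are eigenvectors. -/
private theorem jordan_eig {a : Gl n k} (h : SS a) {c : k} {v : Fin n → k} {m : ℕ}
    (hv : ((nat a - c • 1) ^ m) v = 0) : nat a v = c • v := by
  obtain ⟨P, hP⟩ := h
  set d := (P * a * P⁻¹).1.diag
  have h1 : a.1 - c • 1 = P⁻¹.1 * Matrix.diagonal (fun i => d i - c) * P.1 := by
    rw [← Matrix.diagonal_sub, hP.diagonal_diag, ← Matrix.smul_one_eq_diagonal, mul_sub, sub_mul,
      ← Units.val_mul, ← Units.val_mul, mul_smul_comm, smul_mul_assoc, mul_one, Units.inv_mul]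
    simp only [mul_assoc, inv_mul_cancel_left, inv_mul_cancel, mul_one]
  have h2 : nat a - c • 1 = Matrix.toLinAlgEquiv' (a.1 - c • 1) := by
    rw [map_sub, map_smul, map_one, jordan_nat]
  rw [h2, ← map_pow, h1, Units.conj_pow', Matrix.diagonal_pow, Matrix.toLinAlgEquiv'_apply,
    ← Matrix.mulVec_mulVec, ← Matrix.mulVec_mulVec] at hv
  have h3 := congrArg (Matrix.mulVec P.1) hv
  rw [Matrix.mulVec_mulVec, Units.mul_inv, Matrix.one_mulVec, Matrix.mulVec_zero] at h3
  have h4 : Matrix.mulVec (Matrix.diagonal fun i => d i - c) (Matrix.mulVec P.1 v) = 0 := by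
    funext i
    have h5 := congrFun h3 i
    rw [Matrix.mulVec_diagonal, Pi.pow_apply, Pi.zero_apply, mul_eq_zero] at h5
    rw [Matrix.mulVec_diagonal, Pi.zero_apply, mul_eq_zero]
    exact h5.imp_left eq_zero_of_pow_eq_zero
  have h6 : (nat a - c • 1) v = 0 := by
    rw [h2, h1, Matrix.toLinAlgEquiv'_apply, ← Matrix.mulVec_mulVec, ← Matrix.mulVec_mulVec, h4,
      Matrix.mulVec_zero]
  exact sub_eq_zero.1 h6

private theorem jordan_set [IsAlgClosed k] {S : Set (Gl n k)} (h : ∀ a ∈ S, SS a)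
    (h' : ∀ a ∈ S, ∀ b ∈ S, a * b = b * a) : ∃ P : Gl n k, ∀ a ∈ S, (P * a * P⁻¹).1.IsDiag := by
  refine jordan_key ?_
  rw [← Module.End.iSup_iInf_maxGenEigenspace_eq_top_of_iSup_maxGenEigenspace_eq_top_of_commute
    (fun a : S => nat a.1) (fun a b _ => ?_) fun a => Module.End.iSup_maxGenEigenspace_eq_top _]
  · refine iSup_le fun χ v hv => Submodule.subset_span fun a ha => ⟨χ ⟨a, ha⟩, ?_⟩
    obtain ⟨m, hm⟩ := (Module.End.mem_maxGenEigenspace _ _ _).1
      ((Submodule.mem_iInf _).1 hv ⟨a, ha⟩)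
    exact jordan_eig (h a ha) hm
  · change nat a.1 * nat b.1 = nat b.1 * nat a.1
    rw [← jordan_nat_mul, ← jordan_nat_mul, h' _ a.2 _ b.2]

end aux

variable {k : Type u} [Field k] [IsAlgClosed k] [Fact (ringChar k).Prime] {n : ℕ}
  {G D : Subgroup (Gl n k)}

theorem unip_iff {g : Gl n k} : Unip g ↔ g ^ ringChar k ^ n = 1 := by
  refine ⟨fun h => Units.ext ?_, fun h => isNilpotent_sub_one_of_pow (k := k) (m := n) ?_⟩
  · have h1 := sub_eq_zero.1 (Matrix.isNilpotent_charpoly_sub_pow_of_isNilpotent h).eq_zero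
    have h2 := Matrix.aeval_self_charpoly (g.1 - 1)
    rw [h1, map_pow, Polynomial.aeval_X, Fintype.card_fin] at h2
    have h3 := pow_eq_zero_of_le (jordan_le (k := k) n) h2
    rw [jordan_sub_pow (k := k) (Commute.one_right _), one_pow, sub_eq_zero] at h3
    exact h3
  · rw [← Units.val_pow_eq_pow_val, h, Units.val_one]

theorem unip_of_pow {g : Gl n k} {m : ℕ} (h : g ^ ringChar k ^ m = 1) : Unip g := by
  refine isNilpotent_sub_one_of_pow (k := k) (m := m) ?_
  rw [← Units.val_pow_eq_pow_val, h, Units.val_one]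

theorem Unip.inv {g : Gl n k} (h : Unip g) : Unip g⁻¹ := by
  rw [unip_iff] at h ⊢
  rw [inv_pow, h, inv_one]

theorem ss_pow (g : Gl n k) : SS (g ^ ringChar k ^ n) := by
  obtain ⟨P, hP⟩ := jordan_key (S := {g ^ ringChar k ^ n}) <| by
    rw [← Module.End.iSup_maxGenEigenspace_eq_top (nat g)]
    refine iSup_le fun c v hv => Submodule.subset_span ?_
    rintro _ rfl
    rw [Module.End.maxGenEigenspace_eq_genEigenspace_finrank, Module.End.mem_genEigenspace_nat,
      LinearMap.mem_ker, Module.finrank_fin_fun] at hv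
    have h1 : ((nat g - c • 1) ^ ringChar k ^ n) v = 0 := by
      rw [← Nat.sub_add_cancel (jordan_le (k := k) n), pow_add, Module.End.mul_apply, hv, map_zero]
    rw [jordan_sub_pow (k := k) ((Commute.one_right _).smul_right c), smul_pow, one_pow,
      ← jordan_nat_pow] at h1
    exact ⟨c ^ ringChar k ^ n, sub_eq_zero.1 h1⟩
  exact ⟨P, hP _ rfl⟩

theorem SS.eq_one {g : Gl n k} (h : SS g) (h' : Unip g) : g = 1 := by
  obtain ⟨m, hm⟩ := h'
  refine jordan_nat_inj (LinearMap.ext fun v => ?_)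
  have h1 : ((nat g - (1 : k) • 1) ^ m) v = 0 := by
    rw [one_smul, jordan_nat, ← map_one (Matrix.toLinAlgEquiv' (R := k) (n := Fin n)), ← map_sub,
      ← map_pow, hm, map_zero, LinearMap.zero_apply]
  rw [jordan_eig h h1, one_smul, Module.End.one_apply]

theorem dg_of_comm (h : ∀ a ∈ D, SS a) (h' : ∀ a ∈ D, ∀ b ∈ D, a * b = b * a) : Dg D :=
  jordan_set (S := (D : Set (Gl n k))) h h'

theorem SS.mul {a b : Gl n k} (ha : SS a) (hb : SS b) (h : a * b = b * a) : SS (a * b) := by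
  obtain ⟨P, hP⟩ := jordan_set (S := {a, b}) (by rintro _ (rfl | rfl); exacts [ha, hb])
    (by rintro _ (rfl | rfl) _ (rfl | rfl); exacts [rfl, h, h.symm, rfl])
  refine ⟨P, ?_⟩
  have e : P * (a * b) * P⁻¹ = P * a * P⁻¹ * (P * b * P⁻¹) := by
    simp only [mul_assoc, inv_mul_cancel_left]
  rw [e, Units.val_mul, ← (hP a (Or.inl rfl)).diagonal_diag, ← (hP b (Or.inr rfl)).diagonal_diag,
    Matrix.diagonal_mul_diagonal]
  exact Matrix.isDiag_diagonal _

theorem Dg.sup {D' : Subgroup (Gl n k)} (h : Dg D) (h' : Dg D')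
    (hc : ∀ a ∈ D, ∀ b ∈ D', a * b = b * a) : Dg (D ⊔ D') := by
  have hN : Nm D D' := fun a ha b hb => by rwa [hc a ha b hb, mul_inv_cancel_right]
  refine dg_of_comm (fun g hg => ?_) fun g hg g' hg' => ?_
  · obtain ⟨a, ha, b, hb, rfl⟩ := hN.mem_sup.1 hg
    exact (h.ss ha).mul (h'.ss hb) (hc a ha b hb)
  · obtain ⟨a, ha, b, hb, rfl⟩ := hN.mem_sup.1 hg
    obtain ⟨a', ha', b', hb', rfl⟩ := hN.mem_sup.1 hg'
    have h1 : Commute a a' := h.comm ha ha'
    have h2 : Commute a b' := hc a ha b' hb'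
    have h3 : Commute a' b := hc a' ha' b hb
    have h4 : Commute b b' := h'.comm hb hb'
    exact (h1.mul_right h2).mul_left (h3.symm.mul_right h4)

theorem Dg.exists_root (h : Dg D) (hD : Closed (OG k n) (D : Set (Gl n k))) (m : ℕ) {d : Gl n k}
    (hd : d ∈ D) : ∃ d' ∈ D, d' ^ ringChar k ^ m = d := by
  obtain ⟨P, hP⟩ := h
  have hq : 0 < ringChar k ^ m := pow_pos (Fact.out : (ringChar k).Prime).pos m
  choose y hy using fun i => IsAlgClosed.exists_pow_nat_eq ((P * d * P⁻¹).1 i i) hq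
  have h1 : Matrix.diagonal y ^ ringChar k ^ m = (P * d * P⁻¹).1 := by
    rw [Matrix.diagonal_pow, ← (hP d hd).diagonal_diag]
    exact congrArg _ (funext hy)
  obtain ⟨w, hw⟩ : IsUnit (Matrix.diagonal y) :=
    (isUnit_pow_iff hq.ne').1 (h1 ▸ (P * d * P⁻¹).isUnit)
  have e : P * (P⁻¹ * w * P) * P⁻¹ = w := by
    simp only [mul_assoc, mul_inv_cancel_left, mul_inv_cancel, mul_one]
  refine ⟨P⁻¹ * w * P, mem_of_rel hD hP ?_ fun m' hm' => ?_, ?_⟩
  · rw [e, hw]
    exact Matrix.isDiag_diagonal _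
  · rw [e, hw]
    refine sub_eq_zero.1 (isNilpotent_sub_one_of_pow (k := k) (m := m) ?_).eq_zero
    rw [← Finset.prod_pow, ← hm' d hd]
    refine Finset.prod_congr rfl fun i _ => ?_
    rw [Matrix.diagonal_apply_eq, ← hy i, ← zpow_natCast, ← zpow_natCast, ← zpow_mul, ← zpow_mul,
      mul_comm]
  · have h2 : w ^ ringChar k ^ m = P * d * P⁻¹ :=
      Units.ext (by rw [Units.val_pow_eq_pow_val, hw, h1])
    have h3 := conj_pow (a := P⁻¹) (b := w) (i := ringChar k ^ m)
    rw [inv_inv] at h3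
    rw [h3, h2]
    simp only [mul_assoc, inv_mul_cancel_left, inv_mul_cancel, mul_one]

/-- The Jordan decomposition. -/
theorem jordan (hG : Closed (OG k n) (G : Set (Gl n k))) {g : Gl n k} (hg : g ∈ G) :
    ∃ s ∈ G, ∃ u ∈ G, SS s ∧ Unip u ∧ s * u = u * s ∧ g = s * u := by
  obtain ⟨D, hD⟩ := exists_cloG (Subgroup.zpowers (g ^ ringChar k ^ n))
  have h1 : Dg D := (ss_pow g).dg.of_clo hD
  have h2 : ∀ K : Subgroup (Gl n k), Closed (OG k n) (K : Set (Gl n k)) →
      g ^ ringChar k ^ n ∈ K → D ≤ K := fun K hK hg' x hx =>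
    clo_min (S := (Subgroup.zpowers (g ^ ringChar k ^ n) : Set (Gl n k)))
      (Subgroup.zpowers_le.2 hg') hK (hD ▸ hx)
  obtain ⟨s, hs, e⟩ := h1.exists_root (hD ▸ closed_clo) n (d := g ^ ringChar k ^ n)
    (by rw [← SetLike.mem_coe, hD]; exact subset_clo (Subgroup.mem_zpowers _))
  have h3 : s ∈ G := h2 G hG (G.pow_mem hg _) hs
  have h4 : Commute s g := Subgroup.mem_centralizer_singleton_iff.1
    (h2 _ (closed_centralizer {g})
      (Subgroup.mem_centralizer_singleton_iff.2 (Commute.pow_self g _)) hs)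
  refine ⟨s, h3, s⁻¹ * g, G.mul_mem (G.inv_mem h3) hg, h1.ss hs, unip_iff.2 ?_,
    (Commute.refl s).inv_right.mul_right h4, (mul_inv_cancel_left s g).symm⟩
  rw [h4.inv_left.mul_pow, inv_pow, e, inv_mul_cancel]

theorem IsRep.isNilpotent {V : Type u} [AddCommGroup V] [Module k V]
    {ρ : Gl n k → Module.End k V} (hρ : IsRep G ρ) {u : Gl n k} (hu : u ∈ G) (h : Unip u) :
    IsNilpotent (ρ u - 1) := by
  refine isNilpotent_sub_one_of_pow (k := k) (m := n) ?_
  have h1 : (⟨u, hu⟩ : G) ^ ringChar k ^ n = 1 := Subtype.ext (unip_iff.1 h)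
  exact (map_pow hρ.hom ⟨u, hu⟩ _).symm.trans (by rw [h1, map_one])

theorem IsRep.eq_of_unip {V : Type u} [AddCommGroup V] [Module k V]
    {ρ : Gl n k → Module.End k V} (hρ : IsRep G ρ) {u : Gl n k} (hu : u ∈ G) (h : Unip u)
    {v : V} {a : k} (e : ρ u v = a • v) : ρ u v = v := by
  obtain ⟨m, hm⟩ := hρ.isNilpotent hu h
  rcases eq_or_ne v 0 with rfl | hv
  · exact map_zero _
  have h1 : (ρ u - 1).HasEigenvector (a - 1) v := ⟨Module.End.mem_eigenspace_iff.2 (by
    rw [LinearMap.sub_apply, e, sub_smul, one_smul, Module.End.one_apply]), hv⟩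
  have h2 := h1.pow_apply m
  rw [hm, LinearMap.zero_apply, eq_comm, smul_eq_zero_iff_left hv] at h2
  rw [e, sub_eq_zero.1 (eq_zero_of_pow_eq_zero h2), one_smul]

theorem isSolvable_of_unip (h : ∀ g ∈ G, Unip g) : Group.IsSolvable G := by
  let ρ : G →* Module.End k (Fin n → k) :=
    { toFun := fun g => nat g.1
      map_one' := by rw [jordan_nat]; exact map_one _
      map_mul' := fun g g' => jordan_nat_mul g.1 g'.1 }
  obtain ⟨m, hm⟩ := kolchin_derived ρ fun g => isNilpotent_sub_one_of_pow (k := k) (m := n) (by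
    have h1 : g ^ ringChar k ^ n = 1 := Subtype.ext (unip_iff.1 (h g.1 g.2))
    rw [← map_pow, h1, map_one])
  exact ⟨m, eq_bot_iff.2 fun g hg => Subtype.ext (jordan_nat_inj (hm g hg))⟩

end Pool.Agent.AG
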