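import Pool.Agent.Lib.AG.Rep

/-! The theorem of Lie and Kolchin. -/

namespace Pool.Agent.AG

open Set

universe u

variable {k : Type u} [Field k] [IsAlgClosed k] {n : ℕ} {B : Subgroup (Gl n k)}
  {V : Type u} [AddCommGroup V] [Module k V] [FiniteDimensional k V]
  {ρ : Gl n k → Module.End k V}

omit [IsAlgClosed k] in
private theorem lk_le (B : Subgroup (Gl n k)) : ⁅B, B⁆ ≤ B := by
  rw [← Subgroup.map_subtype_commutator]
  exact Subgroup.map_subtype_le _

omit [IsAlgClosed k] in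
private theorem lk_conj {b t : Gl n k} (hb : b ∈ B) (ht : t ∈ ⁅B, B⁆) : b⁻¹ * t * b ∈ ⁅B, B⁆ := by
  have h : cj b ⁅B, B⁆ = ⁅cj b B, cj b B⁆ := Subgroup.map_commutator _ _ _
  rw [cj_eq_self hb] at h
  exact mem_cj.1 (h.symm ▸ ht)

omit [IsAlgClosed k] [FiniteDimensional k V] in
/-- The character of a common eigenvector. -/
private theorem lk_char (hρ : IsRep B ρ) {v : V} (hv : v ≠ 0)
    (h : ∀ b ∈ B, ∃ a : k, ρ b v = a • v) : ∃ γ : B →* kˣ, v ∈ wV ρ B γ := by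
  choose a ha using fun b : B => h b.1 b.2
  have h0 : ∀ b, a b ≠ 0 := fun b e => hv (by
    rw [← hρ.inv_apply b.2 v, ha, e, zero_smul, map_zero])
  refine ⟨MonoidHom.mk' (fun b => Units.mk0 (a b) (h0 b)) fun b c => Units.ext ?_, ha⟩
  refine smul_left_injective k hv ?_
  change a (b * c) • v = (a b * a c) • v
  rw [← ha, Subgroup.coe_mul, hρ.mul_apply b.2 c.2, ha, map_smul, ha, smul_smul, mul_comm]

omit [IsAlgClosed k] [FiniteDimensional k V] in
private theorem lk_det (hρ : IsRep B ρ) {t : Gl n k} (ht : t ∈ ⁅B, B⁆) :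
    LinearMap.det (ρ t) = 1 := by
  rw [← Subgroup.map_subtype_commutator] at ht
  obtain ⟨s, hs, rfl⟩ := ht
  exact congrArg Units.val
    (Abelianization.commutator_subset_ker (LinearMap.det.comp hρ.hom).toHomUnits hs)

omit [IsAlgClosed k] in
/-- The derived group acts trivially on a simple module that contains an eigenvector of it. -/
private theorem lk_triv (hB : Irr (OG k n) (B : Set (Gl n k))) (hρ : IsRep B ρ) (hs : Simp B ρ)
    {v : V} (hv : v ≠ 0) {γ : (⁅B, B⁆ : Subgroup (Gl n k)) →* kˣ} (hγ : v ∈ wV ρ ⁅B, B⁆ γ) :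
    ∀ t ∈ ⁅B, B⁆, ρ t = 1 := by
  have hne : ∀ b ∈ B, ρ b v ≠ 0 := fun b hb e => hv (by rw [← hρ.inv_apply hb v, e, map_zero])
  obtain ⟨δ, -, hδ⟩ := hB.cover (F := fun δ => (fun g => ρ g v) ⁻¹' wV ρ ⁅B, B⁆ δ)
    (finite_wV ρ ⁅B, B⁆) (fun δ _ => (hρ.mapOn v).relCl (closed_submodule _)) (by
      intro b hb
      let c : (⁅B, B⁆ : Subgroup (Gl n k)) →* (⁅B, B⁆ : Subgroup (Gl n k)) :=
        MonoidHom.mk' (fun t => ⟨b⁻¹ * t.1 * b, lk_conj hb t.2⟩) fun s t => Subtype.ext (by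
          simp [mul_assoc])
      have h1 : ρ b v ∈ wV ρ ⁅B, B⁆ (γ.comp c) := fun t => by
        have h2 : ρ (b⁻¹ * t.1 * b) v = (γ (c t) : k) • v := hγ (c t)
        rw [← hρ.mul_apply (lk_le B t.2) hb, show t.1 * b = b * (b⁻¹ * t.1 * b) by group,
          hρ.mul_apply hb (lk_le B (lk_conj hb t.2)), h2, map_smul]
        rfl
      exact mem_iUnion₂.2 ⟨γ.comp c, (Submodule.ne_bot_iff _).2 ⟨_, h1, hne b hb⟩, h1⟩)
  have htop : ∀ w, w ∈ wV ρ ⁅B, B⁆ δ := fun w => by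
    have h1 := hs.span_eq_top (C := (fun g => ρ g v) '' B) (by
      rintro g hg _ ⟨b, hb, rfl⟩
      exact ⟨g * b, B.mul_mem hg hb, hρ.mul_apply hg hb v⟩)
      ⟨_, ⟨1, B.one_mem, rfl⟩, hne 1 B.one_mem⟩
    exact Submodule.span_le.2 (image_subset_iff.2 hδ) (h1 ▸ Submodule.mem_top)
  have hsc : ∀ t : (⁅B, B⁆ : Subgroup (Gl n k)), ρ t.1 = (δ t : k) • (1 : Module.End k V) :=
    fun t => LinearMap.ext fun w => htop w t
  have := hs.1
  have hd : 0 < Module.finrank k V := Module.finrank_pos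
  obtain ⟨ζ, -, hζ⟩ := hB.commutator.cover (F := fun ζ : k => (fun g => ρ g v) ⁻¹' {ζ • v})
    (Polynomial.nthRoots (Module.finrank k V) (1 : k)).finite_toSet
    (fun ζ _ => ((hρ.mono (lk_le B)).mapOn v).relCl (aff_OV.closed_singleton _)) (by
      intro t ht
      refine mem_iUnion₂.2 ⟨δ ⟨t, ht⟩, ?_, htop v ⟨t, ht⟩⟩
      have h1 := lk_det hρ ht
      rw [hsc ⟨t, ht⟩, LinearMap.det_smul, map_one, mul_one] at h1
      exact (Polynomial.mem_nthRoots hd).2 h1)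
  intro t ht
  have h1 : ρ t v = ζ • v := hζ ht
  have h2 : ρ 1 v = ζ • v := hζ (Subgroup.one_mem _)
  rw [← h2, hρ.one, htop v ⟨t, ht⟩] at h1
  have h3 : (δ ⟨t, ht⟩ : k) = 1 := smul_left_injective k hv (h1.trans (one_smul k v).symm)
  rw [hsc ⟨t, ht⟩, h3, one_smul]

private theorem lk_aux (m : ℕ) : ∀ B : Subgroup (Gl n k),
    (fun H : Subgroup (Gl n k) => ⁅H, H⁆)^[m] B = ⊥ → Irr (OG k n) (B : Set (Gl n k)) →
    ∀ (V : Type u) [AddCommGroup V] [Module k V] [FiniteDimensional k V] [Nontrivial V]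
      (ρ : Gl n k → Module.End k V), IsRep B ρ →
      ∃ v : V, v ≠ 0 ∧ ∀ b ∈ B, ∃ a : k, ρ b v = a • v := by
  induction m with
  | zero =>
    rintro B rfl - V _ _ _ _ ρ hρ
    obtain ⟨v, hv⟩ := exists_ne (0 : V)
    refine ⟨v, hv, fun b hb => ⟨1, ?_⟩⟩
    rw [Subgroup.mem_bot.1 hb, hρ.one, one_smul]
    rfl
  | succ m ih =>
    intro B hm hB V _ _ _ _ ρ hρ
    obtain ⟨W, σ, -, hσ, hs, hW⟩ := hρ.exists_simp
    have := hs.1
    obtain ⟨v, hv, h⟩ := ih ⁅B, B⁆ hm hB.commutator W σ (hσ.mono (lk_le B))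
    obtain ⟨γ, hγ⟩ := lk_char (hσ.mono (lk_le B)) hv h
    have ht := lk_triv hB hσ hs hv hγ
    obtain ⟨w, hw, h'⟩ := exists_eigen_of_comm (σ '' B) (by
      rintro _ ⟨a, ha, rfl⟩ _ ⟨b, hb, rfl⟩
      have h1 : a * b * a⁻¹ * b⁻¹ ∈ ⁅B, B⁆ := Subgroup.commutator_mem_commutator ha hb
      rw [← hσ.mul a ha b hb, ← hσ.mul b hb a ha,
        show a * b = a * b * a⁻¹ * b⁻¹ * (b * a) by group,
        hσ.mul _ (lk_le B h1) _ (B.mul_mem hb ha), ht _ h1, one_mul])
    refine ⟨w, fun e => hw (Subtype.ext e), fun b hb => ?_⟩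
    obtain ⟨c, hc⟩ := h' _ ⟨b, hb, rfl⟩
    exact ⟨c, by rw [← hW b hb, hc]; rfl⟩

theorem lie_kolchin [Nontrivial V] (hB : Irr (OG k n) (B : Set (Gl n k)))
    (hs : Group.IsSolvable B) (hρ : IsRep B ρ) :
    ∃ v : V, v ≠ 0 ∧ ∀ b ∈ B, ∃ a : k, ρ b v = a • v := by
  obtain ⟨m, hm⟩ := hs.solvable
  have h : ∀ m, (fun H : Subgroup (Gl n k) => ⁅H, H⁆)^[m] B =
      (derivedSeries B m).map B.subtype := by
    intro m
    induction m with
    | zero => simp [← MonoidHom.range_eq_map]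
    | succ m ih =>
      rw [Function.iterate_succ_apply', ih, derivedSeries_succ, Subgroup.map_commutator]
  exact lk_aux m B (by rw [h, hm, Subgroup.map_bot]) hB V ρ hρ

theorem exists_hyperplane [Nontrivial V] (hB : Irr (OG k n) (B : Set (Gl n k)))
    (hs : Group.IsSolvable B) (hρ : IsRep B ρ) :
    ∃ l : Module.Dual k V, l ≠ 0 ∧ Stab B ρ (LinearMap.ker l) := by
  obtain ⟨l, hl, h⟩ := lie_kolchin hB hs hρ.dual
  refine ⟨l, hl, fun g hg w hw => ?_⟩
  obtain ⟨a, ha⟩ := h g⁻¹ (B.inv_mem hg)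
  have h1 := LinearMap.congr_fun ha w
  rw [dualRep, inv_inv, LinearMap.dualMap_apply, LinearMap.smul_apply, LinearMap.mem_ker.1 hw,
    smul_zero] at h1
  exact h1

private theorem lk_flag (hB : Irr (OG k n) (B : Set (Gl n k))) (hs : Group.IsSolvable B) (m : ℕ) :
    ∀ (V : Type u) [AddCommGroup V] [Module k V] [FiniteDimensional k V]
      (ρ : Gl n k → Module.End k V), IsRep B ρ → Module.finrank k V = m →
      ∃ e : Module.Basis (Fin m) k V, ∀ b ∈ B, ∀ j,
        ρ b (e j) ∈ Submodule.span k (e '' Iic j) := by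
  induction m with
  | zero =>
    intro V _ _ _ ρ _ hm
    exact ⟨Module.finBasisOfFinrankEq k V hm, fun _ _ j => j.elim0⟩
  | succ m ih =>
    intro V _ _ _ ρ hρ hm
    have : Nontrivial V := Module.nontrivial_of_finrank_pos (R := k) (by omega)
    obtain ⟨l, hl, hW⟩ := exists_hyperplane hB hs hρ
    obtain ⟨σ, hσ, hσ'⟩ := hρ.exists_sub hW
    have h1 := Module.Dual.finrank_ker_add_one_of_ne_zero hl
    obtain ⟨e, he⟩ := ih (LinearMap.ker l) σ hσ (by omega)
    obtain ⟨y, hy⟩ : ∃ y, l y = 1 := LinearMap.surjective_of_ne_zero hl 1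
    refine ⟨e.mkFinSnoc y (fun c x hx h => ?_) fun z => ⟨-l z, ?_⟩, fun b hb j => ?_⟩
    · have h2 := congrArg l h
      rwa [map_add, map_smul, hy, LinearMap.mem_ker.1 hx, add_zero, map_zero, smul_eq_mul,
        mul_one] at h2
    · rw [LinearMap.mem_ker, map_add, map_smul, hy, smul_eq_mul, mul_one, add_neg_cancel]
    · induction j using Fin.lastCases with
      | last =>
        rw [show Iic (Fin.last m) = univ from Iic_top, image_univ, Module.Basis.span_eq]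
        exact Submodule.mem_top
      | cast j =>
        rw [Module.Basis.coe_mkFinSnoc, Fin.snoc_castSucc, Function.comp_apply, ← hσ' b hb]
        have h2 := Submodule.mem_map_of_mem (f := (LinearMap.ker l).subtype) (he b hb j)
        rw [Submodule.map_span] at h2
        refine Submodule.span_mono ?_ h2
        rintro _ ⟨_, ⟨i, hi, rfl⟩, rfl⟩
        exact ⟨i.castSucc, Fin.castSucc_le_castSucc_iff.2 hi, by rw [Fin.snoc_castSucc]; rfl⟩

theorem trg_of_solvable (hB : Irr (OG k n) (B : Set (Gl n k))) (hs : Group.IsSolvable B) :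
    Trg B := by
  obtain ⟨e, he⟩ := lk_flag hB hs n (Fin n → k) nat (isRep_nat B) (Module.finrank_fin_fun k)
  refine ⟨⟨e.toMatrix (Pi.basisFun k (Fin n)), (Pi.basisFun k (Fin n)).toMatrix e,
    Module.Basis.toMatrix_mul_toMatrix_flip _ _, Module.Basis.toMatrix_mul_toMatrix_flip _ _⟩,
    fun b hb i j hij => ?_⟩
  have h1 : b.1 = LinearMap.toMatrix (Pi.basisFun k (Fin n)) (Pi.basisFun k (Fin n)) (nat b) := by
    rw [LinearMap.toMatrix_eq_toMatrix']
    exact (LinearMap.toMatrix'_toLin' b.1).symm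
  change (e.toMatrix (Pi.basisFun k (Fin n)) * b.1 * (Pi.basisFun k (Fin n)).toMatrix e) i j = 0
  rw [h1, basis_toMatrix_mul_linearMap_toMatrix_mul_basis_toMatrix, LinearMap.toMatrix_apply]
  exact Finsupp.notMem_support_iff.1 fun h => not_le.2 hij (e.mem_span_image.1 (he b hb j) h)

end Pool.Agent.AG
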