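import Pool.Agent.Lib.AG.TDa
import Pool.Agent.Lib.AG.Tan

/-! The Lie algebra of a torus. -/

namespace Pool.Agent.AG

open Set Matrix

attribute [local instance 100] LieRing.ofAssociativeRing

universe u

variable {k : Type u} [Field k] [IsAlgClosed k] [Fact (ringChar k).Prime] {n : ℕ}
  {T : Subgroup (Gl n k)} (τ : TD T)

namespace TD

private theorem liet_entry (i j : Fin n) : ∃ c : τ.X →₀ k,
    (∀ t : T, t.1.1 i j = ∑ x ∈ c.support, c x * (τ.χ x t : k)) ∧
      ∀ y, τ.H y i j = ∑ x ∈ c.support, c x * ((x ⬝ᵥ y : ℤ) : k) := by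
  obtain ⟨c, hc, e⟩ := τ.exists_comp (isRep_nat T) (Pi.single j 1)
  have key : ∀ (B : Mt n k) (φ : τ.X → k), (∀ x, B *ᵥ c x = φ x • c x) →
      B i j = (c.mapRange (fun v => v i) rfl).sum fun x a => a * φ x := by
    intro B φ h
    rw [Finsupp.sum_mapRange_index (fun _ => zero_mul _)]
    have h1 : B i j = (B *ᵥ Pi.single j 1) i := by simp
    rw [h1, ← e, Finsupp.sum, Finsupp.sum, Matrix.mulVec_sum, Finset.sum_apply]
    exact Finset.sum_congr rfl fun x _ => by rw [h x, Pi.smul_apply, smul_eq_mul, mul_comm]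
  exact ⟨c.mapRange (fun v : Fin n → k => v i) rfl, fun t => key _ _ fun x => hc x t,
    fun y => key _ _ fun x => τ.H_nat x y _ (hc x)⟩

/-- The characters with their first order terms along a cocharacter. -/
private noncomputable def lietG (y x : τ.X) : (T → k) × DualNumber k :=
  (fun t => (τ.χ x t : k), TrivSqZeroExt.inl 1 + TrivSqZeroExt.inr ((x ⬝ᵥ y : ℤ) : k))

omit [IsAlgClosed k] [Fact (ringChar k).Prime] in
private theorem lietG_add (y x x' : τ.X) : τ.lietG y (x + x') = τ.lietG y x * τ.lietG y x' := by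
  refine Prod.ext (funext fun t => ?_) (TrivSqZeroExt.ext ?_ ?_)
  · simp [lietG, τ.χ_add]
  · simp [lietG]
  · simp [lietG, add_comm]

omit [IsAlgClosed k] [Fact (ringChar k).Prime] in
private theorem liet_mem (y : τ.X) {s : Finset τ.X} {c : τ.X → k} {σ : τ.X → τ.X}
    {f : Gl n k → k} {d : k} (hf : ∀ t : T, f t.1 = ∑ x ∈ s, c x * (τ.χ (σ x) t : k))
    (hd : d = ∑ x ∈ s, c x * ((σ x ⬝ᵥ y : ℤ) : k)) :
    ((fun t : T => f t.1, TrivSqZeroExt.inl (f 1) + TrivSqZeroExt.inr d) :
      (T → k) × DualNumber k) ∈ Submodule.span k (range (τ.lietG y)) := by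
  have e : ((fun t : T => f t.1, TrivSqZeroExt.inl (f 1) + TrivSqZeroExt.inr d) :
      (T → k) × DualNumber k) = ∑ x ∈ s, c x • τ.lietG y (σ x) := by
    refine Prod.ext (funext fun t => ?_) (TrivSqZeroExt.ext ?_ ?_)
    · simp [lietG, hf t, Prod.fst_sum]
    · have := hf 1
      simp only [OneMemClass.coe_one, map_one, Units.val_one, mul_one] at this
      simp [lietG, this, Prod.snd_sum, TrivSqZeroExt.fst_sum]
    · simp [lietG, hd, Prod.snd_sum, TrivSqZeroExt.snd_sum]
  rw [e]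
  exact Submodule.sum_mem _ fun x _ => Submodule.smul_mem _ _ (Submodule.subset_span ⟨_, rfl⟩)

open Pointwise in
private theorem liet_all (y : τ.X) {f : Gl n k → k} (hf : f ∈ OG k n) :
    ((fun t : T => f t.1, TrivSqZeroExt.inl (f 1) + TrivSqZeroExt.inr (der (τ.H y) ⟨f, hf⟩)) :
      (T → k) × DualNumber k) ∈ Submodule.span k (range (τ.lietG y)) := by
  induction hf using Algebra.adjoin_induction with
  | mem f hf =>
    obtain ⟨i, j, rfl | rfl⟩ := hf
    · obtain ⟨c, h1, h2⟩ := τ.liet_entry i j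
      exact τ.liet_mem y (σ := id) (f := fun g => g.1 i j) h1 ((der_entry _ i j).trans (h2 y))
    · obtain ⟨c, h1, h2⟩ := τ.liet_entry i j
      refine τ.liet_mem y (s := c.support) (c := c) (σ := fun x => -x)
        (f := fun g => g⁻¹.1 i j) (fun t => ?_) ((der_inv_entry _ i j).trans ?_)
      · refine (h1 t⁻¹).trans (Finset.sum_congr rfl fun x _ => ?_)
        rw [τ.χ_neg, map_inv, MonoidHom.inv_apply]
      · rw [h2 y, ← Finset.sum_neg_distrib]
        exact Finset.sum_congr rfl fun x _ => by rw [neg_dotProduct, Int.cast_neg, mul_neg]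
  | algebraMap a =>
    refine τ.liet_mem y (s := {0}) (c := fun _ => a) (σ := id) (fun t => ?_)
      ((der_algebraMap _ a).trans ?_)
    · simp [τ.χ_zero]
    · simp
  | add f g hf hg h1 h2 =>
    have e : der (τ.H y) ⟨f + g, Subalgebra.add_mem _ hf hg⟩ =
        der (τ.H y) ⟨f, hf⟩ + der (τ.H y) ⟨g, hg⟩ := map_add (der (τ.H y)) ⟨f, hf⟩ ⟨g, hg⟩
    convert Submodule.add_mem _ h1 h2 using 1
    refine Prod.ext rfl (TrivSqZeroExt.ext ?_ ?_)
    · simp
    · simpa using e
  | mul f g hf hg h1 h2 =>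
    have e : der (τ.H y) ⟨f * g, Subalgebra.mul_mem _ hf hg⟩ =
        f 1 * der (τ.H y) ⟨g, hg⟩ + g 1 * der (τ.H y) ⟨f, hf⟩ := der_mul (τ.H y) ⟨f, hf⟩ ⟨g, hg⟩
    have h3 := Submodule.mul_mem_mul h1 h2
    rw [Submodule.span_mul_span] at h3
    have h4 : range (τ.lietG y) * range (τ.lietG y) ⊆ range (τ.lietG y) := by
      rintro _ ⟨_, ⟨x, rfl⟩, _, ⟨x', rfl⟩, rfl⟩
      exact ⟨x + x', τ.lietG_add y x x'⟩
    convert Submodule.span_mono h4 h3 using 1
    refine Prod.ext rfl (TrivSqZeroExt.ext ?_ ?_)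
    · simp
    · simpa [mul_comm] using e

theorem H_mem_lie (y : τ.X) : τ.H y ∈ lie T := by
  refine mem_lie_iff.2 fun f hf => ?_
  obtain ⟨c, hc⟩ := Finsupp.mem_span_range_iff_exists_finsupp.1 (τ.liet_all y f.2)
  have hli : LinearIndependent k fun x : τ.X => fun t : T => (τ.χ x t : k) :=
    (linearIndependent_monoidHom T k).comp (fun x => (Units.coeHom k).comp (τ.χ x))
      fun x x' h => τ.χ_inj (MonoidHom.ext fun t => Units.ext (DFunLike.congr_fun h t))
  have h0 : c = 0 := by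
    refine linearIndependent_iff.1 hli c (funext fun t => ?_)
    have h1 := congrFun (congrArg Prod.fst hc) t
    rw [Finsupp.sum, Prod.fst_sum] at h1
    rw [Finsupp.linearCombination_apply, Finsupp.sum]
    exact h1.trans (hf t.1 t.2)
  rw [h0, Finsupp.sum_zero_index] at hc
  simpa using (congrArg (fun z => z.2.snd) hc).symm

theorem mem_lie_T {A : Mt n k} : A ∈ lie T ↔ A ∈ Submodule.span k (range τ.H) := by
  refine ⟨fun hA => ?_, fun hA => ?_⟩
  · rw [mem_lie_iff] at hA
    choose F hF e using τ.reg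
    have hF1 : ∀ x, F x 1 = 1 := fun x => by simpa using e x 1
    have hadd : ∀ x x', der A ⟨F (x + x'), hF _⟩ = der A ⟨F x, hF x⟩ + der A ⟨F x', hF x'⟩ := by
      intro x x'
      have h1 := hA (⟨F (x + x'), hF _⟩ - ⟨F x, hF x⟩ * ⟨F x', hF x'⟩) fun t ht => by
        change F (x + x') t - F x t * F x' t = 0
        rw [e _ ⟨t, ht⟩, e _ ⟨t, ht⟩, e _ ⟨t, ht⟩, τ.χ_add, MonoidHom.mul_apply, Units.val_mul,
          sub_self]
      rw [map_sub, der_mul, sub_eq_zero] at h1
      simp only [hF1, one_mul] at h1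
      rw [h1, add_comm]
    let δ : τ.X →+ k := AddMonoidHom.mk' (fun x => der A ⟨F x, hF x⟩) hadd
    have hδ : ∀ x : τ.X, δ x = ∑ a, δ (Pi.single a 1) * ((x ⬝ᵥ Pi.single a 1 : ℤ) : k) := by
      intro x
      conv_lhs => rw [pi_eq_sum_univ' x]
      rw [map_sum]
      refine Finset.sum_congr rfl fun a _ => ?_
      rw [map_zsmul, dotProduct_single, mul_one, zsmul_eq_mul, mul_comm]
    have hAe : A = ∑ a, δ (Pi.single a 1) • τ.H (Pi.single a 1) := by
      ext i j
      obtain ⟨c, h1, h2⟩ := τ.liet_entry i j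
      have h3 := hA (⟨_, entry_mem_OG i j⟩ - ∑ x ∈ c.support, c x • ⟨F x, hF x⟩) fun t ht => by
        have h4 := h1 ⟨t, ht⟩
        simp only [← e] at h4
        simpa [sub_eq_zero] using h4
      rw [map_sub, der_entry, sub_eq_zero, map_sum] at h3
      rw [h3, Matrix.sum_apply]
      simp only [Matrix.smul_apply, h2, smul_eq_mul, Finset.mul_sum, map_smul]
      rw [Finset.sum_comm]
      refine Finset.sum_congr rfl fun x _ => ?_
      change c x * δ x = _
      rw [hδ, Finset.mul_sum]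
      exact Finset.sum_congr rfl fun a _ => by ring
    rw [hAe]
    exact Submodule.sum_mem _ fun a _ => Submodule.smul_mem _ _ (Submodule.subset_span ⟨_, rfl⟩)
  · have : Submodule.span k (range τ.H) ≤ (lie T).toSubmodule :=
      Submodule.span_le.2 (by rintro _ ⟨y, rfl⟩; exact τ.H_mem_lie y)
    exact this hA

end TD

end Pool.Agent.AG
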