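import Pool.Agent.Lib.AG.PnEx
import Pool.Agent.Lib.AG.ChDefs
import Pool.Agent.Lib.AG.LieT

/-! The Lie algebra of a reductive group, and its Borel subgroups. -/

namespace Pool.Agent.AG

open Set Matrix

attribute [local instance 100] LieRing.ofAssociativeRing

universe u

variable {k : Type u} [Field k] [IsAlgClosed k] [Fact (ringChar k).Prime] {n : ℕ}
  {G T B : Subgroup (Gl n k)} {τ : TD T} (D : Pn G τ)

namespace Pn

omit [IsAlgClosed k] [Fact (ringChar k).Prime] in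
private theorem lieg_rt (i : D.ι) : D.P.root i ∈ τ.Rt G := D.range_root ▸ mem_range_self i

omit [IsAlgClosed k] [Fact (ringChar k).Prime] in
private theorem lieg_one {x : τ.X} (hx : x ≠ 0) {A : Mt n k} (hA : A ∈ lie G) (h : A ∈ τ.w Ad x)
    (h0 : A ≠ 0) : ∃ (i : D.ι) (c : k), D.P.root i = x ∧ A = c • D.e i := by
  obtain ⟨i, rfl⟩ : x ∈ range D.P.root := D.range_root ▸ ⟨hx, A, hA, h0, h⟩
  obtain ⟨c, hc⟩ := D.dim i A hA h
  exact ⟨i, c, rfl, hc⟩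

private theorem lieg_span {H : Subgroup (Gl n k)} (hn : Nm T H) (hHG : H ≤ G) {P : Set τ.X}
    (h0 : 0 ∉ P) {A : Mt n k} (hA : A ∈ lie H) (hP : A ∈ τ.M P) :
    A ∈ Submodule.span k (D.e '' {i | D.P.root i ∈ P ∧ D.e i ∈ lie H}) := by
  obtain ⟨c, h1, h2⟩ := τ.lie_comp hn hA
  obtain ⟨d, h3, h4, h5⟩ := τ.exists_comp_of_mem (τ.M_eq P ▸ hP)
  obtain rfl := τ.comp_unique (fun x => (h1 x).2) h3 (h2.trans h5.symm)
  refine h2 ▸ Submodule.sum_mem _ fun x hx => ?_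
  have h6 := Finsupp.mem_support_iff.1 hx
  have h7 : x ∈ P := by_contra fun h => h6 (h4 x h)
  obtain ⟨i, a, rfl, e⟩ := D.lieg_one (ne_of_mem_of_not_mem h7 h0) (lie_mono hHG (h1 x).1) (h3 x) h6
  have h8 := (lie H).smul_mem a⁻¹ (h1 (D.P.root i)).1
  change c (D.P.root i) ∈ _
  rw [e] at h6 h8 ⊢
  rw [inv_smul_smul₀ (left_ne_zero_of_smul h6)] at h8
  exact Submodule.smul_mem _ _ (Submodule.subset_span ⟨i, ⟨h7, h8⟩, rfl⟩)

omit [IsAlgClosed k] [Fact (ringChar k).Prime] in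
private theorem lieg_rg {y : τ.X} (hy : τ.Rg y) (i : D.ι) : D.P.root i ⬝ᵥ y ≠ 0 := by
  obtain ⟨h1, A, -, h2, h3⟩ := D.lieg_rt i
  exact hy _ h1 fun e => h2 ((Submodule.eq_bot_iff _).1 e A h3)

private theorem lieg_Z (hG : Red G) (hT : MaxTor G T) {y : τ.X}
    (hy : ∀ i, D.P.root i ⬝ᵥ y ≠ 0) : τ.Z G y = T :=
  τ.Z_eq_of_Rt hG hT (by rw [← D.range_root]; exact forall_mem_range.2 hy)

theorem wc (hG : Red G) (hT : MaxTor G T) : WC D.P (Pi.basisFun ℤ (Fin τ.r)) k τ.H D.e := by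
  have hw := fun i => (D.rh i).mem_w τ
  have h1 : ∀ i j, ⁅D.e i, D.e j⁆ ∈ lie G := fun i j =>
    (lie G).lie_mem (D.rh i).mem_lie (D.rh j).mem_lie
  have h2 : ∀ i j, ⁅D.e i, D.e j⁆ ∈ τ.w Ad (D.P.root i + D.P.root j) := fun i j =>
    sub_mem (τ.mul_mem_w (hw i) (hw j)) (add_comm (D.P.root j) _ ▸ τ.mul_mem_w (hw j) (hw i))
  refine ⟨LinearIndependent.sum_type (by simpa only [Pi.basisFun_apply] using τ.H_li)
    (((τ.iSupIndep_w Ad).comp D.P.root.injective).linearIndependent _ hw fun i => (D.rh i).ne)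
    ((τ.iSupIndep_w Ad 0).mono (Submodule.span_le.2 ?_) (Submodule.span_le.2 ?_)),
    fun y y' => ?_, fun y i => ?_, D.e_neg, fun i j l h => D.dim l _ (h1 i j) (h ▸ h2 i j),
    fun i j h h' => by_contra fun h0 => h' (D.range_root ▸ ⟨h, _, h1 i j, h0, h2 i j⟩)⟩
  · rintro _ ⟨a, rfl⟩
    exact τ.H_mem _
  · rintro _ ⟨i, rfl⟩
    exact le_iSup₂_of_le (f := fun x (_ : x ≠ 0) => τ.w Ad x) _ (D.lieg_rt i).1 le_rfl (hw i)
  · exact (τ.H_lie y (τ.H_mem y')).trans (by simp)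
  · rw [D.pair, ← Int.cast_smul_eq_zsmul k]
    exact τ.H_lie y (hw i)

theorem mem_lie_iff_span (hG : Red G) (hT : MaxTor G T) {A : Mt n k} :
    A ∈ lie G ↔ A ∈ Submodule.span k (range τ.H ∪ range D.e) := by
  refine ⟨fun hA => ?_, fun hA => Submodule.span_le (p := (lie G).toSubmodule).2 ?_ hA⟩
  · obtain ⟨c, h1, h2⟩ := τ.lie_comp (.of_le hT.1.1) hA
    refine h2 ▸ Submodule.sum_mem _ fun x hx => ?_
    rcases eq_or_ne x 0 with rfl | h0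
    · exact Submodule.span_mono subset_union_left
        (τ.mem_lie_T.1 (τ.lie_zero hG hT (h1 0).1 (h1 0).2))
    · obtain ⟨i, a, -, e⟩ := D.lieg_one h0 (h1 x).1 (h1 x).2 (Finsupp.mem_support_iff.1 hx)
      exact e ▸ Submodule.smul_mem _ _ (Submodule.subset_span (.inr ⟨i, rfl⟩))
  · rintro _ (⟨y, rfl⟩ | ⟨i, rfl⟩)
    exacts [lie_mono hT.1.1 (τ.H_mem_lie y), (D.rh i).mem_lie]

theorem e_pow (hG : Red G) (hT : MaxTor G T) (i : D.ι) : D.e i ^ ringChar k = 0 := by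
  have h1 : ∀ m : ℕ, D.e i ^ (m + 1) ∈ τ.w Ad ((m + 1) • D.P.root i) := fun m => by
    induction m with
    | zero => simpa using (D.rh i).mem_w τ
    | succ m ih =>
      rw [pow_succ, succ_nsmul]
      exact τ.mul_mem_w ih ((D.rh i).mem_w τ)
  have h2 : D.e i ^ ringChar k ∈ lie G := dir_pow (ringChar k) G (D.rh i).mem_lie
  obtain ⟨m, hm⟩ := Nat.exists_eq_add_of_le' (Fact.out : (ringChar k).Prime).two_le
  have h3 := (D.lieg_rt i).1
  rw [hm] at h2 ⊢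
  by_contra h0
  have h4 := TD.Rt_ray hG hT (D.lieg_rt i) ⟨smul_ne_zero (by omega) h3, _, h2, h0, h1 (m + 1)⟩
    ⟨1, m + 1 + 1, one_pos, by omega, one_smul _ _⟩
  rw [succ_nsmul, add_eq_right] at h4
  exact smul_ne_zero (by omega) h3 h4

theorem x_mem (i : D.ι) (c : k) : D.x i c ∈ G := GP_le (((D.rh i).mem_iff _).2 ⟨c, rfl⟩)

theorem x_mem_GX {P : Set τ.X} (hP : SGa P) {i : D.ι} (h : D.P.root i ∈ P) (c : k) :
    D.x i c ∈ τ.GX G P := (D.rh i).mem_GX τ hP h c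

theorem x_mem_iff {H : Subgroup (Gl n k)} (hG : Red G) (hT : MaxTor G T)
    (hH : Closed (OG k n) (H : Set (Gl n k))) (hTH : Nm T H) (hHG : H ≤ G) (i : D.ι) :
    (∀ c, D.x i c ∈ H) ↔ D.e i ∈ lie H := by
  refine ⟨fun h => ?_, fun h c => ?_⟩
  · obtain ⟨N, E, hN, h0, h1, -, h2⟩ := (D.rh i).poly
    exact h1 ▸ mem_lie_of_curve hN h0 infinite_univ fun c _ => ⟨_, h c, h2 c⟩
  · have hn : Nm T G := .of_le hT.1.1
    have hP := sga_ray (D.P.root i)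
    have h1 : ∀ x ∈ ray (D.P.root i), 0 < x ⬝ᵥ D.P.root i := fun x hx => ray_dot_pos hx
      ((Finset.sum_nonneg fun _ _ => mul_self_nonneg _).lt_of_ne'
        (dotProduct_self_eq_zero.not.2 (D.lieg_rt i).1))
    refine GP_le ((τ.cc_of_le_U (τ.closed_GX hP hG.1.closed) (τ.nm_GX hP hn)
      (τ.GX_mono le_rfl h1)).le_of_lie (τ.closed_GX hP hH) (τ.GX_mono hHG Subset.rfl)
      (fun A hA => ?_) (((D.rh i).mem_iff _).2 ⟨c, rfl⟩))
    obtain ⟨h2, h3⟩ := (τ.mem_lie_GX hG.1.closed hn hP).1 hA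
    refine (τ.mem_lie_GX hH hTH hP).2 ⟨Submodule.span_le (p := (lie H).toSubmodule).2 ?_
      (D.lieg_span hn le_rfl (fun e => by simpa using h1 0 e) h2 h3), h3⟩
    rintro _ ⟨j, ⟨h4, -⟩, rfl⟩
    rwa [D.P.root.injective (TD.Rt_ray hG hT (D.lieg_rt i) (D.lieg_rt j) h4)]

theorem prod_U (hG : Red G) (hT : MaxTor G T) {P : Set τ.X} (hP : SGa P) {y : τ.X}
    (hy : ∀ x ∈ P, 0 < x ⬝ᵥ y) (L : List D.ι) (hL : L.Nodup) (hL' : ∀ i, i ∈ L ↔ D.P.root i ∈ P) :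
    (∀ g, g ∈ τ.GX G P ↔ ∃ c : D.ι → k, g = (L.map fun i => D.x i (c i)).prod) ∧
      ∀ c d : D.ι → k, (L.map fun i => D.x i (c i)).prod = (L.map fun i => D.x i (d i)).prod →
        ∀ i ∈ L, c i = d i := by
  classical
  have hn : Nm T G := .of_le hT.1.1
  obtain ⟨L', e⟩ : ∃ L' : List {i // D.P.root i ∈ P}, L'.map Subtype.val = L :=
    ⟨L.attachWith _ fun i hi => (hL' i).1 hi, List.attachWith_map_subtype_val _⟩
  subst e
  have h := τ.prod_bij hG.1.closed hn hP hy (I := {i // D.P.root i ∈ P})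
    (D.P.root.injective.comp Subtype.val_injective) (fun a => a.2) (fun a => D.rh a.1)
    (fun A h1 h2 => Submodule.span_mono (by rintro _ ⟨i, hi, rfl⟩; exact ⟨⟨i, hi.1⟩, rfl⟩)
      (D.lieg_span hn le_rfl (fun e => by simpa using hy 0 e) h1 h2)) L' (hL.of_map _)
    fun a => (List.mem_map_of_injective Subtype.val_injective).1 ((hL' a).2 a.2)
  simp only [List.map_map, Function.comp_def]
  refine ⟨fun g => ⟨fun hg => ?_, ?_⟩, fun c d e i hi => ?_⟩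
  · obtain ⟨c, -, rfl⟩ := h.surjOn hg
    exact ⟨Function.extend Subtype.val c 0, by simp only [Subtype.val_injective.extend_apply]⟩
  · rintro ⟨c, rfl⟩
    exact h.mapsTo (mem_univ fun a : {i // D.P.root i ∈ P} => c a.1)
  · exact congrFun (h.injOn (mem_univ fun a : {i // D.P.root i ∈ P} => c a.1)
      (mem_univ fun a : {i // D.P.root i ∈ P} => d a.1) e) ⟨i, (hL' i).1 hi⟩

theorem GX_le (hG : Red G) (hT : MaxTor G T) {P : Set τ.X} (hP : SGa P) {y : τ.X}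
    (hy : ∀ x ∈ P, 0 < x ⬝ᵥ y) {H : Subgroup (Gl n k)}
    (h : ∀ i, D.P.root i ∈ P → ∀ c, D.x i c ∈ H) : τ.GX G P ≤ H := by
  classical
  intro g hg
  obtain ⟨c, rfl⟩ := ((D.prod_U hG hT hP hy (Finset.univ.filter fun i => D.P.root i ∈ P).toList
    (Finset.nodup_toList _) (by simp)).1 g).1 hg
  exact H.list_prod_mem (List.forall_mem_map.2 fun i hi => h i (by simpa using hi) _)

theorem le_of_gen (hG : Red G) (hT : MaxTor G T) {H : Subgroup (Gl n k)} (h : T ≤ H)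
    (h' : ∀ i c, D.x i c ∈ H) : G ≤ H := by
  obtain ⟨y, hy, -⟩ := τ.exists_rg finite_empty 0
  exact τ.le_of_cell hG.1 (.of_le hT.1.1) y
    (D.GX_le hG hT (sga_pos _) (fun _ h => h) fun i _ => h' i)
    ((D.lieg_Z hG hT (D.lieg_rg hy)).le.trans h)
    (D.GX_le hG hT (sga_pos _) (fun _ h => h) fun i _ => h' i)

theorem borel_U (hG : Red G) (hT : MaxTor G T) {y : τ.X} (hy : ∀ i, D.P.root i ⬝ᵥ y ≠ 0) :
    Borel G (T ⊔ τ.U G y) := by
  refine ⟨⟨sup_le hT.1.1 GP_le, τ.cc_sup_U hG.1.closed hT.1.1 y⟩, fun B ⟨h1, h2, h3⟩ h4 => ?_⟩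
  have hn : Nm T B := .of_le (le_sup_left.trans h4)
  refine τ.le_of_cell h2 hn y (((τ.cc_U h2.closed hn _).eq_bot_of_lie
    (eq_bot_iff.2 fun A hA => ?_)).le.trans bot_le)
    ((τ.GX_mono h1 Subset.rfl).trans ((D.lieg_Z hG hT hy).le.trans le_sup_left))
    ((τ.GX_mono h1 Subset.rfl).trans le_sup_right)
  obtain ⟨h5, h6⟩ := (τ.mem_lie_GX h2.closed hn (sga_pos _)).1 hA
  refine Submodule.span_le (p := ⊥).2 ?_ (D.lieg_span hn h1 (by simp) h5 h6)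
  rintro _ ⟨j, ⟨h7, h8⟩, rfl⟩
  obtain ⟨U, hU, -⟩ := exists_unipPart h2 h3
  have h9 : ⊤ ≤ U.comap (D.φ j) := by
    rw [← closure_up_lo, Subgroup.closure_le]
    rintro _ (⟨c, rfl⟩ | ⟨c, rfl⟩)
    · exact (hU _).2 (D.φ_up j c ▸ ⟨(D.x_mem_iff hG hT h2.closed hn h1 j).2 h8 c,
        τ.unip_GX (sga_pos _) (by simp) (D.x_mem_GX (sga_pos (-y)) h7 c)⟩)
    · have := D.x_mem_GX (sga_pos y) (i := D.P.reflectionPerm j j) (by simpa using h7) c
      exact (hU _).2 (D.φ_lo j c ▸ ⟨h4 (Subgroup.mem_sup_right this),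
        τ.unip_GX (sga_pos _) (by simp) this⟩)
  have h10 : D.P.coroot j = 0 := τ.co_inj (funext fun a => by
    rw [τ.co_zero]
    exact (τ.dg.ss (τ.co_mem _ a)).eq_one
      (D.φ_di j a ▸ ((hU _).1 (h9 (Subgroup.mem_top (di a)))).2))
  simpa [h10] using D.P.root_coroot_two j

theorem exists_of_borel (hG : Red G) (hT : MaxTor G T) (hB : Borel G B) (hTB : T ≤ B) :
    ∃ y : τ.X, (∀ i, D.P.root i ⬝ᵥ y ≠ 0) ∧ B = T ⊔ τ.U G y := by
  obtain ⟨y, hy, -⟩ := τ.exists_rg finite_empty 0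
  obtain ⟨g, hg, e⟩ := (D.borel_U hG hT (D.lieg_rg hy)).exists_cj hG.1 hB
  have h1 := hT.conjg g
  rw [cj_eq_self hg] at h1
  obtain ⟨b, hb, e'⟩ := (h1.of_le (e ▸ cj_mono g le_sup_left) hB.1.1).exists_cj hB.1.2.1
    (hT.of_le hTB hB.1.1)
  rw [cj_cj] at e'
  obtain ⟨a, a', h2⟩ := τ.exists_act_of_cj e'.symm
  refine ⟨a' y, D.lieg_rg (h2.rg hy),
    hB.eq_of_le (D.borel_U hG hT (D.lieg_rg (h2.rg hy))).1 ?_⟩
  rw [← cj_eq_self hb, e, cj_cj, cj, Subgroup.map_sup]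
  refine sup_le_sup e'.ge ?_
  rintro _ ⟨u, hu, rfl⟩
  refine τ.GX_mono le_rfl ?_ (h2.conj_GX τ (G.mul_mem (hB.1.1 hb) hg) (sga_pos y) hu)
  rintro _ ⟨x, hx, rfl⟩
  exact lt_of_lt_of_eq hx (h2.dot x y).symm

end Pn

end Pool.Agent.AG
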