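import Pool.Agent.Lib.AG.Top

/-! The cells of a closed orbit and the argument of Luna. -/

namespace Pool.Agent.AG

open Set Matrix

universe u

variable {k : Type u} [Field k] [IsAlgClosed k] [Fact (ringChar k).Prime] {n : ℕ}
  {G N T : Subgroup (Gl n k)} (τ : TD T) {V : Type u} [AddCommGroup V] [Module k V]
  [FiniteDimensional k V] {ρ : Gl n k → Module.End k V}

namespace TD

private theorem luna_ind (hρ : IsRep T ρ) {V' : Type u} [AddCommGroup V'] [Module k V']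
    {f g : V →ₗ[k] V'} (h : ∀ x, ∀ v ∈ τ.w ρ x, f v = g v) : f = g := by
  ext v
  have : v ∈ LinearMap.eqLocus f g :=
    (τ.iSup_w hρ).ge.trans (iSup_le fun x v hv => h x v hv) Submodule.mem_top
  exact this

private theorem luna_homog {H : Subgroup (Gl n k)} (hH : Closed (OG k n) (H : Set (Gl n k)))
    (hu : ∀ u ∈ H, Unip u) (hρ : IsRep H ρ) {l : Module.Dual k V}
    (hl : ∀ u ∈ H, ∀ v, l (ρ u v) = l v) {v : V} (h0 : l v ≠ 0) :
    Closed (OV k V) {w | l w = 0 ∨ w ∈ orbC H ρ v} := by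
  convert closed_homog (closed_orbit_unip hH hu hρ ((l v)⁻¹ • v)) l ?_ using 3 with w
  · refine or_congr_right ⟨?_, ?_⟩
    · rintro ⟨a, u, hu, rfl⟩
      exact ⟨a * l v, _, ⟨u, hu, rfl⟩, by rw [map_smul, smul_smul, mul_inv_cancel_right₀ h0]⟩
    · rintro ⟨a, _, ⟨u, hu, rfl⟩, rfl⟩
      exact ⟨a * (l v)⁻¹, u, hu, by rw [map_smul, smul_smul]⟩
  · rintro _ ⟨u, hu, rfl⟩
    rw [hl u hu, map_smul, smul_eq_mul, inv_mul_cancel₀ h0]

theorem cell (hG : CC G) (hT : MaxTor G T) (hρ : IsRep G ρ) (hs : Simp G ρ) {y x₀ : τ.X}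
    (hy : τ.Rg y) (h : τ.Top ρ y x₀) {v w : V} (hv : v ∈ τ.w ρ x₀) {l : Module.Dual k V}
    (hl : τ.IsCo ρ x₀ l) (hw : w ∈ orbC G ρ v) (h0 : l w ≠ 0) :
    ∃ a : k, ∃ u ∈ τ.U G (-y), w = a • ρ u v := by
  have hTG : T ≤ G := hT.1.1
  obtain ⟨a, g, hg, rfl⟩ := hw
  obtain ⟨v₀, -, -, -, e⟩ := Ext.line τ ⟨y, hy, h⟩ hG hT hρ hs
  obtain ⟨c, hc⟩ := Submodule.mem_span_singleton.1 (e ▸ hv)
  have c0 : c ≠ 0 := fun e => h0 (by simp [← hc, e])
  have e' : ∀ z ∈ τ.w ρ x₀, ∃ b : k, z = b • v := fun z hz => by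
    obtain ⟨b, rfl⟩ := Submodule.mem_span_singleton.1 (e ▸ hz)
    exact ⟨b * c⁻¹, by rw [← hc, smul_smul, inv_mul_cancel_right₀ c0]⟩
  have h1 : l v ≠ 0 := fun h1 => hl.1 (τ.luna_ind (hρ.mono hTG) fun x z hz => by
    by_cases hx : x = x₀
    · obtain ⟨b, rfl⟩ := e' z (hx ▸ hz)
      simp [h1]
    · exact hl.2 x hx z hz)
  have h2 := luna_homog (τ.closed_GX (sga_pos (-y)) hG.closed)
    (fun u hu => τ.unip_GX (sga_pos (-y)) (by simp) hu) (hρ.mono GP_le)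
    (fun u hu => h.fix_co τ hTG hρ hu hl) h1
  have h3 := τ.subset_of_cell hG (.of_le hTG) y ((hρ.mapOn v).relCl h2) (fun a ha b hb c hc => by
    have hb' := τ.mem_GX_zero.1 (τ.Z_eq_of_rg (G := G) hy ▸ hb)
    obtain ⟨d, hd⟩ := e' _ ((act_of_comm fun t ht => (hb'.2 t ht).symm).map_w hρ hTG hb'.1 hv)
    refine .inr ⟨d, a, ha, ?_⟩
    change ρ (a * b * c) v = _
    rw [hρ.mul_apply (G.mul_mem (GP_le ha) hb'.1) (GP_le hc), h.fix τ hTG hρ hc hv,
      hρ.mul_apply (GP_le ha) hb'.1, hd, map_smul]) hg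
  obtain ⟨d, u, hu, h4⟩ := h3.resolve_left fun h4 : l (ρ g v) = 0 => h0 (by simp [h4])
  exact ⟨a * d, u, hu, by rw [mul_smul, ← h4]⟩

theorem luna (hG : CC G) (hT : MaxTor G T) (hρ : IsRep G ρ) (hs : Simp G ρ) (hN : CC N)
    (hNG : N ≤ G) (hu : ∀ u ∈ N, Unip u)
    (h : ∀ x l, τ.Ext ρ x → τ.IsCo ρ x l → ∀ u ∈ N, ∀ v, l (ρ u v) = l v) :
    ∀ u ∈ N, ρ u = 1 := by
  obtain ⟨y, hy, -⟩ := τ.exists_rg finite_empty 0
  obtain ⟨x₀, h0, v, hv0, e⟩ := τ.exists_top hG hT hρ hs hy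
  have hx : τ.Ext ρ x₀ := ⟨y, hy, h0⟩
  have hv : v ∈ τ.w ρ x₀ := e ▸ Submodule.mem_span_singleton_self v
  have hX := cone_orbC hρ (hx.closed_orbC τ hG hT hρ hs hv)
  have hρ' := hρ.mono hNG
  have co : ∀ w ∈ orbC G ρ v, w ≠ 0 → ∃ l : Module.Dual k V, l w ≠ 0 ∧
      ∀ u ∈ N, ∀ z, l (ρ u z) = l z := fun w hw w0 => by
    obtain ⟨x, h1, h2⟩ := hx.exists_co τ hG hT hρ hs hv hw w0
    obtain ⟨-, l, -, h3, -⟩ := h1.line τ hG hT hρ hs
    exact ⟨l, h2 l h3, h x l h1 h3⟩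
  have self : ∀ (H : Subgroup (Gl n k)) (w : V), w ∈ orbC H ρ w := fun H w =>
    ⟨1, 1, H.one_mem, by simp [hρ.one]⟩
  refine fun u hu' => LinearMap.ext_on (hs.span_eq_top hX.2.2 ⟨v, self G v, hv0⟩) fun w hw => ?_
  rcases eq_or_ne w 0 with rfl | w0
  · simp
  obtain ⟨l, l0, hl⟩ := co w hw w0
  have hC : Cone N ρ (clo (OV k V) (orbC N ρ w)) := cone_clo hρ'
    (by rintro a _ ⟨b, g, hg, rfl⟩; exact ⟨a * b, g, hg, smul_smul _ _ _⟩)
    (by
      rintro g' hg' _ ⟨b, g, hg, rfl⟩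
      exact ⟨b, g' * g, N.mul_mem hg' hg, by rw [map_smul, hρ'.mul_apply hg' hg]⟩)
  obtain ⟨a, ha⟩ := fixed_of_cone hN.irr hρ' hC l (fun z hz lz => by_contra fun z0 => by
    obtain ⟨l', l0', hl'⟩ := co z (clo_min (by
      rintro _ ⟨b, g, hg, rfl⟩
      exact hX.2.1 _ _ (hX.2.2 g (hNG hg) w hw)) hX.1 hz) z0
    have h1 : l' w ≠ 0 := fun h1 => l0' (hz l' (dual_mem_OV l') (by
      rintro _ ⟨b, g, hg, rfl⟩
      rw [map_smul, hl' g hg, h1, smul_zero]))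
    obtain ⟨b, g, hg, rfl⟩ := (clo_min (fun _ h => Or.inr h)
      (luna_homog hN.closed hu hρ' hl' h1) hz).resolve_left l0'
    rw [map_smul, hl g hg, smul_eq_mul, mul_eq_zero_iff_right l0] at lz
    exact z0 (by rw [lz, zero_smul])) (subset_clo (self N w)) u hu'
  exact hρ'.eq_of_unip hu' (hu u hu') ha

omit [FiniteDimensional k V] in
private theorem luna_dual {x : τ.X} {l : Module.Dual k V} (hl : l ∈ τ.w (dualRep ρ) x) (t : T)
    (v : V) : l (ρ t.1 v) = (τ.χ (-x) t : k) * l v := by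
  have := LinearMap.congr_fun (hl t⁻¹) v
  rw [τ.χ_neg]
  simpa [dualRep] using this

omit [FiniteDimensional k V] in
private theorem luna_pair {x x' : τ.X} {l : Module.Dual k V} (hl : l ∈ τ.w (dualRep ρ) x) {v : V}
    (hv : v ∈ τ.w ρ x') (h : x' ≠ -x) : l v = 0 := by
  by_contra h0
  refine h (τ.χ_inj (MonoidHom.ext fun t => Units.ext (mul_right_cancel₀ h0 ?_)))
  rw [← τ.luna_dual hl, hv t, map_smul, smul_eq_mul]

theorem ext_dual (hT : T ≤ G) (hρ : IsRep G ρ) {x : τ.X} (h : τ.Ext (dualRep ρ) x) :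
    τ.Ext ρ (-x) := by
  obtain ⟨y, hy, h1, h2⟩ := h
  refine ⟨-y, hy.neg, fun e => h1 ?_, fun x' h3 h4 => ?_⟩
  · refine (Submodule.eq_bot_iff _).2 fun l hl => τ.luna_ind (hρ.mono hT) fun x' v hv => ?_
    by_cases hx : x' = -x
    · rw [hx, e, Submodule.mem_bot] at hv
      simp [hv]
    · exact τ.luna_pair hl hv hx
  · have := h2 (-x') (fun e => h3 ((Submodule.eq_bot_iff _).2 fun v hv => ?_))
      fun e => h4 (by rw [← e, neg_neg])
    · simpa using this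
    · refine (Module.forall_dual_apply_eq_zero_iff k v).1 fun l => LinearMap.congr_fun
        (τ.luna_ind (hρ.mono hT).dual (f := Module.Dual.eval k V v) (g := 0) fun z l hl => ?_) l
      by_cases hx : x' = -z
      · rw [hx, neg_neg] at e
        rw [e, Submodule.mem_bot] at hl
        simp [hl]
      · exact τ.luna_pair hl hv hx

theorem luna' (hG : CC G) (hT : MaxTor G T) (hρ : IsRep G ρ) (hs : Simp G ρ) (hN : CC N)
    (hNG : N ≤ G) (hu : ∀ u ∈ N, Unip u)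
    (h : ∀ x, τ.Ext ρ x → ∀ v ∈ τ.w ρ x, ∀ u ∈ N, ρ u v = v) : ∀ u ∈ N, ρ u = 1 := by
  have h1 := τ.luna hG hT hρ.dual (hs.dual hρ) hN hNG hu fun x L hx hL u hu' l => by
    obtain ⟨v, rfl⟩ := (Module.evalEquiv k V).surjective L
    have hv : v ∈ τ.w ρ (-x) := fun t => sub_eq_zero.1 <|
      (Module.forall_dual_apply_eq_zero_iff k _).1 fun l => LinearMap.congr_fun
        (τ.luna_ind (hρ.mono hT.1.1).dual
          (f := Module.Dual.eval k V (ρ t.1 v - (τ.χ (-x) t : k) • v)) (g := 0) fun z l hl => by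
          rw [Module.Dual.eval_apply, map_sub, τ.luna_dual hl, map_smul, smul_eq_mul]
          by_cases hz : z = x
          · simp [hz]
          · have : l v = 0 := hL.2 z hz l hl
            simp [this]) l
    exact congrArg l (h _ (τ.ext_dual hT.1.1 hρ hx) v hv _ (N.inv_mem hu'))
  refine fun u hu' => LinearMap.ext fun v => sub_eq_zero.1 <|
    (Module.forall_dual_apply_eq_zero_iff k _).1 fun l => ?_
  have := LinearMap.congr_fun (LinearMap.congr_fun (h1 _ (N.inv_mem hu')) l) v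
  rw [map_sub, sub_eq_zero]
  simpa [dualRep] using this

end TD

end Pool.Agent.AG
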