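import Pool.Agent.Lib.AG.Sl2c

/-! The root datum of a reductive group. -/

namespace Pool.Agent.AG

open Set Matrix

attribute [local instance 100] LieRing.ofAssociativeRing

universe u

variable {k : Type u} [Field k] [IsAlgClosed k] [Fact (ringChar k).Prime] {n : ℕ}
  {G T : Subgroup (Gl n k)} (τ : TD T)

/-- Compatible rank one data for all roots. -/
private theorem pnex_data (hG : Red G) (hT : MaxTor G T) :
    ∃ (cv : τ.X → τ.X) (x : τ.X → k → Gl n k) (e : τ.X → Mt n k)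
      (φ : τ.X → SpecialLinearGroup (Fin 2) k →* Gl n k),
      ∀ α ∈ τ.Rt G, τ.S2 G α (cv α) (x α) (x (-α)) (e α) (e (-α)) (φ α) := by
  classical
  choose! cv x y e f φ h using fun α (hα : α ∈ τ.Rt G) => TD.exists_S2 hG hT hα
  choose! φ' h' using fun α (hα : α ∈ τ.Rt G) => (h α hα).symm
  obtain ⟨y₀, hy, -⟩ := exists_refine (τ.finite_Rt G) 0
  refine ⟨fun α => if 0 < α ⬝ᵥ y₀ then cv α else -cv (-α),
    fun α => if 0 < α ⬝ᵥ y₀ then x α else y (-α),
    fun α => if 0 < α ⬝ᵥ y₀ then e α else f (-α),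
    fun α => if 0 < α ⬝ᵥ y₀ then φ α else φ' (-α), fun α hα => ?_⟩
  have h0 := hy α hα hα.1
  by_cases hp : 0 < α ⬝ᵥ y₀
  · have hn : ¬ 0 < (-α) ⬝ᵥ y₀ := by
      rw [neg_dotProduct]
      omega
    simp only [if_pos hp, if_neg hn, neg_neg]
    exact h α hα
  · have hn : 0 < (-α) ⬝ᵥ y₀ := by
      rw [neg_dotProduct]
      omega
    simp only [if_neg hp, if_pos hn]
    have h2 := h' (-α) (TD.neg_mem_Rt hG hT hα)
    rwa [neg_neg] at h2

private theorem pnex_perf (r : ℕ) :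
    (dotProductBilin ℤ ℤ : (Fin r → ℤ) →ₗ[ℤ] (Fin r → ℤ) →ₗ[ℤ] ℤ).IsPerfPair :=
  LinearMap.IsPerfPair.of_bijective _ (dotProductEquiv ℤ (Fin r)).bijective

variable {τ} in
private theorem pnex_co {g g' g'' : Gl n k} {a a' b b' c c' : τ.X ≃+ τ.X} {β u v : τ.X}
    (ha : τ.Act g a a') (hb : τ.Act g' b b') (hc : τ.Act g'' c c') (h0 : a β ≠ 0)
    (h1 : β ⬝ᵥ u = 2) (h2 : a β ⬝ᵥ v = 2) (e1 : ∀ z, b z = z - (z ⬝ᵥ u) • β)
    (e2 : ∀ z, c z = z - (z ⬝ᵥ v) • a β) : a' u = v := by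
  refine TD.coroot_unique ((ha.mul hb).mul ha.inv) hc h0 ((ha.dot β u).trans h1) h2
    (fun z => ?_) e2
  have h3 := ha.dot (a.symm z) u
  rw [AddEquiv.apply_symm_apply] at h3
  rw [AddEquiv.trans_apply, AddEquiv.trans_apply, e1, map_sub, map_zsmul,
    AddEquiv.apply_symm_apply, h3]

variable {τ} in
private theorem pnex_red (hG : Red G) (hT : MaxTor G T) {α β : τ.X} (hα : α ∈ τ.Rt G)
    (hβ : β ∈ τ.Rt G) (h : ¬ LinearIndependent ℤ ![α, β]) : α = β ∨ α = -β := by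
  rw [LinearIndependent.pair_iff] at h
  push Not at h
  obtain ⟨s, t, hst, hne⟩ := h
  have hs : s ≠ 0 := by
    rintro rfl
    rw [zero_smul, zero_add] at hst
    exact hβ.1 ((smul_eq_zero.1 hst).resolve_left (hne rfl))
  have hl : α ∈ line β := mem_line_of_dot fun y hy => by
    have h2 := congrArg (· ⬝ᵥ y) hst
    simp only [add_dotProduct, smul_dotProduct, hy, smul_eq_mul, mul_zero, add_zero,
      zero_dotProduct] at h2
    exact (mul_eq_zero.1 h2).resolve_left hs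
  rcases (mem_line_iff hβ.1).1 hl with h0 | h1 | h1
  · exact absurd h0 hα.1
  · exact .inl (TD.Rt_ray hG hT hβ hα h1)
  · exact .inr (TD.Rt_ray hG hT (TD.neg_mem_Rt hG hT hβ) hα h1)

variable {τ} in
private theorem pnex_dim (hG : Red G) (hT : MaxTor G T) {α : τ.X} (hα : α ∈ τ.Rt G)
    {x : k → Gl n k} {e : Mt n k} (h : τ.RH G α x e) {A : Mt n k} (hA : A ∈ lie G)
    (hw : A ∈ τ.w Ad α) : ∃ c : k, A = c • e := by
  obtain ⟨e₀, -, -, -, h0⟩ := TD.root_dim hG hT hα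
  have hM : ∀ B ∈ τ.w Ad α, B ∈ τ.M (ray α) := fun B hB => by
    rw [τ.M_eq]
    exact Submodule.mem_iSup_of_mem α
      (Submodule.mem_iSup_of_mem ⟨1, 1, one_pos, one_pos, rfl⟩ hB)
  obtain ⟨c, hc⟩ := h0 A hA (hM A hw)
  obtain ⟨d, hd⟩ := h0 e h.mem_lie (hM e h.mem_w)
  have hd0 : d ≠ 0 := by
    rintro rfl
    exact h.ne (by rw [hd, zero_smul])
  exact ⟨c / d, by rw [hc, hd, smul_smul, div_mul_cancel₀ c hd0]⟩

theorem exists_Pn (hG : Red G) (hT : MaxTor G T) : Nonempty (Pn G τ) := by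
  obtain ⟨cv, x, e, φ, h⟩ := pnex_data τ hG hT
  have hfin : Finite (τ.Rt G) := τ.finite_Rt G
  have hperf := pnex_perf τ.r
  have inj : Function.Injective fun i : τ.Rt G => cv i.1 := fun i j hij => by
    obtain ⟨g, -, a, a', ha, e1⟩ := (h i.1 i.2).refl
    obtain ⟨g', -, b, b', hb, e2⟩ := (h j.1 j.2).refl
    have hij' : cv i.1 = cv j.1 := hij
    exact Subtype.ext (TD.root_unique ha hb (h i.1 i.2).two (hij' ▸ (h j.1 j.2).two) e1
      (hij' ▸ e2))
  let P : RootDatum (τ.Rt G) τ.X τ.X := RootPairing.mk' (dotProductBilin ℤ ℤ)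
    (Function.Embedding.subtype _) ⟨_, inj⟩ (fun i => (h i.1 i.2).two)
    (fun i => by
      rintro _ ⟨j, rfl⟩
      obtain ⟨g, hg, a, a', ha, e1⟩ := (h i.1 i.2).refl
      refine ⟨⟨a j.1, ha.map_Rt τ hg j.2⟩, ?_⟩
      rw [Module.preReflection_apply]
      exact e1 j.1)
    (fun i => by
      rintro _ ⟨j, rfl⟩
      obtain ⟨g, hg, a, a', ha, e1⟩ := (h i.1 i.2).refl
      obtain ⟨g', -, b, b', hb, e2⟩ := (h j.1 j.2).refl
      have hm := ha.map_Rt τ hg j.2
      obtain ⟨g'', -, c, c', hc, e3⟩ := (h _ hm).refl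
      refine ⟨⟨a j.1, hm⟩, ?_⟩
      rw [Module.preReflection_apply]
      exact (pnex_co ha hb hc hm.1 (h j.1 j.2).two (h _ hm).two e2 e3).symm.trans
        (ha.coreflection (h i.1 i.2).two e1 (cv j.1)))
  have hneg : ∀ i, (P.reflectionPerm i i).1 = -i.1 := fun i =>
    (P.root_reflectionPerm i i).trans (P.reflection_apply_self i)
  exact ⟨{
    ι := τ.Rt G
    fin := Fintype.ofFinite _
    P := P
    red := ⟨fun i j hij => pnex_red hG hT i.2 j.2 hij⟩
    x := fun i => x i.1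
    e := fun i => e i.1
    φ := fun i => φ i.1
    pair := fun _ _ => rfl
    range_root := Subtype.range_coe
    rh := fun i => (h i.1 i.2).rx
    dim := fun i A hA hw => pnex_dim hG hT i.2 (h i.1 i.2).rx hA hw
    φ_mem := fun i => (h i.1 i.2).φ_mem
    φ_up := fun i => (h i.1 i.2).φ_up
    φ_lo := fun i c => by
      rw [hneg i]
      exact (h i.1 i.2).φ_lo c
    φ_di := fun i => (h i.1 i.2).φ_di
    refl := fun i => (h i.1 i.2).refl
    e_neg := fun i j hij => by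
      have hij' : j.1 = -i.1 := hij
      rw [hij']
      exact (h i.1 i.2).br }⟩

end Pool.Agent.AG
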