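import Pool.Agent.Lib.AG.GXa

/-! Groups contracted by a cocharacter are affine spaces. -/

namespace Pool.Agent.AG

open Set Matrix

attribute [local instance 100] LieRing.ofAssociativeRing

universe u

section aux

variable {k : Type u} [Field k] {n : ℕ}

private theorem pos_curve {c : k → Gl n k} (hc : MapOn (OV k k) univ (OG k n) c) (h0 : c 0 = 1)
    (N : ℕ) : ∀ f ∈ mx (OG k n) 1 ^ N, ∃ q : Polynomial k, ∀ a, f.1 (c a) = a ^ N * q.eval a := by
  induction N with
  | zero =>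
    intro f _
    obtain ⟨q, hq⟩ := mem_OV_k.1 (hc f.1 f.2).mem
    exact ⟨q, fun a => by rw [pow_zero, one_mul]; exact hq a⟩
  | succ N ih =>
    intro f hf
    rw [pow_succ] at hf
    refine Submodule.mul_induction_on hf ?_ ?_
    · intro g hg m hm
      obtain ⟨q, hq⟩ := ih g hg
      obtain ⟨q', hq'⟩ := mem_OV_k.1 (hc m.1 m.2).mem
      have h1 : q'.coeff 0 = 0 := by
        rw [Polynomial.coeff_zero_eq_eval_zero, ← hq' 0, h0]
        exact mem_mx.1 hm
      obtain ⟨q'', rfl⟩ := Polynomial.X_dvd_iff.2 h1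
      refine ⟨q * q'', fun a => ?_⟩
      change g.1 (c a) * m.1 (c a) = _
      rw [hq a, hq' a]
      simp only [Polynomial.eval_mul, Polynomial.eval_X]
      ring
    · rintro g g' ⟨q, hq⟩ ⟨q', hq'⟩
      refine ⟨q + q', fun a => ?_⟩
      change g.1 (c a) + g'.1 (c a) = _
      rw [hq a, hq' a, Polynomial.eval_add, mul_add]

private theorem pos_van [Infinite k] {q : Polynomial k} {N : ℕ} {D : ℤ} (hD : D < N) {r : k}
    (h : ∀ a : kˣ, ((a ^ D : kˣ) : k) * r = (a : k) ^ N * q.eval (a : k)) : r = 0 := by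
  obtain ⟨m, hm⟩ : ∃ m : ℕ, (N : ℤ) = D + (m + 1 : ℕ) := ⟨(N - D - 1).toNat, by omega⟩
  have key : Polynomial.X ^ (m + 1) * q - Polynomial.C r = 0 := by
    refine Polynomial.eq_zero_of_infinite_isRoot _ ?_
    refine ((Set.finite_singleton (0 : k)).infinite_compl).mono fun a ha => ?_
    have ha0 : a ≠ 0 := ha
    have h1 := h (Units.mk0 a ha0)
    have h2 : a ^ N = a ^ D * a ^ (m + 1) := by
      rw [← zpow_natCast a N, hm, zpow_add₀ ha0, zpow_natCast]
    rw [Units.val_zpow_eq_zpow_val, Units.val_mk0, h2, mul_assoc] at h1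
    have h3 := mul_left_cancel₀ (zpow_ne_zero D ha0) h1
    simp [h3]
  have := congrArg (Polynomial.eval 0) key
  simpa using this

private theorem pos_ev {I : Type} (y : I → OG k n) (F : MvPolynomial I k) (g : Gl n k) :
    (MvPolynomial.aeval y F).1 g = MvPolynomial.eval (fun a => (y a).1 g) F := by
  induction F using MvPolynomial.induction_on with
  | C a => simp
  | add p q hp hq =>
    rw [map_add, map_add, ← hp, ← hq]; rfl
  | mul_X p i hp =>
    rw [map_mul, map_mul, ← hp, MvPolynomial.aeval_X, MvPolynomial.eval_X]; rfl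

private theorem pos_mono {I : Type} {y : I → OG k n} (hy : ∀ a, (y a).1 1 = 0) (d : I →₀ ℕ) (c : k)
    {N : ℕ} (hN : N ≤ d.degree) :
    MvPolynomial.aeval y (MvPolynomial.monomial d c) ∈ mx (OG k n) 1 ^ N := by
  rw [MvPolynomial.aeval_monomial]
  refine Ideal.mul_mem_left _ _ (Ideal.pow_le_pow_right hN ?_)
  rw [Finsupp.degree_apply, ← Finset.prod_pow_eq_pow_sum]
  exact Ideal.prod_mem_prod fun i _ => Ideal.pow_mem_pow (mem_mx.2 (hy i)) _

private theorem pos_unit (F : MvPolynomial Unit k) :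
    ∃ q : Polynomial k, ∀ c, MvPolynomial.eval (fun _ => c) F = q.eval c := by
  induction F using MvPolynomial.induction_on with
  | C a => exact ⟨Polynomial.C a, by simp⟩
  | add p q hp hq =>
    obtain ⟨p', hp⟩ := hp
    obtain ⟨q', hq⟩ := hq
    exact ⟨p' + q', fun c => by rw [map_add, hp, hq, Polynomial.eval_add]⟩
  | mul_X p i hp =>
    obtain ⟨p', hp⟩ := hp
    exact ⟨p' * Polynomial.X, fun c => by simp [hp]⟩

private theorem pos_coef [Infinite k] {N : ℕ} {A B : ℕ → Mt n k}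
    (h : ∀ c : k, ∑ j ∈ Finset.range N, c ^ j • A j = ∑ j ∈ Finset.range N, c ^ j • B j)
    {j : ℕ} (hj : j < N) : A j = B j := by
  ext i i'
  have key : (∑ j ∈ Finset.range N, Polynomial.monomial j (A j i i') : Polynomial k) =
      ∑ j ∈ Finset.range N, Polynomial.monomial j (B j i i') := by
    refine Polynomial.funext fun c => ?_
    have := congrFun (congrFun (h c) i) i'
    simp only [Matrix.sum_apply, Matrix.smul_apply, smul_eq_mul] at this
    simp only [Polynomial.eval_finsetSum, Polynomial.eval_monomial, mul_comm _ (c ^ _)]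
    exact this
  have := congrArg (fun p => Polynomial.coeff p j) key
  simpa [Polynomial.coeff_monomial, hj] using this

end aux

variable {k : Type u} [Field k] [IsAlgClosed k] [Fact (ringChar k).Prime] {n : ℕ}
  {G H T : Subgroup (Gl n k)} (τ : TD T)

namespace TD

variable {I : Type} [Fintype I] [DecidableEq I] {e : I → Mt n k} {wt : I → τ.X}
  {l : I → Module.Dual k (Mt n k)} {y : I → OG k n} {y₀ : τ.X}

private theorem pos_eig (hH : Closed (OG k n) (H : Set (Gl n k))) (hn : Nm T H) (hU : H ≤ τ.U G y₀)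
    (h : Chart H T e (fun a => τ.χ (wt a)) l y) (f : OG k n) {γ : T →* kˣ}
    (hf : ∀ (t : T) g, f.1 (t.1 * g * t.1⁻¹) = (γ t : k) * f.1 g) : ∃ F : MvPolynomial I k,
      ∀ u ∈ H, f.1 u = MvPolynomial.eval (fun a => l a (u.1 - 1)) F := by
  classical
  by_cases h0 : ∀ u ∈ H, f.1 u = 0
  · exact ⟨0, fun u hu => by rw [h0 u hu, map_zero]⟩
  push Not at h0
  obtain ⟨u₀, -, hu₀⟩ := h0
  have hreg : RegChar γ := by
    have h1 : RegOn (OG k n) univ fun t : Gl n k => f.1 (t * u₀ * t⁻¹) :=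
      ((MapOn.id.mul (MapOn.const u₀)).mul MapOn.id.inv) f.1 f.2
    refine ⟨_, (h1.mul (.const (f.1 u₀)⁻¹)).mem, fun t => ?_⟩
    rw [hf, mul_assoc, mul_inv_cancel₀ hu₀, mul_one]
  obtain ⟨x, rfl⟩ := τ.exists_χ hreg
  obtain ⟨N, hN⟩ : ∃ N : ℕ, x ⬝ᵥ y₀ < N := ⟨(x ⬝ᵥ y₀).natAbs + 1, by omega⟩
  obtain ⟨F, hF⟩ := h.approx f N
  have hy1 : ∀ a, (y a).1 1 = 0 := fun a => by rw [h.val]; simp
  set F₀ : MvPolynomial I k := ∑ d ∈ F.support with d.degree < N,
    MvPolynomial.monomial d (MvPolynomial.coeff d F) with hF₀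
  have hsplit : F = F₀ + ∑ d ∈ F.support with ¬ d.degree < N,
      MvPolynomial.monomial d (MvPolynomial.coeff d F) := by
    rw [hF₀, Finset.sum_filter_add_sum_filter_not]
    exact F.as_sum
  have hr : f - MvPolynomial.aeval y F₀ ∈
      mx (OG k n) 1 ^ N ⊔ van (OG k n) (H : Set (Gl n k)) := by
    have h1 : MvPolynomial.aeval y (∑ d ∈ F.support with ¬ d.degree < N,
        MvPolynomial.monomial d (MvPolynomial.coeff d F)) ∈ mx (OG k n) 1 ^ N := by
      rw [map_sum]
      exact Ideal.sum_mem _ fun d hd => pos_mono hy1 d _ (not_lt.1 (Finset.mem_filter.1 hd).2)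
    have h2 := Ideal.add_mem _ hF (Ideal.mem_sup_left h1)
    have h3 := congrArg (MvPolynomial.aeval y) hsplit
    rw [map_add] at h3
    rw [h3] at h2
    convert h2 using 1
    ring
  have heig : ∀ (t : T) g, (MvPolynomial.aeval y F₀).1 (t.1 * g * t.1⁻¹) =
      (τ.χ x t : k) * (MvPolynomial.aeval y F₀).1 g := fun t g => by
    rw [pos_ev, pos_ev, hF₀, map_sum, map_sum, Finset.mul_sum]
    refine Finset.sum_congr rfl fun d hd => ?_
    obtain ⟨hd1, hd2⟩ := Finset.mem_filter.1 hd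
    have hw := h.weight hH τ.dg hn (fun t g _ => hf t g) hF hd2 (MvPolynomial.mem_support_iff.1 hd1)
    rw [← hw, MvPolynomial.eval_monomial, MvPolynomial.eval_monomial,
      Finsupp.prod_fintype _ _ (fun _ => pow_zero _), Finsupp.prod_fintype _ _ (fun _ => pow_zero _)]
    simp only [h.eigen τ.dg, mul_pow, Finset.prod_mul_distrib, MonoidHom.finsetProd_apply,
      MonoidHom.pow_apply, Units.coe_prod, Units.val_pow_eq_pow_val]
    ring
  refine ⟨F₀, fun u hu => ?_⟩
  obtain ⟨c, hc, hc0, hca⟩ := τ.exists_curve (hU hu)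
  obtain ⟨r₁, hr₁, r₂, hr₂, hr'⟩ := Submodule.mem_sup.1 hr
  obtain ⟨q, hq⟩ := pos_curve hc hc0 N r₁ hr₁
  have hz : f.1 u - (MvPolynomial.aeval y F₀).1 u = 0 := by
    refine pos_van (q := q) hN fun a => ?_
    have h1 := hf ⟨_, τ.co_mem y₀ a⟩ u
    have h2 := heig ⟨_, τ.co_mem y₀ a⟩ u
    rw [τ.pair] at h1 h2
    have h3 : r₂.1 (c a) = 0 := hr₂ _ (by rw [hca]; exact hn _ (τ.co_mem y₀ a) u hu)
    have h4 : r₁.1 (c a) + r₂.1 (c a) = f.1 (c a) - (MvPolynomial.aeval y F₀).1 (c a) :=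
      congrArg (fun z : OG k n => z.1 (c a)) hr'
    rw [← hq, mul_sub, ← h1, ← h2, ← hca, ← h4, h3, add_zero]
  rw [sub_eq_zero.1 hz, pos_ev]
  simp only [h.val]

theorem pos_poly (hH : Closed (OG k n) (H : Set (Gl n k))) (hn : Nm T H) (hU : H ≤ τ.U G y₀)
    (h : Chart H T e (fun a => τ.χ (wt a)) l y) {f : Gl n k → k}
    (hf : RegOn (OG k n) (H : Set (Gl n k)) f) : ∃ F : MvPolynomial I k,
      ∀ u ∈ H, f u = MvPolynomial.eval (fun a => l a (u.1 - 1)) F := by
  obtain ⟨f₀, hf₀, hf⟩ := hf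
  obtain ⟨c, hc, hs⟩ := τ.dg.exists_eigen ⟨f₀, hf₀⟩
  choose F hF using fun γ => pos_eig τ hH hn hU h (c γ) (hc γ)
  refine ⟨∑ γ ∈ c.support, F γ, fun u hu => ?_⟩
  have h1 : (∑ γ ∈ c.support, c γ).1 u = f₀ u := congrArg (fun z : OG k n => z.1 u) hs
  rw [← hf u hu, ← h1, map_sum, AddSubmonoidClass.coe_finsetSum, Finset.sum_apply]
  exact Finset.sum_congr rfl fun γ _ => hF γ u hu

theorem pos_bij (hH : Closed (OG k n) (H : Set (Gl n k))) (hn : Nm T H) (hU : H ≤ τ.U G y₀)
    (h : Chart H T e (fun a => τ.χ (wt a)) l y) :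
    BijOn (fun (u : Gl n k) (a : I) => l a (u.1 - 1)) (H : Set (Gl n k)) univ := by
  refine ⟨mapsTo_univ _ _, fun u hu u' hu' huu => ?_, fun c _ => ?_⟩
  · ext i j
    obtain ⟨F, hF⟩ := τ.pos_poly hH hn hU h (RegOn.of_mem (entry_mem_OG i j))
    have h1 := hF u hu
    have h2 := hF u' hu'
    have h3 : (fun a => l a (u.1 - 1)) = fun a => l a (u'.1 - 1) := huu
    rw [h3] at h1
    exact h1.trans h2.symm
  · choose Fo hFo using fun f : OG k n => τ.pos_poly hH hn hU h (RegOn.of_mem f.2)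
    have huniq : ∀ (f : OG k n) (F : MvPolynomial I k),
        (∀ u ∈ H, f.1 u = MvPolynomial.eval (fun a => l a (u.1 - 1)) F) → Fo f = F := by
      intro f F hF
      rw [← sub_eq_zero]
      ext d
      refine h.coeff_eq_zero hH (N := d.degree + 1) (Ideal.mem_sup_right fun u hu => ?_)
        (Nat.lt_succ_self _)
      rw [pos_ev, map_sub]
      simp only [h.val]
      rw [← hFo f u hu, ← hF u hu, sub_self]
    let φ : OG k n →ₐ[k] k :=
      { toFun := fun f => MvPolynomial.eval c (Fo f)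
        map_one' := by rw [huniq 1 1 fun u _ => by rw [map_one]; rfl, map_one]
        map_mul' := fun f g => by
          rw [huniq (f * g) (Fo f * Fo g) fun u hu => by
            rw [map_mul, ← hFo f u hu, ← hFo g u hu]; rfl, map_mul]
        map_zero' := by rw [huniq 0 0 fun u _ => by rw [map_zero]; rfl, map_zero]
        map_add' := fun f g => by
          rw [huniq (f + g) (Fo f + Fo g) fun u hu => by
            rw [map_add, ← hFo f u hu, ← hFo g u hu]; rfl, map_add]
        commutes' := fun a => by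
          rw [huniq (algebraMap k _ a) (MvPolynomial.C a) fun u _ => by
            rw [MvPolynomial.eval_C]; rfl, MvPolynomial.eval_C]; rfl }
    obtain ⟨x, hx, hφ⟩ := aff_OG.pt_of hH φ fun f hf => by
      change MvPolynomial.eval c (Fo f) = 0
      rw [huniq f 0 fun u hu => by rw [map_zero]; exact hf u hu, map_zero]
    refine ⟨x, hx, funext fun a => ?_⟩
    have h1 : MvPolynomial.eval c (Fo (y a)) = (y a).1 x := hφ (y a)
    rw [huniq (y a) (MvPolynomial.X a) fun u _ => by rw [MvPolynomial.eval_X, h.val],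
      MvPolynomial.eval_X, h.val] at h1
    exact h1.symm

private theorem pos_nsmul (j : ℕ) (α : τ.X) (t : T) :
    (τ.χ (j • α) t : k) = (τ.χ α t : k) ^ j := by
  induction j with
  | zero => rw [zero_nsmul, τ.χ_zero, pow_zero]; rfl
  | succ j ih => rw [succ_nsmul, τ.χ_add, MonoidHom.mul_apply, Units.val_mul, ih, pow_succ]

/-- Root homomorphisms. -/
theorem exists_RH (hG : Closed (OG k n) (G : Set (Gl n k))) (hn : Nm T G) {α : τ.X} (hα : α ≠ 0)
    {e : Mt n k} (he : e ≠ 0) (hl : e ∈ lie G) (hw : e ∈ τ.w Ad α)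
    (h : ∀ A ∈ lie G, A ∈ τ.M (ray α) → ∃ c : k, A = c • e) : ∃ x, τ.RH G α x e := by
  classical
  have hP := sga_ray α
  have hH := τ.closed_GX hP hG
  have hnH := τ.nm_GX hP hn
  have hαα : 0 < α ⬝ᵥ α := lt_of_le_of_ne (Finset.sum_nonneg fun i _ => mul_self_nonneg _)
    fun e => hα (dotProduct_self_eq_zero.1 e.symm)
  have hU : τ.GX G (ray α) ≤ τ.U G α := τ.GX_mono le_rfl fun x hx => ray_dot_pos hx hαα
  have hαr : α ∈ ray α := ⟨1, 1, one_pos, one_pos, rfl⟩
  have heM : e ∈ τ.M (ray α) := by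
    rw [τ.M_eq]
    exact Submodule.mem_iSup_of_mem α (Submodule.mem_iSup_of_mem hαr hw)
  obtain ⟨l, y, hch⟩ := exists_chart (G := τ.GX G (ray α)) (I := Unit) (e := fun _ => e)
    (wt := fun _ => τ.χ α) τ.dg (linearIndependent_unique_iff.2 he) (by
      ext A
      rw [Set.range_const, Submodule.mem_span_singleton, LieSubalgebra.mem_toSubmodule,
        τ.mem_lie_GX hG hn hP]
      constructor
      · rintro ⟨c, rfl⟩
        exact ⟨(lie G).smul_mem c hl, Submodule.smul_mem _ c heM⟩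
      · rintro ⟨h1, h2⟩
        obtain ⟨c, hc⟩ := h A h1 h2
        exact ⟨c, hc.symm⟩) fun _ => hw
  have hb := τ.pos_bij (wt := fun _ => α) hH hnH hU hch
  have hex : ∀ c : k, ∃ u ∈ τ.GX G (ray α), l () (u.1 - 1) = c := fun c => by
    obtain ⟨u, hu, h1⟩ := hb.surjOn (mem_univ fun _ => c)
    exact ⟨u, hu, congrFun h1 ()⟩
  choose x hx hlx using hex
  have hinj : ∀ u ∈ τ.GX G (ray α), ∀ c, l () (u.1 - 1) = c → u = x c := fun u hu c hc =>
    hb.injOn hu (hx c) (funext fun _ => hc.trans (hlx c).symm)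
  have hq : ∀ i j, ∃ q : Polynomial k, ∀ c, (x c).1 i j = q.eval c := fun i j => by
    obtain ⟨F, hF⟩ := τ.pos_poly (wt := fun _ => α) hH hnH hU hch (RegOn.of_mem (entry_mem_OG i j))
    obtain ⟨q, hq⟩ := pos_unit F
    refine ⟨q, fun c => ?_⟩
    rw [← hq, ← hlx c]
    rw [hlx c]
    have := hF (x c) (hx c)
    simpa only [hlx] using this
  choose q hq using hq
  obtain ⟨N, hN2, hN⟩ : ∃ N : ℕ, 2 ≤ N ∧ ∀ i j, (q i j).natDegree < N :=
    ⟨2 + ∑ i, ∑ j, (q i j).natDegree, Nat.le_add_right _ _, fun i j => by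
      have h1 := Finset.single_le_sum (f := fun j => (q i j).natDegree)
        (fun _ _ => Nat.zero_le _) (Finset.mem_univ j)
      have h2 := Finset.single_le_sum (f := fun i => ∑ j, (q i j).natDegree)
        (fun _ _ => Nat.zero_le _) (Finset.mem_univ i)
      omega⟩
  set E : ℕ → Mt n k := fun j => Matrix.of fun i i' => (q i i').coeff j with hE
  have hxE : ∀ c, (x c).1 = ∑ j ∈ Finset.range N, c ^ j • E j := fun c => by
    ext i i'
    rw [hq, Polynomial.eval_eq_sum_range' (hN i i'), Matrix.sum_apply]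
    exact Finset.sum_congr rfl fun j _ => mul_comm _ _
  have hconj : ∀ (t : T) c, t.1 * x c * t.1⁻¹ = x ((τ.χ α t : k) * c) := fun t c =>
    hinj _ (hnH _ t.2 _ (hx c)) _ (by rw [← hch.val, hch.eigen τ.dg, hch.val, hlx])
  have hEw : ∀ j : ℕ, E j ∈ τ.w Ad (j • α) := fun j => by
    by_cases hj : j < N
    · intro t
      refine pos_coef (A := fun j => Ad t.1 (E j)) (B := fun j => (τ.χ (j • α) t : k) • E j)
        (fun c => ?_) hj
      have h1 : Ad t.1 (x c).1 = (x ((τ.χ α t : k) * c)).1 := by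
        rw [← hconj, Ad_apply, Units.val_mul, Units.val_mul]
      rw [hxE, hxE, map_sum] at h1
      simp only [map_smul] at h1
      rw [h1]
      refine Finset.sum_congr rfl fun j _ => ?_
      rw [pos_nsmul, smul_smul, mul_pow, mul_comm]
    · have : E j = 0 := by
        ext i i'
        exact Polynomial.coeff_eq_zero_of_natDegree_lt ((hN i i').trans_le (not_lt.1 hj))
      rw [this]
      exact Submodule.zero_mem _
  have hx0 : x 0 = 1 := (hinj 1 (Subgroup.one_mem _) 0 (by simp)).symm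
  have hE0 : E 0 = 1 := by
    have := hxE 0
    rw [hx0, Finset.sum_eq_single 0 (fun j _ hj => by rw [zero_pow hj, zero_smul])
      (fun hj => absurd (Finset.mem_range.2 (by omega)) hj), pow_zero, one_smul] at this
    exact this.symm
  have hkill : ∀ j : ℕ, j ≠ 1 → ∀ A ∈ τ.w Ad (j • α), l () A = 0 := fun j hj A hA =>
    hch.kill () _ (fun e => by
      have h1 := congrArg (· ⬝ᵥ α) (τ.χ_inj e)
      beta_reduce at h1
      rw [smul_dotProduct, nsmul_eq_mul] at h1
      have h2 : ((j : ℤ) - 1) * (α ⬝ᵥ α) = 0 := by linarith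
      rcases mul_eq_zero.1 h2 with h3 | h3
      · omega
      · omega) A hA
  have hl1 : l () 1 = 0 := hE0 ▸ hkill 0 (by omega) _ (hEw 0)
  have hlsum : ∀ d : k, ∑ j ∈ Finset.range N, d ^ j * l () (E j) = d * l () (E 1) := fun d => by
    rw [Finset.sum_eq_single 1 (fun j _ hj => by rw [hkill j hj _ (hEw j), mul_zero])
      (fun hj => absurd (Finset.mem_range.2 (by omega)) hj), pow_one]
  have hlE : l () (E 1) = 1 := by
    have := hlx 1
    rw [map_sub, hl1, sub_zero, hxE, map_sum] at this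
    simp only [map_smul, smul_eq_mul] at this
    rwa [hlsum, one_mul] at this
  have hE1 : E 1 = e := by
    have h1 : E 1 ∈ lie (τ.GX G (ray α)) :=
      mem_lie_of_curve hN2 hE0 Set.infinite_univ fun c _ => ⟨x c, hx c, hxE c⟩
    rw [τ.mem_lie_GX hG hn hP] at h1
    obtain ⟨s, hs⟩ := h _ h1.1 h1.2
    have h2 : l () e = 1 := by simpa using hch.dual () ()
    rw [hs, map_smul, h2, smul_eq_mul, mul_one] at hlE
    rw [hs, hlE, one_smul]
  refine ⟨x, fun c d => (hinj _ (Subgroup.mul_mem _ (hx c) (hx d)) _ ?_).symm,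
    fun c d hcd => by rw [← hlx c, hcd, hlx], fun g => ⟨fun hg => ⟨_, hinj g hg _ rfl⟩, ?_⟩, hconj,
    ⟨N, E, hN2, hE0, hE1, hEw, hxE⟩, he, hl⟩
  · have hij : ∀ i j : ℕ, i + j ≠ 1 → l () (E i * E j) = 0 := fun i j hij =>
      hkill (i + j) hij _ (by rw [add_nsmul]; exact τ.mul_mem_w (hEw i) (hEw j))
    rw [map_sub, hl1, sub_zero, Units.val_mul, hxE c, Finset.sum_mul, map_sum]
    obtain ⟨M, rfl⟩ : ∃ M, N = M + 1 + 1 := ⟨N - 2, by omega⟩
    have hin : ∀ i, l () (c ^ i • E i * (x d).1) =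
        c ^ i * ∑ j ∈ Finset.range (M + 1 + 1), d ^ j * l () (E i * E j) := fun i => by
      rw [smul_mul_assoc, map_smul, hxE d, Finset.mul_sum, map_sum, smul_eq_mul]
      simp only [mul_smul_comm, map_smul, smul_eq_mul]
    simp only [hin]
    rw [Finset.sum_range_succ', Finset.sum_range_succ', Finset.sum_eq_zero fun i _ => by
      rw [Finset.sum_eq_zero fun j _ => by rw [hij _ _ (by omega), mul_zero], mul_zero]]
    rw [Finset.sum_eq_single 0 (fun j _ hj => by rw [hij _ _ (by omega), mul_zero])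
      (fun hj => absurd (Finset.mem_range.2 (by omega)) hj)]
    simp only [hE0, one_mul, mul_one, zero_add, hlE, hlsum, pow_zero, pow_one]
  · rintro ⟨c, rfl⟩
    exact hx c

theorem RH.zero {α : τ.X} {x : k → Gl n k} {e : Mt n k} (h : τ.RH G α x e) : x 0 = 1 := by
  have := h.add 0 0
  rw [add_zero] at this
  exact mul_left_cancel (a := x 0) (by rw [← this, mul_one])

theorem RH.neg {α : τ.X} {x : k → Gl n k} {e : Mt n k} (h : τ.RH G α x e) (c : k) :
    x (-c) = (x c)⁻¹ := by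
  refine eq_inv_of_mul_eq_one_left ?_
  rw [← h.add, neg_add_cancel, RH.zero τ h]

theorem RH.mem_w {α : τ.X} {x : k → Gl n k} {e : Mt n k} (h : τ.RH G α x e) : e ∈ τ.w Ad α := by
  obtain ⟨N, E, -, -, h1, h2, -⟩ := h.poly
  have := h2 1
  rwa [one_nsmul, h1] at this

theorem RH.mem_GX {α : τ.X} {x : k → Gl n k} {e : Mt n k} (h : τ.RH G α x e) {P : Set τ.X}
    (hP : SGa P) (hα : α ∈ P) (c : k) : x c ∈ τ.GX G P := by
  obtain ⟨N, E, hN, h0, -, h2, h3⟩ := h.poly
  refine (τ.mem_GX hP).2 ⟨GP_le ((h.mem_iff _).2 ⟨c, rfl⟩), ?_⟩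
  have hj : ∀ j : ℕ, (j + 1) • α ∈ P := fun j => by
    induction j with
    | zero => simpa using hα
    | succ j ih => rw [succ_nsmul]; exact hP _ ih _ hα
  obtain ⟨M, rfl⟩ : ∃ M, N = M + 1 := ⟨N - 1, by omega⟩
  rw [h3, Finset.sum_range_succ', pow_zero, one_smul, h0, add_sub_cancel_right, τ.M_eq]
  exact Submodule.sum_mem _ fun j _ => Submodule.smul_mem _ _
    (Submodule.mem_iSup_of_mem _ (Submodule.mem_iSup_of_mem (hj j) (h2 _)))

theorem RH.mapOn {α : τ.X} {x : k → Gl n k} {e : Mt n k} (h : τ.RH G α x e) :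
    MapOn (OV k k) univ (OG k n) x := by
  obtain ⟨N, E, -, -, -, -, h3⟩ := h.poly
  refine .toOG (fun i j => ?_) fun i j => ?_
  · simp only [h3, Matrix.sum_apply, Matrix.smul_apply, smul_eq_mul]
    exact .sum fun m _ => (regOn_id.pow m).mul (.const _)
  · simp only [← RH.neg τ h, h3, Matrix.sum_apply, Matrix.smul_apply, smul_eq_mul]
    exact .sum fun m _ => (regOn_id.neg.pow m).mul (.const _)

theorem RH.scale {α : τ.X} {x : k → Gl n k} {e : Mt n k} (h : τ.RH G α x e) (a : kˣ) :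
    τ.RH G α (fun c => x ((a : k) * c)) ((a : k) • e) := by
  obtain ⟨N, E, hN, h0, h1, h2, h3⟩ := h.poly
  refine ⟨fun c d => by rw [mul_add, h.add], fun c d hcd => mul_left_cancel₀ a.ne_zero (h.inj hcd),
    fun g => (h.mem_iff g).trans ⟨?_, ?_⟩, fun t c => by rw [h.conj, mul_left_comm],
    ⟨N, fun j => (a : k) ^ j • E j, hN, by simp only [pow_zero, one_smul, h0],
      by simp only [pow_one, h1],
      fun j => Submodule.smul_mem _ _ (h2 j), fun c => ?_⟩,
    smul_ne_zero a.ne_zero h.ne, (lie G).smul_mem _ h.mem_lie⟩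
  · rintro ⟨c, rfl⟩
    exact ⟨((a⁻¹ : kˣ) : k) * c, by rw [Units.mul_inv_cancel_left]⟩
  · rintro ⟨c, rfl⟩
    exact ⟨_, rfl⟩
  · rw [h3]
    refine Finset.sum_congr rfl fun j _ => ?_
    rw [smul_smul, mul_pow, mul_comm]

theorem RH.of_eq {α : τ.X} {x : k → Gl n k} {e : Mt n k} (h : τ.RH H α x e) (hH : H ≤ G)
    (h' : τ.GX G (ray α) = τ.GX H (ray α)) : τ.RH G α x e :=
  ⟨h.add, h.inj, fun g => by rw [h']; exact h.mem_iff g, h.conj, h.poly, h.ne,
    lie_mono hH h.mem_lie⟩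

end TD

end Pool.Agent.AG
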