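import Mathlib

/-! Polynomials in the matrix entries that vanish on a set of invertible matrices, and their
derivative at the identity matrix. -/

namespace Pool.Agent.AG

open MvPolynomial

universe u

variable {k : Type u} [Field k] {n : ℕ}

/-- The polynomial `f` in the matrix entries vanishes on `S`. -/
def Van (S : Set (GL (Fin n) k)) (f : MvPolynomial (Fin n × Fin n) k) : Prop :=
  ∀ g ∈ S, eval (fun a => g.1 a.1 a.2) f = 0

/-- The derivative of `f` at the identity matrix in the direction `X`. -/
noncomputable def dir (X : Matrix (Fin n) (Fin n) k) (f : MvPolynomial (Fin n × Fin n) k) : k :=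
  ∑ a, X a.1 a.2 * eval (fun b => (1 : Matrix (Fin n) (Fin n) k) b.1 b.2) (pderiv a f)

theorem dir_add (X Y : Matrix (Fin n) (Fin n) k) (f : MvPolynomial (Fin n × Fin n) k) :
    dir (X + Y) f = dir X f + dir Y f := by
  simp only [dir, Matrix.add_apply, add_mul, Finset.sum_add_distrib]

theorem dir_smul (c : k) (X : Matrix (Fin n) (Fin n) k) (f : MvPolynomial (Fin n × Fin n) k) :
    dir (c • X) f = c * dir X f := by
  simp only [dir, Matrix.smul_apply, smul_eq_mul, Finset.mul_sum, mul_assoc]

/-- the entries of the generic matrix times `B` -/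
private noncomputable def preM (B : Matrix (Fin n) (Fin n) k) (a : Fin n × Fin n) :
    MvPolynomial (Fin n × Fin n) k := ∑ l, X (a.1, l) * C (B l a.2)

/-- the left invariant derivation attached to `A` -/
private noncomputable def preD (A : Matrix (Fin n) (Fin n) k) :
    Derivation k (MvPolynomial (Fin n × Fin n) k) (MvPolynomial (Fin n × Fin n) k) :=
  mkDerivation k (preM A)

/-- substitution of `g` times the generic matrix -/
private noncomputable def preL (g : Matrix (Fin n) (Fin n) k) :
    MvPolynomial (Fin n × Fin n) k →ₐ[k] MvPolynomial (Fin n × Fin n) k :=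
  aeval fun a => ∑ l, C (g a.1 l) * X (l, a.2)

private theorem preD_X (A : Matrix (Fin n) (Fin n) k) (a : Fin n × Fin n) :
    preD A (X a) = preM A a := mkDerivation_X _ _ _

private theorem preD_mul_C (A : Matrix (Fin n) (Fin n) k) (f : MvPolynomial (Fin n × Fin n) k)
    (c : k) : preD A (f * C c) = preD A f * C c := by
  rw [Derivation.leibniz, derivation_C, smul_zero, zero_add, smul_eq_mul, mul_comm]

private theorem preD_M (A B : Matrix (Fin n) (Fin n) k) (a : Fin n × Fin n) :
    preD A (preM B a) = preM (A * B) a := by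
  simp only [preM, map_sum, preD_mul_C, preD_X, Matrix.mul_apply, Finset.mul_sum, Finset.sum_mul,
    map_mul, mul_assoc]
  exact Finset.sum_comm

private theorem preM_one (a : Fin n × Fin n) :
    preM (1 : Matrix (Fin n) (Fin n) k) a = X a := by
  rw [preM, Finset.sum_eq_single a.2]
  · simp
  · intro l _ hl
    simp [Matrix.one_apply_ne hl]
  · simp

private theorem preM_sub (A B : Matrix (Fin n) (Fin n) k) (a : Fin n × Fin n) :
    preM (A - B) a = preM A a - preM B a := by
  simp only [preM, Matrix.sub_apply, map_sub, mul_sub, Finset.sum_sub_distrib]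

private theorem pre_eval_M (g B : Matrix (Fin n) (Fin n) k) (a : Fin n × Fin n) :
    eval (fun b => g b.1 b.2) (preM B a) = (g * B) a.1 a.2 := by
  simp [preM, Matrix.mul_apply]

private theorem preD_eq (A : Matrix (Fin n) (Fin n) k) (f : MvPolynomial (Fin n × Fin n) k) :
    preD A f = ∑ a, preM A a * pderiv a f := by
  induction f using MvPolynomial.induction_on with
  | C c => simp
  | add f g hf hg => simp only [map_add, hf, hg, mul_add, Finset.sum_add_distrib]
  | mul_X f a hf =>
    have h1 : ∑ b, preM A b * pderiv b (X a : MvPolynomial (Fin n × Fin n) k) = preM A a := by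
      rw [Finset.sum_eq_single a]
      · simp
      · intro b _ hb
        rw [pderiv_X_of_ne hb.symm, mul_zero]
      · simp
    simp only [Derivation.leibniz, smul_eq_mul, preD_X, hf, mul_add, Finset.sum_add_distrib]
    rw [← h1]
    simp only [Finset.mul_sum, mul_left_comm]

private theorem pre_dir (A : Matrix (Fin n) (Fin n) k) (f : MvPolynomial (Fin n × Fin n) k) :
    dir A f = eval (fun b => (1 : Matrix (Fin n) (Fin n) k) b.1 b.2) (preD A f) := by
  simp only [preD_eq, map_sum, map_mul, pre_eval_M, one_mul, dir]

private theorem pre_eval_L (g h : Matrix (Fin n) (Fin n) k) (f : MvPolynomial (Fin n × Fin n) k) :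
    eval (fun b => h b.1 b.2) (preL g f) = eval (fun b => (g * h) b.1 b.2) f := by
  induction f using MvPolynomial.induction_on with
  | C c => simp [preL]
  | add f g hf hg => simp only [map_add, hf, hg]
  | mul_X f a hf =>
    rw [map_mul, map_mul, map_mul, hf]
    simp [preL, Matrix.mul_apply]

private theorem preD_L (A g : Matrix (Fin n) (Fin n) k) (f : MvPolynomial (Fin n × Fin n) k) :
    preD A (preL g f) = preL g (preD A f) := by
  induction f using MvPolynomial.induction_on with
  | C c => simp [preL]
  | add f g hf hg => simp only [map_add, hf, hg]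
  | mul_X f a hf =>
    have h1 : preD A (preL g (X a)) = preL g (preD A (X a)) := by
      simp only [preL, preD_X, preM, aeval_X, map_sum, map_mul, aeval_C, algebraMap_eq,
        Derivation.leibniz, derivation_C, mul_zero, add_zero, smul_eq_mul, Finset.mul_sum,
        Finset.sum_mul, mul_assoc]
      exact Finset.sum_comm
    simp only [map_mul, map_add, Derivation.leibniz, smul_eq_mul, hf, h1]

private theorem pre_van (G : Subgroup (GL (Fin n) k)) {A : Matrix (Fin n) (Fin n) k}
    (hA : ∀ f, Van (G : Set (GL (Fin n) k)) f → dir A f = 0)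
    {f : MvPolynomial (Fin n × Fin n) k} (hf : Van (G : Set (GL (Fin n) k)) f) :
    Van (G : Set (GL (Fin n) k)) (preD A f) := by
  intro g hg
  have h1 : Van (G : Set (GL (Fin n) k)) (preL g.1 f) := by
    intro h hh
    rw [pre_eval_L]
    exact hf (g * h) (G.mul_mem hg hh)
  have h2 := hA _ h1
  rwa [pre_dir, preD_L, pre_eval_L, mul_one] at h2

private theorem pre_iter {R : Type u} [CommRing R] [Algebra k R] (D : Derivation k R R) (m : ℕ)
    (a b : R) :
    D^[m] (a * b) = ∑ ij ∈ Finset.HasAntidiagonal.antidiagonal m,
      m.choose ij.1 • (D^[ij.1] a * D^[ij.2] b) := by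
  induction m with
  | zero => simp
  | succ m ih =>
    rw [Finset.sum_antidiagonal_choose_succ_nsmul (M := R) (fun i j => D^[i] a * D^[j] b) m]
    simp only [Function.iterate_succ_apply', ih, map_sum, map_nsmul, Derivation.leibniz, smul_add,
      Finset.sum_add_distrib, add_right_inj, smul_eq_mul]
    refine Finset.sum_congr rfl fun ⟨i, j⟩ hij => ?_
    rw [m.choose_symm_of_eq_add (Finset.HasAntidiagonal.mem_antidiagonal.1 hij).symm, mul_comm]

private theorem pre_iter_p {R : Type u} [CommRing R] [Algebra k R] (D : Derivation k R R) (p : ℕ)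
    [hp : Fact p.Prime] [CharP R p] (a b : R) : D^[p] (a * b) = a * D^[p] b + D^[p] a * b := by
  have h0 := hp.out.pos
  rw [pre_iter, Finset.sum_eq_add_of_mem (0, p) (p, 0) (by simp) (by simp) (by simp; omega)]
  · simp
  · rintro ⟨i, j⟩ hij ⟨h1, h2⟩
    have h3 : i + j = p := Finset.HasAntidiagonal.mem_antidiagonal.1 hij
    have h4 : i ≠ 0 := by
      rintro rfl
      exact h1 (by simpa using h3)
    have h5 : i < p := by
      by_contra h6
      have h7 : i = p := by omega
      have h8 : j = 0 := by omega
      exact h2 (by rw [h7, h8])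
    rw [nsmul_eq_mul, (CharP.cast_eq_zero_iff R p _).2 (hp.out.dvd_choose_self h4 h5), zero_mul]

private theorem pre_iter_X (A : Matrix (Fin n) (Fin n) k) (m : ℕ) (a : Fin n × Fin n) :
    (preD A)^[m] (X a) = preM (A ^ m) a := by
  induction m with
  | zero => rw [pow_zero, preM_one]; rfl
  | succ m ih => rw [Function.iterate_succ_apply', ih, preD_M, pow_succ']

private theorem pre_pow (p : ℕ) [hp : Fact p.Prime] [CharP k p] (A : Matrix (Fin n) (Fin n) k)
    (f : MvPolynomial (Fin n × Fin n) k) : preD (A ^ p) f = (preD A)^[p] f := by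
  induction f using MvPolynomial.induction_on with
  | C c =>
    obtain ⟨q, hq⟩ := Nat.exists_eq_succ_of_ne_zero hp.out.ne_zero
    have h : (preD A)^[q + 1] (C c) = 0 := by
      rw [Function.iterate_succ_apply, derivation_C]
      exact Function.iterate_fixed (map_zero _) q
    rw [derivation_C]
    rw [← h, hq]
  | add f g hf hg => rw [map_add, hf, hg, iterate_map_add]
  | mul_X f a hf =>
    rw [pre_iter_p, Derivation.leibniz, smul_eq_mul, smul_eq_mul, hf, preD_X, pre_iter_X,
      mul_comm (X a)]

theorem dir_lie (G : Subgroup (GL (Fin n) k)) {X Y : Matrix (Fin n) (Fin n) k}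
    (hX : ∀ f, Van (G : Set (GL (Fin n) k)) f → dir X f = 0)
    (hY : ∀ f, Van (G : Set (GL (Fin n) k)) f → dir Y f = 0)
    (f : MvPolynomial (Fin n × Fin n) k) (hf : Van (G : Set (GL (Fin n) k)) f) :
    dir (X * Y - Y * X) f = 0 := by
  have h1 : preD (X * Y - Y * X) = ⁅preD X, preD Y⁆ := by
    apply derivation_ext
    intro a
    rw [Derivation.commutator_apply, preD_X, preD_X, preD_X, preD_M, preD_M, preM_sub]
  rw [pre_dir, h1, Derivation.commutator_apply, map_sub, ← pre_dir, ← pre_dir,
    hX _ (pre_van G hY hf), hY _ (pre_van G hX hf), sub_self]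

theorem dir_pow (p : ℕ) [Fact p.Prime] [CharP k p] (G : Subgroup (GL (Fin n) k))
    {X : Matrix (Fin n) (Fin n) k} (hX : ∀ f, Van (G : Set (GL (Fin n) k)) f → dir X f = 0)
    (f : MvPolynomial (Fin n × Fin n) k) (hf : Van (G : Set (GL (Fin n) k)) f) :
    dir (X ^ p) f = 0 := by
  have h1 : ∀ m : ℕ, Van (G : Set (GL (Fin n) k)) ((preD X)^[m] f) := by
    intro m
    induction m with
    | zero => exact hf
    | succ m ih =>
      rw [Function.iterate_succ_apply']
      exact pre_van G hX ih
  rw [pre_dir, pre_pow]
  exact h1 p 1 G.one_mem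

end Pool.Agent.AG
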