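import Pool.Agent.Lib.AG.Pos

/-! Products of root subgroups. -/

namespace Pool.Agent.AG

open Set Matrix

attribute [local instance 100] LieRing.ofAssociativeRing

universe u

/-- Triangular polynomial maps are bijective. -/
theorem bijective_of_weighted {k : Type u} [Field k] {I : Type} [Fintype I] [DecidableEq I]
    (d : I → ℕ) (hd : ∀ a, 0 < d a) (F : I → MvPolynomial I k)
    (hF : ∀ b, (F b).IsWeightedHomogeneous d (d b))
    (h1 : ∀ a b, (F b).coeff (Finsupp.single a 1) = if a = b then 1 else 0) :
    Function.Bijective fun (c : I → k) (b : I) => MvPolynomial.eval c (F b) := by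
  have hR : ∀ b (c c' : I → k), (∀ a, d a < d b → c a = c' a) →
      MvPolynomial.eval c (F b - MvPolynomial.X b) =
        MvPolynomial.eval c' (F b - MvPolynomial.X b) := by
    intro b c c' h
    refine MvPolynomial.eval₂_congr _ _ _ fun {a m} ha hm => h a ?_
    by_contra hlt
    have hm1 : ∀ a', m ≠ Finsupp.single a' 1 := by
      rintro a' rfl
      apply hm
      rw [MvPolynomial.coeff_sub, h1, MvPolynomial.coeff_X']
      by_cases hab : a' = b
      · subst hab; simp
      · rw [if_neg hab, if_neg, sub_zero]
        exact fun h => hab (Finsupp.single_left_injective one_ne_zero h).symm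
    rw [MvPolynomial.coeff_sub, MvPolynomial.coeff_X', if_neg (hm1 b).symm, sub_zero] at hm
    have hw := hF b hm
    have ha1 : 1 ≤ m a := Nat.one_le_iff_ne_zero.2 (Finsupp.mem_support_iff.1 ha)
    have hle : Finsupp.single a 1 ≤ m := Finsupp.single_le_iff.2 ha1
    obtain ⟨m', rfl⟩ := exists_add_of_le hle
    rw [map_add, Finsupp.weight_single, one_smul] at hw
    have h0 : Finsupp.weight d m' = 0 := by omega
    have : Finsupp.NonTorsionWeight ℕ d := Finsupp.nonTorsionWeight_of ℕ d fun a => (hd a).ne'
    rw [Finsupp.weight_eq_zero_iff_eq_zero] at h0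
    exact hm1 a (by rw [h0, add_zero])
  have hE : ∀ b (c : I → k), MvPolynomial.eval c (F b) =
      c b + MvPolynomial.eval c (F b - MvPolynomial.X b) := by
    intro b c
    rw [map_sub, MvPolynomial.eval_X]; ring
  constructor
  · intro c c' h
    have key : ∀ N b, d b < N → c b = c' b := by
      intro N
      induction N with
      | zero => intro b hb; omega
      | succ N ih =>
        intro b hb
        have h2 := congrFun h b
        simp only at h2
        rw [hE b c, hE b c', hR b c c' fun a ha => ih a (by omega)] at h2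
        exact add_right_cancel h2
    exact funext fun b => key _ b (Nat.lt_succ_self _)
  · intro t
    have key : ∀ N, ∃ c : I → k, ∀ b, d b < N → MvPolynomial.eval c (F b) = t b := by
      intro N
      induction N with
      | zero => exact ⟨0, fun b hb => by omega⟩
      | succ N ih =>
        obtain ⟨c, hc⟩ := ih
        refine ⟨fun b => if d b = N then t b - MvPolynomial.eval c (F b - MvPolynomial.X b)
          else c b, fun b hb => ?_⟩
        rw [hE, hR b _ c fun a ha => if_neg (by omega)]
        by_cases hb' : d b = N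
        · rw [if_pos hb']; ring
        · rw [if_neg hb', ← hE, hc b (by omega)]
    obtain ⟨c, hc⟩ := key (Finset.univ.sup d + 1)
    exact ⟨c, funext fun b => hc b (Nat.lt_succ_of_le (Finset.le_sup (Finset.mem_univ b)))⟩

theorem exists_ne_zero_root {k : Type u} [Field k] [IsAlgClosed k] {I : Type} [Fintype I]
    (hI : 2 ≤ Fintype.card I) (F : MvPolynomial I k) (h0 : MvPolynomial.eval 0 F = 0) :
    ∃ c : I → k, c ≠ 0 ∧ MvPolynomial.eval c F = 0 := by
  classical
  obtain ⟨a, b, hab⟩ := Fintype.exists_pair_of_one_lt_card (α := I) (by omega)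
  by_contra hne
  have hno : ∀ c : I → k, c ≠ 0 → MvPolynomial.eval c F ≠ 0 := fun c h1 h2 => hne ⟨c, h1, h2⟩
  have ev : ∀ (v : I → Polynomial k) (s : k), Polynomial.eval s (MvPolynomial.aeval v F) =
      MvPolynomial.eval (fun i => Polynomial.eval s (v i)) F := by
    intro v s
    clear hno hne h0
    induction F using MvPolynomial.induction_on with
    | C r => simp
    | add p q hp hq => simp [hp, hq]
    | mul_X p i hp => simp [hp]
  let c : k → k → I → k := fun s t i => if i = a then s else if i = b then t else 0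
  have h1 : ∀ t, t ≠ 0 → MvPolynomial.eval (c 1 t) F = MvPolynomial.eval (c 0 t) F := by
    intro t ht
    let v : I → Polynomial k := fun i =>
      if i = a then Polynomial.X else if i = b then Polynomial.C t else 0
    have e1 : ∀ s, Polynomial.eval s (MvPolynomial.aeval v F) = MvPolynomial.eval (c s t) F := by
      intro s
      rw [ev]
      congr 2
      funext i
      simp only [v, c]
      split_ifs <;> simp
    have hdeg : (MvPolynomial.aeval v F).degree = 0 := by
      by_contra hd
      obtain ⟨s, hs⟩ := IsAlgClosed.exists_root _ hd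
      refine hno (c s t) (fun h => ht ?_) (by rw [← e1]; exact hs)
      have := congrFun h b
      simpa [c, hab.symm] using this
    rw [← e1, ← e1, Polynomial.eq_C_of_degree_eq_zero hdeg, Polynomial.eval_C, Polynomial.eval_C]
  let w : k → I → Polynomial k := fun s i =>
    if i = a then Polynomial.C s else if i = b then Polynomial.X else 0
  have e2 : ∀ s t, Polynomial.eval t (MvPolynomial.aeval (w s) F) =
      MvPolynomial.eval (c s t) F := by
    intro s t
    rw [ev]
    congr 2
    funext i
    simp only [w, c]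
    split_ifs <;> simp
  have hz : MvPolynomial.aeval (w 1) F - MvPolynomial.aeval (w 0) F = 0 := by
    apply Polynomial.eq_zero_of_infinite_isRoot
    refine ((Set.finite_singleton (0 : k)).infinite_compl).mono fun t ht => ?_
    simp only [mem_ofPred_eq, Polynomial.IsRoot, Polynomial.eval_sub, e2]
    rw [h1 t ht, sub_self]
  have h2 := congrArg (Polynomial.eval 0) hz
  rw [Polynomial.eval_sub, e2, e2, Polynomial.eval_zero] at h2
  have h3 : c 0 0 = 0 := by
    funext i
    simp [c]
  rw [h3, h0, sub_zero] at h2
  refine hno (c 1 0) (fun h => ?_) h2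
  have := congrFun h a
  simp [c] at this

variable {k : Type u} [Field k] [IsAlgClosed k] [Fact (ringChar k).Prime] {n : ℕ}
  {G T : Subgroup (Gl n k)} (τ : TD T)

omit [IsAlgClosed k] [Fact (ringChar k).Prime] in
private theorem prod_coeff_mul {I : Type} [DecidableEq I]
    (M N : Matrix (Fin n) (Fin n) (MvPolynomial I k)) (m : I →₀ ℕ) :
    (M * N).map (MvPolynomial.coeff m) = ∑ p ∈ Finset.HasAntidiagonal.antidiagonal m,
      M.map (MvPolynomial.coeff p.1) * N.map (MvPolynomial.coeff p.2) := by
  ext i j
  simp only [Matrix.map_apply, Matrix.mul_apply, MvPolynomial.coeff_sum, MvPolynomial.coeff_mul,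
    Matrix.sum_apply]
  exact Finset.sum_comm

omit [IsAlgClosed k] [Fact (ringChar k).Prime] in
private theorem prod_coeff_one {I : Type} [DecidableEq I] (m : I →₀ ℕ) :
    (1 : Matrix (Fin n) (Fin n) (MvPolynomial I k)).map (MvPolynomial.coeff m) =
      if m = 0 then 1 else 0 := by
  ext i j
  by_cases h : m = 0 <;> by_cases h' : i = j <;>
    simp [Matrix.one_apply, h, h', MvPolynomial.coeff_one, eq_comm]

private theorem prod_exists_poly {I : Type} [DecidableEq I] {wt : I → τ.X}
    {x : I → k → Gl n k} {e : I → Mt n k} (hx : ∀ a, τ.RH G (wt a) (x a) (e a))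
    (L : List I) (hL : L.Nodup) : ∃ M : Matrix (Fin n) (Fin n) (MvPolynomial I k),
      (∀ m, M.map (MvPolynomial.coeff m) ∈ τ.w Ad (Finsupp.weight wt m)) ∧
      M.map (MvPolynomial.coeff 0) = 1 ∧
      (∀ a, M.map (MvPolynomial.coeff (Finsupp.single a 1)) = if a ∈ L then e a else 0) ∧
      ∀ c : I → k, M.map (MvPolynomial.eval c) = ((L.map fun a => x a (c a)).prod).1 := by
  induction L with
  | nil =>
    refine ⟨1, fun m => ?_, by rw [prod_coeff_one, if_pos rfl], fun a => ?_, fun c => ?_⟩
    · rw [prod_coeff_one]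
      split_ifs with h
      · intro t
        rw [h, map_zero, τ.χ_zero, Ad_apply]
        simp
      · exact Submodule.zero_mem _
    · rw [prod_coeff_one, if_neg (Finsupp.single_ne_zero.2 one_ne_zero)]
      simp
    · rw [Matrix.map_one _ (map_zero _) (map_one _)]
      simp
  | cons b L ih =>
    obtain ⟨M, h1, h2, h3, h4⟩ := ih hL.of_cons
    obtain ⟨N, E, hN, hE0, hE1, hE, hxE⟩ := (hx b).poly
    let Y : Matrix (Fin n) (Fin n) (MvPolynomial I k) := fun i j =>
      ∑ s ∈ Finset.range N, MvPolynomial.monomial (Finsupp.single b s) (E s i j)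
    have hY : ∀ m, Y.map (MvPolynomial.coeff m) =
        ∑ s ∈ Finset.range N, if Finsupp.single b s = m then E s else 0 := by
      intro m
      ext i j
      simp only [Y, Matrix.map_apply, MvPolynomial.coeff_sum, MvPolynomial.coeff_monomial,
        Matrix.sum_apply]
      refine Finset.sum_congr rfl fun s _ => ?_
      split_ifs <;> rfl
    have hY1 : ∀ m, Y.map (MvPolynomial.coeff m) ∈ τ.w Ad (Finsupp.weight wt m) := by
      intro m
      rw [hY]
      refine Submodule.sum_mem _ fun s _ => ?_
      split_ifs with h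
      · rw [← h, Finsupp.weight_single]; exact hE s
      · exact Submodule.zero_mem _
    have hY2 : Y.map (MvPolynomial.coeff 0) = 1 := by
      rw [hY, Finset.sum_eq_single 0]
      · rw [if_pos (Finsupp.single_zero b), hE0]
      · exact fun s _ hs => if_neg (Finsupp.single_ne_zero.2 hs)
      · exact fun h => absurd (Finset.mem_range.2 (by omega)) h
    have hY3 : ∀ a, Y.map (MvPolynomial.coeff (Finsupp.single a 1)) =
        if a = b then e a else 0 := by
      intro a
      rw [hY, Finset.sum_eq_single 1]
      · by_cases h : a = b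
        · subst h; rw [if_pos rfl, if_pos rfl, hE1]
        · rw [if_neg h, if_neg]
          exact fun h' => h (Finsupp.single_left_injective one_ne_zero h').symm
      · intro s _ hs
        refine if_neg fun h => hs ?_
        have := congrArg Finsupp.degree h
        simpa using this
      · exact fun h => absurd (Finset.mem_range.2 (by omega)) h
    refine ⟨Y * M, fun m => ?_, ?_, fun a => ?_, fun c => ?_⟩
    · rw [prod_coeff_mul]
      refine Submodule.sum_mem _ fun p hp => ?_
      rw [← Finset.HasAntidiagonal.mem_antidiagonal.1 hp, map_add]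
      exact τ.mul_mem_w (hY1 _) (h1 _)
    · rw [prod_coeff_mul, Finset.HasAntidiagonal.antidiagonal_zero, Finset.sum_singleton, hY2, h2, one_mul]
    · rw [prod_coeff_mul, Finsupp.antidiagonal_single, Finset.sum_map,
        Finset.Nat.antidiagonal_succ, Finset.sum_cons, Finset.sum_map,
        Finset.HasAntidiagonal.antidiagonal_zero, Finset.sum_singleton]
      simp only [Function.Embedding.coe_prodMap, Function.Embedding.coeFn_mk, Prod.map_fst,
        Prod.map_snd, Finsupp.single_zero, Function.Embedding.refl_apply, Nat.succ_eq_add_one,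
        zero_add]
      rw [hY2, h2, hY3, h3, one_mul, mul_one]
      have hb : b ∉ L := (List.nodup_cons.1 hL).1
      by_cases h : a = b
      · subst h; simp [hb]
      · simp [h]
    · rw [Matrix.map_mul, h4, List.map_cons, List.prod_cons, Units.val_mul, hxE]
      congr 1
      ext i j
      simp only [Y, Matrix.map_apply, map_sum, MvPolynomial.eval_monomial, Matrix.sum_apply,
        Matrix.smul_apply, smul_eq_mul]
      refine Finset.sum_congr rfl fun s _ => ?_
      rw [Finsupp.prod_single_index (h := fun a j => c a ^ j) (pow_zero _), mul_comm]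

omit [IsAlgClosed k] [Fact (ringChar k).Prime] in
private theorem prod_lin (l : Module.Dual k (Mt n k)) (A : Mt n k) :
    l A = ∑ i, ∑ j, l (Matrix.single i j 1) * A i j := by
  conv_lhs => rw [Matrix.matrix_eq_sum_single A]
  simp only [map_sum]
  refine Finset.sum_congr rfl fun i _ => Finset.sum_congr rfl fun j _ => ?_
  rw [mul_comm, ← smul_eq_mul, ← map_smul, Matrix.smul_single, smul_eq_mul, mul_one]

theorem TD.prod_bij (hG : Closed (OG k n) (G : Set (Gl n k))) (hn : Nm T G) {P : Set τ.X}
    (hP : SGa P) {y₀ : τ.X} (hy : ∀ x ∈ P, 0 < x ⬝ᵥ y₀) {I : Type} [Fintype I] {wt : I → τ.X}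
    (hw : Function.Injective wt) (hr : ∀ a, wt a ∈ P) {x : I → k → Gl n k}
    {e : I → Mt n k} (hx : ∀ a, τ.RH G (wt a) (x a) (e a))
    (hs : ∀ A ∈ lie G, A ∈ τ.M P → A ∈ Submodule.span k (range e))
    (L : List I) (hL : L.Nodup) (hL' : ∀ a, a ∈ L) :
    BijOn (fun c : I → k => (L.map fun a => x a (c a)).prod) univ
      (τ.GX G P : Set (Gl n k)) := by
  classical
  have hH := τ.closed_GX hP hG
  have hnH := τ.nm_GX hP hn
  have hU : τ.GX G P ≤ τ.U G y₀ := τ.GX_mono le_rfl hy
  have hli : LinearIndependent k e :=
    ((τ.iSupIndep_w Ad).comp hw).linearIndependent _ (fun a => (hx a).mem_w) fun a => (hx a).ne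
  have hsp : Submodule.span k (range e) = (lie (τ.GX G P)).toSubmodule := by
    refine le_antisymm (Submodule.span_le.2 ?_) fun A hA => ?_
    · rintro _ ⟨a, rfl⟩
      refine (τ.mem_lie_GX hG hn hP).2 ⟨(hx a).mem_lie, ?_⟩
      rw [τ.M_eq]
      exact (le_iSup₂ (f := fun x (_ : x ∈ P) => τ.w Ad x) (wt a) (hr a)) (hx a).mem_w
    · obtain ⟨h1, h2⟩ := (τ.mem_lie_GX hG hn hP).1 hA
      exact hs A h1 h2
  obtain ⟨l, y, hc⟩ := exists_chart (wt := fun a => τ.χ (wt a)) τ.dg hli hsp
    fun a => (hx a).mem_w
  have hb := τ.pos_bij hH hnH hU hc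
  obtain ⟨M, h1, h2, h3, h4⟩ := prod_exists_poly τ hx L hL
  let F : I → MvPolynomial I k := fun b =>
    ∑ i, ∑ j, MvPolynomial.C (l b (Matrix.single i j 1)) * (M - 1) i j
  have hFc : ∀ b m, (F b).coeff m =
      l b (M.map (MvPolynomial.coeff m) - if m = 0 then 1 else 0) := by
    intro b m
    rw [prod_lin, ← prod_coeff_one]
    simp only [F, MvPolynomial.coeff_sum, MvPolynomial.coeff_C_mul, Matrix.sub_apply,
      Matrix.map_apply, MvPolynomial.coeff_sub]
  have hFe : ∀ b c, MvPolynomial.eval c (F b) =
      l b (((L.map fun a => x a (c a)).prod).1 - 1) := by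
    intro b c
    rw [prod_lin, ← h4, ← Matrix.map_one (MvPolynomial.eval c) (map_zero _) (map_one _)]
    simp only [F, map_sum, map_mul, MvPolynomial.eval_C, Matrix.sub_apply, Matrix.map_apply,
      map_sub]
  have hd : ∀ a, (((wt a ⬝ᵥ y₀).toNat : ℕ) : ℤ) = wt a ⬝ᵥ y₀ := fun a =>
    Int.toNat_of_nonneg (hy _ (hr a)).le
  have hwt : ∀ m : I →₀ ℕ, ((Finsupp.weight (fun a => (wt a ⬝ᵥ y₀).toNat) m : ℕ) : ℤ) =
      Finsupp.weight wt m ⬝ᵥ y₀ := by
    intro m
    induction m using Finsupp.induction_linear with
    | zero => simp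
    | add f g hf hg => rw [map_add, map_add, add_dotProduct, Nat.cast_add, hf, hg]
    | single a j =>
      rw [Finsupp.weight_single, Finsupp.weight_single, smul_dotProduct, smul_eq_mul,
        Nat.cast_mul, hd, nsmul_eq_mul]
  have hbij := bijective_of_weighted (fun a => (wt a ⬝ᵥ y₀).toNat)
    (fun a => by have := hy _ (hr a); omega) F (fun b m hm => ?_) fun a b => ?_
  · have hmem : ∀ c : I → k, (L.map fun a => x a (c a)).prod ∈ τ.GX G P := fun c =>
      Subgroup.list_prod_mem _ fun g hg => by
        obtain ⟨a, -, rfl⟩ := List.mem_map.1 hg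
        exact (hx a).mem_GX τ hP (hr a) _
    refine ⟨fun c _ => hmem c, fun c _ c' _ h => hbij.1 (funext fun b => ?_), fun u hu => ?_⟩
    · simp only at h ⊢
      rw [hFe, hFe, h]
    · obtain ⟨c, hc'⟩ := hbij.2 fun a => l a (u.1 - 1)
      refine ⟨c, mem_univ _, hb.injOn (hmem c) hu ?_⟩
      rw [← hc']
      exact funext fun b => (hFe b c).symm
  · rw [hFc] at hm
    have h0 : m ≠ 0 := by
      rintro rfl
      rw [h2, if_pos rfl, sub_self, map_zero] at hm
      exact hm rfl
    rw [if_neg h0, sub_zero] at hm
    have h5 : Finsupp.weight wt m = wt b := by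
      by_contra h
      exact hm (hc.kill b _ (fun h' => h (τ.χ_inj h')) _ (h1 m))
    have h6 := hwt m
    rw [h5, ← hd] at h6
    exact_mod_cast h6
  · rw [hFc, if_neg (Finsupp.single_ne_zero.2 one_ne_zero), sub_zero, h3, if_pos (hL' a), hc.dual]
    simp only [eq_comm]

end Pool.Agent.AG
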