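import Pool.Agent.Lib.AG.Luna

/-! Centralisers of cocharacters in reductive groups are reductive. -/

namespace Pool.Agent.AG

open Set Matrix

attribute [local instance 100] LieRing.ofAssociativeRing

universe u

variable {k : Type u} [Field k] [IsAlgClosed k] [Fact (ringChar k).Prime] {n : ℕ}
  {G N T : Subgroup (Gl n k)} (τ : TD T) {V : Type u} [AddCommGroup V] [Module k V]
  [FiniteDimensional k V] {ρ : Gl n k → Module.End k V}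

namespace TD

omit [IsAlgClosed k] [Fact (ringChar k).Prime] [FiniteDimensional k V] in
private theorem redz_scalar {y : τ.X} {m : ℤ} {w : V}
    (hw : w ∈ ⨆ x ∈ {x : τ.X | x ⬝ᵥ y = m}, τ.w ρ x) (c : kˣ) :
    ρ (τ.co y c) w = ((c ^ m : kˣ) : k) • w := by
  have : (⨆ x ∈ {x : τ.X | x ⬝ᵥ y = m}, τ.w ρ x) ≤
      LinearMap.eqLocus (ρ (τ.co y c)) (((c ^ m : kˣ) : k) • LinearMap.id) := by
    refine iSup₂_le fun x hx v hv => ?_
    have h1 := mem_wV.1 hv ⟨τ.co y c, (τ.coch y).1 c⟩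
    rw [τ.pair, show x ⬝ᵥ y = m from hx] at h1
    exact h1
  exact this hw

private theorem redz_cell (hG : CC G) (hT : MaxTor G T) (hρ : IsRep G ρ) (hs : Simp G ρ)
    {x y : τ.X} (h : τ.Ext ρ x) {v w : V} (hv : v ∈ τ.w ρ x) {l : Module.Dual k V}
    (hl : τ.IsCo ρ x l) (hw : w ∈ orbC G ρ v) (h0 : l w ≠ 0)
    (hV : w ∈ ⨆ z ∈ {z : τ.X | z ⬝ᵥ y = x ⬝ᵥ y}, τ.w ρ z) : w ∈ orbC (τ.Z G y) ρ v := by
  obtain ⟨y', hy', htop⟩ := h
  have hTG : T ≤ G := hT.prop.1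
  obtain ⟨a, u, hu, rfl⟩ := τ.cell hG hT hρ hs hy' htop hv hl hw h0
  have ha : a ≠ 0 := by
    rintro rfl
    exact h0 (by rw [zero_smul, map_zero])
  have huG : u ∈ G := GP_le hu
  have hV' : ρ u v ∈ ⨆ z ∈ {z : τ.X | z ⬝ᵥ y = x ⬝ᵥ y}, τ.w ρ z :=
    (Submodule.smul_mem_iff _ ha).1 hV
  obtain ⟨hc, hsol⟩ := τ.cc_sup_U hG.closed hTG (-y')
  have htrg : Trg ((T ⊔ τ.U G (-y')) ⊓ stabL G ρ v) :=
    (trg_of_solvable hc.irr hsol).mono inf_le_left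
  have hSB : τ.S y ≤ (T ⊔ τ.U G (-y')) ⊓ stabL G ρ v := fun s hs' =>
    ⟨Subgroup.mem_sup_left (τ.S_le y hs'), (mem_stabL hρ).2
      ⟨hTG (τ.S_le y hs'), _, mem_wV.1 hv ⟨s, τ.S_le y hs'⟩⟩⟩
  let σ : τ.S y →* Gl n k := (MulAut.conj u⁻¹).toMonoidHom.comp (τ.S y).subtype
  have hσ : ∀ s : τ.S y, σ s = u⁻¹ * s.1 * u := fun s => by
    simp [σ]
  obtain ⟨u', hu', hun, he⟩ := htrg.conj_hom (τ.tor_S y) hSB σ (fun s => by
      rw [hσ]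
      have hsT := τ.S_le y s.2
      refine ⟨Subgroup.mul_mem _ (Subgroup.mul_mem _
        (Subgroup.inv_mem _ (Subgroup.mem_sup_right hu)) (Subgroup.mem_sup_left hsT))
        (Subgroup.mem_sup_right hu), (mem_stabL hρ).2
        ⟨G.mul_mem (G.mul_mem (G.inv_mem huG) (hTG hsT)) huG, ?_⟩⟩
      obtain ⟨c, hc⟩ := τ.mem_S.1 s.2
      refine ⟨((c ^ (x ⬝ᵥ y) : kˣ) : k), ?_⟩
      rw [hρ.mul_apply (G.mul_mem (G.inv_mem huG) (hTG hsT)) huG,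
        hρ.mul_apply (G.inv_mem huG) (hTG hsT), hc, τ.redz_scalar hV', map_smul,
        hρ.inv_apply huG])
    (fun s => by
      rw [hσ, mul_assoc, mul_assoc, ← mul_assoc s.1]
      refine τ.unip_GX (G := G) (sga_pos (-y')) (by simp) (Subgroup.mul_mem _
        (Subgroup.inv_mem _ hu) ?_)
      exact τ.nm_GX (sga_pos (-y')) (Nm.of_le hTG) s.1 (τ.S_le y s.2) u hu)
  obtain ⟨hu'G, b, hb⟩ := (mem_stabL hρ).1 hu'.2
  refine ⟨a, u * u', τ.mem_Z.2 ⟨G.mul_mem huG hu'G, fun c => ?_⟩, ?_⟩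
  · have h1 := he ⟨τ.co y c, τ.mem_S.2 ⟨c, rfl⟩⟩
    rw [hσ] at h1
    calc τ.co y c * (u * u') = u * (u⁻¹ * τ.co y c * u) * u' := by group
      _ = u * (u' * τ.co y c * u'⁻¹) * u' := by rw [h1]
      _ = u * u' * τ.co y c := by group
  · rw [hρ.mul_apply huG hu'G, hρ.eq_of_unip hu'G hun hb]

theorem Ext.closed_orbC_Z {x₀ : τ.X} (h : τ.Ext ρ x₀) (hG : CC G) (hT : MaxTor G T)
    (hρ : IsRep G ρ) (hs : Simp G ρ) {v : V} (hv : v ∈ τ.w ρ x₀) (y : τ.X) :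
    Closed (OV k V) (orbC (τ.Z G y) ρ v) := by
  have hTG : T ≤ G := hT.prop.1
  have hZG : τ.Z G y ≤ G := GP_le
  intro z hz
  by_cases hz0 : z = 0
  · exact ⟨0, 1, Subgroup.one_mem _, by rw [hz0, zero_smul]⟩
  have hX := h.closed_orbC τ hG hT hρ hs hv
  have hsub : orbC (τ.Z G y) ρ v ⊆ orbC G ρ v := by
    rintro _ ⟨a, g, hg, rfl⟩
    exact ⟨a, g, hZG hg, rfl⟩
  have hsubV : orbC (τ.Z G y) ρ v ⊆
      (⨆ x ∈ {x : τ.X | x ⬝ᵥ y = x₀ ⬝ᵥ y}, τ.w ρ x : Submodule k V) := by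
    rintro _ ⟨a, g, hg, rfl⟩
    refine Submodule.smul_mem _ _ ?_
    have h1 := τ.shift_w (sga_zero y) hTG hρ hg hv
    have h2 : (⨆ z ∈ (x₀ + ·) '' {x : τ.X | x ⬝ᵥ y = 0}, τ.w ρ z) ≤
        ⨆ x ∈ {x : τ.X | x ⬝ᵥ y = x₀ ⬝ᵥ y}, τ.w ρ x := by
      refine biSup_mono ?_
      rintro _ ⟨x, hx, rfl⟩
      show (x₀ + x) ⬝ᵥ y = x₀ ⬝ᵥ y
      rw [add_dotProduct, show x ⬝ᵥ y = 0 from hx, add_zero]
    have h3 : v ∈ ⨆ x ∈ {x : τ.X | x ⬝ᵥ y = x₀ ⬝ᵥ y}, τ.w ρ x :=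
      (le_biSup (τ.w ρ) (show x₀ ∈ {x : τ.X | x ⬝ᵥ y = x₀ ⬝ᵥ y} from rfl)) hv
    simpa using Submodule.add_mem _ (h2 h1) h3
  have hzX : z ∈ orbC G ρ v := clo_min hsub hX hz
  have hzV := clo_min hsubV (closed_submodule _) hz
  obtain ⟨x, hx, hl⟩ := h.exists_co τ hG hT hρ hs hv hzX hz0
  obtain ⟨vx, l, hlv, hco, hw⟩ := hx.line τ hG hT hρ hs
  have hlz := hl l hco
  have hvx : vx ∈ τ.w ρ x := by
    rw [hw]; exact Submodule.mem_span_singleton_self vx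
  have hvx0 : vx ≠ 0 := by
    rintro rfl
    rw [map_zero] at hlv
    exact zero_ne_one hlv
  have hxy : x₀ ⬝ᵥ y = x ⬝ᵥ y := by
    by_contra hne
    have : (⨆ x ∈ {x : τ.X | x ⬝ᵥ y = x₀ ⬝ᵥ y}, τ.w ρ x) ≤ LinearMap.ker l := by
      refine iSup₂_le fun x' hx' w hw' => hco.2 x' ?_ w hw'
      rintro rfl
      exact hne (Eq.symm hx')
    exact hlz (this hzV)
  obtain ⟨w, hw1, hw2⟩ : ∃ w ∈ orbC (τ.Z G y) ρ v, l w ≠ 0 := by
    by_contra hc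
    refine hlz (hz l (dual_mem_OV l) fun s hs' => ?_)
    by_contra h1
    exact hc ⟨s, hs', h1⟩
  have hw0 : w ≠ 0 := by
    rintro rfl
    exact hw2 (map_zero l)
  have hGe : orbC G ρ vx = orbC G ρ v :=
    orbC_eq hρ (hx.mem_cone τ hG hT hρ hs (cone_orbC hρ hX) ⟨z, hzX, hz0⟩ hvx) hvx0
  rw [hxy] at hsubV hzV
  have k1 := τ.redz_cell hG hT hρ hs hx hvx hco (hGe ▸ hsub hw1) hw2 (hsubV hw1)
  have k2 := τ.redz_cell hG hT hρ hs hx hvx hco (hGe ▸ hzX) hlz hzV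
  rw [← orbC_eq (hρ.mono hZG) hw1 hw0, orbC_eq (hρ.mono hZG) k1 hw0]
  exact k2

theorem red_Z (hG : Red G) (hT : MaxTor G T) (y : τ.X) : Red (τ.Z G y) := by
  have hZG : τ.Z G y ≤ G := GP_le
  refine ⟨τ.cc_Z hG.1 (Nm.of_le hT.prop.1) y, fun N hN => ?_⟩
  obtain ⟨hNZ, hc, hn, hu⟩ := hN
  refine hG.eq_bot hc (hNZ.trans hZG) fun V _ _ _ ρ hρ hs => ?_
  refine τ.luna' hG.1 hT hρ hs hc (hNZ.trans hZG) hu fun x hx v hv u huN => ?_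
  by_cases hv0 : v = 0
  · rw [hv0, map_zero]
  have hC := cone_orbC (hρ.mono hZG) (hx.closed_orbC_Z τ hG.1 hT hρ hs hv y)
  obtain ⟨_, ⟨a, g, hg, rfl⟩, h0, hf⟩ := borel_fixed hc.irr (isSolvable_of_unip hu)
    (hρ.mono (hNZ.trans hZG)) (C := orbC (τ.Z G y) ρ v)
    ⟨hC.1, hC.2.1, fun g hg => hC.2.2 g (hNZ hg)⟩
    ⟨v, ⟨1, 1, Subgroup.one_mem _, by rw [hρ.one, one_smul]; rfl⟩, hv0⟩
  have ha : a ≠ 0 := by
    rintro rfl
    exact h0 (zero_smul _ _)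
  have hm := hn g hg u huN
  have hgG := hZG hg
  have huG := hZG (hNZ huN)
  obtain ⟨b, hb⟩ := hf _ hm
  have h1 := hρ.eq_of_unip (hZG (hNZ hm)) (hu _ hm) hb
  rw [map_smul, hρ.mul_apply (G.mul_mem hgG huG) (G.inv_mem hgG), hρ.inv_apply hgG,
    hρ.mul_apply hgG huG] at h1
  have h2 := congrArg (ρ g⁻¹) (smul_right_injective V ha h1)
  rwa [hρ.inv_apply hgG, hρ.inv_apply hgG] at h2

private theorem redz_sga {r : ℕ} : SGa ({0} : Set (Fin r → ℤ)) := by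
  rintro _ rfl _ rfl
  exact add_zero _

theorem cent_eq (hG : Red G) (hT : MaxTor G T) : τ.GX G {0} = T := by
  obtain ⟨y, hy, -⟩ := τ.exists_rg finite_empty 0
  have hr : Red (τ.GX G {0}) := τ.Z_eq_of_rg (G := G) hy ▸ τ.red_Z hG hT y
  have hle : T ≤ τ.GX G {0} := τ.le_GX redz_sga rfl hT.prop.1
  obtain ⟨hc, hs⟩ := τ.cc_cent hG.1 hT
  obtain ⟨U, hU, hn, -⟩ := exists_unipPart hc hs
  refine le_antisymm (fun b hb => ?_) hle
  obtain ⟨t, ht, u, hu, hun, rfl⟩ := (hT.of_le hle GP_le).decomp hc hs hb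
  have h1 : u ∈ U := (hU u).2 ⟨hu, hun⟩
  rw [hr.2 U hn, Subgroup.mem_bot] at h1
  rwa [h1, mul_one]

theorem lie_zero (hG : Red G) (hT : MaxTor G T) {A : Mt n k} (hA : A ∈ lie G)
    (h : A ∈ τ.w Ad 0) : A ∈ lie T := by
  have h1 : A ∈ lie (τ.GX G {0}) := by
    refine (τ.mem_lie_GX hG.1.closed (Nm.of_le hT.prop.1) redz_sga).2 ⟨hA, ?_⟩
    rw [τ.M_eq]
    exact (le_biSup (τ.w Ad) (mem_singleton 0)) h
  rwa [τ.cent_eq hG hT] at h1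

private theorem redz_le (hG : Closed (OG k n) (G : Set (Gl n k))) (hn : Nm T G)
    {P Q : Set τ.X} (hP : SGa P) (hQ : SGa Q) (hc : CC (τ.GX G P)) (h0 : 0 ∈ P → 0 ∈ Q)
    (h : ∀ x ∈ τ.Rt G, x ∈ P → x ∈ Q) : τ.GX G P ≤ τ.GX G Q := by
  refine τ.le_GX_of_lie hc (τ.nm_GX hP hn) hQ GP_le fun A hA => ?_
  obtain ⟨h1, h2⟩ := (τ.mem_lie_GX hG hn hP).1 hA
  have h3 : A ∈ τ.M (insert 0 (τ.Rt G)) := by
    obtain ⟨c, hc, rfl⟩ := τ.lie_comp hn h1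
    rw [τ.M_eq]
    refine Submodule.sum_mem _ fun x hx => ?_
    refine (le_biSup (τ.w Ad) (i := x) ?_) (hc x).2
    by_cases hx0 : x = 0
    · exact Or.inl hx0
    · exact Or.inr ⟨hx0, c x, (hc x).1, Finsupp.mem_support_iff.1 hx, (hc x).2⟩
  have h4 : A ∈ τ.M P ⊓ τ.M (insert 0 (τ.Rt G)) := ⟨h2, h3⟩
  rw [τ.M_inf] at h4
  refine MP_mono (image_mono ?_) h4
  rintro x ⟨hx, rfl | hx'⟩
  · exact h0 hx
  · exact h x hx' hx

theorem Z_eq_of_Rt (hG : Red G) (hT : MaxTor G T) {y : τ.X} (hy : ∀ x ∈ τ.Rt G, x ⬝ᵥ y ≠ 0) :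
    τ.Z G y = T := by
  have hn : Nm T G := Nm.of_le hT.prop.1
  refine le_antisymm ?_ (τ.le_GX (sga_zero y) (zero_dotProduct y) hT.prop.1)
  refine le_trans ?_ (τ.cent_eq hG hT).le
  exact τ.redz_le hG.1.closed hn (sga_zero y) redz_sga (τ.cc_Z hG.1 hn y) (fun _ => rfl)
    fun x hx h0 => absurd h0 (hy x hx)

theorem red_line (hG : Red G) (hT : MaxTor G T) (α : τ.X) :
    Red (τ.GX G (line α)) ∧ MaxTor (τ.GX G (line α)) T := by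
  obtain ⟨y, hy, h⟩ := exists_perp (τ.finite_w Ad) α
  have e : τ.GX G (line α) = τ.Z G y :=
    τ.GX_congr fun x hx => ⟨fun h1 => line_dot_zero h1 hy, h x hx⟩
  rw [e]
  exact ⟨τ.red_Z hG hT y,
    hT.of_le (τ.le_GX (sga_zero y) (zero_dotProduct y) hT.prop.1) GP_le⟩

theorem U_eq_of_Rt (hG : CC G) (hn : Nm T G) {y y' : τ.X}
    (h : ∀ x ∈ τ.Rt G, 0 < x ⬝ᵥ y ↔ 0 < x ⬝ᵥ y') : τ.U G y = τ.U G y' := by
  refine le_antisymm ?_ ?_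
  · exact τ.redz_le hG.closed hn (sga_pos y) (sga_pos y') (τ.cc_U hG.closed hn y) (by simp)
      fun x hx => (h x hx).1
  · exact τ.redz_le hG.closed hn (sga_pos y') (sga_pos y) (τ.cc_U hG.closed hn y') (by simp)
      fun x hx => (h x hx).2

/-- A closed normal subgroup all of whose tori are central has no connected unipotent subgroup. -/
theorem eq_bot_of_normal (hG : Red G) (hT : MaxTor G T) {K : Subgroup (Gl n k)}
    (hK : Closed (OG k n) (K : Set (Gl n k))) (hKG : K ≤ G) (hn : Nm G K)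
    (h : ∀ S, Tor S → S ≤ T → S ≤ K → ∀ s ∈ S, ∀ g ∈ G, s * g = g * s) (hN : CC N) (hNK : N ≤ K)
    (hu : ∀ u ∈ N, Unip u) : N = ⊥ := by
  have hc : CC (idc K) := cc_idc hK
  have hT' : Tor T := hT.prop.2
  have hS : Tor (idc (T ⊓ K)) :=
    ⟨cc_idc (hT'.1.closed.inf hK), Dg.mono hT'.2 ((idc_le _).trans inf_le_left)⟩
  have hSK : idc (T ⊓ K) ≤ K := (idc_le _).trans inf_le_right
  have hmax : MaxTor (idc K) (idc (T ⊓ K)) := by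
    refine ⟨⟨hS.1.le_idc hSK, hS⟩, fun S' hS' _ => hS'.2.1.le_idc ?_⟩
    have h1 : S' ≤ K := hS'.1.trans (idc_le K)
    obtain ⟨g, hg, hgT⟩ := hT.exists_cj_le hG.1 hS'.2 (h1.trans hKG)
    have h2 : cj g S' ≤ K := fun x hx => by
      have := hn g hg _ (h1 (mem_cj.1 hx))
      simpa [mul_assoc] using this
    refine le_inf (fun s hs => ?_) h1
    have h3 : g * s * g⁻¹ ∈ cj g S' := mem_cj.2 (by simpa [mul_assoc] using hs)
    have h4 := h _ (hS'.2.conjg g) hgT h2 _ h3 g hg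
    rw [inv_mul_cancel_right] at h4
    rw [mul_left_cancel h4]
    exact hgT h3
  have hsol : Group.IsSolvable (idc K) := isSolvable_of_central hc hmax fun t ht g hg =>
    h _ hS ((idc_le _).trans inf_le_left) hSK t ht g (hKG (idc_le K hg))
  obtain ⟨U, hU, hnU, -⟩ := exists_unipPart hc hsol
  have hb : U = ⊥ := hG.2 U ⟨hnU.1.trans ((idc_le K).trans hKG), hnU.2.1, fun g hg x hx =>
    (hU _).2 ⟨hn.idc_nm g hg x ((hU x).1 hx).1, ((hU x).1 hx).2.conj g⟩, hnU.2.2.2⟩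
  rw [eq_bot_iff, ← hb]
  exact fun x hx => (hU x).2 ⟨hN.le_idc hNK hx, hu x hx⟩

end TD

end Pool.Agent.AG
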