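import Pool.Agent.Lib.AG.Jordan

/-! Regular representations: examples, subquotients, simple modules, stabilisers. -/

namespace Pool.Agent.AG

open Set

universe u

variable {k : Type u} [Field k] {n : ℕ} {G H N : Subgroup (Gl n k)}
  {V : Type u} [AddCommGroup V] [Module k V] {ρ : Gl n k → Module.End k V}

theorem isRep_nat (G : Subgroup (Gl n k)) : IsRep G nat := by
  refine ⟨Matrix.mulVecLin_one, fun g _ h _ => Matrix.mulVecLin_mul _ _, fun l v => ?_⟩
  exact (MapOn.id.val).dual (l ∘ₗ LinearMap.applyₗ v ∘ₗ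
    (Matrix.toLin' : Mt n k ≃ₗ[k] Module.End k (Fin n → k)).toLinearMap)

theorem isRep_Ad (G : Subgroup (Gl n k)) : IsRep G Ad := by
  refine ⟨?_, fun g _ h _ => ?_, fun l A => ?_⟩
  · ext1 A
    simp [Ad_apply]
  · ext1 A
    simp [Ad_apply, mul_assoc]
  · refine (RegOn.sum (s := Finset.univ) fun i _ => RegOn.sum (s := Finset.univ) fun j _ =>
      (RegOn.sum (s := Finset.univ) fun b _ => (RegOn.sum (s := Finset.univ) fun a _ =>
        (MapOn.id.entry i a).mul (.const (A a b))).mul (MapOn.id.inv.entry b j)).mul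
          (.const (l (Matrix.single i j 1)))).congr fun g _ => ?_
    conv_rhs => rw [Matrix.matrix_eq_sum_single (Ad g A)]
    simp only [map_sum]
    refine Finset.sum_congr rfl fun i _ => Finset.sum_congr rfl fun j _ => ?_
    rw [← smul_eq_mul, ← map_smul, Matrix.smul_single, smul_eq_mul, mul_one, Ad_apply]
    simp only [Matrix.mul_apply]

theorem IsRep.dual [FiniteDimensional k V] (h : IsRep G ρ) : IsRep G (dualRep ρ) := by
  refine ⟨?_, fun g hg g' hg' => ?_, fun l f => ?_⟩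
  · rw [dualRep, inv_one, h.one]
    rfl
  · rw [dualRep, mul_inv_rev, h.mul _ (G.inv_mem hg') _ (G.inv_mem hg)]
    rfl
  · obtain ⟨v, rfl⟩ := (Module.evalEquiv k V).surjective l
    exact (h.reg f v).comp MapOn.id.inv fun g hg => G.inv_mem hg

theorem IsRep.exists_sub (h : IsRep G ρ) {W : Submodule k V} (hW : Stab G ρ W) :
    ∃ σ : Gl n k → Module.End k W, IsRep G σ ∧ ∀ g ∈ G, ∀ w : W, (σ g w : V) = ρ g w := by
  classical
  obtain ⟨σ, hσ⟩ : ∃ σ : Gl n k → Module.End k W, ∀ g ∈ G, ∀ w : W, (σ g w : V) = ρ g w :=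
    ⟨fun g => if hg : g ∈ G then (ρ g).restrict (hW g hg) else 1, fun g hg w => by
      simp only [dif_pos hg]
      rfl⟩
  refine ⟨σ, ⟨?_, fun g hg g' hg' => ?_, fun l w => ?_⟩, hσ⟩
  · ext w
    rw [hσ 1 G.one_mem, h.one]
    rfl
  · ext w
    rw [hσ _ (G.mul_mem hg hg'), h.mul_apply hg hg', Module.End.mul_apply, hσ g hg, hσ g' hg']
  · obtain ⟨l, rfl⟩ := Subspace.dualRestrict_surjective (W := W) l
    exact (h.reg l w).congr fun g hg => by rw [Submodule.dualRestrict_apply, hσ g hg]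

theorem IsRep.exists_quot (h : IsRep G ρ) {W : Submodule k V} (hW : Stab G ρ W) :
    ∃ σ : Gl n k → Module.End k (V ⧸ W), IsRep G σ ∧
      ∀ g ∈ G, ∀ v : V, σ g (W.mkQ v) = W.mkQ (ρ g v) := by
  classical
  obtain ⟨σ, hσ⟩ : ∃ σ : Gl n k → Module.End k (V ⧸ W),
      ∀ g ∈ G, ∀ v : V, σ g (W.mkQ v) = W.mkQ (ρ g v) :=
    ⟨fun g => if hg : g ∈ G then W.mapQ W (ρ g) (hW g hg) else 1, fun g hg w => by
      simp only [dif_pos hg]
      rfl⟩
  refine ⟨σ, ⟨?_, fun g hg g' hg' => ?_, fun l w => ?_⟩, hσ⟩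
  · refine LinearMap.ext fun w => ?_
    obtain ⟨v, rfl⟩ := W.mkQ_surjective w
    rw [hσ 1 G.one_mem, h.one]
    rfl
  · refine LinearMap.ext fun w => ?_
    obtain ⟨v, rfl⟩ := W.mkQ_surjective w
    rw [hσ _ (G.mul_mem hg hg'), h.mul_apply hg hg', Module.End.mul_apply, hσ g' hg', hσ g hg]
  · obtain ⟨v, rfl⟩ := W.mkQ_surjective w
    exact (h.reg (l ∘ₗ W.mkQ) v).congr fun g hg => by rw [hσ g hg, LinearMap.comp_apply]

theorem Simp.dual [FiniteDimensional k V] (h : IsRep G ρ) (hs : Simp G ρ) :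
    Simp G (dualRep ρ) := by
  have _ := h
  refine ⟨(Module.nontrivial_dual_iff k).2 hs.1, fun W hW => ?_⟩
  have h1 : Stab G ρ W.dualCoannihilator := fun g hg v hv => by
    rw [Submodule.mem_dualCoannihilator] at hv ⊢
    intro f hf
    simpa [dualRep] using hv _ (hW _ (G.inv_mem hg) f hf)
  rw [← Subspace.dualCoannihilator_dualAnnihilator_eq (W := W)]
  rcases hs.2 _ h1 with e | e <;> rw [e]
  · exact .inr Submodule.dualAnnihilator_bot
  · exact .inl Submodule.dualAnnihilator_top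

theorem IsRep.exists_simp [FiniteDimensional k V] [Nontrivial V] (h : IsRep G ρ) :
    ∃ (W : Submodule k V) (σ : Gl n k → Module.End k W), Stab G ρ W ∧ IsRep G σ ∧ Simp G σ ∧
      ∀ g ∈ G, ∀ w : W, (σ g w : V) = ρ g w := by
  obtain ⟨W, ⟨hW, h0⟩, hm⟩ := (wellFounded_lt (α := Submodule k V)).has_min
    {W | Stab G ρ W ∧ W ≠ ⊥} ⟨⊤, fun _ _ _ _ => trivial, top_ne_bot⟩
  obtain ⟨σ, h1, h2⟩ := h.exists_sub hW
  refine ⟨W, σ, hW, h1, ⟨Submodule.nontrivial_iff_ne_bot.2 h0, fun W' hW' => ?_⟩, h2⟩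
  refine or_iff_not_imp_left.2 fun h3 => ?_
  have h4 : W'.map W.subtype = W := by
    refine (W.map_subtype_le W').eq_of_not_lt (hm _ ⟨?_, fun e => h3 ?_⟩)
    · rintro g hg _ ⟨w, hw, rfl⟩
      exact ⟨σ g w, hW' g hg w hw, h2 g hg w⟩
    · exact Submodule.map_injective_of_injective W.injective_subtype
        (e.trans (Submodule.map_bot _).symm)
  exact Submodule.map_injective_of_injective W.injective_subtype
    (h4.trans W.map_subtype_top.symm)

theorem Simp.span_eq_top (hs : Simp G ρ) {C : Set V} (hC : ∀ g ∈ G, ∀ v ∈ C, ρ g v ∈ C)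
    (h0 : ∃ v ∈ C, v ≠ 0) : Submodule.span k C = ⊤ := by
  obtain ⟨v, hv, h1⟩ := h0
  refine (hs.2 _ fun g hg w hw => ?_).resolve_left fun e =>
    h1 (Submodule.span_eq_bot.1 e v hv)
  exact (Submodule.span_le.2 fun v hv => Submodule.subset_span (hC g hg v hv) :
    Submodule.span k C ≤ (Submodule.span k C).comap (ρ g)) hw

/-- The action map is regular. -/
theorem IsRep.mapOn_act [FiniteDimensional k V] (h : IsRep G ρ) {X : Type u} {O : FA k X}
    {S : Set X} {φ : X → Gl n k} {ψ : X → V} (hφ : MapOn O S (OG k n) φ) (hG : ∀ x ∈ S, φ x ∈ G)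
    (hψ : MapOn O S (OV k V) ψ) : MapOn O S (OV k V) fun x => ρ (φ x) (ψ x) := by
  have b := Module.finBasis k V
  refine (MapOn.vsum (s := Finset.univ) fun i _ =>
    MapOn.vsmul (hψ.dual (b.coord i)) ((h.mapOn (b i)).comp hφ hG)).congr fun x _ => ?_
  conv_rhs => rw [← b.sum_repr (ψ x), map_sum]
  simp only [map_smul, Module.Basis.coord_apply]

theorem IsRep.regOn_det [FiniteDimensional k V] (h : IsRep G ρ) (a : k) :
    RegOn (OG k n) (G : Set (Gl n k)) fun g => LinearMap.det (ρ g - a • (1 : Module.End k V)) := by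
  have b := Module.finBasis k V
  simp only [← LinearMap.det_toMatrix b]
  refine RegOn.det fun i j => ((h.reg (b.coord i) (b j)).sub
    (.const (b.coord i (a • b j)))).congr fun g _ => ?_
  rw [LinearMap.toMatrix_apply, ← map_sub]
  rfl

theorem mem_stabL (h : IsRep G ρ) {v : V} {g : Gl n k} :
    g ∈ stabL G ρ v ↔ g ∈ G ∧ ∃ a : k, ρ g v = a • v := by
  refine ⟨fun hg => ?_, fun hg => Subgroup.subset_closure hg⟩
  induction hg using Subgroup.closure_induction with
  | mem x hx => exact hx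
  | one => exact ⟨G.one_mem, 1, by rw [h.one, one_smul]; rfl⟩
  | mul x y _ _ hx hy =>
    obtain ⟨hx, a, ha⟩ := hx
    obtain ⟨hy, c, hc⟩ := hy
    exact ⟨G.mul_mem hx hy, c * a, by rw [h.mul_apply hx hy, hc, map_smul, ha, smul_smul]⟩
  | inv x _ hx =>
    obtain ⟨hx, a, ha⟩ := hx
    refine ⟨G.inv_mem hx, a⁻¹, ?_⟩
    have h1 := h.inv_apply hx v
    rw [ha, map_smul] at h1
    by_cases h0 : a = 0
    · rw [h0, zero_smul] at h1
      rw [← h1, map_zero, smul_zero]
    · conv_rhs => rw [← h1, smul_smul, inv_mul_cancel₀ h0, one_smul]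

theorem closed_stabL (h : IsRep G ρ) (hG : Closed (OG k n) (G : Set (Gl n k))) (v : V) :
    Closed (OG k n) (stabL G ρ v : Set (Gl n k)) := by
  have e : (stabL G ρ v : Set (Gl n k)) =
      (G : Set (Gl n k)) ∩ (fun g => ρ g v) ⁻¹' (Submodule.span k {v} : Set V) := by
    ext g
    simp only [SetLike.mem_coe, mem_stabL h, mem_inter_iff, mem_preimage,
      Submodule.mem_span_singleton, eq_comm]
  rw [e]
  exact (h.mapOn v).closed hG (closed_submodule _)

theorem exists_fixer (h : IsRep G ρ) (hG : Closed (OG k n) (G : Set (Gl n k))) (S : Set V) :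
    ∃ K : Subgroup (Gl n k), Closed (OG k n) (K : Set (Gl n k)) ∧
      ∀ g, g ∈ K ↔ g ∈ G ∧ ∀ v ∈ S, ρ g v = v := by
  refine ⟨{ carrier := {g | g ∈ G ∧ ∀ v ∈ S, ρ g v = v}
            mul_mem' := fun {a b} ha hb => ⟨G.mul_mem ha.1 hb.1, fun v hv => by
              rw [h.mul_apply ha.1 hb.1, hb.2 v hv, ha.2 v hv]⟩
            one_mem' := ⟨G.one_mem, fun v _ => by rw [h.one]; rfl⟩
            inv_mem' := fun {a} ha => ⟨G.inv_mem ha.1, fun v hv => by
              conv_lhs => rw [← ha.2 v hv, h.inv_apply ha.1]⟩ }, fun x hx => ?_, fun _ => Iff.rfl⟩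
  have hx' : x ∈ G := clo_min (fun g hg => hg.1) hG hx
  refine ⟨hx', fun v hv => sub_eq_zero.1 ((Module.forall_dual_apply_eq_zero_iff k _).1 fun l => ?_)⟩
  rw [map_sub]
  exact ((h.reg l v).sub (.const (l v))).zero_of_clo (fun g hg => hg.1)
    (fun g hg => by rw [hg.2 v hv, sub_self]) hx' hx

theorem cone_clo (h : IsRep G ρ) {C : Set V} (h1 : ∀ (a : k), ∀ v ∈ C, a • v ∈ C)
    (h2 : ∀ g ∈ G, ∀ v ∈ C, ρ g v ∈ C) : Cone G ρ (clo (OV k V) C) := by
  have _ := h
  have key : ∀ A : Module.End k V, (∀ v ∈ C, A v ∈ C) → ∀ v ∈ clo (OV k V) C,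
      A v ∈ clo (OV k V) C := fun A hA v hv =>
    clo_mono (image_subset_iff.2 hA)
      ((MapOn.linear A (S := univ)).mem_clo (subset_univ _) trivial hv)
  exact ⟨closed_clo, fun a => key (a • 1) (h1 a), fun g hg => key (ρ g) (h2 g hg)⟩

theorem cone_orbC (h : IsRep G ρ) {v : V} (hc : Closed (OV k V) (orbC G ρ v)) :
    Cone G ρ (orbC G ρ v) := by
  refine ⟨hc, ?_, ?_⟩
  · rintro a _ ⟨c, g, hg, rfl⟩
    exact ⟨a * c, g, hg, smul_smul _ _ _⟩
  · rintro g hg _ ⟨c, g', hg', rfl⟩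
    exact ⟨c, g * g', G.mul_mem hg hg', by rw [map_smul, h.mul_apply hg hg']⟩

theorem orbC_eq (h : IsRep G ρ) {v w : V} (hw : w ∈ orbC G ρ v) (h0 : w ≠ 0) :
    orbC G ρ w = orbC G ρ v := by
  obtain ⟨a, g, hg, rfl⟩ := hw
  have ha : a ≠ 0 := fun e => h0 (by rw [e, zero_smul])
  ext x
  constructor
  · rintro ⟨c, g', hg', rfl⟩
    exact ⟨c * a, g' * g, G.mul_mem hg' hg, by rw [map_smul, smul_smul, h.mul_apply hg' hg]⟩
  · rintro ⟨c, g', hg', rfl⟩
    refine ⟨c * a⁻¹, g' * g⁻¹, G.mul_mem hg' (G.inv_mem hg), ?_⟩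
    rw [map_smul, smul_smul, h.mul_apply hg' (G.inv_mem hg), h.inv_apply hg,
      inv_mul_cancel_right₀ ha]

theorem Simp.finrank_eq_one (h : IsRep G ρ) (hs : Simp G ρ) {v : V} (hv : v ≠ 0)
    (hG : G ≤ stabL G ρ v) : Module.finrank k V = 1 := by
  refine (finrank_eq_one_iff_of_nonzero v hv).2 ((hs.2 _ fun g hg w hw => ?_).resolve_left
    fun e => hv (Submodule.span_singleton_eq_bot.1 e))
  obtain ⟨c, rfl⟩ := Submodule.mem_span_singleton.1 hw
  obtain ⟨-, a, ha⟩ := (mem_stabL h).1 (hG hg)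
  rw [map_smul, ha]
  exact Submodule.smul_mem _ _ (Submodule.smul_mem _ _ (Submodule.mem_span_singleton_self v))

/-- the elements that act trivially on all simple modules -/
private def rep_K (G : Subgroup (Gl n k)) : Subgroup (Gl n k) where
  carrier := {g | g ∈ G ∧ ∀ (V : Type u) [AddCommGroup V] [Module k V] [FiniteDimensional k V]
    (ρ : Gl n k → Module.End k V), IsRep G ρ → Simp G ρ → ρ g = 1}
  mul_mem' ha hb := ⟨G.mul_mem ha.1 hb.1, fun V _ _ _ ρ hρ hs => by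
    rw [hρ.mul _ ha.1 _ hb.1, ha.2 V ρ hρ hs, hb.2 V ρ hρ hs, mul_one]⟩
  one_mem' := ⟨G.one_mem, fun _ _ _ _ _ hρ _ => hρ.one⟩
  inv_mem' ha := ⟨G.inv_mem ha.1, fun V _ _ _ ρ hρ hs => by
    rw [← hρ.one, ← inv_mul_cancel _, hρ.mul _ (G.inv_mem ha.1) _ ha.1, ha.2 V ρ hρ hs, mul_one]⟩

variable [IsAlgClosed k] [Fact (ringChar k).Prime]

/-- An element that acts trivially on all simple modules is unipotent. -/
theorem unip_of_simp {g : Gl n k} (hg : g ∈ G)
    (h : ∀ (V : Type u) [AddCommGroup V] [Module k V] [FiniteDimensional k V]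
      (ρ : Gl n k → Module.End k V), IsRep G ρ → Simp G ρ → ρ g = 1) : Unip g := by
  have key : ∀ (m : ℕ) (V : Type u) [AddCommGroup V] [Module k V] [FiniteDimensional k V]
      (ρ : Gl n k → Module.End k V), Module.finrank k V < m → IsRep G ρ →
        IsNilpotent (ρ g - 1) := by
    intro m
    induction m with
    | zero => exact fun V _ _ _ ρ hm => absurd hm (Nat.not_lt_zero _)
    | succ m ih =>
      intro V _ _ _ ρ hm hρ
      rcases subsingleton_or_nontrivial V with hV | hV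
      · exact ⟨0, Subsingleton.elim _ _⟩
      obtain ⟨W, σ, hW, h1, h2, h3⟩ := hρ.exists_simp
      obtain ⟨τ, h4, h5⟩ := hρ.exists_quot hW
      have := h2.1
      have h6 := W.finrank_quotient_add_finrank
      have h7 : 0 < Module.finrank k W := Module.finrank_pos
      obtain ⟨N, hN⟩ := ih _ τ (by omega) h4
      have h8 : ∀ (j : ℕ) (v : V), W.mkQ (((ρ g - 1) ^ j) v) = ((τ g - 1) ^ j) (W.mkQ v) := by
        intro j
        induction j with
        | zero => exact fun _ => rfl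
        | succ j ihj =>
          intro v
          simp only [pow_succ', Module.End.mul_apply, LinearMap.sub_apply, Module.End.one_apply,
            map_sub, ← ihj, h5 g hg]
      refine ⟨N + 1, LinearMap.ext fun v => ?_⟩
      have h9 : ((ρ g - 1) ^ N) v ∈ W := by
        rw [← Submodule.Quotient.mk_eq_zero, ← Submodule.mkQ_apply, h8, hN]
        rfl
      have h10 := h3 g hg ⟨_, h9⟩
      rw [h _ σ h1 h2] at h10
      rw [pow_succ', Module.End.mul_apply, LinearMap.sub_apply, ← h10]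
      exact sub_self _
  have h1 := key _ _ nat (Nat.lt_succ_self _) (isRep_nat G)
  refine (IsNilpotent.map_iff (f := (Matrix.toLinAlgEquiv' : Mt n k ≃ₐ[k] _))
    Matrix.toLinAlgEquiv'.injective).1 ?_
  rw [map_sub, map_one]
  exact h1

theorem Red.eq_bot (hG : Red G) (hN : CC N) (hNG : N ≤ G)
    (h : ∀ (V : Type u) [AddCommGroup V] [Module k V] [FiniteDimensional k V]
      (ρ : Gl n k → Module.End k V), IsRep G ρ → Simp G ρ → ∀ g ∈ N, ρ g = 1) : N = ⊥ := by
  have h1 : Closed (OG k n) (rep_K G : Set (Gl n k)) := fun x hx => by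
    refine ⟨clo_min (fun g hg => hg.1) hG.1.closed hx, fun V _ _ _ ρ hρ hs => ?_⟩
    obtain ⟨K, hK, hK'⟩ := exists_fixer hρ hG.1.closed univ
    refine LinearMap.ext fun v => ((hK' x).1 (clo_min (fun g hg => ?_) hK hx)).2 v trivial
    exact (hK' g).2 ⟨hg.1, fun v _ => by rw [hg.2 V ρ hρ hs]; rfl⟩
  have h2 : Nm G (rep_K G) := fun g hg x hx =>
    ⟨G.mul_mem (G.mul_mem hg hx.1) (G.inv_mem hg), fun V _ _ _ ρ hρ hs => by
      rw [hρ.mul _ (G.mul_mem hg hx.1) _ (G.inv_mem hg), hρ.mul _ hg _ hx.1, hx.2 V ρ hρ hs,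
        mul_one, ← hρ.mul _ hg _ (G.inv_mem hg), mul_inv_cancel, hρ.one]⟩
  have h3 := hG.2 (idc (rep_K G)) ⟨fun x hx => (idc_le _ hx).1, cc_idc h1, h2.idc_nm,
    fun x hx => unip_of_simp (idc_le _ hx).1 (idc_le _ hx).2⟩
  rw [eq_bot_iff, ← h3]
  exact hN.le_idc fun g hg => ⟨hNG hg, fun V _ _ _ ρ hρ hs => h V ρ hρ hs g hg⟩

theorem isSolvable_of_simp
    (h : ∀ (V : Type u) [AddCommGroup V] [Module k V] [FiniteDimensional k V]
      (ρ : Gl n k → Module.End k V), IsRep G ρ → Simp G ρ → Module.finrank k V = 1) :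
    Group.IsSolvable G := by
  have h1 : rep_K G ≤ G := fun _ hx => hx.1
  have : Group.IsSolvable (rep_K G) := isSolvable_of_unip fun g hg => unip_of_simp hg.1 hg.2
  refine Group.isSolvable_of_ker_le_range (Subgroup.inclusion h1) (Abelianization.of (G := G)) ?_
  rw [Abelianization.ker_of, commutator_def, Subgroup.commutator_le]
  refine fun a _ b _ => ⟨⟨(a * b * a⁻¹ * b⁻¹).1, (a * b * a⁻¹ * b⁻¹).2,
    fun V _ _ _ ρ hρ hs => ?_⟩, rfl⟩
  obtain ⟨c, hc, -⟩ := (hρ.hom a).existsUnique_eq_smul_id_of_finrank_eq_one (h V ρ hρ hs)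
  have h2 : Commute (hρ.hom a) (hρ.hom b) := by
    rw [hc]
    exact (Commute.one_left _).smul_left c
  change hρ.hom (a * b * a⁻¹ * b⁻¹) = 1
  rw [map_mul, map_mul, map_mul, h2.eq, mul_assoc (hρ.hom b), ← map_mul,
    mul_inv_cancel, map_one, mul_one, ← map_mul, mul_inv_cancel, map_one]

end Pool.Agent.AG
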