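import Pool.Agent.Lib.AG.RedZ

/-! Groups of semisimple rank one: extremal weights. -/

namespace Pool.Agent.AG

open Set Matrix

attribute [local instance 100] LieRing.ofAssociativeRing

universe u

variable {k : Type u} [Field k] [IsAlgClosed k] [Fact (ringChar k).Prime] {n : ℕ}
  {H T : Subgroup (Gl n k)} (τ : TD T) {V : Type u} [AddCommGroup V] [Module k V]
  [FiniteDimensional k V] {ρ : Gl n k → Module.End k V} {α : τ.X}

private theorem line_neg_mem {r : ℕ} {α x : Fin r → ℤ} (h : x ∈ line α) : -x ∈ line α := by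
  obtain ⟨a, b, ha, e⟩ := h
  exact ⟨a, -b, ha, by rw [smul_neg, e, neg_smul]⟩

private theorem line_sub_mem {r : ℕ} {α x z : Fin r → ℤ} (h : x ∈ line α) (h' : z ∈ line α) :
    x - z ∈ line α := by
  rw [sub_eq_add_neg]
  exact sga_line α _ h _ (line_neg_mem h')

private theorem self_mem_line {r : ℕ} (α : Fin r → ℤ) : α ∈ line α := ⟨1, 1, one_pos, by simp⟩

private theorem zero_mem_line {r : ℕ} (α : Fin r → ℤ) : 0 ∈ line α := ⟨1, 0, one_pos, by simp⟩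

private theorem line_neg {r : ℕ} (α : Fin r → ℤ) : line (-α) = line α := by
  ext x
  constructor <;> rintro ⟨a, b, ha, e⟩ <;> exact ⟨a, -b, ha, by simp [e]⟩

private theorem ray_neg_dot {r : ℕ} {α x y : Fin r → ℤ} (h : x ∈ ray (-α)) (hy : 0 < α ⬝ᵥ y) :
    x ⬝ᵥ y < 0 := by
  have := ray_dot_pos (y := -y) h (by simpa using hy)
  simpa using this

private theorem line_cases {r : ℕ} {α x y : Fin r → ℤ} (h : x ∈ line α) (hy : 0 < α ⬝ᵥ y) :
    (0 < x ⬝ᵥ y ↔ x ∈ ray α) ∧ (x ⬝ᵥ y < 0 ↔ x ∈ ray (-α)) ∧ (x ⬝ᵥ y = 0 ↔ x = 0) := by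
  have hα : α ≠ 0 := fun e => by simp [e] at hy
  refine ⟨⟨fun h1 => ?_, fun h1 => ray_dot_pos h1 hy⟩, ⟨fun h1 => ?_, fun h1 => ray_neg_dot h1 hy⟩,
    fun h1 => ?_, fun h1 => by simp [h1]⟩ <;> rcases (mem_line_iff hα).1 h with e | e | e
  · simp [e] at h1
  · exact e
  · exact absurd h1 (ray_neg_dot e hy).not_gt
  · simp [e] at h1
  · exact absurd h1 (ray_dot_pos e hy).not_gt
  · exact e
  · exact e
  · exact absurd h1 (ray_dot_pos e hy).ne'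
  · exact absurd h1 (ray_neg_dot e hy).ne

private theorem sga_single {r : ℕ} : SGa ({0} : Set (Fin r → ℤ)) := by
  rintro _ rfl _ rfl
  exact add_zero _

namespace TD

/-- A reductive group all of whose weights lie on the line through the root `α`. -/
structure Rk (H : Subgroup (Gl n k)) (α : τ.X) : Prop where
  red : Red H
  max : MaxTor H T
  rt : α ∈ τ.Rt H
  mem : ∀ g ∈ H, g.1 - 1 ∈ τ.M (line α)

/-- A simple module with its two extremal weights. -/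
structure Two (H : Subgroup (Gl n k)) (ρ : Gl n k → Module.End k V) (α xp xm : τ.X) : Prop where
  rep : IsRep H ρ
  simp : Simp H ρ
  diff : xp - xm ∈ ray α
  top : ∀ y, 0 < α ⬝ᵥ y → τ.Top ρ y xp
  bot : ∀ y, α ⬝ᵥ y < 0 → τ.Top ρ y xm
  wts : ∀ x, τ.w ρ x ≠ ⊥ → x = xp ∨ xp - x ∈ ray α
  ext : ∀ x, τ.Ext ρ x ↔ x = xp ∨ x = xm

variable {τ}

private theorem Rk.GX_le (h : τ.Rk H α) {P Q : Set τ.X} (hP : SGa P) (hQ : SGa Q)
    (e : ∀ x ∈ line α, x ∈ P → x ∈ Q) : τ.GX H P ≤ τ.GX H Q := fun g hg => by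
  obtain ⟨h1, h2⟩ := (τ.mem_GX hP).1 hg
  have h3 : g.1 - 1 ∈ τ.M (line α ∩ P) := τ.M_inf ▸ Submodule.mem_inf.2 ⟨h.mem g h1, h2⟩
  exact (τ.mem_GX hQ).2 ⟨h1, MP_mono (image_mono fun x hx => e x hx.1 hx.2) h3⟩

private theorem Rk.GX_eq (h : τ.Rk H α) {P Q : Set τ.X} (hP : SGa P) (hQ : SGa Q)
    (e : ∀ x ∈ line α, x ∈ P ↔ x ∈ Q) : τ.GX H P = τ.GX H Q :=
  le_antisymm (h.GX_le hP hQ fun x hx => (e x hx).1) (h.GX_le hQ hP fun x hx => (e x hx).2)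

private theorem Rk.mem_GX (h : τ.Rk H α) {g : Gl n k} (hg : g ∈ H) : g ∈ τ.GX H (line α) :=
  (τ.mem_GX (sga_line α)).2 ⟨hg, h.mem g hg⟩

theorem Rk.U_eq (h : τ.Rk H α) {y : τ.X} (hy : 0 < α ⬝ᵥ y) :
    τ.U H y = τ.GX H (ray α) ∧ τ.U H (-y) = τ.GX H (ray (-α)) ∧ τ.Z H y = T := by
  refine ⟨h.GX_eq (sga_pos y) (sga_ray α) fun x hx => (line_cases hx hy).1,
    h.GX_eq (sga_pos (-y)) (sga_ray (-α)) fun x hx => ?_,
    (h.GX_eq (sga_zero y) sga_single fun x hx => (line_cases hx hy).2.2).trans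
      (τ.cent_eq h.red h.max)⟩
  rw [← (line_cases hx hy).2.1]
  simp

theorem Rk.exists_rg (h : τ.Rk H α) : ∃ y, τ.Rg y ∧ 0 < α ⬝ᵥ y := by
  obtain ⟨y, h1, -, h2⟩ := τ.exists_rg (finite_singleton α) α
  refine ⟨y, h1, h2 α rfl (lt_of_le_of_ne ?_ fun e => h.rt.1 (dotProduct_self_eq_zero.1 e.symm))⟩
  exact Finset.sum_nonneg fun i _ => mul_self_nonneg _

theorem Rk.neg (h : τ.Rk H α) (h' : -α ∈ τ.Rt H) : τ.Rk H (-α) :=
  ⟨h.red, h.max, h', by rw [line_neg]; exact h.mem⟩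

theorem Rk.act (h : τ.Rk H α) {g : Gl n k} {a a' : τ.X ≃+ τ.X} (hg : g ∈ H) (ha : τ.Act g a a') :
    (∀ x, a x - x ∈ line α) ∧ (g ∈ T ∨ a α = -α) := by
  have h1 : ∀ x, a x - x ∈ line α := fun x => mem_line_of_dot fun y hy => by
    have h2 : g ∈ τ.Z H y := τ.GX_mono le_rfl (fun z hz => line_dot_zero hz hy) (h.mem_GX hg)
    have h3 : a' y = y := τ.co_inj (funext fun c => by
      rw [← ha.co, ← (τ.mem_Z.1 h2).2 c, mul_inv_cancel_right])
    have h4 := ha.dot x y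
    rw [h3] at h4
    rw [sub_dotProduct, h4, sub_self]
  refine ⟨h1, ?_⟩
  obtain ⟨c, b, hc, e⟩ : a α ∈ line α := by
    simpa using sga_line α _ (h1 α) _ (self_mem_line α)
  rw [← natCast_zsmul] at e
  have hc' : (0 : ℤ) < c := by exact_mod_cast hc
  obtain ⟨m, hm, h2, -⟩ := ha.finite_order
  have h3 : ∀ j : ℕ, (c : ℤ) ^ j • (a : τ.X → τ.X)^[j] α = b ^ j • α := fun j => by
    induction j with
    | zero => simp
    | succ j ih =>
      rw [Function.iterate_succ_apply', pow_succ', mul_smul, ← map_zsmul, ih, map_zsmul,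
        smul_comm, e, smul_smul, pow_succ]
  have h4 := h3 m
  rw [h2] at h4
  have h5 : (c : ℤ) ^ m = b ^ m := smul_left_injective ℤ h.rt.1 h4
  have h6 : |b| = c := by
    refine (pow_left_inj₀ (abs_nonneg b) hc'.le hm.ne').1 ?_
    rw [← abs_pow, ← h5, abs_of_pos (pow_pos hc' m)]
  rcases (abs_eq hc'.le).1 h6 with h7 | h7
  · have h8 : a α = α := smul_right_injective _ hc'.ne' (h7 ▸ e)
    have h9 : ∀ z ∈ line α, a z = z := fun z ⟨d, f, hd, hz⟩ =>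
      smul_right_injective _ hd.ne' (show d • a z = d • z by
        rw [← map_nsmul, hz, map_zsmul, h8])
    left
    rw [← τ.cent_eq h.red h.max]
    exact τ.mem_GX_zero.2 ⟨hg, fun t ht =>
      (ha.comm (ha.eq_of_unip fun x => h9 _ (h1 x)) t ht).symm⟩
  · right
    refine smul_right_injective _ hc'.ne' ?_
    change (c : ℤ) • a α = (c : ℤ) • (-α)
    rw [e, h7, neg_smul, smul_neg]

private theorem Rk.sub_mem (h : τ.Rk H α) (hρ : IsRep H ρ) (hs : Simp H ρ) {x₀ x : τ.X}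
    (h0 : τ.w ρ x₀ ≠ ⊥) (hx : τ.w ρ x ≠ ⊥) : x - x₀ ∈ line α := by
  have hW : Stab H ρ (⨆ z ∈ (x₀ + ·) '' line α, τ.w ρ z) := fun g hg w hw => by
    refine (iSup₂_le fun z hz v hv => ?_ : (⨆ z ∈ (x₀ + ·) '' line α, τ.w ρ z) ≤
      (⨆ z ∈ (x₀ + ·) '' line α, τ.w ρ z).comap (ρ g)) hw
    have h1 := τ.shift_w (sga_line α) h.max.prop.1 hρ (h.mem_GX hg) hv
    have h2 : (⨆ z' ∈ (z + ·) '' line α, τ.w ρ z') ≤ ⨆ z ∈ (x₀ + ·) '' line α, τ.w ρ z := by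
      refine biSup_mono ?_
      obtain ⟨l, hl, rfl⟩ := hz
      rintro _ ⟨l', hl', rfl⟩
      exact ⟨l + l', sga_line α _ hl _ hl', (add_assoc _ _ _).symm⟩
    have h3 : v ∈ ⨆ z ∈ (x₀ + ·) '' line α, τ.w ρ z := le_iSup₂_of_le (f := fun z
      (_ : z ∈ (x₀ + ·) '' line α) => τ.w ρ z) z hz le_rfl hv
    simpa using Submodule.add_mem _ (h2 h1) h3
  rcases hs.2 _ hW with e | e
  · refine absurd (le_bot_iff.1 (e ▸ ?_)) h0
    exact le_iSup₂_of_le (f := fun z (_ : z ∈ (x₀ + ·) '' line α) => τ.w ρ z) x₀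
      ⟨0, zero_mem_line α, add_zero _⟩ le_rfl
  · by_contra hc
    refine hx ((τ.iSupIndep_w ρ x).eq_bot_of_le (le_top.trans (e ▸ biSup_mono ?_)))
    rintro _ ⟨l, hl, rfl⟩ e'
    exact hc (by rwa [← e', add_sub_cancel_left])

theorem Rk.two (h : τ.Rk H α) (hρ : IsRep H ρ) (hs : Simp H ρ) (h1 : Module.finrank k V ≠ 1) :
    ∃ xp xm, τ.Two H ρ α xp xm := by
  obtain ⟨y, hy, hy0⟩ := h.exists_rg
  obtain ⟨xp, hp, v, hv, hv'⟩ := τ.exists_top h.red.1 h.max hρ hs hy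
  obtain ⟨xm, hm, -⟩ := τ.exists_top h.red.1 h.max hρ hs (Rg.neg τ hy)
  have a1 : ∀ x, τ.w ρ x ≠ ⊥ → x ≠ xp → xp - x ∈ ray α := fun x hx hne =>
    (line_cases (h.sub_mem hρ hs hx hp.1) hy0).1.1 (by
      rw [sub_dotProduct]; exact sub_pos.2 (hp.2 x hx hne))
  have a2 : ∀ x, τ.w ρ x ≠ ⊥ → x ≠ xm → x - xm ∈ ray α := fun x hx hne =>
    (line_cases (h.sub_mem hρ hs hm.1 hx) hy0).1.1 (by
      have := hm.2 x hx hne
      rw [dotProduct_neg, dotProduct_neg] at this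
      rw [sub_dotProduct]
      omega)
  have a3 : xp ≠ xm := fun e => h1 (finrank_eq_one_iff'.2 ⟨v, hv, fun w => by
    have h2 : ⨆ x, τ.w ρ x ≤ τ.w ρ xp := iSup_le fun x => by
      by_cases hx : τ.w ρ x = ⊥
      · rw [hx]; exact bot_le
      by_cases hne : x = xp
      · rw [hne]
      have h3 := hp.2 x hx hne
      have h4 := hm.2 x hx (e ▸ hne)
      rw [dotProduct_neg, dotProduct_neg, ← e] at h4
      omega
    rw [τ.iSup_w (hρ.mono h.max.prop.1), hv'] at h2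
    exact Submodule.mem_span_singleton.1 (h2 Submodule.mem_top)⟩)
  have a4 : ∀ y', 0 < α ⬝ᵥ y' → τ.Top ρ y' xp := fun y' hy' => ⟨hp.1, fun x hx hne => by
    have := ray_dot_pos (a1 x hx hne) hy'
    rw [sub_dotProduct] at this
    omega⟩
  have a5 : ∀ y', α ⬝ᵥ y' < 0 → τ.Top ρ y' xm := fun y' hy' => ⟨hm.1, fun x hx hne => by
    have := ray_dot_pos (y := -y') (a2 x hx hne) (by simpa using hy')
    rw [dotProduct_neg, sub_dotProduct] at this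
    omega⟩
  refine ⟨xp, xm, hρ, hs, a2 xp hp.1 a3, a4, a5, fun x hx => ?_, fun x => ⟨?_, ?_⟩⟩
  · exact (em (x = xp)).imp_right (a1 x hx)
  · rintro ⟨y', h2, h3⟩
    obtain ⟨h4, A, -, h5, h6⟩ := h.rt
    rcases (h2 α h4 ((Submodule.ne_bot_iff _).2 ⟨A, h6, h5⟩)).lt_or_gt with h7 | h7
    · exact Or.inr (Top.unique τ h3 (a5 y' h7))
    · exact Or.inl (Top.unique τ h3 (a4 y' h7))
  · rintro (rfl | rfl)
    · exact ⟨y, hy, hp⟩
    · exact ⟨-y, Rg.neg τ hy, hm⟩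

theorem Rk.exists_two (h : τ.Rk H α) :
    ∃ (V : Type u) (_ : AddCommGroup V) (_ : Module k V) (_ : FiniteDimensional k V)
      (ρ : Gl n k → Module.End k V) (xp xm : τ.X), τ.Two H ρ α xp xm := by
  by_contra hc
  have h1 : Group.IsSolvable H := isSolvable_of_simp fun V _ _ _ ρ hρ hs => by
    by_contra h2
    obtain ⟨xp, xm, h3⟩ := h.two hρ hs h2
    exact hc ⟨V, _, _, inferInstance, ρ, xp, xm, h3⟩
  obtain ⟨U, hU, hU', -⟩ := exists_unipPart h.red.1 h1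
  have h2 : ∀ g ∈ H, g.1 - 1 ∈ τ.M {0} := fun g hg => by
    obtain ⟨t, ht, v, hv, hv', rfl⟩ := h.max.decomp h.red.1 h1 hg
    have h3 := (hU v).2 ⟨hv, hv'⟩
    rw [h.red.2 U hU', Subgroup.mem_bot] at h3
    rw [h3, mul_one]
    exact ((τ.mem_GX sga_single).1 (τ.le_GX sga_single rfl h.max.prop.1 ht)).2
  obtain ⟨h4, A, h5, h6, h7⟩ := h.rt
  have h8 : A ∈ τ.M {α} := by
    rw [τ.M_eq]
    simpa using h7
  have h9 : A ∈ τ.M ({0} ∩ {α}) := τ.M_inf ▸ Submodule.mem_inf.2 ⟨mem_of_mem_lie h2 h5, h8⟩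
  rw [singleton_inter_of_notMem (by simpa using h4.symm), τ.M_eq] at h9
  exact h6 (by simpa using h9)

theorem Rk.exists_refl (h : τ.Rk H α) {xp xm : τ.X} (h2 : τ.Two H ρ α xp xm) :
    ∃ g ∈ H, ∃ a a', τ.Act g a a' ∧ a α = -α ∧ a xp = xm := by
  have hp : τ.Ext ρ xp := (h2.ext xp).2 (Or.inl rfl)
  have hm : τ.Ext ρ xm := (h2.ext xm).2 (Or.inr rfl)
  obtain ⟨v, hv, hv0⟩ := (Submodule.ne_bot_iff _).1 hp.choose_spec.2.1
  obtain ⟨w, hw, hw0⟩ := (Submodule.ne_bot_iff _).1 hm.choose_spec.2.1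
  have h3 : w ∈ orbC H ρ v := Ext.mem_cone τ hm h.red.1 h.max h2.rep h2.simp
    (cone_orbC h2.rep (Ext.closed_orbC τ hp h.red.1 h.max h2.rep h2.simp hv))
    ⟨v, ⟨1, 1, H.one_mem, by rw [h2.rep.one, one_smul]; rfl⟩, hv0⟩ hw
  obtain ⟨-, g, hg, a, a', ha, e⟩ := Ext.of_mem_orbC τ hp h.red.1 h.max h2.rep hv h3 hw0 hw
  refine ⟨g, hg, a, a', ha, (h.act hg ha).2.resolve_left fun hT => ?_, e⟩
  rw [(ha.unique (act_of_comm fun t ht => τ.dg.comm hT ht)).1] at e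
  obtain ⟨y, -, hy⟩ := h.exists_rg
  have h4 := ray_dot_pos h2.diff hy
  rw [← e] at h4
  simp at h4

end TD

end Pool.Agent.AG
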