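import Pool.Agent.Lib.AG.Rk1a
import Pool.Agent.Lib.AG.Prod

/-! Groups of semisimple rank one: the root spaces are lines. -/

namespace Pool.Agent.AG

open Set Matrix

attribute [local instance 100] LieRing.ofAssociativeRing

universe u

private theorem rk1b_line_neg {r : ℕ} {α x : Fin r → ℤ} (h : x ∈ line α) : -x ∈ line α := by
  obtain ⟨a, b, ha, e⟩ := h
  exact ⟨a, -b, ha, by rw [smul_neg, e, neg_smul]⟩

private theorem rk1b_ray_line {r : ℕ} {α x : Fin r → ℤ} (h : x ∈ ray α) : x ∈ line α := by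
  obtain ⟨a, b, ha, -, e⟩ := h
  exact ⟨a, b, ha, by rw [e, natCast_zsmul]⟩

private theorem rk1b_line_zero {r : ℕ} {α x y : Fin r → ℤ} (h : x ∈ line α) (hy : 0 < α ⬝ᵥ y)
    (h0 : x ⬝ᵥ y = 0) : x = 0 := by
  obtain ⟨a, b, ha, e⟩ := h
  have h1 : (a • x) ⬝ᵥ y = (b • α) ⬝ᵥ y := by rw [e]
  rw [smul_dotProduct, smul_dotProduct, h0, smul_zero, smul_eq_mul] at h1
  have h2 : b = 0 := (mul_eq_zero.1 h1.symm).resolve_right hy.ne'
  rw [h2, zero_smul] at e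
  exact (smul_eq_zero.1 e).resolve_left ha.ne'

private theorem rk1b_span {k : Type u} [Field k] {V : Type u} [AddCommGroup V] [Module k V]
    {z v w : V} (hv : v ∈ Submodule.span k {z}) (h0 : v ≠ 0) (hw : w ∈ Submodule.span k {z}) :
    ∃ c : k, w = c • v := by
  obtain ⟨a, rfl⟩ := Submodule.mem_span_singleton.1 hv
  obtain ⟨b, rfl⟩ := Submodule.mem_span_singleton.1 hw
  have ha : a ≠ 0 := fun e => h0 (by rw [e, zero_smul])
  exact ⟨b / a, by rw [smul_smul, div_mul_cancel₀ b ha]⟩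

variable {k : Type u} [Field k] [IsAlgClosed k] [Fact (ringChar k).Prime] {n : ℕ}
  {H T : Subgroup (Gl n k)} {τ : TD T} {V : Type u} [AddCommGroup V] [Module k V]
  [FiniteDimensional k V] {ρ : Gl n k → Module.End k V} {α xp xm : τ.X}

namespace TD

omit [IsAlgClosed k] [Fact (ringChar k).Prime] [FiniteDimensional k V] in
private theorem rk1b_chi_one {x : τ.X} (hx : τ.w ρ x ≠ ⊥) {s : T} (hs : ∀ v, ρ s.1 v = v) :
    τ.χ x s = 1 := by
  obtain ⟨v, hv, h0⟩ := Submodule.exists_mem_ne_zero_of_ne_bot hx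
  have h1 := mem_wV.1 hv s
  rw [hs v] at h1
  have h2 : ((τ.χ x s : k) - 1) • v = 0 := by rw [sub_smul, one_smul, ← h1, sub_self]
  have h3 := (smul_eq_zero.1 h2).resolve_right h0
  exact Units.ext (sub_eq_zero.1 h3)

omit [FiniteDimensional k V] in
private theorem rk1b_central (h : τ.Rk H α) (h2 : τ.Two H ρ α xp xm) {S : Subgroup (Gl n k)}
    (hS : Tor S) (hST : S ≤ T) (hK : ∀ s ∈ S, ∀ v, ρ s v = v) {s : Gl n k} (hs : s ∈ S)
    {g : Gl n k} (hg : g ∈ H) : s * g = g * s := by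
  obtain ⟨y, -, hy⟩ := h.exists_rg
  have hy' : α ⬝ᵥ (-y) < 0 := by rw [dotProduct_neg]; exact neg_neg_of_pos hy
  obtain ⟨a, b, ha, hb, e⟩ := h2.diff
  have h1 : ∀ s' (hs' : s' ∈ S), τ.χ ((b : ℤ) • α) ⟨s', hST hs'⟩ = 1 := fun s' hs' => by
    have e1 := rk1b_chi_one (s := ⟨s', hST hs'⟩) (h2.top y hy).1 (hK s' hs')
    have e2 := rk1b_chi_one (s := ⟨s', hST hs'⟩) (h2.bot (-y) hy').1 (hK s' hs')
    rw [natCast_zsmul, ← e, ← natCast_zsmul, τ.χ_zsmul, sub_eq_add_neg, τ.χ_add, τ.χ_neg,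
      MonoidHom.zpow_apply, MonoidHom.mul_apply, MonoidHom.inv_apply, e1, e2, inv_one, one_mul,
      _root_.one_zpow]
  have h3 : ∀ x ∈ line α, τ.χ x ⟨s, hST hs⟩ = 1 := by
    rintro x ⟨a', b', ha', e'⟩
    obtain ⟨s', hs', rfl⟩ := hS.divisible (mul_pos ha' hb).ne' hs
    have e1 : (⟨s' ^ (a' * b), hST hs⟩ : T) = (⟨s', hST hs'⟩ : T) ^ (a' * b) := rfl
    have e2 : ((a' * b : ℕ) : ℤ) • x = b' • ((b : ℤ) • α) := by
      rw [natCast_zsmul, mul_comm, mul_smul, e', natCast_zsmul, smul_comm]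
    rw [e1, map_pow, ← zpow_natCast, ← MonoidHom.zpow_apply, ← τ.χ_zsmul, e2, τ.χ_zsmul,
      MonoidHom.zpow_apply, h1 s' hs', _root_.one_zpow]
  have h4 : τ.M (line α) ≤ LinearMap.eqLocus (Ad s) LinearMap.id := by
    rw [τ.M_eq]
    refine iSup₂_le fun x hx A hA => ?_
    have e1 := mem_wV.1 hA ⟨s, hST hs⟩
    rw [h3 x hx, Units.val_one, one_smul] at e1
    exact e1
  have h5 : s.1 * (g.1 - 1) * s⁻¹.1 = g.1 - 1 := (Ad_apply s _).symm.trans (h4 (h.mem g hg))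
  have h6 : (s * g * s⁻¹).1 = g.1 := by
    rw [mul_sub, sub_mul, mul_one, Units.mul_inv, sub_left_inj] at h5
    exact h5
  rw [← mul_inv_eq_iff_eq_mul]
  exact Units.ext h6

theorem Rk.stab_eq_one (h : τ.Rk H α) (h2 : τ.Two H ρ α xp xm) {v : V} (hv : v ∈ τ.w ρ xp)
    (h0 : v ≠ 0) {u : Gl n k} (hu : u ∈ τ.GX H (ray (-α))) (e : ρ u v = v) : u = 1 := by
  obtain ⟨y, -, hy⟩ := h.exists_rg
  have hy' : α ⬝ᵥ (-y) < 0 := by rw [dotProduct_neg]; exact neg_neg_of_pos hy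
  obtain ⟨-, hU, -⟩ := h.U_eq hy
  have hT : T ≤ H := h.max.prop.1
  have hc := h.red.1.closed
  have hUH : τ.GX H (ray (-α)) ≤ H := GP_le
  obtain ⟨N, hN, mN⟩ := exists_fixer (h2.rep.mono hUH) (τ.closed_GX (sga_ray _) hc) {v}
  have hNU : N ≤ τ.U H (-y) := fun g hg => hU ▸ ((mN g).1 hg).1
  have hNH : N ≤ H := fun g hg => hUH ((mN g).1 hg).1
  have hn : Nm T N := fun t ht g hg => by
    obtain ⟨g1, g2⟩ := (mN g).1 hg
    refine (mN _).2 ⟨τ.nm_GX (sga_ray _) (Nm.of_le hT) t ht g g1, ?_⟩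
    rintro w rfl
    have e1 := mem_wV.1 hv ⟨t⁻¹, T.inv_mem ht⟩
    have e2 : ρ g (ρ t⁻¹ w) = ρ t⁻¹ w := by
      rw [show ρ t⁻¹ w = _ from e1, map_smul, g2 w rfl]
    rw [h2.rep.mul_apply (H.mul_mem (hT ht) (hUH g1)) (H.inv_mem (hT ht)),
      h2.rep.mul_apply (hT ht) (hUH g1), e2, h2.rep.apply_inv (hT ht)]
  have hcc : CC N := τ.cc_of_le_U hN hn hNU
  have hun : ∀ g ∈ N, Unip g := fun g hg =>
    τ.unip_GX (sga_pos (-y)) (by simp) (hNU hg)
  have hl := τ.luna' h.red.1 h.max h2.rep h2.simp hcc hNH hun fun x hx w hw g hg => by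
    rcases (h2.ext x).1 hx with rfl | rfl
    · obtain ⟨z, -, -, -, hz⟩ := hx.line τ h.red.1 h.max h2.rep h2.simp
      obtain ⟨c, rfl⟩ := rk1b_span (hz ▸ hv) h0 (hz ▸ hw)
      rw [map_smul, ((mN g).1 hg).2 v rfl]
    · exact (h2.bot (-y) hy').fix τ hT h2.rep (hNU hg) hw
  obtain ⟨K, hK, mK⟩ := exists_fixer h2.rep hc univ
  have hKn : Nm H K := fun g hg x hx => by
    obtain ⟨x1, x2⟩ := (mK x).1 hx
    refine (mK _).2 ⟨H.mul_mem (H.mul_mem hg x1) (H.inv_mem hg), fun w _ => ?_⟩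
    rw [h2.rep.mul_apply (H.mul_mem hg x1) (H.inv_mem hg), h2.rep.mul_apply hg x1,
      x2 _ (mem_univ _), h2.rep.apply_inv hg]
  have hb : N = ⊥ := eq_bot_of_normal h.red h.max hK (fun g hg => ((mK g).1 hg).1) hKn
    (fun S hS hST hSK s hs g hg => rk1b_central h h2 hS hST
      (fun s' hs' w => ((mK s').1 (hSK hs')).2 w (mem_univ _)) hs hg) hcc
    (fun g hg => (mK g).2 ⟨hNH hg, fun w _ => by rw [hl g hg]; rfl⟩) hun
  have : u ∈ N := (mN u).2 ⟨hu, fun w hw => by rw [hw]; exact e⟩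
  rwa [hb, Subgroup.mem_bot] at this

private theorem rk1b_co_ne (h : τ.Rk H α) (h2 : τ.Two H ρ α xp xm) {l : Module.Dual k V}
    (hl : τ.IsCo ρ xm l) {w : V} (hw : w ∈ τ.w ρ xm) (h0 : w ≠ 0) : l w ≠ 0 := by
  intro e
  obtain ⟨z, -, -, -, hz⟩ := ((h2.ext xm).2 (Or.inr rfl)).line τ h.red.1 h.max h2.rep h2.simp
  refine hl.1 (LinearMap.ker_eq_top.1 (top_le_iff.1 ?_))
  rw [← τ.iSup_w (h2.rep.mono h.max.prop.1)]
  refine iSup_le fun x v hv => ?_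
  by_cases hx : x = xm
  · subst hx
    obtain ⟨c, rfl⟩ := rk1b_span (hz ▸ hw) h0 (hz ▸ hv)
    rw [LinearMap.mem_ker, map_smul, e, smul_zero]
  · exact hl.2 x hx v hv

theorem Rk.eq_one_of_co (h : τ.Rk H α) (h2 : τ.Two H ρ α xp xm) {v : V} (hv : v ∈ τ.w ρ xp)
    (h0 : v ≠ 0) {l : Module.Dual k V} (hl : τ.IsCo ρ xm l) {u : Gl n k}
    (hu : u ∈ τ.GX H (ray (-α))) (e : l (ρ u v) = 0) : u = 1 := by
  classical
  obtain ⟨y, -, hy⟩ := h.exists_rg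
  have hT : T ≤ H := h.max.prop.1
  have huH : u ∈ H := GP_le hu
  have hxp : τ.Ext ρ xp := (h2.ext xp).2 (Or.inl rfl)
  have hC := cone_orbC h2.rep (hxp.closed_orbC τ h.red.1 h.max h2.rep h2.simp hv)
  have hC' : Cone T ρ (orbC H ρ v) := ⟨hC.1, hC.2.1, fun g hg => hC.2.2 g (hT hg)⟩
  obtain ⟨c, hc, hs⟩ := τ.exists_comp (h2.rep.mono hT) (ρ u v)
  have hw0 : ρ u v ≠ 0 := fun e0 => h0 (by rw [← h2.rep.inv_apply huH v, e0, map_zero])
  have hne : c.support.Nonempty := by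
    rw [Finsupp.support_nonempty_iff]
    rintro rfl
    exact hw0 (by rw [← hs, Finsupp.sum_zero_index])
  obtain ⟨x₀, hx₀, hmax⟩ := c.support.exists_max_image (fun x => x ⬝ᵥ (-y)) hne
  have hwt : ∀ x ∈ c.support, τ.w ρ x ≠ ⊥ := fun x hx eb =>
    Finsupp.mem_support_iff.1 hx (by have := hc x; rwa [eb, Submodule.mem_bot] at this)
  have hln : ∀ x ∈ c.support, xp - x ∈ line α := fun x hx => by
    rcases h2.wts x (hwt x hx) with rfl | h3
    · exact ⟨1, 0, one_pos, by simp⟩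
    · exact rk1b_ray_line h3
  have hsep : ∀ x ∈ c.support, x ⬝ᵥ (-y) = x₀ ⬝ᵥ (-y) → x = x₀ := fun x hx e1 => by
    have h3 : x - x₀ ∈ line α := by
      have := sga_line α _ (hln x₀ hx₀) _ (rk1b_line_neg (hln x hx))
      rwa [show xp - x₀ + -(xp - x) = x - x₀ by abel] at this
    refine sub_eq_zero.1 (rk1b_line_zero h3 hy ?_)
    rw [dotProduct_neg, dotProduct_neg, neg_inj] at e1
    rw [sub_dotProduct, e1, sub_self]
  have hmem := τ.top_mem_cone hC' hc (hs ▸ ⟨1, u, huH, (one_smul _ _).symm⟩) hmax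
  have hfil : (c.filter fun x => x ⬝ᵥ (-y) = x₀ ⬝ᵥ (-y)) = Finsupp.single x₀ (c x₀) := by
    ext x
    rw [Finsupp.filter_apply, Finsupp.single_apply]
    by_cases hx : x₀ = x
    · rw [if_pos hx, if_pos (by rw [hx]), hx]
    · rw [if_neg hx]
      split_ifs with h3
      · by_contra h4
        exact hx (hsep x (Finsupp.mem_support_iff.2 h4) h3).symm
      · rfl
  rw [hfil, Finsupp.sum_single_index rfl] at hmem
  have hc0 : c x₀ ≠ 0 := Finsupp.mem_support_iff.1 hx₀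
  have hext := (hxp.of_mem_orbC τ h.red.1 h.max h2.rep hv hmem hc0 (hc x₀)).1
  rcases (h2.ext x₀).1 hext with rfl | rfl
  · have h3 : ρ u v ∈ τ.w ρ x₀ := by
      rw [← hs]
      refine Submodule.sum_mem _ fun x hx => ?_
      by_cases hx' : x = x₀
      · exact hx' ▸ hc x
      · have h4 := (h2.top y hy).2 x (hwt x hx) hx'
        have h5 := hmax x hx
        rw [dotProduct_neg, dotProduct_neg, neg_le_neg_iff] at h5
        exact absurd h4 (not_lt.2 h5)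
    have h4 := τ.shift_w (sga_ray _) hT h2.rep hu hv
    have h5 : (⨆ z ∈ (x₀ + ·) '' ray (-α), τ.w ρ z) ≤ ⨆ z, ⨆ (_ : z ≠ x₀), τ.w ρ z := by
      refine biSup_mono ?_
      rintro _ ⟨p, hp, rfl⟩ e1
      have h6 : 0 < p ⬝ᵥ (-y) := ray_dot_pos hp (by rwa [neg_dotProduct_neg])
      rw [add_eq_left.1 e1, zero_dotProduct] at h6
      exact lt_irrefl _ h6
    have h6 := (Submodule.disjoint_def.1 (τ.iSupIndep_w ρ x₀)) _ (Submodule.sub_mem _ h3 hv) (h5 h4)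
    exact h.stab_eq_one h2 hv h0 hu (sub_eq_zero.1 h6)
  · refine absurd ?_ (rk1b_co_ne h h2 hl (hc x₀) hc0)
    rw [← hs, Finsupp.sum, map_sum, Finset.sum_eq_single_of_mem x₀ hx₀
      fun x _ hx => hl.2 x hx _ (hc x)] at e
    exact e

private theorem rk1b_neg_rt (h : τ.Rk H α) : -α ∈ τ.Rt H := by
  obtain ⟨V, _, _, _, ρ, xp, xm, h2⟩ := h.exists_two
  obtain ⟨g, hg, a, a', ha, e, -⟩ := h.exists_refl h2
  exact e ▸ ha.map_Rt τ hg h.rt

theorem Rk.dim_neg (h : τ.Rk H α) : ∃ e, e ≠ 0 ∧ e ∈ lie H ∧ e ∈ τ.w Ad (-α) ∧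
    ∀ A ∈ lie H, A ∈ τ.M (ray (-α)) → ∃ c : k, A = c • e := by
  classical
  obtain ⟨V, _, _, _, ρ, xp, xm, h2⟩ := h.exists_two
  obtain ⟨-, e, he, he0, hew⟩ := rk1b_neg_rt h
  obtain ⟨y, -, hy⟩ := h.exists_rg
  obtain ⟨-, hU, -⟩ := h.U_eq hy
  have hT : T ≤ H := h.max.prop.1
  have hc := h.red.1.closed
  have hUH : τ.GX H (ray (-α)) ≤ H := GP_le
  have hcU := τ.closed_GX (sga_ray (-α)) hc
  have hnU := τ.nm_GX (sga_ray (-α)) (Nm.of_le hT)
  obtain ⟨m, b, wt, hb, hs, hw⟩ := τ.dg.exists_basis (isRep_Ad T) hnU.stab_lie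
  have hx : ∀ a, ∃ x, wt a = τ.χ x := fun a => τ.exists_χ ((isRep_Ad T).regChar fun eb =>
    hb.ne_zero a (by have := hw a; rwa [eb, Submodule.mem_bot] at this))
  choose x hx using hx
  obtain ⟨l, yy, hch⟩ := exists_chart (wt := fun a => τ.χ (x a)) τ.dg hb hs
    fun a => hx a ▸ hw a
  obtain ⟨v, hv, h0⟩ := Submodule.exists_mem_ne_zero_of_ne_bot (h2.top y hy).1
  obtain ⟨-, l₀, -, hl₀, -⟩ := ((h2.ext xm).2 (Or.inr rfl)).line τ h.red.1 h.max h2.rep h2.simp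
  have hne : xp ≠ xm := fun e1 => by
    have := ray_dot_pos h2.diff hy
    rw [e1, sub_self, zero_dotProduct] at this
    exact lt_irrefl _ this
  obtain ⟨F, hF⟩ := τ.pos_poly hcU hnU hU.ge hch ((h2.rep.mono hUH).reg l₀ v)
  have z1 : (fun a => l a ((1 : Gl n k).1 - 1)) = 0 := by
    funext a
    rw [Units.val_one, sub_self, map_zero]
    rfl
  have hm : m ≤ 1 := by
    by_contra hm
    have f0 : MvPolynomial.eval 0 F = 0 := by
      rw [← z1, ← hF 1 (Subgroup.one_mem _), h2.rep.one]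
      exact hl₀.2 xp hne v hv
    obtain ⟨c, hc0, hc1⟩ := exists_ne_zero_root (by rw [Fintype.card_fin]; omega) F f0
    obtain ⟨u, hu, e1⟩ := (τ.pos_bij hcU hnU hU.ge hch).surjOn (mem_univ c)
    have e2 : (fun a => l a (u.1 - 1)) = c := e1
    have e3 : u = 1 := h.eq_one_of_co h2 hv h0 hl₀ hu (by rw [hF u hu, e2, hc1])
    rw [e3, z1] at e2
    exact hc0 e2.symm
  obtain ⟨z, hz⟩ : ∃ z, range b ⊆ {z} := by
    rcases Nat.le_one_iff_eq_zero_or_eq_one.1 hm with rfl | rfl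
    · exact ⟨0, by rintro _ ⟨a, -⟩; exact a.elim0⟩
    · exact ⟨b 0, by rintro _ ⟨a, rfl⟩; rw [Subsingleton.elim a 0]; rfl⟩
  have key : ∀ A ∈ lie H, A ∈ τ.M (ray (-α)) → A ∈ Submodule.span k {z} := fun A h3 h4 => by
    refine Submodule.span_mono hz ?_
    rw [hs]
    exact (τ.mem_lie_GX hc (Nm.of_le hT) (sga_ray _)).2 ⟨h3, h4⟩
  have heM : e ∈ τ.M (ray (-α)) := by
    rw [τ.M_eq]
    exact Submodule.mem_iSup_of_mem (-α)
      (Submodule.mem_iSup_of_mem ⟨1, 1, one_pos, one_pos, rfl⟩ hew)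
  exact ⟨e, he0, he, hew, fun A h3 h4 => rk1b_span (key e he heM) he0 (key A h3 h4)⟩

theorem Rk.dim_pos (h : τ.Rk H α) : ∃ e, e ≠ 0 ∧ e ∈ lie H ∧ e ∈ τ.w Ad α ∧
    ∀ A ∈ lie H, A ∈ τ.M (ray α) → ∃ c : k, A = c • e := by
  have := (h.neg (rk1b_neg_rt h)).dim_neg
  rwa [neg_neg] at this

end TD

end Pool.Agent.AG
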