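import Pool.Agent.Lib.AG.Rk1b

/-! Groups of semisimple rank one: the Bruhat decomposition. Root subgroups. -/

namespace Pool.Agent.AG

open Set Matrix

attribute [local instance 100] LieRing.ofAssociativeRing

universe u

variable {k : Type u} [Field k] [IsAlgClosed k] [Fact (ringChar k).Prime] {n : ℕ}
  {G H T : Subgroup (Gl n k)} {τ : TD T} {V : Type u} [AddCommGroup V] [Module k V]
  [FiniteDimensional k V] {ρ : Gl n k → Module.End k V} {α xp xm : τ.X}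

namespace TD

private theorem rk1c_w_eq {W : Type u} [AddCommGroup W] [Module k W]
    {σ : Gl n k → Module.End k W} {x x' : τ.X} {v : W} (h0 : v ≠ 0) (h : v ∈ τ.w σ x)
    (h' : v ∈ τ.w σ x') : x = x' := by
  by_contra hne
  exact h0 ((Submodule.disjoint_def.1 ((τ.iSupIndep_w σ).pairwiseDisjoint hne)) v h h')

omit [IsAlgClosed k] [Fact (ringChar k).Prime] [FiniteDimensional k V] in
private theorem rk1c_ne (hρ : IsRep H ρ) {g : Gl n k} (hg : g ∈ H) {v : V} (h0 : v ≠ 0) :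
    ρ g v ≠ 0 := fun e => h0 (by rw [← hρ.inv_apply hg v, e, map_zero])

private theorem rk1c_w_le {P : Set τ.X} {x : τ.X} (hx : x ∈ P) : τ.w Ad x ≤ τ.M P := by
  rw [τ.M_eq]
  exact le_iSup₂ (f := fun x (_ : x ∈ P) => τ.w Ad x) x hx

private theorem rk1c_ray_line {r : ℕ} (β : Fin r → ℤ) : ray β ⊆ line β := by
  rintro x ⟨a, b, ha, -, e⟩
  exact ⟨a, b, ha, by rw [e, natCast_zsmul]⟩

private theorem rk1c_ray_line' {r : ℕ} (β : Fin r → ℤ) : ray (-β) ⊆ line β := by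
  rintro x ⟨a, b, ha, -, e⟩
  exact ⟨a, -b, ha, by rw [e, neg_smul, natCast_zsmul, smul_neg]⟩

private theorem rk1c_self_ray {r : ℕ} (β : Fin r → ℤ) : β ∈ ray β :=
  ⟨1, 1, one_pos, one_pos, rfl⟩

private theorem rk1c_idc (h : τ.Rk H α) (h2 : τ.Two H ρ α xp xm) {v : V} (hv : v ∈ τ.w ρ xp)
    (h0 : v ≠ 0) (hT : T ≤ idc (stabL H ρ v)) :
    idc (stabL H ρ v) ≤ T ⊔ τ.GX H (ray α) := by
  obtain ⟨y, -, hy⟩ := h.exists_rg
  obtain ⟨e1, e2, e3⟩ := h.U_eq hy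
  have hQH : idc (stabL H ρ v) ≤ H := fun g hg => ((mem_stabL h2.rep).1 (idc_le _ hg)).1
  refine τ.le_of_cell (cc_idc (closed_stabL h2.rep h.red.1.closed v)) (Nm.of_le hT) y
    (fun u hu => ?_) (fun u hu => ?_) fun u hu => ?_
  · have h1 : u ∈ τ.U H (-y) := τ.GX_mono hQH subset_rfl hu
    have h3 : Unip u := τ.unip_GX (sga_pos _) (by simp) h1
    obtain ⟨h4, c, hc⟩ := (mem_stabL h2.rep).1 (idc_le _ (GP_le hu))
    rw [e2] at h1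
    rw [h.stab_eq_one h2 hv h0 h1 (h2.rep.eq_of_unip h4 h3 hc)]
    exact Subgroup.one_mem _
  · have h1 : u ∈ τ.Z H y := τ.GX_mono hQH subset_rfl hu
    rw [e3] at h1
    exact Subgroup.mem_sup_left h1
  · have h1 : u ∈ τ.U H y := τ.GX_mono hQH subset_rfl hu
    rw [e1] at h1
    exact Subgroup.mem_sup_right h1

private theorem rk1c_not_refl (h : τ.Rk H α) (h2 : τ.Two H ρ α xp xm) {v : V}
    (hv : v ∈ τ.w ρ xp) (h0 : v ≠ 0) {g : Gl n k} (hg : g ∈ stabL H ρ v) {a a' : τ.X ≃+ τ.X}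
    (ha : τ.Act g a a') : a α ≠ -α := by
  intro e
  obtain ⟨y, -, hy⟩ := h.exists_rg
  have hTH : T ≤ H := h.max.prop.1
  obtain ⟨hgH, c, hc⟩ := (mem_stabL h2.rep).1 hg
  have e1 : a xp = xp := rk1c_w_eq (rk1c_ne h2.rep hgH h0) (ha.map_w h2.rep hTH hgH hv)
    (by rw [hc]; exact Submodule.smul_mem _ _ hv)
  have hy' : α ⬝ᵥ (-y) < 0 := by
    rw [dotProduct_neg]
    omega
  obtain ⟨w, hw, hw0⟩ := (Submodule.ne_bot_iff _).1 (h2.bot _ hy').1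
  have h3 : τ.w ρ (a xm) ≠ ⊥ := (Submodule.ne_bot_iff _).2
    ⟨_, ha.map_w h2.rep hTH hgH hw, rk1c_ne h2.rep hgH hw0⟩
  have h4 : xp - a xm ∈ ray (-α) := by
    obtain ⟨A, B, hA, hB, hAB⟩ := h2.diff
    refine ⟨A, B, hA, hB, ?_⟩
    have h5 := congrArg a hAB
    rwa [map_nsmul, map_nsmul, map_sub, e1, e] at h5
  have h5 := ray_dot_pos h4 (y := -y) (by rwa [neg_dotProduct_neg])
  rw [dotProduct_neg, sub_dotProduct] at h5
  by_cases h6 : a xm = xp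
  · rw [h6] at h5
    omega
  · have := (h2.top y hy).2 _ h3 h6
    omega

theorem Rk.stabL_eq (h : τ.Rk H α) (h2 : τ.Two H ρ α xp xm) {v : V} (hv : v ∈ τ.w ρ xp)
    (h0 : v ≠ 0) : stabL H ρ v = T ⊔ τ.GX H (ray α) := by
  have hTH : T ≤ H := h.max.prop.1
  have hTQ : T ≤ stabL H ρ v := fun t ht =>
    (mem_stabL h2.rep).2 ⟨hTH ht, _, mem_wV.1 hv ⟨t, ht⟩⟩
  have hT0 : T ≤ idc (stabL H ρ v) := τ.tor.1.le_idc hTQ
  have hle := rk1c_idc h h2 hv h0 hT0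
  refine le_antisymm (fun g hg => ?_) (sup_le hTQ fun u hu => ?_)
  · have hQH : idc (stabL H ρ v) ≤ H := fun g hg => ((mem_stabL h2.rep).1 (idc_le _ hg)).1
    have hm : MaxTor (idc (stabL H ρ v)) T := h.max.of_le hT0 hQH
    have hn : Nm (stabL H ρ v) (idc (stabL H ρ v)) := (Nm.of_le le_rfl).idc_nm
    have hcj : cj g (idc (stabL H ρ v)) = idc (stabL H ρ v) := by
      ext x
      rw [mem_cj]
      refine ⟨fun hx => ?_, fun hx => ?_⟩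
      · simpa [mul_assoc] using hn g hg _ hx
      · simpa using hn g⁻¹ (Subgroup.inv_mem _ hg) _ hx
    have hm' := hm.conjg g
    rw [hcj] at hm'
    obtain ⟨q, hq, e⟩ := hm.exists_cj (cc_idc (closed_stabL h2.rep h.red.1.closed v)) hm'
    have e' : cj (q⁻¹ * g) T = T := by rw [← cj_cj, e, cj_cj, inv_mul_cancel, cj_one]
    obtain ⟨a, a', ha⟩ := τ.exists_act_of_cj e'
    have hg' : q⁻¹ * g ∈ stabL H ρ v :=
      Subgroup.mul_mem _ (Subgroup.inv_mem _ (idc_le _ hq)) hg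
    have h3 := (h.act ((mem_stabL h2.rep).1 hg').1 ha).2.resolve_right
      (rk1c_not_refl h h2 hv h0 hg' ha)
    rw [← mul_inv_cancel_left q g]
    exact Subgroup.mul_mem _ (hle hq) (Subgroup.mem_sup_left h3)
  · obtain ⟨y, -, hy⟩ := h.exists_rg
    refine (mem_stabL h2.rep).2 ⟨GP_le hu, 1, ?_⟩
    rw [← (h.U_eq hy).1] at hu
    rw [one_smul]
    exact Top.fix τ (h2.top y hy) hTH h2.rep hu hv

theorem Rk.bruhat (h : τ.Rk H α) {u : Gl n k} (hu : u ∈ τ.GX H (ray (-α))) (h1 : u ≠ 1) :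
    ∃ u₁ ∈ τ.GX H (ray α), ∃ u₂ ∈ τ.GX H (ray α), ∃ g ∈ H, ∃ a a', τ.Act g a a' ∧ a α = -α ∧
      u = u₁ * g * u₂ := by
  obtain ⟨V, _, _, _, ρ, xp, xm, h2⟩ := h.exists_two
  have hTH : T ≤ H := h.max.prop.1
  obtain ⟨y, hr, hy⟩ := h.exists_rg
  obtain ⟨v, lp, hv1, -, hv2⟩ := Ext.line τ ((h2.ext xp).2 (Or.inl rfl)) h.red.1 h.max h2.rep h2.simp
  obtain ⟨v', l, -, hl, -⟩ := Ext.line τ ((h2.ext xm).2 (Or.inr rfl)) h.red.1 h.max h2.rep h2.simp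
  have hv : v ∈ τ.w ρ xp := by
    rw [hv2]
    exact Submodule.mem_span_singleton_self v
  have h0 : v ≠ 0 := fun e => by
    rw [e, map_zero] at hv1
    exact zero_ne_one hv1
  obtain ⟨g, hg, a, a', ha, e1, e2⟩ := h.exists_refl h2
  have hgv : ρ g v ∈ τ.w ρ xm := e2 ▸ ha.map_w h2.rep hTH hg hv
  have huH : u ∈ H := GP_le hu
  have hy' : α ⬝ᵥ (-y) < 0 := by
    rw [dotProduct_neg]
    omega
  obtain ⟨c, u₁, hu₁, e⟩ := τ.cell h.red.1 h.max h2.rep h2.simp (Rg.neg τ hr) (h2.bot _ hy') hgv hl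
    (w := ρ u v) ⟨1, u * g⁻¹, H.mul_mem huH (H.inv_mem hg), by
      rw [one_smul, h2.rep.mul_apply huH (H.inv_mem hg), h2.rep.inv_apply hg]⟩
    fun e => h1 (h.eq_one_of_co h2 hv h0 hl hu e)
  rw [neg_neg, (h.U_eq hy).1] at hu₁
  have hu₁H : u₁ ∈ H := GP_le hu₁
  have h3 : g⁻¹ * (u₁⁻¹ * u) ∈ stabL H ρ v := by
    refine (mem_stabL h2.rep).2
      ⟨H.mul_mem (H.inv_mem hg) (H.mul_mem (H.inv_mem hu₁H) huH), c, ?_⟩
    rw [h2.rep.mul_apply (H.inv_mem hg) (H.mul_mem (H.inv_mem hu₁H) huH),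
      h2.rep.mul_apply (H.inv_mem hu₁H) huH, e, map_smul, h2.rep.inv_apply hu₁H, map_smul,
      h2.rep.inv_apply hg]
  rw [h.stabL_eq h2 hv h0, (τ.nm_GX (sga_ray α) (Nm.of_le hTH)).mem_sup] at h3
  obtain ⟨t, ht, u₂, hu₂, e3⟩ := h3
  refine ⟨u₁, hu₁, u₂, hu₂, g * t, H.mul_mem hg (hTH ht), _, _,
    ha.mul (act_of_comm fun s hs => τ.dg.comm ht hs), e1, ?_⟩
  rw [mul_assoc, mul_assoc, ← e3, mul_inv_cancel_left, mul_inv_cancel_left]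

theorem rk_line (hG : Red G) (hT : MaxTor G T) (hα : α ∈ τ.Rt G) :
    τ.Rk (τ.GX G (line α)) α := by
  obtain ⟨h1, h2⟩ := τ.red_line hG hT α
  obtain ⟨h0, A, hA, hA0, hAw⟩ := hα
  refine ⟨h1, h2, ⟨h0, A, ?_, hA0, hAw⟩, fun g hg => ((τ.mem_GX (sga_line α)).1 hg).2⟩
  exact (τ.mem_lie_GX hG.1.closed (Nm.of_le hT.prop.1) (sga_line α)).2
    ⟨hA, rk1c_w_le (rk1c_ray_line α (rk1c_self_ray α)) hAw⟩

theorem neg_mem_Rt (hG : Red G) (hT : MaxTor G T) (hα : α ∈ τ.Rt G) : -α ∈ τ.Rt G := by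
  obtain ⟨e, h0, h1, h2, -⟩ := (rk_line hG hT hα).dim_neg
  exact ⟨neg_ne_zero.2 hα.1, e, lie_mono GP_le h1, h0, h2⟩

theorem root_dim (hG : Red G) (hT : MaxTor G T) (hα : α ∈ τ.Rt G) :
    ∃ e, e ≠ 0 ∧ e ∈ lie G ∧ e ∈ τ.w Ad α ∧
      ∀ A ∈ lie G, A ∈ τ.M (ray α) → ∃ c : k, A = c • e := by
  obtain ⟨e, h0, h1, h2, h3⟩ := (rk_line hG hT hα).dim_pos
  refine ⟨e, h0, lie_mono GP_le h1, h2, fun A hA hM => h3 A ?_ hM⟩
  exact (τ.mem_lie_GX hG.1.closed (Nm.of_le hT.prop.1) (sga_line α)).2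
    ⟨hA, MP_mono (image_mono (rk1c_ray_line α)) hM⟩

theorem Rt_ray (hG : Red G) (hT : MaxTor G T) (hα : α ∈ τ.Rt G) {β : τ.X} (hβ : β ∈ τ.Rt G)
    (h : β ∈ ray α) : β = α := by
  obtain ⟨e, -, -, h2, h3⟩ := root_dim hG hT hα
  obtain ⟨-, A, hA, hA0, hAw⟩ := hβ
  obtain ⟨c, hc⟩ := h3 A hA (rk1c_w_le h hAw)
  exact rk1c_w_eq hA0 hAw (by rw [hc]; exact Submodule.smul_mem _ _ h2)

theorem root_bruhat (hG : Red G) (hT : MaxTor G T) (hα : α ∈ τ.Rt G) {u : Gl n k}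
    (hu : u ∈ τ.GX G (ray (-α))) (h1 : u ≠ 1) :
    ∃ u₁ ∈ τ.GX G (ray α), ∃ u₂ ∈ τ.GX G (ray α), ∃ g ∈ G, ∃ a a', τ.Act g a a' ∧ a α = -α ∧
      (∀ x, a x - x ∈ line α) ∧ u = u₁ * g * u₂ := by
  have h := rk_line hG hT hα
  have e1 : τ.GX (τ.GX G (line α)) (ray α) = τ.GX G (ray α) := by
    rw [τ.GX_GX (sga_line α) (sga_ray α), inter_eq_right.2 (rk1c_ray_line α)]
  have e2 : τ.GX (τ.GX G (line α)) (ray (-α)) = τ.GX G (ray (-α)) := by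
    rw [τ.GX_GX (sga_line α) (sga_ray _), inter_eq_right.2 (rk1c_ray_line' α)]
  rw [← e2] at hu
  obtain ⟨u₁, hu₁, u₂, hu₂, g, hg, a, a', ha, e, e'⟩ := h.bruhat hu h1
  rw [e1] at hu₁ hu₂
  exact ⟨u₁, hu₁, u₂, hu₂, g, GP_le hg, a, a', ha, e, (h.act hg ha).1, e'⟩

end TD

end Pool.Agent.AG
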