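import Mathlib

/-! Bases of root data and the Weyl group. -/

namespace Pool.Agent.AG

open Set

section Aux

open RootPairing

private theorem rootA_sum {ι X : Type*} [AddCommGroup X] (S : Finset ι) (v : ι → X) {m : X}
    (hm : m ∈ AddSubmonoid.closure (v '' (S : Set ι))) :
    ∃ c : ι → ℤ, (∀ u, 0 ≤ c u) ∧ m = ∑ u ∈ S, c u • v u := by
  classical
  refine AddSubmonoid.closure_induction ?_ ⟨0, by simp⟩ ?_ hm
  · rintro - ⟨j, hj, rfl⟩
    refine ⟨fun u => if u = j then 1 else 0, fun u => by dsimp only; split <;> omega, ?_⟩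
    have hj' : j ∈ S := hj
    simp [hj']
  · rintro _ _ _ _ ⟨f, hf, rfl⟩ ⟨g, hg, rfl⟩
    exact ⟨fun u => f u + g u, fun u => add_nonneg (hf u) (hg u),
      by simp only [add_smul, Finset.sum_add_distrib]⟩

variable {ι X Y : Type*} [Fintype ι] [AddCommGroup X] [AddCommGroup Y] {P : RootDatum ι X Y}

omit [Fintype ι] in
private theorem rootA_neg (i : ι) : P.root (P.reflectionPerm i i) = -P.root i := by
  rw [root_reflectionPerm, reflection_apply_self]

omit [Fintype ι] in
private theorem rootA_pairingIn (i j : ι) : P.pairingIn ℤ i j = P.pairing i j :=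
  P.algebraMap_pairingIn ℤ i j

private theorem rootA_li {S : Finset ι} (h : LinearIndepOn ℤ P.root (S : Set ι)) :
    LinearIndepOn ℤ P.coroot (S : Set ι) := by
  rw [linearIndepOn_finset_iff] at h ⊢
  intro c hc i hi
  have h1 : ∑ u ∈ S, (c u * P.CorootForm (P.coroot u) (P.coroot u)) • P.root u = 0 := by
    have h2 : ∀ u, (c u * P.CorootForm (P.coroot u) (P.coroot u)) • P.root u =
        2 • P.CoPolarization (c u • P.coroot u) := fun u => by
      rw [mul_smul, corootForm_self_smul_root, map_smul, smul_comm]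
    simp only [h2]
    rw [← Finset.smul_sum, ← map_sum, hc, map_zero, smul_zero]
  exact (mul_eq_zero.1 (h _ h1 i hi)).resolve_right (IsAnisotropic.corootForm_coroot_ne_zero i)

private theorem rootA_coroot [P.IsReduced] {S : Finset ι} (f : X →ₗ[ℤ] ℤ)
    (hf : ∀ i, f (P.root i) ≠ 0) (hS : ∀ u ∈ S, 0 < f (P.root u))
    (hli : LinearIndepOn ℤ P.root (S : Set ι))
    (hsp : ∀ i, 0 < f (P.root i) → P.root i ∈ AddSubmonoid.closure (P.root '' (S : Set ι)))
    (N : ℕ) : ∀ i, 0 < f (P.root i) → f (P.root i) ≤ N →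
      P.coroot i ∈ AddSubmonoid.closure (P.coroot '' (S : Set ι)) := by
  classical
  induction N with
  | zero => intro i h1 h2; omega
  | succ N ih =>
    intro β h1 h2
    obtain ⟨c, hc0, hc⟩ := rootA_sum S P.root (hsp β h1)
    obtain ⟨α, hα, hp⟩ : ∃ α ∈ S, 0 < P.pairing α β := by
      by_contra hcon
      push Not at hcon
      have h3 : P.pairing β β = ∑ u ∈ S, c u * P.pairing u β := by
        rw [← root_coroot'_eq_pairing, hc]
        simp only [map_sum, map_smul, root_coroot'_eq_pairing, smul_eq_mul]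
      have h4 : ∑ u ∈ S, c u * P.pairing u β ≤ 0 :=
        Finset.sum_nonpos fun u hu => mul_nonpos_of_nonneg_of_nonpos (hc0 u) (hcon u hu)
      rw [← h3, pairing_same] at h4
      omega
    by_cases hαβ : β = α
    · exact AddSubmonoid.subset_closure ⟨α, hα, by rw [hαβ]⟩
    have hp' : 0 < P.pairing β α := by
      rw [← rootA_pairingIn] at hp ⊢
      exact (P.zero_lt_pairingIn_iff' ℤ).1 hp
    have hγ : P.root (P.reflectionPerm α β) = P.root β - P.pairing β α • P.root α := by
      rw [root_reflectionPerm, reflection_apply_root]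
    have hfγ : f (P.root (P.reflectionPerm α β)) = f (P.root β) - P.pairing β α * f (P.root α) := by
      rw [hγ, map_sub, map_smul, smul_eq_mul]
    have hα0 := hS α hα
    have hlt : 0 < P.pairing β α * f (P.root α) := mul_pos hp' hα0
    have hpos : 0 < f (P.root (P.reflectionPerm α β)) := by
      by_contra hcon
      have h3 : 0 < f (P.root (P.reflectionPerm (P.reflectionPerm α β) (P.reflectionPerm α β))) := by
        rw [rootA_neg, map_neg]
        have := hf (P.reflectionPerm α β)
        omega
      obtain ⟨d, hd0, hd⟩ := rootA_sum S P.root (hsp _ h3)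
      rw [rootA_neg, hγ] at hd
      have h4 := linearIndepOn_finset_iff.1 hli
        (fun u => c u + d u - (if u = α then P.pairing β α else 0)) (by
          simp only [add_smul, sub_smul, Finset.sum_add_distrib, Finset.sum_sub_distrib, ← hc, ← hd,
            ite_smul, zero_smul, Finset.sum_ite_eq', hα, if_true]
          abel)
      have h5 : P.root β = c α • P.root α := by
        rw [hc, Finset.sum_eq_single_of_mem α hα]
        intro u hu hne
        have h6 := h4 u hu
        simp only [if_neg hne] at h6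
        have h7 : c u = 0 := by
          have := hc0 u
          have := hd0 u
          omega
        rw [h7, zero_smul]
      have h6 : ¬ LinearIndependent ℤ ![P.root β, P.root α] := by
        rw [LinearIndependent.pair_iff]
        intro h7
        have := (h7 1 (-c α) (by rw [h5, one_smul, neg_smul, add_neg_cancel])).1
        omega
      rcases IsReduced.eq_or_eq_neg β α h6 with h7 | h7
      · exact hαβ (P.root.injective h7)
      · rw [h7, map_neg] at h1
        omega
    have h3 := ih _ hpos (by omega)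
    have h4 : P.coroot β = P.coroot (P.reflectionPerm α β) + (P.pairing α β).toNat • P.coroot α := by
      rw [coroot_reflectionPerm, coreflection_apply_coroot, ← natCast_zsmul,
        Int.toNat_of_nonneg hp.le, sub_add_cancel]
    rw [h4]
    have h5 : P.coroot α ∈ AddSubmonoid.closure (P.coroot '' (S : Set ι)) :=
      AddSubmonoid.subset_closure ⟨α, hα, rfl⟩
    exact add_mem h3 (nsmul_mem h5 _)

private theorem rootA_weyl [P.IsReduced] (b : P.Base) (N : ℕ) : ∀ a : X ≃+ X,
    (∀ i, ∃ j, a (P.root i) = P.root j) →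
    {i | b.IsPos i ∧ ∃ j, a (P.root i) = P.root j ∧ ¬ b.IsPos j}.ncard = N →
    ∃ w : P.weylGroup, ∀ i j, b.IsPos i → P.root j = w • a (P.root i) → b.IsPos j := by
  induction N using Nat.strong_induction_on with
  | _ N ih =>
  intro a ha hN
  choose σ hσ using ha
  have hinj : Function.Injective σ := fun i j h =>
    P.root.injective (a.injective (by rw [hσ, hσ, h]))
  have hsurj : Function.Surjective σ := Finite.injective_iff_surjective.1 hinj
  have hneg : ∀ i, σ (P.reflectionPerm i i) = P.reflectionPerm (σ i) (σ i) := fun i =>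
    P.root.injective (by rw [← hσ, rootA_neg, rootA_neg, map_neg, hσ])
  have hnot : ∀ i, b.IsPos (P.reflectionPerm i i) ↔ ¬ b.IsPos i := fun i =>
    Base.IsPos.neg_iff_not b i
  by_cases H : ∀ α ∈ b.support, ∀ i, σ i = α → b.IsPos i
  · have key : ∀ j, b.IsPos j → ∀ i, σ i = j → b.IsPos i := by
      intro j hj
      refine hj.induction_on_add (p := fun j => ∀ i, σ i = j → b.IsPos i) H ?_
      intro i' j' k hk h1 h2 i hi
      obtain ⟨i₁, rfl⟩ := hsurj i'
      obtain ⟨i₂, rfl⟩ := hsurj j'
      refine (h1 i₁ rfl).add (H _ h2 i₂ rfl) (a.injective ?_)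
      rw [map_add, hσ, hσ, hσ, hi, hk]
    refine ⟨1, fun i j hi hj => ?_⟩
    rw [one_smul, hσ] at hj
    have hj' : j = σ i := P.root.injective hj
    by_contra hcon
    have h1 := key _ ((hnot j).2 hcon) (P.reflectionPerm i i) (by rw [hneg, hj'])
    exact (hnot i).1 h1 hi
  · push Not at H
    obtain ⟨α, hα, i₀, hi₀, hi₀'⟩ := H
    let a' : X ≃+ X := a.trans (P.reflection α).toAddEquiv
    have ha' : ∀ i, a' (P.root i) = P.root (P.reflectionPerm α (σ i)) := fun i => by
      rw [root_reflectionPerm, ← hσ]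
      rfl
    have hlt : {i | b.IsPos i ∧ ∃ j, a' (P.root i) = P.root j ∧ ¬ b.IsPos j}.ncard < N := by
      rw [← hN]
      refine ncard_lt_ncard ⟨?_, fun hsub => ?_⟩ (toFinite _)
      · rintro i ⟨hi, j, hj, hj'⟩
        refine ⟨hi, σ i, hσ i, fun hcon => hj' ?_⟩
        rw [ha'] at hj
        rw [← P.root.injective hj]
        refine hcon.reflectionPerm hα fun h => hi₀' ?_
        rwa [hinj (hi₀.trans h.symm)]
      · have h1 : P.reflectionPerm i₀ i₀ ∈
            {i | b.IsPos i ∧ ∃ j, a (P.root i) = P.root j ∧ ¬ b.IsPos j} := by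
          refine ⟨(hnot i₀).2 hi₀', _, hσ _, ?_⟩
          rw [hneg, hi₀, hnot, not_not]
          exact Base.isPos_of_mem_support hα
        obtain ⟨-, j, hj, hj'⟩ := hsub h1
        rw [ha', hneg, hi₀, reflectionPerm_self] at hj
        rw [← P.root.injective hj] at hj'
        exact hj' (Base.isPos_of_mem_support hα)
    obtain ⟨w, hw⟩ := ih _ hlt a' (fun i => ⟨_, ha' i⟩) rfl
    refine ⟨w * weylGroup.ofIdx P α, fun i j hi hj => hw i j hi ?_⟩
    rw [hj, mul_smul]
    rfl

end Aux

variable {ι X Y : Type*} [Fintype ι] [AddCommGroup X] [AddCommGroup Y] [Module.Finite ℤ X]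
  [Module.Finite ℤ Y] (P : RootDatum ι X Y) [P.IsReduced]

theorem exists_base (y : Y) (hy : ∀ i, P.toLinearMap (P.root i) y ≠ 0) :
    ∃ b : P.Base, ∀ i, b.IsPos i ↔ 0 < P.toLinearMap (P.root i) y := by
  classical
  let f : X →ₗ[ℤ] ℤ := P.toLinearMap.flip y
  have hf : ∀ i, f (P.root i) ≠ 0 := hy
  let S : Finset ι := (toFinite (IsAddIndecomposable.baseOf P.root (f : X →+ ℤ))).toFinset
  have hSc : (S : Set ι) = IsAddIndecomposable.baseOf P.root (f : X →+ ℤ) := Finite.coe_toFinset _
  have hS : ∀ u ∈ S, 0 < f (P.root u) := fun u hu =>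
    IsAddIndecomposable.baseOf_subset_pos P.root (f : X →+ ℤ) (hSc ▸ Finset.mem_coe.2 hu)
  have hli : LinearIndepOn ℤ P.root (S : Set ι) := by
    rw [hSc]
    exact P.linearIndepOn_root_baseOf' f hf
  have hsp : ∀ i, 0 < f (P.root i) → P.root i ∈ AddSubmonoid.closure (P.root '' (S : Set ι)) := by
    intro i hi
    rw [hSc, AddSubmonoid.closure_image_isAddIndecomposable_baseOf]
    exact AddSubmonoid.subset_closure ⟨i, hi, rfl⟩
  have hsp' : ∀ i, 0 < f (P.root i) →
      P.coroot i ∈ AddSubmonoid.closure (P.coroot '' (S : Set ι)) := fun i hi =>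
    rootA_coroot f hf hS hli hsp (f (P.root i)).toNat i hi (Int.self_le_toNat _)
  have hneg : ∀ i, ¬ 0 < f (P.root i) → 0 < f (P.root (P.reflectionPerm i i)) := fun i hi => by
    rw [rootA_neg, map_neg]
    have := hf i
    omega
  let b : P.Base :=
    { support := S
      linearIndepOn_root := hli
      linearIndepOn_coroot := rootA_li hli
      root_mem_or_neg_mem := fun i => by
        by_cases hi : 0 < f (P.root i)
        · exact Or.inl (hsp i hi)
        · exact Or.inr (rootA_neg (P := P) i ▸ hsp _ (hneg i hi))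
      coroot_mem_or_neg_mem := fun i => by
        by_cases hi : 0 < f (P.root i)
        · exact Or.inl (hsp' i hi)
        · have h := hsp' _ (hneg i hi)
          rw [RootPairing.coroot_reflectionPerm, RootPairing.coreflection_apply_self] at h
          exact Or.inr h }
  have key : ∀ i, b.IsPos i → 0 < f (P.root i) := by
    intro i hi
    refine hi.induction_on_add (p := fun i => 0 < f (P.root i)) hS ?_
    intro i j k hk h1 h2
    rw [hk, map_add]
    exact add_pos h1 (hS j h2)
  refine ⟨b, fun i => ⟨key i, fun hi => ?_⟩⟩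
  by_contra hcon
  have h1 : 0 < f (P.root (P.reflectionPerm i i)) :=
    key _ ((RootPairing.Base.IsPos.neg_iff_not b i).2 hcon)
  rw [rootA_neg, map_neg] at h1
  have h2 : 0 < f (P.root i) := hi
  omega

theorem exists_weyl_pos (b : P.Base) (a : X ≃+ X) (ha : ∀ i, ∃ j, a (P.root i) = P.root j) :
    ∃ w : P.weylGroup, ∀ i j, b.IsPos i → P.root j = w • a (P.root i) → b.IsPos j :=
  rootA_weyl b _ a ha rfl

end Pool.Agent.AG
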