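import Pool.Agent.Lib.AG.Aff

/-! Homogeneous varieties are smooth. -/

namespace Pool.Agent.AG

open Set MvPolynomial

universe u

variable {k : Type u} [Field k] {X : Type u} {O : FA k X} {S : Set X} {x₀ : X}
  {I : Type} [Fintype I] {y : I → O}

/-- A reduced algebra of finite type over a perfect field is generically smooth. -/
private theorem sm_generic (k A : Type u) [Field k] [PerfectField k] [CommRing A] [Algebra k A]
    [Algebra.FiniteType k A] [IsReduced A] [Nontrivial A] :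
    ∃ f : A, f ≠ 0 ∧ Algebra.FormallySmooth k (Localization.Away f) := by
  obtain ⟨q, hq⟩ := Ideal.nonempty_minimalPrimes (R := A) (I := ⊥) bot_ne_top
  have := hq.1.1
  have : Ring.KrullDimLE 0 (Localization.AtPrime q) := .of_isLocalization _ hq _
  let : Field (Localization.AtPrime q) := Ring.KrullDimLE.isField_of_isReduced.toField
  have : Algebra.EssFiniteType A (Localization.AtPrime q) := .of_isLocalization _ q.primeCompl
  have : Algebra.EssFiniteType k (Localization.AtPrime q) := .comp _ A _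
  have : Algebra.IsSmoothAt k q := Algebra.FormallySmooth.of_perfectField
  have : Algebra.FinitePresentation k A := Algebra.FinitePresentation.of_finiteType.1 ‹_›
  obtain ⟨f, hf, h⟩ := Algebra.IsSmoothAt.exists_notMem_smooth k q
  exact ⟨f, fun e => hf (e ▸ q.zero_mem), h.1⟩

/-- The lifting property near some point of `S`. -/
private theorem sm_lift0 [IsAlgClosed k] (h : Aff O) (hx : x₀ ∈ S) {B B' : Type u} [CommRing B]
    [CommRing B'] [Algebra k B] [Algebra k B'] (g : B →ₐ[k] B') (hg : Function.Surjective g)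
    (hg' : IsNilpotent (RingHom.ker g)) :
    ∃ f₀ : O, ∃ x ∈ S, f₀.1 x ≠ 0 ∧ ∀ φ : O →ₐ[k] B', (∀ f ∈ van O S, φ f = 0) → IsUnit (φ f₀) →
      ∃ ψ : O →ₐ[k] B, (∀ f ∈ van O S, ψ f = 0) ∧ ∀ f, g (ψ f) = φ f := by
  have : Algebra.FiniteType k O := (Subalgebra.fg_iff_finiteType O).1 h.fg
  have : Algebra.FiniteType k (O ⧸ van O S) :=
    .of_surjective (Ideal.Quotient.mkₐ k _) (Ideal.Quotient.mkₐ_surjective k _)
  have : IsReduced (O ⧸ van O S) := (Ideal.isRadical_iff_quotient_reduced _).1 (by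
    rintro f ⟨n, hn⟩ s hs
    exact eq_zero_of_pow_eq_zero (show f.1 s ^ n = 0 from hn s hs))
  have : Nontrivial (O ⧸ van O S) := Ideal.Quotient.nontrivial_iff.2 fun e => by
    have h1 : (1 : O) ∈ van O S := e ▸ Submodule.mem_top
    exact one_ne_zero (h1 x₀ hx)
  obtain ⟨f, hf, hs⟩ := sm_generic k (O ⧸ van O S)
  obtain ⟨f₀, rfl⟩ := Ideal.Quotient.mk_surjective f
  rw [Ne, Ideal.Quotient.eq_zero_iff_mem, mem_van] at hf
  simp only [not_forall] at hf
  obtain ⟨x, hxS, hx0⟩ := hf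
  refine ⟨f₀, x, hxS, hx0, fun φ hφ hu => ?_⟩
  let φ₁ : (O ⧸ van O S) →ₐ[k] B' := Ideal.Quotient.liftₐ _ φ hφ
  let φ₂ : Localization.Away (Ideal.Quotient.mk (van O S) f₀) →ₐ[k] B' :=
    IsLocalization.Away.liftAlgHom (Ideal.Quotient.mk (van O S) f₀) (f := φ₁) hu
  refine ⟨((Algebra.FormallySmooth.liftOfSurjective φ₂ g hg hg').comp
    (IsScalarTower.toAlgHom k (O ⧸ van O S) _)).comp (Ideal.Quotient.mkₐ k _), fun f hf => ?_,
    fun f => ?_⟩
  · rw [AlgHom.comp_apply, Ideal.Quotient.mkₐ_eq_mk, Ideal.Quotient.eq_zero_iff_mem.2 hf, map_zero]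
  · rw [AlgHom.comp_apply, AlgHom.comp_apply, Algebra.FormallySmooth.liftOfSurjective_apply]
    exact IsLocalization.Away.lift_eq (Ideal.Quotient.mk (van O S) f₀) hu _

/-- Pull-back of functions. -/
private def smPull {e : X → X} (he : MapOn O univ O e) : O →ₐ[k] O where
  toFun f := ⟨fun x => f.1 (e x), (he f.1 f.2).mem⟩
  map_one' := rfl
  map_mul' _ _ := rfl
  map_zero' := rfl
  map_add' _ _ := rfl
  commutes' _ := rfl

/-- The lifting property near the base point. -/
private theorem sm_lift [IsAlgClosed k] (h : Aff O) (hh : Homog O S x₀) {B B' : Type u}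
    [CommRing B] [CommRing B'] [Algebra k B] [Algebra k B'] (g : B →ₐ[k] B')
    (hg : Function.Surjective g) (hg' : IsNilpotent (RingHom.ker g)) (φ : O →ₐ[k] B')
    (hφ : ∀ f ∈ van O S, φ f = 0) (hu : ∀ f : O, f.1 x₀ ≠ 0 → IsUnit (φ f)) :
    ∃ ψ : O →ₐ[k] B, (∀ f ∈ van O S, ψ f = 0) ∧ ∀ f, g (ψ f) = φ f := by
  obtain ⟨f₀, x, hx, hf, H⟩ := sm_lift0 h hh.1 g hg hg'
  obtain ⟨e, h1, h2, h3, h4⟩ := hh.2 x hx
  obtain ⟨ψ, hψ, hψ'⟩ := H (φ.comp (smPull h2)) (fun f hf => hφ _ fun s hs => by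
    rw [← h3] at hs
    obtain ⟨t, ht, rfl⟩ := hs
    change f.1 (e.symm (e t)) = 0
    rw [e.symm_apply_apply]
    exact hf t ht) (hu _ (by
      change f₀.1 (e.symm x₀) ≠ 0
      rwa [← h4, e.symm_apply_apply]))
  refine ⟨ψ.comp (smPull h1), fun f hf => hψ _ fun s hs => hf _ (h3 ▸ mem_image_of_mem e hs),
    fun f => ?_⟩
  rw [AlgHom.comp_apply, hψ', AlgHom.comp_apply]
  congr 1
  exact Subtype.ext (funext fun z => congrArg f.1 (e.apply_symm_apply z))

/-- Evaluation at a point. -/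
private def smEv (O : FA k X) (x : X) : O →ₐ[k] k := (Pi.evalAlgHom k (fun _ => k) x).comp O.val

private theorem sm_sub_mem (f : O) (x : X) : f - algebraMap k O (f.1 x) ∈ mx O x :=
  mem_mx.2 (sub_self (f.1 x))

/-- A tangent map that is dual to the parameters. -/
private theorem sm_dual [DecidableEq I] (hx : x₀ ∈ S) (hy : ∀ a, (y a).1 x₀ = 0)
    (hli : ∀ c : I → k, ∑ a, c a • y a ∈ mx O x₀ ^ 2 ⊔ van O S → c = 0) :
    ∃ c : O →ₗ[k] I → k, c 1 = 0 ∧ (∀ f ∈ van O S, c f = 0) ∧ (∀ a, c (y a) = Pi.single a 1) ∧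
      ∀ f g, c (f * g) = f.1 x₀ • c g + g.1 x₀ • c f := by
  let W : Submodule k O := (mx O x₀ ^ 2 ⊔ van O S).restrictScalars k
  obtain ⟨l, hl⟩ := (W.mkQ ∘ₗ Fintype.linearCombination k y).exists_leftInverse_of_injective
    (LinearMap.ker_eq_bot'.2 fun c hc => hli c ((Submodule.Quotient.mk_eq_zero W).1 hc))
  let c : O →ₗ[k] I → k :=
    l ∘ₗ W.mkQ ∘ₗ (LinearMap.id - Algebra.linearMap k O ∘ₗ (smEv O x₀).toLinearMap)
  have hc : ∀ f, c f = l (W.mkQ (f - algebraMap k O (f.1 x₀))) := fun f => rfl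
  have h0 : ∀ f : O, f ∈ W → f.1 x₀ = 0 → c f = 0 := fun f hf hf' => by
    rw [hc, hf', map_zero, sub_zero, W.mkQ_apply, (Submodule.Quotient.mk_eq_zero W).2 hf, map_zero]
  have h1 : c 1 = 0 := by
    rw [hc, show (1 : O).1 x₀ = 1 from rfl, map_one, sub_self, map_zero, map_zero]
  refine ⟨c, h1, fun f hf => h0 f (Submodule.mem_sup_right hf) (hf _ hx), fun a => ?_,
    fun f g => ?_⟩
  · rw [hc, hy, map_zero, sub_zero]
    have := LinearMap.congr_fun hl (Pi.single a 1)
    simpa using this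
  · have h2 := Ideal.mul_mem_mul (sm_sub_mem f x₀) (sm_sub_mem g x₀)
    have h3 := h0 _ (Submodule.mem_sup_left (by rwa [pow_two])) (mem_mx.1 (Ideal.mul_le_right h2))
    have h4 : (f - algebraMap k O (f.1 x₀)) * (g - algebraMap k O (g.1 x₀)) =
        f * g - f.1 x₀ • g - g.1 x₀ • f + (f.1 x₀ * g.1 x₀) • (1 : O) := by
      simp only [Algebra.smul_def, map_mul]
      ring
    rw [h4, map_add, map_sub, map_sub, map_smul, map_smul, map_smul, h1, smul_zero, add_zero,
      sub_sub, sub_eq_zero] at h3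
    exact h3

omit [Fintype I] in
/-- A substitution that is tangent to the identity preserves the order. -/
private theorem sm_order {p : I → MvPolynomial I k}
    (hp : ∀ a, p a - MvPolynomial.X a ∈ idealOfVars I k ^ 2) {N : ℕ} {F : MvPolynomial I k}
    (hF : aeval p F ∈ idealOfVars I k ^ N) : F ∈ idealOfVars I k ^ N := by
  have h2 : ∀ G : MvPolynomial I k, aeval p G - G ∈ idealOfVars I k ^ 2 := by
    intro G
    induction G using MvPolynomial.induction_on with
    | C a => simp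
    | add G H hG hH =>
      rw [map_add, add_sub_add_comm]
      exact add_mem hG hH
    | mul_X G a hG =>
      rw [map_mul, aeval_X, show aeval p G * p a - G * MvPolynomial.X a =
        aeval p G * (p a - MvPolynomial.X a) + (aeval p G - G) * MvPolynomial.X a by ring]
      exact add_mem (Ideal.mul_mem_left _ _ (hp a)) (Ideal.mul_mem_right _ _ hG)
  have h3 : ∀ n, ∀ G ∈ idealOfVars I k ^ n, aeval p G - G ∈ idealOfVars I k ^ (n + 1) := by
    intro n
    induction n with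
    | zero => exact fun G _ => Ideal.pow_le_pow_right (by omega) (h2 G)
    | succ n ih =>
      intro G hG
      rw [pow_succ] at hG
      refine Submodule.mul_induction_on hG (fun A hA B hB => ?_) fun A B hA hB => ?_
      · rw [map_mul, show aeval p A * aeval p B - A * B =
          (aeval p A - A + A) * (aeval p B - B) + (aeval p A - A) * B by ring]
        refine add_mem ?_ ?_
        · rw [show n + 1 + 1 = n + 2 from rfl, pow_add]
          exact Ideal.mul_mem_mul (add_mem (Ideal.pow_le_pow_right n.le_succ (ih A hA)) hA) (h2 B)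
        · rw [pow_succ]
          exact Ideal.mul_mem_mul (ih A hA) hB
      · rw [map_add, add_sub_add_comm]
        exact add_mem hA hB
  have h4 : ∀ n ≤ N, F ∈ idealOfVars I k ^ n := by
    intro n
    induction n with
    | zero => simp
    | succ n ih =>
      intro hn
      have := sub_mem (Ideal.pow_le_pow_right hn hF) (h3 n F (ih (Nat.le_of_succ_le hn)))
      rwa [sub_sub_cancel] at this
  exact h4 N le_rfl

/-- Local parameters are algebraically independent to every order. -/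
theorem sm [IsAlgClosed k] (h : Aff O) (hS : Closed O S) (hh : Homog O S x₀)
    (hy : ∀ a, (y a).1 x₀ = 0)
    (hli : ∀ c : I → k, ∑ a, c a • y a ∈ mx O x₀ ^ 2 ⊔ van O S → c = 0)
    {N : ℕ} {F : MvPolynomial I k} (hF : aeval y F ∈ mx O x₀ ^ N ⊔ van O S)
    {d : I →₀ ℕ} (hd : d.degree < N) : coeff d F = 0 := by
  classical
  obtain ⟨c, c1, c2, c3, c4⟩ := sm_dual hh.1 hy hli
  set J := idealOfVars I k with hJ
  let L : O →ₗ[k] MvPolynomial I k := Fintype.linearCombination k MvPolynomial.X ∘ₗ c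
  have hL : ∀ f, L f ∈ J := fun f =>
    sum_mem fun a _ => Submodule.smul_of_tower_mem _ _ (Ideal.subset_span ⟨a, rfl⟩)
  have L4 : ∀ f g, L (f * g) = f.1 x₀ • L g + g.1 x₀ • L f := fun f g => by
    simp only [L, LinearMap.comp_apply, c4, map_add, map_smul]
  have hLL : ∀ f g, Ideal.Quotient.mk (J ^ 2) (L f * L g) = 0 := fun f g =>
    Ideal.Quotient.eq_zero_iff_mem.2 (by rw [pow_two]; exact Ideal.mul_mem_mul (hL f) (hL g))
  let φ : O →ₐ[k] MvPolynomial I k ⧸ J ^ 2 := AlgHom.ofLinearMap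
    ((Ideal.Quotient.mkₐ k (J ^ 2)).toLinearMap ∘ₗ
      (Algebra.linearMap k _ ∘ₗ (smEv O x₀).toLinearMap + L))
    (by
      change Ideal.Quotient.mk (J ^ 2) (algebraMap k _ 1 + L 1) = 1
      simp [L, c1])
    (fun f g => by
      change Ideal.Quotient.mk (J ^ 2) (algebraMap k _ (f.1 x₀ * g.1 x₀) + L (f * g)) =
        Ideal.Quotient.mk (J ^ 2) (algebraMap k _ (f.1 x₀) + L f) *
          Ideal.Quotient.mk (J ^ 2) (algebraMap k _ (g.1 x₀) + L g)
      rw [← map_mul, ← add_zero (Ideal.Quotient.mk (J ^ 2) _), ← hLL f g, ← map_add, L4]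
      congr 1
      simp only [Algebra.smul_def, map_mul]
      ring)
  have hφ : ∀ f, φ f = Ideal.Quotient.mk (J ^ 2) (algebraMap k _ (f.1 x₀) + L f) := fun f => rfl
  have hle : J ^ (N + 2) ≤ J ^ 2 := Ideal.pow_le_pow_right (by omega)
  let g : (MvPolynomial I k ⧸ J ^ (N + 2)) →ₐ[k] MvPolynomial I k ⧸ J ^ 2 :=
    Ideal.Quotient.factorₐ k hle
  have hg : ∀ q, g (Ideal.Quotient.mk _ q) = Ideal.Quotient.mk _ q := fun q => rfl
  have hker : RingHom.ker g ≤ J.map (Ideal.Quotient.mk (J ^ (N + 2))) := by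
    intro q hq
    obtain ⟨q, rfl⟩ := Ideal.Quotient.mk_surjective q
    rw [RingHom.mem_ker, hg, Ideal.Quotient.eq_zero_iff_mem] at hq
    exact Ideal.mem_map_of_mem _ (Ideal.pow_le_self two_ne_zero hq)
  obtain ⟨ψ, hψ, hψ'⟩ := sm_lift h hh g
    (fun q => by
      obtain ⟨q, rfl⟩ := Ideal.Quotient.mk_surjective q
      exact ⟨_, hg q⟩)
    ⟨N + 2, le_bot_iff.1 ((Ideal.pow_right_mono hker _).trans (by
      rw [← Ideal.map_pow, Ideal.map_quotient_self]))⟩ φ
    (fun f hf => by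
      rw [hφ, hf _ hh.1]
      simp [L, c2 f hf])
    (fun f hf => by
      rw [hφ, map_add]
      refine IsNilpotent.isUnit_add_left_of_commute ⟨2, ?_⟩
        (((IsUnit.mk0 _ hf).map _).map _) (Commute.all _ _)
      rw [← map_pow, pow_two (L f), hLL])
  have hm : (mx O x₀).map ψ ≤ J.map (Ideal.Quotient.mk (J ^ (N + 2))) := by
    rw [Ideal.map_le_iff_le_comap]
    intro f hf
    have h1 : ψ f - Ideal.Quotient.mk _ (L f) ∈ RingHom.ker g := by
      rw [RingHom.mem_ker, map_sub, hψ', hφ, mem_mx.1 hf, map_zero, zero_add, hg, sub_self]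
    have h2 := add_mem (hker h1) (Ideal.mem_map_of_mem _ (hL f))
    rwa [sub_add_cancel] at h2
  choose p hp using fun a => Ideal.Quotient.mk_surjective (ψ (y a))
  have hp' : ∀ a, p a - MvPolynomial.X a ∈ J ^ 2 := fun a => by
    have h1 := hψ' (y a)
    rw [← hp, hg, hφ, hy, map_zero, zero_add, Ideal.Quotient.eq] at h1
    simpa [L, c3] using h1
  have h1 : ψ (aeval y F) = Ideal.Quotient.mk _ (aeval p F) := by
    have : ψ.comp (aeval y) = (Ideal.Quotient.mkₐ k _).comp (aeval p) :=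
      MvPolynomial.algHom_ext fun a => by simp [hp]
    exact AlgHom.congr_fun this F
  have h2 : ψ (aeval y F) ∈ (J ^ N).map (Ideal.Quotient.mk (J ^ (N + 2))) := by
    obtain ⟨f₁, hf₁, f₂, hf₂, e⟩ := Submodule.mem_sup.1 hF
    rw [← e, map_add, hψ f₂ hf₂, add_zero, Ideal.map_pow]
    refine Ideal.pow_right_mono hm N ?_
    rw [← Ideal.map_pow]
    exact Ideal.mem_map_of_mem _ hf₁
  rw [h1, Ideal.mem_quotient_iff_mem (Ideal.pow_le_pow_right (by omega))] at h2
  exact (mem_pow_idealOfVars_iff' N F).1 (sm_order hp' h2) d hd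

private theorem sm_mul {R : Type*} [CommRing R] {m v : Ideal R} {i j : ℕ} {a b : R}
    (ha : a ∈ m ^ i ⊔ v) (hb : b ∈ m ^ j ⊔ v) : a * b ∈ m ^ (i + j) ⊔ v := by
  obtain ⟨a₁, h1, a₂, h2, rfl⟩ := Submodule.mem_sup.1 ha
  obtain ⟨b₁, h3, b₂, h4, rfl⟩ := Submodule.mem_sup.1 hb
  rw [add_mul, mul_add, pow_add]
  exact add_mem (add_mem (Submodule.mem_sup_left (Ideal.mul_mem_mul h1 h3))
    (Submodule.mem_sup_right (Ideal.mul_mem_left _ _ h4)))
    (Submodule.mem_sup_right (Ideal.mul_mem_right _ _ h2))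

private theorem sm_homog
    (hsp : ∀ f ∈ mx O x₀, ∃ c : I → k, f - ∑ a, c a • y a ∈ mx O x₀ ^ 2 ⊔ van O S) (N : ℕ) :
    ∀ f ∈ mx O x₀ ^ N, ∃ F : MvPolynomial I k,
      F.IsHomogeneous N ∧ f - aeval y F ∈ mx O x₀ ^ (N + 1) ⊔ van O S := by
  induction N with
  | zero =>
    intro f _
    refine ⟨C (f.1 x₀), isHomogeneous_C _ _, Submodule.mem_sup_left ?_⟩
    rw [zero_add, pow_one, aeval_C]
    exact sm_sub_mem f x₀
  | succ N ih =>
    intro f hf
    rw [pow_succ] at hf
    refine Submodule.mul_induction_on hf (fun g hg l hl => ?_) ?_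
    · obtain ⟨G, hG, hG'⟩ := ih g hg
      obtain ⟨c, hc⟩ := hsp l hl
      refine ⟨G * ∑ a, C (c a) * MvPolynomial.X a,
        hG.mul (IsHomogeneous.sum _ _ _ fun a _ => ?_), ?_⟩
      · exact isHomogeneous_C_mul_X _ _
      · have h1 : aeval y G ∈ mx O x₀ ^ N ⊔ van O S := by
          have h0 : mx O x₀ ^ (N + 1) ⊔ van O S ≤ mx O x₀ ^ N ⊔ van O S :=
            sup_le_sup_right (Ideal.pow_le_pow_right N.le_succ) _
          have := sub_mem (Submodule.mem_sup_left hg) (h0 hG')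
          rwa [sub_sub_cancel] at this
        have h2 : aeval y (∑ a, C (c a) * MvPolynomial.X a : MvPolynomial I k) =
            ∑ a, c a • y a := by simp [Algebra.smul_def]
        rw [map_mul, h2, show g * l - aeval y G * ∑ a, c a • y a =
          (g - aeval y G) * l + aeval y G * (l - ∑ a, c a • y a) by ring]
        exact add_mem (sm_mul (j := 1) hG' (Submodule.mem_sup_left (by rwa [pow_one])))
          (sm_mul (i := N) (j := 2) h1 hc)
    · rintro f₁ f₂ ⟨F₁, h1, h2⟩ ⟨F₂, h3, h4⟩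
      refine ⟨F₁ + F₂, h1.add h3, ?_⟩
      rw [map_add, add_sub_add_comm]
      exact add_mem h2 h4

private theorem sm_homog'
    (hsp : ∀ f ∈ mx O x₀, ∃ c : I → k, f - ∑ a, c a • y a ∈ mx O x₀ ^ 2 ⊔ van O S)
    {N : ℕ} {f : O} (hf : f ∈ mx O x₀ ^ N ⊔ van O S) : ∃ F : MvPolynomial I k,
      F.IsHomogeneous N ∧ f - aeval y F ∈ mx O x₀ ^ (N + 1) ⊔ van O S := by
  obtain ⟨f₁, h1, f₂, h2, rfl⟩ := Submodule.mem_sup.1 hf
  obtain ⟨F, hF, hF'⟩ := sm_homog hsp N f₁ h1
  refine ⟨F, hF, ?_⟩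
  rw [add_sub_right_comm]
  exact add_mem hF' (Submodule.mem_sup_right h2)

/-- Approximation by polynomials in generators of the cotangent space. -/
theorem approx (hy : ∀ a, (y a).1 x₀ = 0)
    (hsp : ∀ f ∈ mx O x₀, ∃ c : I → k, f - ∑ a, c a • y a ∈ mx O x₀ ^ 2 ⊔ van O S)
    (f : O) (N : ℕ) : ∃ F : MvPolynomial I k, f - aeval y F ∈ mx O x₀ ^ N ⊔ van O S := by
  induction N with
  | zero => exact ⟨0, Submodule.mem_sup_left (by simp)⟩
  | succ N ih =>
    obtain ⟨F, hF⟩ := ih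
    obtain ⟨G, -, hG⟩ := sm_homog' hsp hF
    exact ⟨F + G, by rwa [map_add, ← sub_sub]⟩

theorem approx_homog (hy : ∀ a, (y a).1 x₀ = 0)
    (hsp : ∀ f ∈ mx O x₀, ∃ c : I → k, f - ∑ a, c a • y a ∈ mx O x₀ ^ 2 ⊔ van O S)
    {N : ℕ} {f : O} (hf : f ∈ mx O x₀ ^ N ⊔ van O S) : ∃ F : MvPolynomial I k,
      F.IsHomogeneous N ∧ f - aeval y F ∈ mx O x₀ ^ (N + 1) ⊔ van O S :=
  sm_homog' hsp hf

theorem exists_cotangent_basis (h : Aff O) (S : Set X) (x₀ : X) :
    ∃ (m : ℕ) (y : Fin m → O), (∀ a, (y a).1 x₀ = 0) ∧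
      (∀ c : Fin m → k, ∑ a, c a • y a ∈ mx O x₀ ^ 2 ⊔ van O S → c = 0) ∧
      ∀ f ∈ mx O x₀, ∃ c : Fin m → k, f - ∑ a, c a • y a ∈ mx O x₀ ^ 2 ⊔ van O S := by
  have := h.noeth
  obtain ⟨s, hs⟩ : (mx O x₀).FG := IsNoetherian.noetherian _
  let W : Submodule k O := (mx O x₀ ^ 2 ⊔ van O S).restrictScalars k
  let U : Submodule k (O ⧸ W) := ((mx O x₀).restrictScalars k).map W.mkQ
  have hU : U ≤ Submodule.span k (W.mkQ '' s) := by
    rintro _ ⟨f, hf, rfl⟩
    have hf' : f ∈ Ideal.span (s : Set O) := hs ▸ hf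
    clear hf
    induction hf' using Submodule.span_induction with
    | mem f hf => exact Submodule.subset_span ⟨f, hf, rfl⟩
    | zero => simp
    | add f g _ _ hf hg => rw [map_add]; exact add_mem hf hg
    | smul a f hf ih =>
      have h1 : (a - algebraMap k O (a.1 x₀)) * f ∈ W := Submodule.mem_sup_left (by
        rw [pow_two]
        exact Ideal.mul_mem_mul (sm_sub_mem a x₀) (hs ▸ hf))
      have h2 : a • f = (a - algebraMap k O (a.1 x₀)) * f + a.1 x₀ • f := by
        rw [smul_eq_mul, Algebra.smul_def]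
        ring
      rw [h2, map_add, W.mkQ_apply, (Submodule.Quotient.mk_eq_zero W).2 h1, zero_add, map_smul]
      exact Submodule.smul_mem _ _ ih
  have : FiniteDimensional k (Submodule.span k (W.mkQ '' s)) :=
    FiniteDimensional.span_of_finite k (s.finite_toSet.image _)
  have : FiniteDimensional k U := Submodule.finiteDimensional_of_le hU
  let b := Module.finBasis k U
  choose y hy hy' using fun a => (b a).2
  have hsum : ∀ c : Fin (Module.finrank k U) → k,
      W.mkQ (∑ a, c a • y a) = (∑ a, c a • b a : U) := fun c => by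
    simp only [map_sum, map_smul, hy', Submodule.coe_sum, Submodule.coe_smul]
  refine ⟨_, y, fun a => mem_mx.1 (hy a), fun c hc => ?_, fun f hf => ?_⟩
  · have h1 := (hsum c).symm.trans ((Submodule.Quotient.mk_eq_zero W).2 hc)
    exact funext (Fintype.linearIndependent_iff.1 b.linearIndependent c (Subtype.ext h1))
  · refine ⟨b.repr ⟨W.mkQ f, f, hf, rfl⟩, (Submodule.Quotient.eq W).1 ?_⟩
    have h1 := hsum (b.repr ⟨W.mkQ f, f, hf, rfl⟩)
    rw [b.sum_repr] at h1
    exact h1.symm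

end Pool.Agent.AG
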