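import Pool.Agent.Lib.AG.Base

/-! A presentation of the special linear group of rank one. -/

namespace Pool.Agent.AG

open Matrix

universe u

variable {k : Type u} [Field k] {G : Type*} [Group G]

/-- The relations of rank one. -/
structure Rel1 (x y : k → G) (h : kˣ → G) (w : G) : Prop where
  x_add : ∀ c d, x (c + d) = x c * x d
  h_mul : ∀ a b, h (a * b) = h a * h b
  h_x : ∀ a c, h a * x c * (h a)⁻¹ = x ((a : k) ^ 2 * c)
  w_h : ∀ a, w * h a * w⁻¹ = h a⁻¹
  w_w : w * w = h (-1)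
  y_eq : ∀ c, y c = w * x (-c) * w⁻¹
  bru : ∀ a : kˣ, y ((a⁻¹ : kˣ) : k) = x a * h a * w * x a

section Abstract

variable {x y : k → G} {h : kˣ → G} {w : G}

private theorem x_zero (H : Rel1 x y h w) : x 0 = 1 := by
  have e := H.x_add 0 0
  rw [add_zero] at e
  exact left_eq_mul.1 e

private theorem h_one (H : Rel1 x y h w) : h 1 = 1 := by
  have e := H.h_mul 1 1
  rw [mul_one] at e
  exact left_eq_mul.1 e

private theorem x_inv (H : Rel1 x y h w) (c : k) : (x c)⁻¹ = x (-c) := by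
  rw [inv_eq_iff_mul_eq_one, ← H.x_add, add_neg_cancel, x_zero H]

private theorem w_inv (H : Rel1 x y h w) : w⁻¹ = w * (w * w) := by
  rw [inv_eq_iff_mul_eq_one, ← mul_assoc, H.w_w, ← H.h_mul, neg_mul_neg, mul_one, h_one H]

private theorem x_h (H : Rel1 x y h w) (t : k) (a : kˣ) :
    x t * h a = h a * x (((a⁻¹ : kˣ) : k) ^ 2 * t) := by
  have e := H.h_x a (((a⁻¹ : kˣ) : k) ^ 2 * t)
  rw [← mul_assoc, ← mul_pow, Units.mul_inv, one_pow, one_mul] at e
  rw [← e, inv_mul_cancel_right]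

private theorem w_h' (H : Rel1 x y h w) (a : kˣ) : w * h a = h a⁻¹ * w := by
  rw [← H.w_h, inv_mul_cancel_right]

/-- Elements in one of the two normal forms. -/
private def NF (x : k → G) (h : kˣ → G) (w : G) (g : G) : Prop :=
  (∃ a t, g = h a * x t) ∨ ∃ s a t, g = x s * h a * w * x t

private theorem nf_x (H : Rel1 x y h w) (c : k) {g : G} (hg : NF x h w g) :
    NF x h w (x c * g) := by
  rcases hg with ⟨a, t, rfl⟩ | ⟨s, a, t, rfl⟩
  · refine .inl ⟨a, ((a⁻¹ : kˣ) : k) ^ 2 * c + t, ?_⟩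
    rw [← mul_assoc, x_h H, H.x_add, mul_assoc]
  · refine .inr ⟨c + s, a, t, ?_⟩
    rw [H.x_add]
    simp only [mul_assoc]

private theorem nf_w (H : Rel1 x y h w) {g : G} (hg : NF x h w g) : NF x h w (w * g) := by
  rcases hg with ⟨a, t, rfl⟩ | ⟨s, a, t, rfl⟩
  · refine .inr ⟨0, a⁻¹, t, ?_⟩
    rw [x_zero H, one_mul, ← mul_assoc, w_h' H]
  · have e0 : w * (x s * h a * w * x t) = (w * x s * w⁻¹) * h (a⁻¹ * -1) * x t := by
      rw [H.h_mul, ← H.w_w, ← H.w_h]
      group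
    rw [e0]
    by_cases hs : s = 0
    · refine .inl ⟨a⁻¹ * -1, t, ?_⟩
      rw [hs, x_zero H, mul_one, mul_inv_cancel, one_mul]
    · obtain ⟨b, hb⟩ : ∃ b : kˣ, -((b⁻¹ : kˣ) : k) = s :=
        ⟨(Units.mk0 (-s) (neg_ne_zero.2 hs))⁻¹, by simp⟩
      obtain ⟨c, hc⟩ : ∃ c : kˣ, c = a⁻¹ * -1 := ⟨_, rfl⟩
      refine .inr ⟨b, b * c⁻¹, ((c⁻¹ : kˣ) : k) ^ 2 * b + t, ?_⟩
      rw [← hb, ← H.y_eq, H.bru, ← hc, H.x_add, H.h_mul]
      calc x b * h b * w * x b * h c * x t = x b * h b * w * (x b * h c) * x t := by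
            simp only [mul_assoc]
        _ = x b * h b * (w * h c) * x (((c⁻¹ : kˣ) : k) ^ 2 * b) * x t := by
            rw [x_h H b c]; simp only [mul_assoc]
        _ = _ := by rw [w_h' H]; simp only [mul_assoc]

private theorem nf_closure (H : Rel1 x y h w) {g : G}
    (hg : g ∈ Subgroup.closure (Set.range x ∪ {w})) : NF x h w g := by
  induction hg using Subgroup.closure_induction_left with
  | one => exact .inl ⟨1, 0, by rw [h_one H, x_zero H, mul_one]⟩
  | mul_left s hs g _ ih =>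
    rcases hs with ⟨c, rfl⟩ | hs
    · exact nf_x H c ih
    · rw [Set.mem_singleton_iff.1 hs]
      exact nf_w H ih
  | inv_mul_cancel s hs g _ ih =>
    rcases hs with ⟨c, rfl⟩ | hs
    · rw [x_inv H]
      exact nf_x H _ ih
    · rw [Set.mem_singleton_iff.1 hs, w_inv H, mul_assoc, mul_assoc]
      exact nf_w H (nf_w H (nf_w H ih))

private theorem rel_prod {G' : Type*} [Group G'] {x' y' : k → G'} {h' : kˣ → G'} {w' : G'}
    (H' : Rel1 x' y' h' w') (H : Rel1 x y h w) :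
    Rel1 (fun c => (x' c, x c)) (fun c => (y' c, y c)) (fun a => (h' a, h a)) (w', w) where
  x_add c d := Prod.ext (H'.x_add c d) (H.x_add c d)
  h_mul a b := Prod.ext (H'.h_mul a b) (H.h_mul a b)
  h_x a c := Prod.ext (H'.h_x a c) (H.h_x a c)
  w_h a := Prod.ext (H'.w_h a) (H.w_h a)
  w_w := Prod.ext H'.w_w H.w_w
  y_eq c := Prod.ext (H'.y_eq c) (H.y_eq c)
  bru a := Prod.ext (H'.bru a) (H.bru a)

end Abstract

/-- The standard representative of the reflection. -/
private def w0 : SpecialLinearGroup (Fin 2) k := ⟨!![0, -1; 1, 0], by simp [det_fin_two]⟩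

private theorem sl_ext {g g' : SpecialLinearGroup (Fin 2) k} (h00 : g.1 0 0 = g'.1 0 0)
    (h01 : g.1 0 1 = g'.1 0 1) (h10 : g.1 1 0 = g'.1 1 0) (h11 : g.1 1 1 = g'.1 1 1) :
    g = g' := by
  refine Subtype.ext (Matrix.ext fun i j => ?_)
  fin_cases i <;> fin_cases j <;> assumption

private theorem rel_sl : Rel1 (k := k) up lo di w0 where
  x_add c d := by
    apply sl_ext <;> simp [up, mul_apply, Fin.sum_univ_two, add_comm]
  h_mul a b := by
    apply sl_ext <;> simp [di, mul_apply, Fin.sum_univ_two, mul_comm]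
  h_x a c := by
    rw [mul_inv_eq_iff_eq_mul]
    apply sl_ext <;> simp [di, up, mul_apply, Fin.sum_univ_two]
    field_simp
  w_h a := by
    rw [mul_inv_eq_iff_eq_mul]
    apply sl_ext <;> simp [di, w0, mul_apply, Fin.sum_univ_two]
  w_w := by
    apply sl_ext <;> simp [di, w0, mul_apply, Fin.sum_univ_two]
  y_eq c := by
    rw [eq_mul_inv_iff_mul_eq]
    apply sl_ext <;> simp [lo, up, w0, mul_apply, Fin.sum_univ_two]
  bru a := by
    apply sl_ext <;> simp [lo, up, di, w0, mul_apply, Fin.sum_univ_two]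

private theorem mem_of_ne (g : SpecialLinearGroup (Fin 2) k) (hc : g.1 1 0 ≠ 0) :
    g ∈ Subgroup.closure (Set.range (up (k := k)) ∪ Set.range lo) := by
  have hd : g.1 0 0 * g.1 1 1 - g.1 0 1 * g.1 1 0 = 1 := by
    rw [← det_fin_two]; exact g.2
  have e : g = up ((g.1 0 0 - 1) / g.1 1 0) * lo (g.1 1 0) * up ((g.1 1 1 - 1) / g.1 1 0) := by
    apply sl_ext <;> simp [lo, up, mul_apply, Fin.sum_univ_two]
    · field_simp; ring
    · field_simp; linear_combination -hd
    · field_simp; ring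
  rw [e]
  exact mul_mem (mul_mem (Subgroup.subset_closure (.inl ⟨_, rfl⟩))
    (Subgroup.subset_closure (.inr ⟨_, rfl⟩))) (Subgroup.subset_closure (.inl ⟨_, rfl⟩))

private theorem closure_aux : Subgroup.closure (Set.range up ∪ Set.range lo) =
    (⊤ : Subgroup (SpecialLinearGroup (Fin 2) k)) := by
  refine eq_top_iff.2 fun g _ => ?_
  by_cases hc : g.1 1 0 = 0
  · have hd : g.1 0 0 * g.1 1 1 - g.1 0 1 * g.1 1 0 = 1 := by
      rw [← det_fin_two]; exact g.2
    have h1 : (lo 1 * g).1 1 0 ≠ 0 := by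
      have e : (lo 1 * g).1 1 0 = g.1 0 0 := by
        simp [lo, mul_apply, Fin.sum_univ_two, hc]
      rw [e]
      intro h0
      rw [h0, hc] at hd
      simp at hd
    have h2 := mem_of_ne _ h1
    exact (Subgroup.mul_mem_cancel_left _ (Subgroup.subset_closure (.inr ⟨1, rfl⟩))).1 h2
  · exact mem_of_ne g hc

theorem Rel1.exists_hom {x y : k → G} {h : kˣ → G} {w : G} (H : Rel1 x y h w) :
    ∃ φ : SpecialLinearGroup (Fin 2) k →* G, (∀ c, φ (up c) = x c) ∧ (∀ c, φ (lo c) = y c) ∧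
      ∀ a, φ (di a) = h a := by
  have P := rel_prod (rel_sl (k := k)) H
  obtain ⟨K, hK⟩ : ∃ K : Subgroup (SpecialLinearGroup (Fin 2) k × G),
      K = Subgroup.closure (Set.range (fun c => (up c, x c)) ∪ {(w0, w)}) := ⟨_, rfl⟩
  have hx : ∀ c, (up c, x c) ∈ K := fun c => hK ▸ Subgroup.subset_closure (.inl ⟨c, rfl⟩)
  have hw : (w0, w) ∈ K := hK ▸ Subgroup.subset_closure (.inr rfl)
  have hy : ∀ c, (lo c, y c) ∈ K := fun c => by
    have e : (lo c, y c) = (w0, w) * (up (-c), x (-c)) * (w0, w)⁻¹ := P.y_eq c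
    rw [e]
    exact mul_mem (mul_mem hw (hx _)) (inv_mem hw)
  have hh : ∀ a, (di a, h a) ∈ K := fun a => by
    have e : (lo ((a⁻¹ : kˣ) : k), y ((a⁻¹ : kˣ) : k)) =
        (up (a : k), x a) * (di a, h a) * (w0, w) * (up (a : k), x a) := P.bru a
    have m := hy ((a⁻¹ : kˣ) : k)
    rw [e, Subgroup.mul_mem_cancel_right _ (hx _), Subgroup.mul_mem_cancel_right _ hw,
      Subgroup.mul_mem_cancel_left _ (hx _)] at m
    exact m
  let f : K →* SpecialLinearGroup (Fin 2) k := (MonoidHom.fst _ _).comp K.subtype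
  have hinj : Function.Injective f := by
    rw [injective_iff_map_eq_one]
    rintro ⟨p, hp⟩ h1
    have h2 : p.1 = 1 := h1
    refine Subtype.ext ?_
    change p = 1
    rw [hK] at hp
    rcases nf_closure P hp with ⟨a, t, rfl⟩ | ⟨s, a, t, rfl⟩
    · have h3 : di a * up t = 1 := h2
      have e0 := congrArg (fun g : SpecialLinearGroup (Fin 2) k => g.1 0 0) h3
      have e1 := congrArg (fun g : SpecialLinearGroup (Fin 2) k => g.1 0 1) h3
      simp [di, up, mul_apply, Fin.sum_univ_two] at e0 e1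
      rw [e0, e1]
      exact (congrArg₂ (· * ·) (h_one P) (x_zero P)).trans (mul_one _)
    · have h3 : up s * di a * w0 * up t = 1 := h2
      have e0 := congrArg (fun g : SpecialLinearGroup (Fin 2) k => g.1 1 0) h3
      simp [di, up, w0, mul_apply, Fin.sum_univ_two] at e0
  have hsur : Function.Surjective f := by
    rw [← MonoidHom.range_eq_top, eq_top_iff, ← closure_aux, Subgroup.closure_le]
    rintro g (⟨c, rfl⟩ | ⟨c, rfl⟩)
    · exact ⟨⟨_, hx c⟩, rfl⟩
    · exact ⟨⟨_, hy c⟩, rfl⟩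
  let e := MulEquiv.ofBijective f ⟨hinj, hsur⟩
  have key : ∀ (p : SpecialLinearGroup (Fin 2) k × G) (hp : p ∈ K),
      (((MonoidHom.snd _ _).comp K.subtype).comp e.symm.toMonoidHom) p.1 = p.2 := by
    intro p hp
    have h1 : e.symm p.1 = ⟨p, hp⟩ := e.symm_apply_eq.2 rfl
    change ((e.symm p.1 : K) : SpecialLinearGroup (Fin 2) k × G).2 = p.2
    rw [h1]
  exact ⟨_, fun c => key _ (hx c), fun c => key _ (hy c), fun a => key _ (hh a)⟩

theorem closure_up_lo : Subgroup.closure (Set.range up ∪ Set.range lo) =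
    (⊤ : Subgroup (SpecialLinearGroup (Fin 2) k)) := closure_aux

theorem exists_swap : ∃ σ : SpecialLinearGroup (Fin 2) k →* SpecialLinearGroup (Fin 2) k,
    (∀ c, σ (up c) = lo c) ∧ (∀ c, σ (lo c) = up c) ∧ ∀ a, σ (di a) = di a⁻¹ := by
  refine ⟨MonoidHom.mk' (fun g => ⟨g.1.submatrix (Equiv.swap 0 1) (Equiv.swap 0 1), by
    rw [det_submatrix_equiv_self]; exact g.2⟩) fun a b => Subtype.ext ?_, fun c => ?_,
    fun c => ?_, fun a => ?_⟩
  · exact (submatrix_mul_equiv a.1 b.1 _ (Equiv.swap 0 1) _).symm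
  · apply sl_ext <;> simp [up, lo]
  · apply sl_ext <;> simp [up, lo]
  · apply sl_ext <;> simp [di]

theorem lo_mul_up (t : k) (z : kˣ) (hz : (z : k) = 1 + t) :
    lo t * up 1 = up ((z⁻¹ : kˣ) : k) * di z⁻¹ * lo (t * ((z⁻¹ : kˣ) : k)) := by
  have h0 : (z : k) ≠ 0 := z.ne_zero
  have ht : t = z - 1 := by rw [hz]; ring
  subst ht
  apply sl_ext <;> simp [lo, up, di, mul_apply, Fin.sum_univ_two]
  all_goals field_simp
  all_goals ring

end Pool.Agent.AG
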