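import Pool.Agent.Lib.AG.Rk1c
import Pool.Agent.Lib.AG.Sl2b

/-! Coroots and the relations of rank one. -/

namespace Pool.Agent.AG

open Set Matrix

attribute [local instance 100] LieRing.ofAssociativeRing

universe u

variable {k : Type u} [Field k] [IsAlgClosed k] [Fact (ringChar k).Prime] {n : ℕ}
  {G T : Subgroup (Gl n k)} {τ : TD T} {α : τ.X} {x y : k → Gl n k} {e f : Mt n k}

namespace TD

private theorem dot_pos {r : ℕ} {α : Fin r → ℤ} (hα : α ≠ 0) : 0 < α ⬝ᵥ α :=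
  (Finset.sum_nonneg fun i _ => mul_self_nonneg (α i)).lt_of_ne'
    fun h => hα (dotProduct_self_eq_zero.1 h)

private theorem conj_ray {w u : Gl n k} {a a' : τ.X ≃+ τ.X} {β : τ.X} (ha : τ.Act w a a')
    (hw : w ∈ G) (h : a α = β) (hu : u ∈ τ.GX G (ray α)) : w * u * w⁻¹ ∈ τ.GX G (ray β) := by
  refine τ.GX_mono le_rfl ?_ (Act.conj_GX τ ha hw (sga_ray α) hu)
  rintro _ ⟨v, ⟨p, q, hp, hq, e⟩, rfl⟩
  exact ⟨p, q, hp, hq, by rw [← map_nsmul, e, map_nsmul, h]⟩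

private theorem eq_zero_of_mem (hG : Red G) (hT : MaxTor G T) (hx : τ.RH G α x e) (hα : α ≠ 0)
    {c : k} (h : x c ∈ T) : c = 0 := by
  rw [← τ.cent_eq hG hT] at h
  refine hx.inj ((τ.GX_inf_eq_bot (P := {0}) (Q := ray α) ?_ (sga_ray α) ?_ h
    ((hx.mem_iff _).2 ⟨c, rfl⟩)).trans (RH.zero τ hx).symm)
  · rintro _ rfl _ rfl
    exact add_zero _
  · rw [disjoint_singleton_left]
    intro h0
    simpa using ray_dot_pos h0 (dot_pos hα)

private theorem T_comm (τ : TD T) {s t : Gl n k} (hs : s ∈ T) (ht : t ∈ T) : s * t = t * s :=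
  congrArg Subtype.val (τ.ext_pt (s := ⟨s, hs⟩ * ⟨t, ht⟩) (t := ⟨t, ht⟩ * ⟨s, hs⟩) fun v => by
    rw [map_mul, map_mul, mul_comm])

private theorem coroot_aux (hx : τ.RH G α x e) (hy : τ.RH G (-α) y f) (hα : α ≠ 0) {w : Gl n k}
    {a a' : τ.X ≃+ τ.X} (hw : τ.Act w a a') (h : a α = -α) {s s' : k}
    (e1 : y 1 = x s * w * x s') : ∃ cv : τ.X, α ⬝ᵥ cv = 2 ∧ (∀ v, a v = v - (v ⬝ᵥ cv) • α) ∧
      ∀ b : kˣ, y ((b⁻¹ : kˣ) : k) = x (b * s) * τ.co cv b * w * x (b * s') := by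
  let F : kˣ → Gl n k := fun b => (x (b * s))⁻¹ * y ((b⁻¹ : kˣ) : k) * (x (b * s'))⁻¹ * w⁻¹
  let c : T → T := fun t => t * (⟨w * t.1 * w⁻¹, hw.mem t.1 t.2⟩ : T)⁻¹
  have h1 : ∀ t : T, F (τ.χ α t) = (c t).1 := fun t => by
    have e2 := hy.conj t 1
    rw [mul_one, τ.χ_neg, MonoidHom.inv_apply] at e2
    simp only [F, c, ← e2, ← hx.conj t, e1, Subgroup.coe_mul, Subgroup.coe_inv]
    group
  have h2 : ∀ v (t : T), τ.χ v (c t) = τ.χ (v - a.symm v) t := fun v t => by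
    have e2 := hw.chi (a.symm v) t
    rw [a.apply_symm_apply] at e2
    simp only [c]
    rw [map_mul, map_inv, e2, sub_eq_add_neg, τ.χ_add, τ.χ_neg]
    rfl
  have h3 : Coch T F := by
    refine coch_iff.2 ⟨fun b => ?_, fun b b' => ?_, ?_⟩
    · obtain ⟨t, rfl⟩ := τ.χ_surj hα b
      rw [h1]
      exact (c t).2
    · obtain ⟨t, rfl⟩ := τ.χ_surj hα b
      obtain ⟨t', rfl⟩ := τ.χ_surj hα b'
      rw [← map_mul, h1, h1, h1, ← Subgroup.coe_mul]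
      exact congrArg Subtype.val (τ.ext_pt fun v => by rw [h2, map_mul, map_mul, h2, h2])
    · have m : ∀ r : k, MapOn (OU k) univ (OG k n) fun b : kˣ => x (b * r) := fun r =>
        (RH.mapOn τ hx).comp' (regOn_unit.mul (.const r)).mapOn
      exact (((m s).inv.mul ((RH.mapOn τ hy).comp' regOn_unit_inv.mapOn)).mul (m s').inv).mul
        (.const _)
  obtain ⟨cv, hcv⟩ := τ.all_co F h3
  have h4 : ∀ v, v - a.symm v = (v ⬝ᵥ cv) • α := fun v => τ.χ_inj (MonoidHom.ext fun t => by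
    rw [← h2, τ.χ_zsmul, MonoidHom.zpow_apply, ← τ.pair]
    congr 1
    exact Subtype.ext (by rw [← h1, hcv]))
  refine ⟨cv, ?_, fun v => ?_, fun b => ?_⟩
  · have e2 : a.symm α = -α := by rw [a.symm_apply_eq, map_neg, h, neg_neg]
    have e3 := h4 α
    rw [e2, sub_neg_eq_add, ← two_zsmul] at e3
    exact (smul_left_injective ℤ hα e3).symm
  · have e2 := congrArg a (h4 v)
    rw [map_sub, a.apply_symm_apply, map_zsmul, h, smul_neg] at e2
    rw [sub_eq_add_neg, ← e2, add_sub_cancel]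
  · rw [← hcv]
    simp only [F]
    group

theorem exists_coroot (hx : τ.RH G α x e) (hy : τ.RH G (-α) y f) (hα : α ≠ 0) {w : Gl n k}
    {a a' : τ.X ≃+ τ.X} (hw : τ.Act w a a') (h : a α = -α) {s s' : k}
    (e1 : y 1 = x s * w * x s') : ∃ cv : τ.X, α ⬝ᵥ cv = 2 ∧ ∀ v, a v = v - (v ⬝ᵥ cv) • α :=
  (coroot_aux hx hy hα hw h e1).imp fun _ h => ⟨h.1, h.2.1⟩

theorem bruhat_unique (hG : Red G) (hT : MaxTor G T) (hx : τ.RH G α x e) (hα : α ≠ 0)
    {w w' : Gl n k} (hw : w ∈ G) (hw' : w' ∈ G) {a a' b b' : τ.X ≃+ τ.X} (ha : τ.Act w a a')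
    (hb : τ.Act w' b b') (h : a α = -α) (hab : ∀ v, a v = b v) {s s' t t' : k}
    (e1 : x s * w * x s' = x t * w' * x t') : s = t ∧ w = w' ∧ s' = t' := by
  have h1 : w⁻¹ * w' ∈ T := by
    rw [← τ.cent_eq hG hT, τ.mem_GX_zero]
    exact ⟨G.mul_mem (G.inv_mem hw) hw', fun u hu => ((ha.inv.mul hb).comm (fun v => by
      rw [AddEquiv.trans_apply, ← hab, a.symm_apply_apply]) u hu).symm⟩
  have h2 : w⁻¹ * x (-t + s) * w⁻¹⁻¹ = w⁻¹ * w' * x (t' + -s') := by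
    rw [hx.add, hx.add, RH.neg τ hx, RH.neg τ hx]
    calc _ = w⁻¹ * (x t)⁻¹ * (x s * w * x s') * (x s')⁻¹ := by group
      _ = _ := by rw [e1]; group
  have h3 : w⁻¹ * x (-t + s) * w⁻¹⁻¹ = 1 := by
    refine τ.GX_inf_eq_bot (sga_ray (-α)) (sga_nonneg α) (disjoint_left.2 fun v hv hv' => ?_)
      (conj_ray ha.inv (G.inv_mem hw) (by rw [a.symm_apply_eq, map_neg, h, neg_neg])
        ((hx.mem_iff _).2 ⟨_, rfl⟩)) (H := G) ?_
    · have := ray_dot_pos hv (dot_pos (neg_ne_zero.2 hα))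
      rw [dotProduct_neg] at this
      exact absurd hv' (not_le.2 (neg_pos.1 this))
    · rw [h2]
      exact mul_mem (τ.le_GX (sga_nonneg α) (by simp) hT.prop.1 h1)
        (RH.mem_GX τ hx (sga_nonneg α) (dot_pos hα).le _)
  have h4 : t' + -s' = 0 := eq_zero_of_mem hG hT hx hα (by
    rw [← T.mul_mem_cancel_left h1, ← h2, h3]
    exact T.one_mem)
  have h5 : -t + s = 0 := hx.inj (by
    rw [RH.zero τ hx]
    calc _ = w * (w⁻¹ * x (-t + s) * w⁻¹⁻¹) * w⁻¹ := by group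
      _ = 1 := by rw [h3]; group)
  rw [h3, h4, RH.zero τ hx, mul_one] at h2
  exact ⟨(neg_add_eq_zero.1 h5).symm, inv_mul_eq_one.1 h2.symm, (add_neg_eq_zero.1 h4).symm⟩

private theorem rel1_aux (hG : Red G) (hT : MaxTor G T) (hα : α ≠ 0) (hx : τ.RH G α x e)
    (hy : τ.RH G (-α) y f) {w : Gl n k} {a a' : τ.X ≃+ τ.X} {cv : τ.X} (hw : w ∈ G)
    (ha : τ.Act w a a') (h : a α = -α) (h2 : α ⬝ᵥ cv = 2) (hr : ∀ v, a v = v - (v ⬝ᵥ cv) • α)
    (hww : w * w = τ.co cv (-1))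
    (hb : ∀ b : kˣ, y ((b⁻¹ : kˣ) : k) = x b * τ.co cv b * w * x b) : Rel1 x y (τ.co cv) w := by
  have hhx : ∀ (b : kˣ) c, τ.co cv b * x c * (τ.co cv b)⁻¹ = x ((b : k) ^ 2 * c) := fun b c => by
    have := hx.conj ⟨τ.co cv b, τ.co_mem cv b⟩ c
    rwa [τ.pair, h2, zpow_ofNat, Units.val_pow_eq_pow_val] at this
  obtain ⟨κ, hκ⟩ := (hy.mem_iff _).1 (conj_ray ha hw h ((hx.mem_iff _).2 ⟨1, rfl⟩))
  have h3 : ∀ c, w * x c * w⁻¹ = y (c * κ) := fun c => by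
    rcases eq_or_ne c 0 with rfl | hc
    · rw [zero_mul, RH.zero τ hx, RH.zero τ hy, mul_one, mul_inv_cancel]
    obtain ⟨t, ht⟩ := τ.χ_surj hα (Units.mk0 c hc)
    have e1 := hx.conj t 1
    have e2 := hy.conj ⟨w * t.1 * w⁻¹, ha.mem t.1 t.2⟩ κ
    rw [← h, ha.chi, ht, Units.val_mk0] at e2
    rw [ht, Units.val_mk0, mul_one] at e1
    rw [← e1, ← e2, ← hκ]
    group
  have h4 : ∀ c, w * y (c * κ) * w⁻¹ = x c := fun c => by
    have := hhx (-1) c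
    rw [← hww, Units.val_neg, Units.val_one, neg_one_sq, one_mul] at this
    rw [← h3]
    exact Eq.trans (by group) this
  have h5 : κ ≠ 0 := by
    rintro rfl
    have := h4 1
    rw [mul_zero, ← zero_mul 0, h4] at this
    exact zero_ne_one (hx.inj this)
  have h6 : κ = -1 := by
    have e1 := hb 1
    rw [inv_one, Units.val_one, τ.co_one, mul_one] at e1
    have e2 := h4 κ⁻¹
    rw [inv_mul_cancel₀ h5, e1] at e2
    have e3 := hb (-(Units.mk0 κ h5)⁻¹)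
    rw [inv_neg, inv_inv, Units.val_neg, Units.val_neg, Units.val_inv_eq_inv_val,
      Units.val_mk0] at e3
    have e4 := h3 (-1)
    rw [neg_one_mul, RH.neg τ hx] at e4
    have e5 := h4 (-1)
    rw [neg_one_mul] at e5
    have e6 : x (κ⁻¹ + 1) = τ.co cv (-(Units.mk0 κ h5)⁻¹) := by
      have e7 : y (-κ) * x κ⁻¹ * y (-κ) = w := by
        rw [← e2, ← e4]
        group
      have e8 : τ.co cv (-(Units.mk0 κ h5)⁻¹) =
          (x (-κ⁻¹))⁻¹ * y (-κ) * (x (-κ⁻¹))⁻¹ * w⁻¹ := by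
        rw [e3]
        group
      rw [e8, hx.add, RH.neg τ hx, inv_inv, ← inv_inv (x 1), ← RH.neg τ hx 1, ← e5]
      calc _ = x κ⁻¹ * w * (y (-κ))⁻¹ * w⁻¹ := by group
        _ = x κ⁻¹ * (y (-κ) * x κ⁻¹ * y (-κ)) * (y (-κ))⁻¹ * w⁻¹ := by rw [e7]
        _ = _ := by group
    have e9 := eq_zero_of_mem hG hT hx hα (e6 ▸ τ.co_mem cv _)
    rw [← inv_inv κ, eq_neg_of_add_eq_zero_left e9, inv_neg, inv_one]
  refine ⟨hx.add, τ.co_mul cv, hhx, fun b => ?_, hww, fun c => ?_, hb⟩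
  · rw [ha.co, ha.coreflection h2 hr, h2, two_zsmul, sub_add_cancel_left, τ.co_neg, τ.co_inv]
  · rw [h3, h6, neg_mul_neg, mul_one]

theorem exists_rel1 (hG : Red G) (hT : MaxTor G T) (hα : α ∈ τ.Rt G) (hx : τ.RH G α x e)
    (hy : τ.RH G (-α) y f) : ∃ (s : kˣ) (w : Gl n k) (a a' : τ.X ≃+ τ.X) (cv : τ.X), w ∈ G ∧
      τ.Act w a a' ∧ α ⬝ᵥ cv = 2 ∧ (∀ v, a v = v - (v ⬝ᵥ cv) • α) ∧
      Rel1 (fun c => x ((s : k) * c)) y (τ.co cv) w := by
  obtain ⟨_, h1, _, h2, w, hw, a, a', ha, h, -, e1⟩ := root_bruhat hG hT hα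
    ((hy.mem_iff _).2 ⟨1, rfl⟩) fun e => one_ne_zero (hy.inj (e.trans (RH.zero τ hy).symm))
  obtain ⟨s, rfl⟩ := (hx.mem_iff _).1 h1
  obtain ⟨s', rfl⟩ := (hx.mem_iff _).1 h2
  obtain ⟨cv, h3, h4, h5⟩ := coroot_aux hx hy hα.1 ha h e1
  have h6 : x (-s) * (τ.co cv (-1) * w) * x (-s') = x (-s') * w⁻¹ * x (-s) := by
    have := h5 (-1)
    rw [inv_neg, inv_one, Units.val_neg, Units.val_one, neg_one_mul, neg_one_mul, RH.neg τ hy,
      e1] at this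
    rw [← mul_assoc, ← this, RH.neg τ hx, RH.neg τ hx]
    group
  obtain ⟨h7, h8, -⟩ := bruhat_unique hG hT hx hα.1 (G.mul_mem (hT.prop.1 (τ.co_mem cv _)) hw)
    (G.inv_mem hw) ((act_of_comm fun t ht => T_comm τ (τ.co_mem cv _) ht).mul ha) ha.inv h
    (fun v => by
      rw [AddEquiv.trans_apply, AddEquiv.refl_apply, eq_comm, a.symm_apply_eq, h4 v, map_sub,
        map_zsmul, h, h4 v, smul_neg, sub_neg_eq_add, sub_add_cancel]) h6
  obtain rfl : s = s' := neg_injective h7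
  have h9 : s ≠ 0 := by
    rintro rfl
    rw [RH.zero τ hx, one_mul, mul_one] at e1
    refine neg_ne_zero.2 hα.1 (τ.χ_inj (MonoidHom.ext fun t => Units.ext ?_))
    have : y (1 + -(τ.χ (-α) t * 1)) ∈ T := by
      rw [hy.add, RH.neg τ hy, ← hy.conj, e1]
      convert T.mul_mem (ha.mem _ t.2) (T.inv_mem t.2) using 1
      group
    have := eq_zero_of_mem hG hT hy (neg_ne_zero.2 hα.1) this
    rw [τ.χ_zero, MonoidHom.one_apply, Units.val_one]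
    linear_combination -this
  refine ⟨Units.mk0 s h9, w, a, a', cv, hw, ha, h3, h4,
    rel1_aux hG hT hα.1 (RH.scale τ hx _) hy hw ha h h3 h4 ?_ fun b => ?_⟩
  · rw [← inv_neg_one, τ.co_inv]
    calc _ = (τ.co cv (-1))⁻¹ * (τ.co cv (-1) * w) * w := by group
      _ = _ := by rw [h8]; group
  · rw [h5, Units.val_mk0, mul_comm s]

end TD

end Pool.Agent.AG
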