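import Pool.Agent.Lib.AG.Sl2a

/-! The rank one data attached to a root. -/

namespace Pool.Agent.AG

open Set Matrix

attribute [local instance 100] LieRing.ofAssociativeRing

universe u

variable {k : Type u} [Field k] [IsAlgClosed k] [Fact (ringChar k).Prime] {n : ℕ}
  {G T : Subgroup (Gl n k)} {τ : TD T} {α cv : τ.X} {x y : k → Gl n k} {e f : Mt n k}
  {φ : SpecialLinearGroup (Fin 2) k →* Gl n k}

namespace TD

variable (τ) in
/-- The rank one data attached to a root. -/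
structure S2 (G : Subgroup (Gl n k)) (α cv : τ.X) (x y : k → Gl n k) (e f : Mt n k)
    (φ : SpecialLinearGroup (Fin 2) k →* Gl n k) : Prop where
  rx : τ.RH G α x e
  ry : τ.RH G (-α) y f
  two : α ⬝ᵥ cv = 2
  φ_mem : ∀ g, φ g ∈ G
  φ_up : ∀ c, φ (up c) = x c
  φ_lo : ∀ c, φ (lo c) = y c
  φ_di : ∀ a, φ (di a) = τ.co cv a
  refl : ∃ g ∈ G, ∃ a a', τ.Act g a a' ∧ ∀ v, a v = v - (v ⬝ᵥ cv) • α
  br : e * f - f * e = τ.H cv

omit [Fact (ringChar k).Prime] in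
private theorem sl2c_coef {K : ℕ} (hK : 2 ≤ K) (a b : ℕ → k) (m : ℤ) (h0 : a 0 = b 0)
    (h : ∀ (t : k) (z : kˣ), (z : k) = 1 + t → ∑ j ∈ Finset.range K, t ^ j * a j =
      (z : k) ^ (-m) * ∑ j ∈ Finset.range K, t ^ j * b j) : b 1 - a 1 = m * a 0 := by
  have ev : ∀ (c : ℕ → k) (t : k), (∑ j ∈ Finset.range K, Polynomial.monomial j (c j)).eval t =
      ∑ j ∈ Finset.range K, t ^ j * c j := fun c t => by
    rw [Polynomial.eval_finsetSum]
    exact Finset.sum_congr rfl fun j _ => by rw [Polynomial.eval_monomial, mul_comm]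
  have co : ∀ (c : ℕ → k) (i : ℕ), i < K →
      (∑ j ∈ Finset.range K, Polynomial.monomial j (c j)).coeff i = c i := fun c i hi => by
    rw [Polynomial.finsetSum_coeff]
    simp only [Polynomial.coeff_monomial]
    rw [Finset.sum_ite_eq', if_pos (Finset.mem_range.2 hi)]
  have hm : ((m.toNat : ℕ) : ℤ) - ((-m).toNat : ℕ) = m := Int.toNat_sub_toNat_neg m
  have e := Polynomial.eq_of_infinite_eval_eq
    ((1 + Polynomial.X) ^ m.toNat * ∑ j ∈ Finset.range K, Polynomial.monomial j (a j))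
    ((1 + Polynomial.X) ^ (-m).toNat * ∑ j ∈ Finset.range K, Polynomial.monomial j (b j))
    ((finite_singleton (-1 : k)).infinite_compl.mono fun t ht => by
      have hz : 1 + t ≠ 0 := fun e => ht (eq_neg_of_add_eq_zero_right e)
      simp only [mem_ofPred_eq, Polynomial.eval_mul, Polynomial.eval_pow, Polynomial.eval_add,
        Polynomial.eval_one, Polynomial.eval_X, ev]
      rw [h t (Units.mk0 _ hz) rfl, Units.val_mk0, ← mul_assoc, ← zpow_natCast, ← zpow_natCast,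
        ← zpow_add₀ hz]
      congr 2
      omega)
  have e1 := congrArg (fun P => P.coeff 1) e
  simp only [Polynomial.mul_coeff_one, Polynomial.coeff_one_add_X_pow, co _ 0 (by omega),
    co _ 1 (by omega), Nat.choose_zero_right, Nat.choose_one_right, Nat.cast_one, one_mul] at e1
  have hk : ((m.toNat : ℕ) : k) - ((-m).toNat : ℕ) = m := by exact_mod_cast congrArg Int.cast hm
  rw [← hk]
  linear_combination -e1 + ((-m).toNat : k) * h0

omit [IsAlgClosed k] [Fact (ringChar k).Prime] in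
private theorem sl2c_poly {N K : ℕ} (h2 : 2 ≤ N) (hK : N ≤ K) {E : ℕ → Mt n k}
    (hE : ∀ j : ℕ, E j ∈ τ.w Ad (j • α))
    (h : ∀ c, (x c).1 = ∑ j ∈ Finset.range N, c ^ j • E j) :
    ∃ E' : ℕ → Mt n k, E' 0 = E 0 ∧ E' 1 = E 1 ∧ (∀ j : ℕ, E' j ∈ τ.w Ad (j • α)) ∧
      ∀ c, (x c).1 = ∑ j ∈ Finset.range K, c ^ j • E' j := by
  refine ⟨fun j => if j < N then E j else 0, if_pos (by omega), if_pos (by omega), fun j => ?_,
    fun c => ?_⟩
  · beta_reduce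
    split_ifs
    exacts [hE j, zero_mem _]
  · beta_reduce
    rw [h, ← Finset.sum_subset (Finset.range_subset_range.2 hK) fun j _ hj => by
      rw [if_neg fun e => hj (Finset.mem_range.2 e), smul_zero]]
    exact Finset.sum_congr rfl fun j hj => by rw [if_pos (Finset.mem_range.1 hj)]

private theorem sl2c_proj (x₀ : τ.X) : ∃ π : (Fin n → k) →ₗ[k] Fin n → k,
    ∀ x', ∀ v ∈ τ.w nat x', π v = if x' = x₀ then v else 0 := by
  obtain ⟨q, hq, hc⟩ := (τ.iSupIndep_w nat x₀).symm.exists_isCompl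
  refine ⟨(τ.w nat x₀).projection q hc.symm, fun x' v hv => ?_⟩
  split_ifs with e
  · exact Submodule.projection_apply_left hc.symm ⟨v, e ▸ hv⟩
  · exact Submodule.projection_apply_right hc.symm
      ⟨v, hq (Submodule.mem_iSup_of_mem x' (Submodule.mem_iSup_of_mem e hv))⟩

theorem bracket_eq (hx : τ.RH G α x e) (hy : τ.RH G (-α) y f) (h2 : α ⬝ᵥ cv = 2)
    (h1 : ∀ c, φ (up c) = x c) (h1' : ∀ c, φ (lo c) = y c) (h3 : ∀ a, φ (di a) = τ.co cv a) :
    e * f - f * e = τ.H cv := by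
  obtain ⟨N, E₀, hN, E0, E1, hE₀, hx₀⟩ := hx.poly
  obtain ⟨M, F₀, hM, F0, F1, hF₀, hy₀⟩ := hy.poly
  obtain ⟨E, E0', E1', hE, hxE⟩ := sl2c_poly hN (le_max_left N M) hE₀ hx₀
  obtain ⟨F, F0', F1', hF, hyF⟩ := sl2c_poly hM (le_max_right N M) hF₀ hy₀
  rw [E0] at E0'
  rw [E1] at E1'
  rw [F0] at F0'
  rw [F1] at F1'
  have hij : ∀ (x₀ : τ.X) (i j : ℕ), i • -α + (j • α + x₀) = x₀ ↔ i = j := fun x₀ i j => by
    refine ⟨fun h => ?_, fun h => by rw [h, smul_neg, neg_add_cancel_left]⟩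
    have h' := congrArg (· ⬝ᵥ cv) h
    simp only [add_dotProduct, smul_dotProduct, neg_dotProduct, h2] at h'
    simp only [nsmul_eq_mul] at h'
    omega
  have hji : ∀ (x₀ : τ.X) (i j : ℕ), j • α + (i • -α + x₀) = x₀ ↔ i = j := fun x₀ i j => by
    rw [add_left_comm, hij]
  refine τ.ext_nat fun x₀ v hv => ?_
  obtain ⟨π, hπ⟩ := sl2c_proj (τ := τ) x₀
  rw [τ.H_nat x₀ cv v hv]
  funext r
  have key := sl2c_coef (hN.trans (le_max_left N M)) (fun j => (F j *ᵥ E j *ᵥ v) r)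
    (fun j => (E j *ᵥ F j *ᵥ v) r) (x₀ ⬝ᵥ cv) (by simp only [E0', F0']) fun t z hz => ?_
  · simp only [E0', F0', E1', F1', one_mulVec] at key
    rw [sub_mulVec, ← mulVec_mulVec, ← mulVec_mulVec]
    exact key
  have hco : ∀ i : ℕ, (τ.co cv z⁻¹).1 *ᵥ F i *ᵥ v =
      ((z : k) ^ (-(x₀ ⬝ᵥ cv)) * (z : k) ^ i * (z : k) ^ i) • F i *ᵥ v := fun i => by
    refine (τ.mulVec_mem (hF i) hv ⟨τ.co cv z⁻¹, τ.co_mem cv z⁻¹⟩).trans ?_
    rw [τ.pair, add_dotProduct, smul_dotProduct, neg_dotProduct, h2, Units.val_zpow_eq_zpow_val,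
      Units.val_inv_eq_inv_val, _root_.inv_zpow', ← zpow_natCast, ← zpow_add₀ z.ne_zero,
      ← zpow_add₀ z.ne_zero]
    congr 2
    simp only [nsmul_eq_mul]
    ring
  have e0 := congrArg φ (lo_mul_up t z hz)
  rw [map_mul, map_mul, map_mul, h1, h1', h1, h1', h3] at e0
  have e1 := congrArg (fun g : Gl n k => π (g.1 *ᵥ v) r) e0
  simp only [Units.val_mul, ← mulVec_mulVec, hxE, hyF, sum_mulVec, smul_mulVec, mulVec_sum,
    mulVec_smul, hco, map_sum, map_smul, hπ _ _ (τ.mulVec_mem (hF _) (τ.mulVec_mem (hE _) hv)),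
    hπ _ _ (τ.mulVec_mem (hE _) (τ.mulVec_mem (hF _) hv)), hij, hji, smul_ite, smul_zero,
    Finset.sum_ite_eq, Finset.sum_ite_eq', Finset.sum_apply] at e1
  rw [Finset.mul_sum]
  refine Eq.trans (Finset.sum_congr rfl fun j hj => ?_) (e1.trans
    (Finset.sum_congr rfl fun j hj => ?_))
  · rw [if_pos hj, one_pow, one_smul, Pi.smul_apply, smul_eq_mul]
  · have hz' : (z : k) ^ j * ((z⁻¹ : kˣ) : k) ^ j = 1 := by
      rw [← mul_pow, Units.mul_inv, one_pow]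
    simp only [if_pos hj, Pi.smul_apply, smul_eq_mul, mul_pow]
    linear_combination (t ^ j * (z : k) ^ (-(x₀ ⬝ᵥ cv)) * (E j *ᵥ F j *ᵥ v) r *
      ((z : k) ^ j * ((z⁻¹ : kˣ) : k) ^ j + 1)) * hz'

theorem exists_S2 (hG : Red G) (hT : MaxTor G T) (hα : α ∈ τ.Rt G) :
    ∃ cv x y e f φ, τ.S2 G α cv x y e f φ := by
  have hn : Nm T G := .of_le hT.prop.1
  have hα' := neg_mem_Rt hG hT hα
  obtain ⟨e, e0, el, ew, ed⟩ := root_dim hG hT hα
  obtain ⟨f, f0, fl, fw, fd⟩ := root_dim hG hT hα'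
  obtain ⟨x, hx⟩ := τ.exists_RH hG.1.closed hn hα.1 e0 el ew ed
  obtain ⟨y, hy⟩ := τ.exists_RH hG.1.closed hn hα'.1 f0 fl fw fd
  obtain ⟨s, w, a, a', cv, hw, ha, h2, hr, R⟩ := exists_rel1 hG hT hα hx hy
  obtain ⟨φ, h1, h1', h3⟩ := R.exists_hom
  refine ⟨cv, _, y, _, f, φ, RH.scale τ hx s, hy, h2, fun g => ?_, h1, h1', h3,
    ⟨w, hw, a, a', ha, hr⟩, bracket_eq (RH.scale τ hx s) hy h2 h1 h1' h3⟩
  have hle : (⊤ : Subgroup (SpecialLinearGroup (Fin 2) k)) ≤ G.comap φ := by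
    rw [← closure_up_lo, Subgroup.closure_le]
    rintro _ (⟨c, rfl⟩ | ⟨c, rfl⟩)
    · exact Subgroup.mem_comap.2 (h1 c ▸ GP_le ((hx.mem_iff _).2 ⟨_, rfl⟩))
    · exact Subgroup.mem_comap.2 (h1' c ▸ GP_le ((hy.mem_iff _).2 ⟨_, rfl⟩))
  exact hle (Subgroup.mem_top g)

theorem S2.symm (h : τ.S2 G α cv x y e f φ) : ∃ φ', τ.S2 G (-α) (-cv) y x f e φ' := by
  obtain ⟨σ, s1, s2, s3⟩ := exists_swap (k := k)
  obtain ⟨g, hg, a, a', ha, hr⟩ := h.refl
  refine ⟨φ.comp σ, h.ry, (neg_neg α).symm ▸ h.rx, by rw [neg_dotProduct_neg, h.two],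
    fun g => h.φ_mem _, fun c => ?_, fun c => ?_, fun c => ?_, ⟨g, hg, a, a', ha, fun v => ?_⟩, ?_⟩
  · rw [MonoidHom.comp_apply, s1, h.φ_lo]
  · rw [MonoidHom.comp_apply, s2, h.φ_up]
  · rw [MonoidHom.comp_apply, s3, h.φ_di, τ.co_inv, τ.co_neg]
  · rw [hr, dotProduct_neg, neg_smul_neg]
  · rw [map_neg, ← h.br, neg_sub]

end TD

end Pool.Agent.AG
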