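import Pool.Agent.Lib.AG.Torus

/-! Tori: divisibility, products. -/

namespace Pool.Agent.AG

open Set

universe u

variable {k : Type u} [Field k] [IsAlgClosed k] [Fact (ringChar k).Prime] {n : ℕ}
  {G D T S : Subgroup (Gl n k)}

omit [Fact (ringChar k).Prime] in
private theorem torus2_root {m : ℕ} (hm : m ≠ 0) (c : kˣ) : ∃ d : kˣ, d ^ m = c := by
  obtain ⟨z, hz⟩ := IsAlgClosed.exists_pow_nat_eq (c : k) (Nat.pos_of_ne_zero hm)
  have h0 : z ≠ 0 := by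
    rintro rfl
    exact c.ne_zero (by rw [← hz, zero_pow hm])
  exact ⟨Units.mk0 z h0, Units.ext (by simpa using hz)⟩

theorem Tor.divisible (h : Tor T) {m : ℕ} (hm : m ≠ 0) {t : Gl n k} (ht : t ∈ T) :
    ∃ s ∈ T, s ^ m = t := by
  obtain ⟨τ⟩ := h.exists_TD
  choose d hd using fun i : Fin τ.r => torus2_root hm (τ.χ (Pi.single i 1) ⟨t, ht⟩)
  let L : (Fin τ.r → ℤ) →+ Additive kˣ :=
    AddMonoidHom.mk' (fun x => Additive.ofMul (τ.χ x ⟨t, ht⟩)) fun x y => by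
      rw [τ.χ_add]
      rfl
  let L' : (Fin τ.r → ℤ) →ₗ[ℤ] Additive kˣ :=
    (Pi.basisFun ℤ (Fin τ.r)).constr ℤ fun i => Additive.ofMul (d i)
  have e : m • L' = L.toIntLinearMap := by
    refine (Pi.basisFun ℤ (Fin τ.r)).ext fun i => ?_
    rw [LinearMap.smul_apply, Module.Basis.constr_basis, ← ofMul_pow, hd, Pi.basisFun_apply]
    rfl
  obtain ⟨s, hs⟩ := τ.surj (MonoidHom.mk' (fun x => (L' x.toAdd).toMul) fun x y => by
    rw [toAdd_mul, map_add, toMul_add])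
  have h1 : s ^ m * ⟨t, ht⟩⁻¹ = 1 := τ.sep _ fun x => by
    have h2 : (L' x).toMul ^ m = τ.χ x ⟨t, ht⟩ :=
      congrArg Additive.toMul (LinearMap.congr_fun e x)
    rw [map_mul, map_pow, map_inv, hs x, mul_inv_eq_one]
    exact h2
  exact ⟨s.1, s.2, congrArg Subtype.val (mul_inv_eq_one.1 h1)⟩

theorem tor_of_divisible (hD : Closed (OG k n) (D : Set (Gl n k))) (h : Dg D)
    (hd : ∀ m : ℕ, m ≠ 0 → ∀ t ∈ D, ∃ s ∈ D, s ^ m = t) : Tor D := by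
  have hn : ((idc D).subgroupOf D).Normal := ⟨fun a ha g => by
    have e : g * a * g⁻¹ = a := by
      rw [mul_inv_eq_iff_eq_mul]
      exact Subtype.ext (h.comm g.2 a.2)
    rwa [e]⟩
  have e : idc D = D := le_antisymm (idc_le D) fun t ht => by
    obtain ⟨s, hs, rfl⟩ := hd _ (idc_spec hD).2.2 t ht
    exact ((idc D).subgroupOf D).pow_index_mem ⟨s, hs⟩
  exact ⟨e ▸ cc_idc hD, h⟩

theorem tor_bot : Tor (⊥ : Subgroup (Gl n k)) := by
  refine ⟨cc_bot, 1, fun t ht => ?_⟩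
  rw [Subgroup.mem_bot.1 ht, mul_one, mul_inv_cancel]
  exact Matrix.isDiag_one

theorem Tor.sup (hS : Tor S) (hT : Tor T) (h : ∀ a ∈ S, ∀ b ∈ T, a * b = b * a) :
    Tor (S ⊔ T) := by
  refine ⟨hS.1.sup hT.1 fun a ha b hb => ?_, Dg.sup hS.2 hT.2 h⟩
  rwa [h a ha b hb, mul_inv_cancel_right]

theorem MaxTor.le_of_comm (hT : MaxTor G T) (hS : Tor S) (hSG : S ≤ G)
    (h : ∀ a ∈ S, ∀ b ∈ T, a * b = b * a) : S ≤ T :=
  le_sup_left.trans (hT.2 ⟨sup_le hSG hT.1.1, hS.sup hT.1.2 h⟩ le_sup_right)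

theorem MaxTor.of_le (hT : MaxTor G T) {H : Subgroup (Gl n k)} (h : T ≤ H) (h' : H ≤ G) :
    MaxTor H T :=
  ⟨⟨h, hT.1.2⟩, fun _ hS hle => hT.2 ⟨hS.1.trans h', hS.2⟩ hle⟩

end Pool.Agent.AG
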