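import Pool.Agent.Lib.AG.LK
import Pool.Agent.Lib.AG.FiltA
import Pool.Agent.Lib.AG.FiltB
import Pool.Agent.Lib.AG.Torus2

/-! Connected solvable groups. -/

namespace Pool.Agent.AG

open Set

universe u

variable {k : Type u} [Field k] [IsAlgClosed k] [Fact (ringChar k).Prime] {n : ℕ}
  {B S T T' : Subgroup (Gl n k)}

theorem Trg.conj_hom (h : Trg B) (hS : Tor S) (hSB : S ≤ B) (σ : S →* Gl n k)
    (hσ : ∀ s, σ s ∈ B) (hu : ∀ s : S, Unip (σ s * s.1⁻¹)) :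
    ∃ u ∈ B, Unip u ∧ ∀ s : S, σ s = u * s.1 * u⁻¹ := by
  obtain ⟨F, h0, hr, -⟩ := h.exists_filt
  have hp : ringChar k ≠ 0 := (Fact.out : (ringChar k).Prime).ne_zero
  obtain ⟨u, h1, h2⟩ := F.conj_hom (A := S) (fun a b => Subtype.ext (Dg.comm hS.2 a.2 b.2))
    (fun a => by
      obtain ⟨b, hb, e⟩ := hS.divisible hp a.2
      exact ⟨⟨b, hb⟩, Subtype.ext e⟩)
    (Subgroup.inclusion hSB) (σ.codRestrict B hσ) (fun a => (h0 _).2 (hu a)) fun j =>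
      (RegChar.trivial_or_surj hS.1 ((hr j).comp_incl hSB)).imp_left fun e a =>
        DFunLike.congr_fun e a
  exact ⟨u, u.2, (h0 u).1 h1, fun s => congrArg Subtype.val (h2 s)⟩

theorem exists_complement (hB : CC B) (hs : Group.IsSolvable B) :
    ∃ H, Tor H ∧ H ≤ B ∧ ∀ b ∈ B, ∃ t ∈ H, ∃ u ∈ B, Unip u ∧ b = t * u := by
  have h := trg_of_solvable hB.irr hs
  obtain ⟨F, h0, hr, hc⟩ := h.exists_filt
  obtain ⟨d, hD, hd, φ, hφ, hφr⟩ := h.exists_diag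
  have hp : ringChar k ≠ 0 := (Fact.out : (ringChar k).Prime).ne_zero
  have h1 : ∀ x : B, x ∈ F.N 0 ↔ d x = 1 := fun x => (h0 x).trans (hd x).symm
  have e : φ '' (B : Set (Gl n k)) = (d.range : Set (Gl n k)) := by
    ext y
    constructor
    · rintro ⟨x, hx, rfl⟩
      exact ⟨⟨x, hx⟩, (hφ ⟨x, hx⟩).symm⟩
    · rintro ⟨x, rfl⟩
      exact ⟨x.1, x.2, hφ x⟩
  have hT : Tor d.range :=
    ⟨cc_iff.2 ⟨closed_of_image aff_OG hB.closed hφr e, e ▸ hB.irr.image hφr⟩, hD⟩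
  have h2 : ∀ m : ℕ, m ≠ 0 → ∀ b : B, ∃ c : B, d c ^ m = d b := fun m hm b => by
    obtain ⟨_, ⟨c, rfl⟩, hc⟩ := hT.divisible hm (t := d b) ⟨b, rfl⟩
    exact ⟨c, hc⟩
  obtain ⟨H, h3, h4⟩ := F.split hc
    (fun b => (h2 _ hp b).imp fun c hc => (h1 _).2 (by
      rw [map_mul, map_inv, map_pow, hc, inv_mul_cancel]))
    (fun b hb => (h0 b).2 (unip_of_pow (m := n + 1) (by
      have h5 := unip_iff.1 ((h0 _).1 hb)
      rwa [Subgroup.coe_pow, ← pow_mul, ← pow_succ'] at h5)))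
    fun j => RegChar.trivial_or_surj hB (hr j)
  have h5 : ∀ x ∈ H, x ∈ F.N 0 → x = 1 := fun x hx hx' =>
    Subgroup.mem_bot.1 (h3 ▸ (⟨hx, hx'⟩ : x ∈ H ⊓ F.N 0))
  have h6 : ∀ m : ℕ, m ≠ 0 → ∀ t ∈ H.map B.subtype, ∃ s ∈ H.map B.subtype, s ^ m = t := by
    rintro m hm _ ⟨t, ht, rfl⟩
    obtain ⟨c, hc⟩ := h2 m hm t
    obtain ⟨s, hs, h7⟩ := h4 c
    rw [h1, map_mul, map_inv, inv_mul_eq_one] at h7
    have h8 := h5 (t⁻¹ * s ^ m) (H.mul_mem (H.inv_mem ht) (H.pow_mem hs m))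
      ((h1 _).2 (by rw [map_mul, map_inv, map_pow, h7, hc, inv_mul_cancel]))
    exact ⟨s, ⟨s, hs, rfl⟩, (congrArg Subtype.val (inv_mul_eq_one.1 h8)).symm⟩
  have h7 : Dg (H.map B.subtype) := by
    refine dg_of_comm (fun a ha => ?_) ?_
    · obtain ⟨s, -, rfl⟩ := h6 _ (pow_ne_zero n hp) a ha
      exact ss_pow s
    · rintro _ ⟨a, ha, rfl⟩ _ ⟨b, hb, rfl⟩
      have h8 := h5 _ (H.mul_mem (H.mul_mem (H.mul_mem ha hb) (H.inv_mem ha)) (H.inv_mem hb))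
        (hc a b)
      rw [mul_inv_eq_one, mul_inv_eq_iff_eq_mul] at h8
      exact congrArg Subtype.val h8
  have h8 : H.map B.subtype ≤ B := Subgroup.map_subtype_le H
  have h9 : Closed (OG k n) (H.map B.subtype : Set (Gl n k)) := by
    obtain ⟨K, hK⟩ := exists_cloG (H.map B.subtype)
    intro x hx
    have hxB : x ∈ B := clo_min h8 hB.closed hx
    obtain ⟨t, ht, hu⟩ := h4 ⟨x, hxB⟩
    have htK : t.1 ∈ K := by
      rw [← SetLike.mem_coe, hK]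
      exact subset_clo ⟨t, ht, rfl⟩
    have hxK : x ∈ K := by rwa [← SetLike.mem_coe, hK]
    have h10 := ((h7.of_clo hK).ss (K.mul_mem (K.inv_mem htK) hxK)).eq_one ((h0 _).1 hu)
    exact ⟨t, ht, inv_mul_eq_one.1 h10⟩
  refine ⟨_, tor_of_divisible h9 h7 h6, h8, fun b hb => ?_⟩
  obtain ⟨t, ht, hu⟩ := h4 ⟨b, hb⟩
  exact ⟨t, ⟨t, ht, rfl⟩, t.1⁻¹ * b, B.mul_mem (B.inv_mem t.2) hb, (h0 _).1 hu,
    (mul_inv_cancel_left _ _).symm⟩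

omit [IsAlgClosed k] [Fact (ringChar k).Prime] in
private theorem Solv_unip (h : Trg B) : ∃ U : Subgroup (Gl n k),
    (∀ x, x ∈ U ↔ x ∈ B ∧ Unip x) ∧ ∀ a ∈ B, ∀ b ∈ B, a * b * a⁻¹ * b⁻¹ ∈ U := by
  obtain ⟨F, h0, -, hc⟩ := h.exists_filt
  refine ⟨(F.N 0).map B.subtype, fun x => ⟨?_, fun hx => ⟨⟨x, hx.1⟩, (h0 _).2 hx.2, rfl⟩⟩,
    fun a ha b hb => ⟨_, hc ⟨a, ha⟩ ⟨b, hb⟩, rfl⟩⟩
  rintro ⟨y, hy, rfl⟩
  exact ⟨y.2, (h0 y).1 hy⟩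

theorem exists_unipPart (hB : CC B) (hs : Group.IsSolvable B) : ∃ U : Subgroup (Gl n k),
    (∀ x, x ∈ U ↔ x ∈ B ∧ Unip x) ∧ NorU B U ∧ ∀ a ∈ B, ∀ b ∈ B, a * b * a⁻¹ * b⁻¹ ∈ U := by
  obtain ⟨U, hU, hc⟩ := Solv_unip (trg_of_solvable hB.irr hs)
  obtain ⟨H, hH, hHB, hd⟩ := exists_complement hB hs
  have hUB : U ≤ B := fun x hx => ((hU x).1 hx).1
  have hn : ∀ g ∈ B, ∀ x ∈ U, g * x * g⁻¹ ∈ U := fun g hg x hx =>
    (hU _).2 ⟨B.mul_mem (B.mul_mem hg (hUB hx)) (B.inv_mem hg), ((hU x).1 hx).2.conj g⟩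
  have hcl : Closed (OG k n) (U : Set (Gl n k)) := by
    rw [show (U : Set (Gl n k)) = (B : Set (Gl n k)) ∩ {g | Unip g} from Set.ext hU]
    exact hB.closed.inter closed_unip
  have hN : Nm H (idc U) := Nm.idc_nm fun t ht => hn t (hHB ht)
  have h1 : (H ⊔ idc U).relIndex U ≠ 0 := fun e =>
    (idc_spec hcl).2.2 (Subgroup.relIndex_eq_zero_of_le_left le_sup_right e)
  have h2 : (H ⊔ idc U).relIndex B ≠ 0 := by
    have := (Subgroup.index_ne_zero_iff_finite).1 h1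
    refine Subgroup.index_ne_zero_iff_finite.2
      (Finite.of_surjective (Subgroup.quotientSubgroupOfEmbeddingOfLE (H ⊔ idc U) hUB) fun q => ?_)
    obtain ⟨b, rfl⟩ := QuotientGroup.mk_surjective q
    obtain ⟨t, ht, u, hu, hu', e⟩ := hd b.1 b.2
    refine ⟨QuotientGroup.mk ⟨t * u * t⁻¹, hn t (hHB ht) u ((hU u).2 ⟨hu, hu'⟩)⟩, ?_⟩
    rw [Subgroup.quotientSubgroupOfEmbeddingOfLE_apply_mk, QuotientGroup.eq,
      Subgroup.mem_subgroupOf]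
    have e' : (t * u * t⁻¹)⁻¹ * b.1 = t := by rw [e]; group
    show (t * u * t⁻¹)⁻¹ * b.1 ∈ _
    rw [e']
    exact Subgroup.mem_sup_left ht
  have h3 := hB.irr.le_of_relIndex (hH.1.closed.sup (idc_spec hcl).1 hN) h2
  have h4 : idc U = U := le_antisymm (idc_le U) fun u hu => by
    obtain ⟨t, ht, v, hv, e⟩ := hN.mem_sup.1 (h3 (hUB hu))
    have h5 : t ∈ U := (U.mul_mem_cancel_right (idc_le U hv)).1 (e ▸ hu)
    rw [e, (Dg.ss hH.2 ht).eq_one ((hU t).1 h5).2, one_mul]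
    exact hv
  exact ⟨U, hU, ⟨hUB, h4 ▸ cc_idc hcl, hn, fun x hx => ((hU x).1 hx).2⟩, hc⟩

private theorem Solv_max {H : Subgroup (Gl n k)} (h : Trg B) (hH : Tor H) (hHB : H ≤ B)
    (hd : ∀ b ∈ B, ∃ t ∈ H, ∃ u ∈ B, Unip u ∧ b = t * u) (hT : MaxTor B T) :
    ∃ u ∈ B, Unip u ∧ T = cj u⁻¹ H := by
  obtain ⟨U, hU, -⟩ := Solv_unip h
  have hTB : T ≤ B := hT.prop.1
  have h1 : ∀ s : T, ∃ t ∈ H, t⁻¹ * s.1 ∈ U := fun s => by
    obtain ⟨t, ht, u, hu, hu', e⟩ := hd s.1 (hTB s.2)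
    exact ⟨t, ht, by rw [e, inv_mul_cancel_left]; exact (hU u).2 ⟨hu, hu'⟩⟩
  choose f hf hf' using h1
  have hn : ∀ g ∈ B, ∀ x ∈ U, g * x * g⁻¹ ∈ U := fun g hg x hx =>
    (hU _).2 ⟨B.mul_mem (B.mul_mem hg ((hU x).1 hx).1) (B.inv_mem hg), ((hU x).1 hx).2.conj g⟩
  have h2 : ∀ a b : T, f (a * b) = f a * f b := fun a b => by
    have h3 := U.mul_mem (hf' (a * b)) (U.inv_mem
      (U.mul_mem (hn _ (B.inv_mem (hHB (hf b))) _ (hf' a)) (hf' b)))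
    have e : (f (a * b))⁻¹ * (a * b).1 * ((f b)⁻¹ * ((f a)⁻¹ * a.1) * (f b)⁻¹⁻¹ *
        ((f b)⁻¹ * b.1))⁻¹ = (f (a * b))⁻¹ * (f a * f b) := by
      rw [Subgroup.coe_mul]; group
    rw [e] at h3
    exact inv_mul_eq_one.1 ((Dg.ss hH.2 (H.mul_mem (H.inv_mem (hf _))
      (H.mul_mem (hf a) (hf b)))).eq_one ((hU _).1 h3).2)
  obtain ⟨u, hu, hu', h3⟩ := h.conj_hom hT.prop.2 hTB (MonoidHom.mk' f h2) (fun s => hHB (hf s))
    fun s => by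
      have h4 := (((hU _).1 (hf' s)).2.inv).conj (f s)
      have e : f s * ((f s)⁻¹ * s.1)⁻¹ * (f s)⁻¹ = f s * s.1⁻¹ := by group
      rwa [e] at h4
  have h4 : T ≤ cj u⁻¹ H := fun s hs => by
    rw [mem_cj, inv_inv, ← h3 ⟨s, hs⟩]
    exact hf _
  exact ⟨u, hu, hu', le_antisymm h4 (hT.le_of_ge
    ⟨(cj_mono _ hHB).trans (cj_eq_self (B.inv_mem hu)).le, hH.conjg _⟩ h4)⟩

theorem MaxTor.decomp (hT : MaxTor B T) (hB : CC B) (hs : Group.IsSolvable B) {b : Gl n k}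
    (hb : b ∈ B) : ∃ t ∈ T, ∃ u ∈ B, Unip u ∧ b = t * u := by
  obtain ⟨H, hH, hHB, hd⟩ := exists_complement hB hs
  obtain ⟨u, hu, -, e⟩ := Solv_max (trg_of_solvable hB.irr hs) hH hHB hd hT
  obtain ⟨t, ht, v, hv, hv', e'⟩ := hd _ (B.mul_mem (B.mul_mem hu hb) (B.inv_mem hu))
  refine ⟨u⁻¹ * t * u, ?_, u⁻¹ * v * u⁻¹⁻¹,
    B.mul_mem (B.mul_mem (B.inv_mem hu) hv) (B.inv_mem (B.inv_mem hu)), hv'.conj _, ?_⟩
  · rw [e, mem_cj, show u⁻¹⁻¹ * (u⁻¹ * t * u) * u⁻¹ = t by group]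
    exact ht
  · rw [show u⁻¹ * t * u * (u⁻¹ * v * u⁻¹⁻¹) = u⁻¹ * (t * v) * u by group, ← e']
    group

theorem MaxTor.conj_of_solvable (hT : MaxTor B T) (hT' : MaxTor B T') (hB : CC B)
    (hs : Group.IsSolvable B) : ∃ u ∈ B, Unip u ∧ T' = cj u T := by
  have h := trg_of_solvable hB.irr hs
  obtain ⟨H, hH, hHB, hd⟩ := exists_complement hB hs
  obtain ⟨u, hu, hu', e⟩ := Solv_max h hH hHB hd hT
  obtain ⟨v, hv, hv', e'⟩ := Solv_max h hH hHB hd hT'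
  obtain ⟨U, hU, -⟩ := Solv_unip h
  have h1 := (hU _).1 (U.mul_mem (U.inv_mem ((hU v).2 ⟨hv, hv'⟩)) ((hU u).2 ⟨hu, hu'⟩))
  exact ⟨_, h1.1, h1.2, by rw [e, e', cj_cj, mul_inv_cancel_right]⟩

end Pool.Agent.AG
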