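import Pool.Agent.Lib.AG.Torus2
import Pool.Agent.Lib.AG.Rep

/-! Characters and cocharacters in coordinates, and the action of the normaliser. -/

namespace Pool.Agent.AG

open Set Matrix

universe u

variable {k : Type u} [Field k] [IsAlgClosed k] [Fact (ringChar k).Prime] {n : ℕ}
  {G T : Subgroup (Gl n k)} (τ : TD T) {V : Type u} [AddCommGroup V] [Module k V]
  {ρ : Gl n k → Module.End k V}

namespace TD

include τ in
theorem dg : Dg T := τ.tor.2

/-- The characters as a homomorphism. -/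
private def χh : Multiplicative τ.X →* (T →* kˣ) :=
  MonoidHom.mk' (fun x => τ.χ x.toAdd) fun a b => τ.χ_add a.toAdd b.toAdd

private theorem χ_sum {ι : Type} (s : Finset ι) (f : ι → τ.X) :
    τ.χ (∑ i ∈ s, f i) = ∏ i ∈ s, τ.χ (f i) :=
  (congrArg τ.χh (ofAdd_sum s f)).trans (map_prod τ.χh _ s)

private theorem zpow_inj' {m m' : ℤ} (h : ∀ a : kˣ, a ^ m = a ^ m') : m = m' := by
  by_contra hne
  have hN : (m - m').natAbs ≠ 0 := Int.natAbs_ne_zero.2 (sub_ne_zero.2 hne)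
  have h1 : ∀ a : kˣ, a ^ (m - m').natAbs = 1 := fun a => by
    rw [pow_natAbs_eq_one, _root_.zpow_sub, h a, mul_inv_cancel]
  have h2 : (Polynomial.X ^ ((m - m').natAbs + 1) : Polynomial k) = Polynomial.X ^ 1 := by
    refine Polynomial.funext fun c => ?_
    rw [Polynomial.eval_X_pow, Polynomial.eval_X_pow, pow_succ, pow_one]
    rcases eq_or_ne c 0 with rfl | hc
    · exact mul_zero _
    · have := congrArg Units.val (h1 (Units.mk0 c hc))
      rw [Units.val_pow_eq_pow_val, Units.val_mk0, Units.val_one] at this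
      rw [this, one_mul]
  have h3 := congrArg Polynomial.natDegree h2
  rw [Polynomial.natDegree_X_pow, Polynomial.natDegree_X_pow] at h3
  omega

private theorem exists_zpow_eq (b : kˣ) {m : ℤ} (hm : m ≠ 0) : ∃ a : kˣ, a ^ m = b := by
  have key : ∀ (b : kˣ) (N : ℕ), N ≠ 0 → ∃ a : kˣ, a ^ N = b := fun b N hN => by
    obtain ⟨z, hz⟩ := IsAlgClosed.exists_pow_nat_eq (b : k) (Nat.pos_of_ne_zero hN)
    have h0 : z ≠ 0 := by
      rintro rfl
      exact b.ne_zero (hz.symm.trans (zero_pow hN))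
    exact ⟨Units.mk0 z h0, Units.ext hz⟩
  obtain ⟨N, rfl | rfl⟩ := m.eq_nat_or_neg
  · obtain ⟨a, ha⟩ := key b N (by omega)
    exact ⟨a, by rw [zpow_natCast, ha]⟩
  · obtain ⟨a, ha⟩ := key b N (by omega)
    exact ⟨a⁻¹, by rw [_root_.zpow_neg, _root_.inv_zpow, inv_inv, zpow_natCast, ha]⟩

private theorem mem_of_span {s : Set τ.X} {γ : T →* kˣ} (h : (fun t : T => (γ t : k)) ∈
    Submodule.span k ((fun z (t : T) => (τ.χ z t : k)) '' s)) : ∃ z ∈ s, γ = τ.χ z := by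
  by_contra hc
  refine (linearIndependent_monoidHom T k).notMem_span_image
    (s := (fun z => (Units.coeHom k).comp (τ.χ z)) '' s) (x := (Units.coeHom k).comp γ) ?_ ?_
  · rintro ⟨z, hz, e⟩
    exact hc ⟨z, hz, MonoidHom.ext fun t => Units.ext (DFunLike.congr_fun e t).symm⟩
  · rw [image_image]
    exact h

theorem χ_zero : τ.χ 0 = 1 := by
  exact map_one τ.χh

theorem χ_neg (x : τ.X) : τ.χ (-x) = (τ.χ x)⁻¹ := by
  exact map_inv τ.χh (.ofAdd x)

theorem χ_zsmul (m : ℤ) (x : τ.X) : τ.χ (m • x) = τ.χ x ^ m := by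
  exact map_zpow τ.χh (.ofAdd x) m

theorem χ_inj : Function.Injective τ.χ := by
  intro x x' h
  funext i
  refine zpow_inj' (k := k) fun a => ?_
  have h1 := τ.pair x (Pi.single i 1) a
  rw [h, τ.pair, dotProduct_single, dotProduct_single, mul_one, mul_one] at h1
  exact h1.symm

theorem χ_surj {x : τ.X} (hx : x ≠ 0) : Function.Surjective (τ.χ x) := by
  intro b
  obtain ⟨i, hi⟩ := Function.ne_iff.1 hx
  obtain ⟨a, ha⟩ := exists_zpow_eq b hi
  exact ⟨⟨τ.co (Pi.single i 1) a, (τ.coch _).1 a⟩, by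
    rw [τ.pair, dotProduct_single, mul_one, ha]⟩

theorem ext_pt {s t : T} (h : ∀ x, τ.χ x s = τ.χ x t) : s = t := by
  refine mul_inv_eq_one.1 (τ.sep _ fun x => ?_)
  rw [map_mul, map_inv, h x, mul_inv_cancel]

theorem exists_χ {γ : T →* kˣ} (h : RegChar γ) : ∃ x, γ = τ.χ x := by
  obtain ⟨F, hF, e⟩ := h
  obtain ⟨c, hc⟩ := τ.span F hF
  have : (fun t : T => (γ t : k)) ∈
      Submodule.span k ((fun z (t : T) => (τ.χ z t : k)) '' univ) := by
    have e2 : (fun t : T => (γ t : k)) =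
        ∑ x ∈ c.support, c x • fun t : T => (τ.χ x t : k) := by
      funext t
      rw [← e, hc, Finset.sum_apply]
      rfl
    rw [e2]
    exact Submodule.sum_mem _ fun x _ => Submodule.smul_mem _ _
      (Submodule.subset_span ⟨x, trivial, rfl⟩)
  obtain ⟨z, -, hz⟩ := τ.mem_of_span this
  exact ⟨z, hz⟩

theorem co_mem (y : τ.X) (a : kˣ) : τ.co y a ∈ T := (τ.coch y).1 a

theorem co_mul (y : τ.X) (a b : kˣ) : τ.co y (a * b) = τ.co y a * τ.co y b := (τ.coch y).2.1 a b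

theorem co_one (y : τ.X) : τ.co y 1 = 1 := by
  have h := τ.co_mul y 1 1
  rw [mul_one] at h
  exact mul_left_cancel (h.symm.trans (mul_one _).symm)

theorem co_zero (a : kˣ) : τ.co 0 a = 1 := by
  have h := τ.co_add 0 0 a
  rw [add_zero] at h
  exact mul_left_cancel (h.symm.trans (mul_one _).symm)

theorem co_neg (y : τ.X) (a : kˣ) : τ.co (-y) a = (τ.co y a)⁻¹ := by
  refine eq_inv_of_mul_eq_one_right ?_
  rw [← τ.co_add, add_neg_cancel, τ.co_zero]

theorem co_inv (y : τ.X) (a : kˣ) : τ.co y a⁻¹ = (τ.co y a)⁻¹ := by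
  refine eq_inv_of_mul_eq_one_right ?_
  rw [← τ.co_mul, mul_inv_cancel, τ.co_one]

theorem co_zsmul (m : ℤ) (y : τ.X) (a : kˣ) : τ.co (m • y) a = τ.co y (a ^ m) := by
  have : (⟨τ.co (m • y) a, τ.co_mem _ _⟩ : T) = ⟨τ.co y (a ^ m), τ.co_mem _ _⟩ :=
    τ.ext_pt fun x => by rw [τ.pair, τ.pair, dotProduct_smul, smul_eq_mul, _root_.zpow_mul]
  exact congrArg Subtype.val this

theorem co_inj : Function.Injective τ.co := by
  intro y y' h
  funext i
  refine zpow_inj' (k := k) fun a => ?_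
  have h1 := τ.pair (Pi.single i 1) y a
  have h2 := τ.pair (Pi.single i 1) y' a
  rw [single_dotProduct, one_mul] at h1 h2
  rw [← h1, ← h2]
  exact congrArg _ (Subtype.ext (congrFun h a))

theorem mem_S {y : τ.X} {g : Gl n k} : g ∈ τ.S y ↔ ∃ a, g = τ.co y a := by
  have e : τ.S y = (MonoidHom.mk' (τ.co y) (τ.co_mul y)).range :=
    (congrArg Subgroup.closure
      (MonoidHom.coe_range (MonoidHom.mk' (τ.co y) (τ.co_mul y))).symm).trans
      (Subgroup.closure_eq _)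
  rw [e, MonoidHom.mem_range]
  exact exists_congr fun a => eq_comm

theorem S_le (y : τ.X) : τ.S y ≤ T := by
  intro g hg
  obtain ⟨a, rfl⟩ := τ.mem_S.1 hg
  exact τ.co_mem y a

theorem tor_S (y : τ.X) : Tor (τ.S y) := by
  have hm : MapOn (OU k) univ (OG k n) (τ.co y) := (coch_iff.1 (τ.coch y)).2.2
  have e : τ.co y '' univ = (τ.S y : Set (Gl n k)) := by
    ext g
    rw [SetLike.mem_coe, τ.mem_S]
    exact ⟨fun ⟨a, _, h⟩ => ⟨a, h.symm⟩, fun ⟨a, h⟩ => ⟨a, trivial, h.symm⟩⟩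
  exact ⟨cc_iff.2 ⟨closed_of_image aff_OU closed_univ hm e, e ▸ irr_OU.image hm⟩,
    τ.dg.mono (τ.S_le y)⟩

theorem le_of_co {H : Subgroup (Gl n k)} (h : ∀ y a, τ.co y a ∈ H) : T ≤ H := by
  intro t ht
  have key : ∀ s : Finset (Fin τ.r), ∃ u : T, u.1 ∈ H ∧
      ∀ x, τ.χ x u = ∏ i ∈ s, τ.χ (Pi.single i 1) ⟨t, ht⟩ ^ x i := by
    intro s
    induction s using Finset.induction_on with
    | empty => exact ⟨1, H.one_mem, fun x => by rw [map_one, Finset.prod_empty]⟩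
    | insert i s hi ih =>
      obtain ⟨u, hu, e⟩ := ih
      refine ⟨⟨τ.co (Pi.single i 1) (τ.χ (Pi.single i 1) ⟨t, ht⟩), τ.co_mem _ _⟩ * u,
        H.mul_mem (h _ _) hu, fun x => ?_⟩
      rw [map_mul, τ.pair, e, Finset.prod_insert hi, dotProduct_single, mul_one]
  obtain ⟨u, hu, e⟩ := key Finset.univ
  have : u = ⟨t, ht⟩ := τ.ext_pt fun x => by
    rw [e]
    conv_rhs => rw [pi_eq_sum_univ' x, τ.χ_sum]
    simp only [τ.χ_zsmul, MonoidHom.finsetProd_apply, MonoidHom.zpow_apply]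
  rwa [this] at hu

theorem sg_image {P : Set τ.X} (h : SGa P) : SG (τ.χ '' P) := by
  rintro _ ⟨a, ha, rfl⟩ _ ⟨b, hb, rfl⟩
  exact ⟨a + b, h a ha b hb, τ.χ_add a b⟩

theorem M_eq (P : Set τ.X) : τ.M P = ⨆ x ∈ P, τ.w Ad x := by
  exact iSup_image

theorem iSupIndep_w (ρ : Gl n k → Module.End k V) : iSupIndep (τ.w ρ) := by
  exact (iSupIndep_wV ρ T).comp τ.χ_inj

theorem finite_w [FiniteDimensional k V] (ρ : Gl n k → Module.End k V) :
    {x | τ.w ρ x ≠ ⊥}.Finite := by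
  exact (finite_wV ρ T).preimage τ.χ_inj.injOn

theorem iSup_w [FiniteDimensional k V] (hρ : IsRep T ρ) : ⨆ x, τ.w ρ x = ⊤ := by
  refine top_unique ?_
  rw [← τ.dg.iSup_wV hρ]
  refine iSup_le fun γ => ?_
  by_cases h : wV ρ T γ = ⊥
  · exact h.le.trans bot_le
  · obtain ⟨x, rfl⟩ := τ.exists_χ (hρ.regChar h)
    exact le_iSup (τ.w ρ) x

/-- Weight components. -/
theorem exists_comp [FiniteDimensional k V] (hρ : IsRep T ρ) (v : V) :
    ∃ c : τ.X →₀ V, (∀ x, c x ∈ τ.w ρ x) ∧ (c.sum fun _ a => a) = v := by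
  refine (Submodule.mem_iSup_iff_exists_finsupp _ _).1 ?_
  rw [τ.iSup_w hρ]
  trivial

private theorem comp_mem' {W : Submodule k V} (hW : Stab T ρ W) {c : τ.X →₀ V}
    (hc : ∀ x, c x ∈ τ.w ρ x) (h : (c.sum fun _ a => a) ∈ W) (x : τ.X) : c x ∈ W := by
  by_cases hx : x ∈ c.support
  · rw [← τ.χ_inj.extend_apply c 0 x]
    refine mem_of_sum_mem hW (s := c.support.map ⟨τ.χ, τ.χ_inj⟩) (fun γ hγ => ?_) ?_ _
      (Finset.mem_map_of_mem _ hx)
    · obtain ⟨z, -, rfl⟩ := Finset.mem_map.1 hγ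
      exact (τ.χ_inj.extend_apply c 0 z).symm ▸ hc z
    · rw [Finset.sum_map]
      exact (Finset.sum_congr rfl fun z _ => τ.χ_inj.extend_apply c 0 z).symm ▸ h
  · rw [Finsupp.notMem_support_iff.1 hx]
    exact W.zero_mem

theorem comp_unique {c d : τ.X →₀ V} (hc : ∀ x, c x ∈ τ.w ρ x) (hd : ∀ x, d x ∈ τ.w ρ x)
    (h : (c.sum fun _ a => a) = d.sum fun _ a => a) : c = d := by
  ext1 x
  have hW : Stab T ρ ⊥ := fun g _ w hw => by
    rw [Submodule.mem_bot] at hw ⊢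
    rw [hw, map_zero]
  refine sub_eq_zero.1 ((Submodule.mem_bot k).1 (τ.comp_mem' hW (c := c - d)
    (fun x => Submodule.sub_mem _ (hc x) (hd x)) ?_ x))
  rw [Finsupp.sum_sub_index fun _ _ _ => rfl, h, sub_self]
  exact Submodule.zero_mem _

theorem comp_mem {W : Submodule k V} (hW : Stab T ρ W) {c : τ.X →₀ V} (hc : ∀ x, c x ∈ τ.w ρ x)
    (h : (c.sum fun _ a => a) ∈ W) (x : τ.X) : c x ∈ W := by
  exact τ.comp_mem' hW hc h x

theorem exists_comp_of_mem {P : Set τ.X} {v : V} (h : v ∈ ⨆ x ∈ P, τ.w ρ x) :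
    ∃ c : τ.X →₀ V, (∀ x, c x ∈ τ.w ρ x) ∧ (∀ x, x ∉ P → c x = 0) ∧ (c.sum fun _ a => a) = v := by
  obtain ⟨c, hc, e⟩ := (Submodule.mem_iSup_iff_exists_finsupp _ _).1 h
  refine ⟨c, fun x => (iSup_le fun _ => le_rfl : (⨆ _ : x ∈ P, τ.w ρ x) ≤ τ.w ρ x) (hc x),
    fun x hx => ?_, e⟩
  have := hc x
  rwa [iSup_neg hx, Submodule.mem_bot] at this

theorem M_inf {P Q : Set τ.X} : τ.M P ⊓ τ.M Q = τ.M (P ∩ Q) := by
  simp only [τ.M_eq]
  refine le_antisymm (fun v hv => ?_) (le_inf (biSup_mono fun _ h => h.1)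
    (biSup_mono fun _ h => h.2))
  obtain ⟨c, hc, hP, e⟩ := τ.exists_comp_of_mem hv.1
  obtain ⟨d, hd, hQ, e'⟩ := τ.exists_comp_of_mem hv.2
  obtain rfl := τ.comp_unique hc hd (e.trans e'.symm)
  rw [← e]
  refine Submodule.sum_mem _ fun x hx => ?_
  have h0 := Finsupp.mem_support_iff.1 hx
  exact (le_biSup (τ.w Ad) (show x ∈ P ∩ Q from
    ⟨by_contra fun h => h0 (hP x h), by_contra fun h => h0 (hQ x h)⟩)) (hc x)

theorem M_congr {P Q : Set τ.X} (h : ∀ x, τ.w Ad x ≠ ⊥ → (x ∈ P ↔ x ∈ Q)) : τ.M P = τ.M Q := by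
  rw [τ.M_eq, τ.M_eq]
  refine iSup_congr fun x => ?_
  by_cases h0 : τ.w Ad x = ⊥
  · rw [h0, iSup_bot, iSup_bot]
  · exact iSup_congr_Prop (h x h0) fun _ => rfl

theorem closure_nat : AddSubgroup.closure {x | τ.w nat x ≠ ⊥} = ⊤ := by
  set L := AddSubgroup.closure {x | τ.w nat x ≠ ⊥}
  let S : Submonoid (T → k) :=
    { carrier := (fun z (t : T) => (τ.χ z t : k)) '' L
      one_mem' := ⟨0, L.zero_mem, by funext t; simp [τ.χ_zero]⟩
      mul_mem' := by
        rintro _ _ ⟨a, ha, rfl⟩ ⟨b, hb, rfl⟩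
        exact ⟨a + b, L.add_mem ha hb, by funext t; simp [τ.χ_add]⟩ }
  have ent : ∀ i j, ∃ (s : Finset τ.X) (c : τ.X → k), (∀ x ∈ s, x ∈ L) ∧
      ∀ t : T, t.1.1 i j = ∑ x ∈ s, c x * (τ.χ x t : k) := by
    intro i j
    obtain ⟨c, hc, e⟩ := τ.exists_comp (isRep_nat T) (Pi.single j (1 : k))
    refine ⟨c.support, fun x => c x i, fun x hx => AddSubgroup.subset_closure fun h0 => ?_,
      fun t => ?_⟩
    · have := hc x
      rw [h0, Submodule.mem_bot] at this
      exact Finsupp.mem_support_iff.1 hx this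
    · have e1 : t.1.1 i j = (nat t.1 (c.sum fun _ a => a)) i := by
        rw [e, nat_apply, mulVec_single_one]; rfl
      rw [e1, Finsupp.sum, map_sum, Finset.sum_apply]
      exact Finset.sum_congr rfl fun x _ => by rw [hc x t, Pi.smul_apply, smul_eq_mul, mul_comm]
  have key : ∀ F ∈ OG k n, (fun t : T => F t.1) ∈ Algebra.adjoin k (S : Set (T → k)) := by
    intro F hF
    induction hF using Algebra.adjoin_induction with
    | mem f hf =>
      obtain ⟨i, j, rfl | rfl⟩ := hf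
      · obtain ⟨s, c, hs, e⟩ := ent i j
        have e2 : (fun t : T => t.1.1 i j) = ∑ x ∈ s, c x • fun t : T => (τ.χ x t : k) := by
          funext t
          rw [e, Finset.sum_apply]
          rfl
        refine e2 ▸ Subalgebra.sum_mem _ fun x hx => Subalgebra.smul_mem _
          (Algebra.subset_adjoin ?_) _
        exact ⟨x, hs x hx, rfl⟩
      · obtain ⟨s, c, hs, e⟩ := ent i j
        have e2 : (fun t : T => t.1⁻¹.1 i j) =
            ∑ x ∈ s, c x • fun t : T => (τ.χ (-x) t : k) := by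
          funext t
          rw [Finset.sum_apply]
          refine (e t⁻¹).trans (Finset.sum_congr rfl fun x _ => ?_)
          rw [τ.χ_neg, map_inv]
          rfl
        refine e2 ▸ Subalgebra.sum_mem _ fun x hx => Subalgebra.smul_mem _
          (Algebra.subset_adjoin ?_) _
        exact ⟨-x, L.neg_mem (hs x hx), rfl⟩
    | algebraMap c => exact Subalgebra.algebraMap_mem _ c
    | add f g _ _ hf hg => exact Subalgebra.add_mem _ hf hg
    | mul f g _ _ hf hg => exact Subalgebra.mul_mem _ hf hg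
  refine top_unique fun x _ => ?_
  obtain ⟨F, hF, e⟩ := τ.reg x
  have h1 := key F hF
  rw [funext e, ← Subalgebra.mem_toSubmodule, Algebra.adjoin_eq_span, Submonoid.closure_eq] at h1
  obtain ⟨z, hz, e2⟩ := τ.mem_of_span h1
  rwa [τ.χ_inj e2]

theorem mulVec_mem {x x' : τ.X} {A : Mt n k} (hA : A ∈ τ.w Ad x) {v : Fin n → k}
    (hv : v ∈ τ.w nat x') : A *ᵥ v ∈ τ.w nat (x + x') := by
  intro t
  have e : nat t.1 (A *ᵥ v) = Ad t.1 A *ᵥ nat t.1 v := by
    simp only [nat_apply, Ad_apply, mulVec_mulVec, mul_assoc, Units.inv_mul, mul_one]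
  rw [e, hA t, hv t, τ.χ_add, smul_mulVec, mulVec_smul, smul_smul, MonoidHom.mul_apply,
    Units.val_mul]

theorem mul_mem_w {x x' : τ.X} {A B : Mt n k} (hA : A ∈ τ.w Ad x) (hB : B ∈ τ.w Ad x') :
    A * B ∈ τ.w Ad (x + x') := by
  intro t
  have e : Ad t.1 (A * B) = Ad t.1 A * Ad t.1 B := by
    simp only [Ad_apply, mul_assoc, Units.inv_mul_cancel_left]
  rw [e, hA t, hB t, τ.χ_add, smul_mul_smul_comm, MonoidHom.mul_apply, Units.val_mul]

theorem ext_nat {A B : Mt n k} (h : ∀ x, ∀ v ∈ τ.w nat x, A *ᵥ v = B *ᵥ v) : A = B := by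
  refine ext_iff_mulVec.2 fun v => ?_
  have hv : v ∈ ⨆ x, τ.w nat x := by
    rw [τ.iSup_w (isRep_nat T)]
    trivial
  induction hv using Submodule.iSup_induction' with
  | mem x v hv => exact h x v hv
  | zero => rw [mulVec_zero, mulVec_zero]
  | add v w _ _ hv hw => rw [mulVec_add, mulVec_add, hv, hw]

theorem H_mem (y : τ.X) : τ.H y ∈ τ.w Ad 0 := by
  intro t
  rw [τ.χ_zero, MonoidHom.one_apply, Units.val_one, one_smul, Ad_apply,
    Units.mul_inv_eq_iff_eq_mul]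
  refine τ.ext_nat fun x v hv => ?_
  have e : t.1.1 *ᵥ v = (τ.χ x t : k) • v := hv t
  rw [← mulVec_mulVec, ← mulVec_mulVec, τ.H_nat x y v hv, e, mulVec_smul, mulVec_smul, e,
    τ.H_nat x y v hv, smul_comm]

theorem H_lie (y : τ.X) {x : τ.X} {A : Mt n k} (hA : A ∈ τ.w Ad x) :
    τ.H y * A - A * τ.H y = ((x ⬝ᵥ y : ℤ) : k) • A := by
  refine τ.ext_nat fun x' v hv => ?_
  rw [sub_mulVec, ← mulVec_mulVec, ← mulVec_mulVec, τ.H_nat _ y _ (τ.mulVec_mem hA hv),
    τ.H_nat x' y v hv, mulVec_smul, smul_mulVec, ← sub_smul, add_dotProduct, Int.cast_add,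
    add_sub_cancel_right]

theorem H_pow (y : τ.X) : τ.H y ^ ringChar k = τ.H y := by
  refine τ.ext_nat fun x v hv => ?_
  have key : ∀ m : ℕ, τ.H y ^ m *ᵥ v = ((x ⬝ᵥ y : ℤ) : k) ^ m • v := by
    intro m
    induction m with
    | zero => rw [pow_zero, pow_zero, one_mulVec, one_smul]
    | succ m ih =>
      rw [pow_succ, ← mulVec_mulVec, τ.H_nat x y v hv, mulVec_smul, ih, smul_smul, pow_succ']
  rw [key, τ.H_nat x y v hv, ← frobenius_def, map_intCast]

theorem H_li : LinearIndependent k fun a : Fin τ.r => τ.H (Pi.single a 1) := by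
  refine Fintype.linearIndependent_iff.2 fun g hg a => ?_
  let φ : τ.X →+ k := AddMonoidHom.mk' (fun x => ∑ b, g b * (x b : k)) fun x x' => by
    simp only [Pi.add_apply, Int.cast_add, mul_add, Finset.sum_add_distrib]
  have hφ : (⊤ : AddSubgroup τ.X) ≤ φ.ker := by
    rw [← τ.closure_nat, AddSubgroup.closure_le]
    intro x hx
    obtain ⟨v, hv, h0⟩ := (Submodule.ne_bot_iff _).1 hx
    have e := congrArg (· *ᵥ v) hg
    simp only [zero_mulVec, sum_mulVec, smul_mulVec, τ.H_nat x _ v hv, smul_smul,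
      dotProduct_single, mul_one, ← Finset.sum_smul] at e
    exact (smul_eq_zero.1 e).resolve_right h0
  have h1 : ∑ b, g b * (((Pi.single a 1 : τ.X) b : ℤ) : k) = 0 := hφ (AddSubgroup.mem_top _)
  simpa [Pi.single_apply] using h1

end TD

end Pool.Agent.AG
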