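import Pool.Agent.Lib.AG.Big
import Pool.Agent.Lib.AG.Conj
import Pool.Agent.Lib.AG.Cent

/-! Extremal weights of simple modules. -/

namespace Pool.Agent.AG

open Set Matrix

universe u

variable {k : Type u} [Field k] [IsAlgClosed k] [Fact (ringChar k).Prime] {n : ℕ}
  {G T : Subgroup (Gl n k)} (τ : TD T) {V : Type u} [AddCommGroup V] [Module k V]
  [FiniteDimensional k V] {ρ : Gl n k → Module.End k V}

namespace TD

private theorem top_sga {r : ℕ} : SGa ({0} : Set (Fin r → ℤ)) := by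
  rintro _ rfl _ rfl
  exact add_zero _

private theorem top_ind (hρ : IsRep T ρ) {W : Submodule k V} (h : ∀ x, τ.w ρ x ≤ W) (v : V) :
    v ∈ W := (iSup_le h : ⨆ x, τ.w ρ x ≤ W) (by rw [τ.iSup_w hρ]; trivial)

private theorem top_fix {y x₀ : τ.X} (h : ∀ x, τ.w ρ x ≠ ⊥ → x ⬝ᵥ y ≤ x₀ ⬝ᵥ y) (hT : T ≤ G)
    (hρ : IsRep G ρ) {u : Gl n k} (hu : u ∈ τ.U G y) {v : V} (hv : v ∈ τ.w ρ x₀) :
    ρ u v = v := by
  have h1 := τ.shift_w (sga_pos y) hT hρ hu hv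
  have h2 : ⨆ z ∈ (x₀ + ·) '' {x | 0 < x ⬝ᵥ y}, τ.w ρ z ≤ ⊥ := by
    refine iSup₂_le ?_
    rintro _ ⟨p, hp, rfl⟩
    by_contra hc
    have h3 := h _ fun e => hc e.le
    rw [add_dotProduct] at h3
    have h4 : 0 < p ⬝ᵥ y := hp
    linarith
  exact sub_eq_zero.1 (h2 h1)

omit [IsAlgClosed k] [Fact (ringChar k).Prime] [FiniteDimensional k V] in
private theorem top_le {y x₀ : τ.X} (h : τ.Top ρ y x₀) (x : τ.X) (hx : τ.w ρ x ≠ ⊥) :
    x ⬝ᵥ y ≤ x₀ ⬝ᵥ y := by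
  by_cases e : x = x₀
  · rw [e]
  · exact (h.2 x hx e).le

omit [IsAlgClosed k] [Fact (ringChar k).Prime] [FiniteDimensional k V] in
private theorem top_ne {c : τ.X →₀ V} (hc : ∀ x, c x ∈ τ.w ρ x) {x : τ.X} (hx : x ∈ c.support) :
    τ.w ρ x ≠ ⊥ := fun e => Finsupp.mem_support_iff.1 hx (by simpa [e] using hc x)

private theorem top_filter {X V : Type*} [AddCommGroup V] (c : X →₀ V) {p : X → Prop}
    [DecidablePred p] {x₀ : X} (h0 : p x₀) (h : ∀ x ∈ c.support, p x → x = x₀) :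
    ((c.filter p).sum fun _ a => a) = c x₀ := by
  rw [Finsupp.sum, Finset.sum_eq_single x₀, Finsupp.filter_apply_pos _ _ h0]
  · intro x hx e
    rw [Finsupp.support_filter, Finset.mem_filter] at hx
    exact absurd (h x hx.1 hx.2) e
  · exact fun hx => Finsupp.notMem_support_iff.1 hx

omit [IsAlgClosed k] [Fact (ringChar k).Prime] [FiniteDimensional k V] in
private theorem top_co {c : τ.X →₀ V} (hc : ∀ x, c x ∈ τ.w ρ x) {x₀ : τ.X}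
    {l : Module.Dual k V} (hl : τ.IsCo ρ x₀ l) : l (c.sum fun _ a => a) = l (c x₀) := by
  rw [Finsupp.sum, map_sum, Finset.sum_eq_single x₀]
  · exact fun x _ e => hl.2 x e _ (hc x)
  · intro hx
    rw [Finsupp.notMem_support_iff.1 hx, map_zero]

omit [IsAlgClosed k] [Fact (ringChar k).Prime] [FiniteDimensional k V] in
private theorem top_single {x : τ.X} {v : V} (hv : v ∈ τ.w ρ x) (z : τ.X) :
    Finsupp.single x v z ∈ τ.w ρ z := by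
  by_cases e : z = x
  · rwa [e, Finsupp.single_eq_same]
  · rw [Finsupp.single_eq_of_ne e]
    exact zero_mem _

theorem cc_cent (hG : CC G) (hT : MaxTor G T) :
    CC (τ.GX G {0}) ∧ Group.IsSolvable (τ.GX G {0}) := by
  obtain ⟨y, hy, -⟩ := τ.exists_rg finite_empty 0
  have h : CC (τ.GX G {0}) := τ.Z_eq_of_rg hy ▸ τ.cc_Z hG (.of_le hT.prop.1) y
  exact ⟨h, isSolvable_of_central h (hT.of_le (τ.le_GX top_sga rfl hT.prop.1) GP_le)
    fun t ht g hg => (τ.mem_GX_zero.1 hg).2 t ht⟩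

theorem Top.fix {y x₀ : τ.X} (h : τ.Top ρ y x₀) (hT : T ≤ G) (hρ : IsRep G ρ) {u : Gl n k}
    (hu : u ∈ τ.U G y) {v : V} (hv : v ∈ τ.w ρ x₀) : ρ u v = v := by
  exact τ.top_fix (τ.top_le h) hT hρ hu hv

theorem Top.fix_co {y x₀ : τ.X} (h : τ.Top ρ y x₀) (hT : T ≤ G) (hρ : IsRep G ρ) {u : Gl n k}
    (hu : u ∈ τ.U G (-y)) {l : Module.Dual k V} (hl : τ.IsCo ρ x₀ l) (v : V) :
    l (ρ u v) = l v := by
  have := τ.top_ind (hρ.mono hT) (W := LinearMap.ker (l ∘ₗ (ρ u - 1))) (fun x v hv => ?_) v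
  · rwa [LinearMap.mem_ker, LinearMap.comp_apply, LinearMap.sub_apply, map_sub, sub_eq_zero] at this
  by_cases hx : τ.w ρ x = ⊥
  · rw [hx, Submodule.mem_bot] at hv
    rw [hv]
    exact zero_mem _
  have h1 := τ.shift_w (sga_pos (-y)) hT hρ hu hv
  have h2 : ⨆ z ∈ (x + ·) '' {x | 0 < x ⬝ᵥ -y}, τ.w ρ z ≤ LinearMap.ker l := by
    refine iSup₂_le ?_
    rintro _ ⟨p, hp, rfl⟩
    refine hl.2 _ fun e => ?_
    have h3 := τ.top_le h x hx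
    have h4 : 0 < p ⬝ᵥ -y := hp
    rw [← e, add_dotProduct] at h3
    rw [dotProduct_neg] at h4
    omega
  exact h2 h1

theorem Top.unique {y x₀ x₁ : τ.X} (h : τ.Top ρ y x₀) (h' : τ.Top ρ y x₁) : x₀ = x₁ := by
  by_contra e
  exact lt_asymm (h.2 x₁ h'.1 (Ne.symm e)) (h'.2 x₀ h.1 e)

theorem span_U (hG : CC G) (hT : T ≤ G) (hρ : IsRep G ρ) (hs : Simp G ρ) (y : τ.X)
    {W : Submodule k V} (h0 : W ≠ ⊥) (h1 : Stab (τ.Z G y) ρ W)
    (h2 : ∀ u ∈ τ.U G y, ∀ v ∈ W, ρ u v = v) :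
    Submodule.span k {w | ∃ u ∈ τ.U G (-y), ∃ v ∈ W, w = ρ u v} = ⊤ := by
  by_contra hc
  obtain ⟨l, hl, hk⟩ := Submodule.exists_le_ker_of_lt_top _ (lt_top_iff_ne_top.2 hc)
  have h3 : ∀ v ∈ W, ∀ g ∈ G, l (ρ g v) = 0 := fun v hv =>
    τ.zero_of_cell hG (.of_le hT) y (hρ.reg l v) fun a ha b hb c hc => by
      rw [hρ.mul_apply (G.mul_mem (GP_le ha) (GP_le hb)) (GP_le hc), h2 c hc v hv,
        hρ.mul_apply (GP_le ha) (GP_le hb)]
      exact hk (Submodule.subset_span ⟨a, ha, _, h1 b hb v hv, rfl⟩)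
  obtain ⟨v, hv, hv0⟩ := (Submodule.ne_bot_iff W).1 h0
  have h4 := hs.span_eq_top (C := {w | ∃ g ∈ G, w = ρ g v})
    (by
      rintro g hg _ ⟨g', hg', rfl⟩
      exact ⟨g * g', G.mul_mem hg hg', (hρ.mul_apply hg hg' v).symm⟩)
    ⟨v, ⟨1, G.one_mem, by rw [hρ.one]; rfl⟩, hv0⟩
  refine hl (LinearMap.ker_eq_top.1 (top_le_iff.1 ?_))
  rw [← h4, Submodule.span_le]
  rintro _ ⟨g, hg, rfl⟩
  exact h3 v hv g hg

theorem exists_top (hG : CC G) (hT : MaxTor G T) (hρ : IsRep G ρ) (hs : Simp G ρ) {y : τ.X}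
    (hy : τ.Rg y) : ∃ x₀, τ.Top ρ y x₀ ∧ ∃ v, v ≠ 0 ∧ τ.w ρ x₀ = Submodule.span k {v} := by
  have := hs.1
  have hTG : T ≤ G := hT.prop.1
  have hne : {x | τ.w ρ x ≠ ⊥}.Nonempty := by
    by_contra hc
    obtain ⟨v, hv⟩ := exists_ne (0 : V)
    exact hv (τ.top_ind (hρ.mono hTG) (W := ⊥) (fun x => by
      by_contra h
      exact hc ⟨x, fun e => h e.le⟩) v)
  obtain ⟨x₀, h0, hm⟩ := Set.exists_max_image _ (fun x => x ⬝ᵥ y) (τ.finite_w ρ) hne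
  have hst : Stab (τ.GX G {0}) ρ (τ.w ρ x₀) := fun g hg v hv => by
    have h1 := τ.shift_w top_sga hTG hρ hg hv
    have h2 : ⨆ z ∈ (x₀ + ·) '' {0}, τ.w ρ z ≤ τ.w ρ x₀ := by
      refine iSup₂_le ?_
      rintro _ ⟨_, rfl, rfl⟩
      simp
    simpa using add_mem (h2 h1) hv
  obtain ⟨σ, hσ, e⟩ := (hρ.mono GP_le).exists_sub hst
  have := Submodule.nontrivial_iff_ne_bot.2 h0
  obtain ⟨⟨v, hv⟩, hv0, hb⟩ := lie_kolchin (τ.cc_cent hG hT).1.irr (τ.cc_cent hG hT).2 hσ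
  have hv1 : v ≠ 0 := fun e => hv0 (Subtype.ext e)
  have hW : Submodule.span k {v} ≤ τ.w ρ x₀ := (Submodule.span_singleton_le_iff_mem _ _).2 hv
  have h3 := τ.span_U hG hTG hρ hs y (W := Submodule.span k {v})
    (by rwa [Ne, Submodule.span_singleton_eq_bot]) (fun g hg w hw => by
      rw [τ.Z_eq_of_rg hy] at hg
      obtain ⟨a, rfl⟩ := Submodule.mem_span_singleton.1 hw
      obtain ⟨b, hb⟩ := hb g hg
      have : ρ g v = b • v := (e g hg ⟨v, hv⟩).symm.trans (congrArg Subtype.val hb)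
      rw [map_smul, this]
      exact Submodule.smul_mem _ _ (Submodule.smul_mem _ _ (Submodule.mem_span_singleton_self v)))
    fun u hu w hw => τ.top_fix hm hTG hρ hu (hW hw)
  have h4 : ⊤ ≤ Submodule.span k {v} ⊔ ⨆ z ∈ {z | z ⬝ᵥ y < x₀ ⬝ᵥ y}, τ.w ρ z := by
    rw [← h3, Submodule.span_le]
    rintro _ ⟨u, hu, w, hw, rfl⟩
    have h1 := τ.shift_w (sga_pos (-y)) hTG hρ hu (hW hw)
    have h2 : ⨆ z ∈ (x₀ + ·) '' {x | 0 < x ⬝ᵥ -y}, τ.w ρ z ≤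
        ⨆ z ∈ {z | z ⬝ᵥ y < x₀ ⬝ᵥ y}, τ.w ρ z := by
      refine biSup_mono ?_
      rintro _ ⟨p, hp, rfl⟩
      have h4 : 0 < p ⬝ᵥ -y := hp
      rw [dotProduct_neg] at h4
      change (x₀ + p) ⬝ᵥ y < _
      rw [add_dotProduct]
      omega
    simpa using Submodule.add_mem_sup hw (h2 h1)
  have key : ∀ x, x₀ ⬝ᵥ y ≤ x ⬝ᵥ y → ∀ w ∈ τ.w ρ x,
      ∃ s ∈ Submodule.span k {v}, w = Finsupp.single x₀ s x := by
    intro x hx w hw
    obtain ⟨s, hs, t, ht, e⟩ := Submodule.mem_sup.1 (h4 (Submodule.mem_top (x := w)))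
    obtain ⟨c, c1, c2, c3⟩ := τ.exists_comp_of_mem ht
    have := τ.comp_unique (c := Finsupp.single x w) (d := Finsupp.single x₀ s + c)
      (τ.top_single hw) (fun z => add_mem (τ.top_single (hW hs) z) (c1 z)) (by
        rw [Finsupp.sum_add_index' (fun _ => rfl) (fun _ _ _ => rfl), c3,
          Finsupp.sum_single_index rfl, Finsupp.sum_single_index rfl, e])
    have h5 := DFunLike.congr_fun this x
    rw [Finsupp.single_eq_same, Finsupp.add_apply, c2 x (not_lt.2 hx), add_zero] at h5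
    exact ⟨s, hs, h5⟩
  refine ⟨x₀, ⟨h0, fun x hx hne => ?_⟩, v, hv1, le_antisymm (fun w hw => ?_) hW⟩
  · by_contra hc
    refine hx ((Submodule.eq_bot_iff _).2 fun w hw => ?_)
    obtain ⟨s, -, e⟩ := key x (not_lt.1 hc) w hw
    rwa [Finsupp.single_eq_of_ne hne] at e
  · obtain ⟨s, hs, e⟩ := key x₀ le_rfl w hw
    rwa [e, Finsupp.single_eq_same]

theorem Ext.line {x₀ : τ.X} (h : τ.Ext ρ x₀) (hG : CC G) (hT : MaxTor G T) (hρ : IsRep G ρ)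
    (hs : Simp G ρ) : ∃ (v : V) (l : Module.Dual k V), l v = 1 ∧ τ.IsCo ρ x₀ l ∧
      τ.w ρ x₀ = Submodule.span k {v} := by
  obtain ⟨y, hy, h⟩ := h
  obtain ⟨x₁, h1, v, hv, e⟩ := τ.exists_top hG hT hρ hs hy
  obtain rfl := Top.unique τ h h1
  obtain ⟨l, h2, h3⟩ := τ.dg.exists_dual (hρ.mono hT.prop.1) (I := Unit) (e := fun _ => v)
    (wt := fun _ => τ.χ x₀) (linearIndependent_unique_iff.2 hv)
    fun _ => by
      change v ∈ τ.w ρ x₀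
      rw [e]
      exact Submodule.mem_span_singleton_self v
  have h4 : l () v = 1 := by simpa using h2 () ()
  refine ⟨v, l (), h4, ⟨fun h5 => ?_, fun x hx => h3 () _ fun h5 => hx (τ.χ_inj h5)⟩, e⟩
  simp [h5] at h4

theorem Ext.mem_cone {x₀ : τ.X} (h : τ.Ext ρ x₀) (hG : CC G) (hT : MaxTor G T) (hρ : IsRep G ρ)
    (hs : Simp G ρ) {C : Set V} (hC : Cone G ρ C) (h0 : ∃ v ∈ C, v ≠ 0) {v : V}
    (hv : v ∈ τ.w ρ x₀) : v ∈ C := by
  obtain ⟨v₀, l, -, hl, e⟩ := Ext.line τ h hG hT hρ hs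
  obtain ⟨y, -, h⟩ := h
  have hTG : T ≤ G := hT.prop.1
  obtain ⟨w, hw, hlw⟩ : ∃ w ∈ C, l w ≠ 0 := by
    by_contra hc
    refine hl.1 (LinearMap.ker_eq_top.1 (top_le_iff.1 ?_))
    rw [← hs.span_eq_top hC.2.2 h0, Submodule.span_le]
    intro w hw
    by_contra h1
    exact hc ⟨w, hw, h1⟩
  obtain ⟨c, hc, rfl⟩ := τ.exists_comp (hρ.mono hTG) w
  have h1 := τ.top_mem_cone ⟨hC.1, hC.2.1, fun g hg => hC.2.2 g (hTG hg)⟩ hc hw
    fun x hx => τ.top_le h x (τ.top_ne hc hx)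
  rw [top_filter c (p := fun x => x ⬝ᵥ y = x₀ ⬝ᵥ y) (x₀ := x₀) rfl fun x hx hp => by
    by_contra h2
    exact (h.2 x (τ.top_ne hc hx) h2).ne hp] at h1
  rw [τ.top_co hc hl] at hlw
  obtain ⟨a, ha⟩ := Submodule.mem_span_singleton.1 (e ▸ hc x₀)
  obtain ⟨b, rfl⟩ := Submodule.mem_span_singleton.1 (e ▸ hv)
  have ha0 : a ≠ 0 := by
    rintro rfl
    rw [← ha, zero_smul, map_zero] at hlw
    exact hlw rfl
  have := hC.2.1 (b / a) _ h1
  rwa [← ha, smul_smul, div_mul_cancel₀ _ ha0] at this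

theorem Ext.closed_orbC {x₀ : τ.X} (h : τ.Ext ρ x₀) (hG : CC G) (hT : MaxTor G T)
    (hρ : IsRep G ρ) (hs : Simp G ρ) {v : V} (hv : v ∈ τ.w ρ x₀) :
    Closed (OV k V) (orbC G ρ v) := by
  by_cases h0 : v = 0
  · intro w hw
    refine ⟨0, 1, G.one_mem, ?_⟩
    rw [zero_smul, ← Module.forall_dual_apply_eq_zero_iff k]
    intro l
    refine hw l (Algebra.subset_adjoin ⟨l, rfl⟩) ?_
    rintro _ ⟨a, g, -, rfl⟩
    simp [h0]
  have := hs.1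
  obtain ⟨w, -, hw, hc⟩ := Cone.exists_closed_orbC hG.closed hρ (C := univ)
    ⟨closed_univ, fun _ _ _ => trivial, fun _ _ _ _ => trivial⟩ ⟨v, trivial, h0⟩
  rwa [orbC_eq hρ (Ext.mem_cone τ h hG hT hρ hs (cone_orbC hρ hc)
    ⟨w, ⟨1, 1, G.one_mem, by rw [hρ.one, one_smul]; rfl⟩, hw⟩ hv) h0]

theorem Ext.of_mem_orbC {x₀ : τ.X} (h : τ.Ext ρ x₀) (hG : CC G) (hT : MaxTor G T)
    (hρ : IsRep G ρ) {v w : V} (hv : v ∈ τ.w ρ x₀) (hw : w ∈ orbC G ρ v) (h0 : w ≠ 0) {x : τ.X}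
    (hx : w ∈ τ.w ρ x) : τ.Ext ρ x ∧ ∃ g ∈ G, ∃ a a', τ.Act g a a' ∧ a x₀ = x := by
  have hTG : T ≤ G := hT.prop.1
  obtain ⟨g, hg, hc, b, rfl⟩ := hT.exists_normalizer hG.closed hρ hw h0
    (fun t ht => (mem_stabL hρ).2 ⟨hTG ht, _, hv ⟨t, ht⟩⟩)
    fun t ht => (mem_stabL hρ).2 ⟨hTG ht, _, hx ⟨t, ht⟩⟩
  obtain ⟨a, a', ha⟩ := τ.exists_act_of_cj hc
  obtain rfl : a x₀ = x := by
    by_contra e
    exact h0 (Submodule.disjoint_def.1 ((τ.iSupIndep_w ρ).pairwiseDisjoint e) _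
      (Submodule.smul_mem _ _ (ha.map_w hρ hTG hg hv)) hx)
  obtain ⟨y, hy, h⟩ := h
  exact ⟨⟨_, ha.rg hy, ha.top hρ hTG hg h⟩, g, hg, a, a', ha, rfl⟩

theorem Ext.exists_co {x₀ : τ.X} (h : τ.Ext ρ x₀) (hG : CC G) (hT : MaxTor G T) (hρ : IsRep G ρ)
    (hs : Simp G ρ) {v w : V} (hv : v ∈ τ.w ρ x₀) (hw : w ∈ orbC G ρ v) (h0 : w ≠ 0) :
    ∃ x, τ.Ext ρ x ∧ ∀ l, τ.IsCo ρ x l → l w ≠ 0 := by
  have hTG : T ≤ G := hT.prop.1
  have hC := cone_orbC hρ (Ext.closed_orbC τ h hG hT hρ hs hv)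
  obtain ⟨c, hc, rfl⟩ := τ.exists_comp (hρ.mono hTG) w
  have hne : c.support.Nonempty := by
    rw [Finsupp.support_nonempty_iff]
    rintro rfl
    exact h0 Finsupp.sum_zero_index
  obtain ⟨y, hy, -⟩ := exists_refine
    (c.support.finite_toSet.image2 (fun a b => a - b) c.support.finite_toSet) 0
  obtain ⟨x, hx, hm⟩ := c.support.exists_max_image (fun x => x ⬝ᵥ y) hne
  have h1 := τ.top_mem_cone ⟨hC.1, hC.2.1, fun g hg => hC.2.2 g (hTG hg)⟩ hc hw hm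
  rw [top_filter c (p := fun z => z ⬝ᵥ y = x ⬝ᵥ y) (x₀ := x) rfl fun z hz hp => by
    by_contra h2
    refine hy _ ⟨z, hz, x, hx, rfl⟩ (sub_ne_zero.2 h2) ?_
    rw [sub_dotProduct, hp, sub_self]] at h1
  have h2 := Finsupp.mem_support_iff.1 hx
  have h3 := (Ext.of_mem_orbC τ h hG hT hρ hv h1 h2 (hc x)).1
  refine ⟨x, h3, fun l hl h4 => hl.1 (LinearMap.ext fun z => ?_)⟩
  obtain ⟨v₀, -, -, -, e⟩ := Ext.line τ h3 hG hT hρ hs
  rw [τ.top_co hc hl] at h4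
  obtain ⟨a, ha⟩ := Submodule.mem_span_singleton.1 (e ▸ hc x)
  rw [← ha, map_smul, smul_eq_zero] at h4
  have h5 : l v₀ = 0 := h4.resolve_left (by
    rintro rfl
    exact h2 (by rw [← ha, zero_smul]))
  refine τ.top_ind (hρ.mono hTG) (W := LinearMap.ker l) (fun x' => ?_) z
  by_cases e' : x' = x
  · rw [e', e, Submodule.span_singleton_le_iff_mem]
    exact h5
  · exact hl.2 x' e'

end TD

end Pool.Agent.AG
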