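import Pool.Agent.Lib.AG.Jordan

/-! Tori: coordinates. -/

namespace Pool.Agent.AG

open Set

universe u

variable {k : Type u} [Field k] [IsAlgClosed k] [Fact (ringChar k).Prime] {n : ℕ}
  {G D T S : Subgroup (Gl n k)}

section aux

omit [IsAlgClosed k] [Fact (ringChar k).Prime]

/-- Invertible diagonal matrices. -/
private def dgH (n : ℕ) (k : Type u) [Field k] : (Fin n → kˣ) →* Gl n k :=
  (Units.map (Matrix.diagonalRingHom (Fin n) k).toMonoidHom).comp
    (MulEquiv.piUnits (M := fun _ : Fin n => k)).symm.toMonoidHom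

private theorem dgH_val (d : Fin n → kˣ) : (dgH n k d).1 = Matrix.diagonal fun i => (d i : k) :=
  rfl

private theorem dgH_reg (m : Fin n → ℤ) (i j : Fin n) :
    RegOn (OU k) univ fun a : kˣ => (dgH n k fun i => a ^ m i).1 i j := by
  simp only [dgH_val, Matrix.diagonal_apply]
  split_ifs
  · exact regOn_unit_zpow _
  · exact .const 0

private theorem dgH_mapOn (m : Fin n → ℤ) :
    MapOn (OU k) univ (OG k n) fun a : kˣ => dgH n k fun i => a ^ m i := by
  refine .toOG (dgH_reg m) fun i j => (dgH_reg (-m) i j).congr fun a _ => ?_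
  rw [← map_inv, show (fun l => a ^ (-m) l) = (fun l => a ^ m l)⁻¹ from funext fun l => by simp]

/-- The characters that are regular together with their inverses. -/
private def rcs (T : Subgroup (Gl n k)) : Subgroup (T →* kˣ) where
  carrier := {γ | RegChar γ ∧ RegChar γ⁻¹}
  one_mem' := ⟨⟨1, one_mem _, fun _ => rfl⟩, ⟨1, one_mem _, fun _ => by simp⟩⟩
  mul_mem' := by
    rintro γ δ ⟨⟨F, hF, e⟩, F', hF', e'⟩ ⟨⟨E, hE, d⟩, E', hE', d'⟩
    refine ⟨⟨F * E, mul_mem hF hE, fun t => ?_⟩, F' * E', mul_mem hF' hE', fun t => ?_⟩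
    · rw [Pi.mul_apply, e, d, MonoidHom.mul_apply, Units.val_mul]
    · rw [Pi.mul_apply, e', d', ← Units.val_mul]
      exact congrArg Units.val (mul_inv (γ t) (δ t)).symm
  inv_mem' {γ} h := ⟨h.2, (inv_inv γ).symm ▸ h.1⟩

/-- A regular endomorphism of the multiplicative group is a power. -/
private theorem hom_zpow (g : kˣ →* kˣ) (hg : (fun a => (g a : k)) ∈ OU k) :
    ∃ m : ℤ, ∀ a, g a = a ^ m := by
  obtain ⟨N, q, hq⟩ := mem_OU.1 hg
  let pw : ℕ → (kˣ →* k) := fun j => (Units.coeHom k).comp (powMonoidHom j)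
  let g' : kˣ →* k := (Units.coeHom k).comp (powMonoidHom N * g)
  have h1 : g' ∈ range pw := by
    by_contra hn
    refine (linearIndependent_monoidHom kˣ k).notMem_span_image hn ?_
    have e : (g' : kˣ → k) =
        ∑ j ∈ Finset.range (q.natDegree + 1), q.coeff j • (pw j : kˣ → k) := by
      funext a
      have := hq a
      rw [Polynomial.eval_eq_sum_range] at this
      simpa [g', pw] using this
    rw [e]
    exact Submodule.sum_mem _ fun j _ => Submodule.smul_mem _ _
      (Submodule.subset_span ⟨pw j, ⟨j, rfl⟩, rfl⟩)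
  obtain ⟨j, hj⟩ := h1
  refine ⟨j - N, fun a => ?_⟩
  have h2 : a ^ j = a ^ N * g a := Units.ext (DFunLike.congr_fun hj a)
  rw [zpow_sub, zpow_natCast, zpow_natCast, h2, mul_comm, inv_mul_cancel_left]

private theorem zpow_ne [Infinite k] {m : ℤ} (h : ∀ a : kˣ, a ^ m = 1) : m = 0 := by
  have h1 : (Polynomial.X : Polynomial k) ^ (m.natAbs + 1) = Polynomial.X := by
    refine Polynomial.funext fun r => ?_
    rcases eq_or_ne r 0 with rfl | hr
    · simp
    · have h2 : Units.mk0 r hr ^ m.natAbs = 1 := by rw [pow_natAbs_eq_one]; exact h _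
      have h3 : r ^ m.natAbs = 1 := by simpa using congrArg Units.val h2
      simp [pow_succ, h3]
  have h2 := congrArg Polynomial.natDegree h1
  rw [Polynomial.natDegree_X_pow, Polynomial.natDegree_X] at h2
  omega

private theorem diag_ext {P t t' : Gl n k} (h : (P * t * P⁻¹).1.IsDiag)
    (h' : (P * t' * P⁻¹).1.IsDiag) (e : ∀ i, (P * t * P⁻¹).1 i i = (P * t' * P⁻¹).1 i i) :
    t = t' := by
  have h1 : P * t * P⁻¹ = P * t' * P⁻¹ := by
    refine Units.ext (Matrix.ext fun i j => ?_)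
    rcases eq_or_ne i j with rfl | hij
    · exact e i
    · rw [h hij, h' hij]
  exact mul_left_cancel (mul_right_cancel h1)

private theorem conj_cancel (P x : Gl n k) : P * (P⁻¹ * x * P) * P⁻¹ = x := by group

end aux

/-- A finitely generated torsion-free commutative group is a lattice. -/
private theorem lattice {A : Type*} [CommGroup A] (ε : Fin n → A)
    (hε : ∀ (m : Fin n → ℤ) (c : ℤ), (∏ i, ε i ^ m i) ^ c = 1 → c = 0 ∨ ∏ i, ε i ^ m i = 1) :
    ∃ (r : ℕ) (χ : (Fin r → ℤ) → A) (w : Fin n → Fin r → ℤ), Function.Injective χ ∧ χ 0 = 1 ∧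
      (∀ x y, χ (x + y) = χ x * χ y) ∧ (∀ i, χ (w i) = ε i) ∧
      (∀ m : Fin n → ℤ, χ (∑ i, m i • w i) = ∏ i, ε i ^ m i) ∧
      (∀ x, χ x = ∏ j, χ (Pi.single j 1) ^ x j) ∧ ∀ x, ∃ m : Fin n → ℤ, x = ∑ i, m i • w i := by
  let e := Fintype.linearCombination ℤ fun i => Additive.ofMul (ε i)
  have hf : Module.IsTorsionFree ℤ (LinearMap.range e) := by
    refine .of_smul_eq_zero fun c x hx => ?_
    obtain ⟨_, m, rfl⟩ := x
    have h1 : (e m).toMul = ∏ i, ε i ^ m i := by
      rw [Fintype.linearCombination_apply, toMul_sum]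
      rfl
    have h3 : (e m).toMul ^ c = 1 := congrArg Subtype.val hx
    rw [h1] at h3
    exact (hε m c h3).imp_right fun h4 => Subtype.ext (h1.trans h4)
  let b := (Module.finBasis ℤ (LinearMap.range e)).equivFun
  have hm : ∀ i, Additive.ofMul (ε i) ∈ LinearMap.range e := fun i =>
    ⟨Pi.single i 1, by simp [e]⟩
  let χ := (LinearMap.range e).subtype.comp b.symm.toLinearMap
  have hw : ∀ i, χ (b ⟨_, hm i⟩) = .ofMul (ε i) := fun i => by simp [χ]
  refine ⟨_, fun x => (χ x).toMul, fun i => b ⟨_, hm i⟩,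
    Additive.toMul.injective.comp (Subtype.val_injective.comp b.symm.injective), by simp,
    fun x y => by simp, fun i => congrArg Additive.toMul (hw i), fun m => ?_, fun x => ?_, fun x => ?_⟩
  · simp only [map_sum, map_zsmul, hw, toMul_sum, toMul_zsmul, toMul_ofMul]
  · have h1 : x = ∑ j, x j • Pi.single j 1 := by
      funext l
      simp [Finset.sum_apply, Pi.single_apply]
    conv_lhs => rw [h1]
    simp only [map_sum, map_zsmul, toMul_sum, toMul_zsmul]
  · obtain ⟨m, hx⟩ := (b.symm x).2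
    refine ⟨m, b.symm.injective (Subtype.ext ?_)⟩
    rw [← hx, map_sum, Submodule.coe_sum, Fintype.linearCombination_apply]
    refine Finset.sum_congr rfl fun i _ => ?_
    rw [map_zsmul, LinearEquiv.symm_apply_apply]
    rfl

private theorem prod_zpow_apply {A B ι : Type*} [Group A] [CommGroup B] [Fintype ι]
    (ε : ι → (A →* B)) (m : ι → ℤ) (t : A) : (∏ i, ε i ^ m i) t = ∏ i, ε i t ^ m i := by
  simp only [MonoidHom.finsetProd_apply, MonoidHom.zpow_apply]

theorem coch_iff {f : kˣ → Gl n k} : Coch T f ↔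
    (∀ a, f a ∈ T) ∧ (∀ a b, f (a * b) = f a * f b) ∧ MapOn (OU k) univ (OG k n) f := by
  refine and_congr_right fun _ => and_congr_right fun hm => ⟨fun ⟨m, h⟩ => ?_, fun h => ?_⟩
  · have h1 : ∀ i j, RegOn (OU k) univ fun a => (f a).1 i j := fun i j =>
      (h i j).elim fun q hq => .of_mem (mem_OU.2 ⟨m, q, hq⟩)
    have h2 : MapOn (OU k) univ (OU k) fun a : kˣ => a⁻¹ :=
      .toOU regOn_unit_inv (by simpa only [inv_inv] using regOn_unit)
    refine .toOG h1 fun i j => ((h1 i j).comp h2 (mapsTo_univ _ _)).congr fun a _ => ?_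
    exact congrArg (fun g : Gl n k => g.1 i j) (map_inv (MonoidHom.mk' f hm) a)
  · choose m q hq using fun i j => mem_OU.1 (h.entry i j).mem
    refine ⟨Finset.univ.sup fun x : Fin n × Fin n => m x.1 x.2, fun i j => ?_⟩
    obtain ⟨c, hc⟩ := Nat.exists_eq_add_of_le
      (Finset.le_sup (f := fun x : Fin n × Fin n => m x.1 x.2) (Finset.mem_univ (i, j)))
    refine ⟨Polynomial.X ^ c * q i j, fun a => ?_⟩
    rw [hc, Polynomial.eval_mul, Polynomial.eval_pow, Polynomial.eval_X, ← hq, pow_add]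
    ring

theorem Tor.exists_TD (h : Tor T) : Nonempty (TD T) := by
  obtain ⟨P, hP⟩ := h.2
  obtain ⟨ε, hε⟩ := exists_diagChar hP
  have hr : ∀ m : Fin n → ℤ, ∏ i, ε i ^ m i ∈ rcs T := fun m =>
    prod_mem fun i _ => zpow_mem (show ε i ∈ rcs T from ⟨(hε i).1, (hε i).2.1⟩) _
  obtain ⟨r, χ, w, hi, h0, hadd, hw, hs, hb, hg⟩ := lattice ε fun m c hc =>
    ((hr m).1.trivial_or_surj h.1).symm.imp_left fun h2 => zpow_ne (k := k) fun a => by
      obtain ⟨t, rfl⟩ := h2 a
      exact DFunLike.congr_fun hc t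
  have hv : ∀ (m : Fin n → ℤ) (t : T), ((χ (∑ i, m i • w i) t : kˣ) : k) =
      ∏ i, (P * t.1 * P⁻¹).1 i i ^ m i := fun m t => by
    rw [hs, (prod_zpow_apply ε m t :), Units.coe_prod]
    refine Finset.prod_congr rfl fun i _ => ?_
    rw [Units.val_zpow_eq_zpow_val, (hε i).2.2]
  have hφ : ∀ (φ : Multiplicative (Fin r → ℤ) →* kˣ) (m : Fin n → ℤ),
      φ (.ofAdd (∑ i, m i • w i)) = ∏ i, φ (.ofAdd (w i)) ^ m i := fun φ m => by
    simp only [ofAdd_sum, ofAdd_zsmul, map_prod, map_zpow]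
  have hd : ∀ (d m : Fin n → _), ∏ i, (P * (P⁻¹ * dgH n k d * P) * P⁻¹).1 i i ^ m i =
      ((∏ i, d i ^ (m i : ℤ) : kˣ) : k) := fun d m => by
    simp only [conj_cancel, dgH_val, Matrix.diagonal_apply_eq, Units.coe_prod,
      Units.val_zpow_eq_zpow_val]
  have mem : ∀ φ : Multiplicative (Fin r → ℤ) →* kˣ,
      P⁻¹ * (dgH n k fun i => φ (.ofAdd (w i))) * P ∈ T := fun φ => by
    refine mem_of_rel h.1.closed hP (by rw [conj_cancel]; exact Matrix.isDiag_diagonal _)
      fun m hm => ?_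
    have h1 : ∑ i, m i • w i = 0 := by
      refine hi (MonoidHom.ext fun t => Units.ext ?_)
      rw [hv, hm t.1 t.2, h0]
      rfl
    rw [hd, ← hφ, h1, ofAdd_zero, map_one, Units.val_one]
  have val : ∀ (φ : Multiplicative (Fin r → ℤ) →* kˣ) x,
      χ x ⟨_, mem φ⟩ = φ (.ofAdd x) := fun φ x => by
    obtain ⟨m, rfl⟩ := hg x
    exact Units.ext (by rw [hv, hd, hφ])
  have sep : ∀ t t' : T, (∀ x, χ x t = χ x t') → t = t' := fun t t' e => by
    refine Subtype.ext (diag_ext (hP _ t.2) (hP _ t'.2) fun i => ?_)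
    have := e (w i)
    rw [hw] at this
    rw [← (hε i).2.2, ← (hε i).2.2, this]
  have reg : ∀ x, RegChar (χ x) := fun x => by
    obtain ⟨m, rfl⟩ := hg x
    rw [hs]
    exact (hr m).1
  let ψ : (Fin r → ℤ) → kˣ → (Multiplicative (Fin r → ℤ) →* kˣ) := fun y a =>
    MonoidHom.mk' (fun x => a ^ (x.toAdd ⬝ᵥ y)) fun x x' => by
      rw [toAdd_mul, add_dotProduct, zpow_add]
  have cm : ∀ d d' : Fin n → kˣ, P⁻¹ * dgH n k (fun i => d i * d' i) * P =
      P⁻¹ * dgH n k d * P * (P⁻¹ * dgH n k d' * P) := fun d d' => by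
    rw [show (fun i => d i * d' i) = d * d' from rfl, map_mul]
    group
  refine ⟨{
    r := r
    χ := χ
    co := fun y a => P⁻¹ * (dgH n k fun i => a ^ (w i ⬝ᵥ y)) * P
    H := AddMonoidHom.mk'
      (fun y => P⁻¹.1 * (Matrix.diagonal fun i => ((w i ⬝ᵥ y : ℤ) : k)) * P.1) fun y y' => ?_
    tor := h
    χ_add := hadd
    coch := fun y => coch_iff.2 ⟨fun a => mem (ψ y a), fun a b => ?_,
      ((MapOn.const _).mul (dgH_mapOn _)).mul (.const _)⟩
    co_add := fun y y' a => ?_
    pair := fun x y a => val (ψ y a) x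
    sep := fun t ht => sep t 1 fun x => by rw [ht, map_one]
    surj := fun φ => ⟨_, val φ⟩
    reg := reg
    span := fun F hF => ?_
    all_co := fun f hf => ?_
    H_nat := fun x y v hv' => ?_ }⟩
  · rw [← add_mul, ← mul_add, Matrix.diagonal_add]
    simp only [dotProduct_add, Int.cast_add]
  · simp only [mul_zpow, cm]
  · simp only [dotProduct_add, zpow_add, cm]
  · obtain ⟨c, hc⟩ := span_monomial P hF
    refine ⟨c.mapDomain fun m => ∑ i, m i • w i, fun t => ?_⟩
    rw [hc t.1 (hP _ t.2), Finsupp.sum_mapDomain_index (fun _ => zero_mul _)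
      fun _ _ _ => add_mul _ _ _]
    simp only [hv]
  · let f' : kˣ →* T := MonoidHom.mk' (fun a => ⟨f a, hf.1 a⟩) fun a b => Subtype.ext (hf.2.1 a b)
    have h1 : ∀ x, ∃ m : ℤ, ∀ a, χ x (f' a) = a ^ m := fun x => by
      obtain ⟨F, hF, e⟩ := reg x
      exact hom_zpow ((χ x).comp f')
        (((coch_iff.1 hf).2.2 F hF).congr fun a _ => e (f' a)).mem
    choose m hm using h1
    refine ⟨fun j => m (Pi.single j 1), funext fun a =>
      congrArg Subtype.val (sep (f' a) ⟨_, mem (ψ _ a)⟩ fun x => ?_)⟩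
    rw [val, hb x, (prod_zpow_apply (fun j => χ (Pi.single j 1)) x (f' a) :)]
    simp only [hm, ψ, MonoidHom.mk'_apply, toAdd_ofAdd, dotProduct, ← zpow_mul]
    simp only [mul_comm (x _)]
    exact (map_prod (zpowersHom kˣ a) (fun j => .ofAdd (m (Pi.single j 1) * x j)) _).symm
  · have h1 : ∀ i, (P.1.mulVec v) i ≠ 0 → w i = x := fun i hne => by
      refine hi (MonoidHom.ext fun t => Units.ext ?_)
      have h2 : (P * t.1 * P⁻¹).1.mulVec (P.1.mulVec v) = (χ x t : k) • P.1.mulVec v := by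
        rw [Matrix.mulVec_mulVec, ← Units.val_mul, inv_mul_cancel_right, Units.val_mul,
          ← Matrix.mulVec_mulVec, ← nat_apply t.1, mem_wV.1 hv' t, Matrix.mulVec_smul]
      have h3 := congrFun h2 i
      rw [← (hP _ t.2).diagonal_diag, Matrix.mulVec_diagonal, Matrix.diag_apply,
        ← (hε i).2.2] at h3
      rw [hw]
      exact mul_right_cancel₀ hne h3
    have h2 : (Matrix.diagonal fun i => ((w i ⬝ᵥ y : ℤ) : k)).mulVec (P.1.mulVec v) =
        ((x ⬝ᵥ y : ℤ) : k) • P.1.mulVec v := by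
      funext i
      rw [Matrix.mulVec_diagonal, Pi.smul_apply, smul_eq_mul]
      rcases eq_or_ne (P.1.mulVec v i) 0 with h0 | h0
      · rw [h0, mul_zero, mul_zero]
      · rw [h1 i h0]
    rw [AddMonoidHom.mk'_apply, ← Matrix.mulVec_mulVec, ← Matrix.mulVec_mulVec, h2,
      Matrix.mulVec_smul, Matrix.mulVec_mulVec, Units.inv_mul, Matrix.one_mulVec]

end Pool.Agent.AG
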