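import Pool.Agent.Lib.AG.PnEx
import Pool.Agent.Lib.AG.RootA

/-! The Weyl group. -/

namespace Pool.Agent.AG

open Set Matrix

attribute [local instance 100] LieRing.ofAssociativeRing

universe u

variable {k : Type u} [Field k] [IsAlgClosed k] [Fact (ringChar k).Prime] {n : ℕ}
  {G T : Subgroup (Gl n k)} {τ : TD T} (D : Pn G τ)

namespace Pn

theorem exists_regular : ∃ y : τ.X, ∀ i, D.P.root i ⬝ᵥ y ≠ 0 := by
  obtain ⟨y, hy, -⟩ := exists_refine (finite_range D.P.root) 0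
  exact ⟨y, fun i => hy _ (mem_range_self i) (D.P.ne_zero i)⟩

theorem exists_base' {y : τ.X} (hy : ∀ i, D.P.root i ⬝ᵥ y ≠ 0) :
    ∃ b : D.P.Base, ∀ i, b.IsPos i ↔ 0 < D.P.root i ⬝ᵥ y := by
  simpa only [D.pair] using exists_base D.P y (by simpa only [D.pair] using hy)

theorem mem_T_of_pos (hG : Red G) (hT : MaxTor G T) {y : τ.X} (hy : ∀ i, D.P.root i ⬝ᵥ y ≠ 0)
    {g : Gl n k} (hg : g ∈ G) {a a' : τ.X ≃+ τ.X} (h : τ.Act g a a')
    (hp : ∀ i, 0 < D.P.root i ⬝ᵥ y → 0 < a (D.P.root i) ⬝ᵥ y) : g ∈ T := by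
  have hR : ∀ x ∈ τ.Rt G, ∃ i, D.P.root i = x := fun x hx => by rwa [← D.range_root] at hx
  have h1 : ∀ j, ∀ x ∈ τ.Rt G, 0 < x ⬝ᵥ y → 0 < x ⬝ᵥ (a'.symm : τ.X → τ.X)^[j] y := fun j => by
    induction j with
    | zero => exact fun _ _ h => h
    | succ j ih =>
      intro x hx h0
      rw [Function.iterate_succ_apply', ← h.dot, AddEquiv.apply_symm_apply]
      refine ih _ (h.map_Rt τ hg hx) ?_
      obtain ⟨i, rfl⟩ := hR x hx
      exact hp i h0
  obtain ⟨m, hm, -, h2⟩ := h.inv.finite_order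
  have h3 : ∀ x ∈ τ.Rt G, 0 < x ⬝ᵥ y →
      0 < x ⬝ᵥ ∑ j ∈ Finset.range m, (a'.symm : τ.X → τ.X)^[j] y := fun x hx h0 => by
    rw [dotProduct_sum]
    exact Finset.sum_pos (fun j _ => h1 j x hx h0) (Finset.nonempty_range_iff.2 hm.ne')
  have h4 : a'.symm (∑ j ∈ Finset.range m, (a'.symm : τ.X → τ.X)^[j] y) =
      ∑ j ∈ Finset.range m, (a'.symm : τ.X → τ.X)^[j] y := by
    have := Finset.sum_range_succ (fun j => (a'.symm : τ.X → τ.X)^[j] y) m
    rw [Finset.sum_range_succ', h2] at this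
    rw [map_sum, ← add_right_cancel this]
    exact Finset.sum_congr rfl fun j _ => (Function.iterate_succ_apply' _ _ _).symm
  generalize ∑ j ∈ Finset.range m, (a'.symm : τ.X → τ.X)^[j] y = z at h3 h4
  rw [← T.inv_mem_iff, ← τ.Z_eq_of_Rt hG hT (y := z) fun x hx => ?_, τ.mem_Z]
  · refine ⟨G.inv_mem hg, fun c => ?_⟩
    have := h.inv.co z c
    rw [h4, mul_inv_eq_iff_eq_mul] at this
    exact this.symm
  · obtain ⟨i, rfl⟩ := hR x hx
    rcases (hy i).lt_or_gt with h0 | h0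
    · have := h3 (-D.P.root i) (by
        rw [← D.range_root]
        exact (D.P.neg_mem_range_root_iff).2 (mem_range_self i)) (by
        rw [neg_dotProduct]
        exact neg_pos.2 h0)
      rw [neg_dotProduct] at this
      exact (neg_pos.1 this).ne
    · exact (h3 _ hx h0).ne'

theorem exists_act_of_weyl (w : D.P.weylGroup) :
    ∃ g ∈ G, ∃ a a', τ.Act g a a' ∧ ∀ v, a v = w • v := by
  obtain ⟨w, hw⟩ := w
  change ∃ g ∈ G, ∃ a a', τ.Act g a a' ∧ ∀ v, a v = w • v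
  induction hw using RootPairing.weylGroup.induction with
  | mem i => exact D.refl i
  | one => exact ⟨1, G.one_mem, _, _, TD.act_of_comm fun t _ => by rw [one_mul, mul_one],
      fun _ => rfl⟩
  | mul x y _ _ hx hy =>
    obtain ⟨g, hg, a, a', h, e⟩ := hx
    obtain ⟨g', hg', b, b', h', e'⟩ := hy
    exact ⟨_, G.mul_mem hg hg', _, _, h.mul h', fun v => by
      rw [AddEquiv.trans_apply, e', e, mul_smul]⟩

theorem exists_weyl_of_act (hG : Red G) (hT : MaxTor G T) {g : Gl n k} (hg : g ∈ G)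
    {a a' : τ.X ≃+ τ.X} (h : τ.Act g a a') : ∃ w : D.P.weylGroup, ∀ v, a v = w • v := by
  have hR : ∀ {g : Gl n k} {a a' : τ.X ≃+ τ.X}, g ∈ G → τ.Act g a a' →
      ∀ i, ∃ j, a (D.P.root i) = D.P.root j := fun hg h i => by
    have := h.map_Rt τ hg (D.range_root ▸ mem_range_self i)
    rw [← D.range_root] at this
    exact this.imp fun _ => Eq.symm
  obtain ⟨y, hy⟩ := D.exists_regular
  obtain ⟨b, hb⟩ := D.exists_base' hy
  obtain ⟨w, hw⟩ := exists_weyl_pos D.P b a (hR hg h)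
  obtain ⟨g', hg', c, c', h', e⟩ := D.exists_act_of_weyl w
  have h1 := D.mem_T_of_pos hG hT hy (G.mul_mem hg' hg) (h'.mul h) fun i hi => by
    obtain ⟨j, hj⟩ := hR (G.mul_mem hg' hg) (h'.mul h) i
    rw [hj, ← hb]
    exact hw i j ((hb i).2 hi) (by rw [← hj, AddEquiv.trans_apply, e])
  have h2 := ((h'.mul h).unique (TD.act_of_comm fun t ht => τ.dg.comm h1 ht)).1
  refine ⟨w⁻¹, fun v => ?_⟩
  rw [eq_inv_smul_iff, ← e]
  exact DFunLike.congr_fun h2 v

theorem card_weyl (hG : Red G) (hT : MaxTor G T) : Nat.card D.P.weylGroup =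
    T.relIndex (G ⊓ Subgroup.normalizer (T : Set (Gl n k))) := by
  have h0 : ∀ w w' : D.P.weylGroup, (∀ v : τ.X, w • v = w' • v) → w = w' := fun w w' h =>
    Subtype.ext (RootPairing.Equiv.weightHom_injective D.P (LinearEquiv.ext h))
  have h1 : ∀ g : ↥(G ⊓ Subgroup.normalizer (T : Set (Gl n k))), ∃ w : D.P.weylGroup,
      ∃ a a', τ.Act g.1 a a' ∧ ∀ v, a v = w • v := fun g => by
    have h := Subgroup.mem_normalizer_iff.1 g.2.2
    obtain ⟨a, a', h'⟩ := τ.exists_act (g := g.1) (fun t ht => (h t).1 ht) fun t ht => (h _).2 (by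
      simpa only [mul_assoc, mul_inv_cancel_left, mul_inv_cancel, mul_one] using ht)
    obtain ⟨w, hw⟩ := D.exists_weyl_of_act hG hT g.2.1 h'
    exact ⟨w, a, a', h', hw⟩
  choose f a a' h2 h3 using h1
  let φ : ↥(G ⊓ Subgroup.normalizer (T : Set (Gl n k))) →* D.P.weylGroup :=
    MonoidHom.mk' f fun g g' => h0 _ _ fun v => by
      rw [← h3, ((h2 (g * g')).unique ((h2 g).mul (h2 g'))).1, AddEquiv.trans_apply, h3, h3,
        mul_smul]
  have h4 : φ.range = ⊤ := MonoidHom.range_eq_top.2 fun w => by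
    obtain ⟨g, hg, b, b', h, e⟩ := D.exists_act_of_weyl w
    refine ⟨⟨g, hg, Subgroup.mem_normalizer_iff.2 fun t => ⟨h.mem t, fun ht => ?_⟩⟩,
      h0 _ _ fun v => ?_⟩
    · simpa only [mul_assoc, inv_mul_cancel_left, inv_mul_cancel, mul_one] using h.mem' _ ht
    · exact (h3 _ v).symm.trans (by rw [((h2 _).unique h).1, e])
  have h5 : φ.ker = T.subgroupOf _ := Subgroup.ext fun g => by
    rw [MonoidHom.mem_ker, Subgroup.mem_subgroupOf]
    refine ⟨fun h => ?_, fun h => h0 _ _ fun v => ?_⟩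
    · refine (τ.cent_eq hG hT).le
        (τ.mem_GX_zero.2 ⟨g.2.1, fun t ht => ((h2 g).comm (fun v => ?_) t ht).symm⟩)
      rw [h3, show f g = 1 from h, one_smul]
    · exact (h3 g v).symm.trans (by
        rw [((h2 g).unique (TD.act_of_comm fun t ht => τ.dg.comm h ht)).1, one_smul]; rfl)
  rw [Subgroup.relIndex, ← h5, Subgroup.index_ker, h4, Subgroup.card_top]

end Pn

end Pool.Agent.AG
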